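import Mathlib

set_option autoImplicit false

namespace Pool.Agent.H17.AMM

open Matrix Finset

variable {V : Type} [Fintype V] [DecidableEq V] {G : SimpleGraph V} [DecidableRel G.Adj]

def Reg (G : SimpleGraph V) : Prop := G.Connected ∧ ∀ u v u' v' : V, G.dist u v = G.dist u' v' →
  ∃ σ : V ≃ V, ∀ w, G.dist u' (σ w) = G.dist u w ∧ G.dist v' (σ w) = G.dist v w

theorem reg_of (hc : G.Connected) (h : ∀ u v u' v' : V, G.dist u v = G.dist u' v' → ∀ j k : ℕ,
    (Finset.univ.filter (fun w => G.dist u w = j ∧ G.dist v w = k)).card =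
    (Finset.univ.filter (fun w => G.dist u' w = j ∧ G.dist v' w = k)).card) : Reg G := by
  refine ⟨hc, fun u v u' v' e => ?_⟩
  let q : ∀ c : ℕ × ℕ, {w // (G.dist u w, G.dist v w) = c} ≃ {w // (G.dist u' w, G.dist v' w) = c} :=
    fun c => Fintype.equivOfCardEq (by
      simpa [Fintype.card_subtype, Prod.ext_iff] using h u v u' v' e c.1 c.2)
  exact ⟨Equiv.ofFiberEquiv q, fun w => Prod.mk.inj (Equiv.ofFiberEquiv_map q w)⟩

def DD (h : Reg G) : Subalgebra ℝ (Matrix V V ℝ) where
  carrier := {M | ∀ a b a' b', G.dist a b = G.dist a' b' → M a b = M a' b'}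
  mul_mem' := by
    intro M N hM hN a b a' b' e
    obtain ⟨σ, hσ⟩ := h.2 _ _ _ _ e
    rw [mul_apply, mul_apply, ← σ.sum_comp fun w => M a' w * N w b']
    refine sum_congr rfl fun w _ => ?_
    rw [hM a w a' (σ w) (hσ w).1.symm, hN w b (σ w) b' (by
      rw [G.dist_comm, ← (hσ w).2, G.dist_comm])]
  add_mem' := fun hM hN a b a' b' e => by rw [Matrix.add_apply, Matrix.add_apply, hM _ _ _ _ e, hN _ _ _ _ e]
  algebraMap_mem' := fun r a b a' b' e => by
    simp only [algebraMap_matrix_apply, ← h.1.dist_eq_zero_iff, e]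

def PS (G : SimpleGraph V) (x : V) : Submodule ℝ (V → ℝ) where
  carrier := {u | ∀ a a', G.dist x a = G.dist x a' → u a = u a'}
  add_mem' := fun hM hN a a' e => by simp only [Pi.add_apply, hM _ _ e, hN _ _ e]
  zero_mem' := fun _ _ _ => rfl
  smul_mem' := fun c _ hM a a' e => by simp only [Pi.smul_apply, hM _ _ e]

variable {h : Reg G}

theorem DD_symm {M : Matrix V V ℝ} (hM : M ∈ DD h) : Mᵀ = M := by
  ext a b; exact hM _ _ _ _ G.dist_comm

theorem DD_comm {M N : Matrix V V ℝ} (hM : M ∈ DD h) (hN : N ∈ DD h) : M * N = N * M := by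
  rw [← DD_symm (mul_mem hM hN), transpose_mul, DD_symm hM, DD_symm hN]

theorem DD_adj (h : Reg G) : G.adjMatrix ℝ ∈ DD h := fun a b a' b' e => by
  simp only [SimpleGraph.adjMatrix_apply, ← SimpleGraph.dist_eq_one_iff_adj, e]

theorem DD_vec {M : Matrix V V ℝ} (hM : M ∈ DD h) {x : V} {u : V → ℝ} (hu : u ∈ PS G x) :
    M *ᵥ u ∈ PS G x := by
  intro a a' e
  obtain ⟨σ, hσ⟩ := h.2 _ _ _ _ e
  simp only [mulVec, dotProduct]
  rw [← σ.sum_comp fun w => M a' w * u w]
  exact sum_congr rfl fun w _ => by rw [hM a w a' (σ w) (hσ w).2.symm, hu w (σ w) (hσ w).1.symm]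

theorem DD_row {M : Matrix V V ℝ} (hM : M ∈ DD h) (a a' : V) : ∑ b, M a b = ∑ b, M a' b := by
  have : (of fun _ _ => 1 : Matrix V V ℝ) ∈ DD h := fun _ _ _ _ _ => rfl
  simpa [mul_apply] using mul_mem hM this a a' a' a G.dist_comm

theorem PS_single (h : Reg G) (x : V) : Pi.single x 1 ∈ PS G x := fun a a' e => by
  simp only [Pi.single_apply, eq_comm (b := x), ← h.1.dist_eq_zero_iff, e]

theorem filt (h : Reg G) (x : V) (Z : Matrix V V ℝ) (w : V → ℝ) (h0 : Z *ᵥ Pi.single x 1 = 0)
    (h1 : G.adjMatrix ℝ * Z - Z * G.adjMatrix ℝ = diagonal w) :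
    ∀ m, ∀ u ∈ PS G x, (∀ a, m < G.dist x a → u a = 0) → ∀ a, m ≤ G.dist x a → (Z *ᵥ u) a = 0 := by
  have tri : ∀ a b, G.Adj a b → G.dist x a ≤ G.dist x b + 1 := fun a b e => by
    have := h.1.dist_triangle (u := x) (v := b) (w := a)
    rwa [SimpleGraph.dist_eq_one_iff_adj.2 e.symm] at this
  intro m
  induction m with
  | zero =>
    intro u _ hu a _
    have : u = u x • Pi.single x 1 := by
      funext b
      by_cases e : b = x
      · simp [e]
      · simp [e, hu b (h.1.pos_dist_of_ne (Ne.symm e))]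
    rw [this, mulVec_smul, h0]; simp
  | succ m ih =>
    intro u hu hs a ha
    by_cases ex : ∃ z, G.dist x z = m + 1
    swap
    · refine ih u hu (fun b hb => hs b ?_) a (by omega)
      by_contra hc
      exact ex ⟨b, by omega⟩
    obtain ⟨z, hz⟩ := ex
    let s : V → ℝ := fun b => if G.dist x b = m then 1 else 0
    have s1 : s ∈ PS G x := fun b b' e => by simp only [s, e]
    have s2 : ∀ b, m < G.dist x b → s b = 0 := fun b hb => if_neg (by omega)
    have t1 := DD_vec (DD_adj h) s1
    have t2 : (G.adjMatrix ℝ *ᵥ s) z ≠ 0 := by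
      obtain ⟨p, hp⟩ := h.1.exists_walk_length_eq_dist z x
      rw [G.dist_comm, hz] at hp
      rw [SimpleGraph.adjMatrix_mulVec_apply]
      cases p with
      | nil => simp at hp
      | @cons _ b _ e q =>
        have q1 : G.dist x b = m := by
          have := SimpleGraph.dist_le q
          have := tri _ _ e
          rw [G.dist_comm] at *
          simp only [SimpleGraph.Walk.length_cons] at hp
          rw [G.dist_comm (u := b), G.dist_comm (u := z)] at *
          omega
        refine (sum_pos' (fun c _ => ?_) ⟨b, by simpa using e, by simp [s, q1]⟩).ne'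
        simp only [s]; split_ifs <;> norm_num
    set t := G.adjMatrix ℝ *ᵥ s with ht
    have k1 := ih (u - (u z / t z) • t) (sub_mem hu (Submodule.smul_mem _ _ t1)) (fun b hb => by
      simp only [Pi.sub_apply, Pi.smul_apply, smul_eq_mul]
      by_cases e : G.dist x b = m + 1
      · rw [hu b z (e.trans hz.symm), t1 b z (e.trans hz.symm), div_mul_cancel₀ _ t2, sub_self]
      · have : t b = 0 := by
          rw [ht, SimpleGraph.adjMatrix_mulVec_apply]
          exact sum_eq_zero fun c hc => s2 c (by have := tri b c (by simpa using hc); omega)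
        rw [hs b (by omega), this]
        simp) a (by omega)
    have k2 : (Z *ᵥ t) a = 0 := by
      have := congrFun (congrArg (· *ᵥ s) h1) a
      simp only [sub_mulVec, ← mulVec_mulVec, Pi.sub_apply, mulVec_diagonal] at this
      rw [s2 a (by omega), SimpleGraph.adjMatrix_mulVec_apply, sum_eq_zero fun c hc =>
        ih s s1 s2 c (by have := tri a c (by simpa using hc); omega)] at this
      rw [ht]; linarith
    simpa [mulVec_sub, mulVec_smul, k2] using k1

end Pool.Agent.H17.AMM
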