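import Pool.Agent.H17.AMM1

set_option autoImplicit false

namespace Pool.Agent.H17.AMM

open Matrix Finset

variable {V : Type} [Fintype V] [DecidableEq V] {G : SimpleGraph V} [DecidableRel G.Adj]

structure Sp (G : SimpleGraph V) [DecidableRel G.Adj] (s : Finset ℝ) (E : ℝ → Matrix V V ℝ) :
    Prop where
  h1 : ∀ θ ∈ s, E θ * E θ = E θ
  h2 : ∀ θ ∈ s, ∀ θ' ∈ s, θ ≠ θ' → E θ * E θ' = 0
  h3 : (∑ θ ∈ s, E θ) = 1
  h4 : G.adjMatrix ℝ = ∑ θ ∈ s, θ • E θ

variable {s : Finset ℝ} {E : ℝ → Matrix V V ℝ}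

theorem Sp.AE (S : Sp G s E) {θ : ℝ} (hθ : θ ∈ s) : G.adjMatrix ℝ * E θ = θ • E θ := by
  rw [S.h4, sum_mul, sum_eq_single θ (fun r hr e => by rw [smul_mul_assoc, S.h2 r hr θ hθ e, smul_zero])
    (fun e => absurd hθ e), smul_mul_assoc, S.h1 θ hθ]

theorem Sp.mem (S : Sp G s E) (h : Reg G) {θ : ℝ} (hθ : θ ∈ s) : E θ ∈ DD h := by
  have k : ∀ p : Polynomial ℝ, ∀ r ∈ s, Polynomial.aeval (G.adjMatrix ℝ) p * E r =
      p.eval r • E r := by
    intro p r hr
    induction p using Polynomial.induction_on with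
    | C a => simp [Algebra.algebraMap_eq_smul_one]
    | add p q hp hq => simp [add_mul, hp, hq, add_smul]
    | monomial n a hn =>
      rw [pow_succ, ← mul_assoc, map_mul, Polynomial.aeval_X, mul_assoc, S.AE hr, mul_smul_comm, hn,
        smul_smul, Polynomial.eval_mul (q := Polynomial.X), Polynomial.eval_X, mul_comm]
  have : E θ = Polynomial.aeval (G.adjMatrix ℝ) (Lagrange.basis s id θ) := by
    rw [← mul_one (Polynomial.aeval _ _), ← S.h3, mul_sum, sum_eq_single θ (fun r hr e => by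
      rw [k _ r hr, show r = id r from rfl, Lagrange.eval_basis_of_ne e.symm hr, zero_smul])
      (fun e => absurd hθ e), k _ θ hθ]
    rw [show Polynomial.eval θ (Lagrange.basis s id θ) = 1 from
      Lagrange.eval_basis_self (Set.injOn_id _) hθ, one_smul]
  rw [this]
  exact Algebra.adjoin_le (S := DD h) (by simpa using DD_adj h)
    (Polynomial.aeval_mem_adjoin_singleton ℝ _)

theorem Sp.hmem (S : Sp G s E) (h : Reg G) : ∑ θ ∈ s, (E θ).hadamard (E θ) ∈ DD h :=
  sum_mem fun θ hθ a b a' b' e => by rw [hadamard_apply, hadamard_apply, S.mem h hθ _ _ _ _ e]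

theorem Sp.ede (S : Sp G s E) (h : Reg G) {w : V → ℝ}
    (hw : (∑ θ ∈ s, (E θ).hadamard (E θ)) *ᵥ w = 0) : ∀ θ ∈ s, E θ * diagonal w * E θ = 0 := by
  have k : ∀ θ ∈ s, ∑ a, ∑ b, (E θ * diagonal w * E θ) a b ^ 2 =
      w ⬝ᵥ (E θ).hadamard (E θ) *ᵥ w := by
    intro θ hθ
    have sy := DD_symm (S.mem h hθ)
    have : ∑ a, ∑ b, (E θ * diagonal w * E θ) a b ^ 2 =
        trace ((E θ * diagonal w * E θ) * (E θ * diagonal w * E θ)ᵀ) := by
      simp only [trace, diag_apply, mul_apply (M := E θ * diagonal w * E θ), transpose_apply, sq]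
    have e : ∀ X : Matrix V V ℝ, E θ * (E θ * X) = E θ * X := fun X => by
      rw [← mul_assoc, S.h1 θ hθ]
    have e2 : trace ((E θ * diagonal w * E θ) * (E θ * diagonal w * E θ)ᵀ) =
        trace (E θ * diagonal w * (E θ * diagonal w)) := by
      rw [transpose_mul, transpose_mul, sy, diagonal_transpose, ← mul_assoc, ← mul_assoc,
        trace_mul_comm]
      simp only [mul_assoc, e]
    rw [this, e2]
    simp only [trace, diag_apply, mul_apply (M := E θ * diagonal w), mul_diagonal, dotProduct, mulVec,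
      hadamard_apply, mul_sum]
    refine sum_congr rfl fun a _ => sum_congr rfl fun b _ => ?_
    rw [show E θ b a = E θ a b from congrFun (congrFun sy a) b]; ring
  have z : ∑ θ ∈ s, ∑ a, ∑ b, (E θ * diagonal w * E θ) a b ^ 2 = 0 := by
    rw [sum_congr rfl k, ← dotProduct_sum, ← sum_mulVec, hw, dotProduct_zero]
  intro θ hθ
  ext a b
  have := (sum_eq_zero_iff_of_nonneg fun _ _ => by positivity).1 z θ hθ
  have := (sum_eq_zero_iff_of_nonneg fun _ _ => by positivity).1 this a (mem_univ _)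
  have := (sum_eq_zero_iff_of_nonneg fun _ _ => by positivity).1 this b (mem_univ _)
  simpa using this

theorem Sp.key (S : Sp G s E) (h : Reg G) {P : Matrix V V ℝ}  (hP : P ∈ DD h)
    (h0 : (∑ θ ∈ s, (E θ).hadamard (E θ)) * P = 0) (x z : V) (hz : ∀ a, G.dist x a ≤ G.dist x z) :
    P z x = - P x x := by
  set A := G.adjMatrix ℝ with hA
  set M := ∑ θ ∈ s, (E θ).hadamard (E θ) with hM
  have hk : ∀ a, (G.degree a : ℝ) = G.degree x := fun a => by
    simpa [SimpleGraph.degree_eq_sum_if_adj] using DD_row (DD_adj h) a x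
  have A1 : A *ᵥ 1 = (G.degree x : ℝ) • 1 := funext fun a => by
    simp [hA, hk a]
  set y := P *ᵥ Pi.single x 1 with hy
  set w := A *ᵥ y - (G.degree x : ℝ) • y with hw
  have y1 : y ∈ PS G x := DD_vec hP (PS_single h x)
  have w1 : w ∈ PS G x := sub_mem (DD_vec (DD_adj h) y1) (Submodule.smul_mem _ _ y1)
  have y0 : M *ᵥ y = 0 := by rw [hy, mulVec_mulVec, h0, zero_mulVec]
  have w0 : M *ᵥ w = 0 := by
    rw [hw, mulVec_sub, mulVec_smul, mulVec_mulVec, DD_comm (S.hmem h) (DD_adj h), ← mulVec_mulVec,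
      y0]; simp
  set Y := ∑ r ∈ s, ∑ t ∈ s, (r - t)⁻¹ • (E r * diagonal w * E t) with hY
  have Y1 : A * Y - Y * A = diagonal w := by
    rw [← one_mul (diagonal w), ← mul_one (1 * diagonal w), ← S.h3]
    simp only [hY, mul_sum, sum_mul, ← sum_sub_distrib]
    rw [sum_comm]
    refine sum_congr rfl fun t ht => sum_congr rfl fun r hr => ?_
    rw [mul_smul_comm, smul_mul_assoc, ← mul_assoc, ← mul_assoc, S.AE hr, mul_assoc _ (E t),
      DD_comm (S.mem h ht) (DD_adj h), S.AE ht, mul_smul_comm, smul_mul_assoc, smul_mul_assoc,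
      ← smul_sub, ← sub_smul, smul_smul]
    by_cases e : r = t
    · rw [e, S.ede h w0 t ht, smul_zero]
    · rw [inv_mul_cancel₀ (sub_ne_zero.2 e), one_smul]
  have Y2 : ∀ a b, Y a b = - Y b a := by
    have : Yᵀ = - Y := by
      simp only [hY, transpose_sum, ← sum_neg_distrib]
      rw [sum_comm]
      refine sum_congr rfl fun t ht => sum_congr rfl fun r hr => ?_
      rw [transpose_smul, transpose_mul, transpose_mul, DD_symm (S.mem h ht), DD_symm (S.mem h hr),
        diagonal_transpose, ← neg_smul, ← inv_neg, neg_sub, mul_assoc]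
    exact fun a b => congrFun (congrFun this b) a
  have Y3 : Y *ᵥ Pi.single x 1 ∈ PS G x := by
    simp only [hY, sum_mulVec, smul_mulVec, ← mulVec_mulVec]
    refine sum_mem fun r hr => sum_mem fun t ht => Submodule.smul_mem _ _ (DD_vec (S.mem h hr) ?_)
    intro a a' e
    rw [mulVec_diagonal, mulVec_diagonal, w1 a a' e, DD_vec (S.mem h ht) (PS_single h x) a a' e]
  let F : Matrix V V ℝ := of fun a b => Function.extend (G.dist x) (Y *ᵥ Pi.single x 1) 0 (G.dist a b)
  have F1 : F ∈ DD h := fun a b a' b' e => by simp only [F, of_apply, e]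
  have F2 : ∀ a, F a x = Y a x := fun a => by
    rw [F1 a x x a G.dist_comm, show F x a = Function.extend (G.dist x) (Y *ᵥ Pi.single x 1) 0
      (G.dist x a) from rfl, Function.FactorsThrough.extend_apply (fun a a' e => Y3 a a' e)]
    simp
  have k1 := filt h x (Y - F) w (funext fun a => by simp [F2]) (by
    rw [mul_sub, sub_mul, DD_comm F1 (DD_adj h), ← Y1]; abel) (G.dist x z) 1 (fun _ _ _ => rfl)
    (fun a ha => absurd (hz a) (by omega)) z le_rfl
  have k2 : (Y *ᵥ 1) z = - (Y *ᵥ 1) x := by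
    simp only [mulVec, dotProduct, Pi.one_apply, mul_one, Matrix.sub_apply, sum_sub_distrib] at k1 ⊢
    rw [sub_eq_zero.1 k1, DD_row F1 z x, ← sum_neg_distrib]
    exact sum_congr rfl fun b _ => by rw [← Y2, ← F2]; exact F1 _ _ _ _ G.dist_comm
  have k3 : G.lapMatrix ℝ *ᵥ (Y *ᵥ 1 - y) = 0 := by
    have := congrArg (· *ᵥ (1 : V → ℝ)) Y1
    simp only [sub_mulVec, ← mulVec_mulVec, A1, mulVec_smul] at this
    funext a
    have := congrFun this a
    rw [SimpleGraph.lapMatrix_mulVec_apply, ← SimpleGraph.adjMatrix_mulVec_apply, mulVec_sub, hk a]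
    simp only [mulVec_diagonal, hw, Pi.sub_apply, Pi.smul_apply, smul_eq_mul, Pi.one_apply,
      Pi.zero_apply] at this ⊢
    linarith
  have k4 := fun a => (G.lapMatrix_mulVec_eq_zero_iff_forall_reachable.1 k3) a x (h.1 a x)
  have k5 : ∑ a, (Y *ᵥ 1) a = 0 := by
    simp only [mulVec, dotProduct, Pi.one_apply, mul_one]
    have : ∑ a, ∑ b, Y a b = - ∑ a, ∑ b, Y a b := by
      conv_rhs => rw [sum_comm]
      simp only [← sum_neg_distrib, ← Y2]
    linarith
  have k6 : ∑ a, y a = 0 := by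
    have : ∀ b, ∑ a, M a b = 1 := fun b => by
      have := congrFun (congrFun S.h3 b) b
      rw [one_apply_eq, Matrix.sum_apply] at this
      simp only [hM, Matrix.sum_apply, hadamard_apply]
      rw [sum_comm, ← this]
      refine sum_congr rfl fun r hr => ?_
      rw [← S.h1 r hr, mul_apply, S.h1 r hr]
      exact sum_congr rfl fun a _ => by rw [S.mem h hr a b b a G.dist_comm]
    have e := congrArg (fun u : V → ℝ => ∑ a, u a) y0
    simp only [mulVec, dotProduct, Pi.zero_apply, sum_const_zero] at e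
    rw [sum_comm] at e
    simpa only [← sum_mul, this, one_mul] using e
  have k7 : (Y *ᵥ 1 - y) x = 0 := by
    have : ∑ a, (Y *ᵥ 1 - y) a = 0 := by simp only [Pi.sub_apply, sum_sub_distrib, k5, k6, sub_self]
    rw [sum_congr rfl fun a _ => k4 a, sum_const, card_univ, nsmul_eq_mul] at this
    have : Nonempty V := ⟨x⟩
    exact (mul_eq_zero.1 ‹_›).resolve_left (by simp)
  have k8 := (k4 z).trans k7
  simp only [hy, Pi.sub_apply, mulVec_single_one, col_apply] at k7 k8
  linarith

end Pool.Agent.H17.AMM
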