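import Mathlib

set_option autoImplicit false

namespace Pool.Agent.H17.Anti

def Str (L x : ℕ) : Prop := ∃ l : List ℕ, l.length = L ∧ (∀ d ∈ l, d < 3) ∧
  l.reverse = l.map (2 - ·) ∧ Nat.ofDigits 3 l = x

def An (n : ℕ) : Prop := 0 < n ∧ (Nat.digits 3 n).reverse = (Nat.digits 3 n).map (2 - ·)

theorem ext0 {l : List ℕ} {a : ℕ} (ha : a ≤ 2) (h1 : ∀ d ∈ l, d < 3)
    (h2 : l.reverse = l.map (2 - ·)) : (∀ d ∈ (2 - a) :: (l ++ [a]), d < 3) ∧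
    ((2 - a) :: (l ++ [a])).reverse = ((2 - a) :: (l ++ [a])).map (2 - ·) ∧
    Nat.ofDigits 3 ((2 - a) :: (l ++ [a])) =
      2 - a + 3 * Nat.ofDigits 3 l + a * 3 ^ (l.length + 1) := by
  refine ⟨fun d hd => ?_, ?_, ?_⟩
  · simp only [List.mem_cons, List.mem_append, List.not_mem_nil, or_false] at hd
    rcases hd with rfl | hd | rfl
    · omega
    · exact h1 d hd
    · omega
  · simp [h2, Nat.sub_sub_self ha]
  · rw [Nat.ofDigits_cons, Nat.ofDigits_append, Nat.ofDigits_singleton]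
    ring

theorem extS (L x a : ℕ) (_ : 0 ≤ a) (ha : a ≤ 2) (h : Str L x) :
    Str (L + 2) (2 - a + 3 * x + a * 3 ^ (L + 1)) := by
  obtain ⟨l, rfl, h1, h2, rfl⟩ := h
  exact ⟨_, by simp, ext0 ha h1 h2⟩

theorem extA (L x a : ℕ) (h0 : 1 ≤ a) (ha : a ≤ 2) (h : Str L x) :
    An (2 - a + 3 * x + a * 3 ^ (L + 1)) := by
  obtain ⟨l, rfl, h1, h2, rfl⟩ := h
  obtain ⟨e1, e2, e3⟩ := ext0 ha h1 h2
  refine ⟨by positivity, ?_⟩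
  rw [← e3, Nat.digits_ofDigits 3 (by norm_num) _ e1 fun _ => by simp; omega]
  exact e2

def vals : ℕ → List ℕ
  | 0 => [0]
  | 1 => [1]
  | L + 2 => (vals L).flatMap fun x => [0, 1, 2].map fun a => 2 - a + 3 * x + a * 3 ^ (L + 1)

theorem vals_spec : ∀ L, ∀ x ∈ vals L, Str L x
  | 0 => by
    simp only [vals, List.mem_singleton, forall_eq]
    exact ⟨[], rfl, by simp, rfl, rfl⟩
  | 1 => by
    simp only [vals, List.mem_singleton, forall_eq]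
    exact ⟨[1], rfl, by simp, rfl, rfl⟩
  | L + 2 => by
    intro y hy
    obtain ⟨x, hx, hy⟩ := List.mem_flatMap.1 hy
    obtain ⟨a, ha, rfl⟩ := List.mem_map.1 hy
    exact extS L x a (Nat.zero_le _) (by simp at ha; omega) (vals_spec L x hx)

def tops (K : ℕ) : List ℕ := 0 :: 1 :: (List.range K).flatMap fun L =>
  (vals L).flatMap fun x => [1, 2].map fun a => 2 - a + 3 * x + a * 3 ^ (L + 1)

theorem tops_spec (K y : ℕ) (hy : y ∈ tops K) : y = 0 ∨ An y := by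
  rcases List.mem_cons.1 hy with h | hy
  · exact Or.inl h
  rcases List.mem_cons.1 hy with rfl | hy
  · exact Or.inr ⟨one_pos, by simp⟩
  obtain ⟨L, -, hy⟩ := List.mem_flatMap.1 hy
  obtain ⟨x, hx, hy⟩ := List.mem_flatMap.1 hy
  obtain ⟨a, ha, rfl⟩ := List.mem_map.1 hy
  exact Or.inr (extA L x a (by simp at ha; omega) (by simp at ha; omega) (vals_spec L x hx))

def sh (S : List ℕ) (M : ℕ) : ℕ := S.foldr (fun d acc => acc ||| (M <<< d)) 0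

theorem sh_spec {S : List ℕ} {M n : ℕ} (h : (sh S M).testBit n = true) :
    ∃ d ∈ S, d ≤ n ∧ M.testBit (n - d) = true := by
  induction S with
  | nil => simp [sh] at h
  | cons a S ih =>
    rw [sh, List.foldr_cons, Nat.testBit_or, Bool.or_eq_true, Nat.testBit_shiftLeft] at h
    rcases h with h | h
    · obtain ⟨d, hd, h⟩ := ih h
      exact ⟨d, List.mem_cons_of_mem _ hd, h⟩
    · exact ⟨a, List.mem_cons_self, by simpa using h⟩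

theorem sh3 {A B C : List ℕ} {n : ℕ} (h : (sh A (sh B (sh C 1))).testBit n = true) :
    ∃ x ∈ A, ∃ y ∈ B, ∃ z ∈ C, x + y + z = n := by
  obtain ⟨x, hx, h1, h⟩ := sh_spec h
  obtain ⟨y, hy, h2, h⟩ := sh_spec h
  obtain ⟨z, hz, h3, h⟩ := sh_spec h
  rw [Nat.testBit_one_eq_true_iff_self_eq_zero] at h
  exact ⟨x, hx, y, hy, z, hz, by omega⟩

theorem patt (h j : ℕ) (hj : j < h) : ((4 ^ h - 1) / 3).testBit (2 * j) = true := by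
  have key : ∀ h, ∃ p, 4 ^ h = 3 * p + 1 ∧ ∀ j < h, p.testBit (2 * j) = true := by
    intro h
    induction h with
    | zero => exact ⟨0, rfl, by simp⟩
    | succ h ih =>
      obtain ⟨p, e, hp⟩ := ih
      refine ⟨4 * p + 1, by rw [pow_succ, e]; ring, fun j hj => ?_⟩
      rcases j with _ | j
      · simp only [mul_zero, Nat.testBit_zero, decide_eq_true_eq]; omega
      · rw [show 2 * (j + 1) = 2 * j + 1 + 1 by ring, Nat.testBit_succ, Nat.testBit_succ,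
          show (4 * p + 1) / 2 / 2 = p by omega]
        exact hp j (by omega)
  obtain ⟨p, e, hp⟩ := key h
  rw [show (4 ^ h - 1) / 3 = p by omega]
  exact hp j hj

def Inv (b c lo hi μ : ℕ) : Prop := ∀ T, lo * 3 ^ μ ≤ 2 * T → 2 * T < hi * 3 ^ μ →
  T % 2 = (b + c + μ) % 2 → ∃ x y z, Str (μ + b) x ∧ Str (μ + c) y ∧ Str μ z ∧ x + y + z = T

theorem base (b c lo hi μ A h : ℕ) (h1 : 2 * A ≤ lo * 3 ^ μ + 3) (h2 : hi * 3 ^ μ ≤ 2 * A + 4 * h)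
    (h3 : A % 2 = (b + c + μ) % 2)
    (h4 : (sh (vals (μ + b)) (sh (vals (μ + c)) (sh (vals μ) 1)) >>> A) &&& ((4 ^ h - 1) / 3) =
      (4 ^ h - 1) / 3) : Inv b c lo hi μ := by
  intro T a1 a2 a3
  have := patt h ((T - A) / 2) (by omega)
  rw [← h4, Nat.testBit_and, Bool.and_eq_true, Nat.testBit_shiftRight,
    show A + 2 * ((T - A) / 2) = T by omega] at this
  obtain ⟨x, hx, y, hy, z, hz, e⟩ := sh3 this.1
  exact ⟨x, y, z, vals_spec _ _ hx, vals_spec _ _ hy, vals_spec _ _ hz, e⟩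

theorem lift (Φ : ℕ → ℕ → Prop) (e : ℕ) (hΦ : ∀ L x a, e ≤ a → a ≤ 2 → Str L x →
      Φ (L + 2) (2 - a + 3 * x + a * 3 ^ (L + 1))) {b c lo hi μ i Q N a1 a2 a3 : ℕ}
    (h : Inv b c lo hi μ) (hP : 3 ^ μ = 3 ^ i * Q) (hQ : 12 ≤ Q)
    (k1 : (3 * lo + 6 * (a1 * 3 ^ b + a2 * 3 ^ c + a3)) * 3 ^ i + 1 ≤ 2 * N / Q)
    (k2 : 2 * N / Q < (3 * hi + 6 * (a1 * 3 ^ b + a2 * 3 ^ c + a3)) * 3 ^ i)
    (l1 : e ≤ a1 ∧ a1 ≤ 2) (l2 : e ≤ a2 ∧ a2 ≤ 2) (l3 : e ≤ a3 ∧ a3 ≤ 2)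
    (r3 : (N + a1 + a2 + a3) % 3 = 0) (r2 : N % 2 = (b + c + μ) % 2) :
    ∃ x y z, Φ (μ + b + 2) x ∧ Φ (μ + c + 2) y ∧ Φ (μ + 2) z ∧ x + y + z = N := by
  rw [Nat.le_div_iff_mul_le (by omega)] at k1
  rw [Nat.div_lt_iff_lt_mul (by omega)] at k2
  have par : (3 ^ μ * (a1 * 3 ^ b + a2 * 3 ^ c + a3)) % 2 = (a1 + a2 + a3) % 2 := by
    simp [Nat.add_mod, Nat.mul_mod, Nat.pow_mod]
  have e1 : ∀ t, (3 * t + 6 * (a1 * 3 ^ b + a2 * 3 ^ c + a3)) * 3 ^ i * Q =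
      3 * (t * 3 ^ μ) + 6 * (3 ^ μ * (a1 * 3 ^ b + a2 * 3 ^ c + a3)) := fun t => by
    rw [hP]; ring
  rw [add_mul, e1] at k1
  rw [e1] at k2
  have e2 : a1 * 3 ^ (μ + b + 1) + a2 * 3 ^ (μ + c + 1) + a3 * 3 ^ (μ + 1) =
      3 * (3 ^ μ * (a1 * 3 ^ b + a2 * 3 ^ c + a3)) := by ring
  generalize 3 ^ μ * (a1 * 3 ^ b + a2 * 3 ^ c + a3) = Z at *
  obtain ⟨x, y, z, hx, hy, hz, e⟩ := h ((N + a1 + a2 + a3 - 6 - 3 * Z) / 3)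
    (by omega) (by omega) (by omega)
  exact ⟨_, _, _, hΦ _ _ _ l1.1 l1.2 hx, hΦ _ _ _ l2.1 l2.2 hy, hΦ _ _ _ l3.1 l3.2 hz, by omega⟩

def chain {α : Type} (f g : α → ℕ) : List α → ℕ → ℕ → Bool
  | [], cur, goal => decide (goal ≤ cur)
  | a :: t, cur, goal => decide (f a ≤ cur) && chain f g t (g a) goal

theorem chain_spec {α : Type} {f g : α → ℕ} {l : List α} {cur goal k : ℕ}
    (h : chain f g l cur goal = true) (h1 : cur ≤ k) (h2 : k < goal) :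
    ∃ a ∈ l, f a ≤ k ∧ k < g a := by
  induction l generalizing cur with
  | nil => simp [chain] at h; omega
  | cons a t ih =>
    simp only [chain, Bool.and_eq_true, decide_eq_true_eq] at h
    by_cases hk : k < g a
    · exact ⟨a, List.mem_cons_self, by omega, hk⟩
    · obtain ⟨x, hx, h⟩ := ih h.2 (by omega)
      exact ⟨x, List.mem_cons_of_mem _ hx, h⟩

theorem step (b c lo hi μ : ℕ) (l : ℕ → List (ℕ × ℕ × ℕ)) (hμ : 3 ≤ μ)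
    (hl : ∀ r < 3, (∀ a ∈ l r, a.1 ≤ 2 ∧ a.2.1 ≤ 2 ∧ a.2.2 ≤ 2 ∧ (r + a.1 + a.2.1 + a.2.2) % 3 = 0) ∧
      chain (fun a => (3 * lo + 6 * (a.1 * 3 ^ b + a.2.1 * 3 ^ c + a.2.2)) * 3 ^ 0 + 1)
        (fun a => (3 * hi + 6 * (a.1 * 3 ^ b + a.2.1 * 3 ^ c + a.2.2)) * 3 ^ 0) (l r)
        (9 * lo) (9 * hi) = true) (h : Inv b c lo hi μ) (n : ℕ) : Inv b c lo hi (μ + 2 * n) := by
  induction n with
  | zero => exact h
  | succ n ih =>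
    intro T h1 h2 h3
    have hQ : 3 ^ 3 ≤ 3 ^ (μ + 2 * n) := Nat.pow_le_pow_right (by norm_num) (by omega)
    rw [show μ + 2 * (n + 1) = μ + 2 * n + 2 by ring] at *
    obtain ⟨a, ha, k1, k2⟩ := chain_spec (k := 2 * T / 3 ^ (μ + 2 * n)) (hl (T % 3) (by omega)).2
      ((Nat.le_div_iff_mul_le (by omega)).2 (by rw [pow_add] at h1; linarith))
      ((Nat.div_lt_iff_lt_mul (by omega)).2 (by rw [pow_add] at h2; linarith))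
    obtain ⟨l1, l2, l3, l4⟩ := (hl (T % 3) (by omega)).1 a ha
    obtain ⟨x, y, z, hx, hy, hz, e⟩ := lift Str 0 extS ih (i := 0) (by simp) (by omega) k1 k2
      ⟨Nat.zero_le _, l1⟩ ⟨Nat.zero_le _, l2⟩ ⟨Nat.zero_le _, l3⟩ (by omega) (by omega)
    exact ⟨x, y, z, by rwa [add_right_comm], by rwa [add_right_comm], hz, e⟩

theorem inv528 : ∀ n, Inv 5 2 9 497 (8 + 2 * n) :=
  step _ _ _ _ _ (fun r => if r = 0 then [(0, 0, 0), (0, 2, 1), (1, 2, 0), (2, 1, 0), (2, 2, 2)] else if r = 1 then [(0, 0, 2), (1, 0, 1), (2, 0, 0), (2, 2, 1)] else [(0, 0, 1), (1, 0, 0), (1, 2, 1), (2, 2, 0)])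
    (by norm_num) (by decide +kernel)
    (base _ _ _ _ _ 29525 800442 (by norm_num) (by norm_num) (by norm_num) (by decide +kernel))

theorem inv536 : ∀ n, Inv 5 3 29 513 (6 + 2 * n) :=
  step _ _ _ _ _ (fun r => if r = 0 then [(0, 0, 0), (0, 2, 1), (1, 1, 1), (2, 0, 1), (2, 2, 2)] else if r = 1 then [(0, 1, 1), (1, 0, 1), (1, 2, 2), (2, 1, 2)] else [(0, 1, 0), (1, 0, 0), (1, 2, 1), (2, 1, 1)])
    (by norm_num) (by decide +kernel)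
    (base _ _ _ _ _ 10572 88209 (by norm_num) (by norm_num) (by norm_num) (by decide +kernel))

theorem inv535 : ∀ n, Inv 5 3 41 501 (5 + 2 * n) :=
  step _ _ _ _ _ (fun r => if r = 0 then [(0, 1, 2), (1, 0, 2), (1, 2, 0), (2, 1, 0)] else if r = 1 then [(0, 1, 1), (1, 0, 1), (1, 2, 2), (2, 1, 2)] else [(0, 1, 0), (1, 0, 0), (1, 2, 1), (2, 1, 1)])
    (by norm_num) (by decide +kernel)
    (base _ _ _ _ _ 4983 27945 (by norm_num) (by norm_num) (by norm_num) (by decide +kernel))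

theorem inv325 : ∀ n, Inv 3 2 7 67 (5 + 2 * n) :=
  step _ _ _ _ _ (fun r => if r = 0 then [(0, 0, 0), (1, 0, 2), (2, 0, 1), (2, 2, 2)] else if r = 1 then [(0, 0, 2), (1, 0, 1), (2, 0, 0), (2, 2, 1)] else [(0, 0, 1), (1, 0, 0), (2, 0, 2), (2, 2, 0)])
    (by norm_num) (by decide +kernel)
    (base _ _ _ _ _ 852 3645 (by norm_num) (by norm_num) (by norm_num) (by decide +kernel))

theorem inv326 : ∀ n, Inv 3 2 5 69 (6 + 2 * n) :=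
  step _ _ _ _ _ (fun r => if r = 0 then [(0, 0, 0), (1, 0, 2), (2, 0, 1), (2, 2, 2)] else if r = 1 then [(0, 0, 2), (1, 0, 1), (2, 0, 0), (2, 2, 1)] else [(0, 0, 1), (1, 0, 0), (2, 0, 2), (2, 2, 0)])
    (by norm_num) (by decide +kernel)
    (base _ _ _ _ _ 1823 11664 (by norm_num) (by norm_num) (by norm_num) (by decide +kernel))

theorem inv424 : ∀ n, Inv 4 2 4 177 (4 + 2 * n) :=
  step _ _ _ _ _ (fun r => if r = 0 then [(0, 0, 0), (1, 0, 2), (2, 0, 1), (2, 2, 2)] else if r = 1 then [(0, 0, 2), (1, 0, 1), (2, 0, 0), (2, 2, 1)] else [(0, 0, 1), (1, 0, 0), (2, 0, 2), (2, 2, 0)])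
    (by norm_num) (by decide +kernel)
    (base _ _ _ _ _ 162 3504 (by norm_num) (by norm_num) (by norm_num) (by decide +kernel))

theorem inv215 : ∀ n, Inv 2 1 3 23 (5 + 2 * n) :=
  step _ _ _ _ _ (fun r => if r = 0 then [(0, 0, 0), (0, 2, 1), (1, 2, 0), (2, 1, 0), (2, 2, 2)] else if r = 1 then [(0, 0, 2), (1, 0, 1), (2, 0, 0), (2, 2, 1)] else [(0, 0, 1), (1, 0, 0), (1, 2, 1), (2, 2, 0)])
    (by norm_num) (by decide +kernel)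
    (base _ _ _ _ _ 366 1215 (by norm_num) (by norm_num) (by norm_num) (by decide +kernel))

theorem inv214 : ∀ n, Inv 2 1 3 23 (4 + 2 * n) :=
  step _ _ _ _ _ (fun r => if r = 0 then [(0, 0, 0), (0, 2, 1), (1, 2, 0), (2, 1, 0), (2, 2, 2)] else if r = 1 then [(0, 0, 2), (1, 0, 1), (2, 0, 0), (2, 2, 1)] else [(0, 0, 1), (1, 0, 0), (1, 2, 1), (2, 2, 0)])
    (by norm_num) (by decide +kernel)
    (base _ _ _ _ _ 123 405 (by norm_num) (by norm_num) (by norm_num) (by decide +kernel))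

def shapes : List (ℕ × ℕ × ℕ × ℕ × ℕ) := [(5, 2, 8, 9, 497), (5, 3, 6, 29, 513), (5, 3, 5, 41, 501), (3, 2, 5, 7, 67), (3, 2, 6, 5, 69), (4, 2, 4, 4, 177), (2, 1, 5, 3, 23), (2, 1, 4, 3, 23)]

theorem shapes_spec : ∀ s ∈ shapes, ∀ n, Inv s.1 s.2.1 s.2.2.2.1 s.2.2.2.2 (s.2.2.1 + 2 * n) := by
  simp only [shapes, List.forall_mem_cons]
  exact ⟨inv528, inv536, inv535, inv325, inv326, inv424, inv215, inv214, by simp⟩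

structure Ent where
  s : ℕ × ℕ × ℕ × ℕ × ℕ
  i : ℕ
  a1 : ℕ
  a2 : ℕ
  a3 : ℕ

def ents (m e r : ℕ) : List Ent :=
  if m = 0 ∧ e = 0 ∧ r = 0 then [⟨(5, 3, 6, 29, 513), 0, 2, 2, 2⟩, ⟨(2, 1, 5, 3, 23), 3, 2, 2, 2⟩, ⟨(4, 2, 4, 4, 177), 2, 1, 1, 1⟩, ⟨(3, 2, 5, 7, 67), 3, 1, 1, 1⟩, ⟨(4, 2, 4, 4, 177), 2, 2, 2, 2⟩] else
  if m = 0 ∧ e = 0 ∧ r = 1 then [⟨(2, 1, 5, 3, 23), 3, 2, 2, 1⟩, ⟨(4, 2, 4, 4, 177), 2, 1, 2, 2⟩, ⟨(4, 2, 4, 4, 177), 2, 2, 2, 1⟩] else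
  if m = 0 ∧ e = 0 ∧ r = 2 then [⟨(2, 1, 5, 3, 23), 3, 2, 1, 1⟩, ⟨(4, 2, 4, 4, 177), 2, 1, 1, 2⟩, ⟨(4, 2, 4, 4, 177), 2, 2, 1, 1⟩] else
  if m = 0 ∧ e = 1 ∧ r = 0 then [⟨(3, 2, 6, 5, 69), 2, 2, 2, 2⟩, ⟨(5, 3, 5, 41, 501), 1, 1, 1, 1⟩, ⟨(2, 1, 4, 3, 23), 4, 1, 1, 1⟩, ⟨(5, 3, 5, 41, 501), 1, 2, 2, 2⟩] else
  if m = 0 ∧ e = 1 ∧ r = 1 then [⟨(3, 2, 6, 5, 69), 2, 2, 2, 1⟩, ⟨(5, 3, 5, 41, 501), 1, 1, 2, 2⟩, ⟨(2, 1, 4, 3, 23), 4, 1, 2, 2⟩] else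
  if m = 0 ∧ e = 1 ∧ r = 2 then [⟨(3, 2, 6, 5, 69), 2, 2, 1, 1⟩, ⟨(5, 3, 5, 41, 501), 1, 1, 1, 2⟩, ⟨(2, 1, 4, 3, 23), 4, 1, 2, 1⟩] else
  if m = 1 ∧ e = 0 ∧ r = 0 then [⟨(3, 2, 5, 7, 67), 2, 2, 2, 2⟩, ⟨(5, 3, 6, 29, 513), 1, 1, 1, 1⟩, ⟨(2, 1, 5, 3, 23), 4, 1, 1, 1⟩, ⟨(5, 3, 6, 29, 513), 1, 2, 2, 2⟩] else
  if m = 1 ∧ e = 0 ∧ r = 1 then [⟨(3, 2, 5, 7, 67), 2, 2, 2, 1⟩, ⟨(5, 3, 6, 29, 513), 1, 1, 2, 2⟩, ⟨(5, 3, 6, 29, 513), 1, 2, 1, 2⟩] else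
  if m = 1 ∧ e = 0 ∧ r = 2 then [⟨(3, 2, 5, 7, 67), 2, 2, 1, 1⟩, ⟨(5, 3, 6, 29, 513), 1, 1, 1, 2⟩, ⟨(2, 1, 5, 3, 23), 4, 1, 2, 1⟩] else
  if m = 1 ∧ e = 1 ∧ r = 0 then [⟨(5, 3, 5, 41, 501), 0, 2, 2, 2⟩, ⟨(5, 2, 8, 9, 497), 1, 1, 1, 1⟩, ⟨(3, 2, 6, 5, 69), 3, 1, 1, 1⟩, ⟨(5, 2, 8, 9, 497), 1, 2, 2, 2⟩] else
  if m = 1 ∧ e = 1 ∧ r = 1 then [⟨(2, 1, 4, 3, 23), 3, 2, 2, 1⟩, ⟨(5, 2, 8, 9, 497), 1, 1, 2, 2⟩, ⟨(5, 2, 8, 9, 497), 1, 2, 2, 1⟩] else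
  if m = 1 ∧ e = 1 ∧ r = 2 then [⟨(2, 1, 4, 3, 23), 3, 2, 1, 1⟩, ⟨(5, 2, 8, 9, 497), 1, 1, 2, 1⟩, ⟨(5, 2, 8, 9, 497), 1, 2, 1, 1⟩] else
  []

set_option synthInstance.maxSize 2048 in
theorem ents_ok : ∀ m < 2, ∀ e < 2, ∀ r < 3, (∀ a ∈ ents m e r, a.s ∈ shapes ∧
      (1 ≤ a.a1 ∧ a.a1 ≤ 2) ∧ (1 ≤ a.a2 ∧ a.a2 ≤ 2) ∧ (1 ≤ a.a3 ∧ a.a3 ≤ 2) ∧
      (r + a.a1 + a.a2 + a.a3) % 3 = 0 ∧ e = (a.s.1 + a.s.2.1 + a.s.2.2.1) % 2 ∧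
      a.s.2.2.1 ≤ 6 + m + a.i ∧ (6 + m + a.i) % 2 = a.s.2.2.1 % 2) ∧
    chain (fun a : Ent => (3 * a.s.2.2.2.1 + 6 * (a.a1 * 3 ^ a.s.1 + a.a2 * 3 ^ a.s.2.1 + a.a3)) *
        3 ^ a.i + 1)
      (fun a => (3 * a.s.2.2.2.2 + 6 * (a.a1 * 3 ^ a.s.1 + a.a2 * 3 ^ a.s.2.1 + a.a3)) * 3 ^ a.i)
      (ents m e r) (2 * 3 ^ 7) (6 * 3 ^ 7) = true := by decide +kernel

theorem large (N : ℕ) (hN : 3 ^ 13 ≤ N) : ∃ x y z, An x ∧ An y ∧ An z ∧ x + y + z = N := by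
  have h0 : 13 ≤ Nat.log 3 N := Nat.le_log_of_pow_le (by norm_num) hN
  have h1 := Nat.pow_log_le_self 3 (show N ≠ 0 by omega)
  have h2 := Nat.lt_pow_succ_log_self (show 1 < 3 by norm_num) N
  obtain ⟨j, hj⟩ : ∃ j, Nat.log 3 N = j + 7 := ⟨Nat.log 3 N - 7, by omega⟩
  rw [hj] at h0 h1 h2
  have hQ : 3 ^ 3 ≤ 3 ^ j := Nat.pow_le_pow_right (by norm_num) (by omega)
  obtain ⟨ok, ch⟩ := ents_ok (j % 2) (by omega) (N % 2) (by omega) (N % 3) (by omega)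
  obtain ⟨a, ha, k1, k2⟩ := chain_spec (k := 2 * N / 3 ^ j) ch
    ((Nat.le_div_iff_mul_le (by omega)).2 (by rw [pow_add] at h1; linarith))
    ((Nat.div_lt_iff_lt_mul (by omega)).2 (by rw [pow_succ, pow_add] at h2; linarith))
  obtain ⟨hs, l1, l2, l3, r3, r2, m1, m2⟩ := ok a ha
  exact lift (fun _ x => An x) 1 extA (shapes_spec _ hs ((j + a.i - a.s.2.2.1) / 2))
    (by rw [← pow_add]; congr 1; omega) (by omega) k1 k2 l1 l2 l3 (by omega) (by omega)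

theorem small_ok : (sh (tops 12) (sh (tops 11) (sh (tops 9) 1)) ||| sh [24, 37, 49, 117, 421] 1) %
    2 ^ 1594323 = 2 ^ 1594323 - 1 := by decide +kernel

theorem small (N : ℕ) (hN : N < 3 ^ 13) (h : N ∉ [24, 37, 49, 117, 421]) :
    ∃ x y z, (x = 0 ∨ An x) ∧ (y = 0 ∨ An y) ∧ (z = 0 ∨ An z) ∧ x + y + z = N := by
  have := congrArg (·.testBit N) small_ok
  have hN' : N < 1594323 := hN
  simp only [Nat.testBit_mod_two_pow, Nat.testBit_two_pow_sub_one, hN', decide_true, Bool.true_and,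
    Nat.testBit_or, Bool.or_eq_true] at this
  rcases this with h1 | h1
  · obtain ⟨x, hx, y, hy, z, hz, e⟩ := sh3 h1
    exact ⟨x, y, z, tops_spec _ _ hx, tops_spec _ _ hy, tops_spec _ _ hz, e⟩
  · obtain ⟨d, hd, h2, h3⟩ := sh_spec h1
    rw [Nat.testBit_one_eq_true_iff_self_eq_zero] at h3
    exact absurd (show N = d by omega) fun e => h (e ▸ hd)

end Pool.Agent.H17.Anti
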