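import Mathlib

set_option autoImplicit false

namespace Pool.Agent.H17.Kron

theorem kron (θ : ℝ) (hθ : Irrational θ) (α β : ℝ) (h : α < β) (T : ℕ) :
    ∃ t : ℕ, T ≤ t ∧ ∃ M : ℤ, t * θ + α < M ∧ M < t * θ + β := by
  have d1 : DenseRange (· • ((θ : ℝ) : AddCircle (1 : ℝ)) : ℤ → AddCircle (1 : ℝ)) :=
    AddCircle.denseRange_zsmul_coe_iff.2 (by simpa using hθ)
  have d2 := denseRange_zsmul_iff_nsmul.1 d1
  have ho : IsOpen (((↑) : ℝ → AddCircle (1 : ℝ)) '' Set.Ioo (-β - T * θ) (-α - T * θ)) :=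
    QuotientAddGroup.isOpenMap_coe _ isOpen_Ioo
  obtain ⟨t, y, hy, e⟩ := d2.exists_mem_open ho
    (Set.Nonempty.image _ (Set.nonempty_Ioo.2 (by linarith)))
  have e' : ((y : ℝ) : AddCircle (1 : ℝ)) = ((t • θ : ℝ) : AddCircle (1 : ℝ)) := by
    rw [e]; rfl
  rw [QuotientAddGroup.eq] at e'
  obtain ⟨M, hM⟩ := AddSubgroup.mem_zmultiples_iff.1 e'
  simp only [zsmul_eq_mul, mul_one, nsmul_eq_mul] at hM
  refine ⟨t + T, by omega, M, ?_, ?_⟩ <;> push_cast <;> linarith [hy.1, hy.2]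

theorem pow_hit (k : ℕ) (hk : 2 ≤ k) (hp : ∀ τ, k ≠ 2 ^ τ) (a b : ℝ) (ha : 1 ≤ a) (hab : a < b)
    (T : ℕ) : ∃ t M : ℕ, T ≤ t ∧ (k : ℝ) ^ t * a < 2 ^ M ∧ 2 ^ M < (k : ℝ) ^ t * b := by
  have hk0 : (0 : ℝ) < k := by positivity
  have hk1 : (1 : ℝ) ≤ k := by exact_mod_cast (by omega : 1 ≤ k)
  have hi : Irrational (Real.logb 2 k) := by
    rintro ⟨q, hq⟩
    have h0 : (0 : ℝ) ≤ q := by rw [hq]; exact Real.logb_nonneg (by norm_num) hk1
    have h0' : 0 ≤ q.num := Rat.num_nonneg.2 (by exact_mod_cast h0)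
    have e : (k : ℝ) ^ q.den = 2 ^ q.num.toNat := by
      rw [← Real.rpow_logb (by norm_num : (0 : ℝ) < 2) (by norm_num) hk0, ← hq,
        ← Real.rpow_natCast, ← Real.rpow_mul (by norm_num), ← Real.rpow_natCast]
      congr 1
      have : ((q.num.toNat : ℤ) : ℝ) = q.num := by rw [Int.toNat_of_nonneg h0']
      rw [Int.cast_natCast] at this
      rw [this]; exact_mod_cast Rat.mul_den_eq_num q
    have e' : k ^ q.den = 2 ^ q.num.toNat := by exact_mod_cast e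
    obtain ⟨τ, _, hτ⟩ := (Nat.dvd_prime_pow Nat.prime_two).1
      (e' ▸ dvd_pow_self k q.den_nz : k ∣ 2 ^ q.num.toNat)
    exact hp τ hτ
  obtain ⟨t, ht, M, h1, h2⟩ := kron _ hi (Real.logb 2 a) (Real.logb 2 b)
    (Real.logb_lt_logb (by norm_num) (by linarith) hab) T
  have key : ∀ c : ℝ, 0 < c → (2 : ℝ) ^ (t * Real.logb 2 k + Real.logb 2 c) = k ^ t * c := by
    intro c hc
    rw [Real.rpow_add (by norm_num), mul_comm (t : ℝ), Real.rpow_mul (by norm_num),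
      Real.rpow_logb (by norm_num) (by norm_num) hk0, Real.rpow_logb (by norm_num) (by norm_num) hc,
      Real.rpow_natCast]
  have hM : (0 : ℝ) ≤ M := by
    have := Real.logb_nonneg (by norm_num : (1 : ℝ) < 2) hk1
    have := Real.logb_nonneg (by norm_num : (1 : ℝ) < 2) ha
    have : (0 : ℝ) ≤ t * Real.logb 2 k := by positivity
    linarith
  obtain ⟨N, rfl⟩ := Int.eq_ofNat_of_zero_le (show 0 ≤ M by exact_mod_cast hM)
  refine ⟨t, N, ht, ?_, ?_⟩
  · rw [← key a (by linarith), ← Real.rpow_natCast]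
    exact Real.rpow_lt_rpow_of_exponent_lt (by norm_num) (by exact_mod_cast h1)
  · rw [← key b (by linarith), ← Real.rpow_natCast]
    exact Real.rpow_lt_rpow_of_exponent_lt (by norm_num) (by exact_mod_cast h2)

end Pool.Agent.H17.Kron
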