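import Mathlib

set_option autoImplicit false

namespace Pool.Agent.H17.Reg

open Finset

def ker (k : ℕ) (u : ℕ → ℤ) : Set (ℕ → ℤ) := {v | ∃ e j, j < k ^ e ∧ v = fun n => u (k ^ e * n + j)}

theorem run {S : Type} (τ : ℕ → S) (δ : S → ℕ → S) (hδ : ∀ n d, d < 2 → τ (2 * n + d) = δ (τ n) d)
    (e j : ℕ) (hj : j < 2 ^ e) : ∃ F : S → S, ∀ n, τ (2 ^ e * n + j) = F (τ n) := by
  induction e generalizing j with
  | zero => exact ⟨id, fun n => by obtain rfl : j = 0 := by simpa using hj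
                                   simp⟩
  | succ e ih =>
    obtain ⟨F, hF⟩ := ih (j / 2) (by rw [pow_succ] at hj; omega)
    refine ⟨fun s => δ (F s) (j % 2), fun n => ?_⟩
    beta_reduce
    rw [← hF, ← hδ _ _ (Nat.mod_lt _ two_pos)]
    congr 1
    have : 2 ^ (e + 1) * n = 2 * (2 ^ e * n) := by ring
    omega

theorem reg_of_auto {S : Type} [Finite S] (τ : ℕ → S) (δ : S → ℕ → S)
    (hδ : ∀ n d, d < 2 → τ (2 * n + d) = δ (τ n) d) (u : ℕ → ℤ) (A : ℤ) (g : S → ℤ)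
    (hu : ∀ n, u n = A * n + g (τ n)) : (Submodule.span ℤ (ker 2 u)).FG := by
  have h1 : (Submodule.span ℤ {fun n : ℕ => (n : ℤ)} ⊔
      LinearMap.range (LinearMap.funLeft ℤ ℤ τ)).FG :=
    (Submodule.fg_span (Set.finite_singleton _)).sup (by
      rw [LinearMap.range_eq_map]; exact Module.Finite.fg_top.map _)
  refine h1.of_le (Submodule.span_le.2 ?_)
  rintro v ⟨e, j, hj, rfl⟩
  obtain ⟨F, hF⟩ := run τ δ hδ e j hj
  refine Submodule.mem_sup.2 ⟨(A * 2 ^ e) • fun n : ℕ => (n : ℤ),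
    Submodule.smul_mem _ _ (Submodule.subset_span rfl), fun n => A * j + g (F (τ n)),
    ⟨fun s => A * j + g (F s), rfl⟩, ?_⟩
  funext n
  simp only [Pi.add_apply, Pi.smul_apply, smul_eq_mul, hu, hF]
  push_cast; ring

end Pool.Agent.H17.Reg
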