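import Mathlib
import Pool.Agent.H17.Reg
import Pool.Agent.H17.Kron

set_option autoImplicit false

namespace Pool.Agent.H17.BS

open Finset
open scoped Classical

theorem prop_of_fg (k : ℕ) (hk : 1 ≤ k) (h : ℕ → ℤ) (hf : (Submodule.span ℤ (Reg.ker k h)).FG) :
    ∃ s, ∀ n, (∀ i < s, h (k ^ i * (n + 1)) - h (k ^ i * n) = k ^ i) →
      ∀ t, h (k ^ t * (n + 1)) - h (k ^ t * n) = k ^ t := by
  let w : ℕ → ℕ → ℤ := fun i n => h (k ^ i * n) - k ^ i * n
  have h1 : (Submodule.span ℤ (Set.range w)).FG := by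
    refine (hf.sup (Submodule.fg_span (Set.finite_singleton (fun n : ℕ => (n : ℤ))))).of_le
      (Submodule.span_le.2 ?_)
    rintro _ ⟨i, rfl⟩
    refine Submodule.mem_sup.2 ⟨fun n => h (k ^ i * n + 0),
      Submodule.subset_span ⟨i, 0, by positivity, rfl⟩, (-(k : ℤ) ^ i) • fun n : ℕ => (n : ℤ),
      Submodule.smul_mem _ _ (Submodule.subset_span rfl), ?_⟩
    funext n; simp [w]; ring
  obtain ⟨F, hF, e⟩ := (Submodule.fg_span_iff_fg_span_finset_subset _).1 h1
  have : ∀ v ∈ F, ∃ i, w i = v := fun v hv => hF hv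
  choose! ι hι using this
  refine ⟨F.sup ι + 1, fun n hn t => ?_⟩
  let φ : (ℕ → ℤ) →ₗ[ℤ] ℤ := LinearMap.proj (R := ℤ) (φ := fun _ : ℕ => ℤ) (n + 1) -
    LinearMap.proj (R := ℤ) (φ := fun _ : ℕ => ℤ) n
  have hφ : ∀ i, φ (w i) = h (k ^ i * (n + 1)) - h (k ^ i * n) - k ^ i := fun i => by
    simp [φ, w]; ring
  have : Submodule.span ℤ (F : Set (ℕ → ℤ)) ≤ LinearMap.ker φ := by
    refine Submodule.span_le.2 fun v hv => ?_
    have a := hn (ι v) (Nat.lt_succ_of_le (le_sup (f := ι) hv))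
    have b := hφ (ι v)
    rw [hι v hv] at b
    simp only [SetLike.mem_coe, LinearMap.mem_ker]
    omega
  have a : φ (w t) = 0 := this (e ▸ Submodule.subset_span ⟨t, rfl⟩)
  rw [hφ] at a
  omega

theorem cnt_add (p : ℕ → Prop) (x : ℕ) :
    Nat.count (fun n => ¬ p n) x + Nat.count p x = x := by
  induction x with
  | zero => simp
  | succ x ih =>
    rw [Nat.count_succ, Nat.count_succ]
    by_cases h : p x <;> simp [h] <;> omega

theorem nonreg (p : ℕ → Prop) (A r : ℕ) (hA : 1 ≤ A) (hr : 1 ≤ r)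
    (H1 : ∀ D, ∃ X, ∀ x, X ≤ x → D * Nat.count p x ≤ x) (H2 : ∀ M, p (2 ^ M - 1))
    (H3 : ∀ M x, A * 2 ^ M ≤ x → x < (A + 1) * 2 ^ M → ¬ p x)
    (H4 : ∀ m j, 1 ≤ m → p ((A * 2 ^ m - 1) * 2 ^ (r * j))) (k : ℕ) (hk : 2 ≤ k) :
    ¬ (Submodule.span ℤ (Reg.ker k fun n => (Nat.nth (fun m => ¬ p m) n : ℤ))).FG := by
  intro hf
  obtain ⟨s, hs⟩ := prop_of_fg k (by omega) _ hf
  have inf : (Set.ofPred fun m => ¬ p m).Infinite := by
    refine Set.infinite_of_forall_exists_gt fun N => ⟨A * 2 ^ N, H3 N _ le_rfl ?_, ?_⟩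
    · have : 0 < 2 ^ N := by positivity
      nlinarith
    · have := Nat.lt_two_pow_self (n := N); nlinarith
  obtain ⟨h, hh⟩ : ∃ h, h = Nat.nth (fun m => ¬ p m) := ⟨_, rfl⟩
  obtain ⟨c, hc⟩ : ∃ c, c = Nat.count p := ⟨_, rfl⟩
  rw [← hc] at H1
  have cm : Monotone c := hc ▸ Nat.count_monotone p
  have hm : Monotone h := hh ▸ (Nat.nth_strictMono inf).monotone
  have e1 : ∀ n, h n = n + c (h n) := fun n => by
    have a := cnt_add p (h n)
    have b := Nat.count_nth_of_infinite inf n
    rw [← hh] at b; rw [← hc] at a; omega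
  have hs' : ∀ n, (∀ i < s, c (h (k ^ i * (n + 1))) = c (h (k ^ i * n))) →
      ∀ t, c (h (k ^ t * (n + 1))) = c (h (k ^ t * n)) := fun n hn t => by
    have := hs n (fun i hi => by
      rw [← hh, e1 (k ^ i * (n + 1)), e1 (k ^ i * n), hn i hi]; push_cast; ring) t
    rw [← hh, e1 (k ^ t * (n + 1)), e1 (k ^ t * n)] at this
    push_cast at this
    have : (c (h (k ^ t * (n + 1))) : ℤ) = c (h (k ^ t * n)) := by linarith
    exact_mod_cast this
  have jump : ∀ x n1 n2, p x → n1 + c x < x → x ≤ n2 → c (h n1) < c (h n2) := by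
    intro x n1 n2 hx a b
    have a1 : h n1 < x := by
      rw [hh]; apply Nat.nth_lt_of_lt_count
      have := cnt_add p x
      rw [← hc] at this; omega
    have a2 : h n2 ≠ x := fun e => Nat.nth_mem_of_infinite inf n2 (by rw [← hh, e]; exact hx)
    have a3 := e1 n2
    have a4 : c (x + 1) = c x + 1 := by rw [hc, Nat.count_succ, if_pos hx]
    have := cm a1.le
    have := cm (show x + 1 ≤ h n2 by omega)
    omega
  have flat : ∀ M n, A * 2 ^ M ≤ n + c (A * 2 ^ M) → n + c (A * 2 ^ M) < (A + 1) * 2 ^ M →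
      c (h n) = c (A * 2 ^ M) := by
    intro M n a b
    have a1 : c (n + c (A * 2 ^ M)) = c (A * 2 ^ M) := by
      obtain ⟨d, hd⟩ := Nat.exists_eq_add_of_le a
      rw [hd] at b ⊢
      rw [hc, Nat.count_add, (Nat.count_iff_forall_not (p := fun k => p (A * 2 ^ M + k))).2
        fun i hi => H3 M _ (by omega) (by omega)]
      rfl
    have a2 := cnt_add p (n + c (A * 2 ^ M))
    rw [← hc, a1] at a2
    have a3 := Nat.nth_count (p := fun m => ¬ p m) (H3 M _ a b)
    rw [show Nat.count (fun m => ¬ p m) (n + c (A * 2 ^ M)) = n by omega, ← hh] at a3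
    rw [a3, a1]
  by_cases hp : ∃ τ, k = 2 ^ τ
  · obtain ⟨τ, hτ⟩ := hp
    have big : ∀ B, ∃ Y, B ≤ c Y := fun B => by
      have : (Set.ofPred p).Infinite := Set.infinite_of_forall_exists_gt fun N =>
        ⟨2 ^ (N + 1) - 1, H2 _, by have := Nat.lt_two_pow_self (n := N); rw [pow_succ]; omega⟩
      exact ⟨Nat.nth p B, by rw [hc, Nat.count_nth_of_infinite this]⟩
    obtain ⟨Y, hY⟩ := big (2 * k ^ s)
    obtain ⟨X, hX⟩ := H1 (A + 1)
    obtain ⟨m, hm⟩ : ∃ m, m = X + Y + 1 := ⟨_, rfl⟩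
    have m1 : m < 2 ^ m := Nat.lt_two_pow_self
    obtain ⟨n, hn⟩ : ∃ n, A * 2 ^ m = n + 2 := ⟨A * 2 ^ m - 2, by
      have : 2 ≤ A * 2 ^ m := by nlinarith
      omega⟩
    have cl := hs' n (fun i hi => by
      have b0 : A * 2 ^ (m + τ * i) = k ^ i * (n + 2) := by rw [← hn, hτ, ← pow_mul]; ring
      have b1 : k ^ i ≤ k ^ s := Nat.pow_le_pow_right (by omega) hi.le
      have b2 : 1 ≤ k ^ i := Nat.one_le_pow _ _ (by omega)
      have b3 : m ≤ A * 2 ^ (m + τ * i) := by rw [b0]; nlinarith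
      have b4 := hX (A * 2 ^ (m + τ * i)) (by omega)
      have b5 := cm (show Y ≤ A * 2 ^ (m + τ * i) by omega)
      have b6 : c (A * 2 ^ (m + τ * i)) < 2 ^ (m + τ * i) := by
        have : 0 < 2 ^ (m + τ * i) := by positivity
        nlinarith
      rw [flat (m + τ * i) _ (by nlinarith) (by nlinarith),
        flat (m + τ * i) _ (by nlinarith) (by nlinarith)])
    obtain ⟨Z, hZ⟩ := H1 (n + 2)
    have z1 : Z < k ^ (r * Z) :=
      lt_of_le_of_lt (by nlinarith) (Nat.lt_pow_self (n := r * Z) (show 1 < k by omega))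
    have z2 := H4 m (τ * Z) (by omega)
    rw [show (A * 2 ^ m - 1) * 2 ^ (r * (τ * Z)) = k ^ (r * Z) * (n + 1) by
      rw [hn, hτ, ← pow_mul, show n + 2 - 1 = n + 1 by omega]; ring] at z2
    have z3 := hZ (k ^ (r * Z) * (n + 1)) (by nlinarith)
    have := jump _ (k ^ (r * Z) * n) _ z2 (by nlinarith) le_rfl
    exact this.ne' (cl _)
  · push Not at hp
    obtain ⟨n, n1, hn⟩ : ∃ n, 1 ≤ n ∧ ∀ i < s, c (h (k ^ i * (n + 1))) = c (h (k ^ i * n)) := by
      by_contra hne
      push Not at hne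
      have sm : ∀ N, N ≤ ∑ i ∈ range s, c (h (k ^ i * (N + 1))) := fun N => by
        induction N with
        | zero => simp
        | succ N ih =>
          obtain ⟨i, hi, e⟩ := hne (N + 1) (by omega)
          refine Nat.succ_le_of_lt (lt_of_le_of_lt ih (sum_lt_sum (fun j _ => cm (hm (by
            gcongr; omega))) ⟨i, mem_range.2 hi, lt_of_le_of_ne (cm (hm (by gcongr; omega))) e.symm⟩))
      obtain ⟨X, hX⟩ := H1 (2 * s * k ^ s + 2)
      have b2 : 1 ≤ k ^ s := Nat.one_le_pow _ _ (by omega)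
      have a1 := (sm (X + 1)).trans (sum_le_card_nsmul _ _ (c (h (k ^ s * (X + 2))))
        (fun i hi => cm (hm (by have := mem_range.1 hi; gcongr; omega))))
      have a2 := e1 (k ^ s * (X + 2))
      have a3 := hX (h (k ^ s * (X + 2))) (by nlinarith)
      rw [card_range, smul_eq_mul] at a1
      obtain ⟨g, hg⟩ : ∃ g, g = c (h (k ^ s * (X + 2))) := ⟨_, rfl⟩
      rw [← hg] at a1 a2 a3
      rw [a2] at a3
      have : k ^ s * (2 * (s * g)) ≤ k ^ s * (X + 2) - g := by
        apply Nat.le_sub_of_add_le; nlinarith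
      have g0 : 0 < g := by
        rcases Nat.eq_zero_or_pos g with e | e
        · simp [e] at a1
        · exact e
      have : k ^ s * (2 * (s * g)) < k ^ s * (X + 2) := by
        have : 0 < k ^ s * (X + 2) := by positivity
        omega
      have := lt_of_mul_lt_mul_left this (Nat.zero_le _)
      omega
    obtain ⟨X, hX⟩ := H1 (4 * n + 4)
    obtain ⟨t, M, ht, a, b⟩ := Kron.pow_hit k hk hp (n + 1 / 2) (n + 1)
      (by have : (1 : ℝ) ≤ n := by exact_mod_cast n1
          linarith) (by linarith) (X + 4)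
    have a' : k ^ t * (2 * n + 1) < 2 * 2 ^ M := by
      have : (k : ℝ) ^ t * (2 * n + 1) < 2 * 2 ^ M := by linarith
      exact_mod_cast this
    have b' : 2 ^ M < k ^ t * (n + 1) := by exact_mod_cast b
    have z1 : t < k ^ t := Nat.lt_pow_self (show 1 < k by omega)
    obtain ⟨x, hx⟩ : ∃ x, 2 ^ M = x + 1 := ⟨2 ^ M - 1, by have : 0 < 2 ^ M := by positivity
                                                          omega⟩
    have px := H2 M
    rw [hx] at a' b' px
    have a3 := hX x (by nlinarith)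
    have a4 : 4 * c x < k ^ t := by nlinarith
    have := jump x (k ^ t * n) (k ^ t * (n + 1)) px (by nlinarith) (by omega)
    exact this.ne' (hs' n hn t)

def one (r n : ℕ) : Prop := ∀ i L, n.testBit (i + L) = true → (∀ t < L, n.testBit (i + t) = false) →
  (i = 0 ∨ n.testBit (i - 1) = true) → r ∣ L

def q (n : ℕ) : Prop := ∀ i, ¬ (n.testBit i = true ∧ n.testBit (i + 1) = false ∧
  n.testBit (i + 2) = true)

theorem small (r : ℕ) (hr : 2 ≤ r) (D : ℕ) : ∃ X, ∀ x, X ≤ x → D * Nat.count (one r) x ≤ x := by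
  have a : ∀ n, one r n → q n := fun n h i ⟨h1, h2, h3⟩ => by
    have := Nat.le_of_dvd one_pos (h (i + 1) 1 h3 (fun t ht => by
      obtain rfl : t = 0 := by omega
      exact h2) (Or.inr h1))
    omega
  have b : ∀ y k, k < 8 → q (8 * y + k) → q y ∧ k ≠ 5 := fun y k hk h => by
    constructor
    · intro i
      have e : y = (8 * y + k) / 2 ^ 3 := by omega
      rw [e]
      simp only [Nat.testBit_div_two_pow]
      have := h (i + 3)
      rwa [show i + 3 + 1 = i + 1 + 3 by ring, show i + 3 + 2 = i + 2 + 3 by ring] at this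
    · rintro rfl
      apply h 0
      simp only [Nat.testBit_eq_decide_div_mod_eq]
      simp; omega
  have c : ∀ y, Nat.count q (8 * y) ≤ 7 * Nat.count q y := fun y => by
    induction y with
    | zero => simp
    | succ y ih =>
      rw [Nat.mul_succ, Nat.count_add, Nat.count_succ q y]
      split_ifs with h
      · have : Nat.count (fun k => q (8 * y + k)) 8 ≤ Nat.count (fun k => k ≠ 5) 8 :=
          Nat.count_mono_left fun k hk h => (b y k hk h).2
        have e : Nat.count (fun k => k ≠ 5) 8 = 7 := by decide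
        omega
      · rw [(Nat.count_iff_forall_not (p := fun k => q (8 * y + k))).2
          fun k hk h' => h (b y k hk h').1]
        omega
  have d : ∀ m, Nat.count q (8 ^ m) ≤ 7 ^ m := fun m => by
    induction m with
    | zero => simpa using Nat.count_le q (n := 1)
    | succ m ih => rw [pow_succ', pow_succ']; exact (c _).trans (by omega)
  have h := (tendsto_pow_atTop_nhds_zero_of_lt_one (by norm_num : (0 : ℝ) ≤ 7 / 8)
    (by norm_num)).eventually (gt_mem_nhds (show (0 : ℝ) < 1 / (7 * D + 1) by positivity))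
  obtain ⟨N, hN⟩ := Filter.eventually_atTop.1 h
  refine ⟨8 ^ N, fun x hx => ?_⟩
  have x0 : x ≠ 0 := by have : 0 < 8 ^ N := by positivity
                        omega
  have l1 := Nat.pow_log_le_self 8 x0
  have l2 := Nat.lt_pow_succ_log_self (show 1 < 8 by norm_num) x
  have l3 := hN (Nat.log 8 x) (Nat.le_log_of_pow_le (by norm_num) hx)
  rw [div_pow, div_lt_div_iff₀ (by positivity) (by positivity)] at l3
  have l4 : 7 ^ Nat.log 8 x * (7 * D + 1) < 1 * 8 ^ Nat.log 8 x := by exact_mod_cast l3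
  have l5 : Nat.count (one r) x ≤ 7 ^ (Nat.log 8 x + 1) :=
    (Nat.count_mono_left fun n _ => a n).trans ((Nat.count_monotone q l2.le).trans (d _))
  rw [pow_succ] at l5
  nlinarith

theorem final (r : ℕ) (hr : 2 ≤ r) (k : ℕ) (hk : 2 ≤ k) :
    ¬ (Submodule.span ℤ (Reg.ker k fun n => (Nat.nth (fun m => ¬ one r m) n : ℤ))).FG := by
  refine nonreg (one r) (2 ^ r + 1) r (by simp) (by omega) (small r hr) ?_ ?_ ?_ k hk
  · intro M i L h1 h2 _
    rcases Nat.eq_zero_or_pos L with rfl | hL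
    · simp
    · have := h2 0 hL
      simp only [Nat.testBit_two_pow_sub_one, decide_eq_true_eq, decide_eq_false_iff_not] at h1 this
      omega
  · intro M x a b h
    have e : x / 2 ^ M = 2 ^ r + 1 := Nat.div_eq_of_lt_le a b
    have f : ∀ t, x.testBit (t + M) = true ↔ t = r ∨ t = 0 := fun t => by
      rw [← Nat.testBit_div_two_pow, e, ← mul_one (2 ^ r),
        Nat.testBit_two_pow_mul_add 1 (Nat.one_lt_two_pow (by omega))]
      split_ifs <;> simp only [Nat.testBit_one_eq_true_iff_self_eq_zero] <;> omega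
    have := Nat.le_of_dvd (by omega) (h (M + 1) (r - 1)
      (by rw [show M + 1 + (r - 1) = r + M by omega, f]; simp)
      (fun t ht => by
        rw [show M + 1 + t = t + 1 + M by ring, ← Bool.not_eq_true, f]; omega)
      (Or.inr (by rw [show M + 1 - 1 = 0 + M by simp, f]; simp)))
    omega
  · intro m j hm i L h1 h2 h3
    have f : ∀ t, (((2 ^ r + 1) * 2 ^ m - 1) * 2 ^ (r * j)).testBit t = true ↔
        (r * j ≤ t ∧ t < r * j + m) ∨ t = r * j + m + r := fun t => by
      have : (2 ^ r + 1) * 2 ^ m - 1 = 2 ^ m * 2 ^ r + (2 ^ m - 1) := by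
        have : 0 < 2 ^ m := by positivity
        rw [add_mul, mul_comm]; omega
      rw [Nat.testBit_mul_two_pow, this, Nat.testBit_two_pow_mul_add _ (by simp)]
      split_ifs <;> simp only [Nat.testBit_two_pow_sub_one, Nat.testBit_two_pow, Bool.and_eq_true,
        decide_eq_true_eq] <;> omega
    rcases Nat.eq_zero_or_pos L with rfl | hL
    · simp
    have g0 := h2 0 hL
    rw [← Bool.not_eq_true, f] at g0
    rw [f] at h1 h3
    by_cases e : L = r
    · rw [e]
    · have g1 : ¬ r * j < L ∨ i ≠ 0 := by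
        by_contra hh
        push Not at hh
        have := h2 _ hh.1
        rw [← Bool.not_eq_true, f] at this
        omega
      exact ⟨j, by omega⟩

end Pool.Agent.H17.BS
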