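import Mathlib

set_option autoImplicit false

namespace Pool.Agent.H17.Bdry

open Finset

variable {n : ℕ}

noncomputable def sg (v : Fin n) (s : Finset (Fin n)) : ℝ := (-1) ^ (s.filter (· < v)).card

noncomputable def io (v : Fin n) (f : Finset (Fin n) → ℝ) (t : Finset (Fin n)) : ℝ :=
  if v ∉ t then sg v t * f (insert v t) else 0

noncomputable def ep (v : Fin n) (f : Finset (Fin n) → ℝ) (s : Finset (Fin n)) : ℝ :=
  if v ∈ s then sg v s * f (s.erase v) else 0

theorem sg_sq (v : Fin n) (s : Finset (Fin n)) : sg v s * sg v s = 1 := by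
  rw [sg, ← mul_pow]; simp

theorem sg_ins (v : Fin n) {a : Fin n} {r : Finset (Fin n)} (h : a ∉ r) :
    sg v (insert a r) = (if a < v then -1 else 1) * sg v r := by
  unfold sg
  rw [filter_insert]
  split_ifs
  · rw [card_insert_of_notMem (by simp [h]), pow_succ]; ring
  · simp

theorem sg_self {v : Fin n} {r : Finset (Fin n)} (h : v ∉ r) : sg v (insert v r) = sg v r := by
  simp [sg_ins v h]

theorem swap (w : Fin n) (F : Finset (Fin n) → Finset (Fin n) → ℝ) :
    ∑ t, (if w ∉ t then F (insert w t) t else 0) = ∑ s, if w ∈ s then F s (s.erase w) else 0 := by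
  rw [← sum_filter, ← sum_filter]
  refine sum_nbij' (insert w) (·.erase w) (by simp) (by simp) (fun t h => ?_) (fun s h => ?_)
    fun t h => ?_
  · exact erase_insert (by simpa using h)
  · exact insert_erase (by simpa using h)
  · rw [erase_insert (by simpa using h)]

theorem adj (v : Fin n) (f g : Finset (Fin n) → ℝ) : g ⬝ᵥ io v f = ep v g ⬝ᵥ f := by
  have := swap v fun s t => g t * (sg v s * f s)
  simp only [dotProduct, io, ep, mul_ite, ite_mul, mul_zero, zero_mul]
  rw [sum_congr rfl fun t _ => if_congr Iff.rfl rfl rfl] at this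
  refine (sum_congr rfl fun t _ => ?_).trans (this.trans (sum_congr rfl fun t _ => ?_))
  · split_ifs with h
    · rfl
    · rw [sg_self h]
  · split_ifs
    · ring
    · rfl

theorem car (v w : Fin n) (f : Finset (Fin n) → ℝ) (t : Finset (Fin n)) :
    io w (ep v f) t + ep v (io w f) t = if v = w then f t else 0 := by
  simp only [io, ep]
  by_cases e : v = w
  · subst e
    by_cases h : v ∈ t
    · obtain ⟨r, hr, rfl⟩ : ∃ r, v ∉ r ∧ t = insert v r := ⟨_, notMem_erase v t, (insert_erase h).symm⟩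
      simp [erase_insert hr, sg_self hr, ← mul_assoc, sg_sq, hr]
    · simp [h, erase_insert h, sg_self h, ← mul_assoc, sg_sq]
  by_cases h : v ∈ t
  · by_cases h2 : w ∈ t
    · simp [h, h2, e, Ne.symm e]
    obtain ⟨r, hr, rfl⟩ : ∃ r, v ∉ r ∧ t = insert v r := ⟨_, notMem_erase v t, (insert_erase h).symm⟩
    have h3 : w ∉ r := fun k => h2 (mem_insert_of_mem k)
    rw [if_pos h2, if_pos (mem_insert_of_mem h), if_pos h, erase_insert hr, if_pos h3, if_neg e,
      sg_ins v h2, sg_ins w hr, insert_comm, erase_insert (by simp [e, hr])]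
    rcases lt_or_gt_of_ne e with l | l <;> simp [l, l.not_gt] <;> ring
  · simp [h, e]

theorem ioio (v w : Fin n) (f : Finset (Fin n) → ℝ) (t : Finset (Fin n)) :
    io w (io v f) t + io v (io w f) t = 0 := by
  unfold io
  by_cases e : v = w
  · simp [e]
  by_cases h : v ∈ t
  · simp [h]
  by_cases h2 : w ∈ t
  · simp [h2]
  rw [if_pos h2, if_pos h, if_pos (by simp [e, h]), if_pos (by simp [Ne.symm e, h2]),
    sg_ins v h2, sg_ins w h, insert_comm]
  rcases lt_or_gt_of_ne e with l | l <;> simp [l, l.not_gt] <;> ring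

theorem io_sum (w : Fin n) (f : Fin n → Finset (Fin n) → ℝ) (t : Finset (Fin n)) :
    io w (fun s => ∑ v, f v s) t = ∑ v, io w (f v) t := by
  unfold io; split_ifs <;> simp [mul_sum]

theorem ep_sum (w : Fin n) (f : Fin n → Finset (Fin n) → ℝ) (t : Finset (Fin n)) :
    ep w (fun s => ∑ v, f v s) t = ∑ v, ep w (f v) t := by
  unfold ep; split_ifs <;> simp [mul_sum]

theorem cnt (p : Finset (Fin n) → Prop) [DecidablePred p] (g : Finset (Fin n) → ℝ) :
    ∑ w, ∑ t, (if p t then io w g t else 0) ^ 2 = ∑ s, #{w ∈ s | p (s.erase w)} * g s ^ 2 := by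
  have : ∀ w, ∑ t, (if p t then io w g t else 0) ^ 2 =
      ∑ s, if w ∈ s then (if p (s.erase w) then g s ^ 2 else 0) else 0 := by
    intro w
    rw [← swap w fun s t => if p t then g s ^ 2 else 0]
    refine sum_congr rfl fun t _ => ?_
    unfold io
    split_ifs <;> simp [mul_pow, sq (sg _ _), sg_sq]
  rw [sum_congr rfl fun w _ => this w, sum_comm]
  refine sum_congr rfl fun s _ => ?_
  rw [sum_ite_mem, univ_inter, ← sum_filter, sum_const, nsmul_eq_mul]

theorem key (p q : Finset (Fin n) → Prop) [DecidablePred p] [DecidablePred q] (k : ℕ) (c : ℝ)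
    (hp : ∀ s, p s → #s = k + 1) (hq : ∀ s, q s → #s = k + 2 ∧ ∀ w ∈ s, p (s.erase w))
    (h : ∀ u : Finset (Fin n) → ℝ, ∑ t, (if p t then ∑ v, ep v u t else 0) ^ 2 ≤ c * ∑ t, u t ^ 2)
    (z : Finset (Fin n) → ℝ) (hz : ∀ t, ¬ p t → z t = 0) (h0 : ∀ t, ∑ v, io v z t = 0) :
    ∑ t, (if q t then ∑ v, ep v z t else 0) ^ 2 ≤ c * ∑ t, z t ^ 2 := by
  set g : Finset (Fin n) → ℝ := fun t => ∑ v, ep v z t with hg
  have a1 : ∀ w t, ∑ v, ep v (io w z) t = z t - io w g t := by
    intro w t
    rw [hg, io_sum, eq_sub_iff_add_eq, ← sum_add_distrib]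
    simp only [add_comm (ep _ _ _), car, sum_ite_eq', mem_univ, if_true]
  have a2 : ∑ w, z ⬝ᵥ io w g = g ⬝ᵥ g := by
    simp only [adj]
    rw [← sum_dotProduct]; congr 1; funext t; simp [hg]
  have a3 : g ⬝ᵥ g = n * (z ⬝ᵥ z) := by
    have : ∀ t, ∑ w, io w g t = n * z t := by
      intro t
      have : ∑ w, ∑ v, ep v (io w z) t = 0 := by
        rw [sum_comm]
        refine sum_eq_zero fun v _ => ?_
        rw [← ep_sum]; simp [h0, ep]
      simp only [a1, sum_sub_distrib, sum_const, card_univ, Fintype.card_fin, nsmul_eq_mul] at this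
      linarith
    rw [← a2]
    simp only [dotProduct]
    rw [sum_comm]
    simp only [← mul_sum, this]
    rw [mul_sum]
    exact sum_congr rfl fun _ _ => by ring
  have a4 : ∀ w, ∑ t, (if p t then ∑ v, ep v (io w z) t else 0) ^ 2 =
      z ⬝ᵥ z - 2 * (z ⬝ᵥ io w g) + ∑ t, (if p t then io w g t else 0) ^ 2 := by
    intro w
    simp only [dotProduct, mul_sum, ← sum_sub_distrib, ← sum_add_distrib, a1]
    refine sum_congr rfl fun t _ => ?_
    split_ifs with e
    · ring
    · simp [hz t e]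
  have a5 : ∑ w, ∑ t, io w z t ^ 2 = (k + 1) * ∑ t, z t ^ 2 := by
    have := cnt (fun _ => True) z
    simp only [if_true, filter_true] at this
    rw [this, mul_sum]
    refine sum_congr rfl fun t _ => ?_
    by_cases e : p t
    · simp [hp t e]
    · simp [hz t e]
  have a6 := sum_le_sum fun w (_ : w ∈ univ) => h (io w z)
  simp only [a4, sum_add_distrib, sum_sub_distrib, ← mul_sum, a2, a5, cnt, sum_const, card_univ,
    Fintype.card_fin, nsmul_eq_mul, ← a3] at a6
  have a7 : (k + 1 : ℝ) * ∑ t, (if q t then g t else 0) ^ 2 + g ⬝ᵥ g ≤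
      ∑ s, #{w ∈ s | p (s.erase w)} * g s ^ 2 := by
    simp only [dotProduct, mul_sum, ← sum_add_distrib]
    refine sum_le_sum fun s _ => ?_
    split_ifs with e
    · rw [filter_true_of_mem (hq s e).2, (hq s e).1]; push_cast; linarith
    · rcases Nat.eq_zero_or_pos #{w ∈ s | p (s.erase w)} with e0 | e0
      · have : g s = 0 := sum_eq_zero fun v _ => by
          unfold ep
          split_ifs with hv
          · rw [hz _ (filter_eq_empty_iff.1 (card_eq_zero.1 e0) hv), mul_zero]
          · rfl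
        simp [this]
      · have : (1 : ℝ) ≤ #{w ∈ s | p (s.erase w)} := by exact_mod_cast e0
        nlinarith [sq_nonneg (g s)]
  refine le_of_mul_le_mul_left (a := (k + 1 : ℝ)) ?_ (by positivity)
  linarith

theorem dual {ι : Type} [Fintype ι] (M : Matrix ι ι ℝ) (c : ℝ) (hc : 0 ≤ c) (u : ι → ℝ)
    (h : M.mulVec (M.transpose.mulVec u) ⬝ᵥ M.mulVec (M.transpose.mulVec u) ≤
      c * (M.transpose.mulVec u ⬝ᵥ M.transpose.mulVec u)) :
    M.transpose.mulVec u ⬝ᵥ M.transpose.mulVec u ≤ c * (u ⬝ᵥ u) := by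
  set y := M.transpose.mulVec u with hy
  have e : y ⬝ᵥ y = u ⬝ᵥ M.mulVec y := by
    rw [Matrix.dotProduct_mulVec u, ← Matrix.mulVec_transpose]
  have cs : (u ⬝ᵥ M.mulVec y) ^ 2 ≤ (u ⬝ᵥ u) * (M.mulVec y ⬝ᵥ M.mulVec y) := by
    simpa only [dotProduct, sq] using sum_mul_sq_le_sq_mul_sq univ u (M.mulVec y)
  have p1 : 0 ≤ u ⬝ᵥ u := sum_nonneg fun _ _ => mul_self_nonneg _
  have p2 : 0 ≤ y ⬝ᵥ y := sum_nonneg fun _ _ => mul_self_nonneg _
  rw [← e] at cs
  rcases p2.eq_or_lt with p | p
  · rw [← p]; positivity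
  · refine le_of_mul_le_mul_left ?_ p
    nlinarith [mul_le_mul_of_nonneg_left h p1]

end Pool.Agent.H17.Bdry
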