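import Mathlib

set_option autoImplicit false

namespace Pool.Agent.H17.BinPart

def S (n : ℕ) : Set (Multiset ℕ) := {s | s.sum = n ∧ ∀ i ∈ s, ∃ e, i = 2 ^ e}

theorem S_eq (n : ℕ) : S n =
    (fun p : n.Partition => p.parts) '' {p | ∀ i ∈ p.parts, ∃ e, i = 2 ^ e} := by
  ext s
  constructor
  · rintro ⟨h1, h2⟩
    exact ⟨⟨s, fun {i} hi => by obtain ⟨e, rfl⟩ := h2 i hi; positivity, h1⟩, h2, rfl⟩
  · rintro ⟨p, hp, rfl⟩
    exact ⟨p.parts_sum, hp⟩

theorem S_fin (n : ℕ) : (S n).Finite := by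
  rw [S_eq]
  exact (Set.toFinite _).image _

noncomputable def b (n : ℕ) : ℕ := (S n).ncard

theorem b_eq (n : ℕ) :
    Nat.card {p : n.Partition // ∀ i ∈ p.parts, ∃ e, i = 2 ^ e} = b n := by
  rw [b, S_eq, Set.ncard_image_of_injective _ (fun p q h => Nat.Partition.ext h)]
  rfl

theorem b_succ (n : ℕ) : b (n + 1) = b n + {s ∈ S (n + 1) | 1 ∉ s}.ncard := by
  have h1 : S (n + 1) = (fun s => 1 ::ₘ s) '' S n ∪ {s ∈ S (n + 1) | 1 ∉ s} := by
    ext s
    constructor
    · intro hs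
      by_cases h : 1 ∈ s
      · obtain ⟨t, rfl⟩ := Multiset.exists_cons_of_mem h
        refine Or.inl ⟨t, ⟨?_, fun i hi => hs.2 i (Multiset.mem_cons_of_mem hi)⟩, rfl⟩
        have := hs.1
        rw [Multiset.sum_cons] at this
        omega
      · exact Or.inr ⟨hs, h⟩
    · rintro (⟨t, ht, rfl⟩ | h)
      · refine ⟨by rw [Multiset.sum_cons, ht.1]; omega, fun i hi => ?_⟩
        rcases Multiset.mem_cons.1 hi with rfl | hi
        · exact ⟨0, rfl⟩
        · exact ht.2 i hi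
      · exact h.1
  rw [b, h1, Set.ncard_union_eq _ ((S_fin n).image _) ((S_fin _).subset (Set.sep_subset _ _)),
    Set.ncard_image_of_injective _ (fun s t h => (Multiset.cons_inj_right 1).1 h), ← h1, b]
  rw [Set.disjoint_left]
  rintro s ⟨t, -, rfl⟩ h
  exact h.2 (Multiset.mem_cons_self _ _)

theorem half {n : ℕ} {s : Multiset ℕ} (hs : s ∈ S n) (h : 1 ∉ s) :
    ∃ t : Multiset ℕ, s = t.map (2 * ·) ∧ ∀ i ∈ t, ∃ e, i = 2 ^ e := by
  refine ⟨s.map (· / 2), ?_, ?_⟩
  · rw [Multiset.map_map]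
    conv_lhs => rw [← Multiset.map_id s]
    refine Multiset.map_congr rfl fun i hi => ?_
    obtain ⟨e, rfl⟩ := hs.2 i hi
    cases e with
    | zero => exact absurd hi h
    | succ e => simp only [id, Function.comp, pow_succ]; omega
  · intro i hi
    obtain ⟨j, hj, rfl⟩ := Multiset.mem_map.1 hi
    obtain ⟨e, rfl⟩ := hs.2 j hj
    cases e with
    | zero => exact absurd hj h
    | succ e => exact ⟨e, by simp only [pow_succ]; omega⟩

theorem sum2 (t : Multiset ℕ) : (t.map (2 * ·)).sum = 2 * t.sum := by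
  rw [Multiset.sum_map_mul_left]; simp

theorem b_odd (m : ℕ) : b (2 * m + 1) = b (2 * m) := by
  have : {s ∈ S (2 * m + 1) | 1 ∉ s} = ∅ := by
    ext s
    simp only [Set.mem_ofPred_eq, Set.mem_empty_iff_false, iff_false]
    rintro ⟨hs, h⟩
    obtain ⟨t, rfl, -⟩ := half hs h
    have := hs.1
    rw [sum2] at this
    omega
  rw [b_succ, this]
  simp

theorem b_even (m : ℕ) : b (2 * m + 2) = b (2 * m + 1) + b (m + 1) := by
  have : {s ∈ S (2 * m + 1 + 1) | 1 ∉ s} = (Multiset.map (2 * ·)) '' S (m + 1) := by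
    ext s
    constructor
    · rintro ⟨hs, h⟩
      obtain ⟨t, rfl, ht⟩ := half hs h
      have := hs.1
      rw [sum2] at this
      exact ⟨t, ⟨by omega, ht⟩, rfl⟩
    · rintro ⟨t, ht, rfl⟩
      refine ⟨⟨by rw [sum2, ht.1]; omega, fun i hi => ?_⟩, fun hi => ?_⟩
      · obtain ⟨j, hj, rfl⟩ := Multiset.mem_map.1 hi
        obtain ⟨e, rfl⟩ := ht.2 j hj
        exact ⟨e + 1, by ring⟩
      · obtain ⟨j, -, hj⟩ := Multiset.mem_map.1 hi
        omega
  rw [b_succ, this, Set.ncard_image_of_injective _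
    (Multiset.map_injective fun x y (h : 2 * x = 2 * y) => by omega), b, b]

theorem b_zero : b 0 = 1 := by
  have : S 0 = {0} := by
    ext s
    simp only [S, Set.mem_ofPred_eq, Set.mem_singleton_iff]
    constructor
    · rintro ⟨h1, h2⟩
      rw [Multiset.eq_zero_iff_forall_notMem]
      intro i hi
      obtain ⟨e, rfl⟩ := h2 i hi
      have := Multiset.single_le_sum (fun x _ => Nat.zero_le x) _ hi
      have : 0 < 2 ^ e := by positivity
      omega
    · rintro rfl
      simp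
  rw [b, this]
  simp

theorem b_one : b 1 = 1 := (b_odd 0).trans b_zero

theorem b_rec (n : ℕ) : b (n + 2) = b n + b (n / 2 + 1) := by
  rcases Nat.even_or_odd' n with ⟨m, rfl | rfl⟩
  · rw [b_even, b_odd, show 2 * m / 2 = m by omega]
  · rw [show 2 * m + 1 + 2 = 2 * (m + 1) + 1 by ring, b_odd, show (2 * m + 1) / 2 = m by omega,
      show 2 * (m + 1) = 2 * m + 2 by ring, b_even]

theorem b_pos (n : ℕ) : 1 ≤ b n := by
  induction n using Nat.twoStepInduction with
  | zero => rw [b_zero]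
  | one => rw [b_one]
  | more n h _ => rw [b_rec]; omega

theorem b_ten (n : ℕ) : 10 ≤ b (n + 8) := by
  induction n using Nat.twoStepInduction with
  | zero => simp [b_rec, b_zero, b_one]
  | one => simp [b_rec, b_zero, b_one]
  | more n h _ => rw [show n + 2 + 8 = n + 8 + 2 by ring, b_rec]; omega

theorem b_big (n : ℕ) : 5 * (n + 30) + 6 ≤ b (n + 30) := by
  induction n using Nat.twoStepInduction with
  | zero => simp [b_rec, b_zero, b_one]
  | one => simp [b_rec, b_zero, b_one]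
  | more n h _ =>
    have := b_ten (n / 2 + 8)
    rw [show n + 2 + 30 = n + 30 + 2 by ring, b_rec,
      show (n + 30) / 2 + 1 = n / 2 + 8 + 8 by omega]
    omega

noncomputable def w (N : ℕ) : ℕ :=
  if N % 5 = 0 then 5 else if N % 5 = 1 then 10 * Nat.fib (N / 5 + 2) else if N % 5 = 2 then 3
  else if N % 5 = 3 then max 1 (5 * ((N / 5 + 1) / 2)) else b (N / 5)

theorem w0 (n : ℕ) : w (5 * n) = 5 := by simp [w]

theorem w1 (n : ℕ) : w (5 * n + 1) = 10 * Nat.fib (n + 2) := by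
  rw [w, if_neg (by omega), if_pos (by omega), show (5 * n + 1) / 5 = n by omega]

theorem w2 (n : ℕ) : w (5 * n + 2) = 3 := by
  rw [w, if_neg (by omega), if_neg (by omega), if_pos (by omega)]

theorem w3 (n : ℕ) (hn : 1 ≤ n) : w (5 * n + 3) = 5 * ((n + 1) / 2) := by
  rw [w, if_neg (by omega), if_neg (by omega), if_neg (by omega), if_pos (by omega),
    show (5 * n + 3) / 5 = n by omega]
  omega

theorem w4 (n : ℕ) : w (5 * n + 4) = b n := by
  rw [w, if_neg (by omega), if_neg (by omega), if_neg (by omega), if_neg (by omega),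
    show (5 * n + 4) / 5 = n by omega]

theorem w_pos (N : ℕ) : 1 ≤ w N := by
  have := b_pos (N / 5)
  have : 0 < Nat.fib (N / 5 + 2) := Nat.fib_pos.2 (by omega)
  unfold w
  split_ifs <;> omega

theorem w_rec (N : ℕ) (hN : 160 ≤ N) :
    w N = (if N < w (N - 1) then 0 else w (N - w (N - 1))) + w (N - 10) := by
  obtain ⟨n, hn⟩ : ∃ n, N = 5 * (n + 32) ∨ N = 5 * (n + 32) + 1 ∨ N = 5 * (n + 32) + 2 ∨
      N = 5 * (n + 32) + 3 ∨ N = 5 * (n + 32) + 4 := ⟨N / 5 - 32, by omega⟩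
  rcases hn with rfl | rfl | rfl | rfl | rfl
  · have := b_big (n + 1)
    rw [show 5 * (n + 32) - 1 = 5 * (n + 1 + 30) + 4 by omega,
      show 5 * (n + 32) - 10 = 5 * (n + 30) by omega, w4, if_pos (by omega), w0, w0]
  · rw [show 5 * (n + 32) + 1 - 1 = 5 * (n + 32) by omega, w0, if_neg (by omega),
      show 5 * (n + 32) + 1 - 10 = 5 * (n + 30) + 1 by omega,
      show 5 * (n + 32) + 1 - 5 = 5 * (n + 31) + 1 by omega, w1, w1, w1,
      show n + 32 + 2 = n + 32 + 2 from rfl, Nat.fib_add_two (n := n + 32)]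
    ring
  · have := Nat.le_fib_self (n := n + 32 + 2) (by omega)
    rw [show 5 * (n + 32) + 2 - 1 = 5 * (n + 32) + 1 by omega, w1, if_pos (by omega),
      show 5 * (n + 32) + 2 - 10 = 5 * (n + 30) + 2 by omega, w2, w2]
  · rw [show 5 * (n + 32) + 3 - 1 = 5 * (n + 32) + 2 by omega, w2, if_neg (by omega),
      show 5 * (n + 32) + 3 - 10 = 5 * (n + 30) + 3 by omega,
      show 5 * (n + 32) + 3 - 3 = 5 * (n + 32) by omega, w0, w3 _ (by omega), w3 _ (by omega)]
    omega
  · rw [show 5 * (n + 32) + 4 - 1 = 5 * (n + 32) + 3 by omega, w3 _ (by omega), if_neg (by omega),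
      show 5 * (n + 32) + 4 - 10 = 5 * (n + 30) + 4 by omega,
      show 5 * (n + 32) + 4 - 5 * ((n + 32 + 1) / 2) = 5 * ((n + 30) / 2 + 1) + 4 by omega,
      w4, w4, w4, show n + 32 = n + 30 + 2 by ring, b_rec]
    ring

end Pool.Agent.H17.BinPart
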