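import Mathlib

set_option autoImplicit false

namespace Pool.Agent.H17.Bm11
open PowerSeries

abbrev R := ZMod 32

noncomputable def ev : List ℤ → R⟦X⟧
  | [] => 0
  | a :: l => C (a : R) + X * ev l

def ladd : List ℤ → List ℤ → List ℤ
  | [], b => b
  | a, [] => a
  | x :: a, y :: b => (x + y) :: ladd a b

def lmul : List ℤ → List ℤ → List ℤ
  | [], _ => []
  | x :: a, b => ladd (b.map (fun y => x * y)) (0 :: lmul a b)

def lpow (a : List ℤ) : ℕ → List ℤ
  | 0 => [1]
  | n + 1 => lmul a (lpow a n)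

def spread : List ℤ → List ℤ
  | [] => []
  | x :: a => x :: 0 :: spread a

theorem ev_add : ∀ a b : List ℤ, ev (ladd a b) = ev a + ev b
  | [], b => by simp [ladd, ev]
  | x :: a, [] => by simp [ladd, ev]
  | x :: a, y :: b => by
      simp only [ladd, ev, ev_add a b, Int.cast_add, map_add]; ring

theorem ev_smul (x : ℤ) : ∀ b : List ℤ, ev (b.map (fun y => x * y)) = C (x : R) * ev b
  | [] => by simp [ev]
  | y :: b => by
      simp only [List.map, ev, ev_smul x b, Int.cast_mul, map_mul]; ring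

theorem ev_mul : ∀ a b : List ℤ, ev (lmul a b) = ev a * ev b
  | [], b => by simp [lmul, ev]
  | x :: a, b => by
      simp only [lmul, ev_add, ev_smul, ev, ev_mul a b, Int.cast_zero, map_zero]; ring

theorem ev_pow (a : List ℤ) : ∀ n, ev (lpow a n) = ev a ^ n
  | 0 => by simp [lpow, ev]
  | n + 1 => by simp only [lpow, ev_mul, ev_pow a n]; ring

noncomputable abbrev E : R⟦X⟧ →ₐ[R] R⟦X⟧ := expand 2 (by norm_num)

theorem ev_spread : ∀ a : List ℤ, ev (spread a) = E (ev a)
  | [] => by simp [spread, ev]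
  | x :: a => by
      simp only [spread, ev, ev_spread a, map_add, map_mul, expand_C, expand_X, Int.cast_zero,
        map_zero]; ring

theorem ev_zero : ∀ a : List ℤ, (a.all (fun x => x % 32 == 0)) = true → ev a = 0
  | [], _ => rfl
  | x :: a, h => by
      simp only [List.all_cons, Bool.and_eq_true, beq_iff_eq] at h
      have hx : ((x : ℤ) : R) = 0 := by
        rw [ZMod.intCast_zmod_eq_zero_iff_dvd]
        exact Int.dvd_of_emod_eq_zero h.1
      simp [ev, hx, ev_zero a h.2]

theorem ev_eq (a b : List ℤ)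
    (h : ((ladd a (b.map (fun y => (-1) * y))).all (fun x => x % 32 == 0)) = true) :
    ev a = ev b := by
  have := ev_zero _ h
  rw [ev_add, ev_smul] at this
  simp only [Int.cast_neg, Int.cast_one, map_neg, map_one] at this
  linear_combination this

def N : List (List ℤ) :=
  [[1,19,14,2,11,25,20,12,7,21,30,18,13,31],[29,1,9,13,7,19,19,31],[21,17,17,13,15,3,11,31],
   [25,20,14,4,1],[9,4,30,20,1],[25,21,19,31],[12,16,4],[9,21,3,31],[5,10,1],[13,2,1],[20,8,4],
   [16,16],[27,20,1],[2,30],[19,28,1],[8,24],[5,26,1],[20,28],[18,30],[13,18,1],[4,28]]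

def tr : List (ℤ × ℕ × ℤ × ℕ) :=
  [(21,1,31,2),(5,3,1,3),(13,4,1,4),(1,5,1,6),(1,7,5,6),(5,8,1,9),(7,10,1,11),(21,8,1,9),
   (31,12,1,13),(31,14,13,13),(7,6,1,15),(1,11,1,11),(31,16,3,17),(9,18,15,18),(31,19,5,17),
   (1,15,3,15),(31,12,9,13),(5,20,7,20),(1,18,15,18),(31,14,5,13),(1,20,7,20)]

def NN (s : ℕ) : List ℤ := N.getD s []
def tt (s : ℕ) : ℤ × ℕ × ℤ × ℕ := tr.getD s (0, 0, 0, 0)

def good (s : ℕ) : Bool :=
  (tt s).2.1 < 21 && (tt s).2.2.2 < 21 && (tt s).1 % 2 == 1 && (tt s).2.2.1 % 2 == 1 &&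
  (NN s).headD 0 % 32 != 0 &&
  (ladd (lmul (NN s) (lpow [1, 1] 13))
    ((lmul (lpow [1, -1] 11) (ladd ((spread (NN (tt s).2.1)).map (fun y => (tt s).1 * y))
      (0 :: (spread (NN (tt s).2.2.2)).map (fun y => (tt s).2.2.1 * y)))).map
        (fun y => (-1) * y))).all (fun x => x % 32 == 0)

theorem all_good : ∀ s < 21, good s = true := by decide +kernel

theorem N0 : ((ladd (NN 0) ((lpow [1, -1] 13).map (fun y => (-1) * y))).all
    (fun x => x % 32 == 0)) = true := by decide +kernel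

noncomputable def g (i : ℕ) : R⟦X⟧ := mk (fun j : ℕ => if 2 ^ i ∣ j then (1 : R) else 0)

noncomputable def w : R⟦X⟧ := mk 1

theorem g0 : g 0 = w := by
  ext n; simp [g, w]

theorem g_succ (i : ℕ) : g (i + 1) = E (g i) := by
  ext n
  rw [coeff_expand]
  simp only [g, coeff_mk]
  by_cases h : 2 ∣ n
  · obtain ⟨m, rfl⟩ := h
    simp only [dvd_mul_right, if_true, Nat.mul_div_cancel_left m (by norm_num : 0 < 2)]
    have : 2 ^ (i + 1) ∣ 2 * m ↔ 2 ^ i ∣ m := by
      rw [pow_succ']; exact Nat.mul_dvd_mul_iff_left (by norm_num)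
    simp [this]
  · have : ¬ 2 ^ (i + 1) ∣ n := fun h' => h (dvd_trans (dvd_pow_self 2 (by omega)) h')
    simp [h, this]

theorem w_mul : w * (1 - X) = 1 := mk_one_mul_one_sub_eq_one R

theorem Ew_mul : E w * (1 - X ^ 2) = 1 := by
  have := congrArg E w_mul
  simpa [expand_X] using this

theorem w_eq : w = (1 + X) * E w := by
  have h1 := w_mul
  have h2 := Ew_mul
  linear_combination (-w) * h2 + ((1 + X) * E w) * h1

noncomputable def F (k : ℕ) : R⟦X⟧ := (∏ i ∈ Finset.range k, g i) ^ 11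

theorem F_succ (k : ℕ) : F (k + 1) = w ^ 11 * E (F k) := by
  unfold F
  rw [Finset.prod_range_succ', mul_pow, map_pow, map_prod, g0]
  simp only [g_succ]; ring

noncomputable def G (s k : ℕ) : R⟦X⟧ := ev (NN s) * w ^ 13 * F k

theorem ev11 : ev [1, 1] = 1 + X := by simp [ev]
theorem ev1m : ev [1, -1] = 1 - X := by simp [ev]; ring

theorem G_succ (s k : ℕ) (hs : s < 21) :
    G s (k + 1) = C (((tt s).1 : ℤ) : R) * E (G (tt s).2.1 k) +
      X * (C (((tt s).2.2.1 : ℤ) : R) * E (G (tt s).2.2.2 k)) := by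
  have h := all_good s hs
  simp only [good, Bool.and_eq_true] at h
  have h6 := ev_eq _ _ h.2
  rw [ev_mul, ev_mul, ev_pow, ev_pow, ev11, ev1m, ev_add, ev_smul, ev_spread] at h6
  simp only [ev, ev_smul, ev_spread, Int.cast_zero, map_zero, zero_add] at h6
  unfold G
  rw [F_succ]
  simp only [map_mul, map_pow]
  have h7 : w ^ 11 * (1 - X) ^ 11 = 1 := by rw [← mul_pow, w_mul, one_pow]
  have h8 : w ^ 13 = (1 + X) ^ 13 * E w ^ 13 := by rw [← mul_pow, ← w_eq]
  rw [h8]
  generalize ev (NN s) = a at *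
  generalize E (ev (NN (tt s).2.1)) = b at *
  generalize E (ev (NN (tt s).2.2.2)) = c at *
  generalize (C (((tt s).1 : ℤ) : R) : R⟦X⟧) = u at *
  generalize (C (((tt s).2.2.1 : ℤ) : R) : R⟦X⟧) = v at *
  generalize E w ^ 13 = e at *
  generalize E (F k) = f at *
  generalize ((1 : R⟦X⟧) + X) ^ 13 = p at *
  generalize ((1 : R⟦X⟧) - X) ^ 11 = q at *
  generalize w ^ 11 = z at *
  linear_combination (e * z * f) * h6 + (e * f * (u * b + X * (v * c))) * h7

theorem odd_mul (u : ℤ) (hu : u % 2 = 1) (a : R) (ha : a ≠ 0) : (u : R) * a ≠ 0 := by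
  have hun : IsUnit (u : R) := by
    have : IsCoprime u ((32 : ℕ) : ℤ) := by
      have h2 : IsCoprime u 2 := ⟨1, -(u / 2), by omega⟩
      have := h2.pow_right (n := 5)
      simpa using this
    exact (ZMod.coe_int_isUnit_iff_isCoprime u 32).2 this.symm
  intro h
  exact ha (hun.mul_right_eq_zero.1 h)

theorem coeff_ne : ∀ k s n : ℕ, s < 21 → n < 2 ^ k → coeff n (G s k) ≠ 0
  | 0, s, n, hs, hn => by
      have h := all_good s hs
      simp only [good, Bool.and_eq_true] at h
      have h5 := h.1.2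
      obtain rfl : n = 0 := by simpa using hn
      have hw : constantCoeff w = 1 := by simp [w]
      have hN : constantCoeff (ev (NN s)) = (((NN s).headD 0 : ℤ) : R) := by
        cases NN s <;> simp [ev]
      simp only [G, F, Finset.range_zero, Finset.prod_empty, one_pow, mul_one,
        coeff_zero_eq_constantCoeff, map_mul, map_pow, hw, hN]
      rw [Ne, ZMod.intCast_zmod_eq_zero_iff_dvd]
      intro hd
      have := Int.emod_eq_zero_of_dvd hd
      simp only [bne_iff_ne, ne_eq] at h5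
      exact h5 (by simpa using this)
  | k + 1, s, n, hs, hn => by
      have h := all_good s hs
      simp only [good, Bool.and_eq_true, decide_eq_true_eq, beq_iff_eq] at h
      obtain ⟨⟨⟨⟨⟨h1, h2⟩, h3⟩, h4⟩, -⟩, -⟩ := h
      rw [G_succ s k hs, map_add]
      rcases Nat.even_or_odd' n with ⟨m, rfl | rfl⟩
      · have hm : m < 2 ^ k := by rw [pow_succ] at hn; omega
        have e1 : coeff (2 * m) (X * (C (((tt s).2.2.1 : ℤ) : R) * E (G (tt s).2.2.2 k))) = 0 := by
          rcases m with _ | m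
          · simp
          · rw [show 2 * (m + 1) = (2 * m + 1) + 1 by ring, coeff_succ_X_mul, coeff_C_mul,
              coeff_expand_of_not_dvd _ _ _ (by omega), mul_zero]
        rw [e1, add_zero, coeff_C_mul, coeff_expand_mul]
        exact odd_mul _ h3 _ (coeff_ne k _ m h1 hm)
      · have hm : m < 2 ^ k := by rw [pow_succ] at hn; omega
        rw [coeff_succ_X_mul, coeff_C_mul, coeff_C_mul,
          coeff_expand_of_not_dvd _ _ _ (by omega), mul_zero, zero_add, coeff_expand_mul]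
        exact odd_mul _ h4 _ (coeff_ne k _ m h2 hm)

theorem G0 (k : ℕ) : G 0 k = F k := by
  have h := ev_eq _ _ N0
  rw [ev_pow, ev1m] at h
  unfold G
  rw [h, ← mul_pow, mul_comm (1 - X), w_mul, one_pow, one_mul]

/-- The natural-number power series whose coefficients count eleven-coloured binary partitions. -/
theorem not_dvd (k n : ℕ) (hn : n < 2 ^ k) :
    ¬ 32 ∣ coeff n ((∏ i ∈ Finset.range k,
      mk (fun j : ℕ => if 2 ^ i ∣ j then (1 : ℕ) else 0)) ^ 11) := by
  intro hd
  have h := coeff_ne k 0 n (by norm_num) hn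
  rw [G0] at h
  apply h
  have e : F k = map (Nat.castRingHom R) ((∏ i ∈ Finset.range k,
      mk (fun j : ℕ => if 2 ^ i ∣ j then (1 : ℕ) else 0)) ^ 11) := by
    rw [map_pow, map_prod]
    unfold F
    congr 1
    refine Finset.prod_congr rfl fun i _ => ?_
    ext j
    simp [g]
  rw [e, coeff_map]
  exact (ZMod.natCast_eq_zero_iff _ 32).2 hd

theorem val_le (k n : ℕ) (hn : n < 2 ^ k) :
    padicValNat 2 (coeff n ((∏ i ∈ Finset.range k,
      mk (fun j : ℕ => if 2 ^ i ∣ j then (1 : ℕ) else 0)) ^ 11)) ≤ 4 := by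
  by_contra hc
  apply not_dvd k n hn
  have h5 : 2 ^ 5 ∣ 2 ^ padicValNat 2 (coeff n ((∏ i ∈ Finset.range k,
      mk (fun j : ℕ => if 2 ^ i ∣ j then (1 : ℕ) else 0)) ^ 11)) := pow_dvd_pow 2 (by omega)
  exact h5.trans pow_padicValNat_dvd

end Pool.Agent.H17.Bm11
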