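import Mathlib

set_option autoImplicit false

namespace Pool.Agent.H17.CFI

abbrev L := Fin 26
abbrev Z2 := ZMod 2

def tab : List ℕ := [13620735, 13620991, 13621759, 13622015, 13624831, 13625087, 13625855,
  13626111, 803157, 819882, 902195, 968908, 315407, 581872, 14679551, 15728383, 5227775, 9423103,
  33546239, 50327551, 1851392, 2916352, 5095679, 9355519, 17039360, 34078720]

def adjL (a b : L) : Bool := (tab.getD a 0).testBit b

def fl3 (x y z : Z2) (a : L) : L :=
  Fin.ofNat 26 (if a.val < 8 then a.val ^^^ (x.val + 2 * y.val + 4 * z.val)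
    else a.val ^^^ (if (a.val - 8) % 6 / 2 = 0 then x.val else
      if (a.val - 8) % 6 / 2 = 1 then y.val else z.val))

def fl (s : Fin 3 → Z2) (a : L) : L := fl3 (s 0) (s 1) (s 2) a

def ok (T : Z2) (a : L) : Prop := a.val < 8 → ((a.val + a.val / 2 + a.val / 4 : ℕ) : Z2) = T

instance (T : Z2) (a : L) : Decidable (ok T a) := by unfold ok; infer_instance

def xx (i : Fin 3) (b : Z2) : L := Fin.ofNat 26 (8 + 2 * i.val + b.val)
def yy (i : Fin 3) (b : Z2) : L := Fin.ofNat 26 (14 + 2 * i.val + b.val)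
def zz (i : Fin 3) (b : Z2) : L := Fin.ofNat 26 (20 + 2 * i.val + b.val)
def rep (a : L) : L := Fin.ofNat 26 (if a.val < 8 then 0 else a.val - a.val % 2)

theorem adj_refl : ∀ a, adjL a a = true := by decide +kernel
theorem adj_symm : ∀ a b, adjL a b = adjL b a := by decide +kernel
theorem adj_fl3 : ∀ x y z a b, adjL (fl3 x y z a) (fl3 x y z b) = adjL a b := by decide +kernel
theorem fl3_fl3 : ∀ x y z a, fl3 x y z (fl3 x y z a) = a := by decide +kernel
theorem ok_fl3 : ∀ T x y z a, ok (T + (x + y + z)) (fl3 x y z a) ↔ ok T a := by decide +kernel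
theorem rep_fl3 : ∀ x y z a, rep (fl3 x y z a) = rep a := by decide +kernel
theorem fl3_zz : ∀ x y z i b, fl3 x y z (zz i b) = zz i (b + ![x, y, z] i) := by decide +kernel
theorem rep_zz : ∀ a i, rep a = zz i 0 ↔ ∃ b, a = zz i b := by decide +kernel
theorem rep_yy : ∀ a i, rep a = yy i 0 → ∃ b, a = yy i b := by decide +kernel
theorem rep_xx : ∀ a i, rep a = xx i 0 → ∃ b, a = xx i b := by decide +kernel
theorem rep_rep : ∀ a, rep (rep a) = rep a := by decide +kernel
theorem rep0 : ∀ i, rep (xx i 0) = xx i 0 ∧ rep (yy i 0) = yy i 0 ∧ rep (zz i 0) = zz i 0 := by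
  decide +kernel
theorem zz_inj : ∀ i j b c, zz i b = zz j c → i = j ∧ b = c := by decide +kernel
theorem ok_xyz : ∀ T i b, ok T (xx i b) ∧ ok T (yy i b) ∧ ok T (zz i b) := by decide +kernel
theorem adj_yz : ∀ i b c, adjL (yy i b) (zz i c) = true ↔ b = c := by decide +kernel
theorem adj_xy : ∀ i b c, adjL (xx i b) (yy i c) = true ↔ b = c := by decide +kernel
theorem twin : ∀ T a b, ok T a → ok T b → (∀ c, ok T c → adjL a c = adjL b c) → a = b := by
  decide +kernel
theorem ex_mid : ∀ T, ∃ a, ok T a ∧ rep a = 0 := by decide +kernel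
def PQ (x y z : Z2) (a b : L) : Prop := rep a = 0 ∧ rep b = 0 ∧
    adjL a (xx 0 0) = adjL b (xx 0 x) ∧ adjL a (xx 1 0) = adjL b (xx 1 y) ∧
    adjL a (xx 2 0) = adjL b (xx 2 z)

instance (x y z : Z2) (a b : L) : Decidable (PQ x y z a b) := by unfold PQ; infer_instance

theorem parity : ∀ T T' x y z a b, ok T a → ok T' b → PQ x y z a b → T' = T + (x + y + z) := by
  decide +kernel

theorem fl_zz (s : Fin 3 → Z2) (i : Fin 3) (b : Z2) : fl s (zz i b) = zz i (b + s i) := by
  rw [fl, fl3_zz]; congr 2; fin_cases i <;> rfl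

theorem fl_fl (s : Fin 3 → Z2) (a : L) : fl s (fl s a) = a := fl3_fl3 _ _ _ a

def DD : List (ℤ × ℤ × ℤ) := [(237, 359, 999791), (0, 0, 1), (0, 0, 1), (-429, -25, 999790),
  (0, 0, 1), (15, -25, 999769), (280, -482, 999831), (0, 0, 1), (1099928, 0, 100000),
  (-1099654, 0, 100000), (549827, 952328, 100000), (-549942, -952527, 100000),
  (-549920, 952489, 100000), (549849, -952366, 100000), (815, -25, 1000369), (-464, 169, 1000177),
  (238, 611, 999321), (-386, -719, 999168), (-521, 797, 1000549), (2485, -1452, 1002240),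
  (172136, 1086825, 100000), (-172128, 1086770, 100000), (1026214, -393927, 100000),
  (854255, -691762, 100000), (-1027545, -394438, 100000), (-855290, -692600, 100000)]

def cx (a : L) : ℤ := (DD.getD a (0, 0, 1)).1
def cy (a : L) : ℤ := (DD.getD a (0, 0, 1)).2.1
def cr (a : L) : ℤ := (DD.getD a (0, 0, 1)).2.2
def ex (i : Fin 3) : ℤ := ![0, 2010000, -2010000] i
def ey (i : Fin 3) : ℤ := ![2320000, -1160000, -1160000] i

theorem geo_same : ∀ a b, ok 0 a → ok 0 b →
    ((cx a - cx b) ^ 2 + (cy a - cy b) ^ 2 ≤ (cr a + cr b) ^ 2 ↔ adjL a b = true) := by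
  decide +kernel

theorem geo_link : ∀ i a b, ok 0 a → ok 0 b →
    ((cx a + cx b - ex i) ^ 2 + (cy a + cy b - ey i) ^ 2 ≤ (cr a + cr b) ^ 2 ↔
      ∃ c, a = zz i c ∧ b = zz i (c + 1)) := by
  decide +kernel

theorem geo_box : ∀ a, 0 < cr a ∧ cx a + cr a ≤ 1200000 ∧ cr a - cx a ≤ 1200000 ∧
    cy a + cr a ≤ 1200000 ∧ cr a - cy a ≤ 1200000 := by decide +kernel

end Pool.Agent.H17.CFI
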