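import Pool.Agent.H17.CFI1

set_option autoImplicit false

namespace Pool.Agent.H17.CFI

abbrev Gd := Bool × ℕ × ℕ
abbrev Q := Gd × L

def nb (N : ℕ) (g : Gd) (i : Fin 3) : Gd :=
  if i = 0 then (!g.1, g.2.1, g.2.2)
  else if i = 1 then
    (if g.1 = true then (if g.2.1 + 1 < N then (false, g.2.1 + 1, g.2.2) else g)
      else (if 0 < g.2.1 ∧ g.2.1 < N then (true, g.2.1 - 1, g.2.2) else g))
  else
    (if g.1 = true then (if g.2.2 + 1 < N then (false, g.2.1, g.2.2 + 1) else g)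
      else (if 0 < g.2.2 ∧ g.2.2 < N then (true, g.2.1, g.2.2 - 1) else g))

variable {N : ℕ}

theorem nb_nb (g : Gd) (i : Fin 3) : nb N (nb N g i) i = g := by
  obtain ⟨b, a, c⟩ := g
  fin_cases i <;> cases b <;> simp only [nb] <;> split_ifs <;> simp_all <;> omega

def inR (N : ℕ) (g : Gd) : Prop := g.2.1 < N ∧ g.2.2 < N

theorem inR_nb {g : Gd} (h : inR N g) (i : Fin 3) : inR N (nb N g i) := by
  obtain ⟨b, a, c⟩ := g
  unfold inR at *
  fin_cases i <;> cases b <;> simp only [nb] <;> split_ifs <;> simp_all <;> omega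

def R (N : ℕ) (p q : Q) : Prop := (p.1 = q.1 ∧ adjL p.2 q.2 = true) ∨
  (p.1 ≠ q.1 ∧ ∃ i b, nb N p.1 i = q.1 ∧ p.2 = zz i b ∧ q.2 = zz i (b + 1))

theorem z2a : ∀ b : Z2, b + 1 + 1 = b := by decide
theorem z2b : ∀ b : Z2, b + b = 0 := by decide

theorem R_refl (p : Q) : R N p p := Or.inl ⟨rfl, adj_refl _⟩

theorem R_symm {p q : Q} (h : R N p q) : R N q p := by
  rcases h with ⟨h1, h2⟩ | ⟨h1, i, b, h2, h3, h4⟩
  · exact Or.inl ⟨h1.symm, by rw [adj_symm]; exact h2⟩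
  · exact Or.inr ⟨h1.symm, i, b + 1, by rw [← h2, nb_nb], h4, by rw [z2a]; exact h3⟩

theorem R_same (g : Gd) (a b : L) : R N (g, a) (g, b) ↔ adjL a b = true := by simp [R]

def Valid (N : ℕ) (s : Gd → Fin 3 → Z2) : Prop :=
  ∀ g i, s (nb N g i) i = s g i ∧ (nb N g i = g → s g i = 0)

def act (s : Gd → Fin 3 → Z2) (p : Q) : Q := (p.1, fl (s p.1) p.2)

theorem act_act (s : Gd → Fin 3 → Z2) (p : Q) : act s (act s p) = p := by
  simp [act, fl_fl]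

theorem R_act' {s : Gd → Fin 3 → Z2} (hs : Valid N s) {p q : Q} (h : R N p q) :
    R N (act s p) (act s q) := by
  rcases h with ⟨h1, h2⟩ | ⟨h1, i, b, h2, h3, h4⟩
  · refine Or.inl ⟨h1, ?_⟩
    simp only [act, fl, ← h1, adj_fl3, h2]
  · refine Or.inr ⟨h1, i, b + s p.1 i, h2, ?_, ?_⟩
    · simp only [act, h3, fl_zz]
    · simp only [act, h4, fl_zz, ← h2, (hs p.1 i).1]; congr 1; ring

theorem R_act {s : Gd → Fin 3 → Z2} (hs : Valid N s) (p q : Q) :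
    R N (act s p) (act s q) ↔ R N p q :=
  ⟨fun h => by simpa only [act_act] using R_act' hs h, R_act' hs⟩

open Classical in
noncomputable def rc (N : ℕ) (p : Q) : L :=
  if ∃ i, nb N p.1 i = p.1 ∧ rep p.2 = zz i 0 then p.2 else rep p.2

noncomputable def mu (N : ℕ) (p : Q) : ℕ := Encodable.encode (p.1, rc N p) + 1

theorem mu_act {s : Gd → Fin 3 → Z2} (hs : Valid N s) (p : Q) : mu N (act s p) = mu N p := by
  have h : rep (act s p).2 = rep p.2 := rep_fl3 _ _ _ _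
  have h1 : (act s p).1 = p.1 := rfl
  unfold mu rc
  rw [h, h1]
  split_ifs with hc
  · obtain ⟨i, h2, h3⟩ := hc
    obtain ⟨b, hb⟩ := (rep_zz _ _).1 h3
    simp only [act, hb, fl_zz, (hs p.1 i).2 h2, add_zero]
  · rfl

theorem mu_inj {p q : Q} (h : mu N p = mu N q) : p.1 = q.1 ∧ rep p.2 = rep q.2 ∧
    ∀ i, nb N q.1 i = q.1 → q.2 = zz i 0 → p.2 = zz i 0 := by
  have h1 := Encodable.encode_injective (Nat.succ_injective h)
  obtain ⟨h2, h3⟩ := Prod.mk.inj h1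
  have h4 : ∀ p : Q, rep (rc N p) = rep p.2 := by
    intro p; unfold rc; split_ifs
    · rfl
    · exact rep_rep _
  have h5 : rep p.2 = rep q.2 := by rw [← h4, h3, h4]
  refine ⟨h2, h5, fun i h6 h7 => ?_⟩
  have h8 : rep q.2 = zz i 0 := by rw [h7]; exact (rep0 i).2.2
  unfold rc at h3
  rw [if_pos ⟨i, by rw [h2]; exact h6, h5.trans h8⟩, if_pos ⟨i, h6, h8⟩] at h3
  rw [h3, h7]

def A (N : ℕ) (T : Gd → Z2) (p : Q) : Prop := inR N p.1 ∧ ok (T p.1) p.2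

def V (N : ℕ) (T : Gd → Z2) : Type := {w : Q × ℕ // A N T w.1 ∧ w.2 < mu N w.1}

def Gr (N : ℕ) (T : Gd → Z2) : SimpleGraph (V N T) where
  Adj w w' := w ≠ w' ∧ R N w.1.1 w'.1.1
  symm := ⟨fun _ _ h => ⟨h.1.symm, R_symm h.2⟩⟩
  loopless := ⟨fun _ h => h.1 rfl⟩

instance (T : Gd → Z2) : Finite (V N T) := by
  have h1 : {p : Q | inR N p.1}.Finite :=
    ((Set.finite_univ.prod ((Set.finite_lt_nat N).prod (Set.finite_lt_nat N))).prod
      (Set.finite_univ (α := L))).subset fun p hp => ⟨⟨trivial, hp⟩, trivial⟩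
  obtain ⟨B, hB⟩ := (h1.image (mu N)).bddAbove
  exact ((h1.prod (Set.finite_lt_nat B)).subset (t := {w : Q × ℕ | A N T w.1 ∧ w.2 < mu N w.1})
    fun w hw => ⟨hw.1.1, lt_of_lt_of_le hw.2 (hB ⟨_, hw.1.1, rfl⟩)⟩).to_subtype

theorem twinfree {T : Gd → Z2} {p q : Q} (hp : A N T p) (hq : A N T q)
    (h : ∀ z, A N T z → (R N p z ↔ R N q z)) : p = q := by
  rcases (h q hq).2 (R_refl q) with ⟨h1, -⟩ | ⟨h1, i, b, h2, h3, h4⟩
  · obtain ⟨g, a⟩ := p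
    obtain ⟨g', b⟩ := q
    obtain rfl : g = g' := h1
    rw [twin (T g) a b hp.2 hq.2 fun c hc => ?_]
    have := h (g, c) ⟨hp.1, hc⟩
    rw [R_same, R_same] at this
    exact Bool.eq_iff_iff.2 this
  · exfalso
    have h5 : R N p (p.1, yy i b) := Or.inl ⟨rfl, by rw [h3, adj_symm]; exact (adj_yz i b b).2 rfl⟩
    rcases (h (p.1, yy i b) ⟨hp.1, (ok_xyz _ i b).2.1⟩).1 h5 with ⟨h6, -⟩ | ⟨-, j, c, -, -, h7⟩
    · exact h1 h6.symm
    · exact (by decide +kernel : ∀ i b j c, yy i b ≠ zz j (c + 1)) i b j c h7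

def fib {T : Gd → Z2} {p : Q} (hp : A N T p) : {w : V N T // w.1.1 = p} ≃ Fin (mu N p) where
  toFun w := ⟨w.1.1.2, lt_of_lt_of_eq w.1.2.2 (congrArg (mu N) w.2)⟩
  invFun j := ⟨⟨(p, j), hp, j.2⟩, rfl⟩
  left_inv := by rintro ⟨⟨⟨q, j⟩, h⟩, rfl⟩; rfl
  right_inv _ := rfl

theorem blow {T T' : Gd → Z2} (φ : Gr N T ≃g Gr N T') : ∃ e : {p // A N T p} → Q,
    (∀ p, A N T' (e p) ∧ mu N (e p) = mu N p.1) ∧ ∀ p q, R N (e p) (e q) ↔ R N p.1 q.1 := by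
  have c1 : ∀ w w', R N (φ w).1.1 (φ w').1.1 ↔ R N w.1.1 w'.1.1 := by
    intro w w'
    by_cases h : w = w'
    · subst h; exact iff_of_true (R_refl _) (R_refl _)
    · have := φ.map_adj_iff (v := w) (w := w')
      exact ⟨fun h1 => (this.1 ⟨fun h2 => h (φ.injective h2), h1⟩).2, fun h1 => (this.2 ⟨h, h1⟩).2⟩
  have c2 : ∀ w w', w.1.1 = w'.1.1 ↔ (φ w).1.1 = (φ w').1.1 := by
    intro w w'
    constructor <;> intro h
    · refine twinfree (φ w).2.1 (φ w').2.1 fun z hz => ?_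
      obtain ⟨u, hu⟩ := φ.surjective ⟨(z, 0), hz, Nat.succ_pos _⟩
      have : z = (φ u).1.1 := by rw [hu]
      rw [this, c1, c1, h]
    · refine twinfree w.2.1 w'.2.1 fun z hz => ?_
      have := c1 w ⟨(z, 0), hz, Nat.succ_pos _⟩
      have h2 := c1 w' ⟨(z, 0), hz, Nat.succ_pos _⟩
      rw [h] at this
      exact this.symm.trans h2
  refine ⟨fun p => (φ ⟨(p.1, 0), p.2, Nat.succ_pos _⟩).1.1, fun p => ⟨(φ _).2.1, ?_⟩,
    fun p q => c1 _ _⟩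
  have e := φ.toEquiv.subtypeEquiv (p := fun w => w.1.1 = p.1)
    (q := fun w => w.1.1 = (φ ⟨(p.1, 0), p.2, Nat.succ_pos _⟩).1.1)
    fun w => c2 w ⟨(p.1, 0), p.2, Nat.succ_pos _⟩
  exact (Fin.equiv_iff_eq.1 ⟨(fib p.2).symm.trans (e.trans (fib (φ _).2.1))⟩).symm

def dl (g h : Gd) : Z2 := if g = h then 1 else 0

theorem noniso (hN : 0 < N) : IsEmpty (Gr N 0 ≃g Gr N (dl (false, 0, 0))) := by
  refine ⟨fun φ => ?_⟩
  obtain ⟨e, h1, h2⟩ := blow φ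
  have a0 : ∀ {g : Gd} (_ : inR N g) {a : L} (_ : ok 0 a), A N 0 (g, a) := fun h _ h' => ⟨h, h'⟩
  have ee : ∀ p, e p = (p.1.1, (e p).2) := fun p => Prod.ext (mu_inj (h1 p).2).1 rfl
  have rr : ∀ p, rep (e p).2 = rep p.1.2 := fun p => (mu_inj (h1 p).2).2.1
  have ex : ∀ g i, ∃ b, ∀ h : inR N g, e ⟨_, a0 h (ok_xyz 0 i 0).2.2⟩ = (g, zz i b) := by
    intro g i
    by_cases h : inR N g
    · obtain ⟨b, hb⟩ := (rep_zz _ _).1 ((rr ⟨_, a0 h (ok_xyz 0 i 0).2.2⟩).trans (rep0 i).2.2)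
      exact ⟨b, fun _ => by rw [ee, hb]⟩
    · exact ⟨0, fun h' => absurd h' h⟩
  choose s hs using ex
  have hx : ∀ g (h : inR N g) i, e ⟨_, a0 h (ok_xyz 0 i 0).1⟩ = (g, xx i (s g i)) := by
    intro g h i
    obtain ⟨b, hb⟩ := rep_yy _ _ ((rr ⟨_, a0 h (ok_xyz 0 i 0).2.1⟩).trans (rep0 i).2.1)
    obtain ⟨c, hc⟩ := rep_xx _ _ ((rr ⟨_, a0 h (ok_xyz 0 i 0).1⟩).trans (rep0 i).1)
    have k1 := h2 ⟨_, a0 h (ok_xyz 0 i 0).2.1⟩ ⟨_, a0 h (ok_xyz 0 i 0).2.2⟩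
    have k2 := h2 ⟨_, a0 h (ok_xyz 0 i 0).1⟩ ⟨_, a0 h (ok_xyz 0 i 0).2.1⟩
    rw [hs g i h, ee, hb, R_same, R_same, adj_yz, adj_yz] at k1
    rw [ee, ee ⟨_, a0 h (ok_xyz 0 i 0).2.1⟩, hb, hc, R_same, R_same, adj_xy, adj_xy] at k2
    rw [ee, hc, k2.2 rfl, k1.2 rfl]
  have hp : ∀ g, inR N g → dl (false, 0, 0) g = ∑ i, s g i := by
    intro g h
    obtain ⟨a, ha, ha0⟩ := ex_mid 0
    have k : ∀ i, adjL a (xx i 0) = adjL (e ⟨_, a0 h ha⟩).2 (xx i (s g i)) := by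
      intro i
      have := h2 ⟨_, a0 h ha⟩ ⟨_, a0 h (ok_xyz 0 i 0).1⟩
      rw [hx g h, ee, R_same, R_same] at this
      exact (Bool.eq_iff_iff.2 this).symm
    have h3 := (h1 ⟨_, a0 h ha⟩).1.2
    rw [ee] at h3
    rw [Fin.sum_univ_three,
      parity 0 _ _ _ _ a _ ha h3 ⟨ha0, (rr _).trans ha0, k 0, k 1, k 2⟩, zero_add]
  have hd : ∀ g (h : inR N g) i, nb N g i = g → s g i = 0 := by
    intro g h i hg
    have := (mu_inj (h1 ⟨_, a0 h (ok_xyz 0 i 0).2.2⟩).2).2.2 i hg rfl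
    rw [hs g i h] at this
    exact (zz_inj _ _ _ _ this).2
  have hl : ∀ g (h : inR N g) i, s g i + s (nb N g i) i = 0 := by
    intro g h i
    by_cases hg : nb N g i = g
    · rw [hg, z2b]
    · have := h2 ⟨_, a0 h (ok_xyz 0 i 0).2.2⟩ ⟨_, a0 (inR_nb h i) (ok_xyz 0 i 0).2.2⟩
      rw [hs g i h, hs _ i (inR_nb h i)] at this
      by_contra hc
      have h3 : s (nb N g i) i = s g i + 1 := by
        revert hc; generalize s g i = x; generalize s (nb N g i) i = y; revert x y; decide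
      rcases this.1 (Or.inr ⟨fun h => hg h.symm, i, s g i, rfl, rfl, by rw [h3]⟩) with
        ⟨h4, -⟩ | ⟨-, j, c, -, h4, h5⟩
      · exact hg h4.symm
      · have k1 := (zz_inj _ _ _ _ h4).2
        have k2 := (zz_inj _ _ _ _ h5).2
        rw [← k1] at k2
        exact absurd k2 (by decide)
  let F : Finset Gd := Finset.univ ×ˢ Finset.range N ×ˢ Finset.range N
  have hF : ∀ g, g ∈ F ↔ inR N g := fun g => by simp [F, inR]
  have t1 : ∑ g ∈ F, dl (false, 0, 0) g = 1 := by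
    simp only [dl]
    rw [Finset.sum_ite_eq, if_pos ((hF _).2 ⟨hN, hN⟩)]
  have t2 : ∑ g ∈ F, ∑ i, s g i = 0 := by
    rw [Finset.sum_comm]
    refine Finset.sum_eq_zero fun i _ => Finset.sum_involution (fun g _ => nb N g i)
      (fun g hg => hl g ((hF g).1 hg) i) (fun g hg h h' => h (hd g ((hF g).1 hg) i h'))
      (fun g hg => (hF _).2 (inR_nb ((hF g).1 hg) i)) (fun g _ => nb_nb g i)
  rw [Finset.sum_congr rfl fun g hg => hp g ((hF g).1 hg), t2] at t1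
  exact absurd t1 (by decide)

end Pool.Agent.H17.CFI
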