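import Pool.Agent.H17.CFI2

set_option autoImplicit false

namespace Pool.Agent.H17.CFI

variable {N : ℕ}

def bd (s : Gd → Fin 3 → Z2) (h : Gd) : Z2 := s h 0 + s h 1 + s h 2

def Reach (N : ℕ) (S : Set Gd) (g g' : Gd) : Prop :=
  ∃ s, Valid N s ∧ (∀ h ∈ S, s h = 0) ∧ ∀ h, bd s h = dl g h + dl g' h

theorem Valid.add {s t : Gd → Fin 3 → Z2} (hs : Valid N s) (ht : Valid N t) : Valid N (s + t) :=
  fun g i => ⟨by simp [(hs g i).1, (ht g i).1], fun h => by simp [(hs g i).2 h, (ht g i).2 h]⟩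

theorem bd_add (s t : Gd → Fin 3 → Z2) (h : Gd) : bd (s + t) h = bd s h + bd t h := by
  simp only [bd, Pi.add_apply]; ring

theorem Reach.refl (S : Set Gd) (g : Gd) : Reach N S g g :=
  ⟨0, fun _ _ => ⟨rfl, fun _ => rfl⟩, fun _ _ => rfl, fun h => by rw [z2b]; simp [bd]⟩

theorem Reach.symm {S : Set Gd} {g g' : Gd} (h : Reach N S g g') : Reach N S g' g := by
  obtain ⟨s, h1, h2, h3⟩ := h
  exact ⟨s, h1, h2, fun h => by rw [h3, add_comm]⟩

theorem Reach.trans {S : Set Gd} {g g' g'' : Gd} (h : Reach N S g g') (h' : Reach N S g' g'') :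
    Reach N S g g'' := by
  obtain ⟨s, h1, h2, h3⟩ := h
  obtain ⟨t, k1, k2, k3⟩ := h'
  refine ⟨s + t, h1.add k1, fun h hh => by simp [h2 h hh, k2 h hh], fun h => ?_⟩
  rw [bd_add, h3, k3]
  linear_combination z2b (dl g' h)

theorem Reach.step {S : Set Gd} (g : Gd) (i : Fin 3) (h1 : g ∉ S) (h2 : nb N g i ∉ S) :
    Reach N S g (nb N g i) := by
  refine ⟨fun h j => if j = i then dl g h + dl (nb N g i) h else 0, fun h j => ?_, fun h hh => ?_,
    fun h => ?_⟩
  · by_cases hj : j = i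
    · subst hj
      simp only [if_true]
      have e : ∀ a b, dl a (nb N b j) = dl (nb N a j) b := by
        intro a b; unfold dl
        exact if_congr ⟨fun h => by rw [h, nb_nb], fun h => by rw [← h, nb_nb]⟩ rfl rfl
      refine ⟨by rw [e, e, nb_nb, add_comm], fun h3 => ?_⟩
      rw [← e, h3, z2b]
    · simp [hj]
  · funext j
    have a1 : g ≠ h := fun e => h1 (e ▸ hh)
    have a2 : nb N g i ≠ h := fun e => h2 (e ▸ hh)
    simp [dl, a1, a2]
  · fin_cases i <;> simp [bd]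

theorem reach_row {S : Set Gd} {a : ℕ} (ha : ∀ h ∈ S, h.2.1 ≠ a) :
    ∀ c, c < N → Reach N S (false, a, 0) (false, a, c)
  | 0, _ => Reach.refl _ _
  | c + 1, hc => by
      have f : ∀ b c, (b, a, c) ∉ S := fun b c h => ha _ h rfl
      have e1 : nb N (false, a, c) 0 = (true, a, c) := rfl
      have e2 : nb N (true, a, c) 2 = (false, a, c + 1) := by simp [nb, hc]
      have s1 := Reach.step (N := N) (false, a, c) 0 (f _ _) (by rw [e1]; exact f _ _)
      have s2 := Reach.step (N := N) (true, a, c) 2 (f _ _) (by rw [e2]; exact f _ _)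
      rw [e1] at s1; rw [e2] at s2
      exact ((reach_row ha c (by omega)).trans s1).trans s2

theorem reach_col {S : Set Gd} {c : ℕ} (hc : ∀ h ∈ S, h.2.2 ≠ c) :
    ∀ a, a < N → Reach N S (false, 0, c) (false, a, c)
  | 0, _ => Reach.refl _ _
  | a + 1, ha => by
      have f : ∀ b a, (b, a, c) ∉ S := fun b a h => hc _ h rfl
      have e1 : nb N (false, a, c) 0 = (true, a, c) := rfl
      have e2 : nb N (true, a, c) 1 = (false, a + 1, c) := by simp [nb, ha]
      have s1 := Reach.step (N := N) (false, a, c) 0 (f _ _) (by rw [e1]; exact f _ _)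
      have s2 := Reach.step (N := N) (true, a, c) 1 (f _ _) (by rw [e2]; exact f _ _)
      rw [e1] at s1; rw [e2] at s2
      exact ((reach_col hc a (by omega)).trans s1).trans s2

theorem free {k : ℕ} (f : Fin k → ℕ) (x : ℕ) : ∃ a < k + 2, a ≠ x ∧ ∀ i, f i ≠ a := by
  obtain ⟨a, h1, h2⟩ := Finset.exists_mem_notMem_of_card_lt_card
    (s := insert x (Finset.univ.image f)) (t := Finset.range (k + 2)) (by
      have := Finset.card_insert_le x (Finset.univ.image f)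
      have h := Finset.card_image_le (s := Finset.univ) (f := f)
      simp only [Finset.card_univ, Fintype.card_fin, Finset.card_range] at *; omega)
  simp only [Finset.mem_insert, Finset.mem_image, Finset.mem_univ, true_and, not_or,
    not_exists] at h2
  exact ⟨a, Finset.mem_range.1 h1, h2.1, h2.2⟩

def g0 : Gd := (false, 0, 0)

def St (N a : ℕ) (s : Gd → Fin 3 → Z2) : Prop :=
  a < N ∧ Valid N s ∧ ∀ h, bd s h = dl g0 h + dl (false, a, 0) h

theorem move {k : ℕ} (F : Fin k → Gd) (S : Set Gd) (hS : ∀ h ∈ S, ∃ j, F j = h) {a : ℕ}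
    {s : Gd → Fin 3 → Z2} (h : St (k + 2) a s) (ha : ∀ h ∈ S, h.2.1 ≠ a) :
    ∃ f : V (k + 2) 0 ≃ V (k + 2) (dl g0), ∀ w, ∃ a' s', St (k + 2) a' s' ∧
      (∀ h ∈ S, h.2.1 ≠ a' ∧ s' h = s h) ∧ w.1.1.1.2.1 ≠ a' ∧ (f w).1 = (act s' w.1.1, w.1.2) := by
  have key : ∀ g : Gd, ∃ a' s', St (k + 2) a' s' ∧ (∀ h ∈ S, h.2.1 ≠ a' ∧ s' h = s h) ∧
      g.2.1 ≠ a' := by
    intro g
    obtain ⟨c, hc, -, hc2⟩ := free (fun j => (F j).2.2) 0
    obtain ⟨a', h1, h2, h3⟩ := free (fun j => (F j).2.1) g.2.1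
    have fc : ∀ h ∈ S, h.2.2 ≠ c := fun h hh => by obtain ⟨j, rfl⟩ := hS h hh; exact hc2 j
    have fa : ∀ h ∈ S, h.2.1 ≠ a' := fun h hh => by obtain ⟨j, rfl⟩ := hS h hh; exact h3 j
    obtain ⟨t, t1, t2, t3⟩ := (((reach_row ha c hc).trans (reach_col fc a h.1).symm).trans
      (reach_col fc a' h1)).trans (reach_row fa c hc).symm
    refine ⟨a', s + t, ⟨h1, h.2.1.add t1, fun h' => ?_⟩,
      fun h' hh => ⟨fa h' hh, by simp [t2 h' hh]⟩, h2.symm⟩
    rw [bd_add, h.2.2, t3]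
    linear_combination z2b (dl (false, a, 0) h')
  choose a' s' k1 k2 k3 using key
  have hA : ∀ p : Q, A (k + 2) (dl g0) (act (s' p.1) p) ↔ A (k + 2) 0 p := by
    intro p
    have e : dl g0 p.1 = 0 + (s' p.1 p.1 0 + s' p.1 p.1 1 + s' p.1 p.1 2) := by
      have h1 := (k1 p.1).2.2 p.1
      have h2 : dl (false, a' p.1, 0) p.1 = 0 := if_neg fun e => k3 p.1 (congrArg (fun g : Gd => g.2.1) e).symm
      rw [h2, add_zero] at h1
      rw [zero_add, ← h1]; rfl
    refine and_congr Iff.rfl ?_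
    change ok (dl g0 p.1) (fl3 _ _ _ p.2) ↔ _
    rw [e, ok_fl3]; rfl
  have hI : ∀ p : Q, act (s' (act (s' p.1) p).1) (act (s' p.1) p) = p := fun p => act_act _ p
  refine ⟨⟨fun w => ⟨(act (s' w.1.1.1) w.1.1, w.1.2), (hA _).2 w.2.1,
      by rw [mu_act (k1 _).2.1]; exact w.2.2⟩,
    fun w => ⟨(act (s' w.1.1.1) w.1.1, w.1.2), (hA _).1 (by rw [hI]; exact w.2.1),
      by rw [mu_act (k1 _).2.1]; exact w.2.2⟩, fun w => ?_, fun w => ?_⟩, fun w => ?_⟩
  · exact Subtype.ext (Prod.ext (hI _) rfl)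
  · exact Subtype.ext (Prod.ext (hI _) rfl)
  · exact ⟨a' _, s' _, k1 _, k2 _, k3 _, rfl⟩

def Pos (k : ℕ) (α : Fin k → V (k + 2) 0) (β : Fin k → V (k + 2) (dl g0)) : Prop :=
  ∃ a s, St (k + 2) a s ∧ ∀ j, (α j).1.1.1.2.1 ≠ a ∧ (β j).1 = (act s (α j).1.1, (α j).1.2)

theorem pos_iso {k : ℕ} {α β} (h : Pos k α β) (i j : Fin k) :
    (α i = α j ↔ β i = β j) ∧ ((Gr _ _).Adj (α i) (α j) ↔ (Gr _ _).Adj (β i) (β j)) := by
  obtain ⟨a, s, hs, h⟩ := h
  have e : α i = α j ↔ β i = β j := by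
    constructor <;> intro e
    · exact Subtype.ext (by rw [(h i).2, (h j).2, e])
    · have := congrArg Subtype.val e
      rw [(h i).2, (h j).2] at this
      obtain ⟨h1, h2⟩ := Prod.mk.inj this
      exact Subtype.ext (Prod.ext (by rw [← act_act s (α i).1.1, h1, act_act]) h2)
  refine ⟨e, and_congr e.ne ?_⟩
  rw [(h i).2, (h j).2, R_act hs.2.1]

theorem pos_step {k : ℕ} {α β} (h : Pos k α β) (i : Fin k) :
    ∃ f : V (k + 2) 0 ≃ V (k + 2) (dl g0), ∀ w,
      Pos k (Function.update α i w) (Function.update β i (f w)) := by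
  obtain ⟨a, s, hs, h⟩ := h
  obtain ⟨f, hf⟩ := move (fun j => (α j).1.1.1) (Set.range fun j => (α j).1.1.1)
    (fun _ h => h) hs (by rintro _ ⟨j, rfl⟩; exact (h j).1)
  refine ⟨f, fun w => ?_⟩
  obtain ⟨a', s', h1, h2, h3, h4⟩ := hf w
  refine ⟨a', s', h1, fun j => ?_⟩
  by_cases hj : j = i
  · subst hj; simp only [Function.update_self]; exact ⟨h3, h4⟩
  · simp only [Function.update_of_ne hj]
    obtain ⟨k1, k2⟩ := h2 _ ⟨j, rfl⟩
    exact ⟨k1, by rw [(h j).2]; simp only [act, k2]⟩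

theorem pos_init (k : ℕ) : ∃ f : V (k + 2) 0 ≃ V (k + 2) (dl g0), ∀ w,
    Pos k (fun _ => w) (fun _ => f w) := by
  obtain ⟨f, hf⟩ := move (k := k) (fun _ => g0) ∅ (fun _ h => h.elim) (a := 0) (s := 0)
    ⟨by omega, fun _ _ => ⟨rfl, fun _ => rfl⟩, fun h => by
      change _ = dl g0 h + dl g0 h
      rw [z2b]; simp [bd]⟩ (fun _ h => h.elim)
  refine ⟨f, fun w => ?_⟩
  obtain ⟨a', s', h1, -, h3, h4⟩ := hf w
  exact ⟨a', s', h1, fun _ => ⟨h3, h4⟩⟩

def px (p : Q) : ℤ := ((p.1.2.2 : ℤ) - p.1.2.1) * 2010000 + (if p.1.1 = true then -cx p.2 else cx p.2)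
def py (p : Q) : ℤ := ((p.1.2.2 : ℤ) + p.1.2.1) * 3480000 +
  (if p.1.1 = true then 2320000 - cy p.2 else cy p.2)

theorem far {x y r : ℤ} (hr : 0 < r) (h : r < x ∨ x < -r ∨ r < y ∨ y < -r) :
    ¬ x ^ 2 + y ^ 2 ≤ r ^ 2 := by
  intro h'
  rcases h with h | h | h | h <;> nlinarith [sq_nonneg x, sq_nonneg y]

theorem geo_uv {a c a' c' : ℕ} {l l' : L} (h : A N 0 ((false, a, c), l))
    (h' : A N 0 ((true, a', c'), l')) :
    R N ((false, a, c), l) ((true, a', c'), l') ↔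
      (px ((false, a, c), l) - px ((true, a', c'), l')) ^ 2 +
      (py ((false, a, c), l) - py ((true, a', c'), l')) ^ 2 ≤ (cr l + cr l') ^ 2 := by
  obtain ⟨⟨r1, r2⟩, o1⟩ := h
  obtain ⟨⟨r3, r4⟩, o2⟩ := h'
  simp only at r1 r2 r3 r4
  have key : ∀ i, nb N (false, a, c) i = (true, a', c') ↔
      (i = 0 ∧ a = a' ∧ c = c') ∨ (i = 1 ∧ a = a' + 1 ∧ c = c') ∨ (i = 2 ∧ a = a' ∧ c = c' + 1) := by
    intro i
    fin_cases i <;> simp only [nb] <;> split_ifs <;> simp_all <;> omega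
  have lk : ∀ i, nb N (false, a, c) i = (true, a', c') → (R N ((false, a, c), l) ((true, a', c'), l')
      ↔ ∃ b, l = zz i b ∧ l' = zz i (b + 1)) := by
    intro i hi
    constructor
    · rintro (⟨h1, -⟩ | ⟨-, j, b, h2, h3, h4⟩)
      · simp at h1
      · have : j = i := by
          rw [key] at hi h2
          omega
        subst this; exact ⟨b, h3, h4⟩
    · rintro ⟨b, h1, h2⟩
      exact Or.inr ⟨by simp, i, b, hi, h1, h2⟩
  by_cases hl : ∃ i, nb N (false, a, c) i = (true, a', c')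
  · obtain ⟨i, hi⟩ := hl
    rw [lk i hi, ← geo_link i l l' o1 o2]
    rcases (key i).1 hi with ⟨rfl, rfl, rfl⟩ | ⟨rfl, rfl, rfl⟩ | ⟨rfl, rfl, rfl⟩ <;>
      simp only [px, py, ex, ey] <;> simp <;> ring_nf
  · refine iff_of_false ?_ (far ?_ ?_)
    · rintro (⟨h1, -⟩ | ⟨-, j, b, h2, -⟩)
      · simp at h1
      · exact hl ⟨j, h2⟩
    · linarith [(geo_box l).1, (geo_box l').1]
    · have b1 := geo_box l
      have b2 := geo_box l'
      have n0 : ¬ (a = a' ∧ c = c') := fun h => hl ⟨0, (key 0).2 (Or.inl ⟨rfl, h⟩)⟩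
      have n1 : ¬ (a = a' + 1 ∧ c = c') := fun h => hl ⟨1, (key 1).2 (Or.inr (Or.inl ⟨rfl, h⟩))⟩
      have n2 : ¬ (a = a' ∧ c = c' + 1) := fun h => hl ⟨2, (key 2).2 (Or.inr (Or.inr ⟨rfl, h⟩))⟩
      simp only [px, py, if_true, Bool.false_eq_true, if_false]
      have : (a' : ℤ) + c ≥ a + c' + 2 ∨ (a' : ℤ) + c + 2 ≤ a + c' ∨ (a : ℤ) + c ≥ a' + c' + 2 ∨
          (a : ℤ) + c + 1 ≤ a' + c' := by
        clear b1 b2 key lk hl
        by_contra hc
        have h1 : a = a' ∨ a = a' + 1 := by omega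
        have h2 : c = c' ∨ c = c' + 1 := by omega
        omega
      rcases this with h | h | h | h <;> omega

theorem geo {p q : Q} (h : A N 0 p) (h' : A N 0 q) :
    R N p q ↔ (px p - px q) ^ 2 + (py p - py q) ^ 2 ≤ (cr p.2 + cr q.2) ^ 2 := by
  obtain ⟨⟨b, a, c⟩, l⟩ := p
  obtain ⟨⟨b', a', c'⟩, l'⟩ := q
  by_cases hb : b = b'
  · subst hb
    by_cases he : a = a' ∧ c = c'
    · obtain ⟨rfl, rfl⟩ := he
      rw [R_same, ← geo_same l l' h.2 h'.2]
      cases b <;> simp only [px, py] <;> simp <;> ring_nf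
    · refine iff_of_false ?_ (far ?_ ?_)
      · rintro (⟨h1, -⟩ | ⟨h1, j, d, h2, -⟩)
        · simp only [Prod.mk.injEq, true_and] at h1; exact he h1
        · revert h1 h2
          fin_cases j <;> cases b <;> simp only [nb] <;> split_ifs <;> simp_all
      · linarith [(geo_box l).1, (geo_box l').1]
      · have b1 := geo_box l
        have b2 := geo_box l'
        cases b <;> simp only [px, py, if_true, Bool.false_eq_true, if_false] <;> omega
  · cases b <;> cases b'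
    · exact absurd rfl hb
    · exact geo_uv h h'
    · rw [show R N ((true, a, c), l) ((false, a', c'), l') ↔ _ from ⟨R_symm, R_symm⟩, geo_uv h' h]
      constructor <;> intro h <;> linarith
    · exact absurd rfl hb

end Pool.Agent.H17.CFI
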