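import Pool.Agent.H17.CFI3

set_option autoImplicit false

namespace Pool.Agent.H17.CFI

variable {N : ℕ}

theorem core {g1 : Gd} (hg1 : inR N g1) (e : {p // A N 0 p} → Q)
    (h1 : ∀ p, A N (dl g1) (e p) ∧ (e p).1 = p.1.1 ∧ rep (e p).2 = rep p.1.2 ∧
      ∀ i, nb N p.1.1 i = p.1.1 → p.1.2 = zz i 0 → (e p).2 = zz i 0)
    (h2 : ∀ p q, R N (e p) (e q) ↔ R N p.1 q.1) : False := by
  have a0 : ∀ {g : Gd} (_ : inR N g) {a : L} (_ : ok 0 a), A N 0 (g, a) := fun h _ h' => ⟨h, h'⟩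
  have ee : ∀ p, e p = (p.1.1, (e p).2) := fun p => Prod.ext (h1 p).2.1 rfl
  have rr : ∀ p, rep (e p).2 = rep p.1.2 := fun p => (h1 p).2.2.1
  have ex : ∀ g i, ∃ b, ∀ h : inR N g, e ⟨_, a0 h (ok_xyz 0 i 0).2.2⟩ = (g, zz i b) := by
    intro g i
    by_cases h : inR N g
    · obtain ⟨b, hb⟩ := (rep_zz _ _).1 ((rr ⟨_, a0 h (ok_xyz 0 i 0).2.2⟩).trans (rep0 i).2.2)
      exact ⟨b, fun _ => by rw [ee, hb]⟩
    · exact ⟨0, fun h' => absurd h' h⟩
  choose s hs using ex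
  have hx : ∀ g (h : inR N g) i, e ⟨_, a0 h (ok_xyz 0 i 0).1⟩ = (g, xx i (s g i)) := by
    intro g h i
    obtain ⟨b, hb⟩ := rep_yy _ _ ((rr ⟨_, a0 h (ok_xyz 0 i 0).2.1⟩).trans (rep0 i).2.1)
    obtain ⟨c, hc⟩ := rep_xx _ _ ((rr ⟨_, a0 h (ok_xyz 0 i 0).1⟩).trans (rep0 i).1)
    have k1 := h2 ⟨_, a0 h (ok_xyz 0 i 0).2.1⟩ ⟨_, a0 h (ok_xyz 0 i 0).2.2⟩
    have k2 := h2 ⟨_, a0 h (ok_xyz 0 i 0).1⟩ ⟨_, a0 h (ok_xyz 0 i 0).2.1⟩
    rw [hs g i h, ee, hb, R_same, R_same, adj_yz, adj_yz] at k1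
    rw [ee, ee ⟨_, a0 h (ok_xyz 0 i 0).2.1⟩, hb, hc, R_same, R_same, adj_xy, adj_xy] at k2
    rw [ee, hc, k2.2 rfl, k1.2 rfl]
  have hp : ∀ g, inR N g → dl g1 g = ∑ i, s g i := by
    intro g h
    obtain ⟨a, ha, ha0⟩ := ex_mid 0
    have k : ∀ i, adjL a (xx i 0) = adjL (e ⟨_, a0 h ha⟩).2 (xx i (s g i)) := by
      intro i
      have := h2 ⟨_, a0 h ha⟩ ⟨_, a0 h (ok_xyz 0 i 0).1⟩
      rw [hx g h, ee, R_same, R_same] at this
      exact (Bool.eq_iff_iff.2 this).symm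
    have h3 := (h1 ⟨_, a0 h ha⟩).1.2
    rw [ee] at h3
    rw [Fin.sum_univ_three,
      parity 0 _ _ _ _ a _ ha h3 ⟨ha0, (rr _).trans ha0, k 0, k 1, k 2⟩, zero_add]
  have hd : ∀ g (h : inR N g) i, nb N g i = g → s g i = 0 := by
    intro g h i hg
    have := (h1 ⟨_, a0 h (ok_xyz 0 i 0).2.2⟩).2.2.2 i hg rfl
    rw [hs g i h] at this
    exact (zz_inj _ _ _ _ this).2
  have hl : ∀ g (h : inR N g) i, s g i + s (nb N g i) i = 0 := by
    intro g h i
    by_cases hg : nb N g i = g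
    · rw [hg, z2b]
    · have := h2 ⟨_, a0 h (ok_xyz 0 i 0).2.2⟩ ⟨_, a0 (inR_nb h i) (ok_xyz 0 i 0).2.2⟩
      rw [hs g i h, hs _ i (inR_nb h i)] at this
      by_contra hc
      have h3 : s (nb N g i) i = s g i + 1 := by
        revert hc; generalize s g i = x; generalize s (nb N g i) i = y; revert x y; decide
      rcases this.1 (Or.inr ⟨fun h => hg h.symm, i, s g i, rfl, rfl, by rw [h3]⟩) with
        ⟨h4, -⟩ | ⟨-, j, c, -, h4, h5⟩
      · exact hg h4.symm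
      · have k1 := (zz_inj _ _ _ _ h4).2
        have k2 := (zz_inj _ _ _ _ h5).2
        rw [← k1] at k2
        exact absurd k2 (by decide)
  let F : Finset Gd := Finset.univ ×ˢ Finset.range N ×ˢ Finset.range N
  have hF : ∀ g, g ∈ F ↔ inR N g := fun g => by simp [F, inR]
  have t1 : ∑ g ∈ F, dl g1 g = 1 := by
    simp only [dl]
    rw [Finset.sum_ite_eq, if_pos ((hF _).2 hg1)]
  have t2 : ∑ g ∈ F, ∑ i, s g i = 0 := by
    rw [Finset.sum_comm]
    refine Finset.sum_eq_zero fun i _ => Finset.sum_involution (fun g _ => nb N g i)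
      (fun g hg => hl g ((hF g).1 hg) i) (fun g hg h h' => h (hd g ((hF g).1 hg) i h'))
      (fun g hg => (hF _).2 (inR_nb ((hF g).1 hg) i)) (fun g _ => nb_nb g i)
  rw [Finset.sum_congr rfl fun g hg => hp g ((hF g).1 hg), t2] at t1
  exact absurd t1 (by decide)

def jg (c : Z2) : Gd := (false, 0, c.val)

theorem nb_jg (c : Z2) : nb N (jg c) 1 = jg c := by simp [nb, jg]

theorem jg_inj : ∀ c d, jg c = jg d → c = d := by decide

def Val2 (N : ℕ) (s : Gd → Fin 3 → Z2) : Prop :=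
  ∀ g i, s (nb N g i) i = s g i ∧ (nb N g i = g → ¬ (i = 1 ∧ ∃ c, g = jg c) → s g i = 0)

def ej (c : Z2) : Gd → Fin 3 → Z2 := fun g i => if i = 1 then dl (jg c) g else 0

theorem Val2.add {s t : Gd → Fin 3 → Z2} (hs : Val2 N s) (ht : Val2 N t) : Val2 N (s + t) :=
  fun g i => ⟨by simp [(hs g i).1, (ht g i).1],
    fun h h' => by simp [(hs g i).2 h h', (ht g i).2 h h']⟩

theorem Valid.val2 {s : Gd → Fin 3 → Z2} (hs : Valid N s) : Val2 N s :=
  fun g i => ⟨(hs g i).1, fun h _ => (hs g i).2 h⟩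

theorem ej_val (c : Z2) : Val2 N (ej c) := by
  intro g i
  by_cases hi : i = 1
  · subst hi
    refine ⟨?_, fun _ h => ?_⟩
    · simp only [ej, if_true, dl]
      exact if_congr ⟨fun h => by rw [← nb_nb (N := N) g 1, ← h, nb_jg], fun h => by
        rw [← h, nb_jg]⟩ rfl rfl
    · simp only [ej, if_true, dl]
      exact if_neg fun e => h ⟨rfl, c, e.symm⟩
  · simp [ej, hi]

theorem bd_ej (c : Z2) (h : Gd) : bd (ej c) h = dl (jg c) h := by simp [bd, ej]

theorem R_act2 {s : Gd → Fin 3 → Z2} (hs : Val2 N s) (p q : Q) :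
    R N (act s p) (act s q) ↔ R N p q := by
  have key : ∀ p q, R N p q → R N (act s p) (act s q) := by
    rintro p q (⟨h1, h2⟩ | ⟨h1, i, b, h2, h3, h4⟩)
    · refine Or.inl ⟨h1, ?_⟩
      simp only [act, fl, ← h1, adj_fl3, h2]
    · refine Or.inr ⟨h1, i, b + s p.1 i, h2, ?_, ?_⟩
      · simp only [act, h3, fl_zz]
      · simp only [act, h4, fl_zz, ← h2, (hs p.1 i).1]; congr 1; ring
  exact ⟨fun h => by simpa only [act_act] using key _ _ h, key p q⟩

abbrev U := (Bool × Option Q) ⊕ (Bool → Z2 → Z2)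

def RU (N : ℕ) : U → U → Prop
  | .inl (η, some p), .inl (η', some q) => η = η' ∧ R N p q
  | .inl (η, none), .inl (η', some _) => η = η'
  | .inl (η, some _), .inl (η', none) => η = η'
  | .inl (_, none), .inl (_, none) => False
  | .inr x, .inl (η, some p) => ∃ c, p = (jg c, zz 1 (x η c))
  | .inl (η, some p), .inr x => ∃ c, p = (jg c, zz 1 (x η c))
  | .inr _, .inl (_, none) => False
  | .inl (_, none), .inr _ => False
  | .inr _, .inr _ => False

theorem RU_symm : ∀ u v, RU N u v → RU N v u := by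
  rintro (⟨η, _ | p⟩ | x) (⟨η', _ | q⟩ | y) h
  all_goals first | exact h | exact Eq.symm h | exact ⟨h.1.symm, R_symm h.2⟩

def Ph (ε : Bool) (s : Bool → Gd → Fin 3 → Z2) : U → U
  | .inl (η, o) => .inl (xor η ε, o.map (act (s η)))
  | .inr x => .inr fun η c => x (xor η ε) c + s (xor η ε) (jg c) 1

theorem Ph_Ph (ε : Bool) (s : Bool → Gd → Fin 3 → Z2) (u : U) :
    Ph ε (fun η => s (xor η ε)) (Ph ε s u) = u := by
  rcases u with ⟨η, _ | p⟩ | x
  · simp [Ph]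
  · simp [Ph, act_act]
  · simp only [Ph, Bool.xor_assoc, Bool.xor_self, Bool.xor_false, add_assoc, z2b, add_zero]

theorem RU_Ph {ε : Bool} {s : Bool → Gd → Fin 3 → Z2} (hs : ∀ η, Val2 N (s η)) (u v : U) :
    RU N (Ph ε s u) (Ph ε s v) ↔ RU N u v := by
  have j : ∀ (η : Bool) (p : Q) (x : Bool → Z2 → Z2), (∃ c, act (s η) p =
      (jg c, zz 1 (x (xor (xor η ε) ε) c + s (xor (xor η ε) ε) (jg c) 1))) ↔
      ∃ c, p = (jg c, zz 1 (x η c)) := by
    intro η p x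
    refine exists_congr fun c => ?_
    rw [Bool.xor_assoc, Bool.xor_self, Bool.xor_false]
    constructor
    · intro h
      rw [← act_act (s η) p, h]
      simp only [act, fl_zz, add_assoc, z2b, add_zero]
    · rintro rfl; simp only [act, fl_zz]
  rcases u with ⟨η, _ | p⟩ | x <;> rcases v with ⟨η', _ | q⟩ | y
  all_goals first | exact Iff.rfl | exact Bool.xor_left_inj | exact j _ _ _ | skip
  simp only [Ph, RU, Option.map, Bool.xor_left_inj]
  refine and_congr_right fun h => ?_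
  subst h; exact R_act2 (hs η) p q

def mem (N : ℕ) : U → Prop
  | .inl (_, none) => True
  | .inl (_, some p) => A N 0 p
  | .inr x => x false 0 + x false 1 + x true 0 + x true 1 = 1

def key : U → Gd
  | .inl (_, some p) => p.1
  | _ => g0

theorem key_Ph (ε : Bool) (s : Bool → Gd → Fin 3 → Z2) (u : U) : key (Ph ε s u) = key u := by
  rcases u with ⟨η, _ | p⟩ | x <;> rfl

theorem mem_Ph {ε : Bool} {s : Bool → Gd → Fin 3 → Z2} {u : U} (h : mem N u)
    (h1 : ∀ η, bd (s η) (key u) = 0)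
    (h2 : s false (jg 0) 1 + s false (jg 1) 1 + s true (jg 0) 1 + s true (jg 1) 1 = 0) :
    mem N (Ph ε s u) := by
  rcases u with ⟨η, _ | p⟩ | x
  · trivial
  · refine ⟨h.1, ?_⟩
    have := (ok_fl3 0 (s η p.1 0) (s η p.1 1) (s η p.1 2) p.2).2 h.2
    rwa [show s η p.1 0 + s η p.1 1 + s η p.1 2 = 0 from h1 η, add_zero] at this
  · simp only [mem] at h
    cases ε <;> simp only [Ph, mem, Bool.xor_false, Bool.xor_true, Bool.not_false, Bool.not_true] <;>
      linear_combination h + h2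

open Classical in
noncomputable def kap (N : ℕ) : U → Option (Gd × L)
  | .inl (_, some p) => some (p.1, if ∃ i, nb N p.1 i = p.1 ∧ ¬ (i = 1 ∧ ∃ c, p.1 = jg c) ∧
      rep p.2 = zz i 0 then p.2 else rep p.2)
  | _ => none

theorem kap_Ph {ε : Bool} {s : Bool → Gd → Fin 3 → Z2} (hs : ∀ η, Val2 N (s η)) (u : U) :
    kap N (Ph ε s u) = kap N u := by
  rcases u with ⟨η, _ | p⟩ | x
  · rfl
  · have h : rep (act (s η) p).2 = rep p.2 := rep_fl3 _ _ _ _
    have h1 : (act (s η) p).1 = p.1 := rfl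
    simp only [Ph, kap, Option.map, h, h1]
    split_ifs with hc
    · obtain ⟨i, h2, h3, h4⟩ := hc
      obtain ⟨b, hb⟩ := (rep_zz _ _).1 h4
      simp only [act, hb, fl_zz, (hs η p.1 i).2 h2 h3, add_zero]
    · rfl
  · rfl

def W (N : ℕ) : Type := {u : U // mem N u}

instance : Finite (W N) := by
  have h1 : {p : Q | inR N p.1}.Finite :=
    ((Set.finite_univ.prod ((Set.finite_lt_nat N).prod (Set.finite_lt_nat N))).prod
      (Set.finite_univ (α := L))).subset fun p hp => ⟨⟨trivial, hp⟩, trivial⟩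
  have h2 : {u : U | mem N u}.Finite := by
    refine ((((Set.finite_univ (α := Bool)).prod ((h1.image some).insert none)).image Sum.inl).union
      (Set.finite_range Sum.inr)).subset ?_
    rintro (⟨η, _ | p⟩ | x) h
    · exact Or.inl ⟨_, ⟨trivial, Or.inl rfl⟩, rfl⟩
    · exact Or.inl ⟨_, ⟨trivial, Or.inr ⟨p, h.1, rfl⟩⟩, rfl⟩
    · exact Or.inr ⟨x, rfl⟩
  exact h2.to_subtype

def GW (N : ℕ) : SimpleGraph (W N) where
  Adj w w' := w ≠ w' ∧ RU N w.1 w'.1
  symm := ⟨fun _ _ h => ⟨h.1.symm, RU_symm _ _ h.2⟩⟩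
  loopless := ⟨fun _ h => h.1 rfl⟩

def Good (π : GW N ≃g GW N) : Prop := ∀ x, kap N (π x).1 = kap N x.1

def orb (w : W N) : Set (W N) := {w' | ∃ π : GW N ≃g GW N, Good π ∧ π w = w'}

theorem orb_good {π : GW N ≃g GW N} (h : Good π) (w : W N) : orb (π w) = orb w := by
  ext w'
  constructor
  · rintro ⟨ρ, h1, rfl⟩
    exact ⟨π.trans ρ, fun x => (h1 _).trans (h x), rfl⟩
  · rintro ⟨ρ, h1, rfl⟩
    refine ⟨π.symm.trans ρ, fun x => (h1 _).trans ?_, by simp⟩
    have := h (π.symm x)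
    simpa using this.symm

theorem orb_eq {w w' : W N} (h : orb w = orb w') : ∃ π : GW N ≃g GW N, Good π ∧ π w = w' := by
  have : w' ∈ orb w' := ⟨SimpleGraph.Iso.refl, fun _ => rfl, rfl⟩
  rwa [← h] at this

theorem orb_Ph (ε : Bool) (s : Bool → Gd → Fin 3 → Z2) (hs : ∀ η, Val2 N (s η))
    (h1 : ∀ η g, bd (s η) g = 0)
    (h2 : s false (jg 0) 1 + s false (jg 1) 1 + s true (jg 0) 1 + s true (jg 1) 1 = 0)
    (w w' : W N) (h : w'.1 = Ph ε s w.1) : orb w = orb w' := by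
  have h3 : s (xor false ε) (jg 0) 1 + s (xor false ε) (jg 1) 1 + s (xor true ε) (jg 0) 1 +
      s (xor true ε) (jg 1) 1 = 0 := by
    cases ε
    · exact h2
    · simp only [Bool.xor_true, Bool.not_false, Bool.not_true]; linear_combination h2
  let f : W N ≃ W N := ⟨fun w => ⟨Ph ε s w.1, mem_Ph w.2 (fun _ => h1 _ _) h2⟩,
    fun w => ⟨Ph ε (fun η => s (xor η ε)) w.1, mem_Ph w.2 (fun _ => h1 _ _) h3⟩,
    fun w => Subtype.ext (Ph_Ph _ _ _), fun w => Subtype.ext (by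
      have := Ph_Ph ε (fun η => s (xor η ε)) w.1
      simpa using this)⟩
  let π : GW N ≃g GW N := ⟨f, fun {a b} => and_congr f.injective.ne_iff (RU_Ph hs _ _)⟩
  have : w' = π w := Subtype.ext h
  rw [this, orb_good (π := π) (fun x => kap_Ph hs _)]

end Pool.Agent.H17.CFI
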