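import Pool.Agent.H17.CFI4

set_option autoImplicit false

namespace Pool.Agent.H17.CFI

variable {N : ℕ}

def St1 (N a : ℕ) (t : Gd → Fin 3 → Z2) : Prop :=
  a < N ∧ Valid N t ∧ ∀ h, bd t h = dl (jg 1) h + dl (false, a, 0) h

def ph (t : Gd → Fin 3 → Z2) : U → U := Ph true fun _ => t + ej 1

theorem ph_ph (t : Gd → Fin 3 → Z2) (u : U) : ph t (ph t u) = u := Ph_Ph true _ u

theorem dl_jg : ∀ c, dl (jg 1) (jg c) = c := by decide

theorem sj {t : Gd → Fin 3 → Z2} (ht : Valid N t) (c : Z2) : (t + ej 1) (jg c) 1 = c := by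
  simp only [Pi.add_apply, (ht _ _).2 (nb_jg c), ej, if_true, dl_jg, zero_add]

theorem ph_inr {t : Gd → Fin 3 → Z2} (ht : Valid N t) (x : Bool → Z2 → Z2) :
    ph t (.inr x) = .inr fun η c => x (!η) c + c := by
  simp only [ph, Ph, sj ht, Bool.xor_true]

theorem ph_congr {t t' : Gd → Fin 3 → Z2} (ht : Valid N t) (ht' : Valid N t') (u : U)
    (h : t' (key u) = t (key u)) : ph t' u = ph t u := by
  rcases u with ⟨η, _ | p⟩ | x
  · rfl
  · simp only [key] at h
    simp only [ph, Ph, Option.map, act, Pi.add_apply, h]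
  · rw [ph_inr ht, ph_inr ht']

theorem mem_ph {a : ℕ} {t : Gd → Fin 3 → Z2} (h : St1 N a t) {u : U} (hu : mem N u)
    (ha : (key u).2.1 ≠ a) : mem N (ph t u) := by
  refine mem_Ph hu (fun _ => ?_) ?_
  · have h2 : dl (false, a, 0) (key u) = 0 :=
      if_neg fun e => ha (congrArg (fun g : Gd => g.2.1) e).symm
    rw [bd_add, h.2.2, bd_ej, h2, add_zero, z2b]
  · simp only [sj h.2.1]; decide

def x0 : Bool → Z2 → Z2 := fun η c => if η = true then c else 0

def mm (N : ℕ) : W N := ⟨.inr x0, show x0 false 0 + x0 false 1 + x0 true 0 + x0 true 1 = 1 by decide⟩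

def hub (N : ℕ) (η : Bool) : W N := ⟨.inl (η, none), trivial⟩

theorem ph_mm {t : Gd → Fin 3 → Z2} (ht : Valid N t) : ph t (mm N).1 = (mm N).1 := by
  rw [show (mm N).1 = .inr x0 from rfl, ph_inr ht]
  congr 1; decide

theorem orb_ph (hN : 2 ≤ N) {a : ℕ} {t : Gd → Fin 3 → Z2} (h : St1 N a t) (w w' : W N)
    (ha : (key w.1).2.1 ≠ a) (e : w'.1 = ph t w.1) : orb w = orb w' := by
  have cv : ∀ c : Z2, c.val < N := fun c => lt_of_lt_of_le (ZMod.val_lt c) hN
  obtain ⟨u | x, hu⟩ := w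
  · obtain ⟨c, hc⟩ : ∃ c : Z2, (key (.inl u)).2.2 ≠ c.val := by
      by_cases h0 : (key (.inl u)).2.2 = 0
      · exact ⟨1, by rw [h0]; decide⟩
      · exact ⟨0, h0⟩
    obtain ⟨r, r1, r2, r3⟩ := (reach_row (S := {key (.inl u)}) (a := a) (by rintro _ rfl; exact ha)
      c.val (cv c)).trans (reach_col (by rintro _ rfl; exact hc) a h.1).symm
    refine orb_Ph true (fun _ => t + ej 1 + (r + ej c))
      (fun _ => (h.2.1.val2.add (ej_val 1)).add (r1.val2.add (ej_val c))) (fun _ g => ?_) ?_ _ _ ?_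
    · rw [bd_add, bd_add, bd_add, h.2.2, r3, bd_ej, bd_ej]
      change _ + (_ + dl (jg c) g + _) = _
      linear_combination z2b (dl (jg 1) g) + z2b (dl (false, a, 0) g) + z2b (dl (jg c) g)
    · linear_combination z2b ((t + ej 1 + (r + ej c)) (jg 0) 1) +
        z2b ((t + ej 1 + (r + ej c)) (jg 1) 1)
    · rw [e]
      obtain ⟨η, _ | p⟩ := u
      · rfl
      · have k1 : r p.1 = 0 := r2 _ rfl
        have k2 : ej c p.1 = 0 := by
          funext i
          have : dl (jg c) p.1 = 0 := if_neg fun e => hc (congrArg (fun g : Gd => g.2.2) e).symm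
          simp [ej, this]
        simp only [ph, Ph, Option.map, act, Pi.add_apply, k1, k2, add_zero]
  · obtain ⟨r, r1, -, r3⟩ := reach_row (N := N) (S := ∅) (a := 0) (fun _ h => h.elim) 1 (by omega)
    have v : Val2 N (r + ej 1 + ej 0) := (r1.val2.add (ej_val 1)).add (ej_val 0)
    have v1 : ∀ c, (r + ej 1 + ej 0) (jg c) 1 = 1 := by
      intro c
      rw [Pi.add_apply, Pi.add_apply, sj r1]
      revert c; decide
    refine orb_Ph false (fun η => (x η 0 + x (!η) 0) • (r + ej 1 + ej 0)) (fun η g i => ?_)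
      (fun η g => ?_) ?_ _ _ ?_
    · simp only [Pi.smul_apply, (v g i).1, true_and]
      intro h1 h2; rw [(v g i).2 h1 h2, smul_zero]
    · have : bd (r + ej 1 + ej 0) g = 0 := by
        rw [bd_add, bd_add, r3, bd_ej, bd_ej]
        change dl (jg 0) g + dl (jg 1) g + _ + _ = _
        linear_combination z2b (dl (jg 1) g) + z2b (dl (jg 0) g)
      simp only [bd, Pi.smul_apply, smul_eq_mul] at this ⊢
      linear_combination (x η 0 + x (!η) 0) * this
    · simp only [Pi.smul_apply, v1, smul_eq_mul, mul_one]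
      linear_combination z2b (x false 0 + x (!false) 0) + z2b (x true 0 + x (!true) 0)
    · rw [e, ph_inr h.2.1]
      simp only [Ph, Pi.smul_apply, v1, smul_eq_mul, mul_one, Bool.xor_false]
      congr 1
      simp only [mem] at hu
      have key : ∀ a b c d : Z2, a + b + c + d = 1 → (c + 0 = a + (a + c) ∧ d + 1 = b + (a + c)) ∧
          a + 0 = c + (c + a) ∧ b + 1 = d + (c + a) := by decide
      obtain ⟨⟨k1, k2⟩, k3, k4⟩ := key _ _ _ _ hu
      funext η c
      have hc : c = 0 ∨ c = 1 := by revert c; decide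
      rcases hc with rfl | rfl <;> cases η <;> assumption

def E1 (k : ℕ) (α β : Fin k → W (k + 2)) : Prop :=
  ∃ a t, St1 (k + 2) a t ∧ ∀ j, (key (α j).1).2.1 ≠ a ∧ (β j).1 = ph t (α j).1

theorem e1_iso {k : ℕ} {α β} (h : E1 k α β) :
    (∀ i j, (α i = α j ↔ β i = β j) ∧ ((GW _).Adj (α i) (α j) ↔ (GW _).Adj (β i) (β j))) ∧
    ∀ i, (α i = mm _ ↔ β i = mm _) ∧ orb (α i) = orb (β i) := by
  obtain ⟨a, t, hs, h⟩ := h
  have inj : Function.Injective (ph t) := Function.Involutive.injective (ph_ph t)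
  have ext : ∀ a b : W (k + 2), a = b ↔ a.1 = b.1 := fun _ _ => Subtype.ext_iff
  refine ⟨fun i j => ?_, fun i => ⟨?_, orb_ph (by omega) hs _ _ (h i).1 (h i).2⟩⟩
  · have e : α i = α j ↔ β i = β j := by
      rw [ext, ext, (h i).2, (h j).2, inj.eq_iff]
    refine ⟨e, and_congr e.ne ?_⟩
    rw [(h i).2, (h j).2]
    exact (RU_Ph (fun _ => hs.2.1.val2.add (ej_val 1)) _ _).symm
  · rw [ext, ext, (h i).2]
    nth_rw 2 [← ph_mm hs.2.1]
    rw [inj.eq_iff]

theorem e1_step {k : ℕ} {α β} (h : E1 k α β) : ∃ f : W (k + 2) ≃ W (k + 2), ∀ x i,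
    E1 k (Function.update α i x) (Function.update β i (f x)) := by
  obtain ⟨a, t, hs, h⟩ := h
  have key1 : ∀ g : Gd, ∃ a' t', St1 (k + 2) a' t' ∧
      (∀ j, (key (α j).1).2.1 ≠ a' ∧ t' (key (α j).1) = t (key (α j).1)) ∧ g.2.1 ≠ a' := by
    intro g
    obtain ⟨c, hc, -, hc2⟩ := free (fun j => (key (α j).1).2.2) 0
    obtain ⟨a', h1, h2, h3⟩ := free (fun j => (key (α j).1).2.1) g.2.1
    let S : Set Gd := Set.range fun j => key (α j).1
    have fc : ∀ h ∈ S, h.2.2 ≠ c := by rintro _ ⟨j, rfl⟩; exact hc2 j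
    have fa : ∀ h ∈ S, h.2.1 ≠ a' := by rintro _ ⟨j, rfl⟩; exact h3 j
    have ha : ∀ h ∈ S, h.2.1 ≠ a := by rintro _ ⟨j, rfl⟩; exact (h j).1
    obtain ⟨r, t1, t2, t3⟩ := (((reach_row ha c hc).trans (reach_col fc a hs.1).symm).trans
      (reach_col fc a' h1)).trans (reach_row fa c hc).symm
    refine ⟨a', t + r, ⟨h1, hs.2.1.add t1, fun h' => ?_⟩,
      fun j => ⟨h3 j, by simp [t2 _ ⟨j, rfl⟩]⟩, h2.symm⟩
    rw [bd_add, hs.2.2, t3]
    linear_combination z2b (dl (false, a, 0) h')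
  choose a' t' k1 k2 k3 using key1
  have hI : ∀ u : U, ph (t' (key (ph (t' (key u)) u))) (ph (t' (key u)) u) = u := by
    intro u; rw [show key (ph (t' (key u)) u) = key u from key_Ph _ _ _, ph_ph]
  let F : W (k + 2) → W (k + 2) := fun w => ⟨ph (t' (key w.1)) w.1, mem_ph (k1 _) w.2 (k3 _)⟩
  refine ⟨Function.Involutive.toPerm F fun w => Subtype.ext (hI _), fun x i => ?_⟩
  refine ⟨a' (key x.1), t' (key x.1), k1 _, fun j => ?_⟩
  by_cases hj : j = i
  · subst hj; simp only [Function.update_self]; exact ⟨k3 _, rfl⟩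
  · simp only [Function.update_of_ne hj]
    exact ⟨(k2 _ j).1, by rw [(h j).2, ph_congr hs.2.1 (k1 _).2.1 _ (k2 _ j).2]⟩

theorem e1_init (k : ℕ) : E1 k (fun _ => hub _ false) (fun _ => hub _ true) := by
  obtain ⟨r, r1, -, r3⟩ := (reach_row (N := k + 2) (S := ∅) (a := 0) (fun _ h => h.elim) 1
    (by omega)).symm.trans (reach_col (c := 0) (fun _ h => h.elim) 1 (by omega))
  exact ⟨1, r, ⟨by omega, r1, r3⟩, fun _ => ⟨show (0 : ℕ) ≠ 1 by decide, rfl⟩⟩

theorem no_aut (hN : 2 ≤ N) (π : GW N ≃g GW N) (h1 : ∀ x, orb (π x) = orb x) (h2 : π (mm N) = mm N) :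
    π (hub N false) ≠ hub N true := by
  intro h3
  have hk : Good π := fun x => by
    obtain ⟨ρ, k1, k2⟩ := orb_eq (h1 x)
    rw [← k1 (π x), k2]
  have ex : ∀ p : {p // A N 0 p}, ∃ q, (π ⟨.inl (false, some p.1), p.2⟩).1 = .inl (true, some q) := by
    intro p
    have : (GW N).Adj (hub N false) ⟨.inl (false, some p.1), p.2⟩ :=
      ⟨fun h => by simpa [hub] using congrArg Subtype.val h, rfl⟩
    rw [← π.map_adj_iff, h3] at this
    obtain ⟨-, h⟩ := this
    generalize (π ⟨.inl (false, some p.1), p.2⟩).1 = u at h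
    rcases u with ⟨η, _ | q⟩ | x
    · exact h.elim
    · obtain rfl : true = η := h
      exact ⟨q, rfl⟩
    · exact h.elim
  choose e he using ex
  have hA : ∀ p, A N 0 (e p) := fun p => by
    have := (π ⟨.inl (false, some p.1), p.2⟩).2
    rwa [he] at this
  have hc : ∀ p, (e p).1 = p.1.1 ∧ rep (e p).2 = rep p.1.2 ∧ ∀ i, nb N p.1.1 i = p.1.1 →
      ¬ (i = 1 ∧ ∃ c, p.1.1 = jg c) → p.1.2 = zz i 0 → (e p).2 = zz i 0 := by
    intro p
    have := hk ⟨.inl (false, some p.1), p.2⟩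
    rw [he] at this
    simp only [kap, Option.some.injEq, Prod.mk.injEq] at this
    obtain ⟨k1, k2⟩ := this
    have k3 : rep (e p).2 = rep p.1.2 := by
      have := congrArg rep k2
      split_ifs at this <;> simpa only [rep_rep] using this
    refine ⟨k1, k3, fun i a1 a2 a3 => ?_⟩
    have a4 : rep p.1.2 = zz i 0 := by rw [a3]; exact (rep0 i).2.2
    rw [if_pos ⟨i, by rw [k1]; exact a1, by rw [k1]; exact a2, k3.trans a4⟩,
      if_pos ⟨i, a1, a2, a4⟩] at k2
    rw [k2, a3]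
  refine core (g1 := jg 1) ⟨by change 0 < N; omega, by change 1 < N; omega⟩
    (fun p => act (ej 1) (e p)) (fun p => ⟨⟨(hA p).1, ?_⟩, (hc p).1,
      (rep_fl3 _ _ _ _).trans (hc p).2.1, fun i a1 a3 => ?_⟩) fun p q => ?_
  · have := (ok_fl3 0 (ej 1 (e p).1 0) (ej 1 (e p).1 1) (ej 1 (e p).1 2) _).2 (hA p).2
    rwa [show ej 1 (e p).1 0 + ej 1 (e p).1 1 + ej 1 (e p).1 2 = _ from bd_ej 1 _, zero_add] at this
  · by_cases a2 : i = 1 ∧ ∃ c, p.1.1 = jg c
    · obtain ⟨rfl, c, a2⟩ := a2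
      have b1 : (GW N).Adj (mm N) ⟨.inl (false, some p.1), p.2⟩ :=
        ⟨fun h => by simpa [mm] using congrArg Subtype.val h, c, Prod.ext a2 a3⟩
      rw [← π.map_adj_iff, h2] at b1
      obtain ⟨-, b2⟩ := b1
      rw [he] at b2
      obtain ⟨d, b3⟩ := b2
      simp only [act, b3, fl_zz, ej, if_true, dl_jg, x0, z2b]
    · have b1 : ej 1 p.1.1 i = 0 := (ej_val 1 _ i).2 a1 a2
      simp only [act, (hc p).2.2 i a1 a2 a3, fl_zz, (hc p).1, b1, add_zero]
  · rw [R_act2 (ej_val 1)]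
    by_cases hpq : p = q
    · subst hpq; exact iff_of_true (R_refl _) (R_refl _)
    · have n1 : (⟨.inl (false, some p.1), p.2⟩ : W N) ≠ ⟨.inl (false, some q.1), q.2⟩ :=
        fun h => hpq (Subtype.ext (by simpa using congrArg Subtype.val h))
      have := π.map_adj_iff (v := ⟨.inl (false, some p.1), p.2⟩) (w := ⟨.inl (false, some q.1), q.2⟩)
      constructor
      · intro h
        exact (this.1 ⟨π.injective.ne n1, by rw [he, he]; exact ⟨rfl, h⟩⟩).2.2
      · intro h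
        have b := (this.2 ⟨n1, rfl, h⟩).2
        rw [he, he] at b
        exact b.2

end Pool.Agent.H17.CFI
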