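import Mathlib

set_option autoImplicit false

namespace Pool.Agent.H17.Conv8

def s (n : ℕ) : ℕ := (Nat.digits 2 n).sum

theorem s_rec {n : ℕ} (h : 0 < n) : s n = n % 2 + s (n / 2) := by
  rw [s, Nat.digits_def' (by norm_num) h]; simp [s]

theorem s_two (n : ℕ) : s (2 * n) = s n := by
  rcases Nat.eq_zero_or_pos n with rfl | h
  · rfl
  · rw [s_rec (by omega)]; simp

theorem s_pos : ∀ n, 0 < n → 0 < s n := by
  intro n
  induction n using Nat.strong_induction_on with
  | _ n ih =>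
    intro h
    rw [s_rec h]
    by_cases h2 : n % 2 = 1
    · omega
    · have := ih (n / 2) (by omega) (by omega); omega

theorem s_one : ∀ n, s n = 1 → ∃ j, n = 2 ^ j := by
  intro n
  induction n using Nat.strong_induction_on with
  | _ n ih =>
    intro h
    have h0 : 0 < n := by
      rcases Nat.eq_zero_or_pos n with rfl | h0
      · simp [s] at h
      · exact h0
    rw [s_rec h0] at h
    by_cases h2 : n % 2 = 1
    · by_cases h3 : n / 2 = 0
      · exact ⟨0, by omega⟩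
      · have := s_pos (n / 2) (by omega); omega
    · obtain ⟨j, hj⟩ := ih (n / 2) (by omega) (by omega)
      exact ⟨j + 1, by rw [pow_succ]; omega⟩

theorem s_pow (c : ℕ) : ∀ j, s (c * 2 ^ j) = s c
  | 0 => by simp
  | j + 1 => by rw [show c * 2 ^ (j + 1) = 2 * (c * 2 ^ j) by ring, s_two, s_pow c j]

theorem fac (n : ℕ) : padicValNat 2 n.factorial + s n = n := by
  have h := sub_one_mul_padicValNat_factorial (p := 2) n
  have h2 : (Nat.digits 2 n).sum ≤ n := Nat.digit_sum_le 2 n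
  simp only [s]; omega

theorem ch (a b : ℕ) : padicValNat 2 ((a + b).choose a) + s (a + b) = s a + s b := by
  have h := congrArg (padicValNat 2) (Nat.add_choose_mul_factorial_mul_factorial b a)
  rw [add_comm b a, padicValNat.mul (mul_ne_zero (Nat.choose_pos (by omega)).ne'
    (Nat.factorial_ne_zero _)) (Nat.factorial_ne_zero _),
    padicValNat.mul (Nat.choose_pos (by omega)).ne' (Nat.factorial_ne_zero _)] at h
  have := fac a; have := fac b; have := fac (a + b)
  omega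

def t (k : ℕ) : ℕ := (6 * k).choose (3 * k) * (3 * k).choose k

theorem t_pos (k : ℕ) : t k ≠ 0 :=
  mul_ne_zero (Nat.choose_pos (by omega)).ne' (Nat.choose_pos (by omega)).ne'

theorem t_val (k : ℕ) : padicValNat 2 (t k) = 2 * s k := by
  have h1 := ch (3 * k) (3 * k)
  have h2 := ch k (2 * k)
  rw [show 3 * k + 3 * k = 2 * (3 * k) by ring, s_two, show 2 * (3 * k) = 6 * k by ring] at h1
  rw [show k + 2 * k = 3 * k by ring, s_two] at h2
  rw [t, padicValNat.mul (Nat.choose_pos (by omega)).ne' (Nat.choose_pos (by omega)).ne']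
  omega

theorem odd_form {m : ℕ} (hm : m ≠ 0) : ∃ y : ℕ, m = 2 ^ padicValNat 2 m * (2 * y + 1) := by
  obtain ⟨u, hu⟩ : 2 ^ padicValNat 2 m ∣ m := pow_padicValNat_dvd
  have : u % 2 = 1 := by
    by_contra hc
    obtain ⟨j, rfl⟩ : ∃ j, u = 2 * j := ⟨u / 2, by omega⟩
    exact pow_succ_padicValNat_not_dvd hm ⟨j, by rw [pow_succ, mul_assoc]; exact hu⟩
  exact ⟨u / 2, by rw [show 2 * (u / 2) + 1 = u by omega]; exact hu⟩

def D (n k : ℕ) : ℤ := (t k * t (n - k) : ℕ) - 2 ^ (2 * s n) * (n.choose k : ℤ) ^ 2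

theorem D_form (n k : ℕ) (hk : k ≤ n) :
    ∃ z : ℤ, D n k = 2 ^ (2 * s n + 1) * (4 ^ padicValNat 2 (n.choose k) * z) := by
  obtain ⟨m, rfl⟩ := Nat.exists_eq_add_of_le hk
  obtain ⟨a, ha⟩ := odd_form (t_pos k)
  obtain ⟨b, hb⟩ := odd_form (t_pos m)
  obtain ⟨c, hc⟩ := odd_form (Nat.choose_pos hk).ne'
  have h := ch k m
  rw [t_val] at ha hb
  generalize padicValNat 2 ((k + m).choose k) = e at *
  refine ⟨2 * a * b + a + b - 2 * c ^ 2 - 2 * c, ?_⟩
  rw [D, Nat.add_sub_cancel_left, ha, hb, hc]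
  have e1 : (2 : ℤ) ^ (2 * s k) * 2 ^ (2 * s m) = 2 ^ (2 * s (k + m)) * 4 ^ e := by
    rw [← pow_add, show (4 : ℤ) = 2 ^ 2 by norm_num, ← pow_mul, ← pow_add]; congr 1; omega
  have e2 : ((2 : ℤ) ^ e) ^ 2 = 4 ^ e := by rw [← pow_mul, mul_comm, pow_mul]; norm_num
  push_cast
  linear_combination ((2 * a + 1) * (2 * b + 1)) * e1 - (2 ^ (2 * s (k + m)) * (2 * c + 1) ^ 2) * e2

theorem D_sum (n : ℕ) (hn : 0 < n) :
    (2 : ℤ) ^ (2 * s n + 2) ∣ ∑ k ∈ Finset.range (n + 1), D n k := by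
  have hd : ∀ k ∈ Finset.range (n + 1), D n k = 2 ^ (2 * s n + 1) * (D n k / 2 ^ (2 * s n + 1)) := by
    intro k hk
    obtain ⟨z, hz⟩ := D_form n k (by simpa [Nat.lt_succ_iff] using hk)
    rw [hz, Int.mul_ediv_cancel_left _ (by positivity)]
  rw [Finset.sum_congr rfl hd, ← Finset.mul_sum, pow_succ 2 (2 * s n + 1)]
  refine mul_dvd_mul_left _ ?_
  have : ((∑ k ∈ Finset.range (n + 1), D n k / 2 ^ (2 * s n + 1) : ℤ) : ZMod 2) = 0 := by
    push_cast
    refine Finset.sum_involution (fun k _ => n - k) (fun k hk => ?_) (fun k hk hne h => hne ?_)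
      (fun k _ => by simp) (fun k hk => by simp at hk; omega)
    · have hk' : k ≤ n := by simpa [Nat.lt_succ_iff] using hk
      have : D n (n - k) = D n k := by
        rw [D, D, Nat.sub_sub_self hk', Nat.choose_symm hk', mul_comm (t k)]
      rw [this]; exact CharTwo.add_self_eq_zero _
    · have hk' : k ≤ n := by simpa [Nat.lt_succ_iff] using hk
      obtain rfl : n = k + k := by omega
      obtain ⟨z, hz⟩ := D_form (k + k) k hk'
      have h1 := ch k k
      rw [← two_mul, s_two] at h1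
      have h2 := s_pos k (by omega)
      rw [← two_mul] at hz ⊢
      obtain ⟨e, he⟩ : ∃ e, padicValNat 2 ((2 * k).choose k) = e + 1 := ⟨_, (Nat.sub_add_cancel
        (by omega : 1 ≤ padicValNat 2 ((2 * k).choose k))).symm⟩
      rw [hz, Int.mul_ediv_cancel_left _ (by positivity), he,
        ZMod.intCast_zmod_eq_zero_iff_dvd]
      exact ⟨4 ^ e * 2 * z, by push_cast; ring⟩
  exact (ZMod.intCast_zmod_eq_zero_iff_dvd _ 2).1 this

def S (n : ℕ) : ℕ := ∑ k ∈ Finset.range (n + 1), t k * t (n - k)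

theorem S_eq (n : ℕ) : (S n : ℤ) =
    ∑ k ∈ Finset.range (n + 1), D n k + 2 ^ (2 * s n) * ((2 * n).choose n : ℕ) := by
  rw [← Nat.sum_range_choose_sq]
  simp only [S, D]
  push_cast
  rw [Finset.mul_sum, ← Finset.sum_add_distrib]
  exact Finset.sum_congr rfl fun k _ => by ring

theorem S_pos (n : ℕ) : S n ≠ 0 := by
  refine (Finset.sum_pos (fun k _ => Nat.pos_of_ne_zero (mul_ne_zero (t_pos _) (t_pos _)))
    ⟨0, by simp⟩).ne'

theorem S_val (n : ℕ) (hn : 0 < n) : (s n = 1 → padicValNat 2 (S n) = 3) ∧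
    (s n ≠ 1 → 2 * s n + 2 ≤ padicValNat 2 (S n)) := by
  obtain ⟨z, hz⟩ := D_sum n hn
  have h := S_eq n
  have h1 := ch n n
  rw [← two_mul, s_two] at h1
  obtain ⟨c, hc⟩ := odd_form (Nat.choose_pos (by omega : n ≤ 2 * n)).ne'
  rw [show padicValNat 2 ((2 * n).choose n) = s n by omega] at hc
  rw [hz, hc] at h
  have hp := s_pos n hn
  constructor
  · intro h2
    rw [h2] at h
    push_cast at h
    have a : 3 ≤ padicValNat 2 (S n) := (padicValNat_dvd_iff_le (S_pos n)).1 (by omega)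
    have b : ¬ 4 ≤ padicValNat 2 (S n) := fun b => by
      have := (padicValNat_dvd_iff_le (S_pos n)).2 b; omega
    omega
  · intro h2
    refine (padicValNat_dvd_iff_le (S_pos n)).1 ?_
    obtain ⟨e, he⟩ : ∃ e, s n = e + 2 := ⟨s n - 2, by omega⟩
    rw [← Int.natCast_dvd_natCast, h, he]
    exact ⟨z + 2 ^ e * (2 * c + 1), by push_cast; ring⟩

end Pool.Agent.H17.Conv8
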