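import Mathlib

set_option autoImplicit false
open Finset

namespace Pool.Agent.H17.CoprimeMax

lemma many_primes (y : ℕ) (hy : 200 ^ 8 ≤ y) (s : ℕ) (hs : s ^ 4 ≤ (y + 1) ^ 3) :
    s < ((Ioc (y / 4) y).filter Nat.Prime).card := by
  by_contra hc
  push Not at hc
  obtain ⟨c, hcdef⟩ : ∃ c, c = ((Ioc (y / 4) y).filter Nat.Prime).card := ⟨_, rfl⟩
  have hy1 : (200:ℝ) ^ 8 ≤ y := by exact_mod_cast hy
  have hy0 : (1:ℝ) ≤ y := by linarith
  have h1 : Chebyshev.theta y ≤ Chebyshev.theta ((y / 4 : ℕ) : ℝ) + c * Real.log y := by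
    unfold Chebyshev.theta
    simp only [Nat.floor_natCast]
    rw [← Finset.Ioc_union_Ioc_eq_Ioc (Nat.zero_le (y / 4)) (Nat.div_le_self y 4), Finset.filter_union,
      Finset.sum_union (Finset.disjoint_filter_filter (Finset.Ioc_disjoint_Ioc_of_le le_rfl))]
    gcongr
    rw [hcdef, ← nsmul_eq_mul]
    apply Finset.sum_le_card_nsmul
    intro p hp
    obtain ⟨hp1, hp2⟩ := Finset.mem_filter.1 hp
    exact Real.log_le_log (by exact_mod_cast hp2.pos) (by exact_mod_cast (Finset.mem_Ioc.1 hp1).2)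
  have h2 := Chebyshev.theta_ge y
  have h3 := Chebyshev.theta_le_log4_mul_x (x := ((y / 4 : ℕ) : ℝ)) (by positivity)
  have h4 : ((y / 4 : ℕ) : ℝ) ≤ y / 4 := Nat.cast_div_le
  have h5 : Real.log 4 = 2 * Real.log 2 := by
    rw [show (4:ℝ) = 2 ^ 2 by norm_num, Real.log_pow]; norm_num
  have h6 := Real.log_two_gt_d9
  have h6' := Real.log_two_lt_d9
  obtain ⟨t, ht0, ht⟩ : ∃ t : ℝ, 0 ≤ t ∧ t ^ 8 = y :=
    ⟨(y:ℝ) ^ ((8:ℕ):ℝ)⁻¹, by positivity, Real.rpow_inv_natCast_pow (by positivity) (by norm_num)⟩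
  have ht1 : 200 ≤ t := by
    by_contra h
    push Not at h
    have := pow_lt_pow_left₀ h ht0 (n := 8) (by norm_num)
    linarith
  have l1 : Real.log y ≤ 8 * t := by
    rw [← ht, Real.log_pow]
    have := Real.log_le_sub_one_of_pos (x := t) (by linarith)
    push_cast; linarith
  have l0 : 0 ≤ Real.log y := Real.log_nonneg hy0
  have l2 : Real.log ((y:ℝ) + 1) ≤ 8 * t + 1 := by
    have : Real.log ((y:ℝ) + 1) ≤ Real.log (2 * y) := Real.log_le_log (by linarith) (by linarith)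
    rw [Real.log_mul (by norm_num) (by linarith)] at this
    linarith
  have l3 : √(y:ℝ) = t ^ 4 := by
    rw [← ht, show t ^ 8 = (t ^ 4) ^ 2 by ring, Real.sqrt_sq (by positivity)]
  have l4 : (c:ℝ) ≤ 2 * t ^ 6 := by
    have a1 : (c:ℝ) ≤ s := by rw [hcdef]; exact_mod_cast hc
    have a2 : (s:ℝ) ^ 4 ≤ ((y:ℝ) + 1) ^ 3 := by exact_mod_cast hs
    have a3 : ((y:ℝ) + 1) ^ 3 ≤ (2 * y) ^ 3 := by gcongr; linarith
    have a4 : (2 * (y:ℝ)) ^ 3 ≤ (2 * t ^ 6) ^ 4 := by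
      rw [← ht]
      have : 0 ≤ t ^ 24 := by positivity
      nlinarith
    have a5 : (s:ℝ) ≤ 2 * t ^ 6 :=
      le_of_pow_le_pow_left₀ (n := 4) (by norm_num) (by positivity) (by linarith)
    linarith
  rw [l3] at h2
  have m1 : (c:ℝ) * Real.log y ≤ 2 * t ^ 6 * (8 * t) := by gcongr
  have m2 : 2 * t ^ 4 * Real.log y ≤ 2 * t ^ 4 * (8 * t) := by gcongr
  have m3 : Real.log 4 * ((y / 4 : ℕ) : ℝ) ≤ Real.log 4 * (y / 4) := by
    apply mul_le_mul_of_nonneg_left h4; linarith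
  rw [h5] at m3 h3
  have m4 : (y:ℝ) * 0.34 ≤ y * Real.log 2 / 2 := by nlinarith
  have m5 : t ^ 8 * 0.34 ≤ 16 * t ^ 7 + 16 * t ^ 5 + 8 * t + 1 := by
    rw [ht]; nlinarith
  have p1 : t ^ 5 ≤ t ^ 7 := pow_le_pow_right₀ (by linarith) (by norm_num)
  have p2 : t ^ 1 ≤ t ^ 7 := pow_le_pow_right₀ (by linarith) (by norm_num)
  have p3 : 200 * t ^ 7 ≤ t ^ 8 := by
    have : 0 ≤ t ^ 7 := by positivity
    nlinarith
  nlinarith

def Adm (n : ℕ) (S : Finset ℕ) : Prop :=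
  (∀ a ∈ S, 1 ≤ a ∧ a ≤ n) ∧ ∀ a ∈ S, ∀ b ∈ S, a ≠ b → Nat.Coprime a b

lemma step (n : ℕ) (hn : 200 ^ 24 ≤ n) (S : Finset ℕ) (hS : Adm n S) (p : ℕ) (hp : p.Prime)
    (hp3 : p ^ 3 ≤ n) (hpS : ∀ a ∈ S, ¬ p ∣ a) :
    ∃ S' : Finset ℕ, Adm n S' ∧ n + 1 + 8 * ∑ a ∈ S, a ≤ 8 * ∑ a ∈ S', a ∧
      ∀ r, r.Prime → r ^ 3 ≤ n → r ≠ p → (∀ a ∈ S, ¬ r ∣ a) → ∀ a ∈ S', ¬ r ∣ a := by
  obtain ⟨y, hy⟩ : ∃ y, y = n / p := ⟨_, rfl⟩
  have y1 : p * y ≤ n := by rw [hy]; exact Nat.mul_div_le n p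
  have y2 : n < p * (y + 1) := by rw [hy]; exact Nat.lt_mul_div_succ n hp.pos
  have n0 : 0 < n := lt_of_lt_of_le (by positivity) hn
  have y3 : n ^ 2 < (y + 1) ^ 3 := by
    have a1 : n ^ 3 < (p * (y + 1)) ^ 3 := Nat.pow_lt_pow_left y2 (by norm_num)
    have a2 : (p * (y + 1)) ^ 3 ≤ n * (y + 1) ^ 3 := by
      rw [mul_pow]; exact Nat.mul_le_mul_right _ hp3
    have a3 : n * n ^ 2 < n * (y + 1) ^ 3 := by nlinarith
    exact Nat.lt_of_mul_lt_mul_left a3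
  have y4 : 200 ^ 8 ≤ y := by
    by_contra h
    have a1 : (y + 1) ^ 3 ≤ (200 ^ 8) ^ 3 := Nat.pow_le_pow_left (by omega) 3
    have a2 : n ≤ n ^ 2 := by nlinarith
    omega
  have hm := many_primes y y4 (Nat.sqrt n) (by
    have a1 := Nat.sqrt_le' n
    have a2 : (Nat.sqrt n ^ 2) ^ 2 ≤ n ^ 2 := Nat.pow_le_pow_left a1 2
    rw [← pow_mul] at a2
    exact a2.trans y3.le)
  have big : ∀ q, y / 4 < q → n < q ^ 2 := by
    intro q hq
    by_contra h
    push Not at h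
    have a1 : y + 1 ≤ 4 * q := by omega
    have a2 : (y + 1) ^ 3 ≤ (4 * q) ^ 3 := Nat.pow_le_pow_left a1 3
    have a3 : (n ^ 2) ^ 2 < ((4 * q) ^ 3) ^ 2 := Nat.pow_lt_pow_left (by omega) (by norm_num)
    have a4 : (q ^ 2) ^ 3 ≤ n ^ 3 := Nat.pow_le_pow_left h 3
    have a5 : 4096 * n ^ 3 ≤ n * n ^ 3 := Nat.mul_le_mul_right _ (by omega)
    nlinarith
  obtain ⟨q, hq, hfree⟩ : ∃ q ∈ (Ioc (y / 4) y).filter Nat.Prime, ∀ a ∈ S, q ∣ a → a = q := by
    by_contra hc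
    push Not at hc
    have : ∀ q ∈ (Ioc (y / 4) y).filter Nat.Prime, ∃ r, q * r ∈ S ∧ r ≠ 1 := by
      intro q hq
      obtain ⟨a, ha, ⟨r, rfl⟩, h⟩ := hc q hq
      exact ⟨r, ha, fun e => h (by simp [e])⟩
    choose! r hr1 hr2 using this
    obtain ⟨q, hq, q', hq', hne, he⟩ := Finset.exists_ne_map_eq_of_card_lt_of_maps_to
      (t := Ioc 0 (Nat.sqrt n)) (by simpa using hm) (f := r) (by
        intro q hq
        have b1 := big q (Finset.mem_Ioc.1 (Finset.mem_filter.1 hq).1).1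
        obtain ⟨b2, b3⟩ := hS.1 _ (hr1 q hq)
        simp only [Finset.coe_Ioc, Set.mem_Ioc]
        refine ⟨Nat.pos_of_mul_pos_left b2, ?_⟩
        rw [Nat.le_sqrt]
        have : r q < q := by nlinarith
        nlinarith)
    have r0 : 0 < r q' := Nat.pos_of_mul_pos_left (hS.1 _ (hr1 q' hq')).1
    have := hS.2 _ (hr1 q hq) _ (hr1 q' hq') (by
      rw [he]
      intro h
      exact hne (Nat.eq_of_mul_eq_mul_right r0 h))
    rw [he] at this
    exact hr2 q' hq' ((Nat.coprime_self _).1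
      ((this.coprime_dvd_left (Dvd.intro_left _ rfl)).coprime_dvd_right (Dvd.intro_left _ rfl)))
  obtain ⟨hq1, hqp⟩ := Finset.mem_filter.1 hq
  obtain ⟨hq2, hq3⟩ := Finset.mem_Ioc.1 hq1
  have hqn := big q hq2
  have hnot : p * q ∉ S.erase q := fun h => hpS _ (Finset.mem_of_mem_erase h) (Dvd.intro _ rfl)
  have hcop : ∀ a ∈ S.erase q, Nat.Coprime (p * q) a := by
    intro a ha
    obtain ⟨a1, a2⟩ := Finset.mem_erase.1 ha
    exact Nat.Coprime.mul_left ((Nat.Prime.coprime_iff_not_dvd hp).2 (hpS a a2))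
      ((Nat.Prime.coprime_iff_not_dvd hqp).2 (fun h => a1 (hfree a a2 h)))
  refine ⟨insert (p * q) (S.erase q), ⟨?_, ?_⟩, ?_, ?_⟩
  · intro a ha
    rcases Finset.mem_insert.1 ha with rfl | ha
    · exact ⟨Nat.mul_pos hp.pos hqp.pos, (Nat.mul_le_mul_left p hq3).trans y1⟩
    · exact hS.1 a (Finset.mem_of_mem_erase ha)
  · intro a ha b hb hab
    rcases Finset.mem_insert.1 ha with rfl | ha
    · rcases Finset.mem_insert.1 hb with rfl | hb
      · exact absurd rfl hab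
      · exact hcop b hb
    · rcases Finset.mem_insert.1 hb with rfl | hb
      · exact (hcop a ha).symm
      · exact hS.2 a (Finset.mem_of_mem_erase ha) b (Finset.mem_of_mem_erase hb) hab
  · rw [Finset.sum_insert hnot]
    have a1 : ∑ a ∈ S, a ≤ q + ∑ a ∈ S.erase q, a := by
      by_cases h : q ∈ S
      · rw [Finset.add_sum_erase S (fun a => a) h]
      · rw [Finset.erase_eq_of_notMem h]; omega
    have a2 : p * (y + 1) ≤ p * (4 * q) := Nat.mul_le_mul_left _ (by omega)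
    have a3 : 2 * q ≤ p * q := Nat.mul_le_mul_right _ hp.two_le
    nlinarith
  · intro r hr hr3 hrp hrS a ha
    rcases Finset.mem_insert.1 ha with rfl | ha
    · intro h
      rcases (Nat.Prime.dvd_mul hr).1 h with h | h
      · exact hrp ((Nat.prime_dvd_prime_iff_eq hr hp).1 h)
      · have := (Nat.prime_dvd_prime_iff_eq hr hqp).1 h
        subst this
        have : r ^ 2 ≤ r ^ 3 := Nat.pow_le_pow_right hr.pos (by norm_num)
        omega
    · exact hrS a (Finset.mem_of_mem_erase ha)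

lemma iter (n : ℕ) (hn : 200 ^ 24 ≤ n) (T : Finset ℕ) : ∀ S : Finset ℕ, Adm n S →
    (∀ p ∈ T, p.Prime ∧ p ^ 3 ≤ n ∧ ∀ a ∈ S, ¬ p ∣ a) →
    ∃ S' : Finset ℕ, Adm n S' ∧ T.card * (n + 1) + 8 * ∑ a ∈ S, a ≤ 8 * ∑ a ∈ S', a := by
  induction T using Finset.induction_on with
  | empty => intro S hS _; exact ⟨S, hS, by simp⟩
  | insert p T hpT ih =>
    intro S hS h
    obtain ⟨h1, h2, h3⟩ := h p (Finset.mem_insert_self _ _)
    obtain ⟨S1, a1, a2, a3⟩ := step n hn S hS p h1 h2 h3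
    obtain ⟨S2, b1, b2⟩ := ih S1 a1 (fun r hr => by
      obtain ⟨c1, c2, c3⟩ := h r (Finset.mem_insert_of_mem hr)
      exact ⟨c1, c2, a3 r c1 c2 (fun e => hpT (e ▸ hr)) c3⟩)
    refine ⟨S2, b1, ?_⟩
    rw [Finset.card_insert_of_notMem hpT]
    nlinarith

lemma main (n : ℕ) (hn : 200 ^ 24 ≤ n) (S : Finset ℕ) (hS : Adm n S)
    (hmax : ∀ T, Adm n T → ∑ a ∈ T, a ≤ ∑ a ∈ S, a) (m : ℕ) (hm : m ∈ S) :
    m.primeFactors.card < 10 := by
  by_contra hc
  push Not at hc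
  obtain ⟨m1, m2⟩ := hS.1 m hm
  have hbig : (m.primeFactors.filter (fun p => ¬ p ^ 3 ≤ n)).card ≤ 2 := by
    by_contra h
    replace h := not_le.1 h
    have a1 : ∏ p ∈ m.primeFactors.filter (fun p => ¬ p ^ 3 ≤ n), p ∣ m :=
      (Finset.prod_dvd_prod_of_subset _ _ _ (Finset.filter_subset _ _)).trans
        (Nat.prod_primeFactors_dvd m)
    have a2 := (Nat.le_of_dvd m1 a1).trans m2
    have a3 : (n + 1) ^ (m.primeFactors.filter (fun p => ¬ p ^ 3 ≤ n)).card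
        ≤ ∏ p ∈ m.primeFactors.filter (fun p => ¬ p ^ 3 ≤ n), p ^ 3 :=
      Finset.pow_card_le_prod _ _ _ (fun p hp => by
        have := (Finset.mem_filter.1 hp).2
        omega)
    rw [Finset.prod_pow] at a3
    have a4 := Nat.pow_le_pow_left a2 3
    have a5 : (n + 1) ^ 3 ≤ (n + 1) ^ (m.primeFactors.filter (fun p => ¬ p ^ 3 ≤ n)).card :=
      Nat.pow_le_pow_right (by omega) h
    have a6 : n ^ 3 < (n + 1) ^ 3 := Nat.pow_lt_pow_left (by omega) (by norm_num)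
    omega
  have hsmall := Finset.card_filter_add_card_filter_not (s := m.primeFactors) (fun p => p ^ 3 ≤ n)
  have hS0 : Adm n (S.erase m) :=
    ⟨fun a ha => hS.1 a (Finset.mem_of_mem_erase ha), fun a ha b hb hab =>
      hS.2 a (Finset.mem_of_mem_erase ha) b (Finset.mem_of_mem_erase hb) hab⟩
  obtain ⟨S', a1, a2⟩ := iter n hn (m.primeFactors.filter (fun p => p ^ 3 ≤ n)) (S.erase m) hS0 (by
    intro p hp
    obtain ⟨b1, b2⟩ := Finset.mem_filter.1 hp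
    have b3 := Nat.prime_of_mem_primeFactors b1
    refine ⟨b3, b2, fun a ha h => ?_⟩
    obtain ⟨c1, c2⟩ := Finset.mem_erase.1 ha
    have := hS.2 a c2 m hm c1
    exact b3.one_lt.ne' ((Nat.coprime_self _).1
      ((this.coprime_dvd_left h).coprime_dvd_right (Nat.dvd_of_mem_primeFactors b1))))
  have a3 := hmax S' a1
  have a4 := Finset.add_sum_erase S (fun a => a) hm
  have a5 : 8 * (n + 1) ≤ (m.primeFactors.filter (fun p => p ^ 3 ≤ n)).card * (n + 1) :=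
    Nat.mul_le_mul_right _ (by omega)
  omega

end Pool.Agent.H17.CoprimeMax
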