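import Mathlib

set_option autoImplicit false

namespace Pool.Agent.H17.Cyclo

open Finset

theorem cos_nonpos {ι : Type} (S : Finset ι) (s : ι → ℝ) (hs : ∀ i ∈ S, s i ≠ 0) :
    ∃ t : ℝ, ∑ i ∈ S, Real.cos (t * s i) ≤ 0 := by
  by_contra hc
  push Not at hc
  let h : ℝ → ℝ := fun t => ∑ i ∈ S, Real.sin (t * s i) / s i
  let H : ℝ → ℝ := fun t => ∑ i ∈ S, -Real.cos (t * s i) / s i ^ 2
  have dh : ∀ t, HasDerivAt h (∑ i ∈ S, Real.cos (t * s i)) t := by
    intro t
    refine HasDerivAt.fun_sum fun i hi => ?_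
    have := (((hasDerivAt_id' t).mul_const (s i)).sin).div_const (s i)
    have h0 := hs i hi
    refine this.congr_deriv ?_
    field_simp
  have dH : ∀ t, HasDerivAt H (h t) t := by
    intro t
    refine HasDerivAt.fun_sum fun i hi => ?_
    have := (((hasDerivAt_id' t).mul_const (s i)).cos.neg).div_const (s i ^ 2)
    have h0 := hs i hi
    refine this.congr_deriv ?_
    field_simp
  have hm : StrictMono h := strictMono_of_hasDerivAt_pos dh hc
  have h0 : h 0 = 0 := by simp [h]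
  have h1 : 0 < h 1 := h0 ▸ hm one_pos
  have hb : ∀ t, |H t| ≤ ∑ i ∈ S, 1 / s i ^ 2 := by
    intro t
    refine (abs_sum_le_sum_abs _ _).trans (sum_le_sum fun i _ => ?_)
    rw [abs_div, abs_neg, abs_of_nonneg (sq_nonneg (s i))]
    exact div_le_div_of_nonneg_right (Real.abs_cos_le_one _) (sq_nonneg _)
  set B := ∑ i ∈ S, 1 / s i ^ 2
  have hB : 0 ≤ B := (abs_nonneg _).trans (hb 0)
  have hT : 0 < (2 * B + 1) / h 1 := by positivity
  obtain ⟨c, hc1, hc2⟩ := exists_hasDerivAt_eq_slope H h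
    (show (1 : ℝ) < 1 + (2 * B + 1) / h 1 by linarith)
    (fun t _ => (dH t).continuousAt.continuousWithinAt) (fun t _ => dH t)
  have h3 : h 1 < h c := hm hc1.1
  rw [hc2, add_sub_cancel_left, lt_div_iff₀ hT, mul_div_cancel₀ _ h1.ne'] at h3
  have := abs_le.1 (hb 1)
  have := abs_le.1 (hb (1 + (2 * B + 1) / h 1))
  linarith

theorem hit_one {ι : Type} (S : Finset ι) (hS : S.Nonempty) (s : ι → ℝ)
    (hs : ∀ i ∈ S, ∀ j ∈ S, s i = 0 → s j = 0 → i = j) :
    ∃ t : ℝ, ∑ i ∈ S, Real.cos (t * s i) = 1 := by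
  classical
  obtain ⟨t, ht⟩ := cos_nonpos (S.filter fun i => s i ≠ 0) s fun i hi => (mem_filter.1 hi).2
  have h1 : ∑ i ∈ S, Real.cos (t * s i) ≤ 1 := by
    rw [← sum_filter_add_sum_filter_not S fun i => s i ≠ 0]
    have h2 : (S.filter fun i => ¬ s i ≠ 0).card ≤ 1 := card_le_one.2 fun i hi j hj =>
      hs i (mem_filter.1 hi).1 j (mem_filter.1 hj).1 (not_not.1 (mem_filter.1 hi).2)
        (not_not.1 (mem_filter.1 hj).2)
    have h3 : ∑ i ∈ S.filter fun i => ¬ s i ≠ 0, Real.cos (t * s i) ≤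
        (S.filter fun i => ¬ s i ≠ 0).card • (1 : ℝ) :=
      sum_le_card_nsmul _ _ _ fun i _ => Real.cos_le_one _
    have h4 : ((S.filter fun i => ¬ s i ≠ 0).card : ℝ) ≤ 1 := by exact_mod_cast h2
    rw [nsmul_eq_mul, mul_one] at h3
    linarith
  have h0 : 1 ≤ ∑ i ∈ S, Real.cos (0 * s i) := by
    have : (1 : ℝ) ≤ S.card := by exact_mod_cast hS.card_pos
    simpa using this
  exact intermediate_value_univ t 0 (f := fun t => ∑ i ∈ S, Real.cos (t * s i)) (by fun_prop)
    ⟨h1, h0⟩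

theorem roots (k : ℕ) (hk : 1 ≤ k) : ∃ w : ℂ, ∃ t : ℝ,
    ∑ u ∈ Polynomial.nthRootsFinset k (1 : ℂ),
      Complex.exp (Complex.I * (t * (u * w).im : ℝ)) = 1 := by
  have hk0 : (k : ℂ) ≠ 0 := by exact_mod_cast (by omega : k ≠ 0)
  let w : ℂ := Complex.exp (Real.pi * Complex.I / k)
  have hw : w ^ k = -1 := by
    rw [← Complex.exp_nat_mul, mul_div_cancel₀ _ hk0, Complex.exp_pi_mul_I]
  have hw0 : w ≠ 0 := Complex.exp_ne_zero _
  have mem : ∀ u : ℂ, u ∈ Polynomial.nthRootsFinset k (1 : ℂ) ↔ u ^ k = 1 :=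
    fun u => Polynomial.mem_nthRootsFinset (by omega) 1
  obtain ⟨t, ht⟩ := hit_one (Polynomial.nthRootsFinset k (1 : ℂ)) ⟨1, by simp [mem]⟩
    (fun u => (u * w).im) (by
      have key : ∀ u : ℂ, u ^ k = 1 → (u * w).im = 0 → u * w = -1 := by
        intro u hu h0
        have e : u * w = ((u * w).re : ℂ) := Complex.ext (by simp) (by rw [h0]; simp)
        have h1 : (u * w) ^ k = -1 := by rw [mul_pow, hu, hw, one_mul]
        rw [e] at h1
        have h2 : (u * w).re ^ k = -1 := by exact_mod_cast h1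
        rw [e, ((pow_eq_neg_one_iff).1 h2).1]
        simp
      intro u hu v hv h1 h2
      apply mul_right_cancel₀ hw0
      rw [key u ((mem u).1 hu) h1, key v ((mem v).1 hv) h2])
  refine ⟨w, t, Complex.ext ?_ ?_⟩
  · rw [Complex.re_sum, Complex.one_re, ← ht]
    refine sum_congr rfl fun u _ => ?_
    rw [mul_comm, Complex.exp_ofReal_mul_I_re]
  · rw [Complex.im_sum, Complex.one_im]
    have e : ∀ u : ℂ, (Complex.exp (Complex.I * (t * (u * w).im : ℝ))).im =
        Real.sin (t * (u * w).im) := fun u => by rw [mul_comm, Complex.exp_ofReal_mul_I_im]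
    simp only [e]
    have hc : ∀ u : ℂ, (starRingEnd ℂ) (u * w) / w * w = (starRingEnd ℂ) (u * w) :=
      fun u => div_mul_cancel₀ _ hw0
    refine sum_involution (fun u _ => (starRingEnd ℂ) (u * w) / w) ?_ ?_ ?_ ?_
    · intro u _
      rw [hc, Complex.conj_im, mul_neg, Real.sin_neg, add_neg_cancel]
    · intro u _ h1 h2
      apply h1
      have h3 := hc u
      rw [h2] at h3
      rw [Complex.conj_eq_iff_im.1 h3.symm]
      simp
    · intro u hu
      rw [mem, div_pow, ← map_pow, mul_pow, (mem u).1 hu, hw]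
      simp
    · intro u _
      rw [hc, Complex.conj_conj, mul_div_cancel_right₀ _ hw0]

theorem bij (k : ℕ) (hk : 1 ≤ k) (ζ : ℂ) (hζ : IsPrimitiveRoot ζ k) :
    Set.BijOn (fun a : Fin k.totient → ℤ => ∑ j, (a j : ℂ) * ζ ^ (j : ℕ))
      {a | (∑ j, (a j : ℂ) * ζ ^ (j : ℕ)) ^ k = 1} (Polynomial.nthRootsFinset k (1 : ℂ)) := by
  have mem : ∀ u : ℂ, u ∈ Polynomial.nthRootsFinset k (1 : ℂ) ↔ u ^ k = 1 :=
    fun u => Polynomial.mem_nthRootsFinset (by omega) 1
  refine ⟨fun a ha => (mem _).2 ha, fun a _ b _ h => ?_, fun u hu => ?_⟩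
  · have li := linearIndependent_pow (K := ℚ) ζ
    rw [← Polynomial.cyclotomic_eq_minpoly_rat hζ hk, Polynomial.natDegree_cyclotomic] at li
    have := Fintype.linearIndependent_iff.1 li (fun j => ((a j - b j : ℤ) : ℚ)) (by
      simp only [Algebra.smul_def] at h ⊢
      rw [← sub_eq_zero, ← sum_sub_distrib] at h
      rw [← h]
      refine sum_congr rfl fun j _ => ?_
      simp only [eq_ratCast]
      push_cast
      ring)
    funext j
    have h2 : a j - b j = 0 := by exact_mod_cast this j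
    omega
  · have : NeZero k := ⟨by omega⟩
    obtain ⟨m, -, rfl⟩ := hζ.eq_pow_of_pow_eq_one ((mem u).1 hu)
    have hm := Polynomial.cyclotomic.monic k ℤ
    let r := Polynomial.X ^ m %ₘ Polynomial.cyclotomic k ℤ
    have hr : r.natDegree < k.totient := by
      rw [← Polynomial.natDegree_cyclotomic k ℤ]
      refine Polynomial.natDegree_modByMonic_lt _ hm fun h => ?_
      have := congrArg Polynomial.natDegree h
      rw [Polynomial.natDegree_cyclotomic, Polynomial.natDegree_one] at this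
      exact (Nat.totient_pos.2 hk).ne' this
    have h0 : Polynomial.aeval ζ (Polynomial.cyclotomic k ℤ) = 0 := by
      rw [Polynomial.aeval_def, ← Polynomial.eval_map, Polynomial.map_cyclotomic]
      exact hζ.isRoot_cyclotomic hk
    have h1 : Polynomial.aeval ζ r = ζ ^ m := by
      rw [Polynomial.aeval_modByMonic_eq_self_of_root h0]
      simp
    have h2 : ∑ j : Fin k.totient, (r.coeff j : ℂ) * ζ ^ (j : ℕ) = ζ ^ m := by
      rw [← h1, Polynomial.aeval_eq_sum_range' hr,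
        Fin.sum_univ_eq_sum_range (fun j => (r.coeff j : ℂ) * ζ ^ j)]
      simp
    exact ⟨fun j => r.coeff j, by rw [Set.mem_ofPred_eq, h2]; exact (mem _).1 hu, h2⟩

end Pool.Agent.H17.Cyclo
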