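import Mathlib

set_option autoImplicit false

namespace Pool.Agent.H17.Dens

open Set

structure Good (B : Set ℤ → Prop) : Prop where
  mono : ∀ X Y, X ⊆ Y → B X → B Y
  union : ∀ X Y, B (X ∪ Y) → B X ∨ B Y
  aff : ∀ X (k h : ℤ), 0 < k → (B ((fun x => k * x + h) '' X) ↔ B X)
  empty : ¬ B ∅
  pos : B (Ici 1)

open Classical in
noncomputable def R (B : Set ℤ → Prop) (X : Set ℤ) (n : ℤ) : Finset ℤ :=
  (Finset.Ico 0 n).filter fun c => B (X ∩ {x | x ≡ c [ZMOD n]})

theorem mem_R {B : Set ℤ → Prop} {X : Set ℤ} {n c : ℤ} :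
    c ∈ R B X n ↔ (0 ≤ c ∧ c < n) ∧ B (X ∩ {x | x ≡ c [ZMOD n]}) := by
  simp [R]

noncomputable def β (B : Set ℤ → Prop) (X : Set ℤ) : ℝ :=
  ⨅ n : ℕ+, ((R B X (n : ℕ)).card : ℝ) / (n : ℕ)

section
variable {B : Set ℤ → Prop} (g : Good B)

theorem β_le (X : Set ℤ) {n : ℤ} (hn : 0 < n) : β B X ≤ ((R B X n).card : ℝ) / n := by
  obtain ⟨m, rfl⟩ := Int.eq_ofNat_of_zero_le hn.le
  exact ciInf_le (f := fun n : ℕ+ => ((R B X (n : ℕ)).card : ℝ) / (n : ℕ))
    ⟨0, by rintro _ ⟨n, rfl⟩; positivity⟩ ⟨m, by exact_mod_cast hn⟩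

theorem le_β (X : Set ℤ) {a : ℝ} (h : ∀ n : ℤ, 0 < n → a ≤ ((R B X n).card : ℝ) / n) :
    a ≤ β B X := le_ciInf fun n => h (n : ℕ) (by exact_mod_cast n.pos)

theorem β_le_one (X : Set ℤ) : β B X ≤ 1 := by
  refine (β_le X one_pos).trans ?_
  have : (R B X 1).card ≤ 1 := by
    classical
    exact (Finset.card_filter_le _ _).trans (by simp)
  simpa using this

theorem β_full (X : Set ℤ) (h : ∀ n c : ℤ, 0 ≤ c → c < n → B (X ∩ {x | x ≡ c [ZMOD n]})) :
    β B X = 1 := by
  refine (β_le_one X).antisymm (le_β X fun n hn => ?_)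
  have : R B X n = Finset.Ico 0 n := by
    ext c
    rw [mem_R, Finset.mem_Ico, and_iff_left_iff_imp]
    exact fun hc => h n c hc.1 hc.2
  have e : ((n.toNat : ℕ) : ℝ) = n := by exact_mod_cast Int.toNat_of_nonneg hn.le
  rw [this, Int.card_Ico, sub_zero, e, div_self (by positivity)]

include g

theorem refine (X : Set ℤ) {n m : ℤ} (hn : 0 < n) (hm : 0 < m) :
    ((R B X (m * n)).card : ℝ) ≤ m * (R B X n).card := by
  have : (R B X (m * n)).card ≤ ((Finset.Ico 0 m) ×ˢ (R B X n)).card := by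
    refine Finset.card_le_card_of_injOn (fun c => (c / n, c % n)) (fun c hc => ?_)
      fun c _ d _ e => ?_
    · obtain ⟨⟨h0, h1⟩, h2⟩ := mem_R.1 hc
      simp only [Finset.coe_product, mem_prod, Finset.mem_coe, Finset.mem_Ico, mem_R]
      refine ⟨⟨Int.ediv_nonneg h0 hn.le, Int.ediv_lt_of_lt_mul hn h1⟩,
        ⟨Int.emod_nonneg _ hn.ne', Int.emod_lt_of_pos _ hn⟩, g.mono _ _ ?_ h2⟩
      exact inter_subset_inter_right _ fun x hx =>
        (Int.ModEq.of_mul_left m hx).trans (Int.mod_modEq c n).symm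
    · simp only [Prod.mk.injEq] at e
      rw [← Int.mul_ediv_add_emod c n, ← Int.mul_ediv_add_emod d n, e.1, e.2]
  rw [Finset.card_product, Int.card_Ico, sub_zero] at this
  have e : ((m.toNat : ℕ) : ℝ) = m := by exact_mod_cast Int.toNat_of_nonneg hm.le
  rw [← e]
  exact_mod_cast this

theorem R_aff (X : Set ℤ) {n k : ℤ} (h : ℤ) (hn : 0 < n) (hk : 0 < k) :
    (R B ((fun x => k * x + h) '' X) (k * n)).card = (R B X n).card := by
  have hkn := mul_pos hk hn
  have key : ∀ x c : ℤ, k * x + h ≡ (k * c + h) % (k * n) [ZMOD k * n] ↔ x ≡ c [ZMOD n] := by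
    intro x c
    constructor
    · intro e
      exact Int.ModEq.mul_left_cancel' hk.ne'
        (Int.ModEq.add_right_cancel' h (e.trans (Int.mod_modEq _ _)))
    · intro e
      exact ((e.mul_left').add_right h).trans (Int.mod_modEq _ _).symm
  have im : ∀ c, B ((fun x => k * x + h) '' X ∩ {x | x ≡ (k * c + h) % (k * n) [ZMOD k * n]}) ↔
      B (X ∩ {x | x ≡ c [ZMOD n]}) := fun c => by
    rw [← image_inter_preimage, g.aff _ _ _ hk]
    simp only [preimage_ofPred_eq, key]
  symm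
  refine Finset.card_bij (fun c _ => (k * c + h) % (k * n)) (fun c hc => ?_) (fun c hc d hd e => ?_)
    fun c hc => ?_
  · exact mem_R.2 ⟨⟨Int.emod_nonneg _ hkn.ne', Int.emod_lt_of_pos _ hkn⟩, (im c).2 (mem_R.1 hc).2⟩
  · have := (key c d).1 ((Int.mod_modEq _ _).symm.trans (by rw [e]))
    rwa [Int.ModEq, Int.emod_eq_of_lt (mem_R.1 hc).1.1 (mem_R.1 hc).1.2,
      Int.emod_eq_of_lt (mem_R.1 hd).1.1 (mem_R.1 hd).1.2] at this
  · obtain ⟨⟨h0, h1⟩, h2⟩ := mem_R.1 hc
    obtain ⟨_, ⟨x, -, rfl⟩, hx⟩ := nonempty_iff_ne_empty.2 fun e => g.empty (e ▸ h2)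
    have e : (k * (x % n) + h) % (k * n) = c := by
      have := ((key x (x % n)).2 (Int.mod_modEq _ _).symm).symm.trans hx
      rwa [Int.ModEq, Int.emod_emod_of_dvd _ dvd_rfl, Int.emod_eq_of_lt h0 h1] at this
    exact ⟨x % n, mem_R.2 ⟨⟨Int.emod_nonneg _ hn.ne', Int.emod_lt_of_pos _ hn⟩,
      (im _).1 (e ▸ h2)⟩, e⟩

theorem β_aff (X : Set ℤ) {k : ℤ} (h : ℤ) (hk : 0 < k) :
    β B ((fun x => k * x + h) '' X) = 1 / k * β B X := by
  have hk' : (0 : ℝ) < k := by exact_mod_cast hk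
  rw [one_div, inv_mul_eq_div]
  apply le_antisymm
  · rw [le_div_iff₀ hk']
    refine le_β X fun n hn => ?_
    have := β_le (B := B) ((fun x => k * x + h) '' X) (mul_pos hk hn)
    rw [R_aff g X h hn hk, Int.cast_mul, mul_comm, ← div_div, le_div_iff₀ hk'] at this
    exact this
  · refine le_β _ fun n hn => ?_
    have hn' : (0 : ℝ) < n := by exact_mod_cast hn
    have h1 := β_le (B := B) X hn
    have h2 := refine g ((fun x => k * x + h) '' X) hn hk
    rw [R_aff g X h hn hk] at h2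
    rw [div_le_iff₀ hk', div_mul_eq_mul_div]
    refine h1.trans ?_
    gcongr
    linarith

theorem β_union (X Y : Set ℤ) : β B (X ∪ Y) ≤ β B X + β B Y := by
  refine le_ciInf_add_ciInf fun n m => ?_
  have hn : (0 : ℤ) < (n : ℕ) := by exact_mod_cast n.pos
  have hm : (0 : ℤ) < (m : ℕ) := by exact_mod_cast m.pos
  have hn' : (0 : ℝ) < (n : ℕ) := by exact_mod_cast n.pos
  have hm' : (0 : ℝ) < (m : ℕ) := by exact_mod_cast m.pos
  have h1 := refine g X hn hm
  have h2 := refine g Y hm hn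
  rw [mul_comm ((n : ℕ) : ℤ)] at h2
  have h3 : (R B (X ∪ Y) ((m : ℕ) * (n : ℕ))).card ≤
      (R B X ((m : ℕ) * (n : ℕ))).card + (R B Y ((m : ℕ) * (n : ℕ))).card := by
    refine (Finset.card_le_card fun c hc => ?_).trans (Finset.card_union_le _ _)
    rw [mem_R, union_inter_distrib_right] at hc
    rw [Finset.mem_union, mem_R, mem_R]
    exact (g.union _ _ hc.2).imp (fun h => ⟨hc.1, h⟩) fun h => ⟨hc.1, h⟩
  have h4 : ((R B (X ∪ Y) ((m : ℕ) * (n : ℕ))).card : ℝ) ≤
      (R B X ((m : ℕ) * (n : ℕ))).card + (R B Y ((m : ℕ) * (n : ℕ))).card := by exact_mod_cast h3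
  refine (β_le _ (mul_pos hm hn)).trans ?_
  push_cast at h1 h2 ⊢
  rw [div_add_div _ _ hn'.ne' hm'.ne', mul_comm ((n : ℕ) : ℝ) ((m : ℕ) : ℝ)]
  gcongr
  linarith

theorem β_mono {X Y : Set ℤ} (h : X ⊆ Y) : β B X ≤ β B Y :=
  le_β _ fun n hn => (β_le X hn).trans (by
    have : (0 : ℝ) < n := by exact_mod_cast hn
    gcongr
    exact fun c hc => mem_R.2 ⟨(mem_R.1 hc).1,
      g.mono _ _ (inter_subset_inter_left _ h) (mem_R.1 hc).2⟩)

theorem β_H {H : Set ℤ} (h : Ici 1 ⊆ H) : β B H = 1 :=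
  β_full H fun n c h0 h1 => g.mono _ _ (by
    rintro _ ⟨x, hx, rfl⟩
    exact ⟨h (by simp only [mem_Ici] at hx ⊢; nlinarith), by simp [Int.ModEq]⟩)
    ((g.aff _ n c (by omega)).2 g.pos)

theorem β_zero {X : Set ℤ} (h : ¬ B X) : β B X ≤ 0 := by
  refine (β_le X one_pos).trans ?_
  have : R B X 1 = ∅ := Finset.eq_empty_of_forall_notMem fun c hc =>
    h (g.mono _ _ inter_subset_left (mem_R.1 hc).2)
  simp [this]

end

theorem good1 : Good Set.Nonempty :=
  ⟨fun _ _ h => Nonempty.mono h, fun _ _ => union_nonempty.1, fun _ _ _ _ => image_nonempty,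
    not_nonempty_empty, nonempty_Ici⟩

noncomputable def w (x : ℤ) : ℝ := 1 / (|(x : ℝ)| + 1)

def B2 (X : Set ℤ) : Prop := ¬ Summable (X.indicator w)

theorem w0 (x : ℤ) : 0 ≤ w x := by unfold w; positivity

theorem good2 : Good B2 := by
  have i0 : ∀ (X : Set ℤ) x, 0 ≤ X.indicator w x := fun X x => indicator_nonneg (fun x _ => w0 x) x
  refine ⟨fun X Y h h1 h2 => h1 (h2.of_nonneg_of_le (i0 X) fun x =>
    indicator_le_indicator_of_subset h w0 x), fun X Y h => ?_, fun X k h hk => ?_, ?_, fun h => ?_⟩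
  · by_contra hc
    simp only [B2, not_or, not_not] at hc
    refine h ((hc.1.add hc.2).of_nonneg_of_le (i0 _) fun x => ?_)
    have := w0 x
    by_cases h1 : x ∈ X <;> by_cases h2 : x ∈ Y <;> simp [h1, h2, this]
  · have inj : Function.Injective fun x => k * x + h := fun x y e =>
      mul_left_cancel₀ hk.ne' (add_right_cancel e)
    have hk' : (1 : ℝ) ≤ k := by exact_mod_cast hk
    rw [B2, B2, ← inj.summable_iff fun x hx =>
      indicator_of_notMem (fun h => hx (image_subset_range _ _ h)) _]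
    have e : ∀ x, (((fun x => k * x + h) '' X).indicator w ∘ fun x => k * x + h) x =
        X.indicator (fun x => w (k * x + h)) x := fun x => indicator_image inj
    have ab : ∀ x : ℤ, |(k : ℝ) * x| = k * |(x : ℝ)| := fun x => by
      rw [abs_mul, abs_of_pos (by linarith)]
    refine not_congr ⟨fun s => (s.mul_left (k + |(h : ℝ)|)).of_nonneg_of_le (i0 _) fun x => ?_,
      fun s => (s.mul_left (1 + |(h : ℝ)|)).of_nonneg_of_le (fun x => i0 _ _) fun x => ?_⟩
    all_goals
      rw [e]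
      by_cases hx : x ∈ X
      · simp only [indicator_of_mem hx, w]
        push_cast
        have a1 := abs_add_le ((k : ℝ) * x) h
        have a2 := abs_sub ((k : ℝ) * x + h) h
        rw [add_sub_cancel_right] at a2
        have a3 := abs_nonneg (x : ℝ)
        have a4 := abs_nonneg (h : ℝ)
        have a5 := abs_nonneg ((k : ℝ) * x + h)
        rw [ab] at a1 a2
        rw [mul_one_div, div_le_div_iff₀ (by positivity) (by positivity)]
        nlinarith
      · simp [hx]
  · simp [B2, summable_zero]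
  · have := h.comp_injective (i := fun j : ℕ => (j : ℤ) + 1) fun a b e => by simpa using e
    refine Real.not_summable_one_div_natCast ((summable_nat_add_iff 2).1 (this.congr fun j => ?_))
    rw [Function.comp, indicator_of_mem (by simp), w]
    push_cast
    rw [abs_of_pos (by positivity)]
    ring

def y (j : ℕ) : ℤ := (j.factorial + j : ℕ)

theorem y_mono : StrictMono y := fun a b h => by
  have := Nat.factorial_le h.le
  simp only [y]
  omega

theorem y_pos : range y ⊆ Ici 1 := by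
  rintro _ ⟨j, rfl⟩
  have := j.factorial_pos
  simp only [y, mem_Ici]
  omega

theorem y_small : ¬ B2 (range y) := by
  rw [B2, not_not, ← y_mono.injective.summable_iff fun x hx => indicator_of_notMem hx _]
  refine (Real.summable_pow_div_factorial 1).of_nonneg_of_le
    (fun j => indicator_nonneg (fun x _ => w0 x) _) fun j => ?_
  rw [Function.comp, indicator_of_mem (mem_range_self j), w, y, one_pow]
  have : (0 : ℝ) < j.factorial := by exact_mod_cast j.factorial_pos
  push_cast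
  rw [abs_of_pos (by positivity)]
  gcongr
  linarith [j.cast_nonneg (α := ℝ)]

theorem y_full : β Set.Nonempty (range y) = 1 :=
  β_full _ fun n c h0 h1 => by
    obtain ⟨c, rfl⟩ := Int.eq_ofNat_of_zero_le h0
    obtain ⟨n, rfl⟩ := Int.eq_ofNat_of_zero_le (h0.trans h1.le)
    refine ⟨y (c + n), mem_range_self _, ?_⟩
    obtain ⟨t, ht⟩ := Nat.dvd_factorial (show 0 < n by omega) (show n ≤ c + n by omega)
    exact Int.modEq_iff_dvd.2 ⟨-(t + 1), by rw [y, ht]; push_cast; ring⟩

noncomputable def μ0 (X : Set ℤ) : ℝ := max (β B2 X) (β Set.Nonempty X / 2)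

theorem μ0_union (X Y : Set ℤ) : μ0 (X ∪ Y) ≤ μ0 X + μ0 Y :=
  max_le ((β_union good2 X Y).trans (add_le_add (le_max_left _ _) (le_max_left _ _)))
    (le_trans (by linarith [β_union good1 X Y]) (add_le_add (le_max_right _ _) (le_max_right _ _)))

theorem μ0_mono {X Y : Set ℤ} (h : X ⊆ Y) : μ0 X ≤ μ0 Y :=
  max_le_max (β_mono good2 h) (by linarith [β_mono good1 h])

theorem μ0_aff (X : Set ℤ) {k : ℤ} (h : ℤ) (hk : 0 < k) :
    μ0 ((fun x => k * x + h) '' X) = 1 / k * μ0 X := by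
  rw [μ0, μ0, β_aff good1 X h hk, β_aff good2 X h hk, mul_max_of_nonneg _ _ (by positivity),
    mul_div_assoc]

theorem μ0_le (X : Set ℤ) : μ0 X ≤ 1 :=
  max_le (β_le_one X) (by linarith [β_le_one (B := Set.Nonempty) X])

theorem μ0_H {H : Set ℤ} (h : Ici 1 ⊆ H) : μ0 H = 1 := by
  rw [μ0, β_H good1 h, β_H good2 h]
  norm_num

theorem μ0_le_β (X : Set ℤ) : μ0 X ≤ β Set.Nonempty X := by
  have h0 : 0 ≤ β Set.Nonempty X := le_β X fun n hn => by positivity
  refine max_le (le_β X fun n hn => (β_le X hn).trans ?_) (by linarith)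
  have : (0 : ℝ) < n := by exact_mod_cast hn
  gcongr
  exact fun c hc => mem_R.2 ⟨(mem_R.1 hc).1,
    nonempty_iff_ne_empty.2 fun e => good2.empty (e ▸ (mem_R.1 hc).2)⟩

def Free (X : Set ℤ) : Prop := ∀ a ∈ X, ∀ b ∈ X, ∀ c ∈ X, a + c = 2 * b → a = b

theorem y_free : Free (range y) := by
  have key : ∀ i j k, y i + y k = 2 * y j → ¬ i < j := by
    intro i j k e h
    have h1 := y_mono h
    have h2 : j < k := y_mono.lt_iff_lt.1 (by omega)
    have h3 := y_mono.monotone (show j + 1 ≤ k from h2)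
    have h4 := y_pos (mem_range_self i)
    have h5 : 2 * y j ≤ y (j + 1) := by
      have := j.factorial_pos
      obtain ⟨j, rfl⟩ : ∃ t, j = t + 1 := ⟨j - 1, by omega⟩
      simp only [y]
      rw [Nat.factorial_succ (j + 1)]
      push_cast
      nlinarith
    simp only [mem_Ici] at h4
    omega
  rintro _ ⟨i, rfl⟩ _ ⟨j, rfl⟩ _ ⟨k, rfl⟩ e
  rcases lt_trichotomy i j with h | h | h
  · exact absurd h (key i j k e)
  · rw [h]
  · have := y_mono h
    exact absurd (y_mono.lt_iff_lt.1 (by omega)) (key k j i (by omega))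

theorem free_aff (X : Set ℤ) {k : ℤ} (h : ℤ) (hk : 0 < k) :
    Free ((fun x => k * x + h) '' X) ↔ Free X := by
  simp only [Free, forall_mem_image]
  refine forall₂_congr fun a _ => forall₂_congr fun b _ => forall₂_congr fun c _ =>
    imp_congr ⟨fun e => mul_left_cancel₀ hk.ne' (by linarith), fun e => by
      linear_combination k * e⟩ ⟨fun e => mul_left_cancel₀ hk.ne' (by linarith), fun e => by rw [e]⟩

end Pool.Agent.H17.Dens
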