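import Mathlib

set_option autoImplicit false

namespace Pool.Agent.H17.EqSet

theorem inj_pre {A B : Type} (f : A → List B) (h : ∀ i j, f i <+: f j → i = j)
    (hne : ∀ i, f i ≠ []) : ∀ u v : List A, u.flatMap f = v.flatMap f → u = v
  | [], [], _ => rfl
  | [], j :: v, e => by simp [hne j] at e
  | i :: u, [], e => by simp [hne i] at e
  | i :: u, j :: v, e => by
      rw [List.flatMap_cons, List.flatMap_cons] at e
      have hij : i = j := by
        rcases List.prefix_or_prefix_of_prefix (List.prefix_append (f i) _)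
          (e ▸ List.prefix_append (f j) _) with h1 | h1
        · exact h _ _ h1
        · exact (h _ _ h1).symm
      subst hij
      rw [inj_pre f h hne u v (List.append_cancel_left e)]

theorem inj_suf {A B : Type} (f : A → List B) (h : ∀ i j, f i <:+ f j → i = j)
    (hne : ∀ i, f i ≠ []) (u v : List A) (e : u.flatMap f = v.flatMap f) : u = v := by
  have := congrArg List.reverse e
  rw [List.reverse_flatMap, List.reverse_flatMap] at this
  exact List.reverse_injective (inj_pre _ (fun i j hij => h i j (List.reverse_prefix.1 hij))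
    (fun i => by simpa using hne i) _ _ this)

def H : Fin 4 → List (Fin 2) := ![[0, 1, 0, 1], [0, 1, 0, 1, 0], [0, 1, 0], [0, 1, 0, 0]]
def G : Fin 4 → List (Fin 2) := ![[1, 0, 1, 0], [0], [1, 0, 1, 0, 0, 1, 0], [0, 0, 1, 0]]
def h0 : Fin 4 → List (Fin 2) := ![[1, 1], [1, 0, 1], [0, 1], [0, 0, 1]]
def g0 : Fin 4 → List (Fin 2) := ![[1, 1], [0], [1, 1, 0, 1], [0, 0, 1]]
def ph : Fin 2 → List (Fin 2) := ![[0], [0, 1]]

theorem ph_inj (u v : List (Fin 2)) (e : u.flatMap ph = v.flatMap ph) : u = v :=
  inj_suf ph (by decide) (by decide) u v e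

theorem H_eq : ∀ w : List (Fin 4), w.flatMap H ++ [0, 1] = [0, 1] ++ (w.flatMap h0).flatMap ph
  | [] => rfl
  | i :: w => by
      have : ∀ i, H i ++ [0, 1] = [0, 1] ++ (h0 i).flatMap ph := by decide
      rw [List.flatMap_cons, List.flatMap_cons, List.flatMap_append, List.append_assoc, H_eq w,
        ← List.append_assoc, this, List.append_assoc]

theorem G_eq : ∀ w : List (Fin 4), [0] ++ w.flatMap G = (w.flatMap g0).flatMap ph ++ [0]
  | [] => rfl
  | i :: w => by
      have : ∀ i, [0] ++ G i = (g0 i).flatMap ph ++ [0] := by decide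
      rw [List.flatMap_cons, List.flatMap_cons, List.flatMap_append, ← List.append_assoc, this,
        List.append_assoc, G_eq w, List.append_assoc]

theorem H_inj (u v : List (Fin 4)) (e : u.flatMap H = v.flatMap H) : u = v := by
  have h := H_eq u
  rw [e, H_eq v] at h
  exact inj_pre h0 (by decide) (by decide) u v (ph_inj _ _ (List.append_cancel_left h)).symm

theorem G_inj (u v : List (Fin 4)) (e : u.flatMap G = v.flatMap G) : u = v := by
  have h := G_eq u
  rw [e, G_eq v] at h
  exact inj_suf g0 (by decide) (by decide) u v (ph_inj _ _ (List.append_cancel_right h)).symm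

def P (n : ℕ) : List (Fin 2) := (List.replicate n 0).flatMap G
def R (n : ℕ) : List (Fin 2) := (List.replicate n 0).flatMap H

theorem P_succ (n : ℕ) : P (n + 1) = [1, 0, 1, 0] ++ P n := rfl
theorem R_succ (n : ℕ) : R (n + 1) = [0, 1, 0, 1] ++ R n := rfl

theorem R_a : ∀ n (t : List (Fin 2)), R n ++ 0 :: t = 0 :: (P n ++ t)
  | 0, _ => rfl
  | n + 1, t => by rw [R_succ, P_succ, List.append_assoc, R_a n t]; rfl

theorem P_ba : ∀ n (t : List (Fin 2)), P n ++ 1 :: 0 :: t = 1 :: 0 :: (P n ++ t)
  | 0, _ => rfl
  | n + 1, t => by rw [P_succ, List.append_assoc, P_ba n t]; rfl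

theorem P_len : ∀ n, (P n).length = 4 * n
  | 0 => rfl
  | n + 1 => by rw [P_succ, List.length_append, P_len n]; simp; ring

variable {S : Type}

def u (x y : S) : ℕ → List S
  | 0 => []
  | n + 1 => u x y n ++ (List.replicate n x ++ [y])

def v (x z : S) : ℕ → List S
  | 0 => []
  | n + 1 => List.replicate n x ++ (z :: v x z n)

theorem main (ι : S → Fin 4) (x y z : S) (hx : ι x = 0) (hy : ι y = 1) (hz : ι z = 2)
    (L : Language S) (hL : ∀ w, w ∈ L ↔ w.flatMap (H ∘ ι) = w.flatMap (G ∘ ι)) :
    ¬ L.IsRegular := by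
  have rH : ∀ n, (List.replicate n x).flatMap (H ∘ ι) = R n := by
    intro n; rw [R, ← hx, ← List.map_replicate, List.flatMap_map]; rfl
  have rG : ∀ n, (List.replicate n x).flatMap (G ∘ ι) = P n := by
    intro n; rw [P, ← hx, ← List.map_replicate, List.flatMap_map]; rfl
  have hu : ∀ n, (u x y n).flatMap (H ∘ ι) = (u x y n).flatMap (G ∘ ι) ++ P n := by
    intro n
    induction n with
    | zero => rfl
    | succ n ih =>
      simp only [u, List.flatMap_append, ih, rH, rG, List.flatMap_cons, List.flatMap_nil,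
        Function.comp, hy, List.append_nil, List.append_assoc]
      congr 2
      change R n ++ [0, 1, 0, 1, 0] = [0] ++ P (n + 1)
      rw [R_a, P_ba, P_ba, P_succ]; simp
  have hv : ∀ n, P n ++ (v x z n).flatMap (H ∘ ι) = (v x z n).flatMap (G ∘ ι) := by
    intro n
    induction n with
    | zero => rfl
    | succ n ih =>
      simp only [v, List.flatMap_append, ← ih, rH, rG, List.flatMap_cons, Function.comp, hz]
      change P (n + 1) ++ (R n ++ 0 :: 1 :: 0 :: _) = P n ++ 1 :: 0 :: 1 :: 0 :: 0 :: 1 :: 0 :: _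
      rw [R_a, P_ba, P_ba, P_ba, P_succ]; rfl
  have key : ∀ m n, u x y m ++ v x z n ∈ L ↔ m = n := by
    intro m n
    rw [hL, List.flatMap_append, List.flatMap_append, hu, ← hv, List.append_assoc,
      List.append_cancel_left_eq, List.append_cancel_right_eq]
    constructor
    · intro h
      have := congrArg List.length h
      rw [P_len, P_len] at this; omega
    · rintro rfl; rfl
  intro hreg
  refine Set.infinite_of_injective_forall_mem (f := fun n => L.leftQuotient (u x y n))
    (fun m n h => ?_) (fun n => Set.mem_range_self _) hreg.finite_range_leftQuotient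
  have h1 : v x z n ∈ L.leftQuotient (u x y n) := (key n n).2 rfl
  simp only at h
  rw [← h] at h1
  exact (key m n).1 h1

end Pool.Agent.H17.EqSet
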