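import Mathlib

set_option autoImplicit false

namespace Pool.Agent.H17.FF

open Finset

def allLt (p : ℕ → Bool) (n : ℕ) : Bool := Nat.rec true (fun k ih => p k && ih) n

theorem allLt_spec {p : ℕ → Bool} {n : ℕ} (h : allLt p n = true) : ∀ a < n, p a = true := by
  induction n with
  | zero => simp
  | succ n ih =>
    have h' : (p n && allLt p n) = true := h
    rw [Bool.and_eq_true] at h'
    intro a ha
    rcases Nat.lt_succ_iff_lt_or_eq.1 ha with e | e
    · exact ih h'.2 a e
    · rw [e]; exact h'.1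

def dg (T n i j : ℕ) : ℕ := (T >>> (2 * ((n + 1) * i + j))) % 4

def chkPw (p n : ℕ) (c : ℕ → ℕ) (T N : ℕ) : Bool :=
  (dg T n 0 0 == 1 && allLt (fun j => dg T n 0 (j + 1) == 0) n) &&
  allLt (fun i => dg T n (i + 1) 0 % p == c 0 * dg T n i n % p &&
    allLt (fun j => dg T n (i + 1) (j + 1) % p == (dg T n i j + c (j + 1) * dg T n i n) % p) n) N

def zech (p n T x v y : ℕ) : Bool :=
  dg T n y 0 % p == (dg T n x 0 + v) % p && allLt (fun j => dg T n y (j + 1) == dg T n x (j + 1)) n

theorem cast_eq {K : Type} [CommRing K] (p : ℕ) [CharP K p] {a b : ℕ}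
    (h : (a % p == b % p) = true) : (a : K) = b := by
  rw [beq_iff_eq] at h
  rw [CharP.cast_eq_mod K p a, CharP.cast_eq_mod K p b, h]

theorem pw {K : Type} [CommRing K] (p : ℕ) [CharP K p] (θ : K) (n : ℕ) (c : ℕ → ℕ) (T N : ℕ)
    (hθ : θ ^ (n + 1) = ∑ j ∈ range (n + 1), (c j : K) * θ ^ j) (h : chkPw p n c T N = true) :
    ∀ i ≤ N, θ ^ i = ∑ j ∈ range (n + 1), (dg T n i j : K) * θ ^ j := by
  rw [chkPw, Bool.and_eq_true, Bool.and_eq_true, beq_iff_eq] at h
  obtain ⟨⟨h0, h1⟩, h2⟩ := h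
  intro i
  induction i with
  | zero =>
    intro _
    rw [sum_range_succ', h0, sum_eq_zero]
    · simp
    · intro j hj
      have := allLt_spec h1 j (mem_range.1 hj)
      rw [beq_iff_eq] at this
      simp [this]
  | succ i ih =>
    intro hi
    have h3 := allLt_spec h2 i (by omega)
    rw [Bool.and_eq_true] at h3
    have e0 := cast_eq (K := K) p h3.1
    have e1 : ∑ j ∈ range n, (dg T n (i + 1) (j + 1) : K) * θ ^ (j + 1) =
        θ * ∑ j ∈ range n, (dg T n i j : K) * θ ^ j +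
          dg T n i n * ∑ j ∈ range n, (c (j + 1) : K) * θ ^ (j + 1) := by
      rw [mul_sum, mul_sum, ← sum_add_distrib]
      refine sum_congr rfl fun j hj => ?_
      rw [cast_eq (K := K) p (allLt_spec h3.2 j (mem_range.1 hj))]
      push_cast
      ring
    rw [sum_range_succ'] at hθ
    rw [pow_succ, ih (by omega), sum_range_succ, sum_range_succ', e0, e1]
    push_cast
    linear_combination (dg T n i n : K) * hθ

theorem zech_spec {K : Type} [CommRing K] (p : ℕ) [CharP K p] (θ : K) (n T N : ℕ)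
    (H : ∀ i ≤ N, θ ^ i = ∑ j ∈ range (n + 1), (dg T n i j : K) * θ ^ j) (x v y : ℕ)
    (hx : x ≤ N) (hy : y ≤ N) (h : zech p n T x v y = true) : θ ^ x + v = θ ^ y := by
  rw [zech, Bool.and_eq_true] at h
  rw [H x hx, H y hy, sum_range_succ', sum_range_succ', cast_eq (K := K) p h.1]
  have : ∑ j ∈ range n, (dg T n y (j + 1) : K) * θ ^ (j + 1) =
      ∑ j ∈ range n, (dg T n x (j + 1) : K) * θ ^ (j + 1) := sum_congr rfl fun j hj => by
    have := allLt_spec h.2 j (mem_range.1 hj)
    rw [beq_iff_eq] at this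
    rw [this]
  rw [this]
  push_cast
  ring

open Polynomial in
theorem exists_field (p : ℕ) [Fact p.Prime] (n : ℕ) (c : ℕ → ℕ) :
    ∃ (K : Type) (_ : Field K) (_ : Algebra (ZMod p) K) (θ : K),
      FiniteDimensional (ZMod p) K ∧ (Module.finrank (ZMod p) K ≤ n + 1) ∧
      θ ^ (n + 1) = ∑ j ∈ range (n + 1), (c j : K) * θ ^ j := by
  let f : (ZMod p)[X] := X ^ (n + 1) - ∑ j ∈ range (n + 1), C (c j : ZMod p) * X ^ j
  have hlt : (∑ j ∈ range (n + 1), C (c j : ZMod p) * X ^ j).degree < ((n + 1 : ℕ) : WithBot ℕ) := by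
    rw [← Fin.sum_univ_eq_sum_range (fun j => C (c j : ZMod p) * X ^ j)]
    exact degree_sum_fin_lt _
  have hm : f.Monic := monic_X_pow_sub hlt
  have hd : f.natDegree = n + 1 := by
    apply natDegree_eq_of_degree_eq_some
    rw [degree_sub_eq_left_of_degree_lt (by rwa [degree_X_pow]), degree_X_pow]
  have hdvd : f.factor ∣ f := factor_dvd_of_natDegree_ne_zero (by omega)
  have h0 : f.factor ≠ 0 := (irreducible_factor f).ne_zero
  have : Fact (Irreducible f.factor) := ⟨irreducible_factor f⟩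
  refine ⟨AdjoinRoot f.factor, inferInstance, inferInstance, AdjoinRoot.root _,
    (AdjoinRoot.powerBasis h0).finite, ?_, ?_⟩
  · rw [(AdjoinRoot.powerBasis h0).finrank, AdjoinRoot.powerBasis_dim, ← hd]
    exact natDegree_le_of_dvd hdvd hm.ne_zero
  · have : aeval (AdjoinRoot.root f.factor) f = 0 := by
      rw [AdjoinRoot.aeval_eq, AdjoinRoot.mk_eq_zero]
      exact hdvd
    simpa [f, sub_eq_zero] using this

open IntermediateField in
theorem pow_deg (p : ℕ) [Fact p.Prime] {K : Type} [Field K] [Algebra (ZMod p) K]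
    [FiniteDimensional (ZMod p) K] (x : K) :
    x ^ p ^ (minpoly (ZMod p) x).natDegree = x := by
  have hi : IsIntegral (ZMod p) x := Algebra.IsIntegral.isIntegral x
  have : Finite (ZMod p)⟮x⟯ := Module.finite_of_finite (ZMod p)
  have := Fintype.ofFinite (ZMod p)⟮x⟯
  have h := FiniteField.pow_card (AdjoinSimple.gen (ZMod p) x)
  rw [Module.card_eq_pow_finrank (K := ZMod p), adjoin.finrank hi, ZMod.card] at h
  exact congrArg Subtype.val h

theorem deg_eq (p : ℕ) [Fact p.Prime] {K : Type} [Field K] [Algebra (ZMod p) K]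
    [FiniteDimensional (ZMod p) K] (n N : ℕ) (hn : Module.finrank (ZMod p) K ≤ n) (θ : K)
    (hN : 0 < N) (ho : orderOf θ = N) (b : ℕ)
    (h : ∀ d < n, 0 < d → ¬ b * p ^ d ≡ b [MOD N]) :
    (minpoly (ZMod p) (θ ^ b)).natDegree = n := by
  have h1 := minpoly.natDegree_le (A := ZMod p) (θ ^ b)
  have h2 := minpoly.natDegree_pos (Algebra.IsIntegral.isIntegral (R := ZMod p) (θ ^ b))
  have h3 := pow_deg p (θ ^ b)
  rw [← pow_mul, (orderOf_pos_iff.1 (by omega)).pow_eq_pow_iff_modEq, ho] at h3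
  by_contra hc
  exact h _ (by omega) h2 h3

end Pool.Agent.H17.FF
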