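import Mathlib
import Pool.Agent.H17.Kron

set_option autoImplicit false

namespace Pool.Agent.H17.Fix12

def g (n : ℕ) : Bool := if h : n % 4 = 0 ∧ n ≠ 0 then g (n / 4) else decide (n % 4 = 2)
  decreasing_by omega

theorem g4 (n : ℕ) : g (4 * n) = g n := by
  rcases Nat.eq_zero_or_pos n with rfl | h
  · rfl
  · rw [g, dif_pos ⟨by omega, by omega⟩]; congr 1; omega

theorem gm (n : ℕ) (h : n % 4 ≠ 0) : g n = decide (n % 4 = 2) := by
  rw [g, dif_neg (by omega)]

theorem gp (t n : ℕ) : g (4 ^ t * n) = g n := by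
  induction t with
  | zero => simp
  | succ t ih => rw [pow_succ', mul_assoc, g4, ih]

theorem gadd (t j i : ℕ) (h0 : 0 < i) (h : i < 4 ^ t) : g (4 ^ t * j + i) = g i := by
  induction t generalizing i with
  | zero => omega
  | succ t ih =>
    have e : 4 ^ (t + 1) * j = 4 * (4 ^ t * j) := by ring
    rw [pow_succ] at h
    by_cases h4 : i % 4 = 0
    · obtain ⟨i', rfl⟩ : ∃ i', i = 4 * i' := ⟨i / 4, by omega⟩
      rw [e, ← mul_add, g4, g4, ih _ (by omega) (by omega)]
    · rw [gm _ (by omega), gm _ h4, e]; congr 2; omega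

def blk (n : ℕ) : List ℕ := if g n then [1, 2, 2] else [1, 2]

def W : ℕ → List ℕ
  | 0 => []
  | n + 1 => W n ++ blk (n + 1)

theorem Wadd (t j i : ℕ) (h : i < 4 ^ t) : W (4 ^ t * j + i) = W (4 ^ t * j) ++ W i := by
  induction i with
  | zero => simp [W]
  | succ i ih =>
    rw [← add_assoc, W, W, ih (by omega), List.append_assoc, blk, blk, add_assoc,
      gadd t j _ (by omega) h]

theorem Wstep (t j : ℕ) : W (4 ^ t * (j + 1)) = W (4 ^ t * j) ++ (W (4 ^ t - 1) ++ blk (j + 1)) := by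
  have : 0 < 4 ^ t := by positivity
  have e : 4 ^ t * (j + 1) = 4 ^ t * j + (4 ^ t - 1) + 1 := by rw [mul_add]; omega
  rw [e, W, ← e, Wadd t j _ (by omega), List.append_assoc, blk, blk, gp]

theorem xW (x : ℕ → List ℕ) (h1 : x 1 = [1, 2])
    (h : ∀ n, 1 ≤ n → x (n + 1) = x n ++ x n ++ (x n).reverse ++ (x n).reverse ++ [2]) (t : ℕ) :
    x (t + 1) = W (4 ^ t) ∧ ∃ y : List ℕ, y.reverse = y ∧ W (4 ^ t) = y ++ [2] := by
  have b1 : blk 1 = [1, 2] := by simp [blk, gm]
  have b2 : blk 2 = [1, 2, 2] := by simp [blk, gm]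
  have b3 : blk 3 = [1, 2] := by simp [blk, gm]
  have b4 : blk 4 = [1, 2] := by have := g4 1; simp [blk, gm] at this ⊢; exact this
  induction t with
  | zero => exact ⟨by simp [h1, W, b1], [1], rfl, by simp [W, b1]⟩
  | succ t ih =>
    obtain ⟨e, y, y1, y2⟩ := ih
    have s0 := Wstep t 0
    have s1 := Wstep t 1
    have s2 := Wstep t 2
    have s3 := Wstep t 3
    simp only [zero_add, mul_one, mul_zero, W, List.nil_append, b1] at s0
    simp only [Nat.reduceAdd, mul_one, b2, b3, b4] at s1 s2 s3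
    have e2 : W (4 ^ t - 1) ++ [1, 2, 2] = y ++ [2, 2] := by
      have : W (4 ^ t - 1) ++ [1, 2, 2] = W (4 ^ t - 1) ++ [1, 2] ++ [2] := by simp
      rw [this, ← s0, y2]; simp
    rw [s2, s1, e2, ← s0, y2, ← pow_succ] at s3
    refine ⟨?_, y ++ [2] ++ y ++ [2, 2] ++ y ++ [2] ++ y, by simp [y1], by simp [s3]⟩
    rw [h _ (by omega), e, y2, s3]; simp [y1]

def P (n : ℕ) : ℕ := (W n).length

theorem Ps (n : ℕ) : P (n + 1) = P n + if g (n + 1) then 3 else 2 := by
  simp only [P, W, blk, List.length_append]; split_ifs <;> rfl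

theorem P4 (n : ℕ) : P (4 * n) = P n + 7 * n := by
  induction n with
  | zero => rfl
  | succ n ih =>
    have e : g (4 * n + 3 + 1) = g (n + 1) := by rw [← g4 (n + 1)]; rfl
    rw [show 4 * (n + 1) = 4 * n + 3 + 1 by ring, Ps, e, Ps, Ps, Ps, Ps n, ih,
      gm (4 * n + 1) (by omega), gm (4 * n + 1 + 1) (by omega), gm (4 * n + 2 + 1) (by omega)]
    have a1 : ¬ (4 * n + 1) % 4 = 2 := by omega
    have a2 : (4 * n + 1 + 1) % 4 = 2 := by omega
    have a3 : ¬ (4 * n + 2 + 1) % 4 = 2 := by omega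
    simp only [a1, a2, a3, decide_true, decide_false]
    simp; ring

theorem P42 (n : ℕ) : P (4 * n + 2) = P n + 7 * n + 5 := by
  rw [Ps, Ps, P4, gm (4 * n + 1) (by omega), gm (4 * n + 1 + 1) (by omega)]
  have a1 : ¬ (4 * n + 1) % 4 = 2 := by omega
  have a2 : (4 * n + 1 + 1) % 4 = 2 := by omega
  simp [a1, a2]

def w : ℕ → ℕ
  | 0 => 0
  | m + 1 => 64 * w m + 14

theorem Pw (t m : ℕ) : P (4 ^ t * (3 * w m)) = 7 * w m * 4 ^ t + m := by
  induction t with
  | zero =>
    simp only [pow_zero, one_mul, mul_one]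
    induction m with
    | zero => rfl
    | succ m ih =>
      rw [show 3 * w (m + 1) = 4 * (4 * (4 * (3 * w m) + 2) + 2) + 2 by rw [w]; ring,
        P42, P42, P42, ih, w]; ring
  | succ t ih => rw [pow_succ', mul_assoc, P4, ih]; ring

theorem Pb (n : ℕ) : 2 * n ≤ P n ∧ P n ≤ 3 * n := by
  induction n with
  | zero => simp [P, W]
  | succ n ih => rw [Ps]; split_ifs <;> omega

theorem Wpre (n d : ℕ) : ∃ z, W (n + d) = W n ++ z := by
  induction d with
  | zero => exact ⟨[], by simp⟩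
  | succ d ih => obtain ⟨z, hz⟩ := ih; exact ⟨z ++ blk (n + d + 1), by rw [← add_assoc, W, hz]; simp⟩

theorem noper (a : ℕ → ℕ) (ha : ∀ n r, r < P n → some (a r) = (W n)[r]?) (p R : ℕ) (hp : 0 < p)
    (hR : 7 * p ≤ R) : ¬ ∀ s < R, a (s + p) = a s := by
  intro h
  have v : ∀ i s, s < (blk (i + 1)).length → some (a (P i + s)) = (blk (i + 1))[s]? := by
    intro i s hs
    rw [ha (i + 1) _ (by simp only [P, W, List.length_append]; omega), W,
      List.getElem?_append_right (by simp [P])]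
    simp [P]
  have v0 : ∀ i, a (P i) = 1 := fun i => by
    have := v i 0 (by unfold blk; split_ifs <;> simp)
    unfold blk at this; split_ifs at this <;> simpa using this
  have v2 : ∀ i, g (i + 1) = decide (a (P i + 2) = 2) := fun i => by
    cases e : g (i + 1)
    · have := v0 (i + 1)
      rw [Ps, e] at this
      simp at this; simp [this]
    · have := v i 2 (by simp [blk, e])
      simp [blk, e] at this; simp [this]
  have fd : ∀ r, ∃ i, P i ≤ r ∧ r < P (i + 1) := fun r => by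
    induction r with
    | zero => exact ⟨0, le_rfl, by have := Pb (0 + 1); omega⟩
    | succ r ih =>
      obtain ⟨i, a1, a2⟩ := ih
      by_cases e : r + 1 < P (i + 1)
      · exact ⟨i, by omega, e⟩
      · exact ⟨i + 1, by omega, by rw [Ps (i + 1)]; split_ifs <;> omega⟩
  obtain ⟨q, q1, q2⟩ := fd p
  have hq : P q = p := by
    by_contra hne
    obtain ⟨s, rfl⟩ := Nat.exists_eq_add_of_le q1
    have a1 := h 0 (by omega)
    have a2 : a 0 = 1 := v0 0
    have a3 := v q s (by simp only [P, W, List.length_append] at q2 ⊢; omega)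
    rw [zero_add, a2] at a1
    rw [a1] at a3
    rw [Ps] at q2
    unfold blk at a3
    have : s = 1 ∨ s = 2 := by split_ifs at q2 <;> omega
    rcases this with rfl | rfl <;> split_ifs at a3 <;> simp at a3
  have q0 : 0 < q := by
    rcases Nat.eq_zero_or_pos q with rfl | e
    · simp [P, W] at hq; omega
    · exact e
  have q3 := Pb q
  have st : ∀ i, i < 4 * q → P (i + q) = P i + p → g (i + q + 1) = g (i + 1) := fun i hi e => by
    have := Pb i
    rw [v2, v2, e, add_right_comm, h _ (by omega)]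
  have al : ∀ i, i ≤ 4 * q → P (i + q) = P i + p := fun i hi => by
    induction i with
    | zero => simp [hq, P, W] ; exact hq
    | succ i ih =>
      rw [add_right_comm, Ps, Ps, st i (by omega) (ih (by omega)), ih (by omega)]; ring
  have per : ∀ i, 0 < i → i ≤ 4 * q → g (i + q) = g i := fun i h0 hi => by
    obtain ⟨j, rfl⟩ : ∃ j, i = j + 1 := ⟨i - 1, by omega⟩
    rw [add_right_comm]; exact st j (by omega) (al j (by omega))
  obtain ⟨c, q', hq', rfl⟩ := Nat.exists_eq_pow_mul_and_not_dvd q0.ne' 4 (by norm_num)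
  have c0 : 0 < 4 ^ c := by positivity
  have q'0 : 0 < q' := Nat.pos_of_mul_pos_left q0
  by_cases e : q' % 2 = 1
  · have := per (4 ^ c * 2) (by omega) (by nlinarith)
    rw [← mul_add, gp, gp, gm _ (by omega), gm _ (by omega)] at this
    simp at this; omega
  · have := per (4 ^ c * 4) (by omega) (by nlinarith)
    rw [← mul_add, gp, gp, gm _ (by omega), show 4 = 4 * 1 from rfl, g4, gm 1 (by omega)] at this
    simp at this; omega

theorem close (k : ℕ) (hk : 2 ≤ k) (D T : ℕ) :
    ∃ e t z, T ≤ k ^ e ∧ 4 ^ t = k ^ e + z ∧ D * z ≤ k ^ e := by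
  by_cases hp : ∃ τ, k = 2 ^ τ
  · obtain ⟨τ, hτ⟩ := hp
    refine ⟨2 * T, τ * T, 0, ?_, ?_, by simp⟩
    · have := Nat.lt_pow_self (n := 2 * T) (show 1 < k by omega); omega
    · rw [hτ, ← pow_mul, show 4 = 2 ^ 2 from rfl, ← pow_mul]; ring
  · push Not at hp
    obtain ⟨e, M, he, a, b⟩ := Kron.pow_hit k hk hp 1 (1 + 1 / (2 * D + 2)) le_rfl
      (by have : (0 : ℝ) < 1 / (2 * D + 2) := by positivity
          linarith) T
    have a' : k ^ e < 2 ^ M := by rw [mul_one] at a; exact_mod_cast a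
    obtain ⟨y, hy⟩ := Nat.exists_eq_add_of_le a'.le
    have b' : (2 * D + 2) * y < k ^ e := by
      have e1 : (2 : ℝ) ^ M = k ^ e + y := by exact_mod_cast hy
      rw [e1, mul_add, mul_one, add_lt_add_iff_left, mul_one_div,
        lt_div_iff₀ (by positivity)] at b
      rw [mul_comm]; exact_mod_cast b
    have := Nat.lt_pow_self (n := e) (show 1 < k by omega)
    refine ⟨e * 2, M, 2 * k ^ e * y + y * y, by rw [pow_mul]; nlinarith, ?_, ?_⟩
    · rw [show 4 = 2 * 2 from rfl, mul_pow, hy, pow_mul]; ring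
    · rw [pow_mul]
      have h1 : D * y ≤ k ^ e := by nlinarith
      have h2 : k ^ e * ((2 * D + 2) * y) ≤ k ^ e * k ^ e := Nat.mul_le_mul_left _ b'.le
      nlinarith

theorem final (x : ℕ → List ℕ) (h1 : x 1 = [1, 2])
    (h : ∀ n, 1 ≤ n → x (n + 1) = x n ++ x n ++ (x n).reverse ++ (x n).reverse ++ [2])
    (a : ℕ → ℕ) (ha : ∀ n i, 1 ≤ n → i < (x n).length → (x n)[i]? = some (a i))
    (k : ℕ) (hk : 2 ≤ k) :
    ¬ {v : ℕ → ℕ | ∃ e j, j < k ^ e ∧ v = fun n => a (k ^ e * n + j)}.Finite := by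
  intro hf
  have hW : ∀ n r, r < P n → some (a r) = (W n)[r]? := fun n r hr => by
    have l : n < 4 ^ n := Nat.lt_pow_self (by norm_num)
    obtain ⟨d, hd⟩ := Nat.exists_eq_add_of_le l.le
    obtain ⟨z, hz⟩ := Wpre n d
    have e := (xW x h1 h n).1
    rw [hd, hz] at e
    rw [← ha (n + 1) r (by omega) (by rw [e]; simp only [P, List.length_append] at hr ⊢; omega), e,
      List.getElem?_append_left hr]
  have ss : ∀ t j r, r < 4 ^ t → 1 ≤ t → a (P (4 ^ t * j) + r) = a r := fun t j r hr ht => by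
    have l : t < 4 ^ t := Nat.lt_pow_self (by norm_num)
    have b := Pb (4 ^ t - 1)
    have e := Wadd t j (4 ^ t - 1) (by omega)
    have := hW (4 ^ t * j + (4 ^ t - 1)) (P (4 ^ t * j) + r) (by
      simp only [P, e, List.length_append] at b ⊢; omega)
    rw [e, List.getElem?_append_right (by simp [P]), show P (4 ^ t * j) + r -
      (W (4 ^ t * j)).length = r by simp [P], ← hW _ _ (by omega)] at this
    exact Option.some.inj this
  have r12 : ∀ r, a r ∈ ({1, 2} : Set ℕ) := fun r => by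
    have b := Pb (r + 1)
    have e := hW (r + 1) r (by omega)
    have : ∀ n, ∀ c ∈ W n, c ∈ ({1, 2} : Set ℕ) := fun n => by
      induction n with
      | zero => simp [W]
      | succ n ih =>
        intro c hc
        rcases List.mem_append.1 hc with hc | hc
        · exact ih c hc
        · unfold blk at hc; split_ifs at hc <;> simpa using hc
    exact this _ _ (List.mem_of_getElem? e.symm)
  haveI := hf.to_subtype
  obtain ⟨m, m', hlt, he⟩ := Set.Finite.exists_lt_map_eq_of_forall_mem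
    (f := fun m : ℕ => fun κ : {v : ℕ → ℕ | ∃ e j, j < k ^ e ∧ v = fun n => a (k ^ e * n + j)} =>
      κ.1 (7 * w m)) (t := Set.pi Set.univ fun _ => ({1, 2} : Set ℕ))
    (fun m κ _ => by obtain ⟨_, e, j, _, rfl⟩ := κ; exact r12 _)
    (Set.Finite.pi fun _ => Set.toFinite _)
  have wm : w m ≤ w m' := (monotone_nat_of_le_succ fun n => by rw [w]; omega) hlt.le
  obtain ⟨e, t, z, z1, z2, z3⟩ := close k hk (200 * w m') (20 * m' + 2)
  have t1 : 1 ≤ t := by
    rcases Nat.eq_zero_or_pos t with rfl | e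
    · simp at z2; omega
    · exact e
  obtain ⟨b, hb⟩ : ∃ b, b = 7 * w m * z + m := ⟨_, rfl⟩
  obtain ⟨p, hp⟩ : ∃ p, 7 * w m' * z + m' = b + p := ⟨7 * w m' * z + m' - b, by
    have : w m * z ≤ w m' * z := Nat.mul_le_mul_right _ wm
    have : b ≤ 7 * w m' * z + m' := by nlinarith
    omega⟩
  have p0 : 0 < p := by
    have : w m * z ≤ w m' * z := Nat.mul_le_mul_right _ wm
    nlinarith
  have p1 : 8 * (b + p) ≤ k ^ e := by nlinarith
  refine noper a hW p (7 * p) p0 le_rfl fun s hs => ?_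
  have := congrFun he ⟨_, e, s + b + p, by omega, rfl⟩
  simp only at this
  rw [← ss t (3 * w m) (s + p) (by omega) t1, ← ss t (3 * w m') s (by omega) t1, Pw, Pw]
  convert this using 2
  · rw [z2, hb]; ring
  · rw [z2, add_assoc s, ← hp]; ring

end Pool.Agent.H17.Fix12
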