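import Mathlib

set_option autoImplicit false

namespace Pool.Agent.H17.HD

open Finset

/-- quadratic form of a sequence against a test function -/
def Qf (φ : ℤ → ℤ) (n : ℕ) (a : ℕ → ℤ) : ℤ :=
  ∑ i ∈ range n, ∑ j ∈ range n, a i * a j * φ ((i : ℤ) - (j : ℤ))

def cat (g : ℕ) (a c : ℕ → ℤ) : ℕ → ℤ := fun i => if i < g then a i else c (i - g)

lemma cat_lt {g : ℕ} (a c : ℕ → ℤ) {i : ℕ} (h : i ∈ range g) : cat g a c i = a i := by
  simp [cat, mem_range.1 h]

lemma cat_ge (g : ℕ) (a c : ℕ → ℤ) (i : ℕ) : cat g a c (g + i) = c i := by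
  simp [cat]

lemma Qf_cat (φ : ℤ → ℤ) (g h : ℕ) (a c : ℕ → ℤ) :
    Qf φ (g + h) (cat g a c) = Qf φ g a + Qf φ h c +
      (∑ i ∈ range g, ∑ j ∈ range h, a i * c j * φ ((i : ℤ) - ((g + j : ℕ) : ℤ)) +
       ∑ i ∈ range h, ∑ j ∈ range g, c i * a j * φ (((g + i : ℕ) : ℤ) - (j : ℤ))) := by
  unfold Qf
  simp only [sum_range_add, sum_add_distrib, cat_ge]
  have e1 : ∑ i ∈ range g, ∑ j ∈ range g, cat g a c i * cat g a c j * φ ((i : ℤ) - (j : ℤ)) =
      ∑ i ∈ range g, ∑ j ∈ range g, a i * a j * φ ((i : ℤ) - (j : ℤ)) :=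
    sum_congr rfl fun i hi => sum_congr rfl fun j hj => by rw [cat_lt a c hi, cat_lt a c hj]
  have e2 : ∑ i ∈ range g, ∑ j ∈ range h, cat g a c i * c j * φ ((i : ℤ) - ((g + j : ℕ) : ℤ)) =
      ∑ i ∈ range g, ∑ j ∈ range h, a i * c j * φ ((i : ℤ) - ((g + j : ℕ) : ℤ)) :=
    sum_congr rfl fun i hi => sum_congr rfl fun j _ => by rw [cat_lt a c hi]
  have e3 : ∑ i ∈ range h, ∑ j ∈ range g, c i * cat g a c j * φ (((g + i : ℕ) : ℤ) - (j : ℤ)) =
      ∑ i ∈ range h, ∑ j ∈ range g, c i * a j * φ (((g + i : ℕ) : ℤ) - (j : ℤ)) :=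
    sum_congr rfl fun i _ => sum_congr rfl fun j hj => by rw [cat_lt a c hj]
  have e4 : ∑ i ∈ range h, ∑ j ∈ range h, c i * c j * φ (((g + i : ℕ) : ℤ) - ((g + j : ℕ) : ℤ)) =
      ∑ i ∈ range h, ∑ j ∈ range h, c i * c j * φ ((i : ℤ) - (j : ℤ)) :=
    sum_congr rfl fun i _ => sum_congr rfl fun j _ => by
      congr 2; push_cast; ring
  rw [e1, e2, e3, e4]; ring

lemma Qf_neg (φ : ℤ → ℤ) (n : ℕ) (a : ℕ → ℤ) : Qf φ n (fun i => - a i) = Qf φ n a := by
  unfold Qf; simp

lemma Qf_cat2 (φ : ℤ → ℤ) (g h : ℕ) (a c : ℕ → ℤ) :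
    Qf φ (g + h) (cat g a c) + Qf φ (g + h) (cat g a (fun i => - c i)) =
      2 * Qf φ g a + 2 * Qf φ h c := by
  rw [Qf_cat, Qf_cat, Qf_neg]
  simp only [mul_neg, neg_mul, sum_neg_distrib]
  ring

def PM (a : ℕ → ℤ) : Prop := ∀ i, a i = 1 ∨ a i = -1

lemma PM.neg {a : ℕ → ℤ} (h : PM a) : PM (fun i => - a i) := fun i => by
  rcases h i with h | h <;> simp [h]

lemma PM.cat {a c : ℕ → ℤ} (g : ℕ) (h : PM a) (h' : PM c) : PM (cat g a c) := fun i => by
  unfold HD.cat; split_ifs
  · exact h i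
  · exact h' _

def Golay (g : ℕ) : Prop :=
  ∃ a b : ℕ → ℤ, PM a ∧ PM b ∧ ∀ φ : ℤ → ℤ, Qf φ g a + Qf φ g b = 2 * g * φ 0

lemma golay_double {g : ℕ} (h : Golay g) : Golay (2 * g) := by
  obtain ⟨a, b, ha, hb, hq⟩ := h
  refine ⟨cat g a b, cat g a (fun i => - b i), ha.cat g hb, ha.cat g hb.neg, fun φ => ?_⟩
  rw [two_mul g, Qf_cat2]
  have := hq φ
  push_cast
  linear_combination 2 * this

lemma golay_of_check (g : ℕ) (a b : ℕ → ℤ) (ha : PM a) (hb : PM b)
    (h : ∀ d ∈ range (2 * g + 1), (∑ i ∈ range g, ∑ j ∈ range g,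
      if i + g = j + d then a i * a j + b i * b j else 0) = if d = g then 2 * (g : ℤ) else 0) :
    Golay g := by
  refine ⟨a, b, ha, hb, fun φ => ?_⟩
  have key : Qf φ g a + Qf φ g b = ∑ d ∈ range (2 * g + 1), (∑ i ∈ range g, ∑ j ∈ range g,
      if i + g = j + d then a i * a j + b i * b j else 0) * φ ((d : ℤ) - g) := by
    unfold Qf
    simp only [sum_mul, ← sum_add_distrib]
    rw [sum_comm (s := range (2 * g + 1))]
    refine sum_congr rfl fun i hi => ?_
    rw [sum_comm (s := range (2 * g + 1))]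
    refine sum_congr rfl fun j hj => ?_
    have hi' := mem_range.1 hi
    have hj' := mem_range.1 hj
    rw [sum_eq_single (i + g - j)]
    · rw [if_pos (by omega)]
      have : ((i + g - j : ℕ) : ℤ) - g = (i : ℤ) - j := by omega
      rw [this]; ring
    · intro d _ hd
      rw [if_neg (by omega)]; simp
    · intro hn
      exact absurd (mem_range.2 (by omega)) hn
  rw [key, sum_congr rfl (fun d hd => by rw [h d hd])]
  rw [sum_eq_single g]
  · simp
  · intro d _ hd
    simp [hd]
  · intro hn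
    exact absurd (mem_range.2 (by omega)) hn

def ofL (l : List Bool) : ℕ → ℤ := fun i => if l.getD i true then 1 else -1

lemma pm_ofL (l : List Bool) : PM (ofL l) := fun i => by
  unfold ofL; split_ifs <;> simp

lemma golay0 : Golay 0 := golay_of_check 0 (ofL []) (ofL []) (pm_ofL _) (pm_ofL _) (by decide)

lemma golay1 : Golay 1 := golay_of_check 1 (ofL []) (ofL []) (pm_ofL _) (pm_ofL _) (by decide)

lemma golay10 : Golay 10 := golay_of_check 10
  (ofL [true, true, false, true, false, true, false, false, true, true])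
  (ofL [true, true, false, true, true, true, true, true, false, false])
  (pm_ofL _) (pm_ofL _) (by decide +kernel)

lemma golay26 : Golay 26 := golay_of_check 26
  (ofL [true, true, true, true, false, true, true, false, false, true, false, true, false, true,
    false, false, true, false, true, true, true, false, false, true, true, true])
  (ofL [true, true, true, true, false, true, true, false, false, true, false, true, true, true,
    true, true, false, true, false, false, false, true, true, false, false, false])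
  (pm_ofL _) (pm_ofL _) (by decide +kernel)

/-- four complementary sequences with constant product -/
def Quad (N : ℕ) : Prop :=
  ∃ X : Bool → Bool → ℕ → ℤ, (∀ e e', PM (X e e')) ∧
    (∀ i, X false false i * X false true i * X true false i * X true true i = -1) ∧
    ∀ φ : ℤ → ℤ, ∑ e, ∑ e', Qf φ N (X e e') = 4 * N * φ 0

lemma quad_of_golay {g h : ℕ} (hg : Golay g) (hh : Golay h) : Quad (g + h) := by
  obtain ⟨a, b, ha, hb, hq⟩ := hg
  obtain ⟨c, d, hc, hd, hq'⟩ := hh
  refine ⟨fun e e' => if e then (if e' then (fun i => - cat g b (fun i => - d i) i) else cat g b d)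
    else (if e' then cat g a (fun i => - c i) else cat g a c), ?_, ?_, ?_⟩
  · intro e e'
    cases e <;> cases e' <;> simp
    · exact ha.cat g hc
    · exact ha.cat g hc.neg
    · exact hb.cat g hd
    · exact (hb.cat g hd.neg).neg
  · intro i
    simp only [cat, if_true, Bool.false_eq_true, if_false]
    split_ifs
    · rcases ha i with h1 | h1 <;> rcases hb i with h2 | h2 <;> simp [h1, h2]
    · rcases hc (i - g) with h1 | h1 <;> rcases hd (i - g) with h2 | h2 <;> simp [h1, h2]
  · intro φ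
    simp only [Fintype.sum_bool, if_true, Bool.false_eq_true, if_false, Qf_neg]
    have h1 := Qf_cat2 φ g h a c
    have h2 := Qf_cat2 φ g h b d
    have h3 := hq φ
    have h4 := hq' φ
    push_cast
    linear_combination h1 + h2 + 2 * h3 + 2 * h4

end Pool.Agent.H17.HD
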