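import Pool.Agent.H17.HD1

set_option autoImplicit false

namespace Pool.Agent.H17.HD

open Finset

/-- an array with `2N` mutually orthogonal rows, `N` columns of 4-segments with product `-1` -/
def TArr (N : ℕ) : Prop :=
  ∃ U : ℕ → ℕ → Bool → Bool → ℤ, (∀ r h e e', U r h e e' = 1 ∨ U r h e e' = -1) ∧
    (∀ r h, U r h false false * U r h false true * U r h true false * U r h true true = -1) ∧
    ∀ r r', r < 2 * N → r' < 2 * N → r ≠ r' →
      ∑ h ∈ range N, ∑ e, ∑ e', U r h e e' * U r' h e e' = 0

lemma sum_zmod (N : ℕ) [NeZero N] (F : ZMod N → ℤ) :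
    ∑ i ∈ range N, F (i : ZMod N) = ∑ z, F z := by
  refine sum_nbij' (fun i => (i : ZMod N)) (fun z => z.val) ?_ ?_ ?_ ?_ ?_
  · intro i _; simp
  · intro z _; simpa using ZMod.val_lt z
  · intro i hi; exact ZMod.val_cast_of_lt (mem_range.1 hi)
  · intro z _; simp
  · intro i _; rfl

lemma paf (N : ℕ) [NeZero N] (x : ℕ → ℤ) (d : ZMod N) :
    Qf (fun z => if (z : ZMod N) = d then 1 else 0) N x =
      ∑ z : ZMod N, x (z + d).val * x z.val := by
  unfold Qf
  have h1 : ∀ i ∈ range N, ∑ j ∈ range N,
      x i * x j * (if (((i : ℤ) - (j : ℤ) : ℤ) : ZMod N) = d then 1 else 0) =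
      (fun u : ZMod N => ∑ w : ZMod N, x u.val * x w.val * (if u - w = d then 1 else 0))
        (i : ZMod N) := by
    intro i hi
    dsimp only
    rw [← sum_zmod N]
    refine sum_congr rfl fun j hj => ?_
    rw [ZMod.val_cast_of_lt (mem_range.1 hi), ZMod.val_cast_of_lt (mem_range.1 hj)]
    push_cast
    rfl
  rw [sum_congr rfl h1, sum_zmod N (fun u : ZMod N => ∑ w : ZMod N,
    x u.val * x w.val * (if u - w = d then 1 else 0)), sum_comm]
  refine sum_congr rfl fun w _ => ?_
  rw [sum_eq_single (w + d)]
  · simp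
  · intro u _ hu
    rw [if_neg]
    · simp
    · intro h; apply hu; rw [← h]; ring
  · simp

lemma tarr_of_quad {N : ℕ} (hN : 0 < N) (hq : Quad N) : TArr N := by
  have : NeZero N := ⟨hN.ne'⟩
  obtain ⟨X, hpm, hprod, hq⟩ := hq
  have hp : ∀ d : ZMod N, d ≠ 0 →
      ∑ z : ZMod N, ∑ e, ∑ e', X e e' (z + d).val * X e e' z.val = 0 := by
    intro d hd
    have := hq (fun z => if (z : ZMod N) = d then 1 else 0)
    simp only [paf] at this
    rw [if_neg (by simpa using hd.symm), mul_zero] at this
    rw [← this, sum_comm]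
    refine sum_congr rfl fun e _ => ?_
    rw [sum_comm]
  have hinj : ∀ r r' : ℕ, (r : ZMod N) = (r' : ZMod N) → r < r' → r + N ≤ r' := by
    intro r r' h hlt
    have h1 := (ZMod.natCast_eq_natCast_iff r r' N).1 h
    have h2 := (Nat.modEq_iff_dvd' hlt.le).1 h1
    have := Nat.le_of_dvd (by omega) h2
    omega
  -- cross terms
  have hcross : ∀ g g' : ZMod N, ∑ z : ZMod N, ∑ e, ∑ e',
      X e e' (z - g).val * ((if e' then -1 else 1) * X e (!e') (g' - z).val) = 0 := by
    intro g g'
    rw [sum_comm]
    refine sum_eq_zero fun e _ => ?_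
    simp only [Fintype.sum_bool, if_true, Bool.false_eq_true, if_false, Bool.not_true,
      Bool.not_false, sum_add_distrib]
    have := Equiv.sum_comp (Equiv.subLeft (g + g'))
      (fun z : ZMod N => X e false (z - g).val * (1 * X e true (g' - z).val))
    rw [← this, ← sum_add_distrib]
    refine sum_eq_zero fun z _ => ?_
    simp only [Equiv.subLeft_apply]
    rw [show g + g' - z - g = g' - z by ring, show g' - (g + g' - z) = z - g by ring]
    ring
  refine ⟨fun r h e e' => if r < N then X e e' ((h : ZMod N) - (r : ZMod N)).val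
    else (if e' then -1 else 1) * X e (!e') ((r : ZMod N) - (h : ZMod N)).val, ?_, ?_, ?_⟩
  · intro r h e e'
    dsimp only
    split_ifs
    · exact hpm _ _ _
    · rcases hpm e (!e') ((r : ZMod N) - (h : ZMod N)).val with h | h <;> simp [h]
    · rcases hpm e (!e') ((r : ZMod N) - (h : ZMod N)).val with h | h <;> simp [h]
  · intro r h
    dsimp only
    by_cases hr : r < N
    · simp only [if_pos hr]; exact hprod _
    · simp only [if_neg hr, if_true, Bool.false_eq_true, if_false, Bool.not_true, Bool.not_false]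
      have := hprod ((r : ZMod N) - (h : ZMod N)).val
      linear_combination this
  · intro r r' hr hr' hne
    dsimp only
    have hne' : (r < N ↔ r' < N) → (r : ZMod N) ≠ (r' : ZMod N) := by
      intro hiff h
      rcases lt_or_gt_of_ne hne with hlt | hlt
      · have := hinj r r' h hlt; omega
      · have := hinj r' r h.symm hlt; omega
    by_cases h1 : r < N <;> by_cases h2 : r' < N
    · simp only [if_pos h1, if_pos h2]
      rw [sum_zmod N (fun z => ∑ e, ∑ e', X e e' (z - (r : ZMod N)).val *
        X e e' (z - (r' : ZMod N)).val)]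
      have := hp ((r' : ZMod N) - (r : ZMod N))
        (sub_ne_zero.2 (hne' (by simp [h1, h2])).symm)
      rw [← this, ← Equiv.sum_comp (Equiv.addRight (r' : ZMod N))]
      refine sum_congr rfl fun z _ => ?_
      simp only [Equiv.coe_addRight]
      rw [show z + (r' : ZMod N) - r = z + (r' - r) by ring, show z + (r' : ZMod N) - r' = z by ring]
    · simp only [if_pos h1, if_neg h2]
      rw [sum_zmod N (fun z => ∑ e, ∑ e', X e e' (z - (r : ZMod N)).val *
        ((if e' then -1 else 1) * X e (!e') ((r' : ZMod N) - z).val))]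
      exact hcross _ _
    · simp only [if_neg h1, if_pos h2]
      rw [sum_zmod N (fun z => ∑ e, ∑ e',
        ((if e' then -1 else 1) * X e (!e') ((r : ZMod N) - z).val) *
        X e e' (z - (r' : ZMod N)).val)]
      rw [← hcross (r' : ZMod N) (r : ZMod N)]
      refine sum_congr rfl fun z _ => sum_congr rfl fun e _ => sum_congr rfl fun e' _ => ?_
      ring
    · simp only [if_neg h1, if_neg h2]
      rw [sum_zmod N (fun z => ∑ e, ∑ e',
        ((if e' then -1 else 1) * X e (!e') ((r : ZMod N) - z).val) *
        ((if e' then -1 else 1) * X e (!e') ((r' : ZMod N) - z).val))]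
      have := hp ((r : ZMod N) - (r' : ZMod N)) (sub_ne_zero.2 (hne' (by simp [h1, h2])))
      rw [← this, ← Equiv.sum_comp (Equiv.subLeft (r' : ZMod N))]
      refine sum_congr rfl fun z _ => sum_congr rfl fun e _ => ?_
      simp only [Equiv.subLeft_apply, Fintype.sum_bool, if_true, Bool.false_eq_true, if_false,
        Bool.not_true, Bool.not_false]
      rw [show (r : ZMod N) - (r' - z) = z + (r - r') by ring,
        show (r' : ZMod N) - (r' - z) = z by ring]
      ring

end Pool.Agent.H17.HD
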