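import Pool.Agent.H17.HD2

set_option autoImplicit false

namespace Pool.Agent.H17.HD

open Finset

def Had4 (V : Type) [Fintype V] : Prop :=
  ∃ H : V → V → V → V → ℤ, (∀ a b c d, H a b c d = 1 ∨ H a b c d = -1) ∧
    (∀ x x', x ≠ x' → ∑ b, ∑ c, ∑ d, H x b c d * H x' b c d = 0) ∧
    (∀ x x', x ≠ x' → ∑ a, ∑ c, ∑ d, H a x c d * H a x' c d = 0) ∧
    (∀ x x', x ≠ x' → ∑ a, ∑ b, ∑ d, H a b x d * H a b x' d = 0) ∧
    (∀ x x', x ≠ x' → ∑ a, ∑ b, ∑ c, H a b c x * H a b c x' = 0)

lemma seg (u : Bool → Bool → ℤ) (hpm : ∀ e e', u e e' = 1 ∨ u e e' = -1)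
    (hp : u false false * u false true * u true false * u true true = -1) (e e' : Bool)
    (h : e ≠ e') : ∑ f, u e f * u e' f = 0 ∧ ∑ f, u f e * u f e' = 0 := by
  simp only [Fintype.sum_bool]
  rcases hpm false false with h1 | h1 <;> rcases hpm false true with h2 | h2 <;>
    rcases hpm true false with h3 | h3 <;> rcases hpm true true with h4 | h4 <;>
    cases e <;> cases e' <;> simp_all

lemma had4_of_cls (Y : Type) [Fintype Y] (cls : Y → Y → ℕ) (w : ℕ → Y → Y → Bool → Bool → ℤ)
    (hrow : ∀ a a' y, cls a y = cls a' y → a = a')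
    (hcol : ∀ y a a', cls y a = cls y a' → a = a')
    (hpm : ∀ r y y' e e', w r y y' e e' = 1 ∨ w r y y' e e' = -1)
    (hprod : ∀ r y y', w r y y' false false * w r y y' false true * w r y y' true false *
      w r y y' true true = -1)
    (horth : ∀ y1 y2 y1' y2', cls y1 y2 ≠ cls y1' y2' → ∀ φ : ℕ → ℤ,
      ∑ y3, ∑ y4, (∑ e, ∑ e', w (cls y1 y2) y3 y4 e e' * w (cls y1' y2') y3 y4 e e') *
        φ (cls y3 y4) = 0) :
    Had4 (Y × Bool) := by
  set H : Y × Bool → Y × Bool → Y × Bool → Y × Bool → ℤ := fun a b c d =>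
    w (cls a.1 b.1) c.1 d.1 c.2 d.2 * w (cls c.1 d.1) a.1 b.1 a.2 b.2 with hH
  have hsym : ∀ a b c d, H a b c d = H c d a b := fun a b c d => by simp only [hH]; ring
  have hsq : ∀ r y y' e e', w r y y' e e' * w r y y' e e' = 1 := fun r y y' e e' => by
    rcases hpm r y y' e e' with h | h <;> simp [h]
  have key : ∀ a b a' b' : Y × Bool, cls a.1 b.1 ≠ cls a'.1 b'.1 →
      ∑ c, ∑ d, H a b c d * H a' b' c d = 0 := by
    intro a b a' b' h
    have := horth _ _ _ _ h (fun g => w g a.1 b.1 a.2 b.2 * w g a'.1 b'.1 a'.2 b'.2)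
    rw [← this]
    simp only [Fintype.sum_prod_type, sum_mul]
    refine sum_congr rfl fun y3 _ => ?_
    rw [sum_comm]
    refine sum_congr rfl fun y4 _ => sum_congr rfl fun e _ => sum_congr rfl fun e' _ => ?_
    simp only [hH]; ring
  have d1 : ∀ x x', x ≠ x' → ∑ b, ∑ c, ∑ d, H x b c d * H x' b c d = 0 := by
    rintro ⟨y, e⟩ ⟨y', e'⟩ hne
    by_cases hy : y = y'
    · subst hy
      have he : e ≠ e' := fun h => hne (by rw [h])
      rw [Fintype.sum_prod_type]
      refine sum_eq_zero fun y2 _ => ?_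
      rw [sum_comm]
      refine sum_eq_zero fun c _ => ?_
      rw [sum_comm]
      refine sum_eq_zero fun d _ => ?_
      rw [← (seg (w (cls c.1 d.1) y y2) (hpm _ _ _) (hprod _ _ _) e e' he).1]
      refine sum_congr rfl fun f _ => ?_
      simp only [hH]
      linear_combination (w (cls c.1 d.1) y y2 e f * w (cls c.1 d.1) y y2 e' f) *
        hsq (cls y y2) c.1 d.1 c.2 d.2
    · exact sum_eq_zero fun b _ => key _ _ _ _ fun h => hy (hrow _ _ _ h)
  have d2 : ∀ x x', x ≠ x' → ∑ a, ∑ c, ∑ d, H a x c d * H a x' c d = 0 := by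
    rintro ⟨y, e⟩ ⟨y', e'⟩ hne
    by_cases hy : y = y'
    · subst hy
      have he : e ≠ e' := fun h => hne (by rw [h])
      rw [Fintype.sum_prod_type]
      refine sum_eq_zero fun y2 _ => ?_
      rw [sum_comm]
      refine sum_eq_zero fun c _ => ?_
      rw [sum_comm]
      refine sum_eq_zero fun d _ => ?_
      rw [← (seg (w (cls c.1 d.1) y2 y) (hpm _ _ _) (hprod _ _ _) e e' he).2]
      refine sum_congr rfl fun f _ => ?_
      simp only [hH]
      linear_combination (w (cls c.1 d.1) y2 y f e * w (cls c.1 d.1) y2 y f e') *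
        hsq (cls y2 y) c.1 d.1 c.2 d.2
    · exact sum_eq_zero fun b _ => key _ _ _ _ fun h => hy (hcol _ _ _ h)
  refine ⟨H, ?_, d1, d2, ?_, ?_⟩
  · intro a b c d
    simp only [hH]
    rcases hpm (cls a.1 b.1) c.1 d.1 c.2 d.2 with h1 | h1 <;>
      rcases hpm (cls c.1 d.1) a.1 b.1 a.2 b.2 with h2 | h2 <;> simp [h1, h2]
  · intro x x' hne
    rw [← d1 x x' hne]
    symm
    rw [sum_comm]
    refine sum_congr rfl fun a _ => ?_
    rw [sum_comm]
    refine sum_congr rfl fun b _ => sum_congr rfl fun d _ => ?_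
    rw [hsym a b x d, hsym a b x' d]
  · intro x x' hne
    rw [← d2 x x' hne]
    symm
    rw [sum_comm]
    refine sum_congr rfl fun a _ => ?_
    rw [sum_comm]
    refine sum_congr rfl fun b _ => sum_congr rfl fun c _ => ?_
    rw [hsym a b c x, hsym a b c x']

lemma had4_equiv {V W : Type} [Fintype V] [Fintype W] (e : W ≃ V) (h : Had4 V) : Had4 W := by
  obtain ⟨H, h0, h1, h2, h3, h4⟩ := h
  have S : ∀ F : V → V → V → ℤ, ∑ a : W, ∑ b : W, ∑ c : W, F (e a) (e b) (e c) =
      ∑ a, ∑ b, ∑ c, F a b c := by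
    intro F
    rw [← Equiv.sum_comp e]
    refine sum_congr rfl fun a _ => ?_
    rw [← Equiv.sum_comp e]
    refine sum_congr rfl fun b _ => ?_
    rw [← Equiv.sum_comp e]
  refine ⟨fun a b c d => H (e a) (e b) (e c) (e d), fun a b c d => h0 _ _ _ _, ?_, ?_, ?_, ?_⟩
  · intro x x' hne
    exact (S (fun b c d => H (e x) b c d * H (e x') b c d)).trans (h1 _ _ (e.injective.ne hne))
  · intro x x' hne
    exact (S (fun a c d => H a (e x) c d * H a (e x') c d)).trans (h2 _ _ (e.injective.ne hne))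
  · intro x x' hne
    exact (S (fun a b d => H a b (e x) d * H a b (e x') d)).trans (h3 _ _ (e.injective.ne hne))
  · intro x x' hne
    exact (S (fun a b c => H a b c (e x) * H a b c (e x'))).trans (h4 _ _ (e.injective.ne hne))

lemma sum_blocks (a N : ℕ) (F : ℕ → ℤ) :
    ∑ j ∈ range (a * N), F j = ∑ q ∈ range a, ∑ p ∈ range N, F (q * N + p) := by
  induction a with
  | zero => simp
  | succ a ih => rw [Nat.succ_mul, sum_range_add, ih, sum_range_succ]

/-- cells of the `t × t` grid listed along diagonals -/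
lemma had4_of_list (t : ℕ) (ht : 0 < t) (cls : ℕ → ℕ) (w : ℕ → ℕ → Bool → Bool → ℤ)
    (hwin : ∀ j j', j < j' → j' < t * t → cls j = cls j' → j' + 2 ≤ j + t ∨ j / t = j' / t)
    (hpm : ∀ r j e e', w r j e e' = 1 ∨ w r j e e' = -1)
    (hprod : ∀ r j, w r j false false * w r j false true * w r j true false *
      w r j true true = -1)
    (horth : ∀ i i', i < t * t → i' < t * t → cls i ≠ cls i' → ∀ φ : ℕ → ℤ,
      ∑ j ∈ range (t * t), (∑ e, ∑ e', w (cls i) j e e' * w (cls i') j e e') * φ (cls j) = 0) :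
    Had4 (Fin t × Bool) := by
  have : NeZero t := ⟨ht.ne'⟩
  set J : Fin t → Fin t → ℕ := fun y y' => (y' - y).val * t + y.val with hJ
  have hJlt : ∀ y y', J y y' < t * t := by
    intro y y'
    have h1 := (y' - y).isLt
    have h2 := y.isLt
    simp only [hJ]
    nlinarith
  have hdiv : ∀ q p : Fin t, (q.val * t + p.val) / t = q.val := by
    intro q p
    rw [mul_comm, Nat.mul_add_div ht, Nat.div_eq_of_lt p.isLt, add_zero]
  -- core
  have core : ∀ q q' p p' : Fin t, q.val < q'.val → cls (q.val * t + p.val) = cls (q'.val * t + p'.val) →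
      q'.val = q.val + 1 ∧ p'.val + 2 ≤ p.val := by
    intro q q' p p' hq h
    have h1 := p.isLt
    have h2 := p'.isLt
    have h3 := q'.isLt
    have hmul : (q.val + 1) * t ≤ q'.val * t := Nat.mul_le_mul_right t hq
    have hlt : q.val * t + p.val < q'.val * t + p'.val := by nlinarith
    have hb : q'.val * t + p'.val < t * t := by nlinarith
    rcases hwin _ _ hlt hb h with h4 | h4
    · have h5 : q'.val = q.val + 1 := by
        by_contra hc
        have : (q.val + 2) * t ≤ q'.val * t := Nat.mul_le_mul_right t (by omega)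
        nlinarith
      refine ⟨h5, ?_⟩
      rw [h5] at h4
      nlinarith
    · rw [hdiv, hdiv] at h4; omega
  have hcolaux : ∀ y a a' : Fin t, (a - y).val < (a' - y).val → cls (J y a) ≠ cls (J y a') := by
    intro y a a' hlt h
    have := core _ _ _ _ hlt h
    omega
  have hrowaux : ∀ a a' y : Fin t, (y - a).val < (y - a').val → cls (J a y) ≠ cls (J a' y) := by
    intro a a' y hlt h
    obtain ⟨h1, h2⟩ := core _ _ _ _ hlt h
    have e : a + (y - a) = a' + (y - a') := by abel
    have e2 := congrArg Fin.val e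
    rw [Fin.val_add, Fin.val_add, h1] at e2
    have e3 : (a'.val + 1) + (y - a).val ≡ a.val + (y - a).val [MOD t] := by
      unfold Nat.ModEq; rw [e2]; congr 1; ring
    have e4 := Nat.ModEq.add_right_cancel' _ e3
    have e5 := (Nat.modEq_iff_dvd' (by omega)).1 e4
    have := Nat.le_of_dvd (by omega) e5
    have := a.isLt
    omega
  refine had4_of_cls (Fin t) (fun y y' => cls (J y y')) (fun r y y' => w r (J y y')) ?_ ?_
    (fun r y y' => hpm r _) (fun r y y' => hprod r _) ?_
  · intro a a' y h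
    rcases lt_trichotomy (y - a).val (y - a').val with h1 | h1 | h1
    · exact absurd h (hrowaux _ _ _ h1)
    · exact sub_right_injective (Fin.ext h1)
    · exact absurd h.symm (hrowaux _ _ _ h1)
  · intro y a a' h
    rcases lt_trichotomy (a - y).val (a' - y).val with h1 | h1 | h1
    · exact absurd h (hcolaux _ _ _ h1)
    · exact sub_left_injective (Fin.ext h1)
    · exact absurd h.symm (hcolaux _ _ _ h1)
  · intro y1 y2 y1' y2' hne φ
    have := horth _ _ (hJlt y1 y2) (hJlt y1' y2') hne φ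
    rw [← this, sum_blocks]
    set G : ℕ → ℤ := fun j => (∑ e, ∑ e', w (cls (J y1 y2)) j e e' * w (cls (J y1' y2')) j e e') *
      φ (cls j) with hG
    change ∑ y3, ∑ y4, G (J y3 y4) = ∑ q ∈ range t, ∑ p ∈ range t, G (q * t + p)
    rw [sum_comm (s := range t), ← Fin.sum_univ_eq_sum_range (fun p => ∑ q ∈ range t, G (q * t + p))]
    refine sum_congr rfl fun y3 _ => ?_
    rw [← Fin.sum_univ_eq_sum_range (fun q => G (q * t + y3.val)),
      ← Equiv.sum_comp (Equiv.subRight y3) (fun q : Fin t => G (q.val * t + y3.val))]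
    rfl

end Pool.Agent.H17.HD
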