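import Pool.Agent.H17.HD3

set_option autoImplicit false

namespace Pool.Agent.H17.HD

open Finset

lemma blk_div (N q p : ℕ) (hp : p < N) : (q * N + p) / N = q := by
  rw [mul_comm, Nat.mul_add_div (by omega), Nat.div_eq_of_lt hp, add_zero]

lemma blk_mod (N q p : ℕ) (hp : p < N) : (q * N + p) % N = p := by
  rw [mul_comm, Nat.mul_add_mod, Nat.mod_eq_of_lt hp]

lemma close_of_div {N j j' : ℕ} (hN : 0 < N) (h : j / N = j' / N) : j' < j + N := by
  have h1 := Nat.div_add_mod j N
  have h2 := Nat.div_add_mod j' N
  have h3 := Nat.mod_lt j' hN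
  rw [h] at h1
  omega

/-- two window lengths -/
lemma had4_two (t N M a b : ℕ) (hN : 0 < N) (hM : 0 < M) (ht : 0 < t)
    (hsum : a * N + b * M = t * t) (h1 : a + b ≤ 2 * N) (h2 : a + b ≤ 2 * M)
    (hfit : (N < t ∧ M < t) ∨ (N = t ∧ b = 0)) (TN : TArr N) (TM : TArr M) :
    Had4 (Fin t × Bool) := by
  obtain ⟨U, hU1, hU2, hU3⟩ := TN
  obtain ⟨V, hV1, hV2, hV3⟩ := TM
  set cls : ℕ → ℕ := fun j => if j < a * N then j / N else a + (j - a * N) / M with hcls
  have hlo : ∀ j, j < a * N → j / N < a := fun j hj =>
    (Nat.div_lt_iff_lt_mul hN).2 hj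
  have hclt : ∀ j, j < t * t → cls j < a + b := by
    intro j hj
    simp only [hcls]
    split_ifs with h
    · have := hlo j h; omega
    · have : (j - a * N) / M < b := (Nat.div_lt_iff_lt_mul hM).2 (by omega)
      omega
  refine had4_of_list t ht cls
    (fun r j => if j < a * N then U r (j % N) else V r ((j - a * N) % M)) ?_ ?_ ?_ ?_
  · intro j j' hlt hj' h
    simp only [hcls] at h
    rcases hfit with ⟨f1, f2⟩ | ⟨f1, f2⟩
    · left
      split_ifs at h with c1 c2 c2
      · have := close_of_div hN h; omega
      · have := hlo j c1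
        have := Nat.zero_le ((j' - a * N) / M)
        omega
      · omega
      · have := close_of_div hM (Nat.add_left_cancel h); omega
    · right
      subst f1 f2
      rw [if_pos (by omega), if_pos (by omega)] at h
      exact h
  · intro r j e e'
    split_ifs
    · exact hU1 _ _ _ _
    · exact hV1 _ _ _ _
  · intro r j
    split_ifs
    · exact hU2 _ _
    · exact hV2 _ _
  · intro i i' hi hi' hne φ
    have c1 := hclt i hi
    have c2 := hclt i' hi'
    rw [← hsum, sum_range_add, sum_blocks, sum_blocks]
    have z1 := hU3 (cls i) (cls i') (by omega) (by omega) hne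
    have z2 := hV3 (cls i) (cls i') (by omega) (by omega) hne
    generalize cls i = r at *
    generalize cls i' = r' at *
    rw [sum_eq_zero, sum_eq_zero, add_zero]
    · intro q _
      have : ∀ p ∈ range M, (∑ e, ∑ e', (if a * N + (q * M + p) < a * N then
          U r ((a * N + (q * M + p)) % N) else V r ((a * N + (q * M + p) - a * N) % M)) e e' *
          (if a * N + (q * M + p) < a * N then
          U r' ((a * N + (q * M + p)) % N) else V r' ((a * N + (q * M + p) - a * N) % M)) e e') *
          φ (cls (a * N + (q * M + p))) = (∑ e, ∑ e', V r p e e' * V r' p e e') * φ (a + q) := by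
        intro p hp
        have hp' := mem_range.1 hp
        simp only [hcls, if_neg (show ¬ a * N + (q * M + p) < a * N by omega),
          Nat.add_sub_cancel_left, blk_div M q p hp', blk_mod M q p hp']
      rw [sum_congr rfl this, ← sum_mul, z2, zero_mul]
    · intro q hq
      have : ∀ p ∈ range N, (∑ e, ∑ e', (if q * N + p < a * N then
          U r ((q * N + p) % N) else V r ((q * N + p - a * N) % M)) e e' *
          (if q * N + p < a * N then
          U r' ((q * N + p) % N) else V r' ((q * N + p - a * N) % M)) e e') *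
          φ (cls (q * N + p)) = (∑ e, ∑ e', U r p e e' * U r' p e e') * φ q := by
        intro p hp
        have hp' := mem_range.1 hp
        have hq' := mem_range.1 hq
        have : (q + 1) * N ≤ a * N := Nat.mul_le_mul_right N hq'
        simp only [hcls, if_pos (show q * N + p < a * N by nlinarith),
          blk_div N q p hp', blk_mod N q p hp']
      rw [sum_congr rfl this, ← sum_mul, z1, zero_mul]

lemma tarr_golay {g h : ℕ} (hg : Golay g) (hh : Golay h) (hp : 0 < g + h) : TArr (g + h) :=
  tarr_of_quad hp (quad_of_golay hg hh)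

lemma had4_sum {g h : ℕ} (hg : Golay g) (hh : Golay h) (hp : 0 < g + h) :
    Had4 (Fin (g + h) × Bool) :=
  had4_two (g + h) (g + h) (g + h) (g + h) 0 hp hp hp (by ring) (by omega) (by omega)
    (Or.inr ⟨rfl, rfl⟩) (tarr_golay hg hh hp) (tarr_golay hg hh hp)

lemma golay2 : Golay 2 := golay_double golay1
lemma golay4 : Golay 4 := golay_double golay2
lemma golay8 : Golay 8 := golay_double golay4
lemma golay16 : Golay 16 := golay_double golay8
lemma golay20 : Golay 20 := golay_double golay10
lemma golay32 : Golay 32 := golay_double golay16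

lemma exists_golay (t : ℕ) (ht : 18 ≤ t) : ∃ g, Golay g ∧ g + 2 ≤ t ∧ 5 * t ≤ 7 * g := by
  induction t using Nat.strong_induction_on with
  | _ t ih =>
    by_cases h1 : t ≤ 22
    · exact ⟨16, golay16, by omega, by omega⟩
    by_cases h2 : t ≤ 28
    · exact ⟨20, golay20, by omega, by omega⟩
    by_cases h3 : t ≤ 36
    · exact ⟨26, golay26, by omega, by omega⟩
    obtain ⟨g, hg, a1, a2⟩ := ih ((t + 1) / 2) (by omega) (by omega)
    exact ⟨2 * g, golay_double hg, by omega, by omega⟩

lemma had4_all (t : ℕ) (ht : 1 ≤ t) : Had4 (Fin t × Bool) := by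
  by_cases h : 18 ≤ t
  · obtain ⟨g, hg, a1, a2⟩ := exists_golay t h
    have hg0 : 0 < g := by omega
    have e := Nat.div_add_mod (t * t) g
    have hb := Nat.mod_lt (t * t) hg0
    have hm1 : g ≤ t * t / g := (Nat.le_div_iff_mul_le hg0).2 (by nlinarith)
    have hm2 : t * t / g ≤ 2 * g := Nat.div_le_of_le_mul (by nlinarith)
    obtain ⟨a, ha⟩ : ∃ a, t * t / g = a + t * t % g := ⟨t * t / g - t * t % g, by omega⟩
    refine had4_two t g (g + 1) a (t * t % g) hg0 (by omega) (by omega) ?_ (by omega) (by omega)
      (Or.inl ⟨by omega, by omega⟩) (tarr_golay hg golay0 hg0) (tarr_golay hg golay1 (by omega))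
    rw [ha] at e
    linear_combination e
  · have h' : t < 18 := by omega
    interval_cases t
    · exact had4_sum golay1 golay0 (by norm_num)
    · exact had4_sum golay2 golay0 (by norm_num)
    · exact had4_sum golay2 golay1 (by norm_num)
    · exact had4_sum golay4 golay0 (by norm_num)
    · exact had4_sum golay4 golay1 (by norm_num)
    · exact had4_sum golay4 golay2 (by norm_num)
    · exact had4_two 7 5 6 5 4 (by norm_num) (by norm_num) (by norm_num) (by norm_num)
        (by norm_num) (by norm_num) (by norm_num) (tarr_golay golay4 golay1 (by norm_num))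
        (tarr_golay golay4 golay2 (by norm_num))
    · exact had4_sum golay8 golay0 (by norm_num)
    · exact had4_sum golay8 golay1 (by norm_num)
    · exact had4_sum golay10 golay0 (by norm_num)
    · exact had4_sum golay10 golay1 (by norm_num)
    · exact had4_sum golay10 golay2 (by norm_num)
    · exact had4_two 13 10 11 7 9 (by norm_num) (by norm_num) (by norm_num) (by norm_num)
        (by norm_num) (by norm_num) (by norm_num) (tarr_golay golay10 golay0 (by norm_num))
        (tarr_golay golay10 golay1 (by norm_num))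
    · exact had4_sum golay10 golay4 (by norm_num)
    · exact had4_two 15 11 12 3 16 (by norm_num) (by norm_num) (by norm_num) (by norm_num)
        (by norm_num) (by norm_num) (by norm_num) (tarr_golay golay10 golay1 (by norm_num))
        (tarr_golay golay10 golay2 (by norm_num))
    · exact had4_sum golay16 golay0 (by norm_num)
    · exact had4_sum golay16 golay1 (by norm_num)

lemma had4_fin (t : ℕ) (ht : 1 ≤ t) : Had4 (Fin (2 * t)) :=
  had4_equiv ((finProdFinEquiv.symm.trans (Equiv.prodComm _ _)).trans
    (Equiv.prodCongr (Equiv.refl _) finTwoEquiv)) (had4_all t ht)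

def HadN (V : Type) [Fintype V] (n : ℕ) : Prop :=
  ∃ A : (Fin n → V) → ℤ, (∀ i, A i = 1 ∨ A i = -1) ∧ ∀ (l : Fin n) (x y : V), x ≠ y →
    ∑ i : Fin n → V, A (Function.update i l x) * A (Function.update i l y) = 0

lemma sum_cons {V : Type} [Fintype V] (n : ℕ) (F : (Fin (n + 1) → V) → ℤ) :
    ∑ i, F i = ∑ a : V, ∑ j : Fin n → V, F (Fin.cons a j) := by
  rw [← Fintype.sum_prod_type', ← Equiv.sum_comp (Fin.consEquiv (fun _ => V))]
  rfl

lemma hadN_four {V : Type} [Fintype V] (h : Had4 V) : HadN V 4 := by
  obtain ⟨H, h0, h1, h2, h3, h4⟩ := h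
  refine ⟨fun i => H (i 0) (i 1) (i 2) (i 3), fun i => h0 _ _ _ _, ?_⟩
  have S : ∀ F : V → V → V → V → ℤ, ∑ i : Fin 4 → V, F (i 0) (i 1) (i 2) (i 3) =
      ∑ a, ∑ b, ∑ c, ∑ d, F a b c d := by
    intro F
    simp only [sum_cons]
    simp
    rfl
  intro l x y hne
  fin_cases l
  · refine (Eq.trans ?_ (S (fun _ b c d => H x b c d * H y b c d))).trans ?_
    · simp
    · exact sum_eq_zero fun _ _ => h1 x y hne
  · refine (Eq.trans ?_ (S (fun a _ c d => H a x c d * H a y c d))).trans ?_
    · simp
    · rw [sum_comm]; exact sum_eq_zero fun _ _ => h2 x y hne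
  · refine (Eq.trans ?_ (S (fun a b _ d => H a b x d * H a b y d))).trans ?_
    · simp
    · simp only [sum_const, ← smul_sum]
      rw [h3 x y hne, smul_zero]
  · refine (Eq.trans ?_ (S (fun a b c _ => H a b c x * H a b c y))).trans ?_
    · simp
    · simp only [sum_const, ← smul_sum]
      rw [h4 x y hne, smul_zero]

lemma hadN_succ {V : Type} [Fintype V] [AddCommGroup V] (n : ℕ) (h : HadN V (n + 1)) :
    HadN V (n + 2) := by
  obtain ⟨A, h0, h1⟩ := h
  have hz : ∀ x y : V, x ≠ y → ∑ j : Fin n → V, A (Fin.cons x j) * A (Fin.cons y j) = 0 := by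
    intro x y hne
    have := h1 0 x y hne
    rw [sum_cons] at this
    simp only [Fin.update_cons_zero, sum_const, card_univ, nsmul_eq_mul] at this
    rcases mul_eq_zero.1 this with h | h
    · have : Nonempty V := ⟨x⟩
      exact absurd h (by exact_mod_cast Fintype.card_ne_zero)
    · exact h
  refine ⟨fun i => A (Fin.cons (i 0 + i 1) (fun k => i k.succ.succ)), fun i => h0 _, ?_⟩
  intro l x y hne
  simp only [sum_cons]
  refine Fin.cases ?_ (fun l => ?_) l
  · refine sum_eq_zero fun a _ => sum_eq_zero fun b _ => ?_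
    rw [← hz (x + b) (y + b) (fun h => hne (add_right_cancel h))]
    refine sum_congr rfl fun j _ => ?_
    simp only [Fin.update_cons_zero]
    rfl
  · refine Fin.cases ?_ (fun l => ?_) l
    · refine sum_eq_zero fun a _ => sum_eq_zero fun b _ => ?_
      rw [← hz (a + x) (a + y) (fun h => hne (add_left_cancel h))]
      refine sum_congr rfl fun j _ => ?_
      simp only [← Fin.cons_update, Fin.update_cons_zero]
      rfl
    · refine sum_eq_zero fun a _ => ?_
      have := h1 l.succ x y hne
      rw [sum_cons, ← Equiv.sum_comp (Equiv.addLeft a)] at this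
      rw [← this]
      refine sum_congr rfl fun b _ => sum_congr rfl fun j _ => ?_
      simp only [← Fin.cons_update]
      rfl

lemma hadN_all (t : ℕ) (ht : 1 ≤ t) (n : ℕ) : HadN (Fin (2 * t)) (n + 4) := by
  have : NeZero (2 * t) := ⟨by omega⟩
  induction n with
  | zero => exact hadN_four (had4_fin t ht)
  | succ n ih => exact hadN_succ (n + 3) ih

end Pool.Agent.H17.HD
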