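import Mathlib

set_option autoImplicit false

open Matrix

namespace Pool.Agent.H17.Horn

def A : Matrix (Fin 5) (Fin 5) ℝ :=
  !![8, 5, 1, 1, 5; 5, 8, 5, 1, 1; 1, 5, 8, 5, 1; 1, 1, 5, 8, 5; 5, 1, 1, 5, 8]

/-- circulant matrix with columns `(x, x + z, z)` -/
def Bm (x y z : ℝ) : Matrix (Fin 5) (Fin 5) ℝ :=
  !![x, 0, 0, z, y; y, x, 0, 0, z; z, y, x, 0, 0; 0, z, y, x, 0; 0, 0, z, y, x]

lemma horn (a b c d e : ℝ) (ha : 0 ≤ a) (hb : 0 ≤ b) (hc : 0 ≤ c) (hd : 0 ≤ d) (he : 0 ≤ e) :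
    0 ≤ a * a + b * b + c * c + d * d + e * e - 2 * (a * b + b * c + c * d + d * e + e * a)
      + 2 * (a * c + b * d + c * e + d * a + e * b) := by
  rcases le_total d e with h | h
  · nlinarith [sq_nonneg (a - b + c + d - e), mul_nonneg hb hd, mul_nonneg hc (sub_nonneg.2 h)]
  · nlinarith [sq_nonneg (a - b + c - d + e), mul_nonneg hb he, mul_nonneg ha (sub_nonneg.2 h)]

lemma A_fac : A = Bm ((√5 + 1) / 2) √5 ((√5 - 1) / 2) * (Bm ((√5 + 1) / 2) √5 ((√5 - 1) / 2))ᵀ := by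
  have h : √5 * √5 = 5 := Real.mul_self_sqrt (by norm_num)
  ext i j
  fin_cases i <;> fin_cases j <;>
    simp [A, Bm, Matrix.mul_apply, Fin.sum_univ_five] <;> nlinarith [h]

lemma B_nonneg : ∀ i j, 0 ≤ Bm ((√5 + 1) / 2) √5 ((√5 - 1) / 2) i j := by
  have h1 : (1 : ℝ) ≤ √5 := Real.one_le_sqrt.2 (by norm_num)
  have h2 : (0 : ℝ) ≤ (√5 + 1) / 2 := by linarith
  have h3 : (0 : ℝ) ≤ (√5 - 1) / 2 := by linarith
  intro i j
  fin_cases i <;> fin_cases j <;> simp [Bm, h2, h3]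

lemma A_pd : A.PosDef := by
  refine Matrix.PosDef.of_dotProduct_mulVec_pos ?_ ?_
  · ext i j
    fin_cases i <;> fin_cases j <;> simp [A]
  · intro x hx
    have h1 : 0 < ∑ i, x i ^ 2 := by
      obtain ⟨i, hi⟩ := Function.ne_iff.1 hx
      exact Finset.sum_pos' (fun j _ => sq_nonneg _) ⟨i, Finset.mem_univ _, sq_pos_of_ne_zero hi⟩
    have h2 : star x ⬝ᵥ A *ᵥ x = (1 / 2) * ∑ i, x i ^ 2 + ((15/2) * ((1) * x 0 + (2/3) * x 1 + (2/15) * x 2 + (2/15) * x 3 + (2/3) * x 4) ^ 2 + (25/6) * ((1) * x 1 + (26/25) * x 2 + (2/25) * x 3 + (-14/25) * x 4) ^ 2 + (143/50) * ((1) * x 2 + (226/143) * x 3 + (138/143) * x 4) ^ 2 + (281/1430) * ((1) * x 3 + (226/281) * x 4) ^ 2 + (39/562) * ((1) * x 4) ^ 2) := by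
      simp [A, Matrix.mulVec, dotProduct, Fin.sum_univ_five]
      ring
    rw [h2]
    positivity

lemma A_bd : ∀ ε : ℝ, 0 < ε → ∃ S : Matrix (Fin 5) (Fin 5) ℝ, Sᵀ = S ∧
    (∀ i j, |S i j - A i j| < ε) ∧
    ¬ ∃ m : ℕ, ∃ C : Matrix (Fin 5) (Fin m) ℝ, (∀ i j, 0 ≤ C i j) ∧ S = C * Cᵀ := by
  intro ε hε
  refine ⟨A - (ε / 2) • 1, ?_, ?_, ?_⟩
  · ext i j
    fin_cases i <;> fin_cases j <;> simp [A]
  · intro i j
    by_cases hij : i = j
    · subst hij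
      simp [abs_of_pos (half_pos hε), hε]
    · simp [hij, hε]
  · rintro ⟨m, C, hC, hS⟩
    have e : ∀ i j, (A - (ε / 2) • (1 : Matrix (Fin 5) (Fin 5) ℝ)) i j = ∑ k, C i k * C j k := by
      intro i j
      rw [hS, Matrix.mul_apply]
      rfl
    have h0 := Finset.sum_nonneg fun k (_ : k ∈ Finset.univ) =>
      horn (C 0 k) (C 1 k) (C 2 k) (C 3 k) (C 4 k) (hC _ _) (hC _ _) (hC _ _) (hC _ _) (hC _ _)
    simp only [Finset.sum_add_distrib, Finset.sum_sub_distrib, ← Finset.mul_sum, ← e] at h0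
    simp [A] at h0
    linarith

lemma A_rat : ∀ i j, ∃ q : ℚ, A i j = (q : ℝ) := by
  intro i j
  refine ⟨(!![8, 5, 1, 1, 5; 5, 8, 5, 1, 1; 1, 5, 8, 5, 1; 1, 1, 5, 8, 5; 5, 1, 1, 5, 8] :
    Matrix (Fin 5) (Fin 5) ℚ) i j, ?_⟩
  fin_cases i <;> fin_cases j <;> simp [A]

lemma A_pos : ∀ i j, 0 < A i j := by
  intro i j
  fin_cases i <;> fin_cases j <;> simp [A]

lemma zero1 (a b c d e : ℝ) (hb : 0 ≤ b) (hd : 0 ≤ d) (he : 0 ≤ e) (ha : 0 < a) (hc : 0 < c)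
    (h : a * a + b * b + c * c + d * d + e * e - 2 * (a * b + b * c + c * d + d * e + e * a)
      + 2 * (a * c + b * d + c * e + d * a + e * b) = 0) : d = 0 ∧ e = 0 ∧ b = a + c := by
  rcases le_total d e with h1 | h1
  · have p1 := sq_nonneg (a - b + c + d - e)
    have p2 := mul_nonneg hb hd
    have p3 := mul_nonneg hc.le (sub_nonneg.2 h1)
    have q3 : c * (e - d) = 0 := by nlinarith
    have q2 : b * d = 0 := by nlinarith
    have q1 : (a - b + c + d - e) ^ 2 = 0 := by nlinarith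
    have r3 : e - d = 0 := (mul_eq_zero.1 q3).resolve_left hc.ne'
    have r1 : a - b + c + d - e = 0 := pow_eq_zero_iff (two_ne_zero) |>.1 q1
    have r2 : d = 0 := (mul_eq_zero.1 q2).resolve_left (by intro h0; linarith)
    exact ⟨r2, by linarith, by linarith⟩
  · have p1 := sq_nonneg (a - b + c - d + e)
    have p2 := mul_nonneg hb he
    have p3 := mul_nonneg ha.le (sub_nonneg.2 h1)
    have q3 : a * (d - e) = 0 := by nlinarith
    have q2 : b * e = 0 := by nlinarith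
    have q1 : (a - b + c - d + e) ^ 2 = 0 := by nlinarith
    have r3 : d - e = 0 := (mul_eq_zero.1 q3).resolve_left ha.ne'
    have r1 : a - b + c - d + e = 0 := pow_eq_zero_iff (two_ne_zero) |>.1 q1
    have r2 : e = 0 := (mul_eq_zero.1 q2).resolve_left (by intro h0; linarith)
    exact ⟨by linarith, r2, by linarith⟩

theorem all_irr (B : Matrix (Fin 5) (Fin 5) ℝ) (hB : ∀ i j, 0 ≤ B i j) (hA : A = B * Bᵀ) :
    ∃ i j, Irrational (B i j * B i j) := by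
  have e : ∀ i j, A i j = ∑ k, B i k * B j k := by
    intro i j
    rw [hA, Matrix.mul_apply]
    rfl
  have h0 : ∀ k, B 0 k * B 0 k + B 1 k * B 1 k + B 2 k * B 2 k + B 3 k * B 3 k + B 4 k * B 4 k
      - 2 * (B 0 k * B 1 k + B 1 k * B 2 k + B 2 k * B 3 k + B 3 k * B 4 k + B 4 k * B 0 k)
      + 2 * (B 0 k * B 2 k + B 1 k * B 3 k + B 2 k * B 4 k + B 3 k * B 0 k + B 4 k * B 1 k) = 0 := by
    intro k
    refine (Finset.sum_eq_zero_iff_of_nonneg fun k (_ : k ∈ Finset.univ) =>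
      horn (B 0 k) (B 1 k) (B 2 k) (B 3 k) (B 4 k) (hB _ _) (hB _ _) (hB _ _) (hB _ _)
        (hB _ _)).1 ?_ k (Finset.mem_univ _)
    simp only [Finset.sum_add_distrib, Finset.sum_sub_distrib, ← Finset.mul_sum, ← e]
    simp [A]
    norm_num
  have hz : ∀ j k : Fin 5, 0 < B j k → 0 < B (j + 2) k →
      B (j + 3) k = 0 ∧ B (j + 4) k = 0 ∧ B (j + 1) k = B j k + B (j + 2) k := by
    intro j k h1 h2
    have h3 := h0 k
    refine zero1 _ _ _ _ _ (hB _ _) (hB _ _) (hB _ _) h1 h2 ?_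
    fin_cases j <;> simp <;> linarith
  have hex : ∀ j : Fin 5, ∃ k, 0 < B j k ∧ 0 < B (j + 2) k := by
    intro j
    have h1 : ∑ k, B j k * B (j + 2) k ≠ 0 := by rw [← e]; exact (A_pos _ _).ne'
    obtain ⟨k, -, hk⟩ := Finset.exists_ne_zero_of_sum_ne_zero h1
    exact ⟨k, lt_of_le_of_ne (hB _ _) (left_ne_zero_of_mul hk).symm,
      lt_of_le_of_ne (hB _ _) (right_ne_zero_of_mul hk).symm⟩
  choose κ hκ1 hκ2 using hex
  have hinj : Function.Injective κ := by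
    intro j j' h
    by_contra hne
    have h1 := hz j _ (hκ1 j) (hκ2 j)
    have h2 := hκ1 j'
    have h3 := hκ2 j'
    rw [← h] at h2 h3
    have : j' = j + 3 ∨ j' = j + 4 ∨ j' + 2 = j + 3 ∨ j' + 2 = j + 4 := by
      revert hne
      generalize j = x
      generalize j' = y
      revert x y
      decide
    rcases this with h4 | h4 | h4 | h4
    · rw [h4, h1.1] at h2; exact lt_irrefl _ h2
    · rw [h4, h1.2.1] at h2; exact lt_irrefl _ h2
    · rw [h4, h1.1] at h3; exact lt_irrefl _ h3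
    · rw [h4, h1.2.1] at h3; exact lt_irrefl _ h3
  have e' : ∀ i j, A i j = ∑ k, B i (κ k) * B j (κ k) := by
    intro i j
    rw [e]
    exact ((Finite.injective_iff_bijective.1 hinj).sum_comp fun k => B i k * B j k).symm
  obtain ⟨z01, z02, z03⟩ := hz 0 _ (hκ1 0) (hκ2 0)
  obtain ⟨z11, z12, z13⟩ := hz 1 _ (hκ1 1) (hκ2 1)
  obtain ⟨z21, z22, z23⟩ := hz 2 _ (hκ1 2) (hκ2 2)
  obtain ⟨z31, z32, z33⟩ := hz 3 _ (hκ1 3) (hκ2 3)
  obtain ⟨z41, z42, z43⟩ := hz 4 _ (hκ1 4) (hκ2 4)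
  have p0 := e' 0 2
  have p1 := e' 1 3
  have p2 := e' 2 4
  have p3 := e' 3 0
  have p4 := e' 4 1
  have q0 := e' 0 1
  have q1 := e' 1 2
  have q2 := e' 2 3
  have q3 := e' 3 4
  have q4 := e' 4 0
  simp at z01 z02 z03 z11 z12 z13 z21 z22 z23 z31 z32 z33 z41 z42 z43
  simp [A, Fin.sum_univ_five, z01, z02, z11, z12, z21, z22, z31, z32, z41, z42,
    z03, z13, z23, z33, z43] at p0 p1 p2 p3 p4 q0 q1 q2 q3 q4
  refine ⟨0, κ 0, ?_⟩
  generalize B 0 (κ 0) = s0 at *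
  generalize B 1 (κ 1) = s1 at *
  generalize B 2 (κ 2) = s2 at *
  generalize B 3 (κ 3) = s3 at *
  generalize B 4 (κ 4) = s4 at *
  generalize B 2 (κ 0) = t0 at *
  generalize B 3 (κ 1) = t1 at *
  generalize B 4 (κ 2) = t2 at *
  generalize B 0 (κ 3) = t3 at *
  generalize B 1 (κ 4) = t4 at *
  have r1 : (s1 * s1) * (s0 * s0) = 3 * (s0 * s0) - 1 := by grind
  have r2 : (s2 * s2) * (s1 * s1) = 3 * (s1 * s1) - 1 := by grind
  have r3 : (s3 * s3) * (s2 * s2) = 3 * (s2 * s2) - 1 := by grind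
  have r4 : (s4 * s4) * (s3 * s3) = 3 * (s3 * s3) - 1 := by grind
  have r0 : (s0 * s0) * (s4 * s4) = 3 * (s4 * s4) - 1 := by grind
  generalize s0 * s0 = u0 at r0 r1 ⊢
  generalize s1 * s1 = u1 at r1 r2
  generalize s2 * s2 = u2 at r2 r3
  generalize s3 * s3 = u3 at r3 r4
  generalize s4 * s4 = u4 at r4 r0
  have hq : (2 * u0 - 3) ^ 2 = 5 := by grind
  rintro ⟨r, rfl⟩
  have hi : Irrational √5 := by
    have := Nat.Prime.irrational_sqrt (p := 5) (by norm_num)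
    simpa using this
  refine hi ⟨|2 * r - 3|, ?_⟩
  rw [← hq, Real.sqrt_sq_eq_abs]
  push_cast
  rfl

end Pool.Agent.H17.Horn
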