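import Mathlib

set_option autoImplicit false

namespace Pool.Agent.H17.IntCx

def fL : List ℕ := [0, 1, 2, 3, 4, 5, 5, 6, 6, 6, 7, 8, 7, 8, 8, 8, 8, 9, 8, 9, 9, 9, 10, 11, 9, 10, 10, 9, 10, 11, 10, 11, 10, 11, 11, 11, 10, 11, 11, 11, 11, 12, 11, 12, 12, 11, 12, 13]

def AL : List (List (ℕ × ℕ)) := [[], [(2, 1)], [(4, 2)], [(6, 3)], [(16, 0)], [(18, 1)], [(24, 0)], [(26, 1)], [(64, 0)], [(36, 0)], [(38, 1), (72, 0)], [(40, 2), (74, 1)], [(96, 0)], [(98, 1)], [(104, 0)], [(108, 0)], [(256, 0)], [(258, 1)], [(144, 0)], [(146, 1)], [(152, 0), (288, 0)], [(156, 0)], [(158, 1), (160, 0), (296, 0)], [(160, 2), (162, 1), (298, 1)], [(384, 0)], [(324, 0), (386, 1)], [(392, 0)], [(216, 0)], [(218, 1), (416, 0)], [(220, 2), (418, 1)], [(228, 0), (432, 0)], [(230, 1), (434, 1)], [(1024, 0)], [(240, 0), (444, 0), (1026, 1)], [(1032, 0)], [(468, 0)], [(576, 0)], [(578, 1)],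 [(584, 0)], [(588, 0)], [(608, 0), (1152, 0)], [(610, 1), (1154, 1)], [(624, 0)], [(626, 1)], [(632, 0), (640, 0), (1184, 0)], [(648, 0)], [(650, 1)], [(652, 2)]]

def f (n : ℕ) : ℕ := fL.getD n 0

def A (n : ℕ) : List (ℕ × ℕ) := AL.getD n []

set_option synthInstance.maxSize 1024 in
theorem hadd : ∀ x ∈ List.range 48, ∀ y ∈ List.range 48, 1 ≤ x → 1 ≤ y → x + y ≤ 47 →
    f (x + y) ≤ f x + f y ∧ (f x + f y = f (x + y) → ∀ p ∈ A x, ∀ q ∈ A y,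
      p.2 + q.2 < 4 → (p.1 + q.1, p.2 + q.2) ∈ A (x + y)) := by decide +kernel

set_option synthInstance.maxSize 1024 in
theorem hmul : ∀ x ∈ List.range 48, ∀ y ∈ List.range 48, 1 ≤ x → 1 ≤ y → x * y ≤ 47 →
    f (x * y) ≤ f x + f y ∧ (f x + f y = f (x * y) → ∀ p ∈ A x, ∀ q ∈ A y,
      (p.1 * q.1, 0) ∈ A (x * y)) := by decide +kernel

end Pool.Agent.H17.IntCx
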