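import Mathlib
import Pool.Agent.H17.IrDrop

namespace Pool.Agent.H17.IrDrop

def Irr (A : Fin 18 → Fin 18 → Prop) (T : Finset (Fin 18)) : Prop :=
  ∀ v ∈ T, ∃ w : Fin 18, (w = v ∨ A v w) ∧ ∀ u ∈ T, u ≠ v → ¬ (w = u ∨ A u w)

theorem Irr.mono {A : Fin 18 → Fin 18 → Prop} {S T : Finset (Fin 18)} (h : Irr A T) (hS : S ⊆ T) :
    Irr A S := by
  intro v hv
  obtain ⟨w, h1, h2⟩ := h v (hS hv)
  exact ⟨w, h1, fun u hu => h2 u (hS hu)⟩

theorem irrL_iff (nb : Nat → Nat → Bool) (A : Fin 18 → Fin 18 → Prop)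
    (h : ∀ v w : Fin 18, nb v.val w.val = true ↔ (w = v ∨ A v w)) (l : List (Fin 18)) :
    irrL nb (l.map Fin.val) = true ↔ Irr A l.toFinset := by
  unfold irrL Irr
  simp only [List.all_eq_true, List.any_eq_true, List.mem_map, List.mem_range, Bool.and_eq_true,
    Bool.or_eq_true, Nat.beq_eq, Bool.not_eq_true', List.mem_toFinset]
  constructor
  · intro H v hv
    obtain ⟨w, hw, h1, h2⟩ := H v.val ⟨v, hv, rfl⟩
    refine ⟨⟨w, hw⟩, (h v ⟨w, hw⟩).mp h1, ?_⟩
    intro u hu huv hc
    rcases h2 u.val ⟨u, hu, rfl⟩ with h3 | h3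
    · exact huv (Fin.ext h3)
    · have := (h u ⟨w, hw⟩).mpr hc
      simp only at this
      rw [h3] at this
      exact Bool.false_ne_true this
  · rintro H _ ⟨v, hv, rfl⟩
    obtain ⟨w, h1, h2⟩ := H v hv
    refine ⟨w.val, w.isLt, (h v w).mpr h1, ?_⟩
    rintro _ ⟨u, hu, rfl⟩
    by_cases huv : u = v
    · exact Or.inl (by rw [huv])
    · right
      have := h2 u hu huv
      rw [← h u w] at this
      simpa using this

def G18 : SimpleGraph (Fin 18) := SimpleGraph.fromRel fun x y => adj x.val y.val = true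

theorem adj_iff (x y : Fin 18) : G18.Adj x y ↔ adj x.val y.val = true := by
  have h := all18_spec _ (all18_spec _ chkS x) y
  simp only [Bool.and_eq_true, beq_iff_eq, Bool.not_eq_true'] at h
  unfold G18
  rw [SimpleGraph.fromRel_adj, ← h.1]
  constructor
  · rintro ⟨_, h1 | h1⟩ <;> exact h1
  · intro h1
    refine ⟨?_, Or.inl h1⟩
    rintro rfl
    rw [h.2] at h1
    exact Bool.false_ne_true h1

theorem nbG_iff (v w : Fin 18) : nbG v.val w.val = true ↔ (w = v ∨ G18.Adj v w) := by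
  unfold nbG
  rw [Bool.or_eq_true, Nat.beq_eq, adj_iff, Fin.ext_iff]

theorem nbE_iff (p q v w : Fin 18) : nbE p.val q.val v.val w.val = true ↔
    (w = v ∨ (G18.deleteEdges {s(p, q)}).Adj v w) := by
  unfold nbE
  rw [SimpleGraph.deleteEdges_adj, adj_iff, Set.mem_singleton_iff, Sym2.eq_iff]
  simp only [Bool.or_eq_true, Bool.and_eq_true, Nat.beq_eq, Bool.not_eq_true', Fin.ext_iff,
    ← Bool.not_eq_true]

theorem sort3 (a b c : Fin 18) : ∃ a' b' c' : Fin 18,
    ({a, b, c} : Finset (Fin 18)) = {a', b', c'} ∧ a' ≤ b' ∧ b' ≤ c' := by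
  rcases le_total a b with h1 | h1 <;> rcases le_total b c with h2 | h2 <;>
    rcases le_total a c with h3 | h3
  all_goals first
    | exact ⟨a, b, c, rfl, by assumption, by assumption⟩
    | exact ⟨a, c, b, by ext; simp; tauto, by assumption, by assumption⟩
    | exact ⟨b, a, c, by ext; simp; tauto, by assumption, by assumption⟩
    | exact ⟨b, c, a, by ext; simp; tauto, by assumption, by assumption⟩
    | exact ⟨c, a, b, by ext; simp; tauto, by assumption, by assumption⟩
    | exact ⟨c, b, a, by ext; simp; tauto, by assumption, by assumption⟩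

theorem lower (S : Finset (Fin 18)) (hS : Maximal (Irr G18.Adj) S) : 4 ≤ S.card := by
  by_contra hlt
  have hext : ∀ x, x ∉ S → ¬ Irr G18.Adj (insert x S) := by
    intro x hx hI
    exact hx (hS.2 hI (Finset.subset_insert x S) (Finset.mem_insert_self x S))
  have h3 : S = ∅ ∨ ∃ a b c : Fin 18, S = {a, b, c} := by
    have : S.card = 0 ∨ S.card = 1 ∨ S.card = 2 ∨ S.card = 3 := by omega
    rcases this with h | h | h | h
    · exact Or.inl (Finset.card_eq_zero.mp h)
    · obtain ⟨a, rfl⟩ := Finset.card_eq_one.mp h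
      exact Or.inr ⟨a, a, a, by simp⟩
    · obtain ⟨a, b, -, rfl⟩ := Finset.card_eq_two.mp h
      exact Or.inr ⟨a, b, b, by simp⟩
    · obtain ⟨a, b, c, -, -, -, rfl⟩ := Finset.card_eq_three.mp h
      exact Or.inr ⟨a, b, c, rfl⟩
  rcases h3 with rfl | ⟨a0, b0, c0, h3⟩
  · apply hext 0 (by simp)
    intro v hv
    refine ⟨v, Or.inl rfl, ?_⟩
    intro u hu huv
    simp only [Finset.mem_insert, Finset.notMem_empty, or_false] at hu hv
    exact absurd (hu.trans hv.symm) huv
  obtain ⟨a, b, c, h4, hab, hbc⟩ := sort3 a0 b0 c0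
  rw [h4] at h3
  subst h3
  have h := all18_spec _ (all18_spec _ (all18_spec _ chkA a) b) c
  have hI : irrL nbG [a.val, b.val, c.val] = true := by
    have := (irrL_iff nbG G18.Adj nbG_iff [a, b, c]).mpr (by simpa using hS.1)
    simpa using this
  have e1 : Nat.ble a.val b.val = true := Nat.ble_eq.mpr hab
  have e2 : Nat.ble b.val c.val = true := Nat.ble_eq.mpr hbc
  unfold chkA1 at h
  rw [hI, e1, e2] at h
  simp only [Bool.not_true, Bool.false_or, Bool.and_eq_true, Bool.not_eq_true'] at h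
  obtain ⟨⟨⟨n1, n2⟩, n3⟩, h5⟩ := h
  let x : Fin 18 := ⟨xt a.val b.val c.val, Nat.mod_lt _ (by norm_num)⟩
  have h6 := (irrL_iff nbG G18.Adj nbG_iff [x, a, b, c]).mp h5
  apply hext x
  · simp only [Finset.mem_insert, Finset.mem_singleton, not_or]
    exact ⟨fun hh => Nat.ne_of_beq_eq_false n1 (congrArg Fin.val hh),
      fun hh => Nat.ne_of_beq_eq_false n2 (congrArg Fin.val hh),
      fun hh => Nat.ne_of_beq_eq_false n3 (congrArg Fin.val hh)⟩
  · simpa using h6

theorem upper (p q : Fin 18) (hpq : G18.Adj p q) : ∃ S : Finset (Fin 18),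
    Maximal (Irr (G18.deleteEdges {s(p, q)}).Adj) S ∧ S.card ≤ 3 := by
  have h := all18_spec _ (all18_spec _ chkB p) q
  unfold chkB1 at h
  rw [(adj_iff p q).mp hpq] at h
  simp only [Bool.not_true, Bool.false_or, Bool.and_eq_true] at h
  obtain ⟨h1, h2⟩ := h
  let a : Fin 18 := ⟨wa p.val q.val, Nat.mod_lt _ (by norm_num)⟩
  let b : Fin 18 := ⟨wb p.val q.val, Nat.mod_lt _ (by norm_num)⟩
  let c : Fin 18 := ⟨wc p.val q.val, Nat.mod_lt _ (by norm_num)⟩
  have hI := (irrL_iff _ _ (nbE_iff p q) [a, b, c]).mp h1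
  refine ⟨{a, b, c}, ⟨by simpa using hI, ?_⟩, Finset.card_le_three⟩
  intro T hT hST x hx
  by_contra hxS
  have h3 := all18_spec _ h2 x
  simp only [Finset.mem_insert, Finset.mem_singleton, not_or] at hxS
  simp only [Bool.or_eq_true, Nat.beq_eq, Bool.not_eq_true'] at h3
  rcases h3 with ((h3 | h3) | h3) | h3
  · exact hxS.1 (Fin.ext h3)
  · exact hxS.2.1 (Fin.ext h3)
  · exact hxS.2.2 (Fin.ext h3)
  · have h4 : Irr (G18.deleteEdges {s(p, q)}).Adj [x, a, b, c].toFinset := by
      apply hT.mono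
      intro y hy
      simp only [List.toFinset_cons, List.toFinset_nil, Finset.mem_insert, insert_empty_eq,
        Finset.mem_singleton] at hy
      rcases hy with rfl | hy
      · exact hx
      · exact hST (by simpa using hy)
    have h5 := (irrL_iff _ _ (nbE_iff p q) [x, a, b, c]).mpr h4
    have h6 : irrL (nbE p.val q.val) [x.val, wa p.val q.val, wb p.val q.val, wc p.val q.val] = true := h5
    rw [h3] at h6
    exact Bool.false_ne_true h6

theorem main : G18.edgeSet.Nonempty ∧ ∀ e ∈ G18.edgeSet,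
    sInf {k : ℕ | ∃ S : Finset (Fin 18), Maximal (Irr (G18.deleteEdges {e}).Adj) S ∧ S.card = k} <
    sInf {k : ℕ | ∃ S : Finset (Fin 18), Maximal (Irr G18.Adj) S ∧ S.card = k} := by
  constructor
  · refine ⟨s(0, 1), ?_⟩
    rw [SimpleGraph.mem_edgeSet, adj_iff]
    decide +kernel
  · intro e he
    induction e using Sym2.ind with
    | h p q =>
      rw [SimpleGraph.mem_edgeSet] at he
      obtain ⟨S, hS, hc⟩ := upper p q he
      have h1 : sInf {k : ℕ | ∃ S : Finset (Fin 18),
          Maximal (Irr (G18.deleteEdges {s(p, q)}).Adj) S ∧ S.card = k} ≤ S.card :=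
        Nat.sInf_le ⟨S, hS, rfl⟩
      have hne : ({k : ℕ | ∃ S : Finset (Fin 18), Maximal (Irr G18.Adj) S ∧ S.card = k}).Nonempty := by
        have h0 : Irr G18.Adj ∅ := fun v hv => absurd hv (Finset.notMem_empty v)
        obtain ⟨T, -, hT⟩ := Finite.exists_le_maximal h0
        exact ⟨T.card, T, hT, rfl⟩
      obtain ⟨T, hT, hTc⟩ := Nat.sInf_mem hne
      have h2 := lower T hT
      omega

end Pool.Agent.H17.IrDrop
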