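import Mathlib
import Pool.Agent.H15.WI3

set_option autoImplicit false

namespace Pool.Agent.H17.PrimeGap

open Filter Topology Finset Pool.Agent.H15.WI

/-- primes in a residue class in `(x, ρ x]` for large `x`. -/
theorem exists_prime_ap {q : ℕ} [NeZero q] {b : ZMod q} (hb : IsUnit b) (ρ : ℝ) (hρ : 1 < ρ) :
    ∀ᶠ x : ℝ in atTop, ∃ p : ℕ, p.Prime ∧ (p : ZMod q) = b ∧ x < p ∧ (p : ℝ) ≤ ρ * x := by
  have h1 := pnt_ap hb
  have hc : (0 : ℝ) < (q.totient : ℝ)⁻¹ := by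
    have := Nat.totient_pos.2 (NeZero.pos q)
    positivity
  set c : ℝ := (q.totient : ℝ)⁻¹
  have h2 : Tendsto (fun x : ℝ => ρ * (thetaAP q b (ρ * x) / (ρ * x)) - thetaAP q b x / x) atTop
      (𝓝 (ρ * c - c)) :=
    ((h1.comp (tendsto_id.const_mul_atTop (by linarith : 0 < ρ))).const_mul ρ).sub h1
  have h3 := h2.eventually (lt_mem_nhds (show (0 : ℝ) < ρ * c - c by nlinarith))
  filter_upwards [h3, eventually_gt_atTop 0] with x hx hx0
  by_contra hne
  push Not at hne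
  have e : thetaAP q b (ρ * x) = thetaAP q b x := by
    unfold thetaAP
    congr 1
    ext p
    simp only [mem_filter, mem_Ioc]
    constructor
    · rintro ⟨⟨h0, h⟩, hp, hq⟩
      refine ⟨⟨h0, ?_⟩, hp, hq⟩
      rw [Nat.le_floor_iff (by positivity)] at h ⊢
      by_contra h'
      exact absurd h (not_le.2 (hne p hp hq (not_le.1 h')))
    · rintro ⟨⟨h0, h⟩, hp, hq⟩
      exact ⟨⟨h0, h.trans (Nat.floor_le_floor (by nlinarith))⟩, hp, hq⟩
  rw [e] at hx
  have : ρ * (thetaAP q b x / (ρ * x)) - thetaAP q b x / x = 0 := by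
    field_simp; ring
  linarith

theorem exists_prime (ρ : ℝ) (hρ : 1 < ρ) :
    ∀ᶠ x : ℝ in atTop, ∃ p : ℕ, p.Prime ∧ x < p ∧ (p : ℝ) ≤ ρ * x := by
  filter_upwards [exists_prime_ap (q := 1) (b := 1) isUnit_one ρ hρ] with x ⟨p, h1, _, h2, h3⟩
  exact ⟨p, h1, h2, h3⟩

end Pool.Agent.H17.PrimeGap
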