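import Mathlib
import Pool.Agent.H17.PrimeGap

set_option autoImplicit false

namespace Pool.Agent.H17.KL

open Finset Filter

theorem sum_div_mul {M : Type} [AddCommMonoid M] (f : ℕ → M) (m p : ℕ) (hp : p.Prime)
    (hm : Nat.Coprime m p) :
    ∑ d ∈ (m * p).divisors, f d = ∑ d ∈ m.divisors, f d + ∑ d ∈ m.divisors, f (d * p) := by
  rw [Nat.divisors_mul, mul_def, sum_image hm.mul_injOn_divisors, sum_product, hp.divisors,
    ← sum_add_distrib]
  refine sum_congr rfl fun d _ => ?_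
  rw [sum_pair hp.one_lt.ne]
  simp

noncomputable def KL (n : ℕ) : ℝ :=
  ∑ d ∈ n.divisors, (d : ℝ) * Real.log ((d : ℝ) / (2 * (Nat.totient d : ℝ)))

theorem tot2 (j : ℕ) : (Nat.totient (2 ^ (j + 1)) : ℝ) = 2 ^ j := by
  rw [Nat.totient_prime_pow_succ Nat.prime_two]; simp

theorem KL_two (a : ℕ) : KL (2 ^ a) = - Real.log 2 := by
  unfold KL
  rw [Nat.sum_divisors_prime_pow Nat.prime_two, sum_range_succ']
  have : ∀ j ∈ range a, ((2 ^ (j + 1) : ℕ) : ℝ) *
      Real.log (((2 ^ (j + 1) : ℕ) : ℝ) / (2 * (Nat.totient (2 ^ (j + 1)) : ℝ))) = 0 := by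
    intro j _
    rw [tot2]
    have : (((2 ^ (j + 1) : ℕ) : ℝ) / (2 * 2 ^ j)) = 1 := by
      push_cast; field_simp; ring
    rw [this]; simp
  rw [sum_eq_zero this]
  simp

theorem KL_mul (a p : ℕ) (hp : p.Prime) (h2 : 2 < p) :
    KL (2 ^ a * p) = - (p + 1) * Real.log 2 +
      p * Real.log (p / (p - 1)) * (2 ^ (a + 1) - 1) := by
  have hc : ∀ j, Nat.Coprime (2 ^ j) p := fun j =>
    Nat.Coprime.pow_left j ((Nat.coprime_primes Nat.prime_two hp).2 h2.ne)
  have h0 := KL_two a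
  unfold KL at h0 ⊢
  rw [sum_div_mul _ _ _ hp (hc a), h0, Nat.sum_divisors_prime_pow Nat.prime_two, sum_range_succ']
  have hp' : (2 : ℝ) < p := by exact_mod_cast h2
  have ht : (Nat.totient p : ℝ) = p - 1 := by
    rw [Nat.totient_prime hp, Nat.cast_sub hp.one_le]; simp
  have : ∀ j ∈ range a, ((2 ^ (j + 1) * p : ℕ) : ℝ) *
      Real.log (((2 ^ (j + 1) * p : ℕ) : ℝ) / (2 * (Nat.totient (2 ^ (j + 1) * p) : ℝ))) =
      2 * p * Real.log (p / (p - 1)) * 2 ^ j := by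
    intro j _
    rw [Nat.totient_mul (hc _), Nat.cast_mul (Nat.totient _), tot2, ht]
    have : (((2 ^ (j + 1) * p : ℕ) : ℝ) / (2 * (2 ^ j * (p - 1)))) = p / (p - 1) := by
      have : (p : ℝ) - 1 ≠ 0 := by linarith
      push_cast; field_simp; ring
    rw [this]; push_cast; ring
  rw [sum_congr rfl this, ← mul_sum, geom_sum_eq (by norm_num)]
  simp only [pow_zero, one_mul, ht]
  have : (p : ℝ) / (2 * (p - 1)) = p / (p - 1) / 2 := by
    have : (p : ℝ) - 1 ≠ 0 := by linarith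
    field_simp
  have h3 : (p : ℝ) / (p - 1) ≠ 0 := by
    have : (0 : ℝ) < p - 1 := by linarith
    positivity
  rw [this, Real.log_div h3 two_ne_zero]
  ring

theorem logb (x : ℝ) (h : 2 < x) :
    1 ≤ x * Real.log (x / (x - 1)) ∧ x * Real.log (x / (x - 1)) ≤ 1 + 1 / (x - 1) := by
  have h1 : 0 < x - 1 := by linarith
  have h0 : 0 < x := by linarith
  have a := Real.one_sub_inv_le_log_of_pos (div_pos h0 h1)
  have b := Real.log_le_sub_one_of_pos (div_pos h0 h1)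
  constructor
  · have : 1 - (x / (x - 1))⁻¹ = 1 / x := by field_simp; ring
    rw [this] at a
    have := mul_le_mul_of_nonneg_left a h0.le
    rwa [mul_one_div_cancel h0.ne'] at this
  · have := mul_le_mul_of_nonneg_left b h0.le
    refine this.trans (le_of_eq ?_)
    field_simp; ring

theorem good (a p : ℕ) (ha : 4 ≤ a) (hp : p.Prime) (h1 : (2 : ℝ) ^ (a + 1) < p)
    (h2 : (p : ℝ) ≤ 5 / 4 * 2 ^ (a + 1)) :
    ∑ d ∈ (2 ^ a * p).divisors, d < 2 * (2 ^ a * p) ∧ 0 ≤ KL (2 ^ a * p) ∧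
      ∀ d, d ∣ 2 ^ a * p → d < 2 ^ a * p → KL d < 0 := by
  have hA : (16 : ℝ) ≤ 2 ^ a := by
    calc (16 : ℝ) = 2 ^ 4 := by norm_num
      _ ≤ 2 ^ a := pow_le_pow_right₀ (by norm_num) ha
  rw [pow_succ] at h1 h2
  have hp2 : (2 : ℝ) < p := by linarith
  have hp2' : 2 < p := by exact_mod_cast hp2
  have l1 := Real.log_two_gt_d9
  have l2 := Real.log_two_lt_d9
  obtain ⟨b1, b2⟩ := logb p hp2
  have hc : Nat.Coprime (2 ^ a) p :=
    Nat.Coprime.pow_left a ((Nat.coprime_primes Nat.prime_two hp).2 hp2'.ne)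
  refine ⟨?_, ?_, fun d hd hlt => ?_⟩
  · rw [sum_div_mul (fun d => d) _ _ hp hc, ← sum_mul, Nat.sum_divisors_prime_pow Nat.prime_two]
    have : ∑ j ∈ range (a + 1), 2 ^ j + 1 = 2 ^ a * 2 := by
      rw [Nat.geomSum_eq le_rfl]
      have : 0 < 2 ^ a := by positivity
      simp [pow_succ]; omega
    have h1' : 2 ^ a * 2 < p := by exact_mod_cast h1
    nlinarith
  · rw [KL_mul a p hp hp2', pow_succ]
    nlinarith
  · obtain ⟨u, v, hu, hv, rfl⟩ := Nat.dvd_mul.1 hd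
    obtain ⟨j, hj, rfl⟩ := (Nat.dvd_prime_pow Nat.prime_two).1 hu
    rcases (Nat.dvd_prime hp).1 hv with rfl | rfl
    · rw [mul_one, KL_two]; linarith
    · have hja : j + 1 ≤ a := by
        have := (Nat.pow_lt_pow_iff_right (by norm_num : 1 < 2)).1
          (lt_of_mul_lt_mul_right hlt (Nat.zero_le _))
        omega
      have hj2 : (2 : ℝ) ^ (j + 1) ≤ 2 ^ a := pow_le_pow_right₀ (by norm_num) hja
      have hj3 : (1 : ℝ) ≤ 2 ^ (j + 1) := one_le_pow₀ (by norm_num)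
      rw [KL_mul j v hp hp2']
      have b3 : 1 / ((v : ℝ) - 1) ≤ 1 / 16 := by
        apply one_div_le_one_div_of_le <;> linarith
      nlinarith

theorem infinite : {n : ℕ | 0 < n ∧ ∑ d ∈ n.divisors, d < 2 * n ∧ 0 ≤ KL n ∧
    ∀ d, d ∣ n → d < n → KL d < 0}.Infinite := by
  refine Set.infinite_of_forall_exists_gt fun N => ?_
  have h := (tendsto_pow_atTop_atTop_of_one_lt (by norm_num : (1 : ℝ) < 2)).comp
    (tendsto_add_atTop_nat 1) |>.eventually (PrimeGap.exists_prime (5 / 4) (by norm_num))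
  obtain ⟨a, ⟨p, hp, h1, h2⟩, h3, h4⟩ :=
    (h.and ((eventually_ge_atTop 4).and (eventually_ge_atTop N))).exists
  refine ⟨2 ^ a * p, ⟨by have := hp.pos; positivity, good a p h3 hp h1 h2⟩, ?_⟩
  have := Nat.lt_two_pow_self (n := a)
  have := hp.pos
  nlinarith

end Pool.Agent.H17.KL
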