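import Mathlib

set_option autoImplicit false

namespace Pool.Agent.H17.KSeq

def ok (a c c' : ZMod 11) (d : ℕ) : Prop := ∀ i : Fin 6, a + d * c + ((i : ℕ) + 1) * c' ≠ 0

instance (a c c' : ZMod 11) (d : ℕ) : Decidable (ok a c c' d) := by unfold ok; infer_instance

def pick (a c c' : ZMod 11) : ℕ :=
  if ok a c c' 3 then 3 else if ok a c c' 4 then 4 else if ok a c c' 5 then 5 else 6

theorem pick_bd (a c c' : ZMod 11) : 3 ≤ pick a c c' ∧ pick a c c' ≤ 6 := by
  unfold pick; split_ifs <;> omega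

theorem pick_ok : ∀ a c c' : ZMod 11, a ≠ 0 → c ≠ 0 → c' ≠ 0 → c' ≠ c → ok a 0 c 0 →
    ok a c c' (pick a c c') := by decide +kernel

def st : ℕ → ℕ × (ℕ → ℤ)
  | 0 => (4, fun n => n + 1)
  | j + 1 => ((st j).1 + pick ((st j).2 ((st j).1 - 1)) ((st j).2 (j + 1)) ((st j).2 (j + 2)),
      fun n => if n < (st j).1 then (st j).2 n
        else (st j).2 ((st j).1 - 1) + ((n - (st j).1 : ℕ) + 1) * (st j).2 (j + 1))

theorem st_step (j : ℕ) : (st j).1 + 3 ≤ (st (j + 1)).1 ∧ (st (j + 1)).1 ≤ (st j).1 + 6 := by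
  have := pick_bd ((st j).2 ((st j).1 - 1)) ((st j).2 (j + 1)) ((st j).2 (j + 2))
  simp only [st]; omega

theorem st_ge : ∀ j, 3 * j + 4 ≤ (st j).1
  | 0 => by simp [st]
  | j + 1 => by have := st_ge j; have := st_step j; omega

theorem st_stab (j n : ℕ) (h : n < (st j).1) : ∀ i, (st j).1 ≤ (st (j + i)).1 ∧
    (st (j + i)).2 n = (st j).2 n
  | 0 => ⟨le_rfl, rfl⟩
  | i + 1 => by
      obtain ⟨h1, h2⟩ := st_stab j n h i
      have := st_step (j + i)
      refine ⟨by rw [← add_assoc]; omega, ?_⟩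
      rw [← add_assoc, ← h2]
      simp only [st]
      rw [if_pos (by omega)]

def B (n : ℕ) : ℤ := (st n).2 n

theorem B_eq (j n : ℕ) (h : n < (st j).1) : (st j).2 n = B n := by
  have hn : n < (st n).1 := by have := st_ge n; omega
  have a := (st_stab j n h n).2
  have b := (st_stab n n hn j).2
  rw [add_comm] at b
  rw [B, ← a, b]

def k : ℕ → ℕ
  | 0 => 0
  | j + 1 => (st j).1

theorem k_step : ∀ j, k j + 3 ≤ k (j + 1)
  | 0 => by simp [k, st]
  | j + 1 => (st_step j).1

theorem k_mono : StrictMono k := strictMono_nat_of_lt_succ fun j => by have := k_step j; omega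

theorem B_block (j i : ℕ) (h : (st j).1 + i < (st (j + 1)).1) :
    B ((st j).1 + i) = B ((st j).1 - 1) + (i + 1) * B (j + 1) := by
  have := st_ge j
  rw [← B_eq (j + 1) _ h, ← B_eq j ((st j).1 - 1) (by omega), ← B_eq j (j + 1) (by omega)]
  simp only [st]
  rw [if_neg (by omega), Nat.add_sub_cancel_left]

theorem B_rec (j n : ℕ) (h1 : k j ≤ n + 1) (h2 : n + 1 < k (j + 1)) :
    B (n + 1) = B n + B j := by
  rcases j with _ | j
  · have h3 : n + 1 < (st 0).1 := h2
    rw [← B_eq 0 _ h3, ← B_eq 0 n (by omega), ← B_eq 0 0 (by omega)]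
    simp [st]
  · simp only [k] at h1 h2
    obtain ⟨i, hi⟩ := Nat.exists_eq_add_of_le h1
    have := st_ge j
    rw [hi, B_block j i (by omega)]
    rcases i with _ | i
    · rw [show (st j).1 - 1 = n by omega]; simp
    · rw [show n = (st j).1 + i by omega, B_block j i (by omega)]; push_cast; ring

def pi (n : ℕ) : ℕ := Nat.findGreatest (fun j => k j ≤ n) n

theorem pi_spec (n : ℕ) : k (pi n) ≤ n ∧ n < k (pi n + 1) ∧ pi n ≤ n := by
  refine ⟨Nat.findGreatest_spec (P := fun j => k j ≤ n) (Nat.zero_le n) (by simp [k]), ?_,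
    Nat.findGreatest_le n⟩
  by_contra hc
  have h1 : pi n + 1 ≤ n := le_trans (k_mono.id_le (pi n + 1)) (not_lt.1 hc)
  exact Nat.findGreatest_is_greatest (P := fun j => k j ≤ n) (Nat.lt_succ_self _) h1 (not_lt.1 hc)

theorem pi_eq (j n : ℕ) (h1 : k j ≤ n) (h2 : n < k (j + 1)) : pi n = j := by
  obtain ⟨a, b, -⟩ := pi_spec n
  have c1 : j < pi n + 1 := k_mono.lt_iff_lt.1 (by omega)
  have c2 : pi n < j + 1 := k_mono.lt_iff_lt.1 (by omega)
  omega

theorem inv : ∀ j, (∀ n < (st j).1, (B n : ZMod 11) ≠ 0) ∧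
    ok (B ((st j).1 - 1)) 0 (B (j + 1)) 0
  | 0 => by
      have h : ∀ n < 4, B n = n + 1 := fun n hn => by rw [← B_eq 0 n hn]; rfl
      refine ⟨fun n hn => ?_, ?_⟩
      · have hn' : n < 4 := hn
        rw [h n hn']; interval_cases n <;> decide
      · change ok (B 3) 0 (B 1) 0
        rw [h 3 (by norm_num), h 1 (by norm_num)]; decide
  | j + 1 => by
      obtain ⟨h1, h2⟩ := inv j
      have hge := st_ge j
      have hst := st_step j
      refine ⟨fun n hn => ?_, ?_⟩
      · by_cases hlt : n < (st j).1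
        · exact h1 n hlt
        · obtain ⟨i, rfl⟩ := Nat.exists_eq_add_of_le (not_lt.1 hlt)
          rw [B_block j i hn]
          have := h2 ⟨i, by omega⟩
          simpa using this
      · obtain ⟨a, b, c⟩ := pi_spec (j + 1 + 1)
        have hr := B_rec _ (j + 1) a b
        have hne : (B (j + 2) : ZMod 11) ≠ B (j + 1) := by
          rw [show j + 2 = j + 1 + 1 by ring, hr]; push_cast
          intro h0
          exact h1 _ (by omega : pi (j + 1 + 1) < (st j).1) (by linear_combination h0)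
        have hp := pick_ok _ _ _ (h1 ((st j).1 - 1) (by omega)) (h1 (j + 1) (by omega))
          (h1 (j + 2) (by omega)) hne h2
        have e : (st (j + 1)).1 = (st j).1 +
            pick (B ((st j).1 - 1)) (B (j + 1)) (B (j + 2)) := by
          rw [← B_eq j ((st j).1 - 1) (by omega), ← B_eq j (j + 1) (by omega),
            ← B_eq j (j + 2) (by omega)]; rfl
        obtain ⟨d, hd⟩ : ∃ d, pick (B ((st j).1 - 1)) (B (j + 1)) (B (j + 2)) = d + 1 :=
          ⟨pick (B ((st j).1 - 1)) (B (j + 1)) (B (j + 2)) - 1, by omega⟩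
        rw [hd] at hp e
        rw [show (st (j + 1)).1 - 1 = (st j).1 + d by omega, B_block j d (by omega)]
        intro i
        have := hp i
        push_cast at this ⊢
        simpa using this

theorem B_ne (n : ℕ) : ¬ (11 : ℤ) ∣ B n := by
  intro h
  have := (inv n).1 n (by have := st_ge n; omega)
  exact this ((ZMod.intCast_zmod_eq_zero_iff_dvd _ 11).2 h)

end Pool.Agent.H17.KSeq
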