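import Mathlib

set_option autoImplicit false

namespace Pool.Agent.H17.LF

open Finset

theorem generic {ι κ : Type} [Fintype κ] (P : κ → MvPolynomial ι ℤ)
    (h : ∀ k, ∃ x, MvPolynomial.eval x (P k) ≠ 0) :
    ∃ x, ∀ k, MvPolynomial.eval x (P k) ≠ 0 := by
  classical
  have h1 : ∏ k, P k ≠ 0 := by
    rw [Finset.prod_ne_zero_iff]
    intro k _ hk
    obtain ⟨x, hx⟩ := h k
    exact hx (by rw [hk]; simp)
  by_contra hc
  push Not at hc
  apply h1
  apply MvPolynomial.funext
  intro x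
  obtain ⟨k, hk⟩ := hc x
  rw [map_prod, map_zero]
  exact Finset.prod_eq_zero (Finset.mem_univ k) hk

theorem exists_prime_avoid {κ : Type} [Fintype κ] (z : κ → ℤ) (hz : ∀ k, z k ≠ 0) :
    ∃ p : ℕ, p.Prime ∧ ∀ k, ((z k : ℤ) : ZMod p) ≠ 0 := by
  obtain ⟨p, hp, hpp⟩ := Nat.exists_infinite_primes (∑ k, (z k).natAbs + 1)
  refine ⟨p, hpp, fun k hk => ?_⟩
  rw [ZMod.intCast_zmod_eq_zero_iff_dvd] at hk
  have h1 : p ∣ (z k).natAbs := Int.natCast_dvd.mp hk
  have h2 := Nat.le_of_dvd (Int.natAbs_pos.mpr (hz k)) h1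
  have h3 : (z k).natAbs ≤ ∑ k, (z k).natAbs :=
    Finset.single_le_sum (f := fun k => (z k).natAbs) (fun _ _ => Nat.zero_le _) (Finset.mem_univ k)
  omega

theorem not_prop {m : ℕ} (u v : Fin m → ℤ) (hu : ∀ i, u i ≠ 0)
    (gu : Finset.univ.gcd u = 1) (gv : Finset.univ.gcd v = 1)
    (h : ¬ ∃ σ : Equiv.Perm (Fin m), (∀ i, v i = u (σ i)) ∨ (∀ i, v i = -u (σ i)))
    (σ : Equiv.Perm (Fin m)) (j : Fin m) : ∃ j', u (σ j') * v j ≠ u (σ j) * v j' := by
  by_contra hc
  push Not at hc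
  have d1 : u (σ j) ∣ v j := by
    have : u (σ j) ∣ Finset.univ.gcd (fun l => v j * u l) := by
      apply Finset.dvd_gcd
      intro l _
      have := hc (σ.symm l)
      rw [Equiv.apply_symm_apply] at this
      exact ⟨v (σ.symm l), by rw [← this]; ring⟩
    rw [Finset.gcd_mul_left, gu, mul_one] at this
    exact (dvd_normalize_iff.mp this)
  have d2 : v j ∣ u (σ j) := by
    have : v j ∣ Finset.univ.gcd (fun l => u (σ j) * v l) := by
      apply Finset.dvd_gcd
      intro l _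
      exact ⟨u (σ l), by rw [← hc l]; ring⟩
    rw [Finset.gcd_mul_left, gv, mul_one] at this
    exact (dvd_normalize_iff.mp this)
  apply h
  refine ⟨σ, ?_⟩
  rcases Int.natAbs_eq_natAbs_iff.mp (Int.natAbs_eq_of_dvd_dvd d2 d1) with e | e
  · left
    intro i
    have := hc i
    rw [e] at this
    have h0 := hu (σ j)
    apply mul_left_cancel₀ h0
    linarith
  · right
    intro i
    have := hc i
    rw [e] at this
    have h0 := hu (σ j)
    apply mul_left_cancel₀ h0
    linarith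

theorem pow_gap (c n : ℕ) (hn : 1 ≤ n) : ∃ k, c * n ^ k < (n + 1) ^ k := by
  have key : ∀ k, n ^ k * (n + k) ≤ (n + 1) ^ k * n := by
    intro k
    induction k with
    | zero => simp
    | succ k ih =>
      calc n ^ (k + 1) * (n + (k + 1)) = n ^ k * (n * (n + (k + 1))) := by ring
        _ ≤ n ^ k * ((n + k) * (n + 1)) := by
            apply Nat.mul_le_mul_left
            nlinarith
        _ = n ^ k * (n + k) * (n + 1) := by ring
        _ ≤ (n + 1) ^ k * n * (n + 1) := Nat.mul_le_mul_right _ ih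
        _ = (n + 1) ^ (k + 1) * n := by ring
  refine ⟨c * n, ?_⟩
  have h1 := key (c * n)
  have h2 : 0 < n ^ (c * n) := pow_pos (by omega) _
  by_contra hc
  push Not at hc
  have h3 : (n + 1) ^ (c * n) * n ≤ c * n ^ (c * n) * n := Nat.mul_le_mul_right _ hc
  nlinarith

end Pool.Agent.H17.LF
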