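import Pool.Agent.H17.LF1

set_option autoImplicit false

namespace Pool.Agent.H17.LF

open Finset

variable {m : ℕ}

def g1 {R : Type} [CommRing R] (v : Fin m → ℤ) (τ : ℤ) (a : Fin m × Fin (m + 1) → R)
    (σ : Fin m → Fin m) (β : Fin m → Fin (m + 1)) (c : ℤ) : R :=
  ∑ j, (v j : R) * a (σ j, β j) + (c : R) - (τ : R)

def g2 {R : Type} [CommRing R] (u v : Fin m → ℤ) (τ : ℤ) (a : Fin m × Fin (m + 1) → R)
    (i : Fin m) (b b' : Fin (m + 1))
    (σ : Fin m → Fin m) (β : Fin m → Fin (m + 1)) (j : Fin m) (c : ℤ)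
    (σ2 : Fin m → Fin m) (β2 : Fin m → Fin (m + 1)) (j2 : Fin m) (c2 : ℤ) : R :=
  (v j : R) * (v j2 : R) *
      (∑ l ∈ univ.erase i, (u l : R) * a (l, b) - ∑ l ∈ univ.erase i, (u l : R) * a (l, b')) +
    (u i : R) * ((v j2 : R) * ((τ : R) - (c : R) - ∑ k ∈ univ.erase j, (v k : R) * a (σ k, β k)) -
      (v j : R) * ((τ : R) - (c2 : R) - ∑ k ∈ univ.erase j2, (v k : R) * a (σ2 k, β2 k)))

theorem map_g1 {R S : Type} [CommRing R] [CommRing S] (f : R →+* S) (v : Fin m → ℤ) (τ : ℤ)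
    (a : Fin m × Fin (m + 1) → R) (σ : Fin m → Fin m) (β : Fin m → Fin (m + 1)) (c : ℤ) :
    f (g1 v τ a σ β c) = g1 v τ (fun x => f (a x)) σ β c := by
  simp [g1, map_sum]

theorem map_g2 {R S : Type} [CommRing R] [CommRing S] (f : R →+* S) (u v : Fin m → ℤ) (τ : ℤ)
    (a : Fin m × Fin (m + 1) → R) (i : Fin m) (b b' : Fin (m + 1))
    (σ : Fin m → Fin m) (β : Fin m → Fin (m + 1)) (j : Fin m) (c : ℤ)
    (σ2 : Fin m → Fin m) (β2 : Fin m → Fin (m + 1)) (j2 : Fin m) (c2 : ℤ) :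
    f (g2 u v τ a i b b' σ β j c σ2 β2 j2 c2) =
      g2 u v τ (fun x => f (a x)) i b b' σ β j c σ2 β2 j2 c2 := by
  simp only [g2, map_add, map_sub, map_mul, map_sum, map_intCast]

theorem g2_nonzero (u v : Fin m → ℤ) (hu : ∀ i, u i ≠ 0) (hv : ∀ i, v i ≠ 0) (τ : ℤ)
    (H : ∀ (σ : Equiv.Perm (Fin m)) (j : Fin m), ∃ j', u (σ j') * v j ≠ u (σ j) * v j')
    (b b' : Fin (m + 1)) (hb : b' < b)
    (σ : Equiv.Perm (Fin m)) (β : Fin m → Fin (m + 1)) (j : Fin m) (c : ℤ)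
    (σ2 : Fin m → Fin m) (β2 : Fin m → Fin (m + 1)) (j2 : Fin m) (c2 : ℤ)
    (hj : β j = b) (h2 : ∀ k, β2 k ≤ b') :
    ∃ x : Fin m × Fin (m + 1) → ℤ, g2 u v τ x (σ j) b b' σ β j c σ2 β2 j2 c2 ≠ 0 := by
  classical
  have key : ∀ j0, j0 ≠ j →
      g2 u v τ (fun y => if y = (σ j0, b) then (1 : ℤ) else 0) (σ j) b b' σ β j c σ2 β2 j2 c2 -
        g2 u v τ (fun _ => (0 : ℤ)) (σ j) b b' σ β j c σ2 β2 j2 c2 =
      v j2 * (v j * u (σ j0) - u (σ j) * (if β j0 = b then v j0 else 0)) := by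
    intro j0 h0
    have e1 : ∑ l ∈ univ.erase (σ j), u l * (if (l, b) = (σ j0, b) then (1 : ℤ) else 0) =
        u (σ j0) := by
      rw [Finset.sum_eq_single (σ j0)]
      · simp
      · intro l _ hl
        simp [hl]
      · intro hn
        exact absurd (Finset.mem_erase.mpr ⟨fun e => h0 (σ.injective e), Finset.mem_univ _⟩) hn
    have e2 : ∑ l ∈ univ.erase (σ j), u l * (if (l, b') = (σ j0, b) then (1 : ℤ) else 0) = 0 := by
      apply Finset.sum_eq_zero
      intro l _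
      have : ¬ ((l, b') = (σ j0, b)) := by
        intro e
        exact absurd (Prod.ext_iff.mp e).2 (ne_of_lt hb)
      simp [this]
    have e3 : ∑ k ∈ univ.erase j, v k * (if (σ k, β k) = (σ j0, b) then (1 : ℤ) else 0) =
        (if β j0 = b then v j0 else 0) := by
      rw [Finset.sum_eq_single j0]
      · by_cases hh : β j0 = b <;> simp [hh]
      · intro k _ hk
        have : ¬ ((σ k, β k) = (σ j0, b)) := by
          intro e
          exact hk (σ.injective (Prod.ext_iff.mp e).1)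
        simp [this]
      · intro hn
        exact absurd (Finset.mem_erase.mpr ⟨h0, Finset.mem_univ _⟩) hn
    have e4 : ∑ k ∈ univ.erase j2, v k * (if (σ2 k, β2 k) = (σ j0, b) then (1 : ℤ) else 0) = 0 := by
      apply Finset.sum_eq_zero
      intro k _
      have : ¬ ((σ2 k, β2 k) = (σ j0, b)) := by
        intro e
        have e' : β2 k = b := (Prod.ext_iff.mp e).2
        have := h2 k
        rw [e'] at this
        exact absurd hb (not_lt.mpr this)
      simp [this]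
    simp only [g2, Int.cast_id, e1, e2, e3, e4, mul_zero, Finset.sum_const_zero]
    ring
  have ex : ∃ j0, j0 ≠ j ∧
      v j2 * (v j * u (σ j0) - u (σ j) * (if β j0 = b then v j0 else 0)) ≠ 0 := by
    by_cases hall : ∀ k, β k = b
    · obtain ⟨j0, hj0⟩ := H σ j
      refine ⟨j0, ?_, ?_⟩
      · rintro rfl
        exact hj0 rfl
      · rw [if_pos (hall j0)]
        apply mul_ne_zero (hv _)
        intro e
        apply hj0
        linarith
    · push Not at hall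
      obtain ⟨j0, hj0⟩ := hall
      refine ⟨j0, ?_, ?_⟩
      · rintro rfl
        exact hj0 hj
      · rw [if_neg hj0, mul_zero, sub_zero]
        exact mul_ne_zero (hv _) (mul_ne_zero (hv _) (hu _))
  obtain ⟨j0, h0, hne⟩ := ex
  by_contra hc
  push Not at hc
  have := key j0 h0
  rw [hc, hc, sub_zero] at this
  exact hne this.symm

theorem generic_data (u v : Fin m → ℤ) (hu : ∀ i, u i ≠ 0) (hv : ∀ i, v i ≠ 0) (τ : ℤ)
    (H : ∀ (σ : Equiv.Perm (Fin m)) (j : Fin m), ∃ j', u (σ j') * v j ≠ u (σ j) * v j')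
    (C : Finset ℤ) (hτ : τ ∉ C) :
    ∃ p : ℕ, p.Prime ∧ ∃ a : Fin m × Fin (m + 1) → ZMod p,
      (∀ i, (u i : ZMod p) ≠ 0) ∧
      (∀ σ β, ∀ c ∈ C, g1 v τ a σ β c ≠ 0) ∧
      (∀ (b b' : Fin (m + 1)), b' < b → ∀ (σ : Equiv.Perm (Fin m)) (β : Fin m → Fin (m + 1))
        (j : Fin m), ∀ c ∈ C, ∀ (σ2 : Fin m → Fin m) (β2 : Fin m → Fin (m + 1)) (j2 : Fin m),
        ∀ c2 ∈ C, β j = b → (∀ k, β2 k ≤ b') →
        g2 u v τ a (σ j) b b' σ β j c σ2 β2 j2 c2 ≠ 0) := by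
  classical
  let κ1 := (Fin m → Fin m) × (Fin m → Fin (m + 1)) × C
  let T := (Fin (m + 1) × Fin (m + 1)) ×
    (Equiv.Perm (Fin m) × (Fin m → Fin (m + 1)) × Fin m × C) ×
    ((Fin m → Fin m) × (Fin m → Fin (m + 1)) × Fin m × C)
  let κ2 := {t : T // t.1.2 < t.1.1 ∧ t.2.1.2.1 t.2.1.2.2.1 = t.1.1 ∧ ∀ k, t.2.2.2.1 k ≤ t.1.2}
  let F : ∀ (R : Type) [CommRing R], (Fin m × Fin (m + 1) → R) → (Fin m ⊕ κ1 ⊕ κ2) → R :=
    fun R _ a k => match k with
      | Sum.inl i => (u i : R)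
      | Sum.inr (Sum.inl t) => g1 v τ a t.1 t.2.1 t.2.2
      | Sum.inr (Sum.inr t) => g2 u v τ a (t.1.2.1.1 t.1.2.1.2.2.1) t.1.1.1 t.1.1.2
          t.1.2.1.1 t.1.2.1.2.1 t.1.2.1.2.2.1 t.1.2.1.2.2.2
          t.1.2.2.1 t.1.2.2.2.1 t.1.2.2.2.2.1 t.1.2.2.2.2.2
  have mapF : ∀ (R S : Type) [CommRing R] [CommRing S] (f : R →+* S) a k,
      f (F R a k) = F S (fun x => f (a x)) k := by
    intro R S _ _ f a k
    rcases k with i | t | t
    · simp [F]
    · exact map_g1 f _ _ _ _ _ _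
    · exact map_g2 f _ _ _ _ _ _ _ _ _ _ _ _ _ _ _
  have evalF : ∀ (x : Fin m × Fin (m + 1) → ℤ) k,
      MvPolynomial.eval x (F (MvPolynomial (Fin m × Fin (m + 1)) ℤ) MvPolynomial.X k) =
        F ℤ x k := by
    intro x k
    rw [mapF]
    simp
  obtain ⟨x, hx⟩ := generic (F (MvPolynomial (Fin m × Fin (m + 1)) ℤ) MvPolynomial.X) (by
    intro k
    simp only [evalF]
    rcases k with i | t | t
    · exact ⟨0, by simpa [F] using hu i⟩
    · refine ⟨0, ?_⟩
      have : (t.2.2 : ℤ) ≠ τ := fun e => hτ (e ▸ t.2.2.2)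
      simpa [F, g1, sub_eq_zero] using this
    · exact g2_nonzero u v hu hv τ H _ _ t.2.1 _ _ _ _ _ _ _ _ t.2.2.1 t.2.2.2)
  simp only [evalF] at hx
  obtain ⟨p, hp, hz⟩ := exists_prime_avoid (F ℤ x) hx
  have hz' : ∀ k, F (ZMod p) (fun y => (x y : ZMod p)) k ≠ 0 := by
    intro k
    have := mapF ℤ (ZMod p) (Int.castRingHom _) x k
    simp only [eq_intCast] at this
    rw [← this]
    exact hz k
  refine ⟨p, hp, fun y => (x y : ZMod p), fun i => hz' (Sum.inl i), fun σ β c hc =>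
    hz' (Sum.inr (Sum.inl (σ, β, ⟨c, hc⟩))), ?_⟩
  intro b b' hb σ β j c hc σ2 β2 j2 c2 hc2 h1 h2
  exact hz' (Sum.inr (Sum.inr ⟨((b, b'), (σ, β, j, ⟨c, hc⟩), (σ2, β2, j2, ⟨c2, hc2⟩)), hb, h1, h2⟩))

theorem core (u v : Fin m → ℤ) (hu : ∀ i, u i ≠ 0) (hv : ∀ i, v i ≠ 0) (τ : ℤ) (hm : 0 < m)
    (H : ∀ (σ : Equiv.Perm (Fin m)) (j : Fin m), ∃ j', u (σ j') * v j ≠ u (σ j) * v j')
    (C : Finset ℤ) (hτ : τ ∉ C) :
    ∃ p : ℕ, p.Prime ∧ ∃ R : Set (Fin m → ZMod p),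
      (∀ s : Fin m → ZMod p, ∃ x : Fin m → Fin m → ZMod p, (∀ j, x j ∈ R) ∧
        ∀ k, ∑ j, (u j : ZMod p) * x j k = s k) ∧
      (∀ x : Fin m → Fin m → ZMod p, (∀ j, x j ∈ R) → ∀ c : Fin m → ℤ, (∀ k, c k ∈ C) →
        ¬ ∀ k, ∑ j, (v j : ZMod p) * x j k + (c k : ZMod p) = (τ : ZMod p)) := by
  classical
  obtain ⟨p, hp, a, hup, G1, G2⟩ := generic_data u v hu hv τ H C hτ
  have : Fact p.Prime := ⟨hp⟩
  let P : Fin m → Fin (m + 1) → ZMod p → Fin m → ZMod p :=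
    fun i b t k => if k = i then t else a (i, b)
  let D : Fin m → Fin (m + 1) → ZMod p → Prop := fun i b t =>
    ∃ (σ : Equiv.Perm (Fin m)) (β : Fin m → Fin (m + 1)) (j : Fin m), ∃ c ∈ C,
      σ j = i ∧ β j = b ∧ (∀ k, β k ≤ b) ∧
      (v j : ZMod p) * t + ∑ k ∈ univ.erase j, (v k : ZMod p) * a (σ k, β k) + (c : ZMod p) =
        (τ : ZMod p)
  refine ⟨p, hp, {y | ∃ i b t, ¬ D i b t ∧ y = P i b t}, ?_, ?_⟩
  · intro s
    let t : Fin (m + 1) → Fin m → ZMod p := fun b i =>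
      (s i - ∑ l ∈ univ.erase i, (u l : ZMod p) * a (l, b)) / (u i : ZMod p)
    have ht : ∀ b i, (u i : ZMod p) * t b i + ∑ l ∈ univ.erase i, (u l : ZMod p) * a (l, b) =
        s i := by
      intro b i
      have := hup i
      simp only [t]
      field_simp
      ring
    have ex : ∃ b, ∀ i, ¬ D i b (t b i) := by
      by_contra hc
      push Not at hc
      choose f hf using hc
      obtain ⟨b1, b2, hne, hff⟩ := Fintype.exists_ne_map_eq_of_card_lt f (by simp)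
      have main : ∀ b b' : Fin (m + 1), b' < b → f b = f b' → False := by
        intro b b' hb e
        obtain ⟨σ, β, j, c, hc, e1, e2, e3, e4⟩ := hf b
        obtain ⟨σ2, β2, j2, c2, hc2, f1, f2, f3, f4⟩ := hf b'
        apply G2 b b' hb σ β j c hc σ2 β2 j2 c2 hc2 e2 f3
        have t1 := ht b (f b)
        have t2 := ht b' (f b')
        rw [← e] at t2 f4
        rw [e1]
        simp only [g2]
        linear_combination (v j : ZMod p) * (v j2 : ZMod p) * (t1 - t2) -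
          (u (f b) : ZMod p) * (v j2 : ZMod p) * e4 + (u (f b) : ZMod p) * (v j : ZMod p) * f4
      rcases lt_or_gt_of_ne hne with h | h
      · exact main b2 b1 h hff.symm
      · exact main b1 b2 h hff
    obtain ⟨b, hb⟩ := ex
    refine ⟨fun i => P i b (t b i), fun i => ⟨i, b, t b i, hb i, rfl⟩, fun k => ?_⟩
    rw [← ht b k, ← Finset.add_sum_erase _ _ (Finset.mem_univ k)]
    congr 1
    · simp [P]
    · apply Finset.sum_congr rfl
      intro l hl
      have : k ≠ l := fun e => (Finset.mem_erase.mp hl).1 e.symm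
      simp [P, this]
  · intro x hx c hc hall
    choose σ β t hD hx' using hx
    by_cases hs : Function.Surjective σ
    · have hbij : Function.Bijective σ := ⟨Finite.injective_iff_surjective.mpr hs, hs⟩
      have : Nonempty (Fin m) := ⟨⟨0, hm⟩⟩
      obtain ⟨j, hj⟩ := Finite.exists_max β
      apply hD j
      refine ⟨Equiv.ofBijective σ hbij, β, j, c (σ j), hc _, rfl, rfl, hj, ?_⟩
      rw [← hall (σ j), ← Finset.add_sum_erase _ _ (Finset.mem_univ j)]
      congr 2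
      · simp [hx' j, P]
      · apply Finset.sum_congr rfl
        intro l hl
        have : σ j ≠ σ l := fun e => (Finset.mem_erase.mp hl).1 (hbij.1 e).symm
        simp [hx' l, P, this]
    · simp only [Function.Surjective, not_forall, not_exists] at hs
      obtain ⟨k, hk⟩ := hs
      apply G1 σ β (c k) (hc k)
      rw [g1, ← hall k, sub_eq_zero]
      congr 1
      apply Finset.sum_congr rfl
      intro l _
      have : k ≠ σ l := fun e => hk l e.symm
      simp [hx' l, P, this]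

end Pool.Agent.H17.LF
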