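import Pool.Agent.H17.LF2

set_option autoImplicit false

namespace Pool.Agent.H17.LF

open Finset

variable {m : ℕ}

/-- image of a finite set of vectors under a linear form -/
noncomputable def img (w : Fin m → ℤ) (A : Finset (Fin m → ℤ)) : Finset (Fin m → ℤ) :=
  (Fintype.piFinset fun _ : Fin m => A).image (fun x => fun k => ∑ j, w j * x j k)

theorem mem_img (w : Fin m → ℤ) (A : Finset (Fin m → ℤ)) (y : Fin m → ℤ) :
    y ∈ img w A ↔ ∃ x : Fin m → Fin m → ℤ, (∀ j, x j ∈ A) ∧ ∀ k, y k = ∑ j, w j * x j k := by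
  simp only [img, Finset.mem_image, Fintype.mem_piFinset]
  constructor
  · rintro ⟨x, hx, rfl⟩
    exact ⟨x, hx, fun _ => rfl⟩
  · rintro ⟨x, hx, h⟩
    exact ⟨x, hx, (funext h).symm⟩

/-- digit sets -/
noncomputable def dig (p : ℕ) (R : Finset (Fin m → ℤ)) : ℕ → Finset (Fin m → ℤ)
  | 0 => {0}
  | n + 1 => image₂ (fun r y => fun k => r k + p * y k) R (dig p R n)

theorem lower (u : Fin m → ℤ) (p : ℕ) (R : Finset (Fin m → ℤ))
    (h : ∀ s : Fin m → ℤ, ∃ x : Fin m → Fin m → ℤ, (∀ j, x j ∈ R) ∧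
      ∀ k, (p : ℤ) ∣ s k - ∑ j, u j * x j k) (n : ℕ) :
    ∀ s : Fin m → ℤ, ∃ y ∈ img u (dig p R n), ∀ k, ((p : ℤ) ^ n) ∣ s k - y k := by
  induction n with
  | zero =>
    intro s
    refine ⟨0, (mem_img _ _ _).mpr ⟨0, fun j => by simp [dig], fun k => by simp⟩, fun k => by simp⟩
  | succ n ih =>
    intro s
    obtain ⟨x, hx, hd⟩ := h s
    choose s' hs' using hd
    obtain ⟨y, hy, hy'⟩ := ih s'
    obtain ⟨z, hz, hz'⟩ := (mem_img _ _ _).mp hy
    refine ⟨fun k => ∑ j, u j * (x j k + p * z j k), (mem_img _ _ _).mpr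
      ⟨fun j k => x j k + p * z j k, fun j => ?_, fun k => rfl⟩, fun k => ?_⟩
    · exact Finset.mem_image₂.mpr ⟨x j, hx j, z j, hz j, rfl⟩
    · obtain ⟨q, hq⟩ := hy' k
      refine ⟨q, ?_⟩
      have e : ∑ j, u j * (x j k + p * z j k) = ∑ j, u j * x j k + p * y k := by
        rw [hz' k, Finset.mul_sum, ← Finset.sum_add_distrib]
        exact Finset.sum_congr rfl fun j _ => by ring
      simp only [e]
      linear_combination hs' k + (p : ℤ) * hq

theorem lower_card (U : Finset (Fin m → ℤ)) (q : ℕ)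
    (h : ∀ s : Fin m → ℤ, ∃ y ∈ U, ∀ k, (q : ℤ) ∣ s k - y k) : q ^ m ≤ U.card := by
  have hsub : (Fintype.piFinset fun _ : Fin m => Finset.Ico (0 : ℤ) q) ⊆
      U.image (fun y k => y k % q) := by
    intro s hs
    obtain ⟨y, hy, hd⟩ := h s
    refine Finset.mem_image.mpr ⟨y, hy, funext fun k => ?_⟩
    have h1 := Finset.mem_Ico.mp (Fintype.mem_piFinset.mp hs k)
    have h2 : y k % q = s k % q := (Int.emod_emod_of_dvd _ (dvd_refl _)).symm.trans (by
      rw [Int.emod_emod_of_dvd _ (dvd_refl _)]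
      exact (Int.modEq_iff_dvd.mpr (hd k)))
    rw [h2, Int.emod_eq_of_lt h1.1 h1.2]
  have := (Finset.card_le_card hsub).trans Finset.card_image_le
  simpa using this

theorem upper (v : Fin m → ℤ) (p : ℕ) (hp : 2 ≤ p) (R : Finset (Fin m → ℤ)) (τ L : ℤ)
    (hL : L = ∑ j, |v j|)
    (hR : ∀ r ∈ R, ∀ k, 0 ≤ r k ∧ r k < p)
    (h : ∀ x : Fin m → Fin m → ℤ, (∀ j, x j ∈ R) → ∀ c : Fin m → ℤ,
      (∀ k, c k ∈ Finset.Icc (-(2 * L + 1)) (2 * L + 1)) →
      ¬ ∀ k, (∑ j, v j * x j k + c k) % p = τ % p) (n : ℕ) :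
    (image₂ (fun y c => fun k => y k + c k) (img v (dig p R n))
      (Fintype.piFinset fun _ : Fin m => Finset.Icc (-(2 * L + 1)) (2 * L + 1))).card ≤
      (Fintype.piFinset fun _ : Fin m => Finset.Icc (-(2 * L + 1)) (2 * L + 1)).card *
        (p ^ m - 1) ^ n := by
  have hp0 : (0 : ℤ) < p := by exact_mod_cast (by omega : 0 < p)
  have hp2 : (2 : ℤ) ≤ p := by exact_mod_cast hp
  have hL0 : 0 ≤ L := hL ▸ Finset.sum_nonneg fun j _ => abs_nonneg _
  induction n with
  | zero =>
    rw [pow_zero, mul_one]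
    apply Finset.card_le_card
    intro z hz
    obtain ⟨y, hy, c, hc, rfl⟩ := Finset.mem_image₂.mp hz
    obtain ⟨x, hx, hx'⟩ := (mem_img _ _ _).mp hy
    have : ∀ k, y k = 0 := by
      intro k
      rw [hx' k]
      apply Finset.sum_eq_zero
      intro j _
      have := hx j
      simp only [dig, Finset.mem_singleton] at this
      simp [this]
    simpa [this] using hc
  | succ n ih =>
    set C := Fintype.piFinset fun _ : Fin m => Finset.Icc (-(2 * L + 1)) (2 * L + 1) with hC
    set W := image₂ (fun y c => fun k => y k + c k) (img v (dig p R n)) C with hW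
    let Dg := (Fintype.piFinset fun _ : Fin m => Finset.Ico (0 : ℤ) p).erase (fun _ => τ % p)
    have hDg : Dg.card = p ^ m - 1 := by
      rw [Finset.card_erase_of_mem]
      · simp
      · rw [Fintype.mem_piFinset]
        intro k
        exact Finset.mem_Ico.mpr ⟨Int.emod_nonneg _ hp0.ne', Int.emod_lt_of_pos _ hp0⟩
    have hsub : image₂ (fun y c => fun k => y k + c k) (img v (dig p R (n + 1))) C ⊆
        image₂ (fun d y => fun k => d k + p * y k) Dg W := by
      intro z hz
      obtain ⟨y, hy, c, hc, rfl⟩ := Finset.mem_image₂.mp hz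
      obtain ⟨x, hx, hx'⟩ := (mem_img _ _ _).mp hy
      have hx2 : ∀ j, ∃ r ∈ R, ∃ w ∈ dig p R n, (fun k => r k + p * w k) = x j :=
        fun j => Finset.mem_image₂.mp (hx j)
      choose r hr w hw e using hx2
      have hc' : ∀ k, c k ∈ Finset.Icc (-(2 * L + 1)) (2 * L + 1) := Fintype.mem_piFinset.mp hc
      let s : Fin m → ℤ := fun k => ∑ j, v j * r j k + c k
      refine Finset.mem_image₂.mpr ⟨fun k => s k % p, ?_, fun k => ∑ j, v j * w j k + s k / p,
        ?_, ?_⟩
      · refine Finset.mem_erase.mpr ⟨fun e => h r hr c hc' fun k => congrFun e k, ?_⟩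
        rw [Fintype.mem_piFinset]
        intro k
        exact Finset.mem_Ico.mpr ⟨Int.emod_nonneg _ hp0.ne', Int.emod_lt_of_pos _ hp0⟩
      · refine Finset.mem_image₂.mpr ⟨fun k => ∑ j, v j * w j k,
          (mem_img _ _ _).mpr ⟨w, hw, fun _ => rfl⟩, fun k => s k / p, ?_, rfl⟩
        rw [Fintype.mem_piFinset]
        intro k
        have b1 : |∑ j, v j * r j k| ≤ L * p := by
          refine (Finset.abs_sum_le_sum_abs _ _).trans ?_
          rw [hL, Finset.sum_mul]
          apply Finset.sum_le_sum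
          intro j _
          rw [abs_mul]
          apply mul_le_mul_of_nonneg_left _ (abs_nonneg _)
          have := hR _ (hr j) k
          rw [abs_of_nonneg this.1]
          exact this.2.le
        have b2 := Finset.mem_Icc.mp (hc' k)
        have b3 := abs_le.mp b1
        refine Finset.mem_Icc.mpr ⟨?_, ?_⟩
        · rw [Int.le_ediv_iff_mul_le hp0]
          simp only [s]
          nlinarith
        · have : s k / p < 2 * L + 2 := by
            rw [Int.ediv_lt_iff_lt_mul hp0]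
            simp only [s]
            nlinarith
          omega
      · funext k
        have e1 : y k = ∑ j, v j * r j k + p * ∑ j, v j * w j k := by
          rw [hx' k, Finset.mul_sum, ← Finset.sum_add_distrib]
          refine Finset.sum_congr rfl fun j _ => ?_
          rw [← e j]
          ring
        have e2 := Int.emod_add_mul_ediv (s k) p
        simp only [s] at e2 ⊢
        linear_combination e2 - e1
    calc _ ≤ _ := Finset.card_le_card hsub
      _ ≤ Dg.card * W.card := Finset.card_image₂_le _ _ _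
      _ ≤ (p ^ m - 1) * (C.card * (p ^ m - 1) ^ n) := by
          rw [hDg]
          exact Nat.mul_le_mul_left _ ih
      _ = _ := by ring

theorem vec (u v : Fin m → ℤ) (hu : ∀ i, u i ≠ 0) (hv : ∀ i, v i ≠ 0) (hm : 0 < m)
    (H : ∀ (σ : Equiv.Perm (Fin m)) (j : Fin m), ∃ j', u (σ j') * v j ≠ u (σ j) * v j') :
    ∃ A : Finset (Fin m → ℤ), (img v A).card < (img u A).card := by
  classical
  set L : ℤ := ∑ j, |v j| with hL
  have hL0 : 0 ≤ L := Finset.sum_nonneg fun j _ => abs_nonneg _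
  obtain ⟨p, hp, R0, h1, h2⟩ := core u v hu hv (2 * L + 2) hm H
    (Finset.Icc (-(2 * L + 1)) (2 * L + 1)) (by simp)
  have : Fact p.Prime := ⟨hp⟩
  let R : Finset (Fin m → ℤ) := (Fintype.piFinset fun _ : Fin m => Finset.Ico (0 : ℤ) p).filter
    (fun r => (fun k => (r k : ZMod p)) ∈ R0)
  have hp1 : 1 ≤ p ^ m - 1 := by
    have : 2 ^ m ≤ p ^ m := Nat.pow_le_pow_left hp.two_le _
    have : 2 ^ 1 ≤ 2 ^ m := Nat.pow_le_pow_right (by norm_num) hm
    omega
  obtain ⟨n, hn⟩ := pow_gap
    (Fintype.piFinset fun _ : Fin m => Finset.Icc (-(2 * L + 1)) (2 * L + 1)).card (p ^ m - 1) hp1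
  have hup := upper v p hp.two_le R (2 * L + 2) L hL
    (fun r hr k => Finset.mem_Ico.mp (Fintype.mem_piFinset.mp (Finset.mem_filter.mp hr).1 k))
    (fun x hx c hc hall => h2 (fun j k => (x j k : ZMod p))
      (fun j => (Finset.mem_filter.mp (hx j)).2) c hc (fun k => by
        have := (ZMod.intCast_eq_intCast_iff' _ _ _).mpr (hall k)
        push_cast at this ⊢
        exact this)) n
  have hlo := lower u p R (fun s => by
    obtain ⟨x, hx, hx'⟩ := h1 (fun k => (s k : ZMod p))
    refine ⟨fun j k => ((x j k).val : ℤ), fun j => Finset.mem_filter.mpr ⟨?_, ?_⟩, fun k => ?_⟩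
    · rw [Fintype.mem_piFinset]
      intro k
      exact Finset.mem_Ico.mpr ⟨Int.natCast_nonneg _, Int.ofNat_lt.mpr (ZMod.val_lt (x j k))⟩
    · simpa using hx j
    · rw [← ZMod.intCast_zmod_eq_zero_iff_dvd]
      push_cast
      simp only [ZMod.natCast_val, ZMod.cast_id', id_eq]
      rw [hx' k, sub_self]) n
  have hlo' := lower_card (img u (dig p R n)) (p ^ n) (by
    intro s
    obtain ⟨y, hy, hy'⟩ := hlo s
    exact ⟨y, hy, fun k => by exact_mod_cast hy' k⟩)
  refine ⟨dig p R n, ?_⟩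
  have hsub : img v (dig p R n) ⊆ image₂ (fun y c => fun k => y k + c k) (img v (dig p R n))
      (Fintype.piFinset fun _ : Fin m => Finset.Icc (-(2 * L + 1)) (2 * L + 1)) := by
    intro y hy
    refine Finset.mem_image₂.mpr ⟨y, hy, 0, ?_, by funext k; simp⟩
    rw [Fintype.mem_piFinset]
    intro k
    simp only [Pi.zero_apply, Finset.mem_Icc]
    constructor <;> linarith
  have e : p ^ m - 1 + 1 = p ^ m := by omega
  rw [e] at hn
  calc _ ≤ _ := Finset.card_le_card hsub
    _ ≤ _ := hup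
    _ < (p ^ m) ^ n := hn
    _ = (p ^ n) ^ m := by ring
    _ ≤ _ := hlo'

theorem exists_inj (U : Finset (Fin m → ℤ)) :
    ∃ w : Fin m → ℤ, Set.InjOn (fun y : Fin m → ℤ => ∑ k, w k * y k) U := by
  classical
  let κ := {t : U × U // t.1 ≠ t.2}
  let P : κ → MvPolynomial (Fin m) ℤ := fun t =>
    ∑ k, MvPolynomial.X k * MvPolynomial.C (t.1.1.1 k - t.1.2.1 k)
  have hev : ∀ x t, MvPolynomial.eval x (P t) = ∑ k, x k * (t.1.1.1 k - t.1.2.1 k) := by
    intro x t
    simp [P, map_sum]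
  obtain ⟨w, hw⟩ := generic P (by
    intro t
    have hne : t.1.1.1 ≠ t.1.2.1 := fun e => t.2 (Subtype.ext e)
    obtain ⟨k, hk⟩ := Function.ne_iff.mp hne
    refine ⟨Pi.single k 1, ?_⟩
    rw [hev, Finset.sum_eq_single k]
    · simpa [sub_eq_zero] using hk
    · intro l _ hl
      simp [hl]
    · simp)
  refine ⟨w, fun y hy y' hy' e => ?_⟩
  by_contra hne
  apply hw ⟨(⟨y, hy⟩, ⟨y', hy'⟩), fun e => hne (congrArg Subtype.val e)⟩
  rw [hev]
  simp only [mul_sub, Finset.sum_sub_distrib]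
  exact sub_eq_zero.mpr e

theorem main (u v : Fin m → ℤ) (hu : ∀ i, u i ≠ 0) (hv : ∀ i, v i ≠ 0) (hm : 0 < m)
    (H : ∀ (σ : Equiv.Perm (Fin m)) (j : Fin m), ∃ j', u (σ j') * v j ≠ u (σ j) * v j') :
    ∃ A : Finset ℤ,
        ((Fintype.piFinset fun _ : Fin m => A).image
            (fun a : Fin m → ℤ => ∑ i, v i * a i)).card <
        ((Fintype.piFinset fun _ : Fin m => A).image
            (fun a : Fin m → ℤ => ∑ i, u i * a i)).card := by
  classical
  obtain ⟨A, hA⟩ := vec u v hu hv hm H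
  obtain ⟨w, hw⟩ := exists_inj (img u A)
  let φ : (Fin m → ℤ) → ℤ := fun y => ∑ k, w k * y k
  have key : ∀ z : Fin m → ℤ, (Fintype.piFinset fun _ : Fin m => A.image φ).image
      (fun a : Fin m → ℤ => ∑ i, z i * a i) = (img z A).image φ := by
    intro z
    have comm : ∀ x : Fin m → Fin m → ℤ, ∑ i, z i * φ (x i) = φ (fun k => ∑ j, z j * x j k) := by
      intro x
      simp only [φ, Finset.mul_sum]
      rw [Finset.sum_comm]
      exact Finset.sum_congr rfl fun _ _ => Finset.sum_congr rfl fun _ _ => by ring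
    ext t
    simp only [Finset.mem_image, Fintype.mem_piFinset, mem_img]
    constructor
    · rintro ⟨a, ha, rfl⟩
      choose x hx hx' using ha
      refine ⟨fun k => ∑ j, z j * x j k, ⟨x, hx, fun _ => rfl⟩, ?_⟩
      rw [← comm]
      simp only [hx']
    · rintro ⟨y, ⟨x, hx, hy⟩, rfl⟩
      refine ⟨fun i => φ (x i), fun i => ⟨x i, hx i, rfl⟩, ?_⟩
      rw [comm]
      congr 1
      exact (funext hy).symm
  refine ⟨A.image φ, ?_⟩
  rw [key, key, Finset.card_image_of_injOn hw]
  exact Finset.card_image_le.trans_lt hA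

end Pool.Agent.H17.LF
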