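import Mathlib

set_option autoImplicit false

namespace Pool.Agent.H17.Markoff3

theorem thue (p : ℕ) [hp : Fact p.Prime] (r : ZMod p) :
    ∃ x y : ℤ, (x ≠ 0 ∨ y ≠ 0) ∧ x ^ 2 < p ∧ y ^ 2 < p ∧ (x : ZMod p) = r * y := by
  have hs1 := Nat.sqrt_le' p
  have hs2 := Nat.lt_succ_sqrt' p
  have hs3 : p.sqrt ^ 2 < p := lt_of_le_of_ne hs1 fun h => by
    have h2 := hp.out
    rw [← h] at h2
    exact absurd h2 (Nat.Prime.not_prime_pow le_rfl)
  set s := p.sqrt
  obtain ⟨u, v, huv, h⟩ := Fintype.exists_ne_map_eq_of_card_lt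
    (fun t : Fin (s + 1) × Fin (s + 1) => ((t.1 : ℕ) : ZMod p) - r * (t.2 : ℕ))
    (by simp only [ZMod.card, Fintype.card_prod, Fintype.card_fin]; nlinarith)
  have b : ∀ i j : Fin (s + 1), (((i : ℕ) : ℤ) - (j : ℕ)) ^ 2 < p := by
    intro i j
    have h1 := i.isLt
    have h2 := j.isLt
    have h3 : (((i : ℕ) : ℤ) - (j : ℕ)) ^ 2 ≤ (s : ℤ) ^ 2 := sq_le_sq' (by omega) (by omega)
    have h4 : (s : ℤ) ^ 2 < p := by exact_mod_cast hs3
    omega
  refine ⟨(u.1 : ℕ) - (v.1 : ℕ), (u.2 : ℕ) - (v.2 : ℕ), ?_, b _ _, b _ _, ?_⟩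
  · by_contra hc
    push Not at hc
    exact huv (Prod.ext (Fin.ext (by omega)) (Fin.ext (by omega)))
  · push_cast
    linear_combination h

theorem pos_rep (p : ℕ) (hp : p.Prime) : ∀ (n : ℕ) (u v : ℤ), v.natAbs = n →
    u ^ 2 - 5 * v ^ 2 = 4 * p → ∃ a b : ℕ, 1 ≤ a ∧ 1 ≤ b ∧ p = a ^ 2 + 3 * a * b + b ^ 2 := by
  intro n
  induction n using Nat.strong_induction_on with
  | _ n ih =>
    intro u v hv h
    wlog hu : 0 ≤ u generalizing u
    · exact this (-u) (by linear_combination h) (by omega)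
    wlog hv0 : 0 ≤ v generalizing v
    · exact this (-v) (by omega) (by linear_combination h) (by omega)
    have hp0 : (0 : ℤ) < p := by exact_mod_cast hp.pos
    have par : (u - v) % 2 = 0 := by
      have h1 : u % 2 = 0 ∨ u % 2 = 1 := by omega
      have h2 : v % 2 = 0 ∨ v % 2 = 1 := by omega
      have h3 : (u ^ 2 - 5 * v ^ 2) % 2 = 0 := by omega
      rcases h1 with h1 | h1 <;> rcases h2 with h2 | h2 <;>
        simp [pow_two, Int.sub_emod, Int.mul_emod, h1, h2] at h3 ⊢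
    have hv1 : v ≠ 0 := by
      rintro rfl
      obtain ⟨w, rfl⟩ : ∃ w, u = 2 * w := ⟨u / 2, by omega⟩
      have h2 : w.natAbs ^ 2 = p := by
        have : w ^ 2 = p := by linarith
        zify
        rw [sq_abs, this]
      exact absurd (h2 ▸ hp) (Nat.Prime.not_prime_pow le_rfl)
    have huv : v < u := by nlinarith
    by_cases h3 : 3 * v < u
    · obtain ⟨a, ha⟩ : ∃ a : ℕ, u - 3 * v = 2 * a := ⟨((u - 3 * v) / 2).toNat, by omega⟩
      obtain ⟨b, rfl⟩ := Int.eq_ofNat_of_zero_le hv0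
      refine ⟨a, b, by omega, by omega, ?_⟩
      zify
      have : u = 2 * a + 3 * b := by omega
      rw [this] at h
      linarith
    · obtain ⟨w, hw⟩ : ∃ w, u - v = 2 * w := ⟨(u - v) / 2, by omega⟩
      refine ih (v - w).natAbs (by omega) (3 * w - v) (v - w) rfl ?_
      have : u = v + 2 * w := by omega
      rw [this] at h
      linear_combination h

theorem rep (p : ℕ) (hp : p.Prime) (h5 : p % 5 = 1) :
    ∃ a b : ℕ, 1 ≤ a ∧ 1 ≤ b ∧ p = a ^ 2 + 3 * a * b + b ^ 2 := by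
  have : Fact p.Prime := ⟨hp⟩
  have : Fact (Nat.Prime 5) := ⟨by norm_num⟩
  have h1 : IsSquare ((5 : ℕ) : ZMod p) := by
    rw [← ZMod.exists_sq_eq_prime_iff_of_mod_four_eq_one (p := 5) (q := p) (by norm_num)
      (by omega), ← ZMod.natCast_mod, h5]
    exact ⟨1, by simp⟩
  obtain ⟨r, hr⟩ := h1
  obtain ⟨x, y, h0, hx, hy, hxy⟩ := thue p r
  have hd : (p : ℤ) ∣ x ^ 2 - 5 * y ^ 2 := by
    rw [← ZMod.intCast_zmod_eq_zero_iff_dvd]
    push_cast at hr ⊢
    rw [hxy, hr]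
    ring
  obtain ⟨k, hk⟩ := hd
  have hp0 : (0 : ℤ) < p := by exact_mod_cast hp.pos
  have hk1 : k < 1 := by nlinarith [sq_nonneg y]
  have hk2 : -5 < k := by nlinarith [sq_nonneg x]
  have hx5 : x ^ 2 % 5 = 0 ∨ x ^ 2 % 5 = 1 ∨ x ^ 2 % 5 = 4 := by
    have : x % 5 = 0 ∨ x % 5 = 1 ∨ x % 5 = 2 ∨ x % 5 = 3 ∨ x % 5 = 4 := by omega
    rcases this with h | h | h | h | h <;> simp [pow_two, Int.mul_emod, h]
  interval_cases k
  · have par : (x + y) % 2 = 0 := by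
      have h1 : x % 2 = 0 ∨ x % 2 = 1 := by omega
      have h2 : y % 2 = 0 ∨ y % 2 = 1 := by omega
      have h3 : (x ^ 2 - 5 * y ^ 2) % 2 = 0 := by omega
      rcases h1 with h1 | h1 <;> rcases h2 with h2 | h2 <;>
        simp [pow_two, Int.sub_emod, Int.add_emod, Int.mul_emod, h1, h2] at h3 ⊢
    obtain ⟨w, hw⟩ : ∃ w, x = 2 * w - y := ⟨(x + y) / 2, by omega⟩
    exact pos_rep p hp _ (w + 2 * y) w rfl (by rw [hw] at hk; linear_combination -hk)
  · omega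
  · omega
  · exact pos_rep p hp _ (x + 5 * y) (x + y) rfl (by linear_combination (-4) * hk)
  · exfalso
    have h2 : x ^ 2 = 5 * y ^ 2 := by linarith
    have h3 : y ≠ 0 := by
      rintro rfl
      simp at h2 h0
      exact h0 h2
    have h4 : Irrational √5 := by simpa using (show Nat.Prime 5 by norm_num).irrational_sqrt
    apply h4
    refine ⟨|(x : ℚ) / y|, ?_⟩
    have h6 : (y : ℝ) ≠ 0 := by exact_mod_cast h3
    have h7 : (x : ℝ) ^ 2 = 5 * y ^ 2 := by exact_mod_cast h2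
    push_cast
    rw [← Real.sqrt_sq_eq_abs]
    congr 1
    field_simp
    linarith

open ArithmeticFunction in
theorem inf_primes : {p : ℕ | p.Prime ∧ p % 45 = 11 ∧
    ¬ ∃ a f : ℕ, 1 ≤ a ∧ 1 ≤ f ∧ p + 1 = 2 * a ^ 2 + f ^ 2 + 3 * a ^ 2 * f}.Infinite := by
  classical
  intro hfin
  apply vonMangoldt.not_summable_residueClass_prime_div (q := 45) (a := 11) (by decide)
  set Fs := {p : ℕ | p.Prime ∧ p % 45 = 11 ∧
    ¬ ∃ a f : ℕ, 1 ≤ a ∧ 1 ≤ f ∧ p + 1 = 2 * a ^ 2 + f ^ 2 + 3 * a ^ 2 * f} with hFs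
  let P : Set ℕ := {p | ∃ t : ℕ × ℕ, 1 ≤ t.1 ∧ 1 ≤ t.2 ∧
    p + 1 = 2 * t.1 ^ 2 + t.2 ^ 2 + 3 * t.1 ^ 2 * t.2}
  let g : ℕ → ℝ := fun n => Real.log n / n
  have g0 : ∀ n, 0 ≤ g n := fun n => div_nonneg (Real.log_natCast_nonneg n) (Nat.cast_nonneg n)
  have s1 : Summable (Fs.indicator g) :=
    summable_of_hasFiniteSupport (hfin.subset Set.support_indicator_subset)
  have s2 : Summable (P.indicator g) := by
    rw [← summable_subtype_iff_indicator]
    choose! t ht using fun p (hp : p ∈ P) => hp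
    have hs : Summable fun t : ℕ × ℕ => ((t.1 : ℝ) ^ (-(42 / 32) : ℝ)) * (t.2 : ℝ) ^ (-(35 / 32) : ℝ) :=
      Summable.mul_of_nonneg (Real.summable_nat_rpow.2 (by norm_num))
        (Real.summable_nat_rpow.2 (by norm_num)) (fun _ => by positivity) (fun _ => by positivity)
    have hi : Function.Injective fun p : P => t p := by
      intro p q h
      have h1 := (ht p p.2).2.2
      have h2 := (ht q q.2).2.2
      simp only at h
      rw [h] at h1
      exact Subtype.ext (by omega)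
    refine Summable.of_nonneg_of_le (fun p => g0 _) (fun p => ?_) ((hs.comp_injective hi).mul_left 8)
    obtain ⟨h1, h2, h3⟩ := ht p p.2
    simp only [Function.comp, g]
    generalize (t p).1 = a at *
    generalize (t p).2 = f at *
    generalize (p : ℕ) = n at *
    have ha : (1 : ℝ) ≤ a := by exact_mod_cast h1
    have hf : (1 : ℝ) ≤ f := by exact_mod_cast h2
    have hn : (n : ℝ) + 1 = 2 * a ^ 2 + f ^ 2 + 3 * a ^ 2 * f := by exact_mod_cast h3
    have a2 : (1 : ℝ) ≤ a ^ 2 := one_le_pow₀ ha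
    have b1 : (f : ℝ) ^ 2 ≤ n := by nlinarith
    have b2 : (a : ℝ) ^ 2 * f ≤ n := by nlinarith
    have n0 : (0 : ℝ) < n := by nlinarith
    have b3 : (a : ℝ) ^ 6 * f ^ 5 ≤ n ^ 4 := by
      calc (a : ℝ) ^ 6 * f ^ 5 = (f : ℝ) ^ 2 * ((a : ℝ) ^ 2 * f) ^ 3 := by ring
        _ ≤ (n : ℝ) * (n : ℝ) ^ 3 := by gcongr
        _ = (n : ℝ) ^ 4 := by ring
    have b4 := Real.rpow_le_rpow_of_nonpos (by positivity) b3 (show (-(7 / 32) : ℝ) ≤ 0 by norm_num)
    rw [Real.mul_rpow (by positivity) (by positivity), ← Real.rpow_natCast, ← Real.rpow_natCast,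
      ← Real.rpow_natCast, ← Real.rpow_mul (by positivity), ← Real.rpow_mul (by positivity),
      ← Real.rpow_mul (by positivity)] at b4
    have b5 := Real.log_le_rpow_div n0.le (show (0 : ℝ) < 1 / 8 by norm_num)
    have b6 : (n : ℝ) ^ (1 / 8 : ℝ) / n = n ^ (-(7 / 8) : ℝ) := by
      rw [div_eq_iff n0.ne', ← Real.rpow_add_one n0.ne']
      norm_num
    norm_num at b4 b5 ⊢
    calc Real.log n / n ≤ (n : ℝ) ^ (1 / 8 : ℝ) / n * 8 := by
          rw [div_mul_eq_mul_div]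
          gcongr
          norm_num
          linarith
      _ ≤ _ := by rw [b6]; linarith
  refine Summable.of_nonneg_of_le (fun n => ?_) (fun n => ?_) (s1.add s2)
  · split_ifs
    · exact div_nonneg (vonMangoldt.residueClass_nonneg _ _) (Nat.cast_nonneg n)
    · simp
  · have i1 : 0 ≤ Fs.indicator g n := Set.indicator_nonneg (fun _ _ => g0 _) n
    have i2 : 0 ≤ P.indicator g n := Set.indicator_nonneg (fun _ _ => g0 _) n
    split_ifs with hp
    · by_cases hc : (n : ZMod 45) = 11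
      · have h45 : n % 45 = 11 := (ZMod.natCast_eq_natCast_iff' n 11 45).1 hc
        rw [vonMangoldt.residueClass, Set.indicator_of_mem (show n ∈ {n : ℕ | (n : ZMod 45) = 11}
          from hc), vonMangoldt_apply_prime hp]
        by_cases hP : n ∈ P
        · rw [Set.indicator_of_mem hP]
          exact le_add_of_nonneg_left i1
        · rw [Set.indicator_of_mem (show n ∈ Fs from
            ⟨hp, h45, fun ⟨a, f, h⟩ => hP ⟨(a, f), h⟩⟩)]
          exact le_add_of_nonneg_right i2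
      · rw [vonMangoldt.residueClass, Set.indicator_of_notMem (show n ∉ {n : ℕ | (n : ZMod 45) = 11}
          from hc)]
        simp only [zero_div]
        linarith
    · simp only [zero_div]
      linarith

def O (m : ℕ) : Set (ℕ × ℕ × ℕ) :=
  {t | 1 ≤ t.1 ∧ t.1 ≤ t.2.1 ∧ t.2.1 ≤ t.2.2 ∧
    t.1 ^ 2 + t.2.1 ^ 2 + t.2.2 ^ 2 = 3 * t.1 * t.2.1 * t.2.2 + m ∧ 3 * t.1 * t.2.1 ≤ t.2.2}

theorem mem_O {m a b f : ℕ} (ha : 1 ≤ a) (hab : a ≤ b)
    (h : a ^ 2 + b ^ 2 + f ^ 2 + 3 * a * b * f = m) : (a, b, 3 * a * b + f) ∈ O m :=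
  ⟨ha, hab, by simp only; nlinarith, by simp only; rw [← h]; ring, by simp⟩

theorem count (m : ℕ) (h9 : m % 9 = 3)
    (hB : ¬ ∃ a f : ℕ, 1 ≤ a ∧ 1 ≤ f ∧ m = 2 * a ^ 2 + f ^ 2 + 3 * a ^ 2 * f) :
    (O m).Finite ∧ (O m).ncard % 3 = 0 := by
  let W : Set (ℕ × ℕ × ℕ) := {t | 1 ≤ t.1 ∧ t.1 < t.2.1 ∧ t.2.1 < t.2.2 ∧
    t.1 ^ 2 + t.2.1 ^ 2 + t.2.2 ^ 2 + 3 * t.1 * t.2.1 * t.2.2 = m}
  have hW : W.Finite := by
    refine ((Set.finite_le_nat m).prod ((Set.finite_le_nat m).prod (Set.finite_le_nat m))).subset ?_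
    rintro ⟨x, y, z⟩ ⟨h1, h2, h3, h4⟩
    simp only [Set.mem_prod, Set.mem_ofPred_eq] at *
    have : z ≤ m := by nlinarith [Nat.zero_le (3 * x * y * z)]
    omega
  let f1 : ℕ × ℕ × ℕ → ℕ × ℕ × ℕ := fun t => (t.1, t.2.1, 3 * t.1 * t.2.1 + t.2.2)
  let f2 : ℕ × ℕ × ℕ → ℕ × ℕ × ℕ := fun t => (t.1, t.2.2, 3 * t.1 * t.2.2 + t.2.1)
  let f3 : ℕ × ℕ × ℕ → ℕ × ℕ × ℕ := fun t => (t.2.1, t.2.2, 3 * t.2.1 * t.2.2 + t.1)
  have i1 : Function.Injective f1 := by
    rintro ⟨x, y, z⟩ ⟨x', y', z'⟩ h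
    simp only [f1, Prod.mk.injEq] at h
    obtain ⟨rfl, rfl, h⟩ := h
    simp [add_left_cancel h]
  have i2 : Function.Injective f2 := by
    rintro ⟨x, y, z⟩ ⟨x', y', z'⟩ h
    simp only [f2, Prod.mk.injEq] at h
    obtain ⟨rfl, rfl, h⟩ := h
    simp [add_left_cancel h]
  have i3 : Function.Injective f3 := by
    rintro ⟨x, y, z⟩ ⟨x', y', z'⟩ h
    simp only [f3, Prod.mk.injEq] at h
    obtain ⟨rfl, rfl, h⟩ := h
    simp [add_left_cancel h]
  have hO : O m = f1 '' W ∪ f2 '' W ∪ f3 '' W := by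
    ext ⟨a, b, c⟩
    constructor
    · rintro ⟨h1, h2, -, h4, h5⟩
      simp only at h1 h2 h4 h5
      obtain ⟨f, rfl⟩ := Nat.exists_eq_add_of_le h5
      have hm : a ^ 2 + b ^ 2 + f ^ 2 + 3 * a * b * f = m := by nlinarith
      have hf : f ≠ 0 := by
        rintro rfl
        have ha : a % 3 = 0 ∨ a % 3 = 1 ∨ a % 3 = 2 := by omega
        have hb : b % 3 = 0 ∨ b % 3 = 1 ∨ b % 3 = 2 := by omega
        have h3 : (a ^ 2 + b ^ 2) % 3 = 0 := by omega
        have : a % 3 = 0 ∧ b % 3 = 0 := by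
          rcases ha with ha | ha | ha <;> rcases hb with hb | hb | hb <;>
            simp [pow_two, Nat.add_mod, Nat.mul_mod, ha, hb] at h3 ⊢
        obtain ⟨a', rfl⟩ := Nat.dvd_of_mod_eq_zero this.1
        obtain ⟨b', rfl⟩ := Nat.dvd_of_mod_eq_zero this.2
        have : m = 9 * (a' ^ 2 + b' ^ 2) := by rw [← hm]; ring
        omega
      have n1 : a ≠ b := by
        rintro rfl
        exact hB ⟨a, f, h1, by omega, by rw [← hm]; ring⟩
      have n2 : a ≠ f := by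
        rintro rfl
        exact hB ⟨a, b, h1, by omega, by rw [← hm]; ring⟩
      have n3 : b ≠ f := by
        rintro rfl
        exact hB ⟨b, a, by omega, h1, by rw [← hm]; ring⟩
      rcases Nat.lt_or_ge b f with c1 | c1
      · exact Or.inl (Or.inl ⟨(a, b, f), ⟨h1, by simp only; omega, c1, hm⟩, rfl⟩)
      · rcases Nat.lt_or_ge a f with c2 | c2
        · exact Or.inl (Or.inr ⟨(a, f, b), ⟨h1, c2, by simp only; omega,
            by simp only; rw [← hm]; ring⟩, rfl⟩)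
        · exact Or.inr ⟨(f, a, b), ⟨by simp only; omega, by simp only; omega, by simp only; omega,
            by simp only; rw [← hm]; ring⟩, rfl⟩
    · rintro ((⟨⟨x, y, z⟩, ⟨h1, h2, h3, h4⟩, h⟩ | ⟨⟨x, y, z⟩, ⟨h1, h2, h3, h4⟩, h⟩) |
        ⟨⟨x, y, z⟩, ⟨h1, h2, h3, h4⟩, h⟩) <;> simp only at h1 h2 h3 h4 <;> rw [← h]
      · exact mem_O h1 h2.le h4
      · exact mem_O h1 (by simp only; omega) (by rw [← h4]; ring)
      · exact mem_O (by simp only; omega) h3.le (by rw [← h4]; ring)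
  have d1 : Disjoint (f1 '' W) (f2 '' W) := by
    rw [Set.disjoint_left]
    rintro _ ⟨⟨x, y, z⟩, ⟨h1, h2, h3, -⟩, rfl⟩ ⟨⟨x', y', z'⟩, ⟨h1', h2', h3', -⟩, h⟩
    simp only [f1, f2, Prod.mk.injEq] at *
    obtain ⟨rfl, rfl, h⟩ := h
    have := add_left_cancel h
    omega
  have d2 : Disjoint (f1 '' W ∪ f2 '' W) (f3 '' W) := by
    rw [Set.disjoint_left]
    rintro _ (⟨⟨x, y, z⟩, ⟨h1, h2, h3, -⟩, rfl⟩ | ⟨⟨x, y, z⟩, ⟨h1, h2, h3, -⟩, rfl⟩)
      ⟨⟨x', y', z'⟩, ⟨h1', h2', h3', -⟩, h⟩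
    all_goals
      simp only [f1, f2, f3, Prod.mk.injEq] at *
      obtain ⟨rfl, rfl, h⟩ := h
      have := add_left_cancel h
      omega
  rw [hO]
  refine ⟨((hW.image _).union (hW.image _)).union (hW.image _), ?_⟩
  rw [Set.ncard_union_eq d2 ((hW.image _).union (hW.image _)) (hW.image _),
    Set.ncard_union_eq d1 (hW.image _) (hW.image _), Set.ncard_image_of_injective _ i1,
    Set.ncard_image_of_injective _ i2, Set.ncard_image_of_injective _ i3]
  omega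

theorem main : {m : ℕ | 1 < m ∧ (O m).Nonempty ∧ (O m).Finite ∧ (O m).ncard % 3 = 0}.Infinite := by
  refine (inf_primes.image (f := fun p => p + 1) (fun a _ b _ h => by simpa using h)).mono ?_
  rintro _ ⟨p, ⟨hp, h45, hB⟩, rfl⟩
  obtain ⟨a, b, ha, hb, h⟩ := rep p hp (by omega)
  refine ⟨by simp only; omega, ?_, count _ (by simp only; omega) hB⟩
  rcases le_total a b with hab | hab
  · exact ⟨_, mem_O (f := 1) ha hab (by simp only; rw [h]; ring)⟩
  · exact ⟨_, mem_O (f := 1) hb hab (by simp only; rw [h]; ring)⟩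

end Pool.Agent.H17.Markoff3
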