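import Mathlib
import Pool.Agent.H17.Reg

set_option autoImplicit false

namespace Pool.Agent.H17.MFib

open Finset

theorem hvals (h : ℤ → ℤ) (h0 : ∀ n ≤ 0, h n = 1) (h1 : h 1 = 1)
    (h2 : ∀ n, 1 < n → h n = h (n - h (n - 1)) + h (n - 2)) (N : ℕ) :
    ∀ n : ℕ, n ≤ N → h (2 * n + 1) = n + 1 ∧ 2 * (n : ℤ) + 2 ≤ h (2 * n + 2) ∧
      h (2 * n + 2) = h (2 * n) + h (n + 1) := by
  induction N with
  | zero =>
    intro n hn
    obtain rfl : n = 0 := by omega
    have := h2 2 (by norm_num)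
    norm_num [h1] at this ⊢
    rw [this, h0 0 le_rfl]; norm_num
  | succ N ih =>
    intro n hn
    rcases Nat.lt_or_ge n (N + 1) with hl | hl
    · exact ih n (by omega)
    obtain rfl : n = N + 1 := by omega
    obtain ⟨a1, a2, a3⟩ := ih N le_rfl
    have b1 : h (2 * (N + 1 : ℕ) + 1) = (N + 1 : ℕ) + 1 := by
      rw [h2 _ (by push_cast; omega)]
      push_cast
      rw [show 2 * ((N : ℤ) + 1) + 1 - 1 = 2 * N + 2 by ring,
        show 2 * ((N : ℤ) + 1) + 1 - 2 = 2 * N + 1 by ring, a1]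
      have : h (2 * ((N : ℤ) + 1) + 1 - h (2 * N + 2)) = 1 := by
        rcases eq_or_lt_of_le a2 with e | e
        · rw [← e, show 2 * ((N : ℤ) + 1) + 1 - (2 * N + 2) = 1 by ring, h1]
        · exact h0 _ (by omega)
      rw [this]; ring
    have b3 : h (2 * (N + 1 : ℕ) + 2) = h (2 * (N + 1 : ℕ)) + h ((N + 1 : ℕ) + 1) := by
      rw [h2 _ (by push_cast; omega),
        show 2 * ((N + 1 : ℕ) : ℤ) + 2 - 1 = 2 * (N + 1 : ℕ) + 1 by ring, b1, add_comm]
      congr 2 <;> ring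
    refine ⟨b1, ?_, b3⟩
    rw [b3]
    have : 2 ≤ h ((N + 1 : ℕ) + 1) := by
      obtain ⟨m, hm | hm⟩ := Nat.even_or_odd' N
      · have := (ih m (by omega)).2.1
        rw [show ((N + 1 : ℕ) : ℤ) + 1 = 2 * m + 2 by rw [hm]; push_cast; ring]; omega
      · rcases Nat.lt_or_ge m 1 with h5 | h5
        · obtain rfl : m = 0 := by omega
          subst hm
          have := (ih 1 (by omega)).1
          norm_num at this ⊢; omega
        · have := (ih (m + 1) (by omega)).1
          rw [show ((N + 1 : ℕ) : ℤ) + 1 = 2 * (m + 1 : ℕ) + 1 by rw [hm]; push_cast; ring]; omega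
    rw [show 2 * ((N + 1 : ℕ) : ℤ) = 2 * N + 2 by push_cast; ring]
    omega

abbrev S := Fin 2 × Fin 2 × Fin 2 × Fin 4

def w (m : ℕ) : ℕ := if m % 4 = 1 ∨ m % 4 = 2 then 1 else 0

def δ (s : S) (d : ℕ) : S :=
  if d = 0 then (s.2.1, s.2.2.1, Fin.ofNat 2 (w s.2.2.2 + s.2.2.2 + s.2.2.1), Fin.ofNat 4 (2 * s.2.2.2))
  else (Fin.ofNat 2 (s.2.2.2 + 1), Fin.ofNat 2 (s.2.2.1 + s.2.2.2 + 1), Fin.ofNat 2 (w s.2.2.2),
    Fin.ofNat 4 (2 * s.2.2.2 + 1))

def σ (r : ℕ → ℕ) (n : ℕ) : S :=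
  (Fin.ofNat 2 (r n), Fin.ofNat 2 (r (2 * n)), Fin.ofNat 2 (r (4 * n)), Fin.ofNat 4 n)

theorem step (r : ℕ → ℕ) (r4 : r 4 = 0) (r0 : ∀ n, r n < 2) (r1 : ∀ n, r (2 * n + 1) = (n + 1) % 2)
    (r2 : ∀ n, r (2 * n + 2) = (r (2 * n) + r (n + 1)) % 2) (n d : ℕ) (hd : d < 2) :
    σ r (2 * n + d) = δ (σ r n) d := by
  have A : ∀ n, r (4 * n + 2) = (r (4 * n) + n + 1) % 2 := fun n => by
    have a := r2 (2 * n)
    have b := r1 n
    rw [show 2 * (2 * n) = 4 * n by ring] at a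
    omega
  have B : ∀ n, r (4 * n + 4) = (r (4 * n) + n + 1 + r (2 * n + 2)) % 2 := fun n => by
    have a := r2 (2 * n + 1)
    have b := A n
    rw [show 2 * (2 * n + 1) + 2 = 4 * n + 4 by ring, show 2 * (2 * n + 1) = 4 * n + 2 by ring,
      show 2 * n + 1 + 1 = 2 * n + 2 by ring] at a
    omega
  have W : ∀ n, r (8 * n + 4) = w n := fun n => by
    induction n with
    | zero => simp [w, r4]
    | succ n ih =>
      have a := B (2 * n + 2)
      have b := B (2 * n + 1)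
      have c := A (n + 1)
      rw [show 4 * (2 * n + 2) + 4 = 8 * (n + 1) + 4 by ring,
        show 4 * (2 * n + 2) = 8 * n + 8 by ring,
        show 2 * (2 * n + 2) + 2 = 4 * (n + 1) + 2 by ring] at a
      rw [show 4 * (2 * n + 1) + 4 = 8 * n + 8 by ring, show 4 * (2 * n + 1) = 8 * n + 4 by ring,
        show 2 * (2 * n + 1) + 2 = 4 * (n + 1) by ring] at b
      simp only [w] at ih ⊢
      split_ifs at ih ⊢ <;> omega
  have C : ∀ n, r (8 * n) = (w n + n + r (4 * n)) % 2 := fun n => by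
    have a := B (2 * n)
    have b := W n
    have c := A n
    have := r0 (8 * n)
    rw [show 4 * (2 * n) = 8 * n by ring, show 2 * (2 * n) = 4 * n by ring] at a
    omega
  have ww : w (n % 4) = w n := by simp [w]
  interval_cases d
  · simp only [σ, δ, if_true, add_zero, show 2 * (2 * n) = 4 * n by ring,
      show 4 * (2 * n) = 8 * n by ring, Prod.mk.injEq, true_and, Fin.ext_iff, Fin.val_ofNat, C, ww]
    omega
  · simp only [σ, δ, one_ne_zero, if_false, show 2 * (2 * n + 1) = 4 * n + 2 by ring,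
      show 4 * (2 * n + 1) = 8 * n + 4 by ring, Prod.mk.injEq, Fin.ext_iff, Fin.val_ofNat, A, W,
      r1, ww]
    refine ⟨?_, ?_, ?_, ?_⟩ <;> first | trivial | omega

def R (s : S) (i : ℕ) : ℕ :=
  (δ (δ (δ (δ (δ s (i / 16)) (i / 8 % 2)) (i / 4 % 2)) (i / 2 % 2)) (i % 2)).1

def G (c : ℕ) (s : S) (j : ℕ) : ℕ := ((List.range 32).filter (fun i => R s i = c)).getD j 0

theorem chk : ∀ c < 2, ∀ s : S, Nat.count (fun i => R s i = c) 32 = 16 ∧
    ∀ j < 16, G c s j < 32 ∧ R s (G c s j) = c ∧ Nat.count (fun i => R s i = c) (G c s j) = j := by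
  decide +kernel

theorem main (r : ℕ → ℕ) (r4 : r 4 = 0) (r0 : ∀ n, r n < 2)
    (r1 : ∀ n, r (2 * n + 1) = (n + 1) % 2)
    (r2 : ∀ n, r (2 * n + 2) = (r (2 * n) + r (n + 1)) % 2) (c : ℕ) (hc : c < 2) :
    (Submodule.span ℤ (Reg.ker 2 fun n => (Nat.nth (fun m => r m = c) n : ℤ))).FG := by
  have st := step r r4 r0 r1 r2
  have hR : ∀ n i, i < 32 → r (32 * n + i) = R (σ r n) i := fun n i hi => by
    unfold R
    rw [← st _ _ (by omega), ← st _ _ (by omega), ← st _ _ (by omega), ← st _ _ (by omega),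
      ← st _ _ (by omega)]
    simp only [σ, Fin.val_ofNat]
    rw [Nat.mod_eq_of_lt (r0 _)]
    congr 1; omega
  have cnt : ∀ n b, b ≤ 32 → Nat.count (fun k => r (32 * n + k) = c) b =
      Nat.count (fun i => R (σ r n) i = c) b := fun n b hb => by
    rw [Nat.count_eq_card_filter_range, Nat.count_eq_card_filter_range]
    congr 1
    exact filter_congr fun i hi => by rw [hR n i (by have := mem_range.1 hi; omega)]
  have c32 : ∀ n, Nat.count (fun m => r m = c) (32 * n) = 16 * n := fun n => by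
    induction n with
    | zero => simp
    | succ n ih => rw [Nat.mul_succ, Nat.count_add, ih, cnt n 32 le_rfl, (chk c hc _).1]; ring
  have nt : ∀ n j, j < 16 → Nat.nth (fun m => r m = c) (16 * n + j) = 32 * n + G c (σ r n) j :=
    fun n j hj => by
      obtain ⟨a1, a2, a3⟩ := (chk c hc (σ r n)).2 j hj
      rw [← Nat.nth_count (p := fun m => r m = c) (n := 32 * n + G c (σ r n) j)
        (by rw [hR _ _ a1, a2]), Nat.count_add, c32, cnt _ _ a1.le, a3]
  refine Reg.reg_of_auto (fun n => (σ r (n / 16), Fin.ofNat 16 n))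
    (fun s d => (δ s.1 (s.2 / 8), Fin.ofNat 16 (2 * s.2 + d))) (fun n d hd => ?_) _ 2
    (fun s => G c s.1 s.2 - 2 * (s.2 : ℕ)) (fun n => ?_)
  · simp only [Prod.mk.injEq, Fin.ext_iff, Fin.val_ofNat]
    rw [← st _ _ (by omega)]
    exact ⟨by congr 1; omega, by omega⟩
  · have := nt (n / 16) (n % 16) (Nat.mod_lt _ (by norm_num))
    rw [Nat.div_add_mod] at this
    simp only [Fin.val_ofNat, this]
    omega

theorem final (h : ℤ → ℤ) (h0 : ∀ n ≤ 0, h n = 1) (h1 : h 1 = 1)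
    (h2 : ∀ n, 1 < n → h n = h (n - h (n - 1)) + h (n - 2)) (c : ℤ) (hc : c = 0 ∨ c = 1) :
    (Submodule.span ℤ (Reg.ker 2 fun n => (Nat.nth (fun m : ℕ => h m % 2 = c) n : ℤ))).FG := by
  have v := fun n => hvals h h0 h1 h2 n n le_rfl
  have := main (fun m => (h m % 2).toNat) (by
      have a := (v 1).2.2
      have b := (v 0).2.2
      norm_num [h1, h0 0 le_rfl] at a b ⊢
      omega) (fun n => by omega) (fun n => by
      have a := (v n).1
      push_cast; omega) (fun n => by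
      have a := (v n).2.2
      push_cast; omega) c.toNat (by omega)
  have e : (fun m : ℕ => h m % 2 = c) = fun m : ℕ => (h m % 2).toNat = c.toNat := by
    funext m; apply propext; omega
  rw [e]; exact this

end Pool.Agent.H17.MFib
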