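import Mathlib

set_option autoImplicit false
open Finset

namespace Pool.Agent.H17.MultTable

lemma second_moment {α : Type*} (s : Finset α) (P : Finset ℕ) (X : ℕ → α → ℝ) (μ : ℕ → ℝ)
    (h1 : ∀ p ∈ P, ∑ x ∈ s, X p x = μ p * s.card)
    (h2 : ∀ p ∈ P, ∀ q ∈ P, p ≠ q → ∑ x ∈ s, X p x * X q x = μ p * μ q * s.card)
    (h3 : ∀ p ∈ P, ∀ x, X p x * X p x = X p x) :
    ∑ x ∈ s, (∑ p ∈ P, X p x - ∑ p ∈ P, μ p) ^ 2 ≤ (∑ p ∈ P, μ p) * s.card := by
  have e : ∀ x, (∑ p ∈ P, X p x - ∑ p ∈ P, μ p) ^ 2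
      = ∑ p ∈ P, ∑ q ∈ P, (X p x - μ p) * (X q x - μ q) := by
    intro x
    rw [← Finset.sum_sub_distrib, sq, Finset.sum_mul_sum]
  simp only [e]
  rw [Finset.sum_comm, Finset.sum_mul]
  refine Finset.sum_le_sum fun p hp => ?_
  rw [Finset.sum_comm]
  have key : ∀ q ∈ P, ∑ x ∈ s, (X p x - μ p) * (X q x - μ q)
      = ∑ x ∈ s, X p x * X q x - μ p * μ q * s.card := by
    intro q hq
    have : ∀ x, (X p x - μ p) * (X q x - μ q)
        = X p x * X q x - μ q * X p x - μ p * X q x + μ p * μ q := by intro x; ring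
    simp only [this, Finset.sum_add_distrib, Finset.sum_sub_distrib, ← Finset.mul_sum, h1 p hp,
      h1 q hq, Finset.sum_const, nsmul_eq_mul]
    ring
  rw [Finset.sum_congr rfl key, Finset.sum_eq_single p]
  · simp only [h3 p hp, h1 p hp]
    have : 0 ≤ μ p * μ p * s.card := mul_nonneg (mul_self_nonneg _) (Nat.cast_nonneg _)
    linarith
  · intro q hq hqp
    rw [h2 p hp q hq (Ne.symm hqp)]; ring
  · intro h; exact absurd hp h

lemma cheb {α : Type*} (s : Finset α) (g : α → ℝ) (t V : ℝ) (pr : α → Prop) [DecidablePred pr]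
    (ht : 0 < t) (h : ∀ x ∈ s, pr x → t ^ 2 ≤ g x ^ 2) (hV : ∑ x ∈ s, g x ^ 2 ≤ V) :
    ((s.filter pr).card : ℝ) ≤ V / t ^ 2 := by
  rw [le_div_iff₀ (by positivity)]
  refine le_trans ?_ hV
  calc ((s.filter pr).card : ℝ) * t ^ 2 = ∑ x ∈ s.filter pr, t ^ 2 := by simp
    _ ≤ ∑ x ∈ s.filter pr, g x ^ 2 :=
      Finset.sum_le_sum fun x hx => h x (Finset.mem_filter.1 hx).1 (Finset.mem_filter.1 hx).2
    _ ≤ ∑ x ∈ s, g x ^ 2 :=
      Finset.sum_le_sum_of_subset_of_nonneg (Finset.filter_subset _ _) fun x _ _ => by positivity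

noncomputable def Y (d a : ℕ) : ℝ := if d ∣ a then 1 else 0

lemma sum_Y (N d : ℕ) (hd : d ∣ N) (hd0 : d ≠ 0) : ∑ a ∈ Ioc 0 N, Y d a = (1 / d) * N := by
  unfold Y
  rw [Finset.sum_boole, Nat.Ioc_filter_dvd_card_eq_div, Nat.cast_div hd (by exact_mod_cast hd0)]
  ring

lemma Y_sq (d a : ℕ) : Y d a * Y d a = Y d a := by unfold Y; split_ifs <;> simp

lemma Y_mul (p q a : ℕ) (hp : p.Prime) (hq : q.Prime) (h : p ≠ q) : Y p a * Y q a = Y (p * q) a := by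
  unfold Y
  have hc : Nat.Coprime p q := (Nat.coprime_primes hp hq).2 h
  by_cases h1 : p ∣ a
  · by_cases h2 : q ∣ a
    · simp [h1, h2, hc.mul_dvd_of_dvd_of_dvd h1 h2]
    · have : ¬ p * q ∣ a := fun h3 => h2 (dvd_of_mul_left_dvd h3)
      simp [h2, this]
  · have : ¬ p * q ∣ a := fun h3 => h1 (dvd_of_mul_right_dvd h3)
    simp [h1, this]

lemma Y_prod (p a b : ℕ) (hp : p.Prime) : Y p (a * b) = 1 - (1 - Y p a) * (1 - Y p b) := by
  unfold Y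
  by_cases h1 : p ∣ a <;> by_cases h2 : p ∣ b <;> simp [h1, h2, hp.dvd_mul]

lemma table (P : Finset ℕ) (hP : ∀ p ∈ P, p.Prime) (N : ℕ) (hN : ∀ p ∈ P, p ∣ N)
    (L : ℝ) (hL : L = ∑ p ∈ P, (1 / p : ℝ)) (hL0 : 0 < L) :
    (((Ioc 0 N ×ˢ Ioc 0 N).image (fun x : ℕ × ℕ => x.1 * x.2)).card : ℝ) ≤ 48 / L * N ^ 2 := by
  have hpq : ∀ p ∈ P, ∀ q ∈ P, p ≠ q → p * q ∣ N := fun p hp q hq h =>
    ((Nat.coprime_primes (hP p hp) (hP q hq)).2 h).mul_dvd_of_dvd_of_dvd (hN p hp) (hN q hq)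
  have m1 := second_moment (Ioc 0 (N * N)) P Y (fun p => 1 / p)
    (fun p hp => by
      rw [sum_Y _ _ ((hN p hp).mul_right N) (hP p hp).ne_zero]; simp)
    (fun p hp q hq h => by
      simp only [Y_mul p q _ (hP p hp) (hP q hq) h]
      rw [sum_Y _ _ ((hpq p hp q hq h).mul_right N) (mul_ne_zero (hP p hp).ne_zero (hP q hq).ne_zero)]
      simp [mul_comm])
    (fun p _ x => Y_sq p x)
  have U1 : ∀ p ∈ P, ∑ a ∈ Ioc 0 N, (1 - Y p a) = (1 - 1 / p) * N := by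
    intro p hp
    rw [Finset.sum_sub_distrib, sum_Y _ _ (hN p hp) (hP p hp).ne_zero]
    simp; ring
  have U2 : ∀ p ∈ P, ∀ q ∈ P, p ≠ q →
      ∑ a ∈ Ioc 0 N, (1 - Y p a) * (1 - Y q a) = (1 - 1 / p) * (1 - 1 / q) * N := by
    intro p hp q hq h
    have : ∀ a, (1 - Y p a) * (1 - Y q a) = 1 - Y p a - Y q a + Y (p * q) a := by
      intro a; rw [← Y_mul p q a (hP p hp) (hP q hq) h]; ring
    simp only [this, Finset.sum_add_distrib, Finset.sum_sub_distrib]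
    rw [sum_Y _ _ (hN p hp) (hP p hp).ne_zero, sum_Y _ _ (hN q hq) (hP q hq).ne_zero,
      sum_Y _ _ (hpq p hp q hq h) (mul_ne_zero (hP p hp).ne_zero (hP q hq).ne_zero)]
    simp; ring
  have prodsum : ∀ f : ℕ → ℝ, ∑ x ∈ Ioc 0 N ×ˢ Ioc 0 N, f x.1 * f x.2
      = (∑ a ∈ Ioc 0 N, f a) * (∑ a ∈ Ioc 0 N, f a) := by
    intro f
    rw [Finset.sum_mul_sum, Finset.sum_product]
  have m2 := second_moment (Ioc 0 N ×ˢ Ioc 0 N) P (fun p x => Y p (x.1 * x.2))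
    (fun p => 1 - (1 - 1 / p) ^ 2)
    (fun p hp => by
      simp only [Y_prod p _ _ (hP p hp), Finset.sum_sub_distrib]
      rw [prodsum (fun a => 1 - Y p a), U1 p hp]
      simp; ring)
    (fun p hp q hq h => by
      have : ∀ x : ℕ × ℕ, Y p (x.1 * x.2) * Y q (x.1 * x.2) = 1 - (1 - Y p x.1) * (1 - Y p x.2)
          - (1 - Y q x.1) * (1 - Y q x.2)
          + ((1 - Y p x.1) * (1 - Y q x.1)) * ((1 - Y p x.2) * (1 - Y q x.2)) := by
        intro x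
        rw [Y_prod p _ _ (hP p hp), Y_prod q _ _ (hP q hq)]; ring
      simp only [this, Finset.sum_add_distrib, Finset.sum_sub_distrib]
      rw [prodsum (fun a => 1 - Y p a), prodsum (fun a => 1 - Y q a),
        prodsum (fun a => (1 - Y p a) * (1 - Y q a)), U1 p hp, U1 q hq, U2 p hp q hq h]
      simp; ring)
    (fun p _ x => Y_sq p _)
  rw [← hL] at m1
  obtain ⟨M, hM⟩ : ∃ M : ℝ, M = ∑ p ∈ P, (1 - (1 - 1 / (p:ℝ)) ^ 2) := ⟨_, rfl⟩
  rw [← hM] at m2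
  have hM1 : 3 / 2 * L ≤ M := by
    rw [hL, hM, Finset.mul_sum]
    refine Finset.sum_le_sum fun p hp => ?_
    have h2 : (2:ℝ) ≤ p := by exact_mod_cast (hP p hp).two_le
    have h3 : 1 / (p:ℝ) ≤ 1 / 2 := one_div_le_one_div_of_le (by norm_num) h2
    have h4 : 0 < 1 / (p:ℝ) := by positivity
    nlinarith
  have hM2 : M ≤ 2 * L := by
    rw [hL, hM, Finset.mul_sum]
    refine Finset.sum_le_sum fun p hp => ?_
    nlinarith [sq_nonneg (1 / (p:ℝ))]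
  have c1 := cheb (Ioc 0 (N * N)) (fun x => ∑ p ∈ P, Y p x - L) (L / 4) _
    (fun x => 5 / 4 * L < ∑ p ∈ P, Y p x) (by positivity) (fun x _ hx => by nlinarith) m1
  have c2 := cheb (Ioc 0 N ×ˢ Ioc 0 N) (fun x => ∑ p ∈ P, Y p (x.1 * x.2) - M) (L / 4) _
    (fun x => ¬ 5 / 4 * L < ∑ p ∈ P, Y p (x.1 * x.2)) (by positivity) (fun x _ hx => by
      push Not at hx
      nlinarith) m2
  have hsub : (Ioc 0 N ×ˢ Ioc 0 N).image (fun x : ℕ × ℕ => x.1 * x.2) ⊆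
      (Ioc 0 (N * N)).filter (fun x => 5 / 4 * L < ∑ p ∈ P, Y p x) ∪
      ((Ioc 0 N ×ˢ Ioc 0 N).filter (fun x => ¬ 5 / 4 * L < ∑ p ∈ P, Y p (x.1 * x.2))).image
        (fun x : ℕ × ℕ => x.1 * x.2) := by
    intro n hn
    obtain ⟨x, hx, rfl⟩ := Finset.mem_image.1 hn
    by_cases h : 5 / 4 * L < ∑ p ∈ P, Y p (x.1 * x.2)
    · refine Finset.mem_union_left _ (Finset.mem_filter.2 ⟨?_, h⟩)
      simp only [Finset.mem_product, Finset.mem_Ioc] at hx ⊢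
      exact ⟨Nat.mul_pos hx.1.1 hx.2.1, Nat.mul_le_mul hx.1.2 hx.2.2⟩
    · exact Finset.mem_union_right _ (Finset.mem_image_of_mem _ (Finset.mem_filter.2 ⟨hx, h⟩))
  have hc := (Finset.card_le_card hsub).trans ((Finset.card_union_le _ _).trans
    (Nat.add_le_add_left Finset.card_image_le _))
  have hc' := (Nat.cast_le (α := ℝ)).2 hc
  push_cast at hc'
  simp only [Finset.card_product, Nat.card_Ioc, Nat.sub_zero] at c1 c2
  push_cast at c1 c2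
  have e1 : L * ((N:ℝ) * N) / (L / 4) ^ 2 = 16 / L * N ^ 2 := by field_simp; norm_num
  have e2 : M * ((N:ℝ) * N) / (L / 4) ^ 2 ≤ 32 / L * N ^ 2 := by
    have : M * ((N:ℝ) * N) / (L / 4) ^ 2 ≤ 2 * L * ((N:ℝ) * N) / (L / 4) ^ 2 := by gcongr
    refine this.trans (le_of_eq ?_)
    field_simp; ring
  have e3 : 48 / L * (N:ℝ) ^ 2 = 16 / L * N ^ 2 + 32 / L * N ^ 2 := by ring
  linarith

lemma exists_table (ε : ℝ) (hε : 0 < ε) (N0 : ℕ) : ∃ N, N0 ≤ N ∧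
    (((Ioc 0 N ×ˢ Ioc 0 N).image (fun x : ℕ × ℕ => x.1 * x.2)).card : ℝ) ≤ ε * N ^ 2 := by
  obtain ⟨P, hP, hL⟩ : ∃ P : Finset ℕ, (∀ p ∈ P, p.Prime) ∧ 48 / ε < ∑ p ∈ P, (1 / p : ℝ) := by
    by_contra hc
    push Not at hc
    apply Nat.Primes.not_summable_one_div
    refine summable_of_sum_le (c := 48 / ε) (fun p => by positivity) fun s => ?_
    have := hc (s.map ⟨Subtype.val, Subtype.val_injective⟩) (by
      intro p hp
      obtain ⟨q, _, rfl⟩ := Finset.mem_map.1 hp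
      exact q.2)
    rw [Finset.sum_map] at this
    exact this
  have hQ : 0 < ∏ p ∈ P, p := Finset.prod_pos fun p hp => (hP p hp).pos
  refine ⟨(∏ p ∈ P, p) * N0, Nat.le_mul_of_pos_left _ hQ, ?_⟩
  have h0 : 0 < 48 / ε := by positivity
  refine (table P hP _ (fun p hp => (Finset.dvd_prod_of_mem _ hp).mul_right _) _ rfl
    (h0.trans hL)).trans ?_
  apply mul_le_mul_of_nonneg_right _ (by positivity)
  rw [div_le_iff₀ (h0.trans hL)]
  rw [div_lt_iff₀ hε] at hL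
  linarith

end Pool.Agent.H17.MultTable
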