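import Mathlib

set_option autoImplicit false

namespace Pool.Agent.H17.NB

open Matrix Filter Topology

/-- coefficients of the inverse of `1 + g t + e t^2` -/
def U {R : Type} [CommRing R] (g e : R) : ℕ → R
  | 0 => 1
  | 1 => -g
  | (k + 2) => -g * U g e (k + 1) - e * U g e k

lemma U_scale {R : Type} [CommRing R] (r g e : R) (k : ℕ) :
    U (r * g) (r ^ 2 * e) k = r ^ k * U g e k := by
  induction k using Nat.twoStepInduction with
  | zero => simp [U]
  | one => simp [U]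
  | more k h1 h2 => simp only [U, h1, h2]; ring

lemma U_map {R S : Type} [CommRing R] [CommRing S] (f : R →+* S) (g e : R) (k : ℕ) :
    f (U g e k) = U (f g) (f e) k := by
  induction k using Nat.twoStepInduction with
  | zero => simp [U]
  | one => simp [U]
  | more k h1 h2 => simp only [U, map_sub, map_mul, map_neg, h1, h2]

lemma U_zero {R : Type} [CommRing R] (g : R) (k : ℕ) : U g 0 k = (-g) ^ k := by
  induction k using Nat.twoStepInduction with
  | zero => simp [U]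
  | one => simp [U]
  | more k h1 h2 => simp only [U, h2]; ring

lemma U_cont (g : ℝ) (k : ℕ) : Continuous fun e : ℝ => U g e k := by
  induction k using Nat.twoStepInduction with
  | zero => simp only [U]; fun_prop
  | one => simp only [U]; fun_prop
  | more k h1 h2 => simp only [U]; fun_prop

open PowerSeries in
lemma U_ps {R : Type} [CommRing R] (g e : R) :
    (1 + C g * X + C e * X ^ 2) * PowerSeries.mk (U g e) = 1 := by
  ext k
  have h : (1 + C g * X + C e * X ^ 2) * PowerSeries.mk (U g e)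
      = PowerSeries.mk (U g e) + C g * (PowerSeries.mk (U g e) * X)
        + C e * (PowerSeries.mk (U g e) * X * X) := by ring
  rw [h]
  rcases k with _ | _ | k
  · simp [U]
  · simp [U, coeff_succ_mul_X, coeff_one]
  · simp [U, coeff_succ_mul_X, coeff_one]
    ring

lemma stepA (n : ℕ) : ∃ R : ℕ, ∃ α : Fin n → ℝ,
    (Matrix.of fun k i : Fin n => U ((R : ℝ) * (i : ℕ)) 1 k).det ≠ 0 ∧
    (Matrix.of fun k i : Fin n => U ((R : ℝ) * (i : ℕ)) 1 k) *ᵥ α
      = (fun k : Fin n => ∑ j : Fin n, U ((R : ℝ) * (j : ℕ)) (-1) k) ∧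
    ∀ i, 1 / 2 < α i ∧ α i < 3 / 2 := by
  let V : ℝ → Matrix (Fin n) (Fin n) ℝ := fun e => Matrix.of fun k i => U ((i : ℕ) : ℝ) e k
  let w : ℝ → Fin n → ℝ := fun e k => ∑ j : Fin n, U ((j : ℕ) : ℝ) (-e) k
  have hV : Continuous V := by
    refine continuous_matrix fun k i => ?_
    exact U_cont _ _
  have hw : Continuous w := by
    refine continuous_pi fun k => continuous_finsetSum _ fun j _ => ?_
    exact (U_cont _ _).comp continuous_neg
  have hdet0 : (V 0).det ≠ 0 := by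
    have : V 0 = (Matrix.vandermonde fun i : Fin n => -((i : ℕ) : ℝ))ᵀ := by
      ext k i
      simp [V, U_zero, Matrix.vandermonde_apply]
    rw [this, Matrix.det_transpose, Matrix.det_vandermonde_ne_zero_iff]
    intro i j h
    have h' : ((i : ℕ) : ℝ) = ((j : ℕ) : ℝ) := neg_injective h
    exact Fin.ext (by exact_mod_cast h')
  have hinv : ContinuousAt (fun e => (V e)⁻¹) 0 := by
    refine ContinuousAt.comp (g := Inv.inv) (continuousAt_matrix_inv _ ?_) hV.continuousAt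
    rw [Ring.inverse_eq_inv']
    exact continuousAt_inv₀ hdet0
  have hf : ContinuousAt (fun e => (V e)⁻¹ *ᵥ w e) 0 := by
    have hc : Continuous fun p : Matrix (Fin n) (Fin n) ℝ × (Fin n → ℝ) => p.1 *ᵥ p.2 :=
      continuous_fst.matrix_mulVec continuous_snd
    exact hc.continuousAt.comp (f := fun e => ((V e)⁻¹, w e)) (hinv.prodMk hw.continuousAt)
  have hf0 : (V 0)⁻¹ *ᵥ w 0 = fun _ => 1 := by
    have : w 0 = V 0 *ᵥ fun _ => 1 := by
      ext k
      simp [w, V, Matrix.mulVec, dotProduct]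
    rw [this, Matrix.mulVec_mulVec, Matrix.nonsing_inv_mul _ (Ne.isUnit hdet0), Matrix.one_mulVec]
  have e1 : ∀ᶠ e in 𝓝 (0 : ℝ), (V e).det ≠ 0 :=
    hV.matrix_det.continuousAt.eventually_ne hdet0
  have e2 : ∀ᶠ e in 𝓝 (0 : ℝ), ∀ i, 1 / 2 < ((V e)⁻¹ *ᵥ w e) i ∧ ((V e)⁻¹ *ᵥ w e) i < 3 / 2 := by
    rw [Filter.eventually_all]
    intro i
    have hi : ContinuousAt (fun e => ((V e)⁻¹ *ᵥ w e) i) 0 :=
      (continuous_apply i).continuousAt.comp hf
    have h1 : ((V 0)⁻¹ *ᵥ w 0) i = 1 := by rw [hf0]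
    exact (hi.eventually (p := fun y => 1 / 2 < y) (by beta_reduce; rw [h1]; exact lt_mem_nhds (by norm_num))).and
      (hi.eventually (p := fun y => y < 3 / 2) (by beta_reduce; rw [h1]; exact gt_mem_nhds (by norm_num)))
  have ht : Tendsto (fun R : ℕ => (((R : ℝ))⁻¹) ^ 2) atTop (𝓝 0) := by
    have := (tendsto_inv_atTop_nhds_zero_nat (𝕜 := ℝ)).pow 2
    simpa using this
  obtain ⟨R, ⟨h1, h2⟩, hR⟩ := ((ht.eventually (e1.and e2)).and (eventually_gt_atTop 0)).exists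
  set e : ℝ := ((R : ℝ)⁻¹) ^ 2 with he
  have hR' : (R : ℝ) ≠ 0 := by positivity
  have hs : ∀ (g : ℝ) (k : ℕ), U ((R : ℝ) * g) 1 k = (R : ℝ) ^ k * U g e k := by
    intro g k
    rw [← U_scale]
    congr 1
    rw [he]; field_simp
  have hs' : ∀ (g : ℝ) (k : ℕ), U ((R : ℝ) * g) (-1) k = (R : ℝ) ^ k * U g (-e) k := by
    intro g k
    rw [← U_scale]
    congr 1
    rw [he]; field_simp
  have hM : (Matrix.of fun k i : Fin n => U ((R : ℝ) * (i : ℕ)) 1 k)
      = Matrix.diagonal (fun k : Fin n => (R : ℝ) ^ (k : ℕ)) * V e := by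
    ext k i
    simp [V, hs, Matrix.diagonal_mul]
  refine ⟨R, (V e)⁻¹ *ᵥ w e, ?_, ?_, h2⟩
  · rw [hM, Matrix.det_mul, Matrix.det_diagonal]
    exact mul_ne_zero (Finset.prod_ne_zero_iff.2 fun k _ => pow_ne_zero _ hR') h1
  · rw [hM, ← Matrix.mulVec_mulVec, Matrix.mulVec_mulVec (M := V e),
      Matrix.mul_nonsing_inv _ (Ne.isUnit h1), Matrix.one_mulVec]
    ext k
    simp [Matrix.mulVec_diagonal, w, hs', Finset.mul_sum]

/-- the integer data of the construction -/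
lemma stepB (m : ℕ) : ∃ (R D a : ℕ) (c : Fin (m + 1) → ℕ), 0 < D ∧
    R * m * D + D + 3 ≤ a ∧ (∀ i, c i ≤ 2 * (D * a ^ (m + 2))) ∧
    ∀ k : Fin (m + 1), ∑ i, (c i : ℤ) * U ((R : ℤ) * (i : ℕ)) 1 k
      = (D * a ^ (m + 2) : ℤ) * ∑ j : Fin (m + 1), U ((R : ℤ) * (j : ℕ)) (-1) k
        + (D : ℤ) ^ 2 * ((if (k : ℕ) = 0 then 1 else 0)
          + 3 * (m + 1) * D * a ^ (m - k) * U (2 * D : ℤ) (D ^ 2) k) := by
  obtain ⟨R, α, hdet, hα, hb⟩ := stepA (m + 1)
  let Mz : Matrix (Fin (m + 1)) (Fin (m + 1)) ℤ := Matrix.of fun k i => U ((R : ℤ) * (i : ℕ)) 1 k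
  set M : Matrix (Fin (m + 1)) (Fin (m + 1)) ℝ :=
    Matrix.of fun k i : Fin (m + 1) => U ((R : ℝ) * (i : ℕ)) 1 k with hMdef
  have hcast : ∀ (g e : ℤ) (k : ℕ), ((U g e k : ℤ) : ℝ) = U (g : ℝ) (e : ℝ) k :=
    fun g e k => U_map (Int.castRingHom ℝ) g e k
  have hMM : M = Mz.map (Int.castRingHom ℝ) := by
    ext k i
    simp [hMdef, Mz, hcast]
  have hdz : Mz.det ≠ 0 := by
    intro h
    apply hdet
    rw [hMM]
    have := (Int.castRingHom ℝ).map_det Mz
    rw [h] at this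
    simpa using this.symm
  obtain ⟨D, hD⟩ : ∃ D : ℕ, (D : ℤ) = Mz.det ^ 2 := ⟨(Mz.det ^ 2).toNat, Int.toNat_of_nonneg (sq_nonneg _)⟩
  have hDpos : 0 < D := by
    have : (0 : ℤ) < D := by rw [hD]; positivity
    exact_mod_cast this
  let q : ℝ → Fin (m + 1) → ℝ := fun κ k =>
    D * κ ^ (m + 2) * (if (k : ℕ) = 0 then 1 else 0)
      + 3 * (m + 1) * D ^ 2 * κ ^ ((k : ℕ) + 2) * U (2 * D : ℝ) (D ^ 2) k
  have hq : Continuous q := by
    refine continuous_pi fun k => ?_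
    simp only [q]
    fun_prop
  have hp : Continuous fun κ => M⁻¹ *ᵥ q κ := continuous_const.matrix_mulVec hq
  have hp0 : M⁻¹ *ᵥ q 0 = 0 := by
    have : q 0 = 0 := by ext k; simp [q]
    rw [this, Matrix.mulVec_zero]
  have e2 : ∀ᶠ κ in 𝓝 (0 : ℝ), ∀ i, -(1 / 2) < (M⁻¹ *ᵥ q κ) i ∧ (M⁻¹ *ᵥ q κ) i < 1 / 2 := by
    rw [Filter.eventually_all]
    intro i
    have hi : ContinuousAt (fun e => (M⁻¹ *ᵥ q e) i) 0 :=
      ((continuous_apply i).comp hp).continuousAt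
    have h1 : (M⁻¹ *ᵥ q 0) i = 0 := by rw [hp0]; rfl
    exact (hi.eventually (p := fun y => -(1 / 2) < y)
        (by beta_reduce; rw [h1]; exact lt_mem_nhds (by norm_num))).and
      (hi.eventually (p := fun y => y < 1 / 2) (by beta_reduce; rw [h1]; exact gt_mem_nhds (by norm_num)))
  obtain ⟨a, h2, ha⟩ := (((tendsto_inv_atTop_nhds_zero_nat (𝕜 := ℝ)).eventually e2).and
    (eventually_ge_atTop (R * m * D + D + 3))).exists
  have ha0 : (0 : ℝ) < a := by
    have : 0 < a := by omega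
    exact_mod_cast this
  let r : Fin (m + 1) → ℤ := fun k =>
    (D * a ^ (m + 2) : ℤ) * ∑ j : Fin (m + 1), U ((R : ℤ) * (j : ℕ)) (-1) k
        + (D : ℤ) ^ 2 * ((if (k : ℕ) = 0 then 1 else 0)
          + 3 * (m + 1) * D * a ^ (m - k) * U (2 * D : ℤ) (D ^ 2) k)
  have hr : ∀ k, ∃ r', r k = Mz.det * r' := by
    intro k
    refine ⟨Mz.det * ((a ^ (m + 2) : ℤ) * ∑ j : Fin (m + 1), U ((R : ℤ) * (j : ℕ)) (-1) k
        + (D : ℤ) * ((if (k : ℕ) = 0 then 1 else 0)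
          + 3 * (m + 1) * D * a ^ (m - k) * U (2 * D : ℤ) (D ^ 2) k)), ?_⟩
    rw [← mul_assoc, ← sq, ← hD]
    simp only [r]
    ring
  choose r' hr' using hr
  let cz : Fin (m + 1) → ℤ := Mz.adjugate *ᵥ r'
  have hcz : Mz *ᵥ cz = r := by
    simp only [cz]
    rw [Matrix.mulVec_mulVec, Matrix.mul_adjugate, Matrix.smul_mulVec, Matrix.one_mulVec]
    ext k
    simp [hr']
  set Cc : ℝ := D * a ^ (m + 2) with hCc
  have hCpos : 0 < Cc := by rw [hCc]; positivity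
  have hreal : M *ᵥ (fun i => (cz i : ℝ)) = Cc • (M *ᵥ α + q (a : ℝ)⁻¹) := by
    ext k
    have h1 : (M *ᵥ fun i => (cz i : ℝ)) k = ((Mz *ᵥ cz) k : ℝ) := by
      rw [hMM]
      simp [Matrix.mulVec, dotProduct]
    rw [h1, hcz, hα]
    simp only [r, q, Pi.smul_apply, Pi.add_apply, smul_eq_mul]
    push_cast [hcast]
    have hk : (k : ℕ) ≤ m := Nat.lt_succ_iff.1 k.2
    have hpow : (a : ℝ) ^ (m + 2) = a ^ (m - k) * a ^ ((k : ℕ) + 2) := by
      rw [← pow_add]; congr 1; omega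
    have e3 : (a : ℝ) ^ (m + 2) * ((a : ℝ)⁻¹) ^ (m + 2) = 1 := by
      rw [← mul_pow, mul_inv_cancel₀ ha0.ne', one_pow]
    have e4 : (a : ℝ) ^ (m + 2) * ((a : ℝ)⁻¹) ^ ((k : ℕ) + 2) = a ^ (m - k) := by
      rw [hpow, mul_assoc, ← mul_pow, mul_inv_cancel₀ ha0.ne', one_pow, mul_one]
    rw [hCc]
    split_ifs
    · linear_combination (-(D : ℝ) ^ 2) * e3
        - (3 * (m + 1) * (D : ℝ) ^ 3 * U (2 * D : ℝ) (D ^ 2) k) * e4
    · linear_combination - (3 * (m + 1) * (D : ℝ) ^ 3 * U (2 * D : ℝ) (D ^ 2) k) * e4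
  have hsol : (fun i => (cz i : ℝ)) = Cc • (α + M⁻¹ *ᵥ q (a : ℝ)⁻¹) := by
    have h3 := congrArg (fun v => M⁻¹ *ᵥ v) hreal
    simp only [Matrix.mulVec_mulVec, Matrix.mulVec_smul, Matrix.mulVec_add,
      Matrix.nonsing_inv_mul _ (Ne.isUnit hdet), Matrix.one_mulVec] at h3
    exact h3
  have hbd : ∀ i, 0 ≤ cz i ∧ cz i ≤ 2 * (D * a ^ (m + 2)) := by
    intro i
    have h3 : (cz i : ℝ) = Cc * (α i + (M⁻¹ *ᵥ q (a : ℝ)⁻¹) i) := congrFun hsol i
    have h4 := hb i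
    have h5 := h2 i
    constructor
    · have : (0 : ℝ) ≤ cz i := by rw [h3]; exact mul_nonneg hCpos.le (by linarith)
      exact_mod_cast this
    · have : (cz i : ℝ) ≤ 2 * Cc := by rw [h3]; nlinarith
      rw [hCc] at this
      exact_mod_cast this
  refine ⟨R, D, a, fun i => (cz i).toNat, hDpos, ha, fun i => ?_, fun k => ?_⟩
  · have := (hbd i).2
    have h1 := Int.toNat_of_nonneg (hbd i).1
    zify
    rw [h1]; exact this
  · have h1 := congrFun hcz k
    simp only [Int.toNat_of_nonneg (hbd _).1]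
    refine Eq.trans ?_ h1
    simp [Matrix.mulVec, dotProduct, Mz, mul_comm]

end Pool.Agent.H17.NB
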