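import Pool.Agent.H17.NB1

set_option autoImplicit false

namespace Pool.Agent.H17.NB

open Matrix PowerSeries

/-- the nonbacktracking matrix, indexed by the directed edges -/
def nb {V : Type} [DecidableEq V] (G : SimpleGraph V) : Matrix G.Dart G.Dart ℂ :=
  Matrix.of fun d e => if d.snd = e.fst ∧ d.fst ≠ e.snd then 1 else 0

lemma sum_dart {V : Type} [Fintype V] [DecidableEq V] (G : SimpleGraph V) [DecidableRel G.Adj]
    {A : Type} [AddCommMonoid A] (f : V → V → A) :
    ∑ e : G.Dart, f e.fst e.snd = ∑ a, ∑ b, if G.Adj a b then f a b else 0 := by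
  rw [← Fintype.sum_prod_type', ← Finset.sum_filter]
  refine Finset.sum_bij (fun e _ => e.toProd) ?_ ?_ ?_ ?_
  · intro e _
    exact Finset.mem_filter.2 ⟨Finset.mem_univ _, e.adj⟩
  · intro e _ e' _ h
    exact SimpleGraph.Dart.ext _ _ h
  · intro p hp
    exact ⟨⟨p, (Finset.mem_filter.1 hp).2⟩, Finset.mem_univ _, rfl⟩
  · intro e _
    rfl

theorem chain {V : Type} [Fintype V] [DecidableEq V] (G : SimpleGraph V) [DecidableRel G.Adj]
    (m : ℕ) (l0 δ : ℂ) (hδ : δ ≠ 0) (hl : l0 ^ 2 ≠ 1) (x : V → ℂ⟦X⟧)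
    (hx : ∀ v, X ^ (m + 1) ∣ ((C l0 + C δ * X) ^ 2 - 1 + (G.degree v : ℂ⟦X⟧)) * x v
      - (C l0 + C δ * X) * ∑ u, if G.Adj v u then x u else 0)
    (u0 v0 : V) (h0 : G.Adj u0 v0) (hx0 : constantCoeff (x u0) ≠ 0) :
    ∃ y : G.Dart → ℂ, ((nb G - l0 • (1 : Matrix G.Dart G.Dart ℂ)) ^ (m + 1)) *ᵥ y = 0 ∧
      ((nb G - l0 • (1 : Matrix G.Dart G.Dart ℂ)) ^ m) *ᵥ y ≠ 0 := by
  set lam : ℂ⟦X⟧ := C l0 + C δ * X with hlam
  let Y : V → V → ℂ⟦X⟧ := fun u v => lam * x v - x u
  have key : ∀ d : G.Dart, X ^ (m + 1) ∣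
      (∑ e : G.Dart, if d.snd = e.fst ∧ d.fst ≠ e.snd then Y e.fst e.snd else 0)
        - lam * Y d.fst d.snd := by
    intro d
    rw [sum_dart G (fun a b => if d.snd = a ∧ d.fst ≠ b then Y a b else 0),
      Finset.sum_eq_single d.snd (fun a _ ha => by simp [Ne.symm ha]) (by simp)]
    have h1 : ∀ b, (if G.Adj d.snd b then (if d.snd = d.snd ∧ d.fst ≠ b then Y d.snd b else 0) else 0)
        = lam * (if G.Adj d.snd b then x b else 0) - (if G.Adj d.snd b then 1 else 0) * x d.snd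
          - (if d.fst = b then Y d.snd b else 0) := by
      intro b
      by_cases hb : d.fst = b
      · have : G.Adj d.snd b := hb ▸ d.adj.symm
        simp [hb, this, Y]
      · by_cases ha : G.Adj d.snd b <;> simp [hb, ha, Y]
    rw [Finset.sum_congr rfl fun b _ => h1 b]
    simp only [Finset.sum_sub_distrib, ← Finset.mul_sum, ← Finset.sum_mul,
      Finset.sum_ite_eq, Finset.mem_univ, if_true]
    have h2 : (∑ b, if G.Adj d.snd b then (1 : ℂ⟦X⟧) else 0) = (G.degree d.snd : ℂ⟦X⟧) := by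
      rw [Finset.sum_boole, ← SimpleGraph.card_neighborFinset_eq_degree,
        SimpleGraph.neighborFinset_eq_filter]
    rw [h2]
    have h3 := (hx d.snd).neg_right
    convert h3 using 1
    simp only [Y]
    ring
  let y : ℕ → G.Dart → ℂ := fun j d => coeff j (Y d.fst d.snd)
  set T := nb G - l0 • (1 : Matrix G.Dart G.Dart ℂ) with hT
  have hstep : ∀ j, j ≤ m → ∀ d, (T *ᵥ y j) d = coeff j (C δ * (Y d.fst d.snd * X)) := by
    intro j hj d
    have h1 := (X_pow_dvd_iff.1 (key d)) j (by omega)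
    have h2 : (T *ᵥ y j) d = (∑ e : G.Dart, if d.snd = e.fst ∧ d.fst ≠ e.snd then y j e else 0)
        - l0 * y j d := by
      rw [hT, Matrix.sub_mulVec, Matrix.smul_mulVec, Matrix.one_mulVec]
      simp [Matrix.mulVec, dotProduct, nb]
    rw [h2]
    have h3 : lam * Y d.fst d.snd = C l0 * Y d.fst d.snd + C δ * (Y d.fst d.snd * X) := by
      rw [hlam]; ring
    rw [h3, map_sub, map_add, map_sum, coeff_C_mul] at h1
    have h4 : ∀ e : G.Dart, coeff j (if d.snd = e.fst ∧ d.fst ≠ e.snd then Y e.fst e.snd else 0)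
        = if d.snd = e.fst ∧ d.fst ≠ e.snd then y j e else 0 := by
      intro e
      split_ifs <;> simp [y]
    simp only [h4] at h1
    simp only [y] at h1 ⊢
    linear_combination h1
  have hz : T *ᵥ y 0 = 0 := by
    ext d
    rw [hstep 0 (Nat.zero_le _)]
    simp
  have hs : ∀ j, j + 1 ≤ m → T *ᵥ y (j + 1) = δ • y j := by
    intro j hj
    ext d
    rw [hstep _ hj]
    simp [y, coeff_succ_mul_X]
  have hpow : ∀ j, j ≤ m → (T ^ j) *ᵥ y j = δ ^ j • y 0 := by
    intro j
    induction j with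
    | zero => simp
    | succ j ih =>
      intro hj
      rw [pow_succ, ← Matrix.mulVec_mulVec, hs j hj, Matrix.mulVec_smul, ih (by omega), smul_smul,
        pow_succ']
  refine ⟨y m, ?_, ?_⟩
  · rw [pow_succ', ← Matrix.mulVec_mulVec, hpow m le_rfl, Matrix.mulVec_smul, hz, smul_zero]
  · rw [hpow m le_rfl]
    intro h
    have h1 : y 0 = 0 := (smul_eq_zero.1 h).resolve_left (pow_ne_zero _ hδ)
    have a1 := congrFun h1 ⟨(u0, v0), h0⟩
    have a2 := congrFun h1 ⟨(v0, u0), h0.symm⟩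
    simp [y, Y, hlam] at a1 a2
    apply hx0
    have : (l0 ^ 2 - 1) * constantCoeff (x u0) = 0 := by linear_combination a1 + l0 * a2
    exact (mul_eq_zero.1 this).resolve_left (sub_ne_zero.2 hl)

section realize
variable {I : Type} [Fintype I] [DecidableEq I] (T : I → I → Prop) [DecidableRel T]
  (β sl : I → ℕ) (L : ℕ)

abbrev W (I : Type) (L : ℕ) : Type := (Fin (L + 1) × I × Bool) ⊕ Fin (L + 1)

def adj : W I L → W I L → Prop
  | .inl p, .inl q => p.2.2 ≠ q.2.2 ∧ ((p.1 = q.1 ∧ T p.2.1 q.2.1) ∨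
      (p.2.1 = q.2.1 ∧ (p.1 + q.1).val < β p.2.1))
  | .inl p, .inr j => j.val < sl p.2.1
  | .inr j, .inl p => j.val < sl p.2.1
  | .inr _, .inr _ => False

instance : DecidableRel (adj T β sl L) := fun u v => by
  cases u <;> cases v <;> unfold adj <;> infer_instance

def gr (hT : ∀ a b, T a b → T b a) : SimpleGraph (W I L) where
  Adj := adj T β sl L
  symm := ⟨by
    rintro (p | i) (q | j) h
    · refine ⟨h.1.symm, ?_⟩
      rcases h.2 with h | h
      · exact Or.inl ⟨h.1.symm, hT _ _ h.2⟩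
      · exact Or.inr ⟨h.1.symm, by rw [add_comm q.1 p.1, ← h.1]; exact h.2⟩
    · exact h
    · exact h
    · exact h⟩
  loopless := ⟨by
    rintro (p | i) h
    · exact h.1 rfl
    · exact h⟩

instance (hT : ∀ a b, T a b → T b a) : DecidableRel (gr T β sl L hT).Adj :=
  inferInstanceAs (DecidableRel (adj T β sl L))

lemma count_lt {A : Type} [AddCommMonoid A] (b : ℕ) (hb : b ≤ L + 1) (φ : A) :
    (∑ j : Fin (L + 1), if j.val < b then φ else 0) = b • φ := by
  rw [← Finset.sum_filter, Finset.sum_const, Fin.card_filter_val_lt, min_eq_right hb]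

lemma sum_inl {A : Type} [AddCommMonoid A] (hirr : ∀ a, ¬ T a a) (hβ : ∀ a, β a ≤ L + 1)
    (hsl : ∀ a, sl a ≤ L + 1) (φ : I → Bool → A) (φ0 : A) (p : Fin (L + 1) × I × Bool) :
    (∑ u : W I L, if adj T β sl L (.inl p) u then
        (Sum.elim (fun q : Fin (L + 1) × I × Bool => φ q.2.1 q.2.2) (fun _ => φ0) u) else 0)
      = (∑ b, if T p.2.1 b then φ b (!p.2.2) else 0) + β p.2.1 • φ p.2.1 (!p.2.2)
        + sl p.2.1 • φ0 := by
  obtain ⟨x, a, σ⟩ := p
  rw [Fintype.sum_sum_type]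
  congr 1
  · have h1 : ∀ q : Fin (L + 1) × I × Bool, (if adj T β sl L (.inl (x, a, σ)) (.inl q) then
        (Sum.elim (fun q : Fin (L + 1) × I × Bool => φ q.2.1 q.2.2) (fun _ => φ0)
          (Sum.inl q : W I L)) else 0)
        = (if q.2.2 = !σ then ((if x = q.1 then (if T a q.2.1 then φ q.2.1 q.2.2 else 0) else 0)
          + (if a = q.2.1 then (if (x + q.1).val < β a then φ q.2.1 q.2.2 else 0) else 0))
          else 0) := by
      rintro ⟨y, b, τ⟩
      simp only [adj, Sum.elim_inl]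
      by_cases h : τ = !σ
      · have h' : σ ≠ τ := by rw [h]; cases σ <;> simp
        by_cases hab : a = b
        · subst hab
          simp [h, hirr a]
        · by_cases hxy : x = y <;> simp [h, hab, hxy]
      · have h' : σ = τ := by cases σ <;> cases τ <;> simp_all
        simp [h']
    simp only [h1, Fintype.sum_prod_type, Finset.sum_ite_eq', Finset.mem_univ, if_true,
      Finset.sum_add_distrib, Finset.sum_ite_eq]
    congr 1
    · rw [Finset.sum_comm]
      simp only [Finset.sum_ite_eq, Finset.mem_univ, if_true]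
    · rw [← count_lt L _ (hβ a)]
      exact Fintype.sum_equiv (Equiv.addLeft x) _ _ fun y => rfl
  · simp only [adj, Sum.elim_inr]
    exact count_lt L _ (hsl a) _

lemma sum_inr {A : Type} [AddCommMonoid A] (φ : I → Bool → A) (φ0 : A) (j : Fin (L + 1)) :
    (∑ u : W I L, if adj T β sl L (.inr j) u then
        (Sum.elim (fun q : Fin (L + 1) × I × Bool => φ q.2.1 q.2.2) (fun _ => φ0) u) else 0)
      = (L + 1) • ∑ b, if j.val < sl b then φ b true + φ b false else 0 := by
  rw [Fintype.sum_sum_type]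
  simp only [adj, Sum.elim_inl, if_false, Finset.sum_const_zero, add_zero, Fintype.sum_prod_type,
    Fintype.sum_bool, Finset.sum_const, Finset.card_univ, Fintype.card_fin]
  congr 1
  refine Finset.sum_congr rfl fun b _ => ?_
  split_ifs <;> simp

theorem realize (hT : ∀ a b, T a b → T b a) (hirr : ∀ a, ¬ T a a) (hβ : ∀ a, β a ≤ L + 1)
    (hsl : ∀ a, sl a ≤ L + 1) (dg : I → ℕ)
    (hdg : ∀ a, dg a = (∑ b, if T a b then 1 else 0) + β a + sl a) (hdg1 : ∀ a, dg a ≠ 1)
    (m : ℕ) (l0 δ : ℂ) (hδ : δ ≠ 0) (hl : l0 ^ 2 ≠ 1) (ξ : I → ℂ⟦X⟧)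
    (hξ : ∀ a, X ^ (m + 1) ∣ ((C l0 + C δ * X) ^ 2 - 1 + (dg a : ℂ⟦X⟧)) * ξ a
      + (C l0 + C δ * X) * ((∑ b, if T a b then ξ b else 0) + β a • ξ a))
    (a0 b0 : I) (h0 : T a0 b0) (hx0 : constantCoeff (ξ a0) ≠ 0) :
    (∀ v, (gr T β sl L hT).degree v ≠ 1) ∧
    ∃ y : (gr T β sl L hT).Dart → ℂ,
      ((nb (gr T β sl L hT) - l0 • (1 : Matrix _ _ ℂ)) ^ (m + 1)) *ᵥ y = 0 ∧
      ((nb (gr T β sl L hT) - l0 • (1 : Matrix _ _ ℂ)) ^ m) *ᵥ y ≠ 0 := by
  have hdeg : ∀ v, (gr T β sl L hT).degree v = ∑ u : W I L, if adj T β sl L v u then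
      (Sum.elim (fun _ : Fin (L + 1) × I × Bool => 1) (fun _ => 1) u) else 0 := by
    intro v
    rw [← SimpleGraph.card_neighborFinset_eq_degree, SimpleGraph.neighborFinset_eq_filter,
      Finset.card_filter]
    refine Finset.sum_congr rfl fun u _ => ?_
    cases u <;> rfl
  have hd1 : ∀ p, (gr T β sl L hT).degree (.inl p) = dg p.2.1 := by
    intro p
    rw [hdeg, sum_inl T β sl L hirr hβ hsl (fun _ _ => 1) 1 p, hdg]
    simp
  have hd2 : ∀ j, (gr T β sl L hT).degree (.inr j) ≠ 1 := by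
    intro j
    rw [hdeg, sum_inr T β sl L (fun _ _ => 1) 1 j]
    have : 2 ∣ (∑ b, if j.val < sl b then 1 + 1 else 0 : ℕ) :=
      Finset.dvd_sum fun b _ => by split_ifs <;> simp
    have h2 : 2 ∣ (L + 1) • (∑ b, if j.val < sl b then 1 + 1 else 0 : ℕ) := this.mul_left _
    omega
  refine ⟨?_, ?_⟩
  · rintro (p | j)
    · rw [hd1]; exact hdg1 _
    · exact hd2 j
  · refine chain (gr T β sl L hT) m l0 δ hδ hl
      (Sum.elim (fun q : Fin (L + 1) × I × Bool => if q.2.2 then ξ q.2.1 else -ξ q.2.1) (fun _ => 0))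
      ?_ (.inl (0, a0, true)) (.inl (0, b0, false)) ⟨by simp, Or.inl ⟨rfl, h0⟩⟩ (by simpa using hx0)
    rintro (p | j)
    · have h1 := sum_inl T β sl L hirr hβ hsl (fun b τ => if τ then ξ b else -ξ b) 0 p
      rw [hd1]
      erw [h1]
      obtain ⟨x, a, σ⟩ := p
      cases σ
      · convert (hξ a).neg_right using 1
        simp
        ring
      · convert hξ a using 1
        have : (∑ b, if T a b then -ξ b else 0) = -∑ b, if T a b then ξ b else 0 := by
          rw [← Finset.sum_neg_distrib]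
          refine Finset.sum_congr rfl fun b _ => ?_
          split_ifs <;> simp
        simp [this]
        ring
    · have h1 := sum_inr T β sl L (fun b τ => if τ then ξ b else -ξ b) 0 j
      erw [h1]
      simp

end realize

end Pool.Agent.H17.NB
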