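import Pool.Agent.H17.NB2

set_option autoImplicit false

namespace Pool.Agent.H17.NB

open Matrix PowerSeries

def star {J : Type} : Option J → Option J → Prop
  | none, some _ => True
  | some _, none => True
  | _, _ => False

instance {J : Type} : DecidableRel (star (J := J)) := fun u v => by
  cases u <;> cases v <;> unfold star <;> infer_instance

lemma piece (a D g b s ε : ℂ) (hε : ε * ε = 1) (h1 : b = 2 * a - ε * g * D)
    (h2 : s + b + a ^ 2 = b * a + ε * D ^ 2) :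
    ((C (-a) + C (-D) * X) ^ 2 - 1 + C (1 + b + s)) * (C ε * (C a + C D * X) * mk (U g ε))
      + (C (-a) + C (-D) * X) * (C (D ^ 2) + C b * (C ε * (C a + C D * X) * mk (U g ε)))
      = (0 : ℂ⟦X⟧) := by
  have h3 := U_ps g ε
  have e1 : (C ε : ℂ⟦X⟧) * C ε = 1 := by rw [← map_mul, hε, map_one]
  have e2 : (C b : ℂ⟦X⟧) = 2 * C a - C ε * C g * C D := by
    rw [h1]; simp only [map_sub, map_mul, map_ofNat]
  have e3 : (C s : ℂ⟦X⟧) + C b + C a ^ 2 = C b * C a + C ε * C D ^ 2 := by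
    have := congrArg (C : ℂ → ℂ⟦X⟧) h2
    simpa using this
  have e4 : ((C (-a) + C (-D) * X) ^ 2 - 1 + C (1 + b + s) + (C (-a) + C (-D) * X) * C b : ℂ⟦X⟧)
      = C ε * C D ^ 2 * (1 + C g * X + C ε * X ^ 2) := by
    simp only [map_neg, map_add, map_one]
    linear_combination e3 - C D * X * e2 - C D ^ 2 * X ^ 2 * e1
  simp only [map_pow]
  have e5 : (C (-a) + C (-D) * X : ℂ⟦X⟧) = -(C a + C D * X) := by simp only [map_neg]; ring
  linear_combination (C ε * (C a + C D * X) * mk (U g ε)) * e4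
    + C D ^ 2 * e5 + C ε * C ε * C D ^ 2 * (C a + C D * X) * h3
    + C D ^ 2 * (C a + C D * X) * e1

abbrev JJ (m : ℕ) (c : Fin (m + 1) → ℕ) (Cn : ℕ) : Type :=
  (Σ i : Fin (m + 1), Fin (c i)) ⊕ (Fin (m + 1) × Fin Cn)

theorem starG {J : Type} [Fintype J] [DecidableEq J] (j0 : J) (bJ sJ : J → ℕ) (s0 e0 : ℕ)
    (he : Fintype.card J + s0 = e0 + 1) (he0 : 0 < e0) (hb : ∀ j, 0 < bJ j)
    (m : ℕ) (l0 δ : ℂ) (hδ : δ ≠ 0) (hl : l0 ^ 2 ≠ 1) (ξ0 : ℂ⟦X⟧) (ξJ : J → ℂ⟦X⟧)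
    (h0 : constantCoeff ξ0 ≠ 0)
    (h1 : X ^ (m + 1) ∣ ((C l0 + C δ * X) ^ 2 + (e0 : ℂ⟦X⟧)) * ξ0 + (C l0 + C δ * X) * ∑ j, ξJ j)
    (h2 : ∀ j, ((C l0 + C δ * X) ^ 2 - 1 + C (1 + (bJ j : ℂ) + (sJ j : ℂ))) * ξJ j
      + (C l0 + C δ * X) * (ξ0 + C (bJ j : ℂ) * ξJ j) = 0) :
    ∃ (V : Type) (_ : Fintype V) (_ : DecidableEq V) (G : SimpleGraph V)
    (_ : DecidableRel G.Adj), (∀ v, G.degree v ≠ 1) ∧ ∃ (l : ℂ) (y : G.Dart → ℂ),
      ((nb G - l • (1 : Matrix G.Dart G.Dart ℂ)) ^ (m + 1)) *ᵥ y = 0 ∧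
      ((nb G - l • (1 : Matrix G.Dart G.Dart ℂ)) ^ m) *ᵥ y ≠ 0 := by
  let β : Option J → ℕ := fun o => o.elim 0 bJ
  let sl : Option J → ℕ := fun o => o.elim s0 sJ
  let dg : Option J → ℕ := fun o => o.elim (e0 + 1) (fun j => 1 + bJ j + sJ j)
  let ξ : Option J → ℂ⟦X⟧ := fun o => o.elim ξ0 ξJ
  obtain ⟨L, hL1, hL2⟩ : ∃ L, (∀ o, β o ≤ L + 1) ∧ (∀ o, sl o ≤ L + 1) :=
    ⟨Finset.univ.sup β + Finset.univ.sup sl,
      fun o => by have := Finset.le_sup (f := β) (Finset.mem_univ o); omega,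
      fun o => by have := Finset.le_sup (f := sl) (Finset.mem_univ o); omega⟩
  have hT : ∀ u v : Option J, star u v → star v u := by
    rintro (_ | u) (_ | v) h <;> simp_all [star]
  have key := realize star β sl L hT (by rintro (_ | u) <;> simp [star]) hL1 hL2 dg ?_ ?_ m
    l0 δ hδ hl ξ ?_ none (some j0) trivial h0
  · exact ⟨W (Option J) L, inferInstance, inferInstance, gr star β sl L hT, inferInstance,
      key.1, _, key.2⟩
  · rintro (_ | j)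
    · rw [Fintype.sum_option]
      simp [dg, β, sl, star, he]
    · rw [Fintype.sum_option]
      simp [dg, β, sl, star]
  · rintro (_ | j)
    · simp only [dg, Option.elim]
      omega
    · have := hb j
      simp only [dg, Option.elim]
      omega
  · rintro (_ | j)
    · have h6 : (∑ b, if star none b then ξ b else 0) = ∑ j, ξJ j := by
        simp [Fintype.sum_option, star, ξ]
      rw [h6]
      convert h1 using 1
      simp only [dg, β, ξ, Option.elim, zero_smul, add_zero]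
      push_cast
      ring
    · have h6 : (∑ b, if star (some j) b then ξ b else 0) = ξ0 := by
        simp [Fintype.sum_option, star, ξ]
      rw [h6]
      refine Dvd.intro 0 ?_
      rw [mul_zero, ← h2 j]
      simp [dg, β, ξ]

theorem main (m : ℕ) : ∃ (V : Type) (_ : Fintype V) (_ : DecidableEq V) (G : SimpleGraph V)
    (_ : DecidableRel G.Adj), (∀ v, G.degree v ≠ 1) ∧ ∃ (l : ℂ) (y : G.Dart → ℂ),
      ((nb G - l • (1 : Matrix G.Dart G.Dart ℂ)) ^ (m + 1)) *ᵥ y = 0 ∧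
      ((nb G - l • (1 : Matrix G.Dart G.Dart ℂ)) ^ m) *ᵥ y ≠ 0 := by
  obtain ⟨R, D, a, c, hD, ha, hc, heq⟩ := stepB m
  set Cn : ℕ := D * a ^ (m + 2) with hCn
  have ha3 : 3 ≤ a := by omega
  have hCpos : 0 < Cn := by rw [hCn]; positivity
  have hg : ∀ i : Fin (m + 1), R * i * D ≤ R * m * D := fun i =>
    Nat.mul_le_mul_right _ (Nat.mul_le_mul_left _ (Nat.lt_succ_iff.1 i.2))
  have hP : ∀ i : Fin (m + 1), ∃ b s : ℕ, 0 < b ∧ b + R * i * D = 2 * a ∧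
      s + b + a ^ 2 = b * a + D ^ 2 := by
    intro i
    have h1 := hg i
    obtain ⟨b, hb⟩ : ∃ b, b + R * i * D = 2 * a := ⟨2 * a - R * i * D, by omega⟩
    have h2 : a + 3 ≤ b := by omega
    have h3 : b + a ^ 2 ≤ b * a + D ^ 2 := by
      obtain ⟨a', rfl⟩ : ∃ a', a = a' + 3 := ⟨a - 3, by omega⟩
      nlinarith [Nat.zero_le (D ^ 2)]
    exact ⟨b, b * a + D ^ 2 - (b + a ^ 2), by omega, hb, by omega⟩
  have hN : ∀ i : Fin (m + 1), ∃ b s : ℕ, 0 < b ∧ b = 2 * a + R * i * D ∧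
      s + b + a ^ 2 + D ^ 2 = b * a := by
    intro i
    obtain ⟨b, hb⟩ : ∃ b, b = 2 * a + R * i * D := ⟨_, rfl⟩
    have h2 : 2 * a ≤ b := by omega
    have h3 : b + a ^ 2 + D ^ 2 ≤ b * a := by
      obtain ⟨a', rfl⟩ : ∃ a', a = a' + D + 3 := ⟨a - D - 3, by omega⟩
      nlinarith [Nat.zero_le (D * a'), Nat.zero_le (a' * a')]
    exact ⟨b, b * a - (b + a ^ 2 + D ^ 2), by omega, hb, by omega⟩
  choose b1 s1 hb1 hb1' hs1 using hP
  choose b2 s2 hb2 hb2' hs2 using hN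
  have hJ : Fintype.card (JJ m c Cn) ≤ 3 * (m + 1) * Cn := by
    have h1 : ∑ i, c i ≤ (m + 1) * (2 * Cn) := by
      have := Finset.sum_le_card_nsmul Finset.univ c (2 * Cn) fun i _ => hc i
      simpa using this
    simp only [Fintype.card_sum, Fintype.card_sigma, Fintype.card_fin, Fintype.card_prod]
    nlinarith
  obtain ⟨s0, hs0⟩ : ∃ s0, Fintype.card (JJ m c Cn) + s0 = 3 * (m + 1) * Cn + 1 :=
    ⟨3 * (m + 1) * Cn + 1 - Fintype.card (JJ m c Cn), by omega⟩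
  obtain ⟨μ, hμ⟩ : ∃ μ : ℂ⟦X⟧, μ = C (a : ℂ) + C (D : ℂ) * X := ⟨_, rfl⟩
  have hD' : (D : ℂ) ≠ 0 := by exact_mod_cast hD.ne'
  have ha' : (a : ℂ) ≠ 0 := by
    have : a ≠ 0 := by omega
    exact_mod_cast this
  refine starG (J := JJ m c Cn) (Sum.inr (0, ⟨0, hCpos⟩))
    (Sum.elim (fun p => b1 p.1) (fun p => b2 p.1)) (Sum.elim (fun p => s1 p.1) (fun p => s2 p.1))
    s0 (3 * (m + 1) * Cn) hs0 (by positivity) ?_ m (-(a : ℂ)) (-(D : ℂ)) (neg_ne_zero.2 hD') ?_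
    (C ((D : ℂ) ^ 2)) (Sum.elim (fun p => C 1 * μ * mk (U ((R : ℂ) * (p.1 : ℕ)) 1))
      (fun p => C (-1) * μ * mk (U ((R : ℂ) * (p.1 : ℕ)) (-1)))) (by simpa using hD.ne') ?_ ?_
  · rintro (p | p)
    · exact hb1 _
    · exact hb2 _
  · intro h
    have h1 : ((a ^ 2 : ℕ) : ℂ) = ((1 : ℕ) : ℂ) := by push_cast; linear_combination h
    have h2 : a ^ 2 = 1 := by exact_mod_cast h1
    nlinarith
  · obtain ⟨Z, hZd⟩ : ∃ Z : ℂ⟦X⟧,
        Z = C ((a : ℂ)⁻¹ ^ 2) * mk (U ((a : ℂ)⁻¹ * (2 * D)) ((a : ℂ)⁻¹ ^ 2 * D ^ 2)) := ⟨_, rfl⟩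
    have hZ : μ ^ 2 * Z = 1 := by
      have h3 := U_ps ((a : ℂ)⁻¹ * (2 * D)) ((a : ℂ)⁻¹ ^ 2 * D ^ 2)
      have e1 : (C (a : ℂ) : ℂ⟦X⟧) * C (a : ℂ)⁻¹ = 1 := by
        rw [← map_mul, mul_inv_cancel₀ ha', map_one]
      simp only [map_mul, map_pow, map_ofNat] at h3
      rw [hμ, hZd, map_pow]
      linear_combination h3 + mk (U ((a : ℂ)⁻¹ * (2 * D)) ((a : ℂ)⁻¹ ^ 2 * D ^ 2))
        * (C (a : ℂ) * C (a : ℂ)⁻¹ + 1 + 2 * C (D : ℂ) * C (a : ℂ)⁻¹ * X) * e1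
    obtain ⟨S, hSd⟩ : ∃ S : ℂ⟦X⟧, S = ∑ i, C (c i : ℂ) * mk (U ((R : ℂ) * (i : ℕ)) 1)
      - C (Cn : ℂ) * ∑ i : Fin (m + 1), mk (U ((R : ℂ) * (i : ℕ)) (-1)) := ⟨_, rfl⟩
    have hS : ∑ j : JJ m c Cn, (Sum.elim (fun p => C 1 * μ * mk (U ((R : ℂ) * (p.1 : ℕ)) 1))
        (fun p => C (-1) * μ * mk (U ((R : ℂ) * (p.1 : ℕ)) (-1))) j : ℂ⟦X⟧) = μ * S := by
      rw [hSd, Fintype.sum_sum_type, mul_sub, Finset.mul_sum, Finset.mul_sum, Finset.mul_sum,
        Fintype.sum_sigma, Fintype.sum_prod_type, sub_eq_add_neg, ← Finset.sum_neg_distrib]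
      congr 1 <;> refine Finset.sum_congr rfl fun i _ => ?_
      · simp only [Sum.elim_inl, Finset.sum_const, Finset.card_univ, Fintype.card_fin,
          nsmul_eq_mul, map_one, map_natCast]
        ring
      · simp only [Sum.elim_inr, Finset.sum_const, Finset.card_univ, Fintype.card_fin,
          nsmul_eq_mul, map_one, map_neg, map_natCast]
        ring
    have hdiv : X ^ (m + 1) ∣ C ((D : ℂ) ^ 2) * (1 + C ((3 * (m + 1) * Cn : ℕ) : ℂ) * Z) - S := by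
      rw [X_pow_dvd_iff]
      intro k hk
      have h1 := congrArg (Int.cast : ℤ → ℂ) (heq ⟨k, hk⟩)
      have hcast : ∀ (g e : ℤ) (k : ℕ), ((U g e k : ℤ) : ℂ) = U (g : ℂ) (e : ℂ) k :=
        fun g e k => U_map (Int.castRingHom ℂ) g e k
      push_cast [hcast] at h1
      simp only [hSd, hZd, map_sub, map_add, map_sum, coeff_C_mul, coeff_mk, U_scale, coeff_one]
      have hpow : (a : ℂ) ^ (m + 2) = a ^ (m - k) * a ^ (k + 2) := by
        rw [← pow_add]; congr 1; omega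
      have e4 : (a : ℂ) ^ (m + 2) * ((a : ℂ)⁻¹) ^ (k + 2) = a ^ (m - k) := by
        rw [hpow, mul_assoc, ← mul_pow, mul_inv_cancel₀ ha', one_pow, mul_one]
      rw [hCn]
      push_cast
      linear_combination -h1 + (3 * (m + 1) * (D : ℂ) ^ 3 * U (2 * D : ℂ) (D ^ 2) k) * e4
    have e5 : (C (-(a : ℂ)) + C (-(D : ℂ)) * X : ℂ⟦X⟧) = -μ := by simp only [map_neg, hμ]; ring
    rw [hS, e5]
    rw [map_natCast] at hdiv
    have e6 : ((-μ) ^ 2 + ((3 * (m + 1) * Cn : ℕ) : ℂ⟦X⟧)) * C ((D : ℂ) ^ 2) + -μ * (μ * S)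
        = μ ^ 2 * (C ((D : ℂ) ^ 2) * (1 + ((3 * (m + 1) * Cn : ℕ) : ℂ⟦X⟧) * Z) - S) := by
      linear_combination (-(C ((D : ℂ) ^ 2) * ((3 * (m + 1) * Cn : ℕ) : ℂ⟦X⟧))) * hZ
    rw [e6]
    exact hdiv.mul_left _
  · rintro (p | p)
    · rw [hμ]
      exact piece a D ((R : ℂ) * (p.1 : ℕ)) (b1 p.1) (s1 p.1) 1 (by simp)
        (by have := congrArg (Nat.cast : ℕ → ℂ) (hb1' p.1); push_cast at this
            linear_combination this)
        (by have := congrArg (Nat.cast : ℕ → ℂ) (hs1 p.1); push_cast at this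
            linear_combination this)
    · rw [hμ]
      exact piece a D ((R : ℂ) * (p.1 : ℕ)) (b2 p.1) (s2 p.1) (-1) (by simp)
        (by have := congrArg (Nat.cast : ℕ → ℂ) (hb2' p.1); push_cast at this
            linear_combination this)
        (by have := congrArg (Nat.cast : ℕ → ℂ) (hs2 p.1); push_cast at this
            linear_combination this)

end Pool.Agent.H17.NB
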