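import Mathlib

set_option autoImplicit false

namespace Pool.Agent.H17.PAry
open PowerSeries

noncomputable def g (p i : ℕ) : ℤ⟦X⟧ := mk (fun j : ℕ => if p ^ i ∣ j then (1 : ℤ) else 0)

theorem g0 (p : ℕ) : g p 0 = mk 1 := by
  ext n; simp [g]

theorem g_succ (p : ℕ) (hp : p ≠ 0) (i : ℕ) : g p (i + 1) = expand p hp (g p i) := by
  ext n
  rw [coeff_expand]
  simp only [g, coeff_mk]
  by_cases h : p ∣ n
  · obtain ⟨m, rfl⟩ := h
    simp only [dvd_mul_right, if_true, Nat.mul_div_cancel_left m (Nat.pos_of_ne_zero hp)]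
    have : p ^ (i + 1) ∣ p * m ↔ p ^ i ∣ m := by
      rw [pow_succ']; exact Nat.mul_dvd_mul_iff_left (Nat.pos_of_ne_zero hp)
    simp [this]
  · have : ¬ p ^ (i + 1) ∣ n := fun h' => h (dvd_trans (dvd_pow_self p (by omega)) h')
    simp [h, this]

/-- fast binomial coefficient `choose (d + n) d` -/
def ch (d n : ℕ) : ℕ := (d + n).descFactorial n / n.factorial

theorem ch_eq (d n : ℕ) : ch d n = (d + n).choose d := by
  rw [ch, ← Nat.choose_eq_descFactorial_div_factorial, Nat.choose_symm_add]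

theorem coeff_w (d n : ℕ) : coeff n ((mk 1 : ℤ⟦X⟧) ^ (d + 1)) = (ch d n : ℤ) := by
  rw [mk_one_pow_eq_mk_choose_add, coeff_mk, ch_eq]

def a (p d : ℕ) : ℕ → ℕ → ℕ
  | 0, n => if n = 0 then 1 else 0
  | t + 1, n => ∑ i ∈ Finset.range (n + 1), if p ∣ i then ch d (n - i) * a p d t (i / p) else 0

theorem coeff_eq (p : ℕ) (hp : p ≠ 0) (d : ℕ) : ∀ t n : ℕ,
    coeff n ((∏ i ∈ Finset.range t, g p i) ^ (d + 1)) = (a p d t n : ℤ)
  | 0, n => by simp [a, coeff_one]
  | t + 1, n => by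
      have e : (∏ i ∈ Finset.range (t + 1), g p i) ^ (d + 1) =
          expand p hp ((∏ i ∈ Finset.range t, g p i) ^ (d + 1)) * (mk 1 : ℤ⟦X⟧) ^ (d + 1) := by
        rw [Finset.prod_range_succ', mul_pow, map_pow, map_prod, g0]
        simp only [g_succ p hp]
      rw [e, coeff_mul, Finset.Nat.sum_antidiagonal_eq_sum_range_succ
        (fun i j => coeff i (expand p hp ((∏ i ∈ Finset.range t, g p i) ^ (d + 1))) *
          coeff j ((mk 1 : ℤ⟦X⟧) ^ (d + 1))), a]
      push_cast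
      refine Finset.sum_congr rfl fun i _ => ?_
      rw [coeff_expand, coeff_w, coeff_eq p hp d t]
      split_ifs <;> simp [mul_comm]

theorem a_zero (p d : ℕ) : ∀ t, a p d t 0 = 1
  | 0 => by simp [a]
  | t + 1 => by simp [a, ch, a_zero p d t]

theorem c1 : 11 ^ 3 ∣ a 11 979 133 132 := by decide +kernel
theorem c2 : ¬ 11 ^ 4 ∣ a 11 979 133 132 := by decide +kernel

end Pool.Agent.H17.PAry
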