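import Mathlib

set_option autoImplicit false

namespace Pool.Agent.H17.PF

theorem indep {l : ℝ} (hl : l ^ 3 + 3 * l ^ 2 - 15 * l - 46 = 0) (x y w : ℤ)
    (h : x * l ^ 2 + y * l + w = 0) : x = 0 ∧ y = 0 ∧ w = 0 := by
  induction hn : x.natAbs + y.natAbs + w.natAbs using Nat.strong_induction_on generalizing x y w with
  | _ n ih =>
  have h1 : ((y - 3 * x) * l ^ 2 + (w + 15 * x) * l + 46 * x : ℝ) = 0 := by
    linear_combination l * h - x * hl
  have h2 : ((w + 24 * x - 3 * y) * l ^ 2 + (x + 15 * y) * l + 46 * (y - 3 * x) : ℝ) = 0 := by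
    linear_combination l * h1 - (y - 3 * x) * hl
  have N : (w * ((w + 15 * x) * (w + 24 * x - 3 * y) - (y - 3 * x) * (x + 15 * y)) -
      46 * x * (y * (w + 24 * x - 3 * y) - x * (x + 15 * y)) +
      46 * (y - 3 * x) * (y * (y - 3 * x) - x * (w + 15 * x)) : ℤ) = 0 := by
    apply Int.cast_injective (α := ℝ)
    push_cast
    linear_combination ((w + 15 * x) * (w + 24 * x - 3 * y) - (y - 3 * x) * (x + 15 * y)) * h -
      (y * (w + 24 * x - 3 * y) - x * (x + 15 * y)) * h1 +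
      (y * (y - 3 * x) - x * (w + 15 * x)) * h2
  have key : ∀ x y w : ZMod 5,
      w * ((w + 15 * x) * (w + 24 * x - 3 * y) - (y - 3 * x) * (x + 15 * y)) -
      46 * x * (y * (w + 24 * x - 3 * y) - x * (x + 15 * y)) +
      46 * (y - 3 * x) * (y * (y - 3 * x) - x * (w + 15 * x)) = 0 → x = 0 ∧ y = 0 ∧ w = 0 := by
    decide +kernel
  obtain ⟨a, b, c⟩ := key x y w (by exact_mod_cast congrArg (Int.cast : ℤ → ZMod 5) N)
  obtain ⟨x, rfl⟩ := (ZMod.intCast_zmod_eq_zero_iff_dvd x 5).1 a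
  obtain ⟨y, rfl⟩ := (ZMod.intCast_zmod_eq_zero_iff_dvd y 5).1 b
  obtain ⟨w, rfl⟩ := (ZMod.intCast_zmod_eq_zero_iff_dvd w 5).1 c
  by_cases h0 : n = 0
  · omega
  have := ih _ (by omega) x y w (by push_cast at h; linarith) rfl
  omega

theorem cubic {l : ℝ} (hl : l ^ 3 + 3 * l ^ 2 - 15 * l - 46 = 0) (T B D : ℤ) (z : ℂ)
    (hz : z ^ 3 - T * z ^ 2 + B * z - D = 0) (hn : ‖z‖ = l) :
    T = -3 ∨ (T = 3 ∧ B = -15 ∧ D = -46) := by
  have re := congrArg Complex.re hz
  have im := congrArg Complex.im hz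
  simp [pow_succ] at re im
  have hL : z.re ^ 2 + z.im ^ 2 = l ^ 2 := by
    rw [← hn, Complex.sq_norm, Complex.normSq_apply]; ring
  by_cases hv : z.im = 0
  · rw [hv] at re hL
    rcases sq_eq_sq_iff_eq_or_eq_neg.1 (show z.re ^ 2 = l ^ 2 by linarith) with e | e
    · rw [e] at re
      have := indep hl (-3 - T) (B + 15) (46 - D) (by push_cast; linear_combination re - hl)
      omega
    · rw [e] at re
      have := indep hl (3 - T) (-B - 15) (-46 - D) (by push_cast; linear_combination re + hl)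
      omega
  · exfalso
    have hB : (B : ℝ) = l ^ 2 + 2 * z.re * (T - 2 * z.re) := by
      apply mul_left_cancel₀ hv
      linear_combination im + z.im * hL
    have hD : (D : ℝ) = (T - 2 * z.re) * l ^ 2 := by
      linear_combination z.re * hB - re + (T - 3 * z.re) * hL
    have e : l ^ 6 - B * l ^ 4 + T * D * l ^ 2 - D ^ 2 = 0 := by
      rw [hB, hD]; ring
    obtain ⟨a, b, c⟩ := indep hl (24 * (39 - B) + T * D - 501) (39 - B)
      (2116 - D ^ 2 - 138 * (39 - B)) (by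
        push_cast
        linear_combination e - (l ^ 3 - 3 * l ^ 2 - 15 * l + 46 + (39 - B) * (l - 3)) * hl)
    rw [b] at a c
    rcases sq_eq_sq_iff_eq_or_eq_neg.1 (show D ^ 2 = 46 ^ 2 by linarith) with e | e <;>
      rw [e] at a <;> omega

theorem mem_spec {n : ℕ} (A : Matrix (Fin n) (Fin n) ℂ) (z : ℂ) :
    z ∈ spectrum ℂ A ↔ (Matrix.scalar _ z - A).det = 0 := by
  rw [spectrum.mem_iff, Matrix.isUnit_iff_isUnit_det, isUnit_iff_ne_zero, not_not]
  rfl

end Pool.Agent.H17.PF
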