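import Mathlib

set_option autoImplicit false

namespace Pool.Agent.H17.PPL

def Λ (t : ℕ) : ℕ := Nat.size (2 * t - 1)

theorem Λle (t n : ℕ) : Λ t ≤ n + 1 ↔ t ≤ 2 ^ n := by
  rw [Λ, Nat.size_le, pow_succ]
  have : 0 < 2 ^ n := by positivity
  omega

theorem Λ0 (t : ℕ) : Λ t = 0 ↔ t = 0 := by rw [Λ, Nat.size_eq_zero]; omega

theorem Λmono {s t : ℕ} (h : s ≤ t) : Λ s ≤ Λ t := Nat.size_le_size (by omega)

theorem Λlip (t : ℕ) : Λ (t + 1) ≤ Λ t + 1 := by
  rw [Λle]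
  have := Nat.lt_size_self (2 * t - 1)
  have : 0 < 2 ^ Λ t := by positivity
  unfold Λ at *; omega

theorem Λz : Λ 0 = 0 := rfl
theorem Λ1 : Λ 1 = 1 := rfl
theorem Λ2 : Λ 2 = 2 := rfl

def H (i : ℕ) : ℕ := Λ (min (i + 1 - (2 ^ Nat.log 2 i + Nat.log 2 i % 2))
  (2 ^ (Nat.log 2 i + 1) - (Nat.log 2 i + 1) % 2 - i))

def Φ (c : ℕ) : ℕ :=
  if c + 1 < 2 ^ Nat.log 2 c + Nat.log 2 c % 2 + 2 ^ (Nat.log 2 c - 1) then
    min (3 * Nat.log 2 c + Nat.log 2 c % 2 + 2 * Λ (c - (2 ^ Nat.log 2 c + Nat.log 2 c % 2)))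
      (4 * Nat.log 2 c)
  else min (3 * (Nat.log 2 c + 1) - (Nat.log 2 c + 1) % 2 +
      2 * Λ (2 ^ (Nat.log 2 c + 1) - (Nat.log 2 c + 1) % 2 - c)) (4 * Nat.log 2 c + 2)

theorem lg {n i : ℕ} (h1 : 4 * 2 ^ n ≤ i) (h2 : i < 8 * 2 ^ n) : Nat.log 2 i = n + 2 :=
  Nat.log_eq_of_pow_le_of_lt_pow (by rw [pow_add]; omega) (by rw [pow_add, pow_add]; omega)

theorem blk (i : ℕ) (h : 8 ≤ i) : ∃ n, 1 ≤ n ∧ 4 * 2 ^ n ≤ i ∧ i < 8 * 2 ^ n := by
  have a : 3 ≤ Nat.log 2 i := Nat.le_log_of_pow_le (by norm_num) h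
  obtain ⟨n, hn⟩ : ∃ n, Nat.log 2 i = n + 2 := ⟨Nat.log 2 i - 2, by omega⟩
  have l1 := Nat.pow_log_le_self 2 (show i ≠ 0 by omega)
  have l2 := Nat.lt_pow_succ_log_self (show 1 < 2 by norm_num) i
  rw [hn] at l1 l2
  simp only [Nat.succ_eq_add_one, pow_succ] at l1 l2
  exact ⟨n, by omega, by omega, by omega⟩

theorem HL {n i : ℕ} (h1 : 4 * 2 ^ n ≤ i) (h2 : i < 6 * 2 ^ n + n % 2) :
    H i = Λ (i + 1 - (4 * 2 ^ n + n % 2)) := by
  have : 0 < 2 ^ n := by positivity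
  rw [H, lg h1 (by omega)]; simp only [pow_succ]; congr 1; omega

theorem HR {n i : ℕ} (h1 : 6 * 2 ^ n + n % 2 ≤ i + 1) (h2 : i < 8 * 2 ^ n) :
    H i = Λ (8 * 2 ^ n - (n + 1) % 2 - i) := by
  have : 0 < 2 ^ n := by positivity
  rw [H, lg (by omega) h2]; simp only [pow_succ]; congr 1; omega

theorem HN {n i : ℕ} (h1 : 8 * 2 ^ n ≤ i) (h2 : i < 12 * 2 ^ n) :
    H i = Λ (i + 1 - (8 * 2 ^ n + (n + 1) % 2)) := by
  rw [HL (n := n + 1) (by rw [pow_succ]; omega) (by rw [pow_succ]; omega), pow_succ]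
  congr 1; omega

theorem ΦL {n c : ℕ} (h1 : 4 * 2 ^ n ≤ c) (h2 : c + 1 < 6 * 2 ^ n + n % 2) :
    Φ c = min (3 * (n + 2) + n % 2 + 2 * Λ (c - (4 * 2 ^ n + n % 2))) (4 * (n + 2)) := by
  have : 0 < 2 ^ n := by positivity
  rw [Φ, lg h1 (by omega), show n + 2 - 1 = n + 1 from rfl]
  simp only [pow_succ]
  rw [if_pos (by omega), show c - (2 ^ n * 2 * 2 + (n + 2) % 2) = c - (4 * 2 ^ n + n % 2) by omega]
  omega

theorem ΦR {n c : ℕ} (h1 : 6 * 2 ^ n + n % 2 ≤ c + 1) (h2 : c < 8 * 2 ^ n) :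
    Φ c = min (3 * (n + 3) - (n + 1) % 2 + 2 * Λ (8 * 2 ^ n - (n + 1) % 2 - c))
      (4 * (n + 2) + 2) := by
  have : 0 < 2 ^ n := by positivity
  rw [Φ, lg (by omega) h2, show n + 2 - 1 = n + 1 from rfl]
  simp only [pow_succ]
  rw [if_neg (by omega), show 2 ^ n * 2 * 2 * 2 - (n + 2 + 1) % 2 - c =
    8 * 2 ^ n - (n + 1) % 2 - c by omega]
  omega

theorem ΦN {n c : ℕ} (h1 : 8 * 2 ^ n ≤ c) (h2 : c + 1 < 12 * 2 ^ n) :
    Φ c = min (3 * (n + 3) + (n + 1) % 2 + 2 * Λ (c - (8 * 2 ^ n + (n + 1) % 2))) (4 * (n + 3)) := by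
  rw [ΦL (n := n + 1) (by rw [pow_succ]; omega) (by rw [pow_succ]; omega), pow_succ,
    show 4 * (2 ^ n * 2) = 8 * 2 ^ n by ring]

theorem two_le {n : ℕ} (h : 1 ≤ n) : 2 ≤ 2 ^ n := by
  calc 2 = 2 ^ 1 := rfl
    _ ≤ 2 ^ n := Nat.pow_le_pow_right (by norm_num) h

theorem Λtop {n t : ℕ} (h1 : 2 ^ n < t) (h2 : t ≤ 2 * 2 ^ n) : Λ t = n + 2 := by
  have a := Λle t n
  have b := Λle t (n + 1)
  rw [pow_succ] at b
  omega

theorem Hlip (i : ℕ) (h : 8 ≤ i) : H (i + 1) ≤ H i + 1 ∧ H i ≤ H (i + 1) + 1 := by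
  obtain ⟨n, hn, h1, h2⟩ := blk i h
  have q := two_le hn
  by_cases a : i + 1 < 6 * 2 ^ n + n % 2
  · rw [HL h1 (by omega), HL (by omega) a]
    have := Λlip (i + 1 - (4 * 2 ^ n + n % 2))
    have := Λmono (show i + 1 + 1 - (4 * 2 ^ n + n % 2) ≤ i + 1 - (4 * 2 ^ n + n % 2) + 1 by omega)
    have := Λmono (show i + 1 - (4 * 2 ^ n + n % 2) ≤ i + 1 + 1 - (4 * 2 ^ n + n % 2) by omega)
    omega
  · by_cases b : i + 1 < 8 * 2 ^ n
    · rw [HR (by omega) h2, HR (by omega) b]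
      have := Λlip (8 * 2 ^ n - (n + 1) % 2 - (i + 1))
      have := Λmono (show 8 * 2 ^ n - (n + 1) % 2 - i ≤ 8 * 2 ^ n - (n + 1) % 2 - (i + 1) + 1 by
        omega)
      have := Λmono (show 8 * 2 ^ n - (n + 1) % 2 - (i + 1) ≤ 8 * 2 ^ n - (n + 1) % 2 - i by omega)
      omega
    · rw [HR (by omega) h2, HN (n := n) (by omega) (by omega),
        show i + 1 + 1 - (8 * 2 ^ n + (n + 1) % 2) = 8 * 2 ^ n - (n + 1) % 2 - i by omega]
      omega

theorem extr (a b η : ℕ) (ha : 8 ≤ a) (hab : a + 1 < b) (h : ∀ i, a < i → i < b → H i = η)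
    (e : H a = H b) (ne : H a ≠ η) : ∃ n, 1 ≤ n ∧
      ((a + 1 = 5 * 2 ^ n + n % 2 ∧ b + (n + 1) % 2 = 7 * 2 ^ n) ∨
        (a + 2 = 8 * 2 ^ n ∧ b = 8 * 2 ^ n + 1)) := by
  obtain ⟨n, hn, h1, h2⟩ := blk a ha
  have q := two_le hn
  have s0 := Λz
  have s1 := Λ1
  have s2 := Λ2
  have v1 : H (8 * 2 ^ n - 1) = Λ (1 - (n + 1) % 2) := by
    rw [HR (n := n) (by omega) (by omega)]; congr 1; omega
  have v2 : H (8 * 2 ^ n) = Λ (1 - (n + 1) % 2) := by
    rw [HN (n := n) (by omega) (by omega)]; congr 1; omega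
  have v3 : H (8 * 2 ^ n + 1) = Λ (2 - (n + 1) % 2) := by
    rw [HN (n := n) (by omega) (by omega)]; congr 1; omega
  have v4 : Λ (1 - (n + 1) % 2) = 1 - (n + 1) % 2 ∧ Λ (2 - (n + 1) % 2) = 2 - (n + 1) % 2 := by
    rcases Nat.mod_two_eq_zero_or_one (n + 1) with e | e <;> rw [e] <;> exact ⟨rfl, rfl⟩
  have a1 := h (a + 1) (by omega) hab
  refine ⟨n, hn, ?_⟩
  by_cases c : a + 1 < 6 * 2 ^ n + n % 2
  · left
    rw [HL (by omega) c] at a1
    rw [HL h1 (by omega)] at e ne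
    have m1 := Λmono (show a + 1 - (4 * 2 ^ n + n % 2) ≤ a + 1 + 1 - (4 * 2 ^ n + n % 2) by omega)
    by_cases d : b < 6 * 2 ^ n + n % 2
    · rw [HL (by omega) d] at e
      have := Λmono (show a + 1 + 1 - (4 * 2 ^ n + n % 2) ≤ b + 1 - (4 * 2 ^ n + n % 2) by omega)
      omega
    · have k := h (6 * 2 ^ n + n % 2 - 1) (by omega) (by omega)
      rw [HL (n := n) (by omega) (by omega), Λtop (n := n) (by omega) (by omega)] at k
      have b1 : b < 8 * 2 ^ n := by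
        by_contra hb
        have := h (8 * 2 ^ n - 1) (by omega) (by omega)
        omega
      have b2 := h (b - 1) (by omega) (by omega)
      rw [HR (n := n) (by omega) (by omega)] at b2
      rw [HR (n := n) (by omega) b1] at e
      have := Λle (a + 1 - (4 * 2 ^ n + n % 2)) n
      have := Λle (a + 1 + 1 - (4 * 2 ^ n + n % 2)) n
      have := Λle (8 * 2 ^ n - (n + 1) % 2 - b) n
      have := Λle (8 * 2 ^ n - (n + 1) % 2 - (b - 1)) n
      omega
  · right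
    by_cases d : b < 8 * 2 ^ n
    · rw [HR (n := n) (by omega) (by omega)] at a1
      rw [HR (by omega) h2] at e ne
      rw [HR (n := n) (by omega) d] at e
      have := Λmono (show 8 * 2 ^ n - (n + 1) % 2 - b ≤ 8 * 2 ^ n - (n + 1) % 2 - (a + 1) by omega)
      have := Λmono (show 8 * 2 ^ n - (n + 1) % 2 - (a + 1) ≤ 8 * 2 ^ n - (n + 1) % 2 - a by omega)
      omega
    · have c1 : a + 1 < 8 * 2 ^ n := by
        by_contra hh
        have e1 : a = 8 * 2 ^ n - 1 := by omega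
        have e2 : a + 1 = 8 * 2 ^ n := by omega
        rw [e2] at a1; rw [e1] at ne; omega
      have c2 := h (8 * 2 ^ n - 1) (by omega) (by omega)
      have c3 : b ≠ 8 * 2 ^ n := fun hh => by rw [hh] at e; omega
      have c4 : b ≤ 8 * 2 ^ n + 1 := by
        by_contra hh
        have := h (8 * 2 ^ n + 1) (by omega) (by omega)
        omega
      rw [HR (n := n) (by omega) c1] at a1
      have := Λle (8 * 2 ^ n - (n + 1) % 2 - (a + 1)) 0
      have := Λ0 (8 * 2 ^ n - (n + 1) % 2 - (a + 1))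
      omega

theorem centre (x y : ℕ) (hxy : x < y)
    (h : ∀ i j, x ≤ i → x ≤ j → i + j + 1 = x + y → H i = H j) :
    (∀ i, x ≤ i → i < y → H i = H x) ∨ ∃ a b η, x ≤ a ∧ a + b + 1 = x + y ∧ a + 1 < b ∧
      (∀ i, a < i → i < b → H i = η) ∧ H a = H b ∧ H a ≠ η := by
  obtain ⟨c, hc⟩ : ∃ c, c = (x + y - 1) / 2 := ⟨_, rfl⟩
  by_cases e : ∃ a, x ≤ a ∧ a ≤ c ∧ H a ≠ H c
  · right
    have e' : ∃ d, x ≤ c - d ∧ d ≤ c ∧ H (c - d) ≠ H c := by
      obtain ⟨a, a1, a2, a3⟩ := e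
      exact ⟨c - a, by omega, by omega, by rwa [show c - (c - a) = a by omega]⟩
    obtain ⟨d1, d2, d3⟩ := Nat.find_spec e'
    have mn : ∀ i, c - Nat.find e' < i → i ≤ c → H i = H c := fun i i1 i2 => by
      have := Nat.find_min e' (m := c - i) (by omega)
      rw [show c - (c - i) = i by omega] at this
      by_contra hh
      exact this ⟨by omega, by omega, hh⟩
    have d0 : Nat.find e' ≠ 0 := fun hh => by rw [hh] at d3; exact d3 rfl
    refine ⟨c - Nat.find e', x + y - 1 - (c - Nat.find e'), H c, d1, by omega, by omega,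
      fun i i1 i2 => ?_, h _ _ d1 (by omega) (by omega), d3⟩
    by_cases hi : i ≤ c
    · exact mn i i1 hi
    · rw [h i (x + y - 1 - i) (by omega) (by omega) (by omega)]
      exact mn _ (by omega) (by omega)
  · left
    push Not at e
    intro i i1 i2
    rw [e x le_rfl (by omega)]
    by_cases hi : i ≤ c
    · exact e i i1 hi
    · rw [h i (x + y - 1 - i) (by omega) (by omega) (by omega)]
      exact e _ (by omega) (by omega)

theorem step (x y : ℕ) (hx : 8 ≤ x) (hxy : x < y)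
    (h : ∀ i j, x ≤ i → x ≤ j → i + j + 1 = x + y → H i = H j) : Φ y ≤ Φ x + 2 := by
  have s0 := Λz
  have s1 := Λ1
  rcases centre x y hxy h with m | ⟨a, b, η, a1, a2, a3, a4, a5, a6⟩
  · obtain ⟨n, hn, h1, h2⟩ := blk x hx
    have q := two_le hn
    have v1 : H (8 * 2 ^ n - 1) = Λ (1 - (n + 1) % 2) := by
      rw [HR (n := n) (by omega) (by omega)]; congr 1; omega
    have v3 : H (8 * 2 ^ n + 1) = Λ (2 - (n + 1) % 2) := by
      rw [HN (n := n) (by omega) (by omega)]; congr 1; omega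
    have v4 : Λ (1 - (n + 1) % 2) = 1 - (n + 1) % 2 ∧ Λ (2 - (n + 1) % 2) = 2 - (n + 1) % 2 := by
      rcases Nat.mod_two_eq_zero_or_one (n + 1) with e | e <;> rw [e] <;> exact ⟨rfl, rfl⟩
    by_cases c : x + 1 < 6 * 2 ^ n + n % 2
    · have l1 := Λlip (x - (4 * 2 ^ n + n % 2))
      have l2 := Λmono (show x + 1 - (4 * 2 ^ n + n % 2) ≤ x - (4 * 2 ^ n + n % 2) + 1 by omega)
      rw [ΦL h1 c]
      by_cases d : y + 1 < 6 * 2 ^ n + n % 2
      · have := m (y - 1) (by omega) (by omega)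
        rw [HL (n := n) (by omega) (by omega), HL h1 (by omega),
          show y - 1 + 1 = y by omega] at this
        rw [ΦL (by omega) d]; omega
      · have k := m (6 * 2 ^ n + n % 2 - 2) (by omega) (by omega)
        rw [HL (n := n) (by omega) (by omega), Λtop (n := n) (by omega) (by omega)] at k
        have b1 : y < 8 * 2 ^ n := by
          by_contra hb
          have := m (8 * 2 ^ n - 1) (by omega) (by omega)
          omega
        rw [HL h1 (by omega)] at k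
        rw [ΦR (n := n) (by omega) b1]; omega
    · rw [ΦR (by omega) h2]
      by_cases d : y < 8 * 2 ^ n
      · have := Λmono (show 8 * 2 ^ n - (n + 1) % 2 - y ≤ 8 * 2 ^ n - (n + 1) % 2 - x by omega)
        rw [ΦR (n := n) (by omega) d]; omega
      · have c2 := m (8 * 2 ^ n - 1) (by omega) (by omega)
        have c4 : y ≤ 8 * 2 ^ n + 1 := by
          by_contra hh
          have := m (8 * 2 ^ n + 1) (by omega) (by omega)
          omega
        have := Λmono (show y - (8 * 2 ^ n + (n + 1) % 2) ≤ 1 - (n + 1) % 2 by omega)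
        rw [ΦN (n := n) (by omega) (by omega)]; omega
  · obtain ⟨n, hn, ⟨e1, e2⟩ | ⟨e1, e2⟩⟩ := extr a b η (by omega) a3 a4 a5 a6
    · have q := two_le hn
      have x1 : 4 * 2 ^ n + n % 2 ≤ x := by
        by_contra hh
        have := h (4 * 2 ^ n + n % 2 - 1) (8 * 2 ^ n - (n + 1) % 2) (by omega) (by omega) (by omega)
        rcases Nat.mod_two_eq_zero_or_one n with e | e
        · obtain ⟨k, rfl⟩ : ∃ k, n = k + 1 := ⟨n - 1, by omega⟩
          rw [HR (n := k + 1) (i := 8 * 2 ^ (k + 1) - (k + 1 + 1) % 2) (by omega) (by omega)] at this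
          simp only [pow_succ] at *
          rw [HR (n := k) (by omega) (by omega),
            show 8 * 2 ^ k - (k + 1) % 2 - (4 * (2 ^ k * 2) + (k + 1) % 2 - 1) = 1 by omega,
            show 8 * (2 ^ k * 2) - (k + 1 + 1) % 2 - (8 * (2 ^ k * 2) - (k + 1 + 1) % 2) = 0 by
              omega] at this
          omega
        · rw [HL (n := n) (by omega) (by omega), HN (n := n) (by omega) (by omega),
            show 4 * 2 ^ n + n % 2 - 1 + 1 - (4 * 2 ^ n + n % 2) = 0 by omega,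
            show 8 * 2 ^ n - (n + 1) % 2 + 1 - (8 * 2 ^ n + (n + 1) % 2) = 1 by omega] at this
          omega
      rw [ΦL (n := n) (c := x) (by omega) (by omega)]
      by_cases d : y < 8 * 2 ^ n
      · rw [ΦR (n := n) (by omega) d,
          show 8 * 2 ^ n - (n + 1) % 2 - y = x - (4 * 2 ^ n + n % 2) by omega]
        omega
      · rw [ΦN (n := n) (by omega) (by omega), show y - (8 * 2 ^ n + (n + 1) % 2) = 0 by omega]
        omega
    · have q := two_le hn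
      have x1 : 6 * 2 ^ n + n % 2 ≤ x + 1 := by
        by_contra hh
        have := h (6 * 2 ^ n + n % 2 - 2) (10 * 2 ^ n + (n + 1) % 2) (by omega) (by omega)
          (by omega)
        rw [HL (n := n) (by omega) (by omega), Λtop (n := n) (by omega) (by omega),
          HN (n := n) (by omega) (by omega), Λtop (n := n + 1) (by rw [pow_succ]; omega)
          (by rw [pow_succ]; omega)] at this
        omega
      rw [ΦR (n := n) x1 (by omega), ΦN (n := n) (by omega) (by omega),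
        show y - (8 * 2 ^ n + (n + 1) % 2) = 8 * 2 ^ n - (n + 1) % 2 - x by omega]
      omega

end Pool.Agent.H17.PPL
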