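import Mathlib
import Pool.Agent.H17.PPL1
import Pool.Agent.H17.Reg

set_option autoImplicit false

namespace Pool.Agent.H17.PPL

def u (i : ℕ) : Fin 4 := if i < 8 then 3 else Fin.ofNat 4 (H i % 3)

theorem u_val {i : ℕ} (h : 8 ≤ i) : (u i : ℕ) = H i % 3 := by
  rw [u, if_neg (by omega), Fin.val_ofNat]; omega

def Pal (x y : ℕ) : Prop := ∀ i j, x ≤ i → x ≤ j → i + j + 1 = x + y → u i = u j

theorem palH {x y : ℕ} (hx : 8 ≤ x) (h : Pal x y) :
    ∀ i j, x ≤ i → x ≤ j → i + j + 1 = x + y → H i = H j := by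
  have key : ∀ d i, x ≤ i → i + (i + d) + 1 = x + y → H i = H (i + d) := by
    intro d
    induction d using Nat.strong_induction_on with
    | _ d ih =>
      intro i hi e
      have a := congrArg Fin.val (h i (i + d) hi (by omega) e)
      rw [u_val (by omega), u_val (by omega)] at a
      have b := Hlip i (by omega)
      match d, ih, e, a with
      | 0, _, _, _ => rfl
      | 1, _, _, a => omega
      | d + 2, ih, e, a =>
        have c := ih d (by omega) (i + 1) (by omega) (by omega)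
        have f := Hlip (i + 1 + d) (by omega)
        rw [show i + 1 + d + 1 = i + (d + 2) by ring] at f
        omega
  intro i j hi hj e
  rcases le_total i j with c | c
  · obtain ⟨d, rfl⟩ := Nat.exists_eq_add_of_le c
    exact key d i hi e
  · obtain ⟨d, rfl⟩ := Nat.exists_eq_add_of_le c
    exact (key d j hj (by omega)).symm

theorem Hpal {x y : ℕ} (hx : 8 ≤ x)
    (h : ∀ i j, x ≤ i → i ≤ j → i + j + 1 = x + y → H i = H j) : Pal x y := by
  intro i j hi hj e
  apply Fin.ext
  rw [u_val (by omega), u_val (by omega)]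
  rcases le_total i j with c | c
  · rw [h i j hi c e]
  · rw [h j i hj c (by omega)]

def D (n : ℕ) : Set ℕ := {k | ∃ L : List (List (Fin 4)), L.length = k ∧
  (∀ w ∈ L, w ≠ [] ∧ w.reverse = w) ∧ L.flatten = (List.range' 1 n).map u}

theorem D_up {n l k : ℕ} (hl : 0 < l) (h : k ∈ D n) (hp : Pal (n + 1) (n + 1 + l)) :
    k + 1 ∈ D (n + l) := by
  obtain ⟨L, h1, h2, h3⟩ := h
  refine ⟨L ++ [(List.range' (1 + n) l).map u], by simp [h1], ?_, ?_⟩
  · intro w hw
    rcases List.mem_append.1 hw with hw | hw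
    · exact h2 w hw
    · obtain rfl := List.mem_singleton.1 hw
      refine ⟨by simp; omega, List.ext_getElem (by simp) fun i a b => ?_⟩
      simp only [List.getElem_reverse, List.getElem_map, List.getElem_range', List.length_map,
        List.length_range'] at a b ⊢
      exact hp _ _ (by omega) (by omega) (by omega)
  · rw [List.flatten_append, h3, ← List.range'_append_1, List.map_append, List.flatten_singleton]

theorem D_down (L : List (List (Fin 4))) : ∀ n, (∀ w ∈ L, w ≠ [] ∧ w.reverse = w) →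
    L.flatten = (List.range' 1 n).map u → 7 ≤ n → Φ (n + 1) ≤ 2 * L.length + Φ 8 := by
  induction L using List.reverseRecOn with
  | nil => intro n _ h hn; have := congrArg List.length h; simp at this; omega
  | append_singleton L w ih =>
    intro n h1 h2 hn
    obtain ⟨w1, w2⟩ := h1 w (by simp)
    have l0 : 0 < w.length := List.length_pos_iff.2 w1
    have e := congrArg List.length h2
    simp only [List.flatten_append, List.flatten_singleton, List.length_append, List.length_map,
      List.length_range'] at e h2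
    obtain ⟨x, hx⟩ : ∃ x, x = L.flatten.length := ⟨_, rfl⟩
    obtain ⟨l, hl⟩ : ∃ l, l = w.length := ⟨_, rfl⟩
    rw [← hx, ← hl] at e
    rw [← e, ← List.range'_append_1, List.map_append] at h2
    obtain ⟨a, b⟩ := List.append_inj h2 (by simp [hx])
    have hp : Pal (x + 1) (n + 1) := by
      intro i j hi hj c
      have := congrArg (fun z => z[i - (x + 1)]?) w2
      rw [List.getElem?_reverse (by omega), ← hl, b, List.getElem?_map, List.getElem?_map,
        List.getElem?_range' (by omega), List.getElem?_range' (by omega)] at this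
      simp only [Option.map_some, Option.some.injEq] at this
      rw [show i = 1 + x + 1 * (i - (x + 1)) by omega, ← this]
      congr 1; omega
    rw [List.length_append, List.length_singleton]
    by_cases c : 7 ≤ x
    · have := ih x (fun v hv => h1 v (by simp [hv])) a c
      have := step (x + 1) (n + 1) (by omega) (by omega) (palH (by omega) hp)
      omega
    · have : n = 7 := by
        by_contra hh
        have := congrArg Fin.val (hp (x + 1) n le_rfl (by omega) (by omega))
        rw [u_val (i := n) (by omega), u, if_pos (by omega)] at this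
        have e3 : ((3 : Fin 4) : ℕ) = 3 := rfl
        omega
      subst this
      show Φ 8 ≤ _
      omega

theorem pal_peak (n t : ℕ) (hn : 1 ≤ n) :
    Pal (4 * 2 ^ n + n % 2 + t) (8 * 2 ^ n - (n + 1) % 2 - t) := by
  have q := two_le hn
  refine Hpal (by omega) fun i j hi hj e => ?_
  rw [HL (n := n) (by omega) (by omega), HR (n := n) (by omega) (by omega)]
  congr 1; omega

theorem pal_valley (n t : ℕ) (hn : 1 ≤ n) (ht : t ≤ 2 * 2 ^ n) :
    Pal (8 * 2 ^ n - (n + 1) % 2 - t) (8 * 2 ^ n + (n + 1) % 2 + t) := by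
  have q := two_le hn
  refine Hpal (by omega) fun i j hi hj e => ?_
  rw [HR (n := n) (by omega) (by omega), HN (n := n) (by omega) (by omega)]
  congr 1; omega

theorem pal_top (n : ℕ) (hn : 1 ≤ n) :
    Pal (5 * 2 ^ n + n % 2) (6 * 2 ^ n + n % 2 - 1) := by
  have q := two_le hn
  refine Hpal (by omega) fun i j hi hj e => ?_
  rw [HL (n := n) (by omega) (by omega), HL (n := n) (by omega) (by omega),
    Λtop (n := n) (by omega) (by omega), Λtop (n := n) (by omega) (by omega)]

theorem nonreg (p : ℕ → ℕ) (hp : ∀ n, IsLeast (D n) (p n)) :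
    ¬ (Submodule.span ℤ (Reg.ker 2 fun n => (p n : ℤ))).FG := by
  intro hf
  have up : ∀ x y x' y', Pal x' y' → x' = x + 1 → y' = y + 1 → x ≤ y → p y ≤ p x + 1 := by
    rintro x y _ _ h rfl rfl hxy
    rcases eq_or_lt_of_le hxy with rfl | c
    · omega
    · obtain ⟨l, rfl⟩ := Nat.exists_eq_add_of_le hxy
      exact (hp _).2 (D_up (by omega) (hp x).1 (by rwa [add_right_comm] at h))
  have up1 : ∀ x l, p (x + l) ≤ p x + l := fun x l => by
    induction l with
    | zero => simp
    | succ l ih =>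
      have := up (x + l) (x + (l + 1)) _ _ (fun i j a b c => by congr 1; omega) rfl rfl (by omega)
      omega
  have low : ∀ n, 7 ≤ n → Φ (n + 1) ≤ 2 * p n + Φ 8 := fun n hn => by
    obtain ⟨L, h1, h2, h3⟩ := (hp n).1
    rw [← h1]; exact D_down L n h2 h3 hn
  have U1 : ∀ n, 1 ≤ n → 2 * p (4 * 2 ^ n + n % 2 - 1) ≤ 3 * n + n % 2 + 2 * p 8 := by
    intro n hn
    induction n, hn using Nat.le_induction with
    | base => norm_num
    | succ n hn ih =>
      have q := two_le hn
      have a := up (4 * 2 ^ n + n % 2 - 1) (8 * 2 ^ n - (n + 1) % 2 - 1) _ _ (pal_peak n 0 hn)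
        (by omega) (by omega) (by omega)
      have b := up (8 * 2 ^ n - (n + 1) % 2 - 1) (8 * 2 ^ n + (n + 1) % 2 - 1) _ _
        (pal_valley n 0 hn (by omega)) (by omega) (by omega) (by omega)
      rw [pow_succ, show 4 * (2 ^ n * 2) = 8 * 2 ^ n by ring]
      rcases Nat.mod_two_eq_zero_or_one n with e | e
      · omega
      · have e' : (n + 1) % 2 = 0 := by omega
        rw [e'] at a ⊢
        simp only [Nat.sub_zero, add_zero] at a ⊢
        omega
  have U2 : ∀ n, 1 ≤ n → p (5 * 2 ^ n + n % 2 - 1) ≤ 2 * n + p 10 := by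
    intro n hn
    induction n, hn using Nat.le_induction with
    | base => norm_num
    | succ n hn ih =>
      have q := two_le hn
      have a := up (5 * 2 ^ n + n % 2 - 1) (6 * 2 ^ n + n % 2 - 2) _ _ (pal_top n hn)
        (by omega) (by omega) (by omega)
      have b := up (6 * 2 ^ n + n % 2 - 2) (10 * 2 ^ n + (n + 1) % 2 - 1) _ _
        (pal_valley n (2 * 2 ^ n) hn le_rfl) (by omega) (by omega) (by omega)
      rw [pow_succ, show 5 * (2 ^ n * 2) = 10 * 2 ^ n by ring]
      omega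
  have U3 : ∀ b a, 1 ≤ b → p (4 * 2 ^ (a + b) + (a + b) % 2 + 2 ^ b - 1) ≤ 2 * (a + b) + p 10 := by
    intro b a hb
    induction a with
    | zero =>
      have := U2 b hb
      rw [zero_add, show 4 * 2 ^ b + b % 2 + 2 ^ b = 5 * 2 ^ b + b % 2 by ring]; exact this
    | succ a ih =>
      have q : 2 ^ b ≤ 2 ^ (a + b) := Nat.pow_le_pow_right (by norm_num) (by omega)
      have q2 := two_le hb
      have c := up (4 * 2 ^ (a + b) + (a + b) % 2 + 2 ^ b - 1)
        (8 * 2 ^ (a + b) - (a + b + 1) % 2 - 2 ^ b - 1) _ _ (pal_peak (a + b) (2 ^ b) (by omega))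
        (by omega) (by omega) (by omega)
      have d := up (8 * 2 ^ (a + b) - (a + b + 1) % 2 - 2 ^ b - 1)
        (8 * 2 ^ (a + b) + (a + b + 1) % 2 + 2 ^ b - 1) _ _
        (pal_valley (a + b) (2 ^ b) (by omega) (by omega)) (by omega) (by omega) (by omega)
      rw [add_right_comm a 1 b, pow_succ, show 4 * (2 ^ (a + b) * 2) = 8 * 2 ^ (a + b) by ring]
      omega
  have V1 : ∀ n, 1 ≤ n → 2 * p (4 * 2 ^ n) ≤ 3 * n + 3 + 2 * p 8 := fun n hn => by
    have q := two_le hn
    have a := U1 n hn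
    have b := up1 (4 * 2 ^ n + n % 2 - 1) (1 - n % 2)
    rw [show 4 * 2 ^ n + n % 2 - 1 + (1 - n % 2) = 4 * 2 ^ n by omega] at b
    omega
  have V2 : ∀ a b, 1 ≤ b → p (4 * 2 ^ (a + b) + 2 ^ b) ≤ 2 * (a + b) + p 10 + 1 := fun a b hb => by
    have q := two_le hb
    have c := U3 b a hb
    have d := up1 (4 * 2 ^ (a + b) + (a + b) % 2 + 2 ^ b - 1) (1 - (a + b) % 2)
    rw [show 4 * 2 ^ (a + b) + (a + b) % 2 + 2 ^ b - 1 + (1 - (a + b) % 2) =
      4 * 2 ^ (a + b) + 2 ^ b by omega] at d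
    omega
  have W1 : ∀ n t, 2 ≤ n → t ≤ 2 ^ n →
      min (3 * n + 2 * Λ t) (4 * n) ≤ 2 * p (4 * 2 ^ n + t) + Φ 8 := fun n t hn ht => by
    have q : 2 ^ 2 ≤ 2 ^ n := Nat.pow_le_pow_right (by norm_num) hn
    have a := low (4 * 2 ^ n + t) (by omega)
    rw [ΦL (n := n) (by omega) (by omega)] at a
    have := Λmono (show t ≤ 4 * 2 ^ n + t + 1 - (4 * 2 ^ n + n % 2) by omega)
    omega
  let w : ℕ → ℕ → ℤ := fun b n => (p (2 ^ (b + 1) * n + 2 ^ b) : ℤ) - p (2 ^ (b + 1) * n + 0)
  have wv : ∀ b a, w b (2 ^ (a + 1)) = (p (4 * 2 ^ (a + b) + 2 ^ b) : ℤ) - p (4 * 2 ^ (a + b)) :=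
    fun b a => by
      simp only [w, add_zero, show 2 ^ (b + 1) * 2 ^ (a + 1) = 4 * 2 ^ (a + b) by ring]
  have h1 : (Submodule.span ℤ (Set.range w)).FG := by
    refine hf.of_le (Submodule.span_le.2 ?_)
    rintro _ ⟨b, rfl⟩
    exact Submodule.sub_mem _
      (Submodule.subset_span ⟨b + 1, 2 ^ b, Nat.pow_lt_pow_right (by norm_num) (by omega), rfl⟩)
      (Submodule.subset_span ⟨b + 1, 0, by positivity, rfl⟩)
  obtain ⟨F, hF, e⟩ := (Submodule.fg_span_iff_fg_span_finset_subset _).1 h1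
  have : ∀ v ∈ F, ∃ B : ℕ, ∀ a, v (2 ^ (a + 2 + 1)) ∈ Finset.Icc (-(B : ℤ)) B := by
    intro v hv
    obtain ⟨b, rfl⟩ := hF hv
    refine ⟨2 ^ b + Φ 8 + 2 * p 8 + 3, fun a => ?_⟩
    have c1 := up1 (4 * 2 ^ (a + 2 + b)) (2 ^ b)
    have c2 := V1 (a + 2 + b) (by omega)
    have c3 := W1 (a + 2 + b) (2 ^ b) (by omega) (Nat.pow_le_pow_right (by norm_num) (by omega))
    rw [wv, Finset.mem_Icc]
    generalize 2 ^ b = z at *
    omega
  choose B hB using this
  obtain ⟨c, hc⟩ := Finite.exists_infinite_fiber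
    (fun (a : ℕ) (v : F) => (⟨v.1 (2 ^ (a + 2 + 1)), hB v.1 v.2 a⟩ :
      Finset.Icc (-(B v.1 v.2 : ℤ)) (B v.1 v.2)))
  have inf := Set.infinite_coe_iff.1 hc
  obtain ⟨a, ha⟩ := inf.nonempty
  obtain ⟨b, hb⟩ : ∃ b, b = a + 2 * p 10 + 2 * p 8 + 2 * Φ 8 + 20 := ⟨_, rfl⟩
  obtain ⟨a', ha', hlt⟩ := inf.exists_gt b
  have eq : ∀ v ∈ F, v (2 ^ (a + 2 + 1)) = v (2 ^ (a' + 2 + 1)) := fun v hv =>
    congrArg Subtype.val (congrFun (ha.trans ha'.symm) ⟨v, hv⟩)
  have eq2 : w b (2 ^ (a + 2 + 1)) = w b (2 ^ (a' + 2 + 1)) := by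
    have m : w b ∈ Submodule.span ℤ (F : Set (ℕ → ℤ)) := e ▸ Submodule.subset_span ⟨b, rfl⟩
    refine Submodule.span_induction (p := fun v _ => v (2 ^ (a + 2 + 1)) = v (2 ^ (a' + 2 + 1)))
      eq rfl (fun x y _ _ h1 h2 => by simp [h1, h2]) (fun r x _ h => by simp [h]) m
  rw [wv, wv] at eq2
  have c1 := V2 (a + 2) b (by omega)
  have c2 := W1 (a + 2 + b) 0 (by omega) (Nat.zero_le _)
  have c3 := V1 (a' + 2 + b) (by omega)
  have c4 := W1 (a' + 2 + b) (2 ^ b) (by omega) (Nat.pow_le_pow_right (by norm_num) (by omega))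
  have c5 := Λle (2 ^ b) (b - 1)
  have c6 : 2 ^ (b - 1) < 2 ^ b := Nat.pow_lt_pow_right (by norm_num) (by omega)
  rw [add_zero] at c2
  omega

abbrev S := Fin 8 ⊕ (Bool × Bool × Bool × Fin 3 × Fin 3)

def lf (n : ℕ) : Bool := decide (2 * n < 3 * 2 ^ Nat.log 2 n)
def dl (n : ℕ) : ℕ := if lf n then n - 2 ^ Nat.log 2 n else 2 * 2 ^ Nat.log 2 n - 1 - n
def ep (n : ℕ) : Bool := decide ((Nat.log 2 n + if lf n then 0 else 1) % 2 = 1)

def τ (n : ℕ) : S := if h : n < 8 then Sum.inl ⟨n, h⟩ else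
  Sum.inr (lf n, ep n, decide (dl n = 0), Fin.ofNat 3 (dl n).size, Fin.ofNat 3 (dl n - 1).size)

def δ : S → ℕ → S
  | Sum.inl n, d => τ (2 * n + d)
  | Sum.inr (l, e, z, a, b), d =>
    if (l = true ↔ d = 1) then Sum.inr (l, !e, false, a + 1, if z then 0 else a + 1)
    else Sum.inr (l, !e, z, if z then 0 else a + 1, if z then 0 else b + 1)

def out : S → Fin 4
  | Sum.inl _ => 3
  | Sum.inr (_, e, z, a, b) =>
    if e then (if z then 0 else Fin.ofNat 4 ((b + 1) % 3)) else Fin.ofNat 4 ((a + 1) % 3)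

theorem sz1 (t : ℕ) : (2 * t + 1).size = t.size + 1 := by
  have := Nat.size_bit (b := true) (n := t) (by simp [Nat.bit])
  simpa [Nat.bit] using this

theorem sz0 (t : ℕ) (h : t ≠ 0) : (2 * t).size = t.size + 1 := by
  have := Nat.size_bit (b := false) (n := t) (by simp [Nat.bit, h])
  simpa [Nat.bit] using this

theorem sz2 (t : ℕ) (h : t ≠ 0) : (2 * t - 1).size = (t - 1).size + 1 := by
  rw [← sz1]; congr 1; omega

theorem τ_step (n d : ℕ) (hd : d < 2) : τ (2 * n + d) = δ (τ n) d := by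
  by_cases h : n < 8
  · rw [τ.eq_1 n, dif_pos h]; rfl
  obtain ⟨k, hk, h1, h2⟩ := blk n (by omega)
  have l1 := lg h1 h2
  have l2 : Nat.log 2 (2 * n + d) = k + 1 + 2 :=
    lg (by rw [pow_succ]; omega) (by rw [pow_succ]; omega)
  have a1 : lf (2 * n + d) = lf n := by
    simp only [lf, l1, l2, pow_succ, decide_eq_decide]; omega
  have a2 : ep (2 * n + d) = !ep n := by
    simp only [ep, a1, l1, l2, ← decide_not, decide_eq_decide]; omega
  have a3 : dl (2 * n + d) = 2 * dl n + if (lf n = true ↔ d = 1) then 1 else 0 := by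
    simp only [dl, a1, l1, l2, pow_succ]
    cases lf n <;> simp <;> split_ifs <;> omega
  rw [τ, dif_neg (by omega), τ, dif_neg h, δ, a1, a2, a3]
  by_cases z : dl n = 0
  · split_ifs <;> simp_all <;> rfl
  · split_ifs <;> simp_all [sz1, sz0, sz2, Fin.ext_iff, Fin.val_add]

theorem out_τ (n : ℕ) : out (τ n) = u n := by
  by_cases h : n < 8
  · rw [τ, dif_pos h, u, if_pos h]; rfl
  obtain ⟨k, hk, h1, h2⟩ := blk n (by omega)
  have l1 := lg h1 h2
  have e : H n = Λ (dl n + 1 - if ep n then 1 else 0) := by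
    by_cases c : n < 6 * 2 ^ k
    · have : lf n = true := by simp only [lf, l1, pow_succ, decide_eq_true_eq]; omega
      rw [HL h1 (by omega)]; congr 1
      simp only [dl, ep, this, l1, pow_succ, decide_eq_true_eq]; split_ifs <;> simp_all <;> omega
    · have : lf n = false := by simp only [lf, l1, pow_succ, decide_eq_false_iff_not]; omega
      rw [HR (by omega) h2]; congr 1
      simp only [dl, ep, this, l1, pow_succ, decide_eq_true_eq]; split_ifs <;> simp_all <;> omega
  rw [τ, dif_neg h, u, if_neg h, out, e, Λ]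
  cases ep n
  · simp only [Bool.false_eq_true, if_false, Nat.sub_zero]
    rw [show 2 * (dl n + 1) - 1 = 2 * dl n + 1 by omega, sz1]
    simp [Fin.ext_iff]
  · by_cases z : dl n = 0
    · simp [z]
    · simp [z, sz2, Fin.ext_iff]

theorem run (n : ℕ) : (Nat.digits 2 n).reverse.foldl δ (Sum.inl 0) = τ n := by
  induction n using Nat.strong_induction_on with
  | _ n ih =>
    rcases Nat.eq_zero_or_pos n with rfl | h
    · rfl
    · rw [Nat.digits_def' (by norm_num) h, List.reverse_cons, List.foldl_append, ih _ (by omega),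
        List.foldl_cons, List.foldl_nil, ← τ_step _ _ (Nat.mod_lt _ two_pos), Nat.div_add_mod]

end Pool.Agent.H17.PPL
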