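import Mathlib

set_option autoImplicit false

namespace Pool.Agent.H17.ParityConway

structure Sys (o e : ℕ → ℕ) : Prop where
  o0 : o 0 = 0
  e1 : e 1 = 0
  ob : ∀ j, o j ≤ j - 1
  eb : ∀ j, 1 ≤ j → e j + 1 ≤ j
  er : ∀ j, 1 ≤ j → e (j + 1) = o (o j) + o (j - o j) + 1
  orr : ∀ j, 1 ≤ j → o j = o (e j) + e (j - e j)

variable {o e : ℕ → ℕ}

theorem slow (h : Sys o e) : ∀ j, (o (j + 1) = o j ∨ o (j + 1) = o j + 1) ∧
    (1 ≤ j → (e (j + 1) = e j ∨ e (j + 1) = e j + 1)) := by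
  intro j
  induction j using Nat.strong_induction_on with
  | _ j ih =>
    have he : 1 ≤ j → (e (j + 1) = e j ∨ e (j + 1) = e j + 1) := by
      intro hj
      rcases Nat.lt_or_ge j 2 with h2 | h2
      · obtain rfl : j = 1 := by omega
        have h1 : o 1 = 0 := by have := h.ob 1; omega
        right
        rw [h.er 1 le_rfl, h1, h.o0, h.e1]
        simp [h1]
      · obtain ⟨i, rfl⟩ : ∃ i, j = i + 1 := ⟨j - 1, by omega⟩
        have hb := h.ob i
        rw [h.er (i + 1) hj, h.er i (by omega)]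
        rcases (ih i (by omega)).1 with h3 | h3
        · rw [h3, show i + 1 - o i = (i - o i) + 1 by omega]
          have := (ih (i - o i) (by omega)).1
          omega
        · rw [h3, show i + 1 - (o i + 1) = i - o i by omega]
          have := (ih (o i) (by omega)).1
          omega
    refine ⟨?_, he⟩
    rcases Nat.eq_zero_or_pos j with rfl | hj
    · have := h.ob 1
      have := h.o0
      simp only [zero_add]
      omega
    · have hb := h.eb j hj
      rw [h.orr (j + 1) (by omega), h.orr j hj]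
      rcases he hj with h3 | h3
      · rw [h3, show j + 1 - e j = (j - e j) + 1 by omega]
        rcases Nat.eq_zero_or_pos (e j) with h4 | h4
        · rw [h4, Nat.sub_zero]
          omega
        · have := (ih (j - e j) (by omega)).2 (by omega)
          omega
      · rw [h3, show j + 1 - (e j + 1) = j - e j by omega]
        have := (ih (e j) (by omega)).1
        omega

theorem omono (h : Sys o e) {s t : ℕ} (hst : s ≤ t) : o s ≤ o t ∧ o t + s ≤ o s + t := by
  induction t, hst using Nat.le_induction with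
  | base => omega
  | succ t _ ih => have := (slow h t).1; omega

theorem emono (h : Sys o e) {s t : ℕ} (hs : 1 ≤ s) (hst : s ≤ t) :
    e s ≤ e t ∧ e t + s ≤ e s + t := by
  induction t, hst using Nat.le_induction with
  | base => omega
  | succ t ht ih => have := (slow h t).2 (by omega); omega

theorem sync (h : Sys o e) (p q : ℕ)
    (h1 : o p + o (q + 1) = p) (h2 : o (p + 1) + o q = p)
    (h3 : o (p + 1) + e (q + 1) = p + 1) :
    o (p + q + 2) = p + 1 ∧ e (p + q + 2) = p + 1 := by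
  have key : ∀ j, 1 ≤ j → j ≤ p + q + 2 →
      (o j ≤ p + 1 ∧ j ≤ o j + q + 1) ∧ (e j ≤ p + 1 ∧ j ≤ e j + q + 1) := by
    intro j hj
    induction j, hj using Nat.le_induction with
    | base =>
      intro _
      have := h.ob 1
      have := h.e1
      omega
    | succ j hj ih =>
      intro hle
      obtain ⟨⟨a1, a2⟩, -⟩ := ih (by omega)
      have hb := h.ob j
      have hE := h.er j hj
      have hs : e (j + 1) ≤ p + 1 ∧ j + 1 ≤ e (j + 1) + q + 1 := by
        rcases Nat.lt_or_ge (o j) (p + 1) with c | c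
        · have b1 := omono h (show o j ≤ p by omega)
          have b2 := omono h (show j - o j ≤ q + 1 by omega)
          omega
        · have b1 := omono h (show o j ≤ p + 1 by omega)
          have b2 := omono h (show j - o j ≤ q by omega)
          omega
      have hb2 := h.eb (j + 1) (by omega)
      have hO := h.orr (j + 1) (by omega)
      have b1 := omono h hs.1
      have b2 := emono h (show 1 ≤ j + 1 - e (j + 1) by omega)
        (show j + 1 - e (j + 1) ≤ q + 1 by omega)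
      omega
  have := key (p + q + 2) (by omega) le_rfl
  omega

theorem estep (h : Sys o e) {j j' s t v : ℕ} (h1 : o j = s) (hj : j' = j + 1) (h2 : j = s + t)
    (h0 : 1 ≤ j) (h3 : v = o s + o t + 1) : e j' = v := by
  rw [hj, h.er j h0, h1, show j - s = t by omega, h3]

theorem ostep (h : Sys o e) {j s t v : ℕ} (h1 : e j = s) (h2 : j = s + t)
    (h0 : 1 ≤ j) (h3 : v = o s + e t) : o j = v := by
  rw [h.orr j h0, h1, show j - s = t by omega, h3]

def W0 (o e : ℕ → ℕ) (x u : ℕ) : Prop :=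
  o x = u ∧ o (x + 1) = u ∧ o (x + 2) = u + 1 ∧ o (x + 3) = u + 1 ∧
  e x = u ∧ e (x + 1) = u ∧ e (x + 2) = u + 1 ∧ e (x + 3) = u + 2 ∧ e (x + 4) = u + 2

def W1 (o e : ℕ → ℕ) (x u : ℕ) : Prop :=
  o x = u ∧ o (x + 1) = u ∧ o (x + 2) = u + 1 ∧ o (x + 3) = u + 1 ∧
  e x = u ∧ e (x + 1) = u + 1 ∧ e (x + 2) = u + 1 ∧ e (x + 3) = u + 1

theorem step0 (h : Sys o e) {y z v w : ℕ} (hy : W1 o e y v) (hz : W1 o e z w) (r : y = v + w) :
    W0 o e (y + z + 2) (y + 1) := by
  obtain ⟨a0, a1, a2, a3, a4, a5, a6, a7⟩ := hy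
  obtain ⟨b0, b1, b2, b3, b4, b5, b6, b7⟩ := hz
  obtain ⟨o0, e0⟩ := sync h y z (by omega) (by omega) (by omega)
  have e1 : e (y + z + 2 + 1) = y + 1 :=
    estep h (t := z + 1) o0 (by ring) (by ring) (by clear * -; omega)
      (by rw [a1, b1]; clear * - r; omega)
  have o1 : o (y + z + 2 + 1) = y + 1 :=
    ostep h (t := z + 2) e1 (by ring) (by clear * -; omega)
      (by rw [a1, b6]; clear * - r; omega)
  have e2 : e (y + z + 2 + 2) = y + 2 :=
    estep h (t := z + 2) o1 (by ring) (by ring) (by clear * -; omega)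
      (by rw [a1, b2]; clear * - r; omega)
  have o2 : o (y + z + 2 + 2) = y + 2 :=
    ostep h (t := z + 2) e2 (by ring) (by clear * -; omega)
      (by rw [a2, b6]; clear * - r; omega)
  have e3 : e (y + z + 2 + 3) = y + 3 :=
    estep h (t := z + 2) o2 (by ring) (by ring) (by clear * -; omega)
      (by rw [a2, b2]; clear * - r; omega)
  have o3 : o (y + z + 2 + 3) = y + 2 :=
    ostep h (t := z + 2) e3 (by ring) (by clear * -; omega)
      (by rw [a3, b6]; clear * - r; omega)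
  have e4 : e (y + z + 2 + 4) = y + 3 :=
    estep h (t := z + 3) o3 (by ring) (by ring) (by clear * -; omega)
      (by rw [a2, b3]; clear * - r; omega)
  exact ⟨o0, o1, o2, o3, e0, e1, e2, e3, e4⟩

theorem step1 (h : Sys o e) {y z v w : ℕ} (hy : W0 o e y v) (hz : W0 o e z w) (r : y = v + w) :
    W1 o e (y + z + 4) (y + 2) := by
  obtain ⟨a0, a1, a2, a3, a4, a5, a6, a7, a8⟩ := hy
  obtain ⟨b0, b1, b2, b3, b4, b5, b6, b7, b8⟩ := hz
  obtain ⟨o0, e0⟩ := sync h (y + 1) (z + 1) (by rw [show z + 1 + 1 = z + 2 from rfl]; omega)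
    (by rw [show y + 1 + 1 = y + 2 from rfl]; omega)
    (by rw [show y + 1 + 1 = y + 2 from rfl, show z + 1 + 1 = z + 2 from rfl]; omega)
  rw [show y + 1 + (z + 1) + 2 = y + z + 4 by ring, show y + 1 + 1 = y + 2 by ring] at o0 e0
  have e1 : e (y + z + 4 + 1) = y + 3 :=
    estep h (t := z + 2) o0 (by ring) (by ring) (by clear * -; omega)
      (by rw [a2, b2]; clear * - r; omega)
  have o1 : o (y + z + 4 + 1) = y + 2 :=
    ostep h (t := z + 2) e1 (by ring) (by clear * -; omega)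
      (by rw [a3, b6]; clear * - r; omega)
  have e2 : e (y + z + 4 + 2) = y + 3 :=
    estep h (t := z + 3) o1 (by ring) (by ring) (by clear * -; omega)
      (by rw [a2, b3]; clear * - r; omega)
  have o2 : o (y + z + 4 + 2) = y + 3 :=
    ostep h (t := z + 3) e2 (by ring) (by clear * -; omega)
      (by rw [a3, b7]; clear * - r; omega)
  have e3 : e (y + z + 4 + 3) = y + 3 :=
    estep h (t := z + 3) o2 (by ring) (by ring) (by clear * -; omega)
      (by rw [a3, b3]; clear * - r; omega)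
  have o3 : o (y + z + 4 + 3) = y + 3 :=
    ostep h (t := z + 4) e3 (by ring) (by clear * -; omega)
      (by rw [a3, b8]; clear * - r; omega)
  exact ⟨o0, o1, o2, o3, e0, e1, e2, e3⟩

def ToL : List ℕ := [0, 0, 0, 1, 1, 1, 1, 2, 2, 2, 3, 3, 3, 3, 3, 4, 5, 5, 5, 6, 6, 6, 6, 7, 7, 7, 7, 7, 7, 7, 7, 8,
  9, 10, 10, 11, 11, 11, 12, 12, 12, 12, 13, 13, 13, 13, 13, 13, 14, 14, 15, 16, 16, 16, 16, 16,
  16, 16, 16, 17, 17, 17, 17, 17, 18, 19, 19, 20, 20, 20, 20, 20, 21, 22, 23, 23, 24, 24, 24, 25,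
  25, 25, 25, 26, 26, 26, 26, 26, 26, 26, 26, 26, 26, 27, 27, 27, 27, 28, 28, 29, 30, 30, 30, 30,
  30, 31, 32, 33, 33, 34, 34, 35, 35, 35, 35, 35, 35, 35, 35, 36, 36, 36, 36, 36, 37, 37, 37, 37,
  37, 38, 38, 39, 39, 39, 39, 40, 40, 40, 40, 40, 41, 41, 41, 41, 41, 41, 42, 42, 42, 42, 42, 43,
  44, 45, 46, 47, 47, 48, 48, 48, 49, 50, 51, 51, 52, 52, 52]

def TeL : List ℕ := [0, 0, 1, 1, 1, 2, 2, 2, 2, 2, 3, 4, 4, 4, 5, 5, 5, 5, 5, 5, 5, 5, 6, 7, 8, 8, 8, 9, 9, 9, 9,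
  10, 10, 10, 11, 11, 11, 11, 11, 11, 11, 11, 11, 11, 11, 12, 13, 14, 14, 14, 15, 16, 17, 17, 17,
  18, 18, 18, 18, 19, 19, 19, 19, 19, 19, 19, 20, 20, 20, 21, 21, 22, 23, 23, 23, 24, 24, 24, 24,
  24, 24, 24, 24, 24, 24, 24, 25, 25, 25, 25, 25, 26, 27, 27, 27, 28, 28, 28, 28, 28, 28, 28, 28,
  29, 30, 31, 32, 33, 34, 34, 34, 35, 36, 36, 36, 37, 37, 37, 37, 38, 38, 38, 38, 38, 38, 38, 38,
  38, 38, 38, 39, 39, 39, 40, 40, 40, 40, 40, 41, 41, 42, 42, 43, 43, 43, 43, 43, 44, 45, 46, 47,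
  47, 47, 47, 47, 47, 47, 48, 49, 49, 50, 50, 51, 52, 52, 52, 52]

def To (j : ℕ) : ℕ := ToL.getD j 0

def Te (j : ℕ) : ℕ := TeL.getD j 0

theorem tab1 : ∀ j ∈ List.range 166, 1 ≤ j →
    Te (j + 1) = To (To j) + To (j - To j) + 1 ∧
    To (j + 1) = To (Te (j + 1)) + Te (j + 1 - Te (j + 1)) := by decide +kernel

theorem table (h : Sys o e) : ∀ j, j ≤ 166 → o j = To j ∧ (1 ≤ j → e j = Te j) := by
  intro j
  induction j using Nat.strong_induction_on with
  | _ j ih =>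
    intro hj
    rcases Nat.lt_or_ge j 2 with h2 | h2
    · have := h.ob j
      have := h.e1
      have t0 : To 0 = 0 := by decide
      have t1 : To 1 = 0 := by decide
      have t2 : Te 1 = 0 := by decide
      interval_cases j <;> omega
    · obtain ⟨i, rfl⟩ : ∃ i, j = i + 1 := ⟨j - 1, by omega⟩
      obtain ⟨t1, t2⟩ := tab1 i (List.mem_range.2 (by omega)) (by omega)
      have hb := h.ob i
      have he : e (i + 1) = Te (i + 1) := by
        rw [h.er i (by omega), t1, (ih (o i) (by omega) (by omega)).1,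
          (ih (i - o i) (by omega) (by omega)).1, (ih i (by omega) (by omega)).1]
      refine ⟨?_, fun _ => he⟩
      have hb2 := h.eb (i + 1) (by omega)
      have hp : 1 ≤ e (i + 1) := by rw [h.er i (by omega)]; omega
      rw [h.orr (i + 1) (by omega), t2, (ih (e (i + 1)) (by omega) (by omega)).1,
        (ih (i + 1 - e (i + 1)) (by omega) (by omega)).2 (by omega), he]

def Inv (o e : ℕ → ℕ) (x0 x1 x2 : ℕ) : Prop :=
  ∃ u0 u1 u2, W1 o e x0 u0 ∧ W0 o e x1 u1 ∧ W1 o e x2 u2 ∧ x0 = u0 + u2 ∧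
    x1 = u1 + x0 + 1 ∧ x2 = u2 + x1 + 2 ∧
    146 * (3 * x0 + 8) ≤ 100 * (3 * x1 + 10) ∧ 100 * (3 * x1 + 10) ≤ 147 * (3 * x0 + 8) ∧
    146 * (3 * x1 + 10) ≤ 100 * (3 * x2 + 8) ∧ 100 * (3 * x2 + 8) ≤ 147 * (3 * x1 + 10)

theorem inv_step (h : Sys o e) {x0 x1 x2 : ℕ} (hi : Inv o e x0 x1 x2) :
    Inv o e x2 (x0 + x2 + 2) (x1 + (x0 + x2 + 2) + 4) := by
  obtain ⟨u0, u1, u2, w0, w1, w2, r0, r1, r2, q1, q2, q3, q4⟩ := hi
  have w3 := step0 h w0 w2 r0
  have w4 := step1 h w1 w3 (by omega)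
  exact ⟨u2, x0 + 1, x1 + 2, w2, w3, w4, by omega, by omega, by omega, by omega, by omega,
    by omega, by omega⟩

theorem inv_base (h : Sys o e) : Inv o e 74 109 162 := by
  have ho : ∀ j, j ≤ 166 → o j = To j := fun j hj => (table h j hj).1
  have he : ∀ j, 1 ≤ j → j ≤ 166 → e j = Te j := fun j h1 hj => (table h j hj).2 h1
  refine ⟨23, 34, 51, ?_, ?_, ?_, by norm_num, by norm_num, by norm_num, by norm_num,
    by norm_num, by norm_num, by norm_num⟩
  all_goals
    simp only [W0, W1]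
    simp (disch := omega) only [ho, he]
    decide +kernel

theorem freq (h : Sys o e) (N : ℕ) : ∃ x, N ≤ x ∧ 313 * (2 * x + 1) ≤ 1000 * (2 * o x + 1) := by
  have key : ∀ N : ℕ, ∃ x0 x1 x2, Inv o e x0 x1 x2 ∧ N + 162 ≤ x2 := by
    intro N
    induction N with
    | zero => exact ⟨_, _, _, inv_base h, le_rfl⟩
    | succ N ih =>
      obtain ⟨x0, x1, x2, hi, hN⟩ := ih
      exact ⟨_, _, _, inv_step h hi, by omega⟩
  obtain ⟨x0, x1, x2, ⟨u0, u1, u2, -, -, w2, r0, r1, r2, q1, q2, q3, q4⟩, hN⟩ := key N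
  refine ⟨x2, by omega, ?_⟩
  rw [w2.1]
  omega

def Rec (b : ℕ → ℤ) : Prop :=
  b 1 = 1 ∧ b 2 = 1 ∧ ∀ n, 3 ≤ n → 1 ≤ b (n - 1) → b (n - 1) ≤ (n : ℤ) - 1 →
    b n = b (b (n - 1)).toNat + b ((n : ℤ) - b (n - 1)).toNat + (-1) ^ n

theorem rec_sys {b : ℕ → ℤ} (hb : Rec b) : ∃ o e : ℕ → ℕ, Sys o e ∧
    (∀ j, b (2 * j + 1) = 2 * o j + 1) ∧ ∀ j, 1 ≤ j → b (2 * j) = 2 * e j + 1 := by
  obtain ⟨b1, b2, hr⟩ := hb
  have ev : ∀ j t : ℕ, 1 ≤ j → b (2 * j + 1) = 2 * t + 1 → t ≤ j →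
      b (2 * (j + 1)) = b (2 * t + 1) + b (2 * (j - t) + 1) + 1 := by
    intro j t hj h1 h2
    have := hr (2 * (j + 1)) (by omega)
    rw [show 2 * (j + 1) - 1 = 2 * j + 1 by omega, h1] at this
    rw [this (by omega) (by push_cast; omega), show (2 * (t : ℤ) + 1).toNat = 2 * t + 1 by omega,
      show (((2 * (j + 1) : ℕ) : ℤ) - (2 * t + 1)).toNat = 2 * (j - t) + 1 by omega, pow_mul]
    norm_num
  have od : ∀ j s : ℕ, 1 ≤ j → b (2 * j) = 2 * s + 1 → s + 1 ≤ j →
      b (2 * j + 1) = b (2 * s + 1) + b (2 * (j - s)) - 1 := by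
    intro j s hj h1 h2
    have := hr (2 * j + 1) (by omega)
    rw [show 2 * j + 1 - 1 = 2 * j by omega, h1] at this
    rw [this (by omega) (by push_cast; omega), show (2 * (s : ℤ) + 1).toNat = 2 * s + 1 by omega,
      show (((2 * j + 1 : ℕ) : ℤ) - (2 * s + 1)).toNat = 2 * (j - s) by omega, pow_succ, pow_mul]
    norm_num
    ring
  have key : ∀ j : ℕ, (∃ t : ℕ, b (2 * j + 1) = 2 * t + 1 ∧ t ≤ j - 1) ∧
      (∃ s : ℕ, 1 ≤ j → b (2 * j) = 2 * s + 1 ∧ s + 1 ≤ j) := by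
    intro j
    induction j using Nat.strong_induction_on with
    | _ j ih =>
      rcases Nat.eq_zero_or_pos j with rfl | hj
      · exact ⟨⟨0, by simpa using b1, le_rfl⟩, ⟨0, by simp⟩⟩
      have hs : ∃ s : ℕ, b (2 * j) = 2 * s + 1 ∧ s + 1 ≤ j := by
        rcases Nat.lt_or_ge j 2 with h2 | h2
        · obtain rfl : j = 1 := by omega
          exact ⟨0, by simpa using b2, le_rfl⟩
        · obtain ⟨i, rfl⟩ : ∃ i, j = i + 1 := ⟨j - 1, by omega⟩
          obtain ⟨t, ht, ht2⟩ := (ih i (by omega)).1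
          obtain ⟨t1, k1, l1⟩ := (ih t (by omega)).1
          obtain ⟨t2, k2, l2⟩ := (ih (i - t) (by omega)).1
          refine ⟨t1 + t2 + 1, ?_, by omega⟩
          rw [ev i t (by omega) ht (by omega), k1, k2]
          push_cast
          ring
      obtain ⟨s, hs1, hs2⟩ := hs
      refine ⟨?_, s, fun _ => ⟨hs1, hs2⟩⟩
      obtain ⟨t1, k1, l1⟩ := (ih s (by omega)).1
      have : ∃ s' : ℕ, b (2 * (j - s)) = 2 * s' + 1 ∧ s' + 1 ≤ j - s := by
        rcases Nat.eq_zero_or_pos s with rfl | h0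
        · exact ⟨0, hs1, hs2⟩
        · obtain ⟨s', h'⟩ := (ih (j - s) (by omega)).2
          exact ⟨s', h' (by omega)⟩
      obtain ⟨s', k2, l2⟩ := this
      refine ⟨t1 + s', ?_, by omega⟩
      rw [od j s hj hs1 hs2, k1, k2]
      push_cast
      ring
  choose o ho using fun j => (key j).1
  choose e he using fun j => (key j).2
  refine ⟨o, e, ⟨?_, ?_, fun j => (ho j).2, fun j hj => (he j hj).2, fun j hj => ?_,
    fun j hj => ?_⟩, fun j => (ho j).1, fun j hj => (he j hj).1⟩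
  · have := (ho 0).2; omega
  · have := (he 1 le_rfl).2; omega
  · have h1 := ev j (o j) hj (ho j).1 (by have := (ho j).2; omega)
    rw [(he (j + 1) (by omega)).1, (ho _).1, (ho _).1] at h1
    omega
  · have h2 := (he j hj).2
    have h1 := od j (e j) hj (he j hj).1 h2
    rw [(ho j).1, (ho _).1, (he (j - e j) (by omega)).1] at h1
    omega

theorem guards {b : ℕ → ℤ} (hb : Rec b) (n : ℕ) (hn : 1 ≤ n) : 1 ≤ b n ∧ b n ≤ n := by
  obtain ⟨o, e, h, h1, h2⟩ := rec_sys hb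
  rcases Nat.even_or_odd' n with ⟨j, rfl | rfl⟩
  · have := h.eb j (by omega)
    rw [h2 j (by omega)]
    omega
  · have := h.ob j
    rw [h1 j]
    omega

def b0 (n : ℕ) : ℤ :=
  if h : 3 ≤ n then
    if h' : 1 ≤ b0 (n - 1) ∧ b0 (n - 1) ≤ (n : ℤ) - 1 then
      b0 (b0 (n - 1)).toNat + b0 ((n : ℤ) - b0 (n - 1)).toNat + (-1) ^ n
    else 0
  else 1
termination_by n
decreasing_by all_goals omega

theorem b0_rec : Rec b0 := by
  refine ⟨by rw [b0]; simp, by rw [b0]; simp, fun n hn h1 h2 => ?_⟩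
  rw [b0, dif_pos hn, dif_pos ⟨h1, h2⟩]

end Pool.Agent.H17.ParityConway
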