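import Mathlib

set_option autoImplicit false

namespace Pool.Agent.H17.PartSum

open Finset PowerSeries

def ext {d : ℕ} (l : Fin d → ℕ) (j : ℕ) : ℕ := if h : j < d then l ⟨j, h⟩ else 0

theorem ext_zero {d : ℕ} (k : ℕ) (l : Fin d → ℕ) :
    ext (Fin.cons k l : Fin (d + 1) → ℕ) 0 = k := by simp [ext]

theorem ext_succ {d : ℕ} (k : ℕ) (l : Fin d → ℕ) (j : ℕ) :
    ext (Fin.cons k l : Fin (d + 1) → ℕ) (j + 1) = ext l j := by
  unfold ext
  by_cases h : j < d
  · rw [dif_pos (by omega), dif_pos h]; rfl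
  · rw [dif_neg (by omega), dif_neg h]

noncomputable def F : ℕ → (ℕ → ℚ) → ℚ⟦X⟧
  | 0, _ => 0
  | d + 1, c => C (c 0) * X * (1 + F d fun i => c (i + 1))

theorem split (d n : ℕ) (g : (Fin (d + 1) → ℕ) → ℚ) :
    ∑ l ∈ Nat.antidiagonalTuple (d + 1) n, g l =
      ∑ p ∈ antidiagonal n, ∑ l ∈ Nat.antidiagonalTuple d p.2, g (Fin.cons p.1 l) := by
  rw [sum_sigma']
  refine sum_bij' (fun l _ => ⟨(l 0, ∑ i, Fin.tail l i), Fin.tail l⟩)
    (fun t _ => Fin.cons t.1.1 t.2) ?_ ?_ ?_ ?_ ?_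
  · intro l hl
    rw [Nat.mem_antidiagonalTuple, Fin.sum_univ_succ] at hl
    simp only [mem_sigma, HasAntidiagonal.mem_antidiagonal, Nat.mem_antidiagonalTuple, and_true]
    exact hl
  · rintro ⟨p, l⟩ h
    simp only [mem_sigma, HasAntidiagonal.mem_antidiagonal, Nat.mem_antidiagonalTuple] at h ⊢
    rw [Fin.sum_univ_succ]
    simp only [Fin.cons_zero, Fin.cons_succ]
    omega
  · intro l _
    simp
  · rintro ⟨⟨p1, p2⟩, l⟩ h
    simp only [mem_sigma, HasAntidiagonal.mem_antidiagonal, Nat.mem_antidiagonalTuple] at h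
    simp [h.2]
  · intro l _
    simp

theorem L (K : ℕ) : ∀ (d : ℕ) (c φ : ℕ → ℚ) (n : ℕ), n ≤ K →
    ∑ l ∈ Nat.antidiagonalTuple d n, φ (ext l 0) *
      ∏ i ∈ range d, (((ext l i).choose (ext l (i + 1)) : ℚ) * c i ^ ext l i) =
      ∑ k ∈ range (K + 1), φ k * coeff n (F d c ^ k) := by
  intro d
  induction d with
  | zero =>
    intro c φ n _
    rw [sum_range_succ']
    cases n with
    | zero => simp [F, ext]
    | succ n => simp [F, coeff_one]
  | succ d ih =>
    intro c φ n hn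
    rw [split]
    have e1 : ∀ p ∈ antidiagonal n, ∑ l ∈ Nat.antidiagonalTuple d p.2,
        φ (ext (Fin.cons p.1 l : Fin (d + 1) → ℕ) 0) * ∏ i ∈ range (d + 1),
          (((ext (Fin.cons p.1 l : Fin (d + 1) → ℕ) i).choose
            (ext (Fin.cons p.1 l : Fin (d + 1) → ℕ) (i + 1)) : ℚ) *
            c i ^ ext (Fin.cons p.1 l : Fin (d + 1) → ℕ) i) =
        φ p.1 * (c 0 ^ p.1 * coeff p.2 ((1 + F d fun i => c (i + 1)) ^ p.1)) := by
      intro p hp
      have hp' := mem_antidiagonal.1 hp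
      have h := ih (fun i => c (i + 1)) (fun l => (p.1.choose l : ℚ)) p.2 (by omega)
      have h2 : coeff p.2 ((1 + F d fun i => c (i + 1)) ^ p.1) = ∑ k ∈ range (K + 1),
          (p.1.choose k : ℚ) * coeff p.2 ((F d fun i => c (i + 1)) ^ k) := by
        rw [add_comm (1 : ℚ⟦X⟧), add_pow, map_sum]
        symm
        rw [← sum_subset (range_subset_range.2 (show p.1 + 1 ≤ K + 1 by omega))]
        · refine sum_congr rfl fun k _ => ?_
          rw [one_pow, mul_one, ← map_natCast (C : ℚ →+* ℚ⟦X⟧), coeff_mul_C, mul_comm]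
        · intro k _ hk
          rw [Nat.choose_eq_zero_of_lt (by simpa using hk)]
          simp
      rw [h2, ← h, mul_sum, mul_sum]
      refine sum_congr rfl fun l _ => ?_
      rw [prod_range_succ']
      simp only [ext_zero, ext_succ]
      ring
    rw [sum_congr rfl e1, Nat.sum_antidiagonal_eq_sum_range_succ_mk,
      ← sum_subset (range_subset_range.2 (show n + 1 ≤ K + 1 by omega))]
    · refine sum_congr rfl fun k hk => ?_
      rw [F, mul_pow, mul_pow, ← map_pow, mul_assoc, coeff_C_mul, coeff_X_pow_mul',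
        if_pos (by simpa [Nat.lt_succ_iff] using hk)]
    · intro k _ hk
      rw [F, mul_pow, mul_pow, ← map_pow, mul_assoc, coeff_C_mul, coeff_X_pow_mul',
        if_neg (by simpa [Nat.lt_succ_iff] using hk)]
      simp

noncomputable def G (c : ℕ → ℚ) : ℚ⟦X⟧ := mk fun j => if j = 0 then 0 else ∏ i ∈ range j, c i

theorem G_eq (c : ℕ → ℚ) : G c = C (c 0) * X * (1 + G fun i => c (i + 1)) := by
  ext j
  rw [mul_assoc, coeff_C_mul]
  cases j with
  | zero => simp [G]
  | succ j =>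
    rw [coeff_succ_X_mul, G, coeff_mk, if_neg (by omega), prod_range_succ', map_add, G, coeff_mk,
      coeff_one]
    split_ifs with h
    · simp [h]
    · ring

theorem dvdFG : ∀ (d : ℕ) (c : ℕ → ℚ), (X : ℚ⟦X⟧) ^ (d + 1) ∣ G c - F d c := by
  intro d
  induction d with
  | zero =>
    intro c
    rw [F, G_eq, zero_add, pow_one, sub_zero]
    exact Dvd.dvd.mul_right (Dvd.intro_left _ rfl) _
  | succ d ih =>
    intro c
    obtain ⟨q, hq⟩ := ih fun i => c (i + 1)
    rw [F, G_eq c]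
    exact ⟨C (c 0) * q, by linear_combination (C (c 0) * X) * hq⟩

theorem main (n : ℕ) (c : ℕ → ℚ) (s : ℚ) (Y : ℚ⟦X⟧) (hY : Y * (1 - C s * G c) ^ 2 = 1) :
    ∑ l ∈ Nat.antidiagonalTuple n n, (s ^ ext l 0 * (1 + ext l 0)) *
      ∏ i ∈ range n, (((ext l i).choose (ext l (i + 1)) : ℚ) * c i ^ ext l i) = coeff n Y := by
  rw [L n n c (fun k => s ^ k * (1 + k)) n le_rfl]
  have e : ∀ k, coeff n (F n c ^ k) = coeff n (G c ^ k) := by
    intro k
    have := X_pow_dvd_iff.1 ((dvdFG n c).trans (sub_dvd_pow_sub_pow _ _ k)) n (by omega)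
    rw [map_sub] at this
    linarith
  have geo : ∀ (m : ℕ) (x : ℚ⟦X⟧), (∑ k ∈ range m, (1 + (k : ℚ⟦X⟧)) * x ^ k) * (1 - x) ^ 2 =
      1 - x ^ m * (1 + m - m * x) := by
    intro m x
    induction m with
    | zero => simp
    | succ m ih => rw [sum_range_succ, add_mul, ih]; push_cast; ring
  have h1 := geo (n + 1) (C s * G c)
  have h2 : (X : ℚ⟦X⟧) ^ (n + 1) ∣ (C s * G c) ^ (n + 1) := by
    apply pow_dvd_pow_of_dvd
    rw [G_eq c]
    exact Dvd.dvd.mul_left (Dvd.dvd.mul_right (Dvd.intro_left _ rfl) _) _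
  have h3 : (X : ℚ⟦X⟧) ^ (n + 1) ∣
      Y - ∑ k ∈ range (n + 1), (1 + (k : ℚ⟦X⟧)) * (C s * G c) ^ k := by
    obtain ⟨q, hq⟩ := h2
    refine ⟨Y * q * (1 + (n + 1 : ℕ) - (n + 1 : ℕ) * (C s * G c)), ?_⟩
    rw [hq] at h1
    linear_combination (∑ k ∈ range (n + 1), (1 + (k : ℚ⟦X⟧)) * (C s * G c) ^ k) * hY - Y * h1
  have h4 := X_pow_dvd_iff.1 h3 n (by omega)
  rw [map_sub, map_sum, sub_eq_zero] at h4
  rw [h4]
  refine sum_congr rfl fun k _ => ?_
  rw [e, mul_pow, ← map_pow, ← map_natCast (C : ℚ →+* ℚ⟦X⟧), ← map_one (C : ℚ →+* ℚ⟦X⟧),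
    ← map_add, coeff_C_mul, coeff_C_mul]
  ring

theorem sq (W : ℚ⟦X⟧) (a : ℚ)
    (h : ∀ j : ℕ, coeff (j + 1) W * (j + 1) = (2 * j + a) * coeff j W) (j : ℕ) :
    coeff (j + 1) (W ^ 2) * (j + 1) = (2 * j + 2 * a) * coeff j (W ^ 2) := by
  have key : ∀ (V : ℚ⟦X⟧) (b : ℚ), (1 - C 2 * X) * d⁄dX ℚ V = C b * V ↔
      ∀ j : ℕ, coeff (j + 1) V * (j + 1) = (2 * j + b) * coeff j V := by
    intro V b
    rw [PowerSeries.ext_iff]
    refine forall_congr' fun j => ?_
    rw [sub_mul, one_mul, map_sub, mul_assoc, coeff_C_mul, coeff_C_mul, coeff_derivative]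
    cases j with
    | zero =>
      simp only [coeff_zero_X_mul, Nat.cast_zero]
      constructor <;> intro h <;> linarith
    | succ j =>
      rw [coeff_succ_X_mul, coeff_derivative]
      push_cast
      constructor <;> intro h <;> linarith
  have h1 := (key W a).2 h
  refine (key (W ^ 2) (2 * a)).1 ?_ j
  rw [pow_two, Derivation.leibniz, map_mul, smul_eq_mul, show (C (2 : ℚ) : ℚ⟦X⟧) = 2 from rfl]
  rw [show (C (2 : ℚ) : ℚ⟦X⟧) = 2 from rfl] at h1
  linear_combination (2 * W) * h1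

theorem geom : (mk fun j => (2 : ℚ) ^ j) * (1 - C 2 * X) = 1 := by
  ext j
  rw [mul_sub, mul_one, map_sub, ← mul_assoc]
  cases j with
  | zero => simp
  | succ j => rw [coeff_succ_mul_X, coeff_mul_C, coeff_one]; simp [pow_succ]

theorem idA (c : ℕ → ℚ) (h0 : c 0 = 1) (h : ∀ i : ℕ, c (i + 1) = (2 * i + 1) / (i + 2)) :
    (1 - C 1 * G c) ^ 2 = 1 - C 2 * X := by
  have h1 := sq (1 - C 1 * G c) (-1) (by
    intro j
    rw [map_one, one_mul, map_sub, map_sub, G, coeff_mk, coeff_mk, coeff_one, coeff_one]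
    cases j with
    | zero => simp [h0]
    | succ j =>
      rw [prod_range_succ c (j + 1), h]
      simp only [Nat.add_eq_zero_iff, one_ne_zero, and_false, if_false]
      push_cast
      field_simp
      ring)
  have c0 : coeff 0 ((1 - C 1 * G c) ^ 2) = 1 := by simp [G]
  have c1 : coeff 1 ((1 - C 1 * G c) ^ 2) = -2 := by
    have := h1 0
    rw [c0] at this
    simpa using this
  have c2 : ∀ j, coeff (j + 2) ((1 - C 1 * G c) ^ 2) = 0 := by
    intro j
    induction j with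
    | zero => have := h1 1; simpa using this
    | succ j ih =>
      have := h1 (j + 2)
      rw [ih, mul_zero] at this
      exact (mul_eq_zero.1 this).resolve_right (by positivity)
  ext j
  rcases j with _ | _ | j
  · rw [c0]; simp
  · rw [zero_add, c1]; simp [coeff_one]
  · rw [c2]; simp [coeff_one]

theorem idB (c : ℕ → ℚ) (h : ∀ i : ℕ, c i = (2 * i + 1) / (i + 1)) :
    (1 - C (-1) * G c) ^ 2 = mk fun j => (2 : ℚ) ^ j := by
  have h1 := sq (1 - C (-1) * G c) 1 (by
    intro j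
    rw [map_sub, map_sub, coeff_C_mul, coeff_C_mul, G, coeff_mk, coeff_mk, coeff_one, coeff_one]
    cases j with
    | zero => simp [h]
    | succ j =>
      rw [prod_range_succ c (j + 1), h (j + 1)]
      simp only [Nat.add_eq_zero_iff, one_ne_zero, and_false, if_false]
      push_cast
      field_simp
      ring)
  ext j
  rw [coeff_mk]
  induction j with
  | zero => simp [G]
  | succ j ih =>
    have := h1 j
    rw [ih] at this
    have h2 : (j : ℚ) + 1 ≠ 0 := by positivity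
    apply mul_right_cancel₀ h2
    rw [this]
    ring

theorem filt (n : ℕ) (c : ℕ → ℚ) (φ : ℕ → ℚ) [DecidablePred (Antitone : (Fin n → ℕ) → Prop)] :
    ∑ l ∈ (Nat.antidiagonalTuple n n).filter Antitone, φ (ext l 0) *
      (∏ i ∈ range n, ((ext l i).choose (ext l (i + 1)) : ℚ)) * ∏ i ∈ range n, c i ^ ext l i =
    ∑ l ∈ Nat.antidiagonalTuple n n, φ (ext l 0) *
      ∏ i ∈ range n, (((ext l i).choose (ext l (i + 1)) : ℚ) * c i ^ ext l i) := by
  rw [sum_filter]
  refine sum_congr rfl fun l _ => ?_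
  rw [prod_mul_distrib, mul_assoc]
  split_ifs with h
  · rfl
  · have : ∃ i, i < n ∧ ext l i < ext l (i + 1) := by
      by_contra hc
      push Not at hc
      apply h
      cases n with
      | zero => intro a; exact a.elim0
      | succ n =>
        rw [Fin.antitone_iff_succ_le]
        intro i
        have := hc i (by omega)
        rw [ext, ext, dif_pos (by omega), dif_pos (by omega)] at this
        exact this
    obtain ⟨i, hi, hi2⟩ := this
    rw [prod_eq_zero (mem_range.2 hi) (by rw [Nat.choose_eq_zero_of_lt hi2]; simp)]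
    simp

end Pool.Agent.H17.PartSum
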