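import Mathlib

set_option autoImplicit false

namespace Pool.Agent.H17.Pat

/-- number of (possibly overlapping) occurrences of `v` as a factor of `w` -/
def occ (w v : List Bool) : ℕ :=
  ((List.range (w.length + 1)).filter (fun s => decide (v <+: w.drop s))).length

/-- binary expansion, most significant digit first, no leading zeros -/
def bin (n : ℕ) : List Bool := ((Nat.digits 2 n).map (fun a => decide (a = 1))).reverse

/-- integer represented by a binary word, most significant digit first -/
def val (w : List Bool) : ℕ := Nat.ofDigits 2 (w.reverse.map Bool.toNat)

end Pool.Agent.H17.Pat
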