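import Mathlib

set_option autoImplicit false

namespace Pool.Agent.H17.Perfect

open Finset

section
variable {G : Type} [AddCommGroup G] [DecidableEq G] {s : ℕ} {A : Finset G} {r : G → Finset G}
  (hA : A.card = 2 * s + 1) (r1 : ∀ g, r g ⊆ A) (r2 : ∀ g, (r g).card ≤ s)
  (r3 : ∀ g, ∑ x ∈ r g, x = g)
  (inj : ∀ B C : Finset G, B ⊆ A → B.card ≤ s → C ⊆ A → C.card ≤ s →
    ∑ x ∈ B, x = ∑ x ∈ C, x → B = C)
include r1 r2 r3 inj

theorem disj {B : Finset G} (hB : B ⊆ A) (hc : B.card = s + 1) {x : G} (hx : x ∈ B) :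
    x ∉ r (∑ y ∈ B, y) := by
  intro h
  have e := inj (B.erase x) ((r (∑ y ∈ B, y)).erase x) ((erase_subset _ _).trans hB)
    (by rw [card_erase_of_mem hx]; omega) ((erase_subset _ _).trans (r1 _))
    ((card_erase_le).trans (r2 _)) (by rw [sum_erase_eq_sub hx, sum_erase_eq_sub h, r3])
  have := congrArg card e
  rw [card_erase_of_mem hx, card_erase_of_mem h] at this
  have := r2 (∑ y ∈ B, y)
  have := card_pos.2 ⟨x, h⟩
  omega

include hA in
theorem small {B : Finset G} (hB : B ⊆ A) (hc : B.card = s + 1) {i : G} (hi : i ∈ A) (hi' : i ∉ B)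
    (h : i ∉ r (∑ y ∈ B, y)) : (r (∑ y ∈ B, y)).card + 1 ≤ s := by
  have : r (∑ y ∈ B, y) ⊆ A \ insert i B := fun x hx => mem_sdiff.2 ⟨r1 _ hx, fun h' => by
    rcases mem_insert.1 h' with e | e
    · exact h (e ▸ hx)
    · exact disj r1 r2 r3 inj hB hc e hx⟩
  have := card_le_card this
  rw [card_sdiff_of_subset (insert_subset hi hB), card_insert_of_notMem hi'] at this
  have := card_le_card (insert_subset hi hB)
  rw [card_insert_of_notMem hi'] at this
  omega

include hA in
theorem star {T : Finset G} (hT : T ⊆ A) (hc : T.card = s) {i j : G} (hi : i ∈ A) (hj : j ∈ A)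
    (hi' : i ∉ T) (hj' : j ∉ T) (hij : i ≠ j) (h : j ∉ r (∑ y ∈ insert i T, y)) :
    i ∈ r (∑ y ∈ insert j T, y) := by
  by_contra h'
  have ci : (insert i T).card = s + 1 := by rw [card_insert_of_notMem hi', hc]
  have cj : (insert j T).card = s + 1 := by rw [card_insert_of_notMem hj', hc]
  have e := inj (insert j (r (∑ y ∈ insert i T, y))) (insert i (r (∑ y ∈ insert j T, y)))
    (insert_subset hj (r1 _)) ((card_insert_le _ _).trans (small hA r1 r2 r3 inj
      (insert_subset hi hT) ci hj (by simp [hj', hij.symm]) h))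
    (insert_subset hi (r1 _)) ((card_insert_le _ _).trans (small hA r1 r2 r3 inj
      (insert_subset hj hT) cj hi (by simp [hi', hij]) h'))
    (by rw [sum_insert h, sum_insert h', r3, r3, sum_insert hi', sum_insert hj']; abel)
  rcases mem_insert.1 (e ▸ mem_insert_self _ _ : j ∈ insert i (r (∑ y ∈ insert j T, y))) with e | e
  · exact hij e.symm
  · exact disj r1 r2 r3 inj (insert_subset hj hT) cj (mem_insert_self _ _) e

theorem self_not (hs : 1 ≤ s) {b : G} (hb : b ∈ A) : b ∉ r (b + b) := by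
  intro h
  have e := inj {b} ((r (b + b)).erase b) (by simpa) (by simpa) ((erase_subset _ _).trans (r1 _))
    ((card_erase_le).trans (r2 _)) (by rw [sum_erase_eq_sub h, r3]; simp)
  exact notMem_erase b _ (e ▸ mem_singleton_self b)

theorem lI {B : Finset G} (hB : B ⊆ A) (hc : B.card = s + 1) {b : G} (hb : b ∈ A) (hb' : b ∉ B)
    (h2 : 2 ≤ (r (b + b)).card) (hZ : r (b + b) ⊆ B) : b ∉ r (∑ y ∈ B, y) := by
  intro h
  have hn : b ∉ B \ r (b + b) := fun h => hb' (mem_sdiff.1 h).1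
  have e := inj (insert b (B \ r (b + b))) ((r (∑ y ∈ B, y)).erase b)
    (insert_subset hb (sdiff_subset.trans hB))
    (by rw [card_insert_of_notMem hn, card_sdiff_of_subset hZ]; have := r2 (b + b); omega)
    ((erase_subset _ _).trans (r1 _)) ((card_erase_le).trans (r2 _))
    (by rw [sum_erase_eq_sub h, r3, sum_insert hn, sum_sdiff_eq_sub hZ, r3]; abel)
  exact notMem_erase b _ (e ▸ mem_insert_self b _)

theorem lII {B : Finset G} (hB : B ⊆ A) (hc : B.card = s + 1) {b : G} (hb : b ∈ B)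
    (h1 : 1 ≤ (r (b + b)).card) : ¬ r (b + b) ⊆ r (∑ y ∈ B, y) := by
  intro hZ
  have hn : b ∉ r (∑ y ∈ B, y) \ r (b + b) := fun h =>
    disj r1 r2 r3 inj hB hc hb (mem_sdiff.1 h).1
  have e := inj (insert b (r (∑ y ∈ B, y) \ r (b + b))) (B.erase b)
    (insert_subset (hB hb) (sdiff_subset.trans (r1 _)))
    (by
      rw [card_insert_of_notMem hn, card_sdiff_of_subset hZ]
      have := r2 (∑ y ∈ B, y)
      have := card_le_card hZ
      omega)
    ((erase_subset _ _).trans hB) (by rw [card_erase_of_mem hb]; omega)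
    (by rw [sum_erase_eq_sub hb, sum_insert hn, sum_sdiff_eq_sub hZ, r3, r3]; abel)
  exact notMem_erase b _ (e ▸ mem_insert_self b _)

theorem full {B : Finset G} (hB : B ⊆ A) (hc : B.card = s + 1)
    (h : ∀ i ∈ A, i ∉ B → i ∈ r (∑ y ∈ B, y)) : ∑ y ∈ B, y + ∑ y ∈ B, y = ∑ y ∈ A, y := by
  have : r (∑ y ∈ B, y) = A \ B := by
    ext x
    exact ⟨fun hx => mem_sdiff.2 ⟨r1 _ hx, fun h' => disj r1 r2 r3 inj hB hc h' hx⟩,
      fun hx => h x (mem_sdiff.1 hx).1 (mem_sdiff.1 hx).2⟩
  have e := r3 (∑ y ∈ B, y)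
  rw [this, sum_sdiff_eq_sub hB] at e
  exact (sub_eq_iff_eq_add.1 e).symm

include hA in
theorem swap (hs : 1 ≤ s) {Y : Finset G} (hY : Y ⊆ A) (hc : Y.card ≤ s)
    (h : ∀ B, Y ⊆ B → B ⊆ A → B.card = s + 1 → ∀ i ∈ A, i ∉ B → i ∈ r (∑ y ∈ B, y))
    {i j : G} (hi : i ∈ A) (hj : j ∈ A) (hi' : i ∉ Y) (hj' : j ∉ Y) : i + i = j + j := by
  obtain ⟨W, h1, h2, h3⟩ := exists_subsuperset_card_eq (s := Y) (t := (A.erase i).erase j) (n := s)
    (fun x hx => mem_erase.2 ⟨fun e => hj' (e ▸ hx), mem_erase.2 ⟨fun e => hi' (e ▸ hx), hY hx⟩⟩)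
    hc (by
      have := pred_card_le_card_erase (s := A.erase i) (a := j)
      rw [card_erase_of_mem hi] at this
      omega)
  have key : ∀ k ∈ A, k ∉ W → (k + ∑ y ∈ W, y) + (k + ∑ y ∈ W, y) = ∑ y ∈ A, y := by
    intro k hk hk'
    have hs : insert k W ⊆ A :=
      insert_subset hk (h2.trans ((erase_subset _ _).trans (erase_subset _ _)))
    have hcc : (insert k W).card = s + 1 := by rw [card_insert_of_notMem hk', h3]
    rw [← sum_insert (f := fun y => y) hk']
    exact full r1 r2 r3 inj hs hcc (h _ (h1.trans (subset_insert _ _)) hs hcc)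
  have e := (key i hi fun h => notMem_erase i A (mem_erase.1 (h2 h)).2).trans
    (key j hj fun h => notMem_erase j _ (h2 h)).symm
  calc i + i = (i + ∑ y ∈ W, y) + (i + ∑ y ∈ W, y) - (∑ y ∈ W, y + ∑ y ∈ W, y) := by abel
    _ = j + j := by rw [e]; abel

include hA in
theorem lIII {B : Finset G} (hB : B ⊆ A) (hc : B.card = s + 1) {b : G} (hb : b ∈ B)
    (hs : 1 ≤ s) (h1 : 1 ≤ (r (b + b)).card) (hZ : r (b + b) ⊆ B) :
    ∀ i ∈ A, i ∉ B → i ∈ r (∑ y ∈ B, y) := by
  intro i hi hi'
  have hn := self_not r1 r2 r3 inj hs (hB hb)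
  have gen : ∀ c ∈ B, c ∉ r (∑ y ∈ insert i (B.erase c), y) → i ∈ r (∑ y ∈ B, y) := by
    intro c hc' h
    have := star hA r1 r2 r3 inj ((erase_subset c B).trans hB)
      (by rw [card_erase_of_mem hc']; omega) hi (hB hc') (fun h => hi' (mem_erase.1 h).2)
      (notMem_erase _ _) (fun e => hi' (e ▸ hc')) h
    rwa [insert_erase hc'] at this
  have sub : ∀ c, insert i (B.erase c) ⊆ A := fun c =>
    insert_subset hi ((erase_subset c B).trans hB)
  have crd : ∀ c ∈ B, (insert i (B.erase c)).card = s + 1 := fun c hc' => by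
    rw [card_insert_of_notMem (fun h => hi' (mem_erase.1 h).2), card_erase_of_mem hc']
    omega
  by_cases h2 : 2 ≤ (r (b + b)).card
  · refine gen b hb (lI r1 r2 r3 inj (sub b) (crd b hb) (hB hb) ?_ h2 fun x hx => ?_)
    · simp only [mem_insert, notMem_erase, or_false]
      exact fun e => hi' (e ▸ hb)
    · exact mem_insert_of_mem (mem_erase.2 ⟨fun e => hn (e ▸ hx), hZ hx⟩)
  · obtain ⟨c, e⟩ := card_eq_one.1 (show (r (b + b)).card = 1 by omega)
    have hc' : c ∈ B := hZ (e ▸ mem_singleton_self c)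
    refine gen c hc' fun h => lII r1 r2 r3 inj (sub c) (crd c hc') (b := b) ?_ h1 ?_
    · exact mem_insert_of_mem (mem_erase.2 ⟨fun e' => hn (by rw [e]; simp [e']), hb⟩)
    · rw [e]
      simpa using h

include hA in
theorem exists_two (hs : 1 ≤ s) (h4 : s = 1 → ∀ g : G, g + g + (g + g) = 0)
    (h3 : ∀ g : G, g + g + g = 0 → g = 0) : ∃ a ∈ A, a + a = 0 := by
  by_contra hc
  push Not at hc
  have pos : ∀ b ∈ A, 1 ≤ (r (b + b)).card := fun b hb => by
    by_contra h
    have e := r3 (b + b)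
    rw [card_eq_zero.1 (show (r (b + b)).card = 0 by omega), sum_empty] at e
    exact hc b hb e.symm
  have two : ∀ b ∈ A, 2 ≤ (r (b + b)).card := by
    intro b hb
    by_contra h
    obtain ⟨c, e⟩ := card_eq_one.1 (show (r (b + b)).card = 1 by have := pos b hb; omega)
    have hcA : c ∈ A := r1 _ (e ▸ mem_singleton_self c)
    have ec : c = b + b := by rw [← r3 (b + b), e, sum_singleton]
    have hbc : b ≠ c := fun e' => self_not r1 r2 r3 inj hs hb (by rw [e]; simp [e'])
    by_cases h1 : s = 1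
    · exact hc c hcA (ec ▸ h4 h1 b)
    have hbZ : b ∉ r (c + c) := by
      intro hb'
      have e := inj {b, c} ((r (c + c)).erase b) (insert_subset hb (by simpa))
        (by rw [card_pair hbc]; omega) ((erase_subset _ _).trans (r1 _))
        ((card_erase_le).trans (r2 _))
        (by rw [sum_erase_eq_sub hb', r3, sum_pair hbc]; nth_rw 2 [ec]; abel)
      exact notMem_erase b _ (e ▸ mem_insert_self b _)
    obtain ⟨B, h1, h2, h3⟩ := exists_subsuperset_card_eq (s := {b, c}) (t := A \ r (c + c))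
      (n := s + 1) (insert_subset (mem_sdiff.2 ⟨hb, hbZ⟩)
        (singleton_subset_iff.2 (mem_sdiff.2 ⟨hcA, self_not r1 r2 r3 inj hs hcA⟩)))
      (by rw [card_pair hbc]; omega)
      (by rw [card_sdiff_of_subset (r1 _)]; have := r2 (c + c); omega)
    have hB : B ⊆ A := h2.trans sdiff_subset
    refine lII r1 r2 r3 inj hB h3 (b := c) (h1 (by simp)) (pos c hcA) fun x hx => ?_
    refine lIII hA r1 r2 r3 inj hB h3 (b := b) (h1 (by simp)) hs (pos b hb) ?_ x (r1 _ hx)
      fun h => (mem_sdiff.1 (h2 h)).2 hx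
    rw [e]
    exact singleton_subset_iff.2 (h1 (by simp))
  have hY : ∀ b ∈ A, insert b (r (b + b)) ⊆ A := fun b hb => insert_subset hb (r1 _)
  have cY : ∀ b ∈ A, (insert b (r (b + b))).card = (r (b + b)).card + 1 := fun b hb =>
    card_insert_of_notMem (self_not r1 r2 r3 inj hs hb)
  have pair : ∃ i ∈ A, ∃ j ∈ A, i ≠ j ∧ i + i = j + j := by
    by_cases h : ∀ b ∈ A, (r (b + b)).card = s
    · obtain ⟨i, hi, j, hj, hij⟩ := one_lt_card.1 (show 1 < A.card by omega)
      have six : ∀ b ∈ A, (b + (b + b)) + (b + (b + b)) = ∑ y ∈ A, y := fun b hb => by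
        have := full r1 r2 r3 inj (hY b hb) (by rw [cY b hb, h b hb])
          (lIII hA r1 r2 r3 inj (hY b hb) (by rw [cY b hb, h b hb]) (mem_insert_self _ _) hs
            (pos b hb) (subset_insert _ _))
        rwa [sum_insert (self_not r1 r2 r3 inj hs hb), r3] at this
      refine ⟨i, hi, j, hj, hij, sub_eq_zero.1 (h3 _ ?_)⟩
      rw [← sub_eq_zero.2 ((six i hi).trans (six j hj).symm)]
      abel
    · push Not at h
      obtain ⟨b, hb, h⟩ := h
      have := r2 (b + b)
      obtain ⟨i, hi, j, hj, hij⟩ := one_lt_card.1 (show 1 < (A \ insert b (r (b + b))).card by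
        rw [card_sdiff_of_subset (hY b hb), cY b hb]; omega)
      rw [mem_sdiff] at hi hj
      exact ⟨i, hi.1, j, hj.1, hij, swap hA r1 r2 r3 inj hs (hY b hb) (by rw [cY b hb]; omega)
        (fun B h1 h2 h3 => lIII hA r1 r2 r3 inj h2 h3 (h1 (mem_insert_self _ _)) hs (pos b hb)
          ((subset_insert _ _).trans h1)) hi.1 hj.1 hi.2 hj.2⟩
  obtain ⟨i, hi, j, hj, hij, e⟩ := pair
  obtain ⟨B, h1, h2, h3⟩ := exists_subsuperset_card_eq (s := insert i (r (i + i))) (t := A.erase j)
    (n := s + 1) (insert_subset (mem_erase.2 ⟨hij, hi⟩) fun x hx => mem_erase.2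
      ⟨fun e' => self_not r1 r2 r3 inj hs hj (by rw [← e, ← e']; exact hx), r1 _ hx⟩)
    (by rw [cY i hi]; have := r2 (i + i); omega) (by rw [card_erase_of_mem hj]; omega)
  have hB : B ⊆ A := h2.trans (erase_subset _ _)
  have hjB : j ∉ B := fun h => notMem_erase j A (h2 h)
  exact lI r1 r2 r3 inj hB h3 hj hjB (two j hj) (e ▸ (subset_insert _ _).trans h1)
    (lIII hA r1 r2 r3 inj hB h3 (h1 (mem_insert_self _ _)) hs (pos i hi)
      ((subset_insert _ _).trans h1) j hj hjB)

include hA in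
theorem doubles (hs : 1 ≤ s) {t : G} (ht : t ∈ A) (h2 : t + t = 0) (g : G) :
    g + g = 0 ∨ g + g = t := by
  have sw : ∀ i ∈ A, ∀ j ∈ A, i ≠ t → j ≠ t → i + i = j + j := by
    intro i hi j hj hi' hj'
    refine swap hA r1 r2 r3 inj hs (Y := {t}) (by simpa) (by simpa) ?_ hi hj (by simpa) (by simpa)
    intro B h1 hB hc k hk hk'
    by_contra h
    have htB : t ∈ B := h1 (mem_singleton_self t)
    have hn := disj r1 r2 r3 inj hB hc htB
    have e := inj (insert t (r (∑ y ∈ B, y))) (B.erase t) (insert_subset ht (r1 _))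
      ((card_insert_le _ _).trans (small hA r1 r2 r3 inj hB hc hk hk' h))
      ((erase_subset _ _).trans hB) (by rw [card_erase_of_mem htB]; omega)
      (by rw [sum_insert hn, r3, sum_erase_eq_sub htB, sub_eq_add_neg,
        ← eq_neg_iff_add_eq_zero.2 h2, add_comm])
    exact notMem_erase t _ (e ▸ mem_insert_self t _)
  have one : ∀ i ∈ A, i + i = 0 ∨ i + i = t := by
    intro i hi
    by_cases hi' : i = t
    · exact Or.inl (hi' ▸ h2)
    have : r (i + i) ⊆ {t} := fun x hx => mem_singleton.2 (by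
      by_contra hx'
      exact self_not r1 r2 r3 inj hs (r1 _ hx) (sw x (r1 _ hx) i hi hx' hi' ▸ hx))
    rw [← r3 (i + i)]
    rcases subset_singleton_iff.1 this with e | e <;> simp [e]
  rw [← r3 g]
  refine sum_induction (fun y => y) (fun g => g + g = 0 ∨ g + g = t) ?_ (by simp)
    fun x hx => one x (r1 _ hx)
  intro a b ha hb
  rw [show a + b + (a + b) = a + a + (b + b) by abel]
  rcases ha with e | e <;> rcases hb with e' | e' <;> simp [e, e', h2]

end

theorem elem (V : Type) [AddCommGroup V] [Module (ZMod 2) V] (n : ℕ) (h : Nat.card V = 2 ^ n) :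
    Nonempty (V ≃+ (Fin n → ZMod 2)) := by
  have : Finite V := Nat.finite_of_card_ne_zero (by rw [h]; positivity)
  have e := Module.natCard_eq_pow_finrank (K := ZMod 2) (V := V)
  rw [h, Nat.card_zmod] at e
  have e' : Module.finrank (ZMod 2) V = n := (Nat.pow_right_injective le_rfl e).symm
  exact ⟨(LinearEquiv.ofFinrankEq (R := ZMod 2) V (Fin n → ZMod 2) (by simp [e'])).toAddEquiv⟩

theorem classify (G : Type) [AddCommGroup G] (n : ℕ) (h : Nat.card G = 2 ^ n) (t : G)
    (h2 : t + t = 0) (hd : ∀ g : G, g + g = 0 ∨ g + g = t) :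
    Nonempty (G ≃+ (Fin n → ZMod 2)) ∨ Nonempty (G ≃+ (Fin (n - 2) → ZMod 2) × ZMod 4) := by
  by_cases h0 : ∀ g : G, g + g = 0
  · let _ : Module (ZMod 2) G := AddCommGroup.zmodModule fun g => by rw [two_nsmul, h0]
    exact Or.inl (elem G n h)
  right
  push Not at h0
  obtain ⟨g, hg⟩ := h0
  have gt : g + g = t := (hd g).resolve_left hg
  have t0 : t ≠ 0 := gt ▸ hg
  let V : AddSubgroup G := (nsmulAddMonoidHom 2 : G →+ G).ker
  have mV : ∀ x : G, x ∈ V ↔ x + x = 0 := fun x => by simp [V, two_nsmul]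
  let _ : Module (ZMod 2) V := AddCommGroup.zmodModule fun v => Subtype.ext v.2
  let t' : V := ⟨t, (mV t).2 h2⟩
  obtain ⟨K, hK⟩ := Submodule.exists_isCompl (Submodule.span (ZMod 2) {t'})
  have tK : t' ∉ K := fun h => t0 (congrArg Subtype.val
    (Submodule.disjoint_def.1 hK.disjoint t' (Submodule.mem_span_singleton_self _) h))
  have dec : ∀ v : V, v ∈ K ∨ v - t' ∈ K := by
    intro v
    obtain ⟨a, ha, b, hb, e⟩ := Submodule.mem_sup.1 (hK.sup_eq_top ▸ Submodule.mem_top (x := v))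
    obtain ⟨c, rfl⟩ := Submodule.mem_span_singleton.1 ha
    rcases (by decide : ∀ c : ZMod 2, c = 0 ∨ c = 1) c with rfl | rfl
    · left; rw [← e]; simpa using hb
    · right; rw [← e]; simpa using hb
  let f : ZMod 4 →+ G := ZMod.lift 4 ⟨zmultiplesHom G g, by
    show ((4 : ℕ) : ℤ) • g = 0
    rw [← h2, ← gt]; abel⟩
  have f1 : f 1 = g := by
    have := ZMod.lift_coe 4 (⟨zmultiplesHom G g, by
      show ((4 : ℕ) : ℤ) • g = 0
      rw [← h2, ← gt]; abel⟩ : {f : ℤ →+ G // f (4 : ℕ) = 0}) 1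
    simpa using this
  have f2 : f 2 = t := by rw [show (2 : ZMod 4) = 1 + 1 from rfl, map_add, f1, gt]
  have f3 : f 3 = t + g := by rw [show (3 : ZMod 4) = 2 + 1 from rfl, map_add, f1, f2]
  let F : K × ZMod 4 →+ G := (V.subtype.comp K.toAddSubgroup.subtype).coprod f
  have FF : ∀ (k : K) (m : ZMod 4), F (k, m) = (k : V) + f m := fun _ _ => rfl
  have bij : Function.Bijective F := by
    constructor
    · rw [injective_iff_map_eq_zero]
      rintro ⟨k, m⟩ e
      rw [FF] at e
      have kk := (mV _).1 (k : V).2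
      have e2 : f m + f m = 0 := by
        rw [eq_neg_of_add_eq_zero_right e, ← neg_add, kk, neg_zero]
      rcases (by decide : ∀ m : ZMod 4, m = 0 ∨ m = 1 ∨ m = 2 ∨ m = 3) m with rfl | rfl | rfl | rfl
      · rw [map_zero, add_zero] at e
        exact Prod.ext (Subtype.ext (Subtype.ext e)) rfl
      · exact absurd (f1 ▸ e2) hg
      · refine absurd ?_ tK
        rw [f2] at e
        have : t' = -(k : V) := Subtype.ext (eq_neg_of_add_eq_zero_right e)
        exact this ▸ K.neg_mem k.2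
      · refine absurd ?_ hg
        rw [← e2, f3, add_add_add_comm, h2, zero_add]
    · have sV : ∀ x ∈ V, ∃ k : K, x = F (k, 0) ∨ x = F (k, 2) := fun x hx => by
        rcases dec ⟨x, hx⟩ with h | h
        · exact ⟨⟨_, h⟩, Or.inl (by simp [FF])⟩
        · exact ⟨⟨_, h⟩, Or.inr (by simp [FF, f2, t'])⟩
      intro x
      rcases hd x with h | h
      · obtain ⟨k, e | e⟩ := sV x ((mV x).2 h) <;> exact ⟨_, e.symm⟩
      · obtain ⟨k, e⟩ := sV (x - g) ((mV _).2 (by rw [sub_add_sub_comm, h, gt, sub_self]))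
        have e' : F (0, 1) = g := by simp [FF, f1]
        rcases e with e | e <;> exact ⟨_ + (0, 1), by rw [map_add, ← e, e', sub_add_cancel]⟩
  have cK : Nat.card K * 4 = 2 ^ n := by
    rw [← h, ← Nat.card_eq_of_bijective F bij, Nat.card_prod, Nat.card_zmod]
  have hn : 2 ≤ n := (Nat.pow_dvd_pow_iff_le_right (by norm_num : 1 < 2)).1 ⟨_, by
    rw [← cK, mul_comm]⟩
  obtain ⟨e⟩ := elem K (n - 2) (by
    have : 2 ^ n = 2 ^ (n - 2) * 4 := by rw [show n = n - 2 + 2 by omega, pow_add]; simp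
    omega)
  exact ⟨(AddEquiv.ofBijective F bij).symm.trans (e.prodCongr (AddEquiv.refl _))⟩

end Pool.Agent.H17.Perfect
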