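import Mathlib

set_option autoImplicit false

namespace Pool.Agent.H17.Phi3

open Finset

def C (x m : ℕ) : ℕ := ((Icc 1 x).filter (fun i => Nat.gcd i m = 1)).card

theorem C_one (x : ℕ) : C x 1 = x := by simp [C]

theorem C_step (p m x : ℕ) (hp : p.Prime) (hm : Nat.Coprime p m) :
    C x (p * m) = C x m - C (x / p) m := by
  have h1 : C x m = C x (p * m) + ((Icc 1 x).filter (fun i => Nat.gcd i m = 1 ∧ p ∣ i)).card := by
    unfold C
    rw [← card_filter_add_card_filter_not (s := (Icc 1 x).filter (fun i => Nat.gcd i m = 1))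
      (fun i => ¬ p ∣ i), filter_filter, filter_filter]
    congr 2
    · ext i
      simp only [mem_filter]
      refine and_congr_right fun _ => ?_
      rw [← Nat.coprime_iff_gcd_eq_one, ← Nat.coprime_iff_gcd_eq_one, Nat.coprime_mul_iff_right,
        Nat.coprime_comm (n := i) (m := p), hp.coprime_iff_not_dvd]
      tauto
    · ext i; simp
  have h2 : ((Icc 1 x).filter (fun i => Nat.gcd i m = 1 ∧ p ∣ i)).card = C (x / p) m := by
    unfold C
    symm
    refine card_bij (fun j _ => p * j) ?_ ?_ ?_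
    · intro j hj
      simp only [mem_filter, mem_Icc] at hj ⊢
      refine ⟨⟨Nat.mul_pos hp.pos hj.1.1, ?_⟩, ?_, Dvd.intro _ rfl⟩
      · have := (Nat.le_div_iff_mul_le hp.pos).1 hj.1.2
        rwa [mul_comm]
      · exact Nat.Coprime.mul_left hm hj.2
    · intro a _ b _ h
      exact Nat.eq_of_mul_eq_mul_left hp.pos h
    · rintro i hi
      simp only [mem_filter, mem_Icc] at hi
      obtain ⟨⟨h1, h2⟩, h3, j, rfl⟩ := hi
      refine ⟨j, ?_, rfl⟩
      simp only [mem_filter, mem_Icc]
      refine ⟨⟨Nat.pos_of_mul_pos_left h1, ?_⟩, Nat.Coprime.coprime_mul_left h3⟩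
      rw [Nat.le_div_iff_mul_le hp.pos, mul_comm]; exact h2
  omega

theorem count : C (4125441 / 3) 4125441 = 825088 := by
  have e : 4125441 = 3 * (17 * (23 * (3517 * 1))) := by norm_num
  have p1 : Nat.Prime 3 := by norm_num
  have p2 : Nat.Prime 17 := by norm_num
  have p3 : Nat.Prime 23 := by norm_num
  have p4 : Nat.Prime 3517 := by norm_num
  have s1 := fun x => C_step 3 (17 * (23 * (3517 * 1))) x p1 (by norm_num)
  have s2 := fun x => C_step 17 (23 * (3517 * 1)) x p2 (by norm_num)
  have s3 := fun x => C_step 23 (3517 * 1) x p3 (by norm_num)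
  have s4 := fun x => C_step 3517 1 x p4 (by norm_num)
  have : C (4125441 / 3) (3 * (17 * (23 * (3517 * 1)))) = 825088 := by
    simp only [s1, s2, s3, s4, C_one]
  rwa [← e] at this

end Pool.Agent.H17.Phi3
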