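import Mathlib

set_option autoImplicit false

namespace Pool.Agent.H17.Pisot3

open Finset

theorem exists_re_nonpos (γ : ℂ) (h : γ.im ≠ 0) : ∃ k : ℕ, (γ ^ k).re ≤ 0 := by
  by_contra hn
  push Not at hn
  have h0 : γ ≠ 0 := fun e => h (by simp [e])
  have n0 : 0 < ‖γ‖ := norm_pos_iff.2 h0
  let x : ℕ → ℝ := fun j => (γ ^ 2 ^ j).re / ‖γ‖ ^ 2 ^ j
  have hx : ∀ j, x (j + 1) = 2 * x j ^ 2 - 1 := fun j => by
    have e : (‖γ‖ ^ 2 ^ j) ^ 2 = (γ ^ 2 ^ j).re ^ 2 + (γ ^ 2 ^ j).im ^ 2 := by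
      rw [← norm_pow, Complex.sq_norm, Complex.normSq_apply]; ring
    have : 0 < ‖γ‖ ^ 2 ^ j := by positivity
    simp only [x, pow_succ 2 j, pow_mul]
    rw [sq (γ ^ 2 ^ j), Complex.mul_re]
    field_simp
    linarith
  have x0 : x 0 < 1 := by
    simp only [x, pow_zero, pow_one]
    rw [div_lt_one n0]
    exact (le_abs_self _).trans_lt (Complex.abs_re_lt_norm.2 h)
  have xp : ∀ j, 0 < x j := fun j => div_pos (hn _) (by positivity)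
  have g : ∀ j : ℕ, (j + 1) * (1 - x 0) ≤ 1 - x j := fun j => by
    induction j with
    | zero => simp
    | succ j ih =>
      have := xp j
      have : 0 ≤ (j : ℝ) * (1 - x 0) := mul_nonneg j.cast_nonneg (by linarith)
      rw [hx]; push_cast; nlinarith
  obtain ⟨j, hj⟩ := exists_nat_gt (1 / (1 - x 0))
  rw [div_lt_iff₀ (by linarith)] at hj
  have := g j
  have := xp j
  nlinarith

theorem coord (β : ℝ) (γ : ℂ) (h : γ.im ≠ 0) : ∃ K : ℝ, 0 ≤ K ∧ ∀ x : Fin 3 → ℝ, ∀ i,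
    |x i| ≤ K * ‖(x 0 • 1 + x 1 • (β, γ) + x 2 • (β, γ) ^ 2 : ℝ × ℂ)‖ := by
  let L : (Fin 3 → ℝ) →ₗ[ℝ] ℝ × ℂ :=
    { toFun := fun x => x 0 • 1 + x 1 • (β, γ) + x 2 • (β, γ) ^ 2
      map_add' := fun x y => by simp only [Pi.add_apply, add_smul]; abel
      map_smul' := fun c x => by simp only [Pi.smul_apply, smul_eq_mul, mul_smul, smul_add]; rfl }
  have : LinearMap.ker L = ⊥ := by
    refine LinearMap.ker_eq_bot'.2 fun x hx => ?_
    have a := congrArg Prod.fst hx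
    have b := congrArg (fun z => z.2.re) hx
    have c := congrArg (fun z => z.2.im) hx
    simp [L, sq] at a b c
    have c1 : x 1 = -2 * γ.re * x 2 := by
      apply mul_left_cancel₀ h; linarith
    have c2 : x 2 * ((β - γ.re) ^ 2 + γ.im ^ 2) = 0 := by rw [c1] at a b; linarith
    have c3 : x 2 = 0 := (mul_eq_zero.1 c2).resolve_right (by positivity)
    funext i
    fin_cases i <;> simp_all
  obtain ⟨K, _, hK⟩ := L.exists_antilipschitzWith this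
  refine ⟨K, K.2, fun x i => (norm_le_pi_norm x i).trans ?_⟩
  have := hK.le_mul_dist x 0
  rwa [map_zero, dist_zero_right, dist_zero_right] at this

def Rep (β x : ℝ) (m : ℕ) : Prop :=
  ∃ (k : ℕ) (d : ℕ → ℕ), (∀ j, d j ≤ m) ∧ x = ∑ j ∈ range k, (d j : ℝ) / β ^ (j + 1)

theorem Rep.mono {β x : ℝ} {m m' : ℕ} (h : Rep β x m) (e : m ≤ m') : Rep β x m' := by
  obtain ⟨k, d, h1, h2⟩ := h
  exact ⟨k, d, fun j => (h1 j).trans e, h2⟩

theorem Rep.step {β x : ℝ} {m c : ℕ} (hβ : β ≠ 0) (hc : c ≤ m) (h : Rep β (x * β - c) m) :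
    Rep β x m := by
  obtain ⟨k, d, h1, h2⟩ := h
  refine ⟨k + 1, fun j => Nat.casesOn j c d, fun j => by cases j <;> simp [hc, h1], ?_⟩
  rw [sum_range_succ']
  have : ∑ j ∈ range k, (d j : ℝ) / β ^ (j + 1 + 1) =
      (∑ j ∈ range k, (d j : ℝ) / β ^ (j + 1)) / β := by
    rw [sum_div]; exact sum_congr rfl fun j _ => by rw [pow_succ, div_div]
  simp only [this, ← h2, Nat.rec_zero]
  field_simp; ring

theorem rep_of_mem (β x : ℝ)
    (h : x ∈ AddSubmonoid.closure (Set.range fun j : ℕ => 1 / β ^ (j + 1))) : ∃ m, Rep β x m := by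
  have : ∃ (d : ℕ → ℕ) (k m : ℕ), (∀ j, d j ≤ m) ∧
      ∀ k', k ≤ k' → x = ∑ j ∈ range k', (d j : ℝ) / β ^ (j + 1) := by
    induction h using AddSubmonoid.closure_induction with
    | mem x hx =>
      obtain ⟨j, rfl⟩ := hx
      refine ⟨fun i => if i = j then 1 else 0, j + 1, 1, fun i => by beta_reduce; split_ifs <;> simp,
        fun k hk => ?_⟩
      rw [sum_eq_single j (fun i _ hi => by simp [hi]) (fun hj => by simp at hj; omega)]; simp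
    | zero => exact ⟨0, 0, 0, by simp, by simp⟩
    | add x y _ _ hx hy =>
      obtain ⟨d, k, m, a1, a2⟩ := hx
      obtain ⟨d', k', m', b1, b2⟩ := hy
      refine ⟨d + d', max k k', m + m', fun j => add_le_add (a1 j) (b1 j), fun l hl => ?_⟩
      rw [a2 l (by omega), b2 l (by omega), ← sum_add_distrib]
      exact sum_congr rfl fun j _ => by simp [add_div]
  obtain ⟨d, k, m, a1, a2⟩ := this
  exact ⟨m, k, d, a1, a2 k le_rfl⟩

theorem main (a b : ℤ) (β : ℝ) (γ : ℂ) (h1 : 1 < β) (hβ : β ^ 3 - a * β ^ 2 - b * β - 1 = 0)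
    (hγ : γ ^ 3 - a * γ ^ 2 - b * γ - 1 = 0) (him : γ.im ≠ 0) (hn : ‖γ‖ < 1) :
    ∃ m, ∀ x ∈ Subring.closure {β}, 0 ≤ x → x < 1 → Rep β x m := by
  obtain ⟨ω, hω⟩ : ∃ ω : ℝ × ℂ, ω = (β, γ) := ⟨_, rfl⟩
  have w1 : ω.1 = β := by rw [hω]
  have w2 : ω.2 = γ := by rw [hω]
  have w3 : ω ^ 3 = a * ω ^ 2 + b * ω + 1 := by
    ext <;> simp [w1, w2]
    · linear_combination hβ
    · linear_combination hγ
  let Λ : Set (ℝ × ℂ) := {z | ∃ x y w : ℤ, z = x + y * ω + w * ω ^ 2}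
  have Λadd : ∀ z ∈ Λ, ∀ z' ∈ Λ, ∀ c : ℤ, z + c * z' ∈ Λ := by
    rintro _ ⟨x, y, w, rfl⟩ _ ⟨x', y', w', rfl⟩ c
    exact ⟨x + c * x', y + c * y', w + c * w', by push_cast; ring⟩
  have Λω : ∀ z ∈ Λ, z * ω ∈ Λ := by
    rintro _ ⟨x, y, w, rfl⟩
    exact ⟨w, x + w * b, y + w * a, by push_cast; linear_combination (w : ℝ × ℂ) * w3⟩
  have Λp : ∀ z ∈ Λ, ∀ n : ℕ, z * ω ^ n ∈ Λ := fun z hz n => by
    induction n with
    | zero => simpa
    | succ n ih => rw [pow_succ, ← mul_assoc]; exact Λω _ ih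
  have Λ0 : (0 : ℝ × ℂ) ∈ Λ := ⟨0, 0, 0, by simp⟩
  have Λ1 : (1 : ℝ × ℂ) ∈ Λ := ⟨1, 0, 0, by simp⟩
  have lift : ∀ x ∈ Subring.closure {β}, ∃ z ∈ Λ, z.1 = x := by
    intro x hx
    induction hx using Subring.closure_induction with
    | mem x hx => exact ⟨ω, ⟨0, 1, 0, by simp⟩, by rw [w1, hx]⟩
    | zero => exact ⟨0, Λ0, rfl⟩
    | one => exact ⟨1, Λ1, rfl⟩
    | add x y _ _ hx hy =>
      obtain ⟨z, a1, rfl⟩ := hx
      obtain ⟨z', b1, rfl⟩ := hy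
      exact ⟨_, Λadd z a1 z' b1 1, by simp⟩
    | neg x _ hx =>
      obtain ⟨z, a1, rfl⟩ := hx
      exact ⟨_, Λadd 0 Λ0 z a1 (-1), by simp⟩
    | mul x y _ _ hx hy =>
      obtain ⟨z, a1, rfl⟩ := hx
      obtain ⟨_, ⟨x, y, w, rfl⟩, rfl⟩ := hy
      refine ⟨_, Λadd _ (Λadd _ (Λadd 0 Λ0 z a1 x) _ (Λp z a1 1) y) _ (Λp z a1 2) w, ?_⟩
      simp; ring
  obtain ⟨K, K0, hK⟩ := coord β γ him
  rw [← hω] at hK
  have hK' : ∀ x y w : ℝ, ∀ z : ℝ × ℂ, z = x • 1 + y • ω + w • ω ^ 2 →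
      |x| ≤ K * ‖z‖ ∧ |y| ≤ K * ‖z‖ ∧ |w| ≤ K * ‖z‖ := fun x y w z e =>
    e ▸ ⟨hK ![x, y, w] 0, hK ![x, y, w] 1, hK ![x, y, w] 2⟩
  have b0 : 0 < β := by linarith
  have pos : ∀ z ∈ Λ, 0 ≤ z.1 → ∃ m, Rep β z.1 m := by
    intro z hz z0
    rcases eq_or_lt_of_le z0 with e | z0
    · exact ⟨0, 0, 0, by simp, by simp [← e]⟩
    obtain ⟨k, hk⟩ := exists_re_nonpos γ him
    obtain ⟨A, hA⟩ : ∃ A, A = -2 * (γ ^ k).re := ⟨_, rfl⟩
    obtain ⟨B, hB⟩ : ∃ B, B = Complex.normSq (γ ^ k) := ⟨_, rfl⟩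
    have A0 : 0 ≤ A := by linarith
    have B0 : 0 < B := hB ▸ Complex.normSq_pos.2 (pow_ne_zero _ fun e => him (by simp [e]))
    have P0 : γ ^ k * γ ^ k + A * γ ^ k + B = 0 := by
      rw [hA, hB, Complex.normSq_apply]
      apply Complex.ext <;> simp <;> ring
    obtain ⟨P, hP⟩ : ∃ P, P = (1 + β + β ^ 2) * (β ^ k * β ^ k + A * β ^ k + B) := ⟨_, rfl⟩
    have Pp : 0 < P := by rw [hP]; positivity
    obtain ⟨s, hs⟩ : ∃ s, s = (1 + ω + ω ^ 2) * ω ^ k := ⟨_, rfl⟩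
    obtain ⟨C, hC⟩ : ∃ C, C = ‖z.2‖ + ‖s * ω ^ k‖ + ‖s‖ := ⟨_, rfl⟩
    obtain ⟨N, hN1, hN2⟩ := (((tendsto_pow_atTop_atTop_of_one_lt h1).eventually_ge_atTop
      (K * C * P / (z.1 * B))).and (Filter.eventually_ge_atTop (2 * k + 3))).exists
    obtain ⟨t, ht⟩ : ∃ t, t = z.1 * β ^ N / P := ⟨_, rfl⟩
    have t0 : 0 ≤ t := by rw [ht]; positivity
    have t1 : K * C ≤ t * B := by
      rw [div_le_iff₀ (by positivity)] at hN1
      rw [ht, div_mul_eq_mul_div, le_div_iff₀ Pp]; linarith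
    have sΛ : s ∈ Λ := hs ▸ Λp _ ⟨1, 1, 1, by simp⟩ k
    obtain ⟨x, y, w, e⟩ := Λadd _ (Λadd _ (Λp z hz N) _ (Λp s sΛ k) (-⌊t⌋₊)) _ sΛ (-⌊t * A⌋₊)
    have e2 : ((0, z.2 * γ ^ N) : ℝ × ℂ) + (t - ⌊t⌋₊) • (s * ω ^ k) + (t * A - ⌊t * A⌋₊) • s =
        (x - t * B) • 1 + (y - t * B) • ω + (w - t * B) • ω ^ 2 := by
      have e1 := congrArg Prod.fst e
      have e3 := congrArg Prod.snd e
      have tP : t * P = z.1 * β ^ N := by rw [ht]; field_simp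
      ext <;> simp [hs, w1, w2] at e1 e3 ⊢
      · linear_combination e1 + tP - t * hP
      · linear_combination e3 + t * (1 + γ + γ ^ 2) * P0
    have nb : ‖((0, z.2 * γ ^ N) : ℝ × ℂ) + (t - ⌊t⌋₊) • (s * ω ^ k) +
        (t * A - ⌊t * A⌋₊) • s‖ ≤ C := by
      have f : ∀ r : ℝ, 0 ≤ r → ∀ v : ℝ × ℂ, ‖(r - ⌊r⌋₊) • v‖ ≤ ‖v‖ := fun r r0 v => by
        rw [norm_smul]
        refine mul_le_of_le_one_left (norm_nonneg _) (abs_le.2 ⟨?_, ?_⟩)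
        · linarith [Nat.floor_le r0]
        · linarith [Nat.lt_floor_add_one r]
      have g : ‖((0, z.2 * γ ^ N) : ℝ × ℂ)‖ ≤ ‖z.2‖ := by
        simp only [Prod.norm_mk, norm_zero, norm_mul, norm_pow]
        exact max_le (norm_nonneg _) (mul_le_of_le_one_right (norm_nonneg _)
          (pow_le_one₀ (norm_nonneg _) hn.le))
      rw [hC]
      exact norm_add₃_le.trans (add_le_add (add_le_add g (f t t0 _)) (f _ (by positivity) _))
    obtain ⟨c1, c2, c3⟩ := hK' _ _ _ _ e2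
    have c4 := mul_le_mul_of_nonneg_left nb K0
    obtain ⟨x, rfl⟩ := Int.eq_ofNat_of_zero_le
      (show 0 ≤ x by exact_mod_cast (by linarith [(abs_le.1 c1).1] : (0 : ℝ) ≤ x))
    obtain ⟨y, rfl⟩ := Int.eq_ofNat_of_zero_le
      (show 0 ≤ y by exact_mod_cast (by linarith [(abs_le.1 c2).1] : (0 : ℝ) ≤ y))
    obtain ⟨w, rfl⟩ := Int.eq_ofNat_of_zero_le
      (show 0 ≤ w by exact_mod_cast (by linarith [(abs_le.1 c3).1] : (0 : ℝ) ≤ w))
    apply rep_of_mem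
    have m : ∀ c i : ℕ, i < N → (c : ℝ) * β ^ i / β ^ N ∈
        AddSubmonoid.closure (Set.range fun j : ℕ => 1 / β ^ (j + 1)) := fun c i hi => by
      obtain ⟨j, rfl⟩ := Nat.exists_eq_add_of_lt hi
      have : (c : ℝ) * β ^ i / β ^ (i + j + 1) = c • (1 / β ^ (j + 1)) := by
        rw [nsmul_eq_mul]; field_simp; ring
      rw [this]
      exact nsmul_mem (AddSubmonoid.subset_closure (Set.mem_range_self j)) c
    have e1 := congrArg Prod.fst e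
    simp [hs, w1] at e1
    have : z.1 = x * β ^ 0 / β ^ N + y * β ^ 1 / β ^ N + w * β ^ 2 / β ^ N +
        ⌊t⌋₊ * β ^ (2 * k) / β ^ N + ⌊t⌋₊ * β ^ (2 * k + 1) / β ^ N +
        ⌊t⌋₊ * β ^ (2 * k + 2) / β ^ N + ⌊t * A⌋₊ * β ^ k / β ^ N +
        ⌊t * A⌋₊ * β ^ (k + 1) / β ^ N + ⌊t * A⌋₊ * β ^ (k + 2) / β ^ N := by
      field_simp
      linear_combination e1
    rw [this]
    repeat' apply add_mem
    all_goals exact m _ _ (by omega)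
  obtain ⟨R, hR⟩ : ∃ R, R = β / (1 - ‖γ‖) + 1 := ⟨_, rfl⟩
  have ρ0 : 0 < 1 - ‖γ‖ := by linarith
  have R1 : (1 - ‖γ‖) * R = β + (1 - ‖γ‖) := by rw [hR]; field_simp
  have R2 : 1 ≤ R := by
    have : 0 < β / (1 - ‖γ‖) := by positivity
    linarith
  have fin : {z | z ∈ Λ ∧ 0 ≤ z.1 ∧ z.1 < 1 ∧ ‖z.2‖ ≤ R}.Finite := by
    have I := Set.finite_Icc (-⌈K * R⌉) ⌈K * R⌉
    refine ((I.prod (I.prod I)).image
      (fun v : ℤ × ℤ × ℤ => (v.1 : ℝ × ℂ) + v.2.1 * ω + v.2.2 * ω ^ 2)).subset ?_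
    rintro z ⟨⟨x, y, w, e⟩, z0, z1, z2⟩
    obtain ⟨c1, c2, c3⟩ := hK' x y w z (by rw [e]; ext <;> simp)
    have nz : ‖z‖ ≤ R := max_le (by rw [Real.norm_of_nonneg z0]; linarith) z2
    have c4 := (mul_le_mul_of_nonneg_left nz K0).trans (Int.le_ceil _)
    have f : ∀ x : ℤ, |(x : ℝ)| ≤ K * ‖z‖ → x ∈ Set.Icc (-⌈K * R⌉) ⌈K * R⌉ := fun x h =>
      abs_le.1 (by exact_mod_cast h.trans c4)
    exact ⟨⟨x, y, w⟩, ⟨f x c1, f y c2, f w c3⟩, e.symm⟩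
  choose! μ hμ using pos
  obtain ⟨m, hm⟩ := (fin.image μ).bddAbove
  have key : ∀ n : ℕ, ∀ z ∈ Λ, 0 ≤ z.1 → z.1 < 1 → ‖z.2‖ ≤ R + n * (1 - ‖γ‖) →
      Rep β z.1 (m + ⌊β⌋₊) := by
    intro n
    induction n with
    | zero =>
      intro z hz z0 z1 z2
      exact (hμ z hz z0).mono ((hm ⟨z, ⟨hz, z0, z1, by simpa using z2⟩, rfl⟩).trans (by omega))
    | succ n ih =>
      intro z hz z0 z1 z2
      by_cases c : ‖z.2‖ ≤ R
      · exact (hμ z hz z0).mono ((hm ⟨z, ⟨hz, z0, z1, c⟩, rfl⟩).trans (by omega))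
      have p0 : 0 ≤ z.1 * β := by positivity
      have p1 : z.1 * β ≤ β := by nlinarith
      have f1 := Nat.floor_le p0
      have f2 := Nat.lt_floor_add_one (z.1 * β)
      have := ih _ (Λadd _ (Λω z hz) 1 Λ1 (-⌊z.1 * β⌋₊)) (by simp [w1]; linarith)
        (by simp [w1]; linarith) (by
          have : (z * ω + ((-⌊z.1 * β⌋₊ : ℤ) : ℝ × ℂ) * 1).2 = z.2 * γ - ⌊z.1 * β⌋₊ := by
            simp [w2]; ring
          rw [this]
          have := norm_sub_le (z.2 * γ) (⌊z.1 * β⌋₊ : ℂ)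
          rw [norm_mul, Complex.norm_natCast] at this
          push_cast at z2
          nlinarith)
      refine Rep.step b0.ne' (c := ⌊z.1 * β⌋₊) ((Nat.floor_le_floor p1).trans (by omega)) ?_
      convert this using 1
      simp [w1]; ring
  refine ⟨m + ⌊β⌋₊, fun x hx x0 x1 => ?_⟩
  obtain ⟨z, hz, rfl⟩ := lift x hx
  obtain ⟨n, hn⟩ := exists_nat_ge (‖z.2‖ / (1 - ‖γ‖))
  rw [div_le_iff₀ ρ0] at hn
  exact key n z hz x0 x1 (by linarith)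

end Pool.Agent.H17.Pisot3
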