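import Mathlib

set_option autoImplicit false

namespace Pool.Agent.H17.QInv

open Finset

variable {K : Type} [Field K]

def P (Q : K) (a d : ℕ) : K := ∏ l ∈ range d, (1 - Q ^ (a + l))

def G (Q : K) (i d r : ℕ) : K := Q ^ (i * r) * P Q (r + 1) d * P Q i d / P Q 1 d

def H (Q : K) (i d r : ℕ) : K := Q ^ (i * r) * P Q r d * P Q (i + 1) d / P Q 1 d

theorem P_succ (Q : K) (a d : ℕ) : P Q a (d + 1) = P Q a d * (1 - Q ^ (a + d)) := by
  simp [P, prod_range_succ]

theorem P_succ' (Q : K) (a d : ℕ) : P Q a (d + 1) = (1 - Q ^ a) * P Q (a + 1) d := by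
  rw [P, prod_range_succ', P, mul_comm]
  congr 1
  exact prod_congr rfl fun l _ => by rw [show a + (l + 1) = a + 1 + l by ring]

theorem P_zero (Q : K) (a : ℕ) : P Q a 0 = 1 := by simp [P]

theorem P_zero' (Q : K) (d : ℕ) : P Q 0 (d + 1) = 0 := by simp [P_succ']

theorem P_ne {Q : K} (hQ : ∀ m, 1 ≤ m → 1 - Q ^ m ≠ 0) (d : ℕ) : P Q 1 d ≠ 0 :=
  prod_ne_zero_iff.2 fun l _ => hQ _ (by omega)

theorem P_shift (Q : K) (a d : ℕ) :
    (1 - Q ^ a) * P Q (a + 1) d = P Q a d * (1 - Q ^ (a + d)) := by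
  rw [← P_succ', P_succ]

theorem key {Q : K} (hQ : ∀ m, 1 ≤ m → 1 - Q ^ m ≠ 0) (i d r : ℕ) :
    G Q i (d + 1) r + H Q i d (r + 1) = H Q i (d + 1) r + G Q (i + 1) d r := by
  have h1 := P_ne hQ d
  have h2 := hQ (1 + d) (by omega)
  unfold G H
  rw [P_succ Q (r + 1) d, P_succ' Q i d, P_succ Q 1 d, P_succ' Q r d, P_succ Q (i + 1) d]
  field_simp
  ring

theorem tele {Q : K} (hQ : ∀ m, 1 ≤ m → 1 - Q ^ m ≠ 0) (r D : ℕ) : ∀ i : ℕ,
    G Q i (D + 1) r + ∑ p ∈ antidiagonal D, H Q (i + p.1) p.2 (r + 1) =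
      ∑ p ∈ antidiagonal (D + 1), H Q (i + p.1) p.2 r := by
  induction D with
  | zero =>
    intro i
    have := key hQ i 0 r
    rw [Nat.sum_antidiagonal_succ]
    simp only [Nat.antidiagonal_zero, sum_singleton, add_zero, zero_add] at this ⊢
    rw [this]
    simp [G, H, P]
  | succ D ih =>
    intro i
    have h1 := key hQ i (D + 1) r
    have h2 := ih (i + 1)
    rw [Nat.sum_antidiagonal_succ (n := D), Nat.sum_antidiagonal_succ (n := D + 1)]
    simp only [add_zero]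
    have e1 : ∀ (s : Finset (ℕ × ℕ)) (ρ : ℕ), ∑ p ∈ s, H Q (i + (p.1 + 1)) p.2 ρ =
        ∑ p ∈ s, H Q (i + 1 + p.1) p.2 ρ := fun s ρ =>
      sum_congr rfl fun p _ => by rw [show i + (p.1 + 1) = i + 1 + p.1 by ring]
    rw [e1, e1, ← h2]
    linear_combination h1

theorem L1 {Q : K} (hQ : ∀ m, 1 ≤ m → 1 - Q ^ m ≠ 0) (i D : ℕ) : ∀ r : ℕ,
    ∑ p ∈ antidiagonal D, G Q i p.1 (p.2 + r) = ∑ p ∈ antidiagonal D, H Q (i + p.1) p.2 r := by
  induction D with
  | zero => intro r; simp [G, H, P]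
  | succ D ih =>
    intro r
    rw [← tele hQ r D i, ← ih (r + 1), Nat.sum_antidiagonal_succ']
    simp only [zero_add]
    congr 1
    exact sum_congr rfl fun p _ => by rw [show p.2 + 1 + r = p.2 + (r + 1) by ring]

theorem base {Q : K} (hQ : ∀ m, 1 ≤ m → 1 - Q ^ m ≠ 0) (i D : ℕ) :
    ∑ p ∈ antidiagonal D, G Q i p.1 p.2 = 1 := by
  have := L1 hQ i D 0
  simp only [add_zero] at this
  rw [this]
  cases D with
  | zero => simp [H, P]
  | succ D =>
    rw [Nat.sum_antidiagonal_succ']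
    simp [H, P_zero, P_zero']

theorem assoc (m : ℕ) (F : ℕ → ℕ → ℕ → K) :
    ∑ p ∈ antidiagonal m, ∑ s ∈ antidiagonal p.2, F p.1 s.1 s.2 =
      ∑ p ∈ antidiagonal m, ∑ s ∈ antidiagonal p.1, F s.1 s.2 p.2 := by
  rw [sum_sigma', sum_sigma']
  refine sum_bij' (fun t _ => ⟨(t.1.1 + t.2.1, t.2.2), (t.1.1, t.2.1)⟩)
    (fun t _ => ⟨(t.2.1, t.2.2 + t.1.2), (t.2.2, t.1.2)⟩) ?_ ?_ ?_ ?_ ?_
  · rintro ⟨⟨a, b⟩, ⟨c, d⟩⟩ h
    simp only [mem_sigma, HasAntidiagonal.mem_antidiagonal] at h ⊢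
    exact ⟨by omega, trivial⟩
  · rintro ⟨⟨a, b⟩, ⟨c, d⟩⟩ h
    simp only [mem_sigma, HasAntidiagonal.mem_antidiagonal] at h ⊢
    exact ⟨by omega, trivial⟩
  · rintro ⟨⟨a, b⟩, ⟨c, d⟩⟩ h
    simp only [mem_sigma, HasAntidiagonal.mem_antidiagonal] at h
    simp [h.2]
  · rintro ⟨⟨a, b⟩, ⟨c, d⟩⟩ h
    simp only [mem_sigma, HasAntidiagonal.mem_antidiagonal] at h
    simp [h.2]
  · rintro ⟨⟨a, b⟩, ⟨c, d⟩⟩ _
    rfl

/- letters: 0 = x, 1 = y, 2 = z -/
def wA (Q : K) (u : Fin 3) (p ρ : ℕ) : K :=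
  if u = 0 then Q ^ p / (1 - Q ^ p) else if u = 1 then 1 / (1 - Q ^ ρ)
  else Q ^ p / (1 - Q ^ p) + 1 / (1 - Q ^ ρ)

def wB (Q : K) (u : Fin 3) (p ρ : ℕ) : K :=
  if u = 0 then 1 / (1 - Q ^ p) else if u = 1 then Q ^ ρ / (1 - Q ^ ρ)
  else 1 / (1 - Q ^ p) + Q ^ ρ / (1 - Q ^ ρ)

def ex (u : Fin 3) : ℕ := if u = 0 then 1 else 0

def ey (u : Fin 3) : ℕ := if u = 1 then 1 else 0

theorem inter {Q : K} (hQ : ∀ m, 1 ≤ m → 1 - Q ^ m ≠ 0) (u : Fin 3) (i d r : ℕ)
    (hi : 1 ≤ i + ey u) (hr : 1 ≤ r + ex u) :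
    wA Q u (i + ey u) (d + (r + ex u)) * G Q (i + ey u) d r =
      wB Q u (i + d + ey u) (r + ex u) * H Q i d (r + ex u) := by
  have h1 := P_ne hQ d
  have s1 := P_shift Q i d
  have s2 := P_shift Q r d
  fin_cases u
  · simp only [ex, ey, wA, wB, G, H] at hi hr ⊢
    simp at hi hr ⊢
    have a1 := hQ i hi
    have a2 := hQ (i + d) (by omega)
    have : P Q (i + 1) d = P Q i d * (1 - Q ^ (i + d)) / (1 - Q ^ i) := by
      rw [← s1]; field_simp
    rw [this]
    field_simp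
    ring
  · simp only [ex, ey, wA, wB, G, H] at hi hr ⊢
    simp at hi hr ⊢
    have a1 := hQ r hr
    have a2 := hQ (d + r) (by omega)
    have : P Q (r + 1) d = P Q r d * (1 - Q ^ (r + d)) / (1 - Q ^ r) := by
      rw [← s2]; field_simp
    rw [this, add_comm r d]
    field_simp
    ring
  · simp only [ex, ey, wA, wB, G, H] at hi hr ⊢
    simp at hi hr ⊢
    have a1 := hQ r hr
    have a2 := hQ (d + r) (by omega)
    have a3 := hQ i hi
    have a4 := hQ (i + d) (by omega)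
    have e1 : P Q (r + 1) d = P Q r d * (1 - Q ^ (r + d)) / (1 - Q ^ r) := by
      rw [← s2]; field_simp
    have e2 : P Q (i + 1) d = P Q i d * (1 - Q ^ (i + d)) / (1 - Q ^ i) := by
      rw [← s1]; field_simp
    rw [e1, e2, add_comm r d]
    field_simp
    ring

def cx {k : ℕ} (u : Fin k → Fin 3) : ℕ := ∑ j, ex (u j)

def Phi (w : Fin 3 → ℕ → ℕ → K) : (k : ℕ) → (Fin k → Fin 3) → ℕ → ℕ → K
  | 0, _, _, _ => 1
  | k + 1, u, i, m => ∑ p ∈ antidiagonal m,
      w (u 0) (i + p.1 + ey (u 0)) (p.2 + cx u) * Phi w k (Fin.tail u) (i + p.1 + ey (u 0)) p.2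

theorem main {Q : K} (hQ : ∀ m, 1 ≤ m → 1 - Q ^ m ≠ 0) : ∀ (k : ℕ) (u : Fin k → Fin 3) (i m : ℕ),
    (∀ j : Fin k, j.val + 1 = k → u j = 0) → (1 ≤ i ∨ ∀ j : Fin k, j.val = 0 → u j = 1) →
    Phi (wA Q) k u i m =
      ∑ p ∈ antidiagonal m, Phi (wB Q) k u (i + p.1) p.2 * G Q i p.1 (p.2 + cx u) := by
  intro k
  induction k with
  | zero =>
    intro u i m _ _
    simp [Phi, cx, base hQ]
  | succ k ih =>
    intro u i m h1 h2
    have hc : cx u = cx (Fin.tail u) + ex (u 0) := by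
      rw [cx, Fin.sum_univ_succ, add_comm]; rfl
    have hc1 : 1 ≤ cx u := by
      have := single_le_sum (f := fun j => ex (u j)) (fun _ _ => Nat.zero_le _)
        (mem_univ (Fin.last k))
      rw [h1 (Fin.last k) (by simp)] at this
      exact this
    have hi : 1 ≤ i + ey (u 0) := by
      rcases h2 with h | h
      · omega
      · rw [h 0 rfl]; simp [ey]
    have hL : Phi (wA Q) (k + 1) u i m = ∑ p ∈ antidiagonal m, ∑ s ∈ antidiagonal p.2,
        (wB Q (u 0) (i + (p.1 + s.1) + ey (u 0)) (s.2 + cx u) *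
          Phi (wB Q) k (Fin.tail u) (i + (p.1 + s.1) + ey (u 0)) s.2) *
            H Q (i + p.1) s.1 (s.2 + cx u) := by
      rw [Phi]
      refine sum_congr rfl fun p _ => ?_
      rw [ih (Fin.tail u) _ _ (fun j hj => h1 j.succ (by simp [hj])) (Or.inl (by omega)), mul_sum]
      refine sum_congr rfl fun s hs => ?_
      have hs' := mem_antidiagonal.1 hs
      have := inter hQ (u 0) (i + p.1) s.1 (s.2 + cx (Fin.tail u)) (by omega) (by omega)
      rw [show s.2 + cx (Fin.tail u) + ex (u 0) = s.2 + cx u by omega,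
        show s.1 + (s.2 + cx u) = p.2 + cx u by omega] at this
      rw [show i + p.1 + ey (u 0) + s.1 = i + (p.1 + s.1) + ey (u 0) by ring,
        show i + (p.1 + s.1) = i + p.1 + s.1 by ring]
      linear_combination (Phi (wB Q) k (Fin.tail u) (i + p.1 + s.1 + ey (u 0)) s.2) * this
    have hR : ∑ p ∈ antidiagonal m, Phi (wB Q) (k + 1) u (i + p.1) p.2 * G Q i p.1 (p.2 + cx u) =
        ∑ p ∈ antidiagonal m, ∑ s ∈ antidiagonal p.2,
        (wB Q (u 0) (i + (p.1 + s.1) + ey (u 0)) (s.2 + cx u) *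
          Phi (wB Q) k (Fin.tail u) (i + (p.1 + s.1) + ey (u 0)) s.2) *
            G Q i p.1 (s.1 + (s.2 + cx u)) := by
      refine sum_congr rfl fun p _ => ?_
      rw [Phi, sum_mul]
      refine sum_congr rfl fun s hs => ?_
      have hs' := mem_antidiagonal.1 hs
      rw [show s.1 + (s.2 + cx u) = p.2 + cx u by omega, add_assoc i p.1 s.1]
    rw [hL, hR,
      assoc m (fun e d c => (wB Q (u 0) (i + (e + d) + ey (u 0)) (c + cx u) *
          Phi (wB Q) k (Fin.tail u) (i + (e + d) + ey (u 0)) c) * H Q (i + e) d (c + cx u)),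
      assoc m (fun e d c => (wB Q (u 0) (i + (e + d) + ey (u 0)) (c + cx u) *
          Phi (wB Q) k (Fin.tail u) (i + (e + d) + ey (u 0)) c) * G Q i e (d + (c + cx u)))]
    refine sum_congr rfl fun p _ => ?_
    have e : ∀ T : ℕ → ℕ → K, ∑ s ∈ antidiagonal p.1,
        (wB Q (u 0) (i + (s.1 + s.2) + ey (u 0)) (p.2 + cx u) *
          Phi (wB Q) k (Fin.tail u) (i + (s.1 + s.2) + ey (u 0)) p.2) * T s.1 s.2 =
        (wB Q (u 0) (i + p.1 + ey (u 0)) (p.2 + cx u) *
          Phi (wB Q) k (Fin.tail u) (i + p.1 + ey (u 0)) p.2) *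
            ∑ s ∈ antidiagonal p.1, T s.1 s.2 := by
      intro T
      rw [mul_sum]
      exact sum_congr rfl fun s hs => by rw [mem_antidiagonal.1 hs]
    rw [e (fun a b => H Q (i + a) b (p.2 + cx u)), e (fun a b => G Q i a (b + (p.2 + cx u))),
      L1 hQ]

theorem main0 {Q : K} (hQ : ∀ m, 1 ≤ m → 1 - Q ^ m ≠ 0) (k : ℕ) (u : Fin k → Fin 3) (m : ℕ)
    (h1 : ∀ j : Fin k, j.val + 1 = k → u j = 0) (h2 : ∀ j : Fin k, j.val = 0 → u j = 1) :
    Phi (wA Q) k u 0 m = Phi (wB Q) k u 0 m := by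
  rw [main hQ k u 0 m h1 (Or.inr h2)]
  cases m with
  | zero => simp [G, P]
  | succ m =>
    rw [Nat.sum_antidiagonal_succ]
    simp [G, P_zero, P_zero']

def ca {k : ℕ} (u : Fin k → Fin 3) (j : Fin k) : ℕ := (univ.filter fun h => h ≤ j ∧ u h = 1).card

def cb {k : ℕ} (u : Fin k → Fin 3) (j : Fin k) : ℕ := (univ.filter fun h => j ≤ h ∧ u h = 0).card

theorem ca_zero {k : ℕ} (u : Fin (k + 1) → Fin 3) : ca u 0 = ey (u 0) := by
  rw [ca, card_filter, Fin.sum_univ_succ]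
  simp [ey, Fin.succ_ne_zero]

theorem ca_succ {k : ℕ} (u : Fin (k + 1) → Fin 3) (j : Fin k) :
    ca u j.succ = ey (u 0) + ca (Fin.tail u) j := by
  rw [ca, ca, card_filter, card_filter, Fin.sum_univ_succ]
  simp only [ey, Fin.tail, Fin.zero_le, true_and, Fin.succ_le_succ_iff]
  rfl

theorem cb_zero {k : ℕ} (u : Fin (k + 1) → Fin 3) : cb u 0 = cx u := by
  rw [cb, card_filter]
  simp [cx, ex]

theorem cb_succ {k : ℕ} (u : Fin (k + 1) → Fin 3) (j : Fin k) :
    cb u j.succ = cb (Fin.tail u) j := by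
  rw [cb, cb, card_filter, card_filter, Fin.sum_univ_succ]
  simp only [Fin.tail, Fin.succ_le_succ_iff, Fin.le_zero_iff, Fin.succ_ne_zero, false_and,
    if_false, zero_add]
  rfl

open Classical in
theorem sum_eq (w : Fin 3 → ℕ → ℕ → K) (N : ℕ) : ∀ (k : ℕ) (u : Fin k → Fin 3) (a lo : ℕ),
    lo ≤ N →
    ∑ n ∈ univ.filter (fun n : Fin k → Fin (N + 1) => Monotone n ∧ ∀ j, lo ≤ (n j).val),
      ∏ j, w (u j) ((n j).val + a + ca u j) (N - (n j).val + cb u j) =
      Phi w k u (lo + a) (N - lo) := by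
  intro k
  induction k with
  | zero =>
    intro u a lo _
    have : ∀ n : Fin 0 → Fin (N + 1), Monotone n := fun n a => a.elim0
    simp [Phi, this]
  | succ k ih =>
    intro u a lo hlo
    rw [Phi]
    have e : ∀ p ∈ antidiagonal (N - lo),
        w (u 0) (lo + a + p.1 + ey (u 0)) (p.2 + cx u) *
          Phi w k (Fin.tail u) (lo + a + p.1 + ey (u 0)) p.2 =
        ∑ n ∈ univ.filter (fun n : Fin k → Fin (N + 1) =>
            Monotone n ∧ ∀ j, lo + p.1 ≤ (n j).val),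
          w (u 0) (lo + a + p.1 + ey (u 0)) (p.2 + cx u) *
          ∏ j, w (Fin.tail u j) ((n j).val + (a + ey (u 0)) + ca (Fin.tail u) j)
            (N - (n j).val + cb (Fin.tail u) j) := by
      intro p hp
      have hp' := mem_antidiagonal.1 hp
      rw [← mul_sum, ih (Fin.tail u) (a + ey (u 0)) (lo + p.1) (by omega),
        show N - (lo + p.1) = p.2 by omega,
        show lo + p.1 + (a + ey (u 0)) = lo + a + p.1 + ey (u 0) by ring]
    rw [sum_congr rfl e, sum_sigma']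
    refine sum_bij' (fun n _ => ⟨((n 0).val - lo, N - (n 0).val), Fin.tail n⟩)
      (fun t ht => Fin.cons ⟨lo + t.1.1, ?_⟩ t.2) ?_ ?_ ?_ ?_ ?_
    · have := mem_antidiagonal.1 (mem_sigma.1 ht).1
      omega
    · intro n hn
      obtain ⟨hm, hl⟩ := (mem_filter.1 hn).2
      have h0 := hl 0
      have h1 := (n 0).isLt
      simp only [mem_sigma, HasAntidiagonal.mem_antidiagonal, mem_filter, mem_univ, true_and]
      refine ⟨by omega, fun i j hij => hm (Fin.succ_le_succ_iff.2 hij), fun j => ?_⟩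
      have : (n 0).val ≤ (n j.succ).val := hm (Fin.zero_le _)
      show lo + ((n 0).val - lo) ≤ (n j.succ).val
      omega
    · rintro ⟨p, n⟩ ht
      simp only [mem_sigma, HasAntidiagonal.mem_antidiagonal, mem_filter, mem_univ, true_and] at ht ⊢
      obtain ⟨_, hm, hl⟩ := ht
      constructor
      · intro i j hij
        rcases Fin.eq_zero_or_eq_succ i with rfl | ⟨i, rfl⟩ <;>
          rcases Fin.eq_zero_or_eq_succ j with rfl | ⟨j, rfl⟩
        · exact le_rfl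
        · simpa [Fin.le_def] using hl j
        · simp at hij
        · simpa using hm (Fin.succ_le_succ_iff.1 hij)
      · intro j
        rcases Fin.eq_zero_or_eq_succ j with rfl | ⟨j, rfl⟩
        · simp
        · have := hl j
          simp only [Fin.cons_succ]
          omega
    · intro n hn
      obtain ⟨_, hl⟩ := (mem_filter.1 hn).2
      have h0 := hl 0
      funext j
      rcases Fin.eq_zero_or_eq_succ j with rfl | ⟨j, rfl⟩
      · apply Fin.ext
        simp only [Fin.cons_zero]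
        omega
      · simp [Fin.tail]
    · rintro ⟨⟨p1, p2⟩, n⟩ ht
      have := mem_antidiagonal.1 (mem_sigma.1 ht).1
      simp only [Fin.cons_zero, Fin.tail_cons] at this ⊢
      congr 2 <;> omega
    · intro n hn
      obtain ⟨_, hl⟩ := (mem_filter.1 hn).2
      have h0 := hl 0
      rw [Fin.prod_univ_succ, ca_zero, cb_zero]
      congr 1
      · congr 1
        simp only
        omega
      · refine prod_congr rfl fun j _ => ?_
        rw [ca_succ, cb_succ]
        simp only [Fin.tail]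
        congr 1
        ring

end Pool.Agent.H17.QInv
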