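import Mathlib

set_option autoImplicit false

namespace Pool.Agent.H17.Runs

def S (s : ℤ × ℕ) : ℤ × ℕ :=
  if s.1 % 2 = 0 then (s.1 / 2, s.2) else ((3 * s.1 + 1) / 2, s.2 + 1)

theorem S_even {x y : ℤ} (h : x = 2 * y) (n : ℕ) : S (x, n) = (y, n) := by
  simp only [S]
  rw [if_pos (by omega)]
  congr 1
  omega

theorem S_odd {x y : ℤ} (h : 3 * x + 1 = 2 * y) (n : ℕ) : S (x, n) = (y, n + 1) := by
  simp only [S]
  rw [if_neg (by omega)]
  congr 1
  omega

theorem solve (k a : ℕ) (c t : ℤ) : ∃ r : ℤ, (2 : ℤ) ^ k ∣ 3 ^ a * r + c - t := by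
  have h : IsCoprime ((2 : ℤ) ^ k) (3 ^ a) := IsCoprime.pow (by norm_num [Int.isCoprime_iff_gcd_eq_one])
  obtain ⟨u, v, huv⟩ := h
  exact ⟨v * (t - c), u * (c - t), by linear_combination (t - c) * huv⟩

def M (δ : ℕ) (e : ℤ) : Prop :=
  ∃ (k : ℕ) (r : ℤ), ∀ u : ℤ, (2 : ℤ) ^ k ∣ u - r → ∀ n : ℕ,
    S^[k] (u, n) = S^[k] (3 ^ δ * u + e, n + δ)

theorem M00 : M 0 0 := ⟨0, 0, fun u _ n => by simp⟩

theorem M_neg {e : ℤ} (h : M 0 e) : M 0 (-e) := by
  obtain ⟨k, r, h⟩ := h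
  refine ⟨k, r + e, fun u hu n => ?_⟩
  have := h (u - e) (by rwa [show u - e - r = u - (r + e) by ring]) n
  simp only [pow_zero, one_mul, sub_add_cancel, add_zero] at this ⊢
  rw [← this, sub_eq_add_neg]

theorem ee {δ : ℕ} {e : ℤ} (h : M δ e) : M δ (2 * e) := by
  obtain ⟨k, r, h⟩ := h
  refine ⟨k + 1, 2 * r, fun u ⟨q, hq⟩ n => ?_⟩
  rw [Function.iterate_succ_apply, Function.iterate_succ_apply,
    S_even (y := r + 2 ^ k * q) (by linear_combination hq),
    S_even (y := 3 ^ δ * (r + 2 ^ k * q) + e) (by linear_combination (3 ^ δ) * hq)]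
  exact h _ ⟨q, by ring⟩ n

theorem eo {δ : ℕ} {e e' : ℤ} (he : 3 * e + 1 = 2 * e') (h : M (δ + 1) e') : M δ e := by
  obtain ⟨k, r, h⟩ := h
  refine ⟨k + 1, 2 * r, fun u ⟨q, hq⟩ n => ?_⟩
  rw [Function.iterate_succ_apply, Function.iterate_succ_apply,
    S_even (y := r + 2 ^ k * q) (by linear_combination hq),
    S_odd (y := 3 ^ (δ + 1) * (r + 2 ^ k * q) + e') (by linear_combination (3 ^ (δ + 1)) * hq + he)]
  exact h _ ⟨q, by ring⟩ n

theorem oo {δ : ℕ} {e e' : ℤ} (he : e = 2 * e' + 3 ^ δ) (h : M δ e') : M (δ + 1) e := by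
  obtain ⟨k, r, h⟩ := h
  obtain ⟨r', q', hr⟩ := solve (k + 1) 1 1 (2 * r)
  refine ⟨k + 1, r', fun u ⟨q, hq⟩ n => ?_⟩
  rw [Function.iterate_succ_apply, Function.iterate_succ_apply,
    S_odd (y := r + 2 ^ k * (q' + 3 * q)) (by linear_combination 3 * hq + hr),
    S_even (y := 3 ^ δ * (r + 2 ^ k * (q' + 3 * q)) + e')
      (by linear_combination (3 ^ (δ + 1)) * hq + (3 ^ δ) * hr + he),
    show n + (δ + 1) = n + 1 + δ by ring]
  exact h _ ⟨q' + 3 * q, by ring⟩ (n + 1)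

theorem oe {δ : ℕ} {e e' : ℤ} (he : 3 * e + 1 = 2 * e' + 3 ^ δ) (h : M δ e') : M δ e := by
  obtain ⟨k, r, h⟩ := h
  obtain ⟨r', q', hr⟩ := solve (k + 1) 1 1 (2 * r)
  refine ⟨k + 1, r', fun u ⟨q, hq⟩ n => ?_⟩
  rw [Function.iterate_succ_apply, Function.iterate_succ_apply,
    S_odd (y := r + 2 ^ k * (q' + 3 * q)) (by linear_combination 3 * hq + hr),
    S_odd (y := 3 ^ δ * (r + 2 ^ k * (q' + 3 * q)) + e')
      (by linear_combination (3 ^ (δ + 1)) * hq + (3 ^ δ) * hr + he),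
    show n + δ + 1 = n + 1 + δ by ring]
  exact h _ ⟨q' + 3 * q, by ring⟩ (n + 1)

theorem M1_of (B : ℕ) (h : ∀ e : ℕ, 2 * e + 1 ≤ B → M 0 e) :
    ∀ e : ℕ, 1 ≤ e → e ≤ B → M 1 e := by
  intro e
  induction e using Nat.strong_induction_on with
  | _ e ih =>
    intro h1 h2
    rcases Nat.even_or_odd' e with ⟨j, rfl | rfl⟩
    · have := ee (ih j (by omega) (by omega) (by omega))
      simpa using this
    · exact oo (δ := 0) (by push_cast; ring) (h j h2)

theorem M0_nat (e : ℕ) : M 0 e := by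
  induction e using Nat.strong_induction_on with
  | _ e ih =>
    rcases Nat.even_or_odd' e with ⟨j, rfl | rfl⟩
    · rcases Nat.eq_zero_or_pos j with rfl | hj
      · exact M00
      · have := ee (ih j (by omega))
        simpa using this
    · refine eo (e' := ((3 * j + 2 : ℕ) : ℤ)) (by push_cast; ring) ?_
      exact M1_of (3 * j + 2) (fun e he => ih e (by omega)) _ (by omega) le_rfl

theorem M_all (δ : ℕ) : ∀ e : ℤ, M δ e := by
  induction δ with
  | zero =>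
    intro e
    obtain ⟨n, rfl | rfl⟩ := e.eq_nat_or_neg
    · exact M0_nat n
    · exact M_neg (M0_nat n)
  | succ δ ih =>
    have odd3 : ∀ j : ℕ, (3 : ℤ) ^ j % 2 = 1 := fun j =>
      Int.odd_iff.1 (Odd.pow (by decide))
    have key : ∀ (n : ℕ) (e : ℤ), e.natAbs = n → e ≠ 0 → M (δ + 1) e := by
      intro n
      induction n using Nat.strong_induction_on with
      | _ n ih2 =>
        intro e hn he
        rcases Int.even_or_odd' e with ⟨j, rfl | rfl⟩
        · exact ee (ih2 j.natAbs (by omega) j rfl (by omega))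
        · have := odd3 δ
          exact oo (e' := (2 * j + 1 - 3 ^ δ) / 2) (by omega) (ih _)
    intro e
    by_cases he : e = 0
    · have h1 := odd3 (δ + 1)
      have h2 : (1 : ℤ) < 3 ^ (δ + 1) := one_lt_pow₀ (by norm_num) (by omega)
      exact oe (e' := (1 - 3 ^ (δ + 1)) / 2) (by omega) (key _ _ rfl (by omega))
    · exact key _ e rfl he

theorem M2 (a b : ℕ) (c d : ℤ) : ∃ (k : ℕ) (m0 : ℤ), ∀ m : ℤ,
    S^[k] (3 ^ a * (2 ^ k * m + m0) + c, a) = S^[k] (3 ^ b * (2 ^ k * m + m0) + d, b) := by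
  wlog hab : a ≤ b generalizing a b c d
  · obtain ⟨k, m0, h⟩ := this b a d c (by omega)
    exact ⟨k, m0, fun m => (h m).symm⟩
  obtain ⟨δ, rfl⟩ := Nat.exists_eq_add_of_le hab
  obtain ⟨k, r, h⟩ := M_all δ (d - 3 ^ δ * c)
  obtain ⟨m0, q, hq⟩ := solve k a c r
  refine ⟨k, m0, fun m => ?_⟩
  rw [h _ ⟨3 ^ a * m + q, by linear_combination hq⟩ a]
  congr 2
  ring

theorem lin (k : ℕ) : ∀ (r : ℤ) (n : ℕ), ∃ (a : ℕ) (c : ℤ), ∀ m : ℤ,
    S^[k] (3 ^ n * (2 ^ k * m) + r, n) = (3 ^ a * m + c, a) := by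
  induction k with
  | zero => intro r n; exact ⟨n, r, fun m => by simp⟩
  | succ k ih =>
    intro r n
    rcases Int.even_or_odd' r with ⟨j, rfl | rfl⟩
    · obtain ⟨a, c, h⟩ := ih j n
      refine ⟨a, c, fun m => ?_⟩
      rw [Function.iterate_succ_apply, S_even (y := 3 ^ n * (2 ^ k * m) + j) (by ring), h]
    · obtain ⟨a, c, h⟩ := ih (3 * j + 2) (n + 1)
      refine ⟨a, c, fun m => ?_⟩
      rw [Function.iterate_succ_apply,
        S_odd (y := 3 ^ (n + 1) * (2 ^ k * m) + (3 * j + 2)) (by ring), h]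

theorem merge (L : ℕ) : ∃ (k : ℕ) (r : ℤ), ∀ m : ℤ, ∀ i : ℕ, i < L →
    S^[k] (2 ^ k * m + r + i, 0) = S^[k] (2 ^ k * m + r, 0) := by
  induction L with
  | zero => exact ⟨0, 0, fun _ _ h => by omega⟩
  | succ L ih =>
    obtain ⟨k, r, h⟩ := ih
    obtain ⟨a, c, h1⟩ := lin k r 0
    obtain ⟨b, d, h2⟩ := lin k (r + L) 0
    simp only [pow_zero, one_mul] at h1 h2
    obtain ⟨k', m0, h3⟩ := M2 a b c d
    refine ⟨k' + k, 2 ^ k * m0 + r, fun m i hi => ?_⟩
    rw [Function.iterate_add_apply, Function.iterate_add_apply,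
      show (2 : ℤ) ^ (k' + k) * m + (2 ^ k * m0 + r) = 2 ^ k * (2 ^ k' * m + m0) + r by ring]
    rcases Nat.lt_or_ge i L with hL | hL
    · rw [h _ i hL]
    · obtain rfl : i = L := by omega
      rw [add_assoc, h1, h2, h3]

theorem not3 (k : ℕ) : ∀ s : ℤ × ℕ, (s.2 = 0 ∨ ¬ 3 ∣ s.1) →
    ((S^[k] s).2 = 0 ∨ ¬ 3 ∣ (S^[k] s).1) := by
  induction k with
  | zero => exact fun s h => h
  | succ k ih =>
    intro s h
    rw [Function.iterate_succ_apply]
    apply ih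
    unfold S
    split_ifs with h2
    · simp only; omega
    · simp only; omega

theorem lift (a : ℕ) : ∃ (e : ℕ) (u : ℤ), 1 ≤ e ∧ (2 : ℤ) ^ e = 1 + 3 ^ (a + 1) * (3 * u + 1) := by
  induction a with
  | zero => exact ⟨2, 0, by norm_num, by norm_num⟩
  | succ a ih =>
    obtain ⟨e, u, he, h⟩ := ih
    refine ⟨e * 3, u + 3 ^ a * (3 * u + 1) ^ 2 + 3 ^ (2 * a) * (3 * u + 1) ^ 3, by omega, ?_⟩
    rw [pow_mul, h]
    ring

theorem prim (c : ℤ) (hc : ¬ 3 ∣ c) (a : ℕ) : ∃ (j : ℕ) (m : ℤ), 2 ^ j = 3 ^ (a + 1) * m + c := by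
  induction a with
  | zero =>
    have : c % 3 = 1 ∨ c % 3 = 2 := by omega
    rcases this with h | h
    · exact ⟨0, (1 - c) / 3, by omega⟩
    · exact ⟨1, (2 - c) / 3, by omega⟩
  | succ a ih =>
    obtain ⟨j, m, h⟩ := ih
    obtain ⟨e, u, -, he⟩ := lift a
    have : 3 ∣ m ∨ 3 ∣ m + c ∨ 3 ∣ m + 2 * c := by
      have h1 : c % 3 = 1 ∨ c % 3 = 2 := by omega
      have h2 : m % 3 = 0 ∨ m % 3 = 1 ∨ m % 3 = 2 := by omega
      rcases h1 with h1 | h1 <;> rcases h2 with h2 | h2 | h2 <;> omega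
    rcases this with ⟨t, ht⟩ | ⟨t, ht⟩ | ⟨t, ht⟩
    · exact ⟨j, t, by rw [h, ht]; ring⟩
    · refine ⟨j + e, t + u * c + 3 ^ a * m * (3 * u + 1), ?_⟩
      rw [pow_add, h, he]
      linear_combination (3 ^ (a + 1)) * ht
    · refine ⟨j + e * 2, t + 2 * u * c + 3 ^ a * (2 * m * (3 * u + 1) + c * (3 * u + 1) ^ 2) +
        3 ^ (2 * a + 1) * m * (3 * u + 1) ^ 2, ?_⟩
      rw [pow_add, pow_mul, h, he]
      linear_combination (3 ^ (a + 1)) * ht

theorem big (a : ℕ) (c : ℤ) (h : a = 0 ∨ ¬ 3 ∣ c) (B : ℕ) :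
    ∃ (j : ℕ) (m : ℤ), B ≤ m ∧ 2 ^ j = 3 ^ a * m + c := by
  have h0 : ∃ (j : ℕ) (m : ℤ), 2 ^ j = 3 ^ a * m + c := by
    rcases h with rfl | h
    · exact ⟨0, 1 - c, by ring⟩
    · obtain ⟨j, m, hm⟩ := prim c h a
      exact ⟨j, 3 * m, by rw [hm]; ring⟩
  have step : ∀ (j : ℕ) (m : ℤ), 2 ^ j = 3 ^ a * m + c →
      ∃ (j' : ℕ) (m' : ℤ), m + 1 ≤ m' ∧ 2 ^ j' = 3 ^ a * m' + c := by
    intro j m hm
    obtain ⟨e, u, he, hu⟩ := lift a
    have h1 : (1 : ℤ) < 2 ^ e := one_lt_pow₀ (by norm_num) (by omega)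
    have h2 : 0 < 3 * u + 1 := by
      have : (0 : ℤ) < 3 ^ (a + 1) * (3 * u + 1) := by linarith
      exact (mul_pos_iff_of_pos_left (by positivity)).1 this
    refine ⟨j + e, m + 2 ^ j * 3 * (3 * u + 1), ?_, ?_⟩
    · have : (0 : ℤ) < 2 ^ j * 3 * (3 * u + 1) := by positivity
      omega
    · rw [pow_add, hu]
      linear_combination hm
  obtain ⟨j0, m0, hm0⟩ := h0
  have : ∀ t : ℕ, ∃ (j : ℕ) (m : ℤ), m0 + t ≤ m ∧ 2 ^ j = 3 ^ a * m + c := by
    intro t
    induction t with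
    | zero => exact ⟨j0, m0, by simp, hm0⟩
    | succ t ih =>
      obtain ⟨j, m, h1, h2⟩ := ih
      obtain ⟨j', m', h3, h4⟩ := step j m h2
      exact ⟨j', m', by push_cast; omega, h4⟩
  obtain ⟨j, m, h1, h2⟩ := this (B + m0.natAbs)
  exact ⟨j, m, by omega, h2⟩

def C (n : ℕ) : ℕ := if n % 2 = 0 then n / 2 else 3 * n + 1

theorem CS (k : ℕ) : ∀ (x n y a : ℕ), S^[k] (x, n) = ((y : ℤ), n + a) → C^[k + a] x = y := by
  induction k with
  | zero =>
    intro x n y a h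
    simp only [Function.iterate_zero, id, Prod.mk.injEq] at h
    obtain rfl : a = 0 := by omega
    simpa using h.1
  | succ k ih =>
    intro x n y a h
    rw [Function.iterate_succ_apply] at h
    rcases Nat.even_or_odd' x with ⟨j, rfl | rfl⟩
    · rw [S_even (y := (j : ℤ)) (by push_cast; ring)] at h
      rw [show k + 1 + a = k + a + 1 by ring, Function.iterate_succ_apply,
        show C (2 * j) = j by simp [C]]
      exact ih _ _ _ _ h
    · rw [S_odd (y := ((3 * j + 2 : ℕ) : ℤ)) (by push_cast; ring)] at h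
      have mono : ∀ (t : ℕ) (s : ℤ × ℕ), s.2 ≤ (S^[t] s).2 := by
        intro t
        induction t with
        | zero => exact fun s => le_rfl
        | succ t iht =>
          intro s
          rw [Function.iterate_succ_apply]
          refine le_trans ?_ (iht _)
          unfold S
          split_ifs <;> simp
      have h1 := mono k (((3 * j + 2 : ℕ) : ℤ), n + 1)
      rw [h] at h1
      obtain ⟨a, rfl⟩ : ∃ b, a = b + 1 := ⟨a - 1, by simp only at h1; omega⟩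
      rw [show k + 1 + (a + 1) = k + a + 1 + 1 by ring, Function.iterate_succ_apply,
        Function.iterate_succ_apply, show C (2 * j + 1) = 2 * (3 * j + 2) by
          rw [C, if_neg (by omega)]; ring, show C (2 * (3 * j + 2)) = 3 * j + 2 by simp [C]]
      exact ih _ (n + 1) _ _ (by rw [h]; congr 1; ring)

theorem C_lower (t : ℕ) : ∀ x : ℕ, x ≤ 2 ^ t * C^[t] x := by
  induction t with
  | zero => intro x; simp
  | succ t ih =>
    intro x
    have h1 := ih (C x)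
    have h2 : x ≤ 2 * C x := by unfold C; split_ifs <;> omega
    rw [Function.iterate_succ_apply, pow_succ]
    nlinarith

theorem C_pow (t j : ℕ) : C^[t] (2 ^ (j + t)) = 2 ^ j := by
  induction t with
  | zero => simp
  | succ t ih =>
    rw [Function.iterate_succ_apply, show C (2 ^ (j + (t + 1))) = 2 ^ (j + t) by
      rw [← add_assoc, pow_succ, C, if_pos (by omega)]; omega, ih]

theorem runs (L : ℕ) : ∃ n H : ℕ, 1 ≤ n ∧ ∀ i < L, C^[H] (n + i) = 1 ∧
    ∀ t < H, C^[t] (n + i) ≠ 1 := by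
  obtain ⟨k, r, h⟩ := merge L
  obtain ⟨a, c, h1⟩ := lin k r 0
  simp only [pow_zero, one_mul] at h1
  have h3 : a = 0 ∨ ¬ 3 ∣ c := by
    have := not3 k (2 ^ k * 0 + r, 0) (Or.inl rfl)
    rw [h1] at this
    simpa using this
  obtain ⟨j, m, hm, hj⟩ := big a c h3 (2 ^ (k + a) + r.natAbs + 1)
  have hk : (1 : ℤ) ≤ 2 ^ k := one_le_pow₀ (by norm_num)
  have hp : (0 : ℤ) < 2 ^ (k + a) := by positivity
  push_cast at hm
  have hr := neg_abs_le r
  have hr2 := abs_nonneg r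
  have hb : (2 : ℤ) ^ (k + a) < 2 ^ k * m + r := by nlinarith
  obtain ⟨n, hn⟩ := Int.eq_ofNat_of_zero_le (show 0 ≤ 2 ^ k * m + r by linarith)
  have hb2 : 2 ^ (k + a) < n := by rw [hn] at hb; exact_mod_cast hb
  refine ⟨n, j + (k + a), by omega, fun i hi => ?_⟩
  have h4 : C^[k + a] (n + i) = 2 ^ j := by
    apply CS k _ 0
    push_cast
    rw [← hn, h m i hi, h1, hj, zero_add]
  constructor
  · rw [Function.iterate_add_apply, h4]
    simpa using C_pow j 0
  · intro t ht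
    rcases Nat.lt_or_ge t (k + a) with h5 | h5
    · intro h6
      have h7 := C_lower t (n + i)
      have h8 : 2 ^ t < 2 ^ (k + a) := Nat.pow_lt_pow_right (by norm_num) h5
      rw [h6] at h7
      omega
    · obtain ⟨s, rfl⟩ := Nat.exists_eq_add_of_le' h5
      obtain ⟨v, rfl⟩ : ∃ v, j = v + 1 + s := ⟨j - s - 1, by omega⟩
      rw [Function.iterate_add_apply, h4, C_pow]
      have : 0 < 2 ^ v := by positivity
      omega

end Pool.Agent.H17.Runs
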