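import Mathlib

set_option autoImplicit false

namespace Pool.Agent.H17.S4
open PowerSeries

noncomputable def ev : List ℤ → ℤ⟦X⟧
  | [] => 0
  | a :: l => C a + X * ev l

def ladd : List ℤ → List ℤ → List ℤ
  | [], b => b
  | a, [] => a
  | x :: a, y :: b => (x + y) :: ladd a b

def lmul : List ℤ → List ℤ → List ℤ
  | [], _ => []
  | x :: a, b => ladd (b.map (fun y => x * y)) (0 :: lmul a b)

def lpow (a : List ℤ) : ℕ → List ℤ
  | 0 => [1]
  | n + 1 => lmul a (lpow a n)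

theorem ev_add : ∀ a b : List ℤ, ev (ladd a b) = ev a + ev b
  | [], b => by simp [ladd, ev]
  | x :: a, [] => by simp [ladd, ev]
  | x :: a, y :: b => by
      simp only [ladd, ev, ev_add a b, map_add]; ring

theorem ev_smul (x : ℤ) : ∀ b : List ℤ, ev (b.map (fun y => x * y)) = C x * ev b
  | [] => by simp [ev]
  | y :: b => by
      simp only [List.map, ev, ev_smul x b, map_mul]; ring

theorem ev_mul : ∀ a b : List ℤ, ev (lmul a b) = ev a * ev b
  | [], b => by simp [lmul, ev]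
  | x :: a, b => by
      simp only [lmul, ev_add, ev_smul, ev, ev_mul a b, map_zero]; ring

theorem ev_pow (a : List ℤ) : ∀ n, ev (lpow a n) = ev a ^ n
  | 0 => by simp [lpow, ev]
  | n + 1 => by simp only [lpow, ev_mul, ev_pow a n]; ring

theorem ev_dvd : ∀ a : List ℤ, (a.all (fun x => x % 32 == 0)) = true → ∃ K, ev a = 32 * K
  | [], _ => ⟨0, by simp [ev]⟩
  | x :: a, h => by
      simp only [List.all_cons, Bool.and_eq_true, beq_iff_eq] at h
      obtain ⟨K, hK⟩ := ev_dvd a h.2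
      obtain ⟨c, hc⟩ := Int.dvd_of_emod_eq_zero h.1
      refine ⟨C c + X * K, ?_⟩
      simp only [ev, hK, hc, map_mul, map_ofNat]; ring

theorem coeff_ev : ∀ (a : List ℤ) (n : ℕ), coeff n (ev a) = a.getD n 0
  | [], n => by simp [ev]
  | x :: a, 0 => by simp [ev]
  | x :: a, n + 1 => by
      rw [ev, map_add, coeff_succ_X_mul, coeff_ev a n, coeff_C, if_neg (by omega)]; simp

noncomputable def per (l : List ℤ) (P : ℕ) : ℤ⟦X⟧ := mk (fun n => l.getD (n % P) 0)

theorem per_mul (l : List ℤ) (P : ℕ) (hl : l.length ≤ P) : per l P * (1 - X ^ P) = ev l := by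
  ext n
  rw [mul_sub, mul_one, map_sub, coeff_mul_X_pow', coeff_ev]
  simp only [per, coeff_mk]
  split_ifs with h
  · rw [← Nat.mod_eq_sub_mod h, sub_self, List.getD_eq_default _ _ (by omega)]
  · rw [Nat.mod_eq_of_lt (by omega), sub_zero]

noncomputable def w : ℤ⟦X⟧ := mk 1

theorem w_mul : w * (1 - X) = 1 := mk_one_mul_one_sub_eq_one ℤ

theorem Ew_mul (P : ℕ) (hP : P ≠ 0) : expand P hP w * (1 - X ^ P) = 1 := by
  have := congrArg (expand P hP) w_mul
  simpa [expand_X] using this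

noncomputable abbrev E : ℤ⟦X⟧ →ₐ[ℤ] ℤ⟦X⟧ := expand 4 (by norm_num)

noncomputable def Q : ℤ⟦X⟧ := w ^ 4 * (1 - X ^ 4)

def t2 : List ℤ := [0, 2, 1, 6, 2, 2, 3, 6, 4, 2, 5, 6, 6, 2, 7, 6]
def t4 : List ℤ := [0, 2, 1, 2, 0, 2, 3, 2]
def o4 : List ℤ := [1, 0, 0, 0, -1]
def o8 : List ℤ := [1, 0, 0, 0, 0, 0, 0, 0, -1]
def o16 : List ℤ := [1, 0, 0, 0, 0, 0, 0, 0, 0, 0, 0, 0, 0, 0, 0, 0, -1]

theorem ev1 : ev [1, -1] = 1 - X := by simp [ev]; ring
theorem ev4 : ev o4 = 1 - X ^ 4 := by simp [ev, o4]; ring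
theorem ev8 : ev o8 = 1 - X ^ 8 := by simp [ev, o8]; ring
theorem ev16 : ev o16 = 1 - X ^ 16 := by simp [ev, o16]; ring

theorem chk2 : (ladd (lmul (lpow o4 2) o16) ((lmul (lpow [1, -1] 8)
    (ladd o16 (t2.map (fun y => 4 * y)))).map (fun y => (-1) * y))).all
      (fun x => x % 32 == 0) = true := by decide +kernel

theorem chk4 : (ladd (lmul (lpow o4 4) o8) ((lmul (lpow [1, -1] 16)
    (ladd o8 (t4.map (fun y => 8 * y)))).map (fun y => (-1) * y))).all
      (fun x => x % 32 == 0) = true := by decide +kernel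

theorem Q2 : ∃ K, Q ^ 2 = 1 + 4 * (per t2 16 + 8 * K) := by
  obtain ⟨K, hK⟩ := ev_dvd _ chk2
  rw [ev_add, ev_smul, ev_mul, ev_mul, ev_pow, ev_pow, ev_add, ev_smul, ev1, ev4, ev16,
    ← per_mul t2 16 (by decide)] at hK
  have h1 := Ew_mul 16 (by norm_num)
  have h2 : w ^ 8 * (1 - X) ^ 8 = 1 := by rw [← mul_pow, w_mul, one_pow]
  refine ⟨K * w ^ 8 * expand 16 (by norm_num) w, ?_⟩
  simp only [map_neg, map_one, map_ofNat] at hK
  have e : Q ^ 2 = w ^ 8 * (1 - X ^ 4) ^ 2 := by unfold Q; ring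
  rw [e]
  generalize expand 16 (by norm_num : (16 : ℕ) ≠ 0) w = u at *
  generalize w ^ 8 = a at *
  generalize ((1 : ℤ⟦X⟧) - X) ^ 8 = b at *
  generalize ((1 : ℤ⟦X⟧) - X ^ 4) ^ 2 = c at *
  generalize ((1 : ℤ⟦X⟧) - X ^ 16) = d at *
  generalize per t2 16 = p at *
  linear_combination (a * u) * hK - (a * c - a * b * (1 + 4 * p)) * h1 + (1 + 4 * p) * h2

theorem Q4 : ∃ K, Q ^ 4 = 1 + 8 * (per t4 8 + 4 * K) := by
  obtain ⟨K, hK⟩ := ev_dvd _ chk4
  rw [ev_add, ev_smul, ev_mul, ev_mul, ev_pow, ev_pow, ev_add, ev_smul, ev1, ev4, ev8,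
    ← per_mul t4 8 (by decide)] at hK
  have h1 := Ew_mul 8 (by norm_num)
  have h2 : w ^ 16 * (1 - X) ^ 16 = 1 := by rw [← mul_pow, w_mul, one_pow]
  refine ⟨K * w ^ 16 * expand 8 (by norm_num) w, ?_⟩
  simp only [map_neg, map_one, map_ofNat] at hK
  have e : Q ^ 4 = w ^ 16 * (1 - X ^ 4) ^ 4 := by unfold Q; ring
  rw [e]
  generalize expand 8 (by norm_num : (8 : ℕ) ≠ 0) w = u at *
  generalize w ^ 16 = a at *
  generalize ((1 : ℤ⟦X⟧) - X) ^ 16 = b at *
  generalize ((1 : ℤ⟦X⟧) - X ^ 4) ^ 4 = c at *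
  generalize ((1 : ℤ⟦X⟧) - X ^ 8) = d at *
  generalize per t4 8 = p at *
  linear_combination (a * u) * hK - (a * c - a * b * (1 + 8 * p)) * h1 + (1 + 8 * p) * h2

abbrev v (n : ℕ) : ℕ := padicValNat 2 n

theorem v_odd {n : ℕ} (h : n % 2 = 1) : v n = 0 :=
  padicValNat.eq_zero_of_not_dvd (by omega)

theorem v_two_mul {n : ℕ} (h : n ≠ 0) : v (2 * n) = v n + 1 := by
  rw [v, padicValNat.mul (by norm_num) h]; simp [add_comm]

theorem v_two {n : ℕ} (h : n % 4 = 2) : v n = 1 := by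
  obtain ⟨k, rfl⟩ : ∃ k, n = 2 * (2 * k + 1) := ⟨n / 4, by omega⟩
  rw [v_two_mul (by omega), v_odd (by omega)]

theorem v_four {n : ℕ} (h : n ≠ 0) : v (4 * n) = v n + 2 := by
  rw [show 4 * n = 2 * (2 * n) by ring, v_two_mul (by omega), v_two_mul h]

noncomputable def H : ℕ → ℤ⟦X⟧
  | 0 => 1
  | t + 1 => Q * E (H t)

theorem cE0 (A : ℤ⟦X⟧) (n : ℕ) : coeff (4 * n) (E A) = coeff n A := coeff_expand_mul _ _ _ _

theorem cE1 (A : ℤ⟦X⟧) (n : ℕ) (h : n % 4 ≠ 0) : coeff n (E A) = 0 :=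
  coeff_expand_of_not_dvd _ _ _ (by omega)

theorem c_num (a : ℕ) [a.AtLeastTwo] (A : ℤ⟦X⟧) (n : ℕ) :
    coeff n ((OfNat.ofNat a : ℤ⟦X⟧) * A) = (OfNat.ofNat a : ℤ) * coeff n A := by
  rw [← map_ofNat (C (R := ℤ)) a, coeff_C_mul]

theorem not_dvd_four {t n : ℕ} (h : ¬ 4 ^ (t + 1) ∣ 4 * n) : ¬ 4 ^ t ∣ n := by
  intro h'; apply h; rw [pow_succ']; exact Nat.mul_dvd_mul_left 4 h'

/-- parity pattern modulo four -/
def P2 (t : ℕ) (M : ℤ⟦X⟧) : Prop :=
  ∀ n, ¬ 4 ^ t ∣ n → (v n % 2 = 1 → coeff n M % 2 = 1) ∧ (v n % 2 = 0 → coeff n M % 4 = 2)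

theorem H4 : ∀ t, ∃ M, H t ^ 4 = 1 + 8 * M ∧ P2 t M
  | 0 => ⟨0, by simp [H], fun n hn => absurd (by simp) hn⟩
  | t + 1 => by
      obtain ⟨M, hM, hP⟩ := H4 t
      obtain ⟨K, hK⟩ := Q4
      refine ⟨per t4 8 + E M + 4 * (K + 2 * (per t4 8 + 4 * K) * E M), ?_, fun n hn => ?_⟩
      · rw [H, mul_pow, ← map_pow, hM, hK]
        simp only [map_add, map_one, map_mul, map_ofNat]; ring
      · rw [map_add, map_add, c_num]
        generalize coeff n (K + 2 * (per t4 8 + 4 * K) * E M) = z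
        simp only [per, coeff_mk]
        by_cases h4 : n % 4 = 0
        · obtain ⟨k, rfl⟩ : ∃ k, n = 4 * k := ⟨n / 4, by omega⟩
          have hk := not_dvd_four hn
          have hk0 : k ≠ 0 := by rintro rfl; simp at hk
          have h0 : t4.getD (4 * k % 8) 0 = 0 := by
            have : 4 * k % 8 = 0 ∨ 4 * k % 8 = 4 := by omega
            rcases this with h | h <;> rw [h] <;> rfl
          obtain ⟨a1, a2⟩ := hP k hk
          rw [cE0, h0, v_four hk0]
          constructor <;> intro hv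
          · have := a1 (by omega); omega
          · have := a2 (by omega); omega
        · rw [cE1 _ _ h4]
          have key : ∀ r < 8, (r % 2 = 1 → t4.getD r 0 = 2) ∧ (r % 4 = 2 → t4.getD r 0 % 2 = 1) := by
            decide
          obtain ⟨k1, k2⟩ := key (n % 8) (Nat.mod_lt _ (by norm_num))
          by_cases h2 : n % 2 = 1
          · rw [v_odd h2, k1 (by omega)]; omega
          · have := k2 (by omega)
            rw [v_two (n := n) (by omega)]; omega

/-- pattern modulo eight for the square -/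
def P1 (t : ℕ) (M : ℤ⟦X⟧) : Prop :=
  ∀ n, ¬ 4 ^ t ∣ n → (v n % 2 = 1 → coeff n M % 2 = 1) ∧ (n % 4 = 1 → coeff n M % 8 = 2) ∧
    (n % 4 = 3 → coeff n M % 8 = 6) ∧ (v n % 2 = 0 → n % 4 = 0 → coeff n M % 8 = 4)

theorem per2_split : ∃ L, per t2 16 = X ^ 2 * E w + 2 * L := by
  refine ⟨mk (fun n => t2.getD (n % 16) 0 / 2), ?_⟩
  ext n
  rw [map_add, c_num, coeff_X_pow_mul', coeff_mk]
  simp only [per, coeff_mk]
  have key : ∀ r < 16, t2.getD r 0 = (if r % 4 = 2 then 1 else 0) + 2 * (t2.getD r 0 / 2) := by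
    decide
  have hk := key (n % 16) (Nat.mod_lt _ (by norm_num))
  by_cases h : n % 4 = 2
  · obtain ⟨k, rfl⟩ : ∃ k, n = 4 * k + 2 := ⟨n / 4, by omega⟩
    rw [if_pos (by omega)] at hk
    rw [if_pos (by omega), Nat.add_sub_cancel, cE0]
    simp only [w, coeff_mk, Pi.one_apply]
    exact hk
  · rw [if_neg (by omega)] at hk
    split_ifs with h2
    · rw [cE1 _ _ (by omega)]; exact hk
    · exact hk

theorem H2 : ∀ t, ∃ M, H t ^ 2 = 1 + 4 * M ∧ P1 t M
  | 0 => ⟨0, by simp [H], fun n hn => absurd (by simp) hn⟩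
  | t + 1 => by
      obtain ⟨M, hM, hP⟩ := H2 t
      obtain ⟨K, hK⟩ := Q2
      obtain ⟨L, hL⟩ := per2_split
      refine ⟨per t2 16 + E M + 4 * (X ^ 2 * E (w * M)) +
        8 * (K + (L + 4 * K) * E M), ?_, fun n hn => ?_⟩
      · rw [H, mul_pow, ← map_pow, hM, hK]
        simp only [map_add, map_one, map_mul, map_ofNat]
        linear_combination (16 * E M) * hL
      · rw [map_add, map_add, map_add, c_num, c_num]
        generalize coeff n (K + (L + 4 * K) * E M) = z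
        have hX : n % 4 ≠ 2 → coeff n (X ^ 2 * E (w * M)) = 0 := by
          intro h
          rw [coeff_X_pow_mul']
          split_ifs with h2
          · exact cE1 _ _ (by omega)
          · rfl
        generalize coeff n (X ^ 2 * E (w * M)) = y at *
        simp only [per, coeff_mk]
        have key : ∀ r < 16, (r % 4 = 1 → t2.getD r 0 = 2) ∧ (r % 4 = 3 → t2.getD r 0 = 6) ∧
            (r % 4 = 2 → t2.getD r 0 % 2 = 1) ∧ (r % 4 = 0 → t2.getD r 0 = (r / 2 : ℕ)) := by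
          decide
        obtain ⟨k1, k3, k2, k0⟩ := key (n % 16) (Nat.mod_lt _ (by norm_num))
        by_cases h4 : n % 4 = 0
        · obtain ⟨k, rfl⟩ : ∃ k, n = 4 * k := ⟨n / 4, by omega⟩
          have hk := not_dvd_four hn
          have hk0 : k ≠ 0 := by rintro rfl; simp at hk
          obtain ⟨a1, a2, a3, a4⟩ := hP k hk
          rw [cE0, k0 (by omega), hX (by omega), v_four hk0]
          refine ⟨fun hv => ?_, fun hv => by omega, fun hv => by omega, fun hv _ => ?_⟩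
          · have := a1 (by omega); omega
          · have h' : k % 4 = 0 ∨ k % 4 = 1 ∨ k % 4 = 2 ∨ k % 4 = 3 := by omega
            rcases h' with h | h | h | h
            · have := a4 (by omega) h; omega
            · have := a2 h; omega
            · have := v_two h; omega
            · have := a3 h; omega
        · rw [cE1 _ _ h4]
          refine ⟨fun hv => ?_, fun hv => ?_, fun hv => ?_, fun _ hv => by omega⟩
          · have h2 : n % 4 = 2 := by
              by_contra hc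
              have := v_odd (n := n) (by omega); omega
            have := k2 (by omega); omega
          · rw [k1 (by omega), hX (by omega)]; omega
          · rw [k3 (by omega), hX (by omega)]; omega

end Pool.Agent.H17.S4
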