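import Pool.Agent.H17.S4a

set_option autoImplicit false

namespace Pool.Agent.H17.S4
open PowerSeries

/-- `z` has 2-adic valuation exactly `a` -/
def Val (z : ℤ) (a : ℕ) : Prop := ∃ y : ℤ, z = 2 ^ a * (2 * y + 1)

theorem pow_lin (a : ℤ) (M : ℤ⟦X⟧) : ∀ u : ℕ, ∃ K, (1 + C a * M) ^ u = 1 + C a * (C (u : ℤ) * M + C a * K)
  | 0 => ⟨0, by simp⟩
  | u + 1 => by
      obtain ⟨K, hK⟩ := pow_lin a M u
      refine ⟨K + M * (C (u : ℤ) * M + C a * K), ?_⟩
      rw [pow_succ, hK]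
      simp only [Nat.cast_add, Nat.cast_one, map_add, map_one]; ring

theorem H2s (t : ℕ) : ∀ s, ∃ M, H t ^ 2 ^ (s + 2) = 1 + C ((2 : ℤ) ^ (s + 3)) * M ∧ P2 t M
  | 0 => by
      obtain ⟨M, hM, hP⟩ := H4 t
      exact ⟨M, by rw [show 2 ^ (0 + 2) = 4 by norm_num, hM]; simp, hP⟩
  | s + 1 => by
      obtain ⟨M, hM, hP⟩ := H2s t s
      refine ⟨M + 4 * (C ((2 : ℤ) ^ s) * M ^ 2), ?_, fun n hn => ?_⟩
      · rw [show 2 ^ (s + 1 + 2) = 2 ^ (s + 2) * 2 by ring, pow_mul, hM]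
        simp only [map_pow, map_ofNat]; ring
      · rw [map_add, c_num]
        obtain ⟨a1, a2⟩ := hP n hn
        exact ⟨fun h => by have := a1 h; omega, fun h => by have := a2 h; omega⟩

theorem Hmul4 (t s u : ℕ) (hu : u % 2 = 1) :
    ∃ M, H t ^ (2 ^ (s + 2) * u) = 1 + C ((2 : ℤ) ^ (s + 3)) * M ∧ P2 t M := by
  obtain ⟨M, hM, hP⟩ := H2s t s
  obtain ⟨K, hK⟩ := pow_lin ((2 : ℤ) ^ (s + 3)) M u
  refine ⟨_, by rw [pow_mul, hM, hK], fun n hn => ?_⟩
  rw [map_add, coeff_C_mul, coeff_C_mul]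
  obtain ⟨a1, a2⟩ := hP n hn
  obtain ⟨j, rfl⟩ : ∃ j, u = 2 * j + 1 := ⟨u / 2, by omega⟩
  have e : (2 : ℤ) ^ (s + 3) * coeff n K = 4 * (2 ^ (s + 1) * coeff n K) := by ring
  rw [e]
  generalize (2 : ℤ) ^ (s + 1) * coeff n K = z
  push_cast
  constructor <;> intro h
  · have := a1 h
    have e2 : (2 * (j : ℤ) + 1) * coeff n M = 2 * (j * coeff n M) + coeff n M := by ring
    rw [e2]; omega
  · have := a2 h
    obtain ⟨c, hc⟩ : ∃ c, coeff n M = 4 * c + 2 := ⟨coeff n M / 4, by omega⟩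
    have e2 : (2 * (j : ℤ) + 1) * coeff n M = 4 * (j * (2 * c + 1) + c) + 2 := by rw [hc]; ring
    rw [e2]; omega

/-- parity pattern modulo two -/
def P0 (t : ℕ) (M : ℤ⟦X⟧) : Prop :=
  ∀ n, ¬ 4 ^ t ∣ n → (v n % 2 = 1 → coeff n M % 2 = 1) ∧ (v n % 2 = 0 → coeff n M % 2 = 0)

theorem P1_P0 {t : ℕ} {M : ℤ⟦X⟧} (h : P1 t M) : P0 t M := by
  intro n hn
  obtain ⟨a1, a2, a3, a4⟩ := h n hn
  refine ⟨a1, fun hv => ?_⟩
  have h' : n % 4 = 0 ∨ n % 4 = 1 ∨ n % 4 = 2 ∨ n % 4 = 3 := by omega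
  rcases h' with h | h | h | h
  · have := a4 hv h; omega
  · have := a2 h; omega
  · have := v_two h; omega
  · have := a3 h; omega

theorem Hmul2 (t s u : ℕ) (hu : u % 2 = 1) :
    ∃ M, H t ^ (2 ^ (s + 1) * u) = 1 + C ((2 : ℤ) ^ (s + 2)) * M ∧ P0 t M := by
  rcases s with _ | s
  · obtain ⟨M, hM, hP⟩ := H2 t
    have hP := P1_P0 hP
    obtain ⟨K, hK⟩ := pow_lin 4 M u
    refine ⟨C (u : ℤ) * M + C 4 * K, ?_, fun n hn => ?_⟩
    · rw [pow_mul, show 2 ^ (0 + 1) = 2 by norm_num, hM, show (2 : ℤ) ^ (0 + 2) = 4 by norm_num,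
        ← hK, map_ofNat]
    · rw [map_add, coeff_C_mul, coeff_C_mul]
      obtain ⟨a1, a2⟩ := hP n hn
      obtain ⟨j, rfl⟩ : ∃ j, u = 2 * j + 1 := ⟨u / 2, by omega⟩
      push_cast
      have e2 : (2 * (j : ℤ) + 1) * coeff n M = 2 * (j * coeff n M) + coeff n M := by ring
      rw [e2]
      exact ⟨fun h => by have := a1 h; omega, fun h => by have := a2 h; omega⟩
  · obtain ⟨M, hM, hP⟩ := Hmul4 t s u hu
    refine ⟨M, hM, fun n hn => ?_⟩
    obtain ⟨a1, a2⟩ := hP n hn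
    exact ⟨a1, fun h => by have := a2 h; omega⟩

noncomputable def c : ℕ → ℤ⟦X⟧
  | 0 => w
  | t + 1 => (1 - X) ^ 3 * E (c t)

theorem c_H : ∀ t, (1 - X) * c t * H t = 1
  | 0 => by simp only [c, H, mul_one]; rw [mul_comm]; exact w_mul
  | t + 1 => by
      have h := congrArg E (c_H t)
      simp only [map_mul, map_sub, map_one, expand_X] at h
      have h2 : w ^ 4 * (1 - X) ^ 4 = 1 := by rw [← mul_pow, w_mul, one_pow]
      simp only [c, H, Q]
      linear_combination ((1 - X ^ 4) * E (c t) * E (H t)) * h2 + h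

theorem c_two : ∀ t, ∃ K, (1 - X) * c t = 1 + 2 * K
  | 0 => ⟨0, by simp only [c]; rw [mul_comm, w_mul]; simp⟩
  | t + 1 => by
      obtain ⟨K, hK⟩ := c_two t
      have h := congrArg E hK
      simp only [map_mul, map_sub, map_add, map_one, expand_X, map_ofNat] at h
      refine ⟨E K + (-2 * X + 3 * X ^ 2 - 2 * X ^ 3 + X ^ 4) * E (c t), ?_⟩
      simp only [c]
      linear_combination h

theorem c_succ (t n d : ℕ) (hd : d < 4) :
    coeff (4 * n + d) (c (t + 1)) = ([1, -3, 3, -1] : List ℤ).getD d 0 * coeff n (c t) := by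
  have e : c (t + 1) = E (c t) - 3 * (X ^ 1 * E (c t)) + 3 * (X ^ 2 * E (c t)) - X ^ 3 * E (c t) := by
    simp only [c]; ring
  rw [e, map_sub, map_add, map_sub, c_num, c_num]
  simp only [coeff_X_pow_mul']
  have z : ∀ j e : ℕ, (j - e) % 4 ≠ 0 → (if e ≤ j then coeff (j - e) (E (c t)) else 0) = 0 := by
    intro j e h; split_ifs
    · exact cE1 _ _ h
    · rfl
  have z' : ∀ j e : ℕ, j < e → (if e ≤ j then coeff (j - e) (E (c t)) else 0) = 0 := by
    intro j e h; rw [if_neg (by omega)]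
  have y : ∀ e : ℕ, (if e ≤ 4 * n + e then coeff (4 * n + e - e) (E (c t)) else 0) =
      coeff n (c t) := by
    intro e; rw [if_pos (by omega), Nat.add_sub_cancel, cE0]
  have zz : ∀ e : ℕ, e < 4 → e ≠ d →
      (if e ≤ 4 * n + d then coeff (4 * n + d - e) (E (c t)) else 0) = 0 := by
    intro e he hne
    by_cases hlt : 4 * n + d < e
    · exact z' _ _ hlt
    · exact z _ _ (by omega)
  interval_cases d
  · rw [zz 1 (by omega) (by omega), zz 2 (by omega) (by omega), zz 3 (by omega) (by omega),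
      add_zero, cE0]; simp
  · rw [y 1, zz 2 (by omega) (by omega), zz 3 (by omega) (by omega), cE1 _ _ (by omega)]; simp
  · rw [y 2, zz 1 (by omega) (by omega), zz 3 (by omega) (by omega), cE1 _ _ (by omega)]; simp
  · rw [y 3, zz 1 (by omega) (by omega), zz 2 (by omega) (by omega), cE1 _ _ (by omega)]; simp

theorem c_odd : ∀ t n, coeff n (c t) % 2 = 1
  | 0, n => by simp [c, w]
  | t + 1, n => by
      have h := c_succ t (n / 4) (n % 4) (Nat.mod_lt _ (by norm_num))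
      rw [Nat.div_add_mod] at h
      have := c_odd t (n / 4)
      have h' : n % 4 = 0 ∨ n % 4 = 1 ∨ n % 4 = 2 ∨ n % 4 = 3 := by omega
      rcases h' with h1 | h1 | h1 | h1 <;> rw [h1] at h <;> simp at h <;> omega

def T (r : ℕ) (z : ℤ) : Prop :=
  (r % 4 = 0 → z % 8 = 4) ∧ (r % 4 = 1 → z % 4 = 2) ∧ (r % 4 = 2 → z % 4 = 2) ∧ (r % 4 = 3 → z = 0)

theorem c_T : ∀ t n, ¬ 4 ^ t ∣ n + 1 →
    T (v (n + 1)) (coeff (n + 1) (c t) - coeff n (c t)) ∧
    T (v (n + 1) + 2) (coeff (n + 1) (c t) + coeff n (c t))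
  | 0, n, h => absurd (by simp) h
  | t + 1, n, h => by
      have h' : n % 4 = 0 ∨ n % 4 = 1 ∨ n % 4 = 2 ∨ n % 4 = 3 := by omega
      obtain ⟨k, hk⟩ : ∃ k, k = n / 4 := ⟨_, rfl⟩
      have ho := c_odd t k
      have a0 := c_succ t k 0 (by norm_num)
      have a1 := c_succ t k 1 (by norm_num)
      have a2 := c_succ t k 2 (by norm_num)
      have a3 := c_succ t k 3 (by norm_num)
      have a4 := c_succ t (k + 1) 0 (by norm_num)
      simp only [List.getD_cons_zero, List.getD_cons_succ] at a0 a1 a2 a3 a4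
      rcases h' with h1 | h1 | h1 | h1
      · obtain rfl : n = 4 * k + 0 := by omega
        rw [v_odd (n := 4 * k + 0 + 1) (by omega), a0, a1]
        unfold T; omega
      · obtain rfl : n = 4 * k + 1 := by omega
        rw [v_two (n := 4 * k + 1 + 1) (by omega), a1, a2]
        unfold T; omega
      · obtain rfl : n = 4 * k + 2 := by omega
        rw [v_odd (n := 4 * k + 2 + 1) (by omega), a2, a3]
        unfold T; omega
      · obtain rfl : n = 4 * k + 3 := by omega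
        rw [show 4 * k + 3 + 1 = 4 * (k + 1) by ring] at h ⊢
        obtain ⟨b1, b2⟩ := c_T t k (not_dvd_four h)
        rw [add_zero] at a4
        rw [v_four (by omega), a3, a4]
        unfold T at *; omega

def f (m r : ℕ) : ℕ :=
  if m % 2 = 1 then (if r % 4 = 0 then 2 else if r % 4 = 3 then v (m + 1) + 1 else 1)
  else if m % 4 = 0 then v m + 1 + (r + 1) % 2
  else (if r % 2 = 1 then 2 else if r = 0 then 3 else 4)

theorem decomp {m : ℕ} (hm : m ≠ 0) : ∃ u, u % 2 = 1 ∧ m = 2 ^ v m * u := by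
  obtain ⟨u, hu⟩ : 2 ^ v m ∣ m := pow_padicValNat_dvd
  refine ⟨u, ?_, hu⟩
  by_contra hc
  obtain ⟨j, rfl⟩ : ∃ j, u = 2 * j := ⟨u / 2, by omega⟩
  have : 2 ^ (v m + 1) ∣ m := ⟨j, by rw [pow_succ, mul_assoc]; exact hu⟩
  exact pow_succ_padicValNat_not_dvd hm this

theorem v_ge {m k : ℕ} (hm : m ≠ 0) (h : 2 ^ k ∣ m) : k ≤ v m :=
  (padicValNat_dvd_iff_le hm).1 h

theorem main_H (t m n : ℕ) (hm : m ≠ 0) (h6 : m % 8 ≠ 6) (hn : ¬ 4 ^ t ∣ n) :
    Val (coeff n (H t ^ m)) (f m (v n)) := by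
  have hn0 : n ≠ 0 := by rintro rfl; simp at hn
  have one : coeff n (1 : ℤ⟦X⟧) = 0 := by rw [coeff_one, if_neg hn0]
  unfold f
  by_cases h1 : m % 2 = 1
  · rw [if_pos h1]
    obtain ⟨u, hu, hmu⟩ := decomp (m := m + 1) (by omega)
    obtain ⟨s, hs⟩ : ∃ s, v (m + 1) = s + 1 :=
      ⟨v (m + 1) - 1, by have := v_ge (m := m + 1) (k := 1) (by omega) (by omega); omega⟩
    rw [hs] at hmu ⊢
    obtain ⟨M, hM, hP⟩ := Hmul2 t s u hu
    rw [← hmu] at hM
    obtain ⟨K, hK⟩ := c_two t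
    have e : H t ^ m = c t - X * c t + C ((2 : ℤ) ^ (s + 2)) * (M + 2 * (K * M)) := by
      have h := c_H t
      calc H t ^ m = ((1 - X) * c t * H t) * H t ^ m := by rw [h, one_mul]
        _ = (1 - X) * c t * H t ^ (m + 1) := by ring
        _ = _ := by rw [hM]; linear_combination (C ((2 : ℤ) ^ (s + 2)) * M) * hK
    obtain ⟨k, rfl⟩ : ∃ k, n = k + 1 := ⟨n - 1, by omega⟩
    rw [e, map_add, map_sub, coeff_succ_X_mul, coeff_C_mul, map_add, c_num]
    obtain ⟨⟨b0, b1, b2, b3⟩, -⟩ := c_T t k hn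
    obtain ⟨a1, a2⟩ := hP _ hn
    generalize coeff (k + 1) (c t) - coeff k (c t) = z at *
    generalize coeff (k + 1) (K * M) = y
    generalize coeff (k + 1) M = x at *
    split_ifs with g0 g3
    · have := b0 g0
      have := a2 (by omega)
      obtain ⟨x', rfl⟩ : ∃ x', x = 2 * x' := ⟨x / 2, by omega⟩
      obtain ⟨z', rfl⟩ : ∃ z', z = 8 * z' + 4 := ⟨z / 8, by omega⟩
      exact ⟨z' + 2 ^ s * (x' + y), by ring⟩
    · have := b3 g3
      have := a1 (by omega)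
      obtain ⟨x', rfl⟩ : ∃ x', x = 2 * x' + 1 := ⟨x / 2, by omega⟩
      subst z
      exact ⟨x' + y, by ring⟩
    · have : z % 4 = 2 := by
        by_cases g1 : v (k + 1) % 4 = 1
        · exact b1 g1
        · exact b2 (by omega)
      obtain ⟨z', rfl⟩ : ∃ z', z = 4 * z' + 2 := ⟨z / 4, by omega⟩
      exact ⟨z' + 2 ^ s * (x + 2 * y), by ring⟩
  · rw [if_neg h1]
    by_cases h4 : m % 4 = 0
    · rw [if_pos h4]
      obtain ⟨u, hu, hmu⟩ := decomp hm
      obtain ⟨s, hs⟩ : ∃ s, v m = s + 2 :=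
        ⟨v m - 2, by have := v_ge (m := m) (k := 2) hm (by omega); omega⟩
      rw [hs] at hmu ⊢
      obtain ⟨M, hM, hP⟩ := Hmul4 t s u hu
      rw [← hmu] at hM
      rw [hM, map_add, one, coeff_C_mul, zero_add]
      obtain ⟨a1, a2⟩ := hP _ hn
      generalize coeff n M = x at *
      by_cases g : v n % 2 = 1
      · have := a1 g
        obtain ⟨x', rfl⟩ : ∃ x', x = 2 * x' + 1 := ⟨x / 2, by omega⟩
        rw [show (v n + 1) % 2 = 0 by omega]
        exact ⟨x', by ring⟩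
      · have := a2 (by omega)
        obtain ⟨x', rfl⟩ : ∃ x', x = 4 * x' + 2 := ⟨x / 4, by omega⟩
        rw [show (v n + 1) % 2 = 1 by omega]
        exact ⟨x', by ring⟩
    · rw [if_neg h4]
      obtain ⟨j, rfl⟩ : ∃ j, m = 2 + 2 ^ (1 + 2) * j := ⟨m / 8, by omega⟩
      obtain ⟨M, hM, hP⟩ := H2 t
      obtain ⟨N, hN, hQ⟩ := H2s t 1
      obtain ⟨K, hK⟩ := pow_lin ((2 : ℤ) ^ (1 + 3)) N j
      have e : H t ^ (2 + 2 ^ (1 + 2) * j) = 1 + 4 * M + 16 * (C (j : ℤ) * N) +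
          64 * (4 * K + M * (C (j : ℤ) * N + 16 * K)) := by
        rw [pow_add, pow_mul, hN, hK, hM]
        simp only [map_pow, map_ofNat]; ring
      rw [e, map_add, map_add, map_add, one, c_num, c_num, c_num, coeff_C_mul]
      obtain ⟨a1, a2, a3, a4⟩ := hP _ hn
      obtain ⟨-, b2⟩ := hQ _ hn
      generalize coeff n (4 * K + M * (C (j : ℤ) * N + 16 * K)) = y
      generalize coeff n M = x at *
      generalize coeff n N = z at *
      split_ifs with g1 g0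
      · have := a1 g1
        obtain ⟨x', rfl⟩ : ∃ x', x = 2 * x' + 1 := ⟨x / 2, by omega⟩
        exact ⟨x' + 2 * (j * z) + 8 * y, by ring⟩
      · have : x % 4 = 2 := by
          have h' : n % 4 = 0 ∨ n % 4 = 1 ∨ n % 4 = 2 ∨ n % 4 = 3 := by omega
          rcases h' with h | h | h | h
          · have := v_ge (m := n) (k := 2) hn0 (by omega); omega
          · have := a2 h; omega
          · have := v_two h; omega
          · have := a3 h; omega
        obtain ⟨x', rfl⟩ : ∃ x', x = 4 * x' + 2 := ⟨x / 4, by omega⟩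
        exact ⟨x' + (j * z) + 4 * y, by ring⟩
      · have h40 : n % 4 = 0 := by
          by_contra hc
          by_cases h2 : n % 2 = 1
          · exact g0 (v_odd h2)
          · have := v_two (n := n) (by omega); omega
        have := a4 (by omega) h40
        have := b2 (by omega)
        obtain ⟨x', rfl⟩ : ∃ x', x = 8 * x' + 4 := ⟨x / 8, by omega⟩
        obtain ⟨z', rfl⟩ : ∃ z', z = 2 * z' := ⟨z / 2, by omega⟩
        exact ⟨x' + j * z' + 2 * y, by ring⟩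

noncomputable def g (i : ℕ) : ℤ⟦X⟧ := mk (fun j : ℕ => if 4 ^ i ∣ j then (1 : ℤ) else 0)

theorem g0 : g 0 = w := by
  ext n; simp [g, w]

theorem g_succ (i : ℕ) : g (i + 1) = E (g i) := by
  ext n
  rw [coeff_expand]
  simp only [g, coeff_mk]
  by_cases h : 4 ∣ n
  · obtain ⟨m, rfl⟩ := h
    simp only [dvd_mul_right, if_true, Nat.mul_div_cancel_left m (by norm_num : 0 < 4)]
    have : 4 ^ (i + 1) ∣ 4 * m ↔ 4 ^ i ∣ m := by
      rw [pow_succ']; exact Nat.mul_dvd_mul_iff_left (by norm_num)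
    simp [this]
  · have : ¬ 4 ^ (i + 1) ∣ n := fun h' => h (dvd_trans (dvd_pow_self 4 (by omega)) h')
    simp [h, this]

theorem F_H : ∀ t, w * (∏ i ∈ Finset.range t, g i) ^ 3 * (1 - X ^ 4 ^ t) = H t
  | 0 => by simpa [H] using w_mul
  | t + 1 => by
      have h := congrArg E (F_H t)
      simp only [map_mul, map_sub, map_one, map_pow, expand_X, map_prod] at h
      have h1 : E w * (1 - X ^ 4) = 1 := Ew_mul 4 (by norm_num)
      rw [Finset.prod_range_succ', g0, H, ← h, Q, pow_succ' 4 t, pow_mul]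
      simp only [g_succ]
      generalize (∏ i ∈ Finset.range t, E (g i)) = p
      generalize (1 : ℤ⟦X⟧) - (X ^ 4) ^ 4 ^ t = d
      linear_combination (-(w ^ 4 * p ^ 3 * d)) * h1

noncomputable def S (m n : ℕ) : ℤ :=
  coeff n ((mk (fun _ : ℕ => (1 : ℤ))) ^ m * (∏ i ∈ Finset.range (n + 1),
    mk (fun j : ℕ => if 4 ^ i ∣ j then (1 : ℤ) else 0)) ^ (m * (4 - 1)))

theorem S_eq (m n : ℕ) : S m n = coeff n (H (n + 1) ^ m) := by
  have hn : n < 4 ^ (n + 1) :=
    lt_trans (Nat.lt_pow_self (by norm_num)) (Nat.pow_lt_pow_right (by norm_num) (Nat.lt_succ_self n))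
  obtain ⟨K, hK⟩ : ∃ K : ℤ⟦X⟧, (1 - X ^ 4 ^ (n + 1)) ^ m = 1 + X ^ 4 ^ (n + 1) * K := by
    have := sub_dvd_pow_sub_pow (1 - X ^ 4 ^ (n + 1) : ℤ⟦X⟧) 1 m
    obtain ⟨K, hK⟩ := this
    exact ⟨-K, by linear_combination hK⟩
  rw [← F_H, mul_pow, hK, mul_add, mul_one, map_add, mul_left_comm, coeff_X_pow_mul',
    if_neg (by omega), add_zero, mul_pow, ← pow_mul, mul_comm 3 m]
  rfl

theorem S_zero (m : ℕ) : S m 0 = 1 := by
  simp [S]

theorem main (m n : ℕ) (hm : m ≠ 0) (h6 : m % 8 ≠ 6) (hn : n ≠ 0) : Val (S m n) (f m (v n)) := by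
  rw [S_eq]
  refine main_H _ m n hm h6 fun h => ?_
  have hlt : n < 4 ^ (n + 1) :=
    lt_trans (Nat.lt_pow_self (by norm_num)) (Nat.pow_lt_pow_right (by norm_num) (Nat.lt_succ_self n))
  exact absurd (Nat.le_of_dvd (by omega) h) (by omega)

theorem Val.padic {z : ℤ} {a : ℕ} (h : Val z a) : padicValInt 2 z = a := by
  obtain ⟨y, rfl⟩ := h
  have h1 : padicValInt 2 (2 * y + 1) = 0 := padicValInt.eq_zero_of_not_dvd (by omega)
  have h2 : padicValInt 2 ((2 : ℤ) ^ a) = a := by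
    have : ((2 : ℤ) ^ a) = ((2 ^ a : ℕ) : ℤ) := by push_cast; rfl
    rw [this, padicValInt.of_nat]; simp
  rw [padicValInt.mul (by positivity) (by omega), h1, h2, add_zero]

theorem Val.dvd_iff {z : ℤ} {a : ℕ} (h : Val z a) (s : ℕ) : (2 : ℤ) ^ s ∣ z ↔ s ≤ a := by
  obtain ⟨y, rfl⟩ := h
  constructor
  · intro hd
    by_contra hc
    have : (2 : ℤ) ^ a * 2 ∣ 2 ^ a * (2 * y + 1) := by
      rw [← pow_succ]; exact (pow_dvd_pow 2 (by omega)).trans hd
    have := Int.dvd_of_mul_dvd_mul_left (by positivity) this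
    omega
  · intro hs; exact (pow_dvd_pow 2 hs).mul_right _

theorem Val.phi {z : ℤ} {a : ℕ} (h : Val z a) : sSup {s : ℕ | (4 : ℤ) ^ s ∣ z} = a / 2 := by
  have : {s : ℕ | (4 : ℤ) ^ s ∣ z} = Set.Iic (a / 2) := by
    ext s
    rw [Set.mem_ofPred_eq, show (4 : ℤ) = 2 ^ 2 by norm_num, ← pow_mul, h.dvd_iff, Set.mem_Iic]
    omega
  rw [this, csSup_Iic]

theorem f_le (m r : ℕ) : f m r ≤ v m + v (m + 1) + 4 := by
  unfold f; split_ifs <;> omega

theorem f_per (m r : ℕ) (hr : 1 ≤ r) : f m (r + 4) = f m r := by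
  unfold f
  rw [show (r + 4) % 4 = r % 4 by omega, show (r + 4 + 1) % 2 = (r + 1) % 2 by omega,
    show (r + 4) % 2 = r % 2 by omega, if_neg (by omega : ¬ r + 4 = 0), if_neg (by omega : ¬ r = 0)]

theorem v_add (i n j : ℕ) (hj : j ≠ 0) (hlt : j < 2 ^ i) : v (2 ^ i * n + j) = v j := by
  obtain ⟨u, hu, hju⟩ := decomp hj
  have hv : v j < i := by
    by_contra hc
    have : 2 ^ i ∣ j := (pow_dvd_pow 2 (not_lt.1 hc)).trans (pow_padicValNat_dvd (p := 2) (n := j))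
    exact absurd (Nat.le_of_dvd (by omega) this) (by omega)
  obtain ⟨d, rfl⟩ : ∃ d, i = v j + d + 1 := ⟨i - v j - 1, by omega⟩
  have e : 2 ^ (v j + d + 1) * n + j = 2 ^ v j * (2 * (2 ^ d * n) + u) := by
    conv_lhs => rw [hju]
    rw [← hju]; ring_nf; rw [mul_comm (2 ^ v j) u] at hju; nlinarith [hju]
  rw [e, v, padicValNat.mul (by positivity) (by omega), padicValNat.prime_pow]
  have : padicValNat 2 (2 * (2 ^ d * n) + u) = 0 := v_odd (by omega)
  rw [this]; rfl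

theorem kernel_finite (e φ : ℕ → ℕ) (B : ℕ) (he : ∀ n, n ≠ 0 → e n = φ (v n))
    (hB : ∀ r, φ r ≤ B) (hp : ∀ r, 1 ≤ r → φ (r + 4) = φ r) :
    {s : ℕ → ℕ | ∃ i j, j < 2 ^ i ∧ s = fun n => e (2 ^ i * n + j)}.Finite := by
  have hv : ∀ i n, n ≠ 0 → v (2 ^ i * n) = v n + i := by
    intro i n hn
    rw [v, padicValNat.mul (by positivity) hn, padicValNat.prime_pow, add_comm]
  have hper : ∀ i, ∃ k ≤ 4, (fun n => e (2 ^ i * n)) = fun n => e (2 ^ k * n) := by
    intro i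
    induction i using Nat.strong_induction_on with
    | _ i ih =>
      by_cases hi : i ≤ 4
      · exact ⟨i, hi, rfl⟩
      · obtain ⟨k, hk, h⟩ := ih (i - 4) (by omega)
        refine ⟨k, hk, Eq.trans ?_ h⟩
        funext n
        by_cases hn : n = 0
        · simp [hn]
        · rw [he _ (by positivity), he _ (by positivity), hv _ _ hn, hv _ _ hn,
            show v n + i = v n + (i - 4) + 4 by omega, hp _ (by omega)]
  refine Set.Finite.subset (((Set.finite_Iic B).image (fun c => fun _ : ℕ => c)).union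
    ((Set.finite_Iic 4).image (fun k => fun n => e (2 ^ k * n)))) ?_
  rintro s ⟨i, j, hj, rfl⟩
  by_cases h0 : j = 0
  · subst h0
    obtain ⟨k, hk, h⟩ := hper i
    exact Or.inr ⟨k, hk, by simpa using h.symm⟩
  · refine Or.inl ⟨φ (v j), hB _, ?_⟩
    funext n
    rw [he _ (by omega), v_add i n j h0 hj]

end Pool.Agent.H17.S4
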