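import Pool.Agent.H17.U2

set_option autoImplicit false

namespace Pool.Agent.H17.S4
open PowerSeries
open Pool.Agent.H17.U2 (evG evG_add evG_smul evG_mul evG_pow evG_dvd lsub evG_sub U U_add U_C
  coeff_U U_expand coeff_congr)

noncomputable def y : ℤ⟦X⟧ := X * w

theorem w_y : w = 1 + y := by rw [y]; linear_combination w_mul

theorem Q_y : Q = 1 + 4 * y + 6 * y ^ 2 + 4 * y ^ 3 := by
  have : Q = w ^ 4 - y ^ 4 := by rw [Q, y]; ring
  rw [this, w_y]; ring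

theorem y4 : y ^ 4 = E y * Q := by
  have h : E y = X ^ 4 * E w := by simp [y, expand_X]
  have h1 : E w * (1 - X ^ 4) = 1 := Ew_mul 4 (by norm_num)
  rw [h, Q, y]
  linear_combination (-(X ^ 4 * w ^ 4)) * h1

theorem coeff_wy : ∀ r j : ℕ, coeff j (w * y ^ r) = (j.choose r : ℤ)
  | 0, j => by simp [w]
  | r + 1, 0 => by simp [y]
  | r + 1, j + 1 => by
      have e : w * y ^ (r + 1) = X * (w * y ^ r) + X * (w * y ^ (r + 1)) := by
        have : y = X * w := rfl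
        linear_combination (w * y ^ r) * this + (X * w * y ^ r) * w_y
      rw [e, map_add, coeff_succ_X_mul, coeff_succ_X_mul, coeff_wy r j, coeff_wy (r + 1) j,
        Nat.choose_succ_succ]
      push_cast; ring

theorem ch2 : ∀ n : ℕ, 2 * (n.choose 2 : ℤ) = n * (n - 1)
  | 0 => by simp
  | n + 1 => by
      rw [Nat.choose_succ_succ, Nat.choose_one_right]; push_cast
      linear_combination ch2 n

theorem ch3 : ∀ n : ℕ, 6 * (n.choose 3 : ℤ) = n * (n - 1) * (n - 2)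
  | 0 => by simp
  | n + 1 => by
      rw [Nat.choose_succ_succ]; push_cast
      linear_combination ch3 n + 3 * ch2 n

def cc1 (d : ℕ) : List ℤ := [d, 4]
def cc2 (d : ℕ) : List ℤ := [d.choose 2, 6 + 4 * d, 16]
def cc3 (d : ℕ) : List ℤ := [d.choose 3, 4 + 6 * d + 4 * d.choose 2, 48 + 16 * d, 64]

theorem coeff_w4 (n : ℕ) (a b c e : ℤ) : coeff n (w * evG y [a, b, c, e]) =
    a + b * n + c * n.choose 2 + e * n.choose 3 := by
  have : w * evG y [a, b, c, e] = C a * (w * y ^ 0) + C b * (w * y ^ 1) + C c * (w * y ^ 2) +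
      C e * (w * y ^ 3) := by simp [evG]; ring
  rw [this]
  simp only [map_add, coeff_C_mul, coeff_wy]
  simp

theorem U_w0 (d : ℕ) : U 4 d w = w := by
  ext n; simp [coeff_U, w]

theorem U_w1 (d : ℕ) : U 4 d (w * y) = w * evG y (cc1 d) := by
  ext n
  have h := coeff_w4 n d 4 0 0
  have h1 := coeff_wy 1 (4 * n + d)
  rw [pow_one] at h1
  rw [coeff_U, h1, show evG y (cc1 d) = evG y [d, 4, 0, 0] by simp [cc1, evG], h]
  simp; ring

theorem U_w2 (d : ℕ) : U 4 d (w * y ^ 2) = w * evG y (cc2 d) := by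
  ext n
  have h := coeff_w4 n (d.choose 2) (6 + 4 * d) 16 0
  rw [coeff_U, coeff_wy,
    show evG y (cc2 d) = evG y [d.choose 2, 6 + 4 * d, 16, 0] by simp [cc2, evG], h]
  have a1 := ch2 (4 * n + d)
  have a2 := ch2 n
  have a3 := ch2 d
  push_cast at a1
  have : 2 * (((4 * n + d).choose 2 : ℕ) : ℤ) =
      2 * (d.choose 2 + (6 + 4 * d) * n + 16 * n.choose 2 + 0 * n.choose 3) := by
    linear_combination a1 - a3 - 16 * a2
  omega

theorem U_w3 (d : ℕ) : U 4 d (w * y ^ 3) = w * evG y (cc3 d) := by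
  ext n
  rw [coeff_U, coeff_wy, cc3, coeff_w4]
  have a1 := ch3 (4 * n + d)
  have a2 := ch2 n
  have a3 := ch2 d
  have a4 := ch3 n
  have a5 := ch3 d
  push_cast at a1
  have : 6 * (((4 * n + d).choose 3 : ℕ) : ℤ) = 6 * (d.choose 3 + (4 + 6 * d + 4 * d.choose 2) * n +
      (48 + 16 * d) * n.choose 2 + 64 * n.choose 3) := by
    linear_combination a1 - a5 - 12 * (n : ℤ) * a3 - 3 * (48 + 16 * (d : ℤ)) * a2 - 64 * a4
  omega

theorem Uw (d : ℕ) (hd : d < 4) (p0 p1 p2 p3 : ℤ⟦X⟧) :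
    U 4 d (w * (E p0 + E p1 * y + E p2 * y ^ 2 + E p3 * y ^ 3)) =
      w * (p0 + p1 * evG y (cc1 d) + p2 * evG y (cc2 d) + p3 * evG y (cc3 d)) := by
  have e : w * (E p0 + E p1 * y + E p2 * y ^ 2 + E p3 * y ^ 3) =
      E p0 * w + E p1 * (w * y) + E p2 * (w * y ^ 2) + E p3 * (w * y ^ 3) := by ring
  rw [e, U_add, U_add, U_add, U_expand 4 d _ hd, U_expand 4 d _ hd, U_expand 4 d _ hd,
    U_expand 4 d _ hd, U_w0, U_w1, U_w2, U_w3]
  ring

noncomputable def Lam : Subring ℤ⟦X⟧ := Subring.closure {4 * y}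

theorem z_mem : 4 * y ∈ Lam := Subring.subset_closure rfl

theorem C_mem (c : ℤ) : (C c : ℤ⟦X⟧) ∈ Lam := by rw [eq_intCast]; exact intCast_mem _ c

theorem Lam_dec {P : ℤ⟦X⟧} (h : P ∈ Lam) : ∃ c : ℤ, ∃ P' ∈ Lam, P = C c + 4 * y * P' := by
  induction h using Subring.closure_induction with
  | mem x hx => obtain rfl : x = 4 * y := hx; exact ⟨0, 1, one_mem _, by simp⟩
  | zero => exact ⟨0, 0, zero_mem _, by simp⟩
  | one => exact ⟨1, 0, zero_mem _, by simp⟩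
  | add a b _ _ ha hb =>
    obtain ⟨c, P, hP, rfl⟩ := ha
    obtain ⟨c', P', hP', rfl⟩ := hb
    exact ⟨c + c', P + P', add_mem hP hP', by rw [map_add]; ring⟩
  | neg a _ ha =>
    obtain ⟨c, P, hP, rfl⟩ := ha
    exact ⟨-c, -P, neg_mem hP, by rw [map_neg]; ring⟩
  | mul a b _ _ ha hb =>
    obtain ⟨c, P, hP, rfl⟩ := ha
    obtain ⟨c', P', hP', rfl⟩ := hb
    exact ⟨c * c', C c * P' + C c' * P + 4 * y * (P * P'), add_mem (add_mem (mul_mem (C_mem _) hP')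
      (mul_mem (C_mem _) hP)) (mul_mem z_mem (mul_mem hP hP')), by rw [map_mul]; ring⟩

/-- the lattice -/
def M (F : ℤ⟦X⟧) : Prop := ∃ p0 ∈ Lam, ∃ p1 ∈ Lam, ∃ p2 ∈ Lam, ∃ p3 ∈ Lam,
  F = E p0 + E p1 * y + E (2 * p2) * y ^ 2 + E (2 * p3) * y ^ 3

theorem nm (k : ℕ) [k.AtLeastTwo] {p : ℤ⟦X⟧} (h : p ∈ Lam) : (OfNat.ofNat k : ℤ⟦X⟧) * p ∈ Lam :=
  mul_mem (ofNat_mem _ k) h

theorem M.add {F G : ℤ⟦X⟧} (h : M F) (h' : M G) : M (F + G) := by
  obtain ⟨p0, h0, p1, h1, p2, h2, p3, h3, rfl⟩ := h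
  obtain ⟨q0, g0, q1, g1, q2, g2, q3, g3, rfl⟩ := h'
  exact ⟨_, add_mem h0 g0, _, add_mem h1 g1, _, add_mem h2 g2, _, add_mem h3 g3, by
    simp only [map_add, map_mul, map_ofNat]; ring⟩

theorem M.cmul {F : ℤ⟦X⟧} (c : ℤ) (h : M F) : M (C c * F) := by
  obtain ⟨p0, h0, p1, h1, p2, h2, p3, h3, rfl⟩ := h
  exact ⟨_, mul_mem (C_mem c) h0, _, mul_mem (C_mem c) h1, _, mul_mem (C_mem c) h2, _,
    mul_mem (C_mem c) h3, by simp only [map_mul, map_ofNat, expand_C]; ring⟩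

theorem M.nmul {F : ℤ⟦X⟧} (k : ℕ) [k.AtLeastTwo] (h : M F) : M ((OfNat.ofNat k : ℤ⟦X⟧) * F) := by
  have := h.cmul (OfNat.ofNat k)
  rwa [map_ofNat] at this

theorem M_one : M 1 := ⟨1, one_mem _, 0, zero_mem _, 0, zero_mem _, 0, zero_mem _, by simp⟩

theorem M_y : M y := ⟨0, zero_mem _, 1, one_mem _, 0, zero_mem _, 0, zero_mem _, by simp⟩

theorem M.a {F : ℤ⟦X⟧} (h : M F) : M (2 * y * F) := by
  obtain ⟨p0, h0, p1, h1, p2, h2, p3, h3, rfl⟩ := h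
  have z := mul_mem z_mem h3
  refine ⟨_, z, _, add_mem (nm 2 h0) (nm 4 z), _, add_mem h1 (nm 3 z), _,
    add_mem (nm 2 h2) (nm 2 z), ?_⟩
  have := y4
  rw [Q_y] at this
  simp only [map_add, map_mul, map_ofNat]
  linear_combination (4 * E p3) * this

theorem M.b {F : ℤ⟦X⟧} (h : M F) : M (2 * y ^ 2 * F) := by
  obtain ⟨p0, h0, p1, h1, p2, h2, p3, h3, rfl⟩ := h
  have z := mul_mem z_mem h3
  have u := add_mem (mul_mem z_mem h2) (mul_mem z_mem z)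
  refine ⟨_, u, _, add_mem z (nm 4 u), _, add_mem (add_mem h0 (nm 2 z)) (nm 3 u), _,
    add_mem (add_mem h1 (nm 3 z)) (nm 2 u), ?_⟩
  have := y4
  rw [Q_y] at this
  simp only [map_add, map_mul, map_ofNat]
  linear_combination (4 * E p2 + 4 * E p3 * y + 16 * E y * E p3) * this

theorem M.q {F : ℤ⟦X⟧} (h : M F) : M (F * Q) := by
  have := ((h.add (h.a.nmul 2)).add (h.b.nmul 3)).add h.b.a
  convert this using 1
  rw [Q_y]; ring

theorem M.qpow {F : ℤ⟦X⟧} (h : M F) : ∀ m : ℕ, M (F * Q ^ m)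
  | 0 => by simpa using h
  | m + 1 => by rw [pow_succ, ← mul_assoc]; exact (M.qpow h m).q

theorem M.lam {P : ℤ⟦X⟧} (hP : P ∈ Lam) : ∀ F, M F → M (P * F) := by
  induction hP using Subring.closure_induction with
  | mem x hx =>
    obtain rfl : x = 4 * y := hx
    intro F h
    convert h.a.nmul 2 using 1; ring
  | zero => intro F h; simpa using h.cmul 0
  | one => intro F h; simpa using h
  | add a b _ _ ha hb => intro F h; rw [add_mul]; exact (ha F h).add (hb F h)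
  | neg a _ ha => intro F h; simpa using (ha F h).cmul (-1)
  | mul a b _ _ ha hb => intro F h; rw [mul_assoc]; exact ha _ (hb F h)

theorem M.U {F : ℤ⟦X⟧} (h : M F) (d : ℕ) (hd : d < 4) : ∃ P ∈ Lam, U 4 d (w * F) = w * P := by
  obtain ⟨p0, h0, p1, h1, p2, h2, p3, h3, rfl⟩ := h
  refine ⟨_, ?_, Uw d hd _ _ _ _⟩
  have e1 : evG y (cc1 d) = C (d : ℤ) + 4 * y := by simp [cc1, evG]; ring
  have e2 : 2 * p2 * evG y (cc2 d) = p2 * (C (2 * (d.choose 2 : ℤ)) + C (3 + 2 * (d : ℤ)) * (4 * y)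
      + 2 * (4 * y) ^ 2) := by simp [cc2, evG]; ring
  have e3 : 2 * p3 * evG y (cc3 d) = p3 * (C (2 * (d.choose 3 : ℤ)) +
      C (2 + 3 * (d : ℤ) + 2 * (d.choose 2 : ℤ)) * (4 * y) + C (6 + 2 * (d : ℤ)) * (4 * y) ^ 2
      + 2 * (4 * y) ^ 3) := by simp [cc3, evG]; ring
  rw [e1, e2, e3]
  exact add_mem (add_mem (add_mem h0 (mul_mem h1 (add_mem (C_mem _) z_mem)))
    (mul_mem h2 (add_mem (add_mem (C_mem _) (mul_mem (C_mem _) z_mem)) (nm 2 (pow_mem z_mem 2)))))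
    (mul_mem h3 (add_mem (add_mem (add_mem (C_mem _) (mul_mem (C_mem _) z_mem))
      (mul_mem (C_mem _) (pow_mem z_mem 2))) (nm 2 (pow_mem z_mem 3))))

theorem Q_mod8 : ∀ j : ℕ, ∃ K, Q ^ (2 + 4 * j) = 1 + 4 * y ^ 2 + 4 * y ^ 4 + 8 * K
  | 0 => ⟨y + 3 * y ^ 2 + 7 * y ^ 3 + 8 * y ^ 4 + 6 * y ^ 5 + 2 * y ^ 6, by rw [Q_y]; ring⟩
  | j + 1 => by
      obtain ⟨K, hK⟩ := Q_mod8 j
      obtain ⟨L, hL⟩ := Q4
      refine ⟨K + Q ^ (2 + 4 * j) * (per t4 8 + 4 * L), ?_⟩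
      rw [show 2 + 4 * (j + 1) = 2 + 4 * j + 4 by ring, pow_add, hL]
      linear_combination hK

def Inv (A : ℤ⟦X⟧) (s : ℕ) : Prop := ∃ F, M F ∧ A = C (2 ^ s) * (w * F) ∧
  ∃ a g c : ℤ, ∃ K, g % 2 = 1 ∧ F = C a + C g * y + 4 * C c * y ^ 2 + 8 * K

theorem Inv.step {A : ℤ⟦X⟧} {s : ℕ} (h : Inv A s) (j : ℕ) :
    ∃ d < 4, Inv (U 4 d (A * Q ^ (2 + 4 * j))) (s + 2) := by
  obtain ⟨F, hF, rfl, a, g, c, K, hg, hK⟩ := h
  obtain ⟨d, hd, h4⟩ : ∃ d : ℕ, d < 4 ∧ (a + g * d) % 4 = 0 := by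
    have : a % 4 = 0 ∨ (a + g) % 4 = 0 ∨ (a + g * 2) % 4 = 0 ∨ (a + g * 3) % 4 = 0 := by
      have h1 : g % 4 = 1 ∨ g % 4 = 3 := by omega
      have h2 : a % 4 = 0 ∨ a % 4 = 1 ∨ a % 4 = 2 ∨ a % 4 = 3 := by omega
      rcases h1 with h1 | h1 <;> rcases h2 with h2 | h2 | h2 | h2 <;> omega
    rcases this with h | h | h | h
    · exact ⟨0, by norm_num, by simpa using h⟩
    · exact ⟨1, by norm_num, by simpa using h⟩
    · exact ⟨2, by norm_num, by simpa using h⟩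
    · exact ⟨3, by norm_num, by simpa using h⟩
  refine ⟨d, hd, ?_⟩
  obtain ⟨L, hL⟩ := Q_mod8 j
  obtain ⟨P, hP, hU⟩ := (hF.qpow (2 + 4 * j)).U d hd
  obtain ⟨c0, P1, hP1, rfl⟩ := Lam_dec hP
  obtain ⟨c1, P2, hP2, rfl⟩ := Lam_dec hP1
  obtain ⟨c2, P3, hP3, h3⟩ := Lam_dec hP2
  obtain ⟨Z, hZ⟩ : ∃ Z, w * (F * Q ^ (2 + 4 * j)) = C a * (w * y ^ 0) + C g * (w * y ^ 1) +
      C (4 * (a + c)) * (w * y ^ 2) + C (4 * g) * (w * y ^ 3) + C (4 * a) * (w * y ^ 4) +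
      C (4 * g) * (w * y ^ 5) + C 8 * Z := by
    refine ⟨w * (K * Q ^ (2 + 4 * j) + (C a + C g * y + 4 * C c * y ^ 2) * L +
      2 * C c * y ^ 2 * (y ^ 2 + y ^ 4)), ?_⟩
    simp only [map_mul, map_add, map_ofNat]
    linear_combination (w * Q ^ (2 + 4 * j)) * hK + (w * (C a + C g * y + 4 * C c * y ^ 2)) * hL
  have e : w * (C c0 + 4 * y * (C c1 + 4 * y * P2)) = C c0 * (w * y ^ 0) + C (4 * c1) * (w * y ^ 1)
      + X ^ 2 * (16 * w ^ 3 * P2) := by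
    simp only [map_mul, map_ofNat, y]; ring
  have k0 := congrArg (coeff 0) hU
  have k1 := congrArg (coeff 1) hU
  rw [coeff_U, hZ, e] at k0 k1
  simp only [map_add, coeff_C_mul, coeff_wy, coeff_X_pow_mul'] at k0 k1
  have hc : c0 % 4 = 0 ∧ c1 % 2 = 1 := by
    generalize coeff (4 * 0 + d) Z = z0 at k0
    generalize coeff (4 * 1 + d) Z = z1 at k1
    interval_cases d <;> simp [Nat.choose] at k0 k1 h4 <;> omega
  obtain ⟨a', rfl⟩ : ∃ a', c0 = 4 * a' := ⟨c0 / 4, by omega⟩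
  refine ⟨C a' + C c1 * y + 4 * y ^ 2 * P2, ?_, ?_, a', c1, c2, 2 * y ^ 3 * P3, hc.2, ?_⟩
  · have := ((M_one.cmul a').add (M_y.cmul c1)).add ((M.lam hP2 _ M_one).b.nmul 2)
    convert this using 1; ring
  · rw [mul_assoc, U_C, mul_assoc, hU]
    simp only [map_mul, map_pow, map_ofNat]; ring
  · rw [h3]; ring

theorem stepH (j m d n : ℕ) (hd : d < 4) (A : ℤ⟦X⟧) :
    coeff (4 * n + d) (A * H (j + 1) ^ m) = coeff n (U 4 d (A * Q ^ m) * H j ^ m) := by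
  rw [← coeff_U, mul_comm (U 4 d _), ← U_expand 4 d (by norm_num) hd, H, mul_pow, map_pow]
  congr 2; ring

theorem Inv.iter (j : ℕ) : ∀ (r : ℕ) (A : ℤ⟦X⟧) (s : ℕ), Inv A s →
    ∃ n < 4 ^ r, (2 : ℤ) ^ (s + 2 * r) ∣ coeff n (A * H r ^ (2 + 4 * j))
  | 0, A, s, h => by
      obtain ⟨F, -, rfl, -⟩ := h
      refine ⟨0, by simp, ?_⟩
      rw [mul_assoc, coeff_C_mul]; exact dvd_mul_right _ _
  | r + 1, A, s, h => by
      obtain ⟨d, hd, h'⟩ := h.step j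
      obtain ⟨n, hn, h2⟩ := Inv.iter j r _ _ h'
      refine ⟨4 * n + d, by rw [pow_succ]; omega, ?_⟩
      rw [stepH _ _ _ _ hd, show s + 2 * (r + 1) = s + 2 + 2 * r by ring]
      exact h2

theorem H_succ_dvd : ∀ j, (X : ℤ⟦X⟧) ^ 4 ^ j ∣ H (j + 1) - H j
  | 0 => ⟨w * (4 + 6 * y + 4 * y ^ 2), by
      simp only [H, map_one, mul_one]; rw [Q_y, y]; ring⟩
  | j + 1 => by
      obtain ⟨K, hK⟩ := H_succ_dvd j
      have h := congrArg E hK
      simp only [map_sub, map_mul, map_pow, expand_X] at h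
      refine ⟨Q * E K, ?_⟩
      rw [pow_succ' 4 j, pow_mul]
      change Q * E (H (j + 1)) - Q * E (H j) = _
      linear_combination Q * h

theorem H_dvd (j i : ℕ) : (X : ℤ⟦X⟧) ^ 4 ^ j ∣ H (j + i) - H j := by
  induction i with
  | zero => simp
  | succ i ih =>
    have h := (pow_dvd_pow X (Nat.pow_le_pow_right (by norm_num : 0 < 4)
      (Nat.le_add_right j i))).trans (H_succ_dvd (j + i))
    have := dvd_add h ih
    rwa [sub_add_sub_cancel] at this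

theorem coeff_H (m n j j' : ℕ) (h : n < 4 ^ j) (h' : n < 4 ^ j') :
    coeff n (H j ^ m) = coeff n (H j' ^ m) := by
  wlog hle : j ≤ j' generalizing j j'
  · exact (this j' j h' h (by omega)).symm
  obtain ⟨i, rfl⟩ := Nat.exists_eq_add_of_le hle
  symm
  exact coeff_congr h ((H_dvd j i).trans (sub_dvd_pow_sub_pow _ _ m))

theorem S_eq' (m n j : ℕ) (h : n < 4 ^ j) : S m n = coeff n (1 * H j ^ m) := by
  rw [S_eq, one_mul]
  exact coeff_H m n _ _ (lt_trans (Nat.lt_pow_self (by norm_num))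
    (Nat.pow_lt_pow_right (by norm_num) (Nat.lt_succ_self n))) h

end Pool.Agent.H17.S4
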