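import Pool.Agent.H17.S4c

set_option autoImplicit false

namespace Pool.Agent.H17.S4
open PowerSeries
open Pool.Agent.H17.U2 (evG evG_add evG_smul evG_mul evG_pow evG_dvd lsub evG_sub U U_add U_C
  coeff_U U_expand coeff_congr)

def red : List ℤ → List ℤ × List ℤ × List ℤ × List ℤ
  | [] => ([], [], [], [])
  | x :: l => (x :: (red l).2.2.2, ladd (red l).1 (0 :: (red l).2.2.2.map (fun t => 4 * t)),
      ladd (red l).2.1 (0 :: (red l).2.2.2.map (fun t => 6 * t)),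
      ladd (red l).2.2.1 (0 :: (red l).2.2.2.map (fun t => 4 * t)))

theorem red_eq : ∀ l : List ℤ, evG y l = E (evG y (red l).1) + E (evG y (red l).2.1) * y +
    E (evG y (red l).2.2.1) * y ^ 2 + E (evG y (red l).2.2.2) * y ^ 3
  | [] => by simp [red, evG]
  | x :: l => by
      rw [evG, red_eq l]
      simp only [red, evG_add, evG, evG_smul, map_add, map_mul, expand_C,
        map_zero, map_ofNat]
      have := y4
      rw [Q_y] at this
      linear_combination (E (evG y (red l).2.2.2)) * this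

def phi' (d : ℕ) (p : List ℤ × List ℤ × List ℤ × List ℤ) : List ℤ :=
  ladd (ladd (ladd p.1 (lmul (cc1 d) p.2.1)) (lmul (cc2 d) p.2.2.1)) (lmul (cc3 d) p.2.2.2)

def phi (d : ℕ) (l : List ℤ) : List ℤ := phi' d (red l)

theorem U_phi (d : ℕ) (hd : d < 4) (l : List ℤ) : U 4 d (w * evG y l) = w * evG y (phi d l) := by
  rw [red_eq l, Uw d hd]
  simp only [phi, phi', evG_add, evG_mul]; ring

theorem U0_y (c : ℤ) (P : ℤ⟦X⟧) : U 4 0 (C c + X * P) = C c + X * U 4 3 P := by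
  ext n
  rw [coeff_U, map_add, map_add]
  rcases n with _ | n
  · simp
  · rw [show 4 * (n + 1) + 0 = 4 * n + 3 + 1 by ring, coeff_succ_X_mul, coeff_succ_X_mul, coeff_U,
      coeff_C, coeff_C, if_neg (by omega), if_neg (by omega)]

theorem U1_y (c : ℤ) (P : ℤ⟦X⟧) : U 4 1 (C c + X * P) = U 4 0 P := by
  ext n
  rw [coeff_U, map_add, coeff_succ_X_mul, coeff_U, coeff_C, if_neg (by omega)]; simp

def u0 (l : List ℤ) : List ℤ := l.headD 0 :: phi 3 l.tail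
def u1 (l : List ℤ) : List ℤ := phi 0 l.tail

theorem ev_split (l : List ℤ) : evG y l = C (l.headD 0) + X * (w * evG y l.tail) := by
  cases l <;> simp [evG, y, mul_assoc]

theorem U0_ev (l : List ℤ) : U 4 0 (evG y l) = evG y (u0 l) := by
  rw [ev_split l, U0_y, U_phi 3 (by norm_num), u0, evG, y, mul_assoc]

theorem U1_ev (l : List ℤ) : U 4 1 (evG y l) = w * evG y (u1 l) := by
  rw [ev_split l, U1_y, U_phi 0 (by norm_num), u1]

def Cg (A : ℤ⟦X⟧) (l : List ℤ) : Prop := ∃ K, A = evG y l + C 512 * K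

theorem Cg.mul {A B : ℤ⟦X⟧} {a b : List ℤ} (h : Cg A a) (h' : Cg B b) : Cg (A * B) (lmul a b) := by
  obtain ⟨K, rfl⟩ := h
  obtain ⟨L, rfl⟩ := h'
  exact ⟨K * evG y b + evG y a * L + C 512 * K * L, by rw [evG_mul]; ring⟩

theorem Cg.trans {A : ℤ⟦X⟧} {a b : List ℤ} (h : Cg A a)
    (h' : (lsub a b).all (fun x => x % 512 == 0) = true) : Cg A b := by
  obtain ⟨K, rfl⟩ := h
  have := evG_dvd y 512 _ h'
  rw [evG_sub] at this
  exact ⟨K + evG y ((lsub a b).map (fun x => x / 512)), by linear_combination this⟩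

theorem Cg.u0 {A : ℤ⟦X⟧} {a : List ℤ} (h : Cg A a) : Cg (U 4 0 A) (u0 a) := by
  obtain ⟨K, rfl⟩ := h
  exact ⟨_, by rw [U_add, U_C, U0_ev]⟩

def q8 : List ℤ := [1, 32, 496, 352, 112, 448, 0, 384, 352, 256, 0, 0, 256, 0, 0, 0, 256]

def TT : List (List ℤ) :=
  [[1, 24, 276, 488, 380, 400, 336, 320, 368, 256, 448, 128, 320, 256, 256],
   [1, 56, 4, 72, 172, 80, 336, 192, 16, 256, 320, 384, 448, 256, 256, 0, 256],
   [1, 88, 244, 168, 220, 272, 336, 64, 432, 256, 192, 128, 64, 256, 256],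
   [1, 120, 484, 264, 12, 464, 336, 448, 80, 256, 64, 384, 192, 256, 256, 0, 256],
   [1, 152, 212, 360, 60, 144, 336, 320, 496, 256, 448, 128, 320, 256, 256],
   [1, 184, 452, 456, 364, 336, 336, 192, 144, 256, 320, 384, 448, 256, 256, 0, 256],
   [1, 216, 180, 40, 412, 16, 336, 64, 48, 256, 192, 128, 64, 256, 256],
   [1, 248, 420, 136, 204, 208, 336, 448, 208, 256, 64, 384, 192, 256, 256, 0, 256],
   [1, 280, 148, 232, 252, 400, 336, 320, 112, 256, 448, 128, 320, 256, 256],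
   [1, 312, 388, 328, 44, 80, 336, 192, 272, 256, 320, 384, 448, 256, 256, 0, 256],
   [1, 344, 116, 424, 92, 272, 336, 64, 176, 256, 192, 128, 64, 256, 256],
   [1, 376, 356, 8, 396, 464, 336, 448, 336, 256, 64, 384, 192, 256, 256, 0, 256],
   [1, 408, 84, 104, 444, 144, 336, 320, 240, 256, 448, 128, 320, 256, 256],
   [1, 440, 324, 200, 236, 336, 336, 192, 400, 256, 320, 384, 448, 256, 256, 0, 256],
   [1, 472, 52, 296, 284, 16, 336, 64, 304, 256, 192, 128, 64, 256, 256],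
   [1, 504, 292, 392, 76, 208, 336, 448, 464, 256, 64, 384, 192, 256, 256, 0, 256],
   [1, 24, 20, 488, 124, 400, 336, 320, 368, 256, 448, 128, 320, 256, 256],
   [1, 56, 260, 72, 428, 80, 336, 192, 16, 256, 320, 384, 448, 256, 256, 0, 256],
   [1, 88, 500, 168, 476, 272, 336, 64, 432, 256, 192, 128, 64, 256, 256],
   [1, 120, 228, 264, 268, 464, 336, 448, 80, 256, 64, 384, 192, 256, 256, 0, 256],
   [1, 152, 468, 360, 316, 144, 336, 320, 496, 256, 448, 128, 320, 256, 256],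
   [1, 184, 196, 456, 108, 336, 336, 192, 144, 256, 320, 384, 448, 256, 256, 0, 256],
   [1, 216, 436, 40, 156, 16, 336, 64, 48, 256, 192, 128, 64, 256, 256],
   [1, 248, 164, 136, 460, 208, 336, 448, 208, 256, 64, 384, 192, 256, 256, 0, 256],
   [1, 280, 404, 232, 508, 400, 336, 320, 112, 256, 448, 128, 320, 256, 256],
   [1, 312, 132, 328, 300, 80, 336, 192, 272, 256, 320, 384, 448, 256, 256, 0, 256],
   [1, 344, 372, 424, 348, 272, 336, 64, 176, 256, 192, 128, 64, 256, 256],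
   [1, 376, 100, 8, 140, 464, 336, 448, 336, 256, 64, 384, 192, 256, 256, 0, 256],
   [1, 408, 340, 104, 188, 144, 336, 320, 240, 256, 448, 128, 320, 256, 256],
   [1, 440, 68, 200, 492, 336, 336, 192, 400, 256, 320, 384, 448, 256, 256, 0, 256],
   [1, 472, 308, 296, 28, 16, 336, 64, 304, 256, 192, 128, 64, 256, 256],
   [1, 504, 36, 392, 332, 208, 336, 448, 464, 256, 64, 384, 192, 256, 256, 0, 256]]

def Tq (i : ℕ) : List ℤ := TT.getD i []

def fin (i : ℕ) : List ℤ :=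
  u1 (lmul (if i % 2 = 0 then u0 (lmul (u0 (Tq i)) (Tq i)) else u0 (Tq i)) (Tq i))

def ok (l : List ℤ) : Bool := (lsub l [l.getD 0 0, l.getD 1 0]).all (fun x => x % 512 == 0) &&
  l.getD 0 0 % 64 == 0 && l.getD 1 0 % 128 == 64

theorem chkT : ∀ i < 32, (lsub (lmul (Tq i) q8) (Tq ((i + 1) % 32))).all (fun x => x % 512 == 0)
    = true ∧ ok (fin i) = true := by decide +kernel

theorem Q_ev : Q = evG y [1, 4, 6, 4] := by simp [evG, Q_y]; ring

theorem Cg_pow (k : ℕ) : Cg (Q ^ k) (lpow [1, 4, 6, 4] k) := ⟨0, by rw [evG_pow, Q_ev]; simp⟩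

theorem Cg_T : ∀ i : ℕ, Cg (Q ^ (6 + 8 * i)) (Tq (i % 32))
  | 0 => (Cg_pow 6).trans (by decide +kernel)
  | i + 1 => by
      have h := ((Cg_T i).mul ((Cg_pow 8).trans (b := q8) (by decide +kernel))).trans
        (chkT (i % 32) (Nat.mod_lt _ (by norm_num))).1
      rw [← pow_add, Nat.mod_add_mod] at h
      exact h

def K1 (A : ℤ⟦X⟧) : Prop := ∃ P, M P ∧ A = 1 + 2 * y * P

theorem K1.qpow {A : ℤ⟦X⟧} (h : K1 A) : ∀ m, K1 (A * Q ^ m)
  | 0 => by simpa using h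
  | m + 1 => by
      obtain ⟨P, hP, h⟩ := K1.qpow h m
      refine ⟨_, ((hP.q.add (M_one.nmul 2)).add (M_y.nmul 3)).add M_one.b, ?_⟩
      rw [pow_succ, ← mul_assoc, h]
      linear_combination Q_y

theorem K1.u0 {A : ℤ⟦X⟧} (h : K1 A) : K1 (U 4 0 A) := by
  obtain ⟨P, hP, rfl⟩ := h
  obtain ⟨L, hL, h⟩ := hP.U 3 (by norm_num)
  refine ⟨_, M.lam hL _ M_one, ?_⟩
  have : 1 + 2 * y * P = C 1 + X * (C 2 * (w * P)) := by simp [y]; ring
  rw [this, U0_y, U_C, h]; simp [y]; ring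

theorem K1.u1 {A : ℤ⟦X⟧} (h : K1 A) : ∃ L ∈ Lam, U 4 1 A = 2 * w * L := by
  obtain ⟨P, hP, rfl⟩ := h
  obtain ⟨L, hL, h⟩ := hP.U 0 (by norm_num)
  refine ⟨L, hL, ?_⟩
  have : 1 + 2 * y * P = C 1 + X * (C 2 * (w * P)) := by simp [y]; ring
  rw [this, U1_y, U_C, h]; simp; ring

theorem base {A : ℤ⟦X⟧} {a : List ℤ} (h : K1 A) (h' : Cg A a) (hk : ok (u1 a) = true) :
    Inv (U 4 1 A) 6 := by
  obtain ⟨L, hL, e⟩ := h.u1
  obtain ⟨K, hK⟩ := h'
  simp only [ok, Bool.and_eq_true, beq_iff_eq] at hk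
  obtain ⟨⟨k1, k2⟩, k3⟩ := hk
  have k4 := evG_dvd y 512 _ k1
  rw [evG_sub] at k4
  have e2 : U 4 1 A = w * evG y (u1 a) + C 512 * U 4 1 K := by rw [hK, U_add, U_C, U1_ev]
  generalize (u1 a).getD 0 0 = l0 at *
  generalize (u1 a).getD 1 0 = l1 at *
  generalize evG y (List.map (fun x => x / 512) (lsub (u1 a) [l0, l1])) = K2 at k4
  obtain ⟨c0, P1, hP1, rfl⟩ := Lam_dec hL
  obtain ⟨c1, P2, hP2, rfl⟩ := Lam_dec hP1
  obtain ⟨c2, P3, hP3, rfl⟩ := Lam_dec hP2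
  obtain ⟨c3, P4, hP4, rfl⟩ := Lam_dec hP3
  have e3 : w * evG y [2 * c0, 8 * c1, 32 * c2, 128 * c3] = w * evG y [l0, l1, 0, 0] +
      C 512 * (U 4 1 K + w * K2 - w * y ^ 4 * P4) := by
    simp only [evG, map_mul, map_ofNat, map_zero] at k4 e2 ⊢
    linear_combination e2 - e + w * k4
  have f := fun n => congrArg (coeff n) e3
  simp only [map_add, coeff_w4, coeff_C_mul] at f
  generalize U 4 1 K + w * K2 - w * y ^ 4 * P4 = Z at f
  have f0 := f 0
  have f1 := f 1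
  have f2 := f 2
  have f3 := f 3
  simp [Nat.choose] at f0 f1 f2 f3
  obtain ⟨a0, rfl⟩ : ∃ b, c0 = 32 * b := ⟨c0 / 32, by omega⟩
  obtain ⟨a1, rfl⟩ : ∃ b, c1 = 8 * b := ⟨c1 / 8, by omega⟩
  obtain ⟨a2, rfl⟩ : ∃ b, c2 = 16 * b := ⟨c2 / 16, by omega⟩
  obtain ⟨a3, rfl⟩ : ∃ b, c3 = 4 * b := ⟨c3 / 4, by omega⟩
  refine ⟨C a0 + C a1 * y + 8 * (C a2 * y ^ 2 + C a3 * y ^ 3 + y ^ 4 * P4), ?_, ?_, a0, a1, 0,
    C a2 * y ^ 2 + C a3 * y ^ 3 + y ^ 4 * P4, by omega, by rw [map_zero]; ring⟩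
  · have := ((((M_one.cmul a0).add (M_y.cmul a1)).add ((M_one.b.cmul a2).nmul 4)).add
      ((M_y.b.cmul a3).nmul 4)).add ((M.lam hP4 _ M_one).b.b.nmul 2)
    convert this using 1; ring
  · rw [e]; simp only [map_mul, map_pow, map_ofNat]; ring

theorem unbounded (m : ℕ) (hm : m % 8 = 6) (B : ℕ) : ∃ n, (4 : ℤ) ^ B ∣ S m n := by
  obtain ⟨i, rfl⟩ : ∃ i, m = 6 + 8 * i := ⟨m / 8, by omega⟩
  have hT := Cg_T i
  have hk := (chkT (i % 32) (Nat.mod_lt _ (by norm_num))).2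
  have one : K1 1 := ⟨0, by simpa using M_one.cmul 0, by simp⟩
  have k1 := (one.qpow (6 + 8 * i)).u0
  have c1 : Cg (U 4 0 (1 * Q ^ (6 + 8 * i))) (u0 (Tq (i % 32))) := by rw [one_mul]; exact hT.u0
  have em : 6 + 8 * i = 2 + 4 * (1 + 2 * i) := by ring
  have hd : (4 : ℤ) ^ B ∣ 2 ^ (6 + 2 * B) := ⟨64, by rw [pow_add, pow_mul]; norm_num; ring⟩
  unfold fin at hk
  split_ifs at hk
  · have k2 := (k1.qpow (6 + 8 * i)).u0
    have hb := base (k2.qpow (6 + 8 * i)) ((c1.mul hT).u0.mul hT) hk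
    obtain ⟨n, hn, h⟩ := Inv.iter (1 + 2 * i) B _ _ hb
    refine ⟨4 * (4 * (4 * n + 1) + 0) + 0, ?_⟩
    rw [S_eq' _ _ (B + 1 + 1 + 1) (by simp only [pow_succ]; omega), stepH _ _ _ _ (by norm_num),
      stepH _ _ _ _ (by norm_num), stepH _ _ _ _ (by norm_num)]
    rw [← em] at h
    exact hd.trans h
  · have hb := base (k1.qpow (6 + 8 * i)) (c1.mul hT) hk
    obtain ⟨n, hn, h⟩ := Inv.iter (1 + 2 * i) B _ _ hb
    refine ⟨4 * (4 * n + 1) + 0, ?_⟩
    rw [S_eq' _ _ (B + 1 + 1) (by simp only [pow_succ]; omega), stepH _ _ _ _ (by norm_num),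
      stepH _ _ _ _ (by norm_num)]
    rw [← em] at h
    exact hd.trans h

def NN (A : ℤ⟦X⟧) : Prop := (∀ n, 0 ≤ coeff n A) ∧ coeff 0 A = 1

theorem NN.mul {A B : ℤ⟦X⟧} (h : NN A) (h' : NN B) : NN (A * B) := by
  refine ⟨fun n => ?_, ?_⟩
  · rw [coeff_mul]; exact Finset.sum_nonneg fun p _ => mul_nonneg (h.1 _) (h'.1 _)
  · have a := h.2
    have b := h'.2
    simp only [coeff_zero_eq_constantCoeff] at a b ⊢
    rw [map_mul, a, b, one_mul]

theorem NN_one : NN 1 := ⟨fun n => by rw [coeff_one]; split_ifs <;> norm_num, by simp⟩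

theorem NN.pow {A : ℤ⟦X⟧} (h : NN A) : ∀ k, NN (A ^ k)
  | 0 => by simpa using NN_one
  | k + 1 => by rw [pow_succ]; exact (NN.pow h k).mul h

theorem S_pos (m n : ℕ) (hm : m ≠ 0) : 0 < S m n := by
  obtain ⟨k, rfl⟩ : ∃ k, m = k + 1 := ⟨m - 1, by omega⟩
  have hw : NN w := ⟨fun n => by simp [w], by simp [w]⟩
  have hp : NN (∏ i ∈ Finset.range (n + 1), g i) :=
    Finset.prod_induction _ NN (fun _ _ => NN.mul) NN_one fun i _ =>
      ⟨fun n => by simp only [g, coeff_mk]; split_ifs <;> norm_num, by simp [g]⟩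
  have h := (hw.pow k).mul (hp.pow ((k + 1) * (4 - 1)))
  change 0 < coeff n (w ^ (k + 1) * (∏ i ∈ Finset.range (n + 1), g i) ^ ((k + 1) * (4 - 1)))
  rw [pow_succ', mul_assoc, coeff_mul]
  refine lt_of_lt_of_le ?_ (Finset.single_le_sum (a := (n, 0))
    (fun p _ => mul_nonneg (hw.1 _) (h.1 _)) (by simp))
  rw [h.2]; simp [w]

end Pool.Agent.H17.S4
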