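import Mathlib

set_option autoImplicit false

namespace Pool.Agent.H17.SRG

variable {V : Type}

/-- the colours of round `t` -/
def Col (k : ℕ) : ℕ → Type
  | 0 => Fin k → Fin k → Prop × Prop
  | t + 1 => Col k t × Multiset (Fin k → Col k t)

/-- the colour of a `k`-tuple in round `t` -/
noncomputable def wl [Fintype V] (k : ℕ) (G : SimpleGraph V) : (t : ℕ) → (Fin k → V) → Col k t
  | 0, S => fun i j => (S i = S j, G.Adj (S i) (S j))
  | t + 1, S => (wl k G t S,
      Finset.univ.val.map fun x => fun i => wl k G t (Function.update S i x))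

theorem map_equiv [Fintype V] {Y : Type} (f : V ≃ V) (a b : V → Y) (h : ∀ x, a x = b (f x)) :
    Finset.univ.val.map a = Finset.univ.val.map b := by
  have : (Finset.univ : Finset V).val.map f = Finset.univ.val := by
    simp
  conv_rhs => rw [← this, Multiset.map_map]
  exact Multiset.map_congr rfl fun x _ => h x

theorem bij : ∀ (k : ℕ) (E : (Fin k → V) → (Fin k → V) → Prop)
    (_ : ∀ α β, E α β → ∃ f : V ≃ V, ∀ x i,
      E (Function.update α i x) (Function.update β i (f x))) (α β : Fin k → V) (_ : E α β),
    ∃ F : (Fin k → V) ≃ (Fin k → V), ∀ S, E S (F S) := by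
  intro k
  induction k with
  | zero =>
    intro E _ α β h
    exact ⟨Equiv.refl _, fun S => by rwa [Subsingleton.elim S α, Subsingleton.elim (Equiv.refl _ α) β]⟩
  | succ k ih =>
    intro E h1 α β h
    obtain ⟨f, hf⟩ := h1 α β h
    have : ∀ x, ∃ F : (Fin k → V) ≃ (Fin k → V), ∀ S,
        E (Fin.cons x S) (Fin.cons (f x) (F S)) := by
      intro x
      refine ih (fun a b => E (Fin.cons x a) (Fin.cons (f x) b)) (fun a b e => ?_)
        (Fin.tail α) (Fin.tail β) ?_
      · obtain ⟨g, hg⟩ := h1 _ _ e
        refine ⟨g, fun y i => ?_⟩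
        have := hg y i.succ
        rwa [← Fin.cons_update, ← Fin.cons_update] at this
      · have := hf x 0
        rwa [← Fin.cons_self_tail α, ← Fin.cons_self_tail β, Fin.update_cons_zero,
          Fin.update_cons_zero] at this
    choose F hF using this
    let c := Fin.consEquiv fun _ : Fin (k + 1) => V
    refine ⟨c.symm.trans (((Equiv.prodCongrRight F).trans (f.prodCongr (Equiv.refl _))).trans c),
      fun S => ?_⟩
    have := hF (S 0) (Fin.tail S)
    rw [Fin.cons_self_tail] at this
    exact this

theorem game [Fintype V] {k : ℕ} (G H : SimpleGraph V)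
    (E : (Fin k → V) → (Fin k → V) → Prop)
    (h0 : ∀ α β, E α β → ∀ i j, (α i = α j ↔ β i = β j) ∧ (G.Adj (α i) (α j) ↔ H.Adj (β i) (β j)))
    (h1 : ∀ α β, E α β → ∃ f : V ≃ V, ∀ x i,
      E (Function.update α i x) (Function.update β i (f x))) (α β : Fin k → V) (h : E α β) :
    ∃ F : (Fin k → V) ≃ (Fin k → V), ∀ t S, wl k G t S = wl k H t (F S) := by
  have a : ∀ t α β, E α β → wl k G t α = wl k H t β := by
    intro t
    induction t with
    | zero =>
      intro α β h
      exact funext fun i => funext fun j =>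
        Prod.ext (propext (h0 α β h i j).1) (propext (h0 α β h i j).2)
    | succ t ih =>
      intro α β h
      obtain ⟨f, hf⟩ := h1 α β h
      exact Prod.ext (ih α β h) (map_equiv f _ _ fun x => funext fun i => ih _ _ (hf x i))
  obtain ⟨F, hF⟩ := bij k E h1 α β h
  exact ⟨F, fun t S => a t _ _ (hF S)⟩

end Pool.Agent.H17.SRG
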