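import Pool.Agent.H17.SRG1

set_option autoImplicit false

namespace Pool.Agent.H17.SRG

open Finset

abbrev F2 := ZMod 2

variable {T : Type} [Fintype T] [DecidableEq T]

theorem z2 (a : F2) : a + a = 0 := by revert a; decide

theorem fib {M : Type} [AddCommGroup M] [Fintype M] [DecidableEq M] (f : (T → F2) →+ M)
    (hf : Function.Surjective f) (y : M) :
    Fintype.card M * #{x | f x = y} = Fintype.card (T → F2) := by
  rw [← card_univ (α := T → F2), card_eq_sum_card_fiberwise (f := f) (s := univ) (t := univ) (by simp),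
    sum_congr rfl fun z _ => AddMonoidHom.card_fiber_eq_of_mem_range f (hf z) (hf y)]
  simp

theorem ne_one : ∀ a : F2, a ≠ 0 → a = 1 := by decide

theorem ex1 {a : T → F2} (ha : a ≠ 0) : ∃ s, a s = 1 := by
  obtain ⟨s, hs⟩ := Function.ne_iff.1 ha
  exact ⟨s, ne_one _ hs⟩

theorem ex2 {a b : T → F2} (ha : a ≠ 0) (hab : a ≠ b) : ∃ x, x ⬝ᵥ a = 1 ∧ x ⬝ᵥ b = 0 := by
  obtain ⟨s, hs⟩ := ex1 ha
  obtain ⟨r, hr⟩ := Function.ne_iff.1 hab
  by_cases h1 : b s = 0
  · exact ⟨Pi.single s 1, by simp [hs], by simp [h1]⟩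
  by_cases h2 : b r = 0
  · exact ⟨Pi.single r 1, by simpa using ne_one _ (h2 ▸ hr), by simp [h2]⟩
  refine ⟨Pi.single s 1 + Pi.single r 1, ?_, ?_⟩
  · have : a r = 0 := by
      by_contra h; exact hr ((ne_one _ h).trans (ne_one _ h2).symm)
    simp [hs, this]
  · simp [ne_one _ h1, ne_one _ h2, z2]

theorem c1 {q : ℕ} (hq : Fintype.card (T → F2) = 4 * q) {a : T → F2} (ha : a ≠ 0) (c : F2) :
    #{x : T → F2 | x ⬝ᵥ a = c} = 2 * q := by
  have := fib (AddMonoidHom.mk' (fun x : T → F2 => x ⬝ᵥ a) fun x y => add_dotProduct x y a)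
    (fun y => by
      obtain ⟨s, hs⟩ := ex1 ha
      exact ⟨Pi.single s y, by simp [hs]⟩) c
  simp only [AddMonoidHom.mk'_apply, ZMod.card] at this
  omega

theorem c2 {q : ℕ} (hq : Fintype.card (T → F2) = 4 * q) {a b : T → F2} (ha : a ≠ 0) (hb : b ≠ 0)
    (hab : a ≠ b) (c d : F2) : #{x : T → F2 | x ⬝ᵥ a = c ∧ x ⬝ᵥ b = d} = q := by
  have := fib (AddMonoidHom.mk' (fun x : T → F2 => (x ⬝ᵥ a, x ⬝ᵥ b))
    fun x y => by simp [add_dotProduct]) (fun y => by
      obtain ⟨u, u1, u2⟩ := ex2 ha hab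
      obtain ⟨w, w1, w2⟩ := ex2 hb hab.symm
      exact ⟨y.1 • u + y.2 • w, by simp [add_dotProduct, u1, u2, w1, w2]⟩) (c, d)
  simp only [AddMonoidHom.mk'_apply, Fintype.card_prod, ZMod.card, Prod.mk.injEq] at this
  omega

def val (φ : (T → F2) → (T → F2) → T → F2) (h : (T → F2) → (T → F2) → F2)
    (x : (T → F2) × (T → F2)) (j : T → F2) : F2 := x.2 ⬝ᵥ φ x.1 j + h x.1 j

def Gr (φ : (T → F2) → (T → F2) → T → F2) (h : (T → F2) → (T → F2) → F2) :
    SimpleGraph ((T → F2) × (T → F2)) where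
  Adj x y := x.1 ≠ y.1 ∧ val φ h x y.1 + val φ h y x.1 = 1
  symm := ⟨fun _ _ e => ⟨e.1.symm, by rw [add_comm]; exact e.2⟩⟩
  loopless := ⟨fun _ e => e.1 rfl⟩

theorem card_prod {A B : Type} [Fintype A] [Fintype B] (P : A × B → Prop) [DecidablePred P] :
    #{y | P y} = ∑ j, #{w | P (j, w)} := by
  simp only [card_filter, Fintype.sum_prod_type]

open Classical in
theorem srg {q : ℕ} (hq : Fintype.card (T → F2) = 4 * q) (φ : (T → F2) → (T → F2) → T → F2)
    (h : (T → F2) → (T → F2) → F2) (h1 : ∀ i, Function.Injective (φ i)) (h2 : ∀ i, φ i i = 0) :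
    (Gr φ h).IsSRGWith (4 * q * (4 * q)) ((4 * q - 1) * (2 * q)) ((4 * q - 2) * q)
      ((4 * q - 2) * q) := by
  have n0 : ∀ {i j}, i ≠ j → φ j i ≠ 0 := fun {i j} e e' => e (h1 j (e'.trans (h2 j).symm))
  have adj : ∀ x j w, (Gr φ h).Adj x (j, w) ↔
      x.1 ≠ j ∧ w ⬝ᵥ φ j x.1 = 1 + val φ h x j + h j x.1 := by
    intro x j w
    refine and_congr_right fun _ => ?_
    simp only [val]
    generalize w ⬝ᵥ φ j x.1 = a; generalize x.2 ⬝ᵥ φ x.1 j + h x.1 j = b; generalize h j x.1 = c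
    revert a b c; decide
  have com : ∀ x y, x ≠ y → Fintype.card ((Gr φ h).commonNeighbors x y) = (4 * q - 2) * q := by
    intro x y hxy
    have : Fintype.card ((Gr φ h).commonNeighbors x y) =
        #{z | (Gr φ h).Adj x z ∧ (Gr φ h).Adj y z} := by
      rw [← Set.toFinset_card]; congr 1; ext z; simp [SimpleGraph.mem_commonNeighbors]
    rw [this, card_prod]
    simp only [adj]
    by_cases e : x.1 = y.1
    · have e2 : x.2 + y.2 ≠ 0 := fun e2 => hxy (Prod.ext e (by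
        funext s; have := congrFun e2 s
        simp only [Pi.add_apply, Pi.zero_apply] at this
        linear_combination this - z2 (y.2 s)))
      have : ∀ j, #{w : T → F2 | (x.1 ≠ j ∧ w ⬝ᵥ φ j x.1 = 1 + val φ h x j + h j x.1) ∧
          y.1 ≠ j ∧ w ⬝ᵥ φ j y.1 = 1 + val φ h y j + h j y.1} =
          if φ x.1 j ≠ 0 ∧ φ x.1 j ⬝ᵥ (x.2 + y.2) = 0 then 2 * q else 0 := by
        intro j
        have k : φ x.1 j ⬝ᵥ (x.2 + y.2) = val φ h x j + val φ h y j := by
          simp only [val, ← e, add_dotProduct, dotProduct_comm (φ _ _)]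
          linear_combination - z2 (h x.1 j)
        rw [k, ← e]
        split_ifs with hc
        · have hj : x.1 ≠ j := fun e' => hc.1 (e' ▸ h2 _)
          have : val φ h y j = val φ h x j := by linear_combination hc.2 - z2 (val φ h x j)
          rw [← c1 hq (n0 hj) (1 + val φ h x j + h j x.1)]
          simp [hj, this]
        · rw [card_eq_zero, filter_eq_empty_iff]
          rintro w - ⟨⟨a1, a2⟩, -, a3⟩
          refine hc ⟨n0 a1.symm, ?_⟩
          linear_combination a3 - a2 + z2 (val φ h y j)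
      rw [sum_congr rfl fun j _ => this j, ← sum_filter, sum_const, smul_eq_mul]
      have k : #{j | φ x.1 j ≠ 0 ∧ φ x.1 j ⬝ᵥ (x.2 + y.2) = 0} =
          #{a : T → F2 | a ≠ 0 ∧ a ⬝ᵥ (x.2 + y.2) = 0} :=
        card_bijective (φ x.1) (Finite.injective_iff_bijective.1 (h1 _)) (by simp)
      have k2 : ({a : T → F2 | a ≠ 0 ∧ a ⬝ᵥ (x.2 + y.2) = 0} : Finset _) =
          ({a : T → F2 | a ⬝ᵥ (x.2 + y.2) = 0} : Finset _).erase 0 := by ext a; simp
      rw [k, k2, card_erase_of_mem (by simp), c1 hq e2, ← mul_assoc]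
      congr 1; omega
    · have : ∀ j, #{w : T → F2 | (x.1 ≠ j ∧ w ⬝ᵥ φ j x.1 = 1 + val φ h x j + h j x.1) ∧
          y.1 ≠ j ∧ w ⬝ᵥ φ j y.1 = 1 + val φ h y j + h j y.1} =
          if j ≠ y.1 ∧ j ≠ x.1 then q else 0 := by
        intro j
        split_ifs with hc
        · rw [← c2 hq (n0 hc.2.symm) (n0 hc.1.symm) ((h1 j).ne e) (1 + val φ h x j + h j x.1)
            (1 + val φ h y j + h j y.1)]
          simp [hc.1.symm, hc.2.symm]
        · rw [card_eq_zero, filter_eq_empty_iff]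
          rintro w - ⟨⟨a1, -⟩, a2, -⟩
          exact hc ⟨a2.symm, a1.symm⟩
      rw [sum_congr rfl fun j _ => this j, ← sum_filter, sum_const, smul_eq_mul]
      have k : ({j | j ≠ y.1 ∧ j ≠ x.1} : Finset _) = (univ.erase x.1).erase y.1 := by
        ext a; simp
      rw [k, card_erase_of_mem (by simpa using Ne.symm e), card_erase_of_mem (by simp), card_univ, hq]
      rfl
  refine ⟨by rw [Fintype.card_prod, hq], fun x => ?_, fun x y e => com x y e.ne,
    fun x y e _ => com x y e⟩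
  have : (Gr φ h).degree x = #{z | (Gr φ h).Adj x z} := by
    rw [← SimpleGraph.card_neighborFinset_eq_degree]; congr 1; ext z; simp
  rw [this, card_prod]
  simp only [adj]
  have : ∀ j, #{w : T → F2 | x.1 ≠ j ∧ w ⬝ᵥ φ j x.1 = 1 + val φ h x j + h j x.1} =
      if j ≠ x.1 then 2 * q else 0 := by
    intro j
    split_ifs with hc
    · rw [← c1 hq (n0 hc.symm) (1 + val φ h x j + h j x.1)]
      simp [hc.symm]
    · rw [card_eq_zero, filter_eq_empty_iff]
      rintro w - ⟨a1, -⟩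
      exact hc a1.symm
  rw [sum_congr rfl fun j _ => this j, ← sum_filter, sum_const, smul_eq_mul, filter_ne',
    card_erase_of_mem (by simp), card_univ, hq]

theorem noniso (φ : (T → F2) → (T → F2) → T → F2) (h : (T → F2) → (T → F2) → F2)
    (hs : ∀ l : (T → F2) → T → F2, ¬ ∀ i j, i ≠ j → val φ h (i, l i) j + val φ h (j, l j) i = 0) :
    IsEmpty (Gr φ 0 ≃g Gr φ h) := by
  refine ⟨fun ψ => ?_⟩
  have ex : ∀ J : Set (T → F2), ∃ l : (T → F2) → T → F2, (∃ K : Set _, (Gr φ h).IsIndepSet K ∧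
      Prod.fst '' K = J) → ∀ i ∈ J, ∀ j ∈ J, i ≠ j → val φ h (i, l i) j + val φ h (j, l j) i = 0 := by
    intro J
    by_cases e : ∃ K : Set _, (Gr φ h).IsIndepSet K ∧ Prod.fst '' K = J
    · obtain ⟨K, k1, rfl⟩ := e
      have : ∀ i, ∃ u, i ∈ Prod.fst '' K → (i, u) ∈ K := by
        intro i
        by_cases hi : i ∈ Prod.fst '' K
        · obtain ⟨x, hx, rfl⟩ := hi
          exact ⟨x.2, fun _ => hx⟩
        · exact ⟨0, fun h => absurd h hi⟩
      choose l hl using this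
      refine ⟨l, fun _ i hi j hj hij => ?_⟩
      by_contra hc
      exact k1 (hl i hi) (hl j hj) (fun e => hij (congrArg Prod.fst e)) ⟨hij, ne_one _ hc⟩
    · exact ⟨0, fun h => absurd h e⟩
  choose l hl using ex
  let sh : Set (T → F2) → (T → F2) × (T → F2) → (T → F2) × (T → F2) :=
    fun J x => (x.1, x.2 + l J x.1)
  have si : ∀ J, Function.Injective (sh J) := fun J x y e => by
    obtain ⟨e1, e2⟩ := Prod.mk.inj e
    rw [e1] at e2
    exact Prod.ext e1 (add_right_cancel e2)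
  have sf : ∀ J K, Prod.fst '' (sh J '' K) = Prod.fst '' K := fun J K => by
    rw [Set.image_image]
  have i1 : ∀ K, (Gr φ 0).IsIndepSet K → (Gr φ h).IsIndepSet (ψ '' K) := by
    rintro K hK _ ⟨x, hx, rfl⟩ _ ⟨y, hy, rfl⟩ e a
    exact hK hx hy (fun e' => e (congrArg ψ e')) (ψ.map_adj_iff.1 a)
  have i2 : ∀ K, (Gr φ h).IsIndepSet K → (Gr φ 0).IsIndepSet (sh (Prod.fst '' K) '' K) := by
    rintro K hK _ ⟨x, hx, rfl⟩ _ ⟨y, hy, rfl⟩ - ⟨a1, a2⟩
    refine hK hx hy (fun e => a1 (by rw [e])) ⟨a1, ?_⟩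
    have := hl _ ⟨K, hK, rfl⟩ _ ⟨x, hx, rfl⟩ _ ⟨y, hy, rfl⟩ a1
    simp only [val, sh, add_dotProduct, Pi.zero_apply] at this a2 ⊢
    linear_combination a2 + this - z2 (l (Prod.fst '' K) x.1 ⬝ᵥ φ x.1 y.1) -
      z2 (l (Prod.fst '' K) y.1 ⬝ᵥ φ y.1 x.1)
  let Θ : {K // (Gr φ 0).IsIndepSet K} → {K // (Gr φ 0).IsIndepSet K} :=
    fun K => ⟨_, i2 _ (i1 _ K.2)⟩
  have inj : Function.Injective Θ := by
    intro K K' e
    have e1 : sh (Prod.fst '' (ψ '' K.1)) '' (ψ '' K.1) =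
      sh (Prod.fst '' (ψ '' K'.1)) '' (ψ '' K'.1) := congrArg Subtype.val e
    have e2 := congrArg (Set.image Prod.fst) e1
    rw [sf, sf] at e2
    rw [e2] at e1
    exact Subtype.ext (ψ.injective.image_injective ((si _).image_injective e1))
  obtain ⟨K, hK⟩ := Finite.injective_iff_surjective.1 inj ⟨{x | x.2 = 0}, by
    rintro x hx y hy - ⟨-, a⟩
    simp only [Set.mem_ofPred_eq] at hx hy
    simp [val, hx, hy] at a⟩
  have e2 := congrArg (Set.image Prod.fst) (congrArg Subtype.val hK)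
  rw [sf] at e2
  have e3 : ∀ i, i ∈ Prod.fst '' (ψ '' K.1) := fun i => by
    rw [e2]; exact ⟨(i, 0), rfl, rfl⟩
  exact hs _ fun i j => hl _ ⟨_, i1 _ K.2, rfl⟩ i (e3 i) j (e3 j)

end Pool.Agent.H17.SRG
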