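import Pool.Agent.H17.SRG2

set_option autoImplicit false

namespace Pool.Agent.H17.SRG

open Finset Matrix

variable {T : Type} [Fintype T] [DecidableEq T]

def chi (A : Matrix T T F2) (i j : T → F2) : Prop :=
  (∃ v, i = Pi.single v 1) ∧ (j = 0 ∨ j = A *ᵥ i)

open Classical in
noncomputable def phi (A : Matrix T T F2) (i j : T → F2) : T → F2 :=
  i + j + if chi A i j then A *ᵥ i else 0

open Classical in
noncomputable def hh (A : Matrix T T F2) (t i j : T → F2) : F2 := if chi A i j then t ⬝ᵥ i else 0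

theorem v2 (a : T → F2) : a + a = 0 := funext fun s => z2 (a s)

theorem phi_inj (A : Matrix T T F2) (i : T → F2) : Function.Injective (phi A i) := by
  have key : ∀ j j', chi A i j → ¬ chi A i j' → i + j + A *ᵥ i ≠ i + j' + 0 := by
    rintro j j' ⟨h1, rfl | rfl⟩ h2 e
    · exact h2 ⟨h1, Or.inr (by simpa using e.symm)⟩
    · exact h2 ⟨h1, Or.inl (by rw [add_assoc, v2] at e; simpa using e.symm)⟩
  intro j j' e
  unfold phi at e
  split_ifs at e with h1 h2 h2
  · simpa using e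
  · exact absurd e (key _ _ h1 h2)
  · exact absurd e.symm (key _ _ h2 h1)
  · simpa using e

def par (a : T → F2) : F2 := ∑ s, a s

theorem par_single (v : T) : par (Pi.single v 1) = 1 := by simp [par]

theorem par_add (a b : T → F2) : par (a + b) = par a + par b := by simp [par, sum_add_distrib]

theorem nchi1 {A : Matrix T T F2} {i : T → F2} (h : par i = 0) (j : T → F2) : ¬ chi A i j := by
  rintro ⟨⟨v, rfl⟩, -⟩
  rw [par_single] at h; exact one_ne_zero h

theorem nchi2 {A : Matrix T T F2} (hA : ∀ i, par (A *ᵥ i) = 0) (i : T → F2) (v : T) :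
    ¬ chi A i (Pi.single v 1) := by
  rintro ⟨-, h | h⟩
  · simpa [par] using congrArg par h
  · have := congrArg par h
    rw [hA, par_single] at this; exact one_ne_zero this

theorem phi_self {A : Matrix T T F2} (hA : ∀ i, par (A *ᵥ i) = 0) (i : T → F2) : phi A i i = 0 := by
  have : ¬ chi A i i := fun h => by
    obtain ⟨v, rfl⟩ := h.1
    exact nchi2 hA _ v h
  rw [phi, if_neg this, v2, add_zero]

theorem unsolv (P : Matrix T T F2) (hA : ∀ i, par ((P + Pᵀ) *ᵥ i) = 0) (t : T → F2) (f : T)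
    (hf : (P + Pᵀ) *ᵥ Pi.single f 1 = 0) (ht : t f = 0) (h1 : par t = 1) (l : (T → F2) → T → F2) :
    ¬ ∀ i j, i ≠ j → val (phi (P + Pᵀ)) (hh (P + Pᵀ) t) (i, l i) j +
      val (phi (P + Pᵀ)) (hh (P + Pᵀ) t) (j, l j) i = 0 := by
  intro h
  set A := P + Pᵀ with hP
  have s1 : ∀ i j, ¬ chi A i j → val (phi A) (hh A t) (i, l i) j = l i ⬝ᵥ i + l i ⬝ᵥ j := by
    intro i j e
    simp [val, phi, hh, e]
  have s2 : ∀ j, val (phi A) (hh A t) (Pi.single f 1, l (Pi.single f 1)) j =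
      l (Pi.single f 1) ⬝ᵥ Pi.single f 1 + l (Pi.single f 1) ⬝ᵥ j := by
    intro j
    simp only [val, phi, hh, hf, ite_self, add_zero, dotProduct_add, dotProduct_single, ht,
      zero_mul]
  have p0 : par (0 : T → F2) = 0 := by simp [par]
  have n0 : ∀ v : T, (Pi.single v 1 : T → F2) ≠ 0 := fun v e => by simpa using congrFun e v
  have k1 : ∀ v, t v = l (Pi.single v 1) ⬝ᵥ A *ᵥ Pi.single v 1 := by
    intro v
    by_cases hv : v = f
    · rw [hv, hf, ht, dotProduct_zero]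
    have pe : par (Pi.single v 1 + Pi.single f 1 : T → F2) = 0 := by
      rw [par_add, par_single, par_single, z2]
    have c1 : (Pi.single v 1 + Pi.single f 1 : T → F2) v = 1 := by simp [hv]
    have ne : (Pi.single v 1 + Pi.single f 1 : T → F2) ≠ 0 := fun e => by
      rw [e] at c1; exact zero_ne_one c1
    have nc : ¬ chi A (Pi.single v 1) (Pi.single v 1 + Pi.single f 1) := by
      rintro ⟨-, e | e⟩
      · exact ne e
      · rw [e] at c1
        simp [hP, z2] at c1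
    have e1 := h 0 _ (n0 f).symm
    have e2 := h 0 _ ne.symm
    have e3 := h (Pi.single v 1) (Pi.single f 1) fun e => by simpa [hv] using congrFun e v
    have e4 := h (Pi.single v 1) (Pi.single v 1 + Pi.single f 1) (by simpa using n0 f)
    have e5 := h (Pi.single f 1) (Pi.single v 1 + Pi.single f 1) (by simpa using n0 v)
    have e6 := h (Pi.single v 1) 0 (n0 v)
    rw [s1 _ _ (nchi1 p0 _), s2] at e1
    rw [s1 _ _ (nchi1 p0 _), s1 _ _ (nchi1 pe _)] at e2
    rw [s1 _ _ (nchi2 hA _ _), s2] at e3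
    rw [s1 _ _ nc, s1 _ _ (nchi1 pe _)] at e4
    rw [s2, s1 _ _ (nchi1 pe _)] at e5
    have cc : chi A (Pi.single v 1) 0 := ⟨⟨v, rfl⟩, Or.inl rfl⟩
    rw [s1 _ _ (nchi1 p0 _), val, phi, hh, if_pos cc, if_pos cc] at e6
    simp only [dotProduct_add, dotProduct_zero, add_zero, zero_add] at e1 e2 e3 e4 e5 e6
    rw [show t ⬝ᵥ Pi.single v 1 = t v by simp] at e6
    revert e1 e2 e3 e4 e5 e6
    generalize l 0 ⬝ᵥ Pi.single f 1 = a1; generalize l 0 ⬝ᵥ Pi.single v 1 = a2
    generalize l (Pi.single f 1) ⬝ᵥ Pi.single f 1 = b1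
    generalize l (Pi.single f 1) ⬝ᵥ Pi.single v 1 = b2
    generalize l (Pi.single v 1) ⬝ᵥ Pi.single f 1 = d1
    generalize l (Pi.single v 1) ⬝ᵥ Pi.single v 1 = d2
    generalize l (Pi.single v 1 + Pi.single f 1) ⬝ᵥ Pi.single f 1 = g1
    generalize l (Pi.single v 1 + Pi.single f 1) ⬝ᵥ Pi.single v 1 = g2
    generalize l (Pi.single v 1) ⬝ᵥ A *ᵥ Pi.single v 1 = m
    generalize t v = n
    intro e3 e1 e2 e4 e5 e6
    linear_combination e1 + e2 + e3 + e4 + e5 + e6 -
      z2 (a1 + a2 + 2 * b1 + b2 + d1 + 2 * d2 + 2 * g1 + 2 * g2 + m)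
  have k2 : ∀ u v, l (Pi.single v 1) u + l (Pi.single u 1) v =
      l (Pi.single u 1) u + l (Pi.single v 1) v := by
    intro u v
    by_cases e : u = v
    · rw [e]
    have := h (Pi.single u 1) (Pi.single v 1) fun e' => by simpa [e] using congrFun e' u
    rw [s1 _ _ (nchi2 hA _ _), s1 _ _ (nchi2 hA _ _)] at this
    simp only [dotProduct_single, mul_one] at this
    linear_combination this - z2 (l (Pi.single u 1) u) - z2 (l (Pi.single v 1) v)
  have k3 : ∀ L : T → T → F2, ∑ v, ∑ u, L v u * A u v = ∑ v, ∑ u, P u v * (L v u + L u v) := by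
    intro L
    simp only [hP, Matrix.add_apply, transpose_apply, mul_add, sum_add_distrib]
    rw [sum_comm (f := fun v u => L v u * P v u)]
    simp only [mul_comm]
  have k4 : par t = ∑ v, ∑ u, l (Pi.single v 1) u * A u v :=
    sum_congr rfl fun v _ => by rw [k1]; simp [dotProduct]
  have k5 : ∑ v, ∑ u, l (Pi.single v 1) v * A u v = 0 :=
    sum_eq_zero fun v _ => by
      have := hA (Pi.single v 1)
      simp only [par, mulVec_single_one, col_apply] at this
      rw [← mul_sum, this, mul_zero]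
  rw [k3 fun v u => l (Pi.single v 1) u] at k4
  rw [k3 fun v _ => l (Pi.single v 1) v] at k5
  exact one_ne_zero (h1.symm.trans (k4.trans ((sum_congr rfl fun v _ => sum_congr rfl fun u _ => by
    rw [k2, add_comm]).trans k5)))

theorem dual (R N : Submodule F2 (T → F2)) (ρ : (T → F2) → F2)
    (ha : ∀ a ∈ N, ∀ b ∈ N, ρ (a + b) = ρ a + ρ b) (r : T → F2)
    (hr : ∀ S, (∀ w ∈ R, S ⬝ᵥ w = 0) → S ∈ N ∧ S ⬝ᵥ r = ρ S) :
    ∃ w ∈ R, ∀ S ∈ N, S ⬝ᵥ (r + w) = ρ S := by
  have rep : ∀ g : (T → F2) →ₗ[F2] F2, ∃ a, ∀ x, g x = x ⬝ᵥ a := fun g =>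
    ⟨fun s => g (Pi.single s 1), fun x => by
      rw [LinearMap.pi_apply_eq_sum_univ, dotProduct]
      refine sum_congr rfl fun s _ => ?_
      rw [smul_eq_mul]; congr 2; ext; simp [Pi.single_apply, eq_comm]⟩
  obtain ⟨g, hg⟩ := LinearMap.exists_extend ((AddMonoidHom.mk' (fun a : N => ρ a)
    fun a b => ha _ a.2 _ b.2).toZModLinearMap 2)
  obtain ⟨a, hga⟩ := rep g
  have h2 : ∀ S ∈ N, S ⬝ᵥ a = ρ S := fun S hS => by
    rw [← hga]; exact LinearMap.congr_fun hg ⟨S, hS⟩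
  refine ⟨r + a, ?_, fun S hS => by rw [← add_assoc, v2, zero_add, h2 S hS]⟩
  by_contra hc
  obtain ⟨e, e1, e2⟩ := R.exists_dual_map_eq_bot_of_notMem hc inferInstance
  obtain ⟨S, hS⟩ := rep e
  obtain ⟨k1, k2⟩ := hr S fun w hw => by
    rw [dotProduct_comm, ← hS]
    exact (Submodule.mem_bot F2).1 (e2 ▸ Submodule.mem_map_of_mem hw)
  apply e1
  rw [hS, dotProduct_comm, dotProduct_add, k2, h2 S k1, z2]

def dl (A M : Matrix T T F2) (v : T) : F2 := ∑ u, (M u v + M v u) * A u v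

theorem dl_add (A M N : Matrix T T F2) : dl A (M + N) = dl A M + dl A N := by
  funext v
  simp only [dl, Matrix.add_apply, Pi.add_apply, ← sum_add_distrib]
  exact sum_congr rfl fun _ _ => by ring

theorem dl_eq (A M : Matrix T T F2) (v : T) :
    dl A M v = ((M + Mᵀ) *ᵥ Pi.single v 1) ⬝ᵥ A *ᵥ Pi.single v 1 := by
  simp [dl, dotProduct]

def Kl (J : Set (T → F2)) (M : Matrix T T F2) : Prop := ∀ j ∈ J, (M + Mᵀ) *ᵥ j = 0

def Ann (A : Matrix T T F2) (J : Set (T → F2)) : Submodule F2 (T → F2) where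
  carrier := {S | ∀ M, Kl J M → S ⬝ᵥ dl A M = 0}
  add_mem' := fun ha hb M h => by rw [add_dotProduct, ha M h, hb M h, add_zero]
  zero_mem' := fun _ _ => zero_dotProduct _
  smul_mem' := fun c _ ha M h => by rw [smul_dotProduct, ha M h, smul_zero]

theorem bb (M N : Matrix T T F2) (j : T → F2) :
    (M + N + (M + N)ᵀ) *ᵥ j = (M + Mᵀ) *ᵥ j + (N + Nᵀ) *ᵥ j := by
  rw [← add_mulVec, transpose_add]; congr 1; abel

theorem extend (A : Matrix T T F2) (t : T → F2) (ρ : (T → F2) → F2) {J J' : Set (T → F2)}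
    (hJ : J ⊆ J') (ha : ∀ a ∈ Ann A J', ∀ b ∈ Ann A J', ρ (a + b) = ρ a + ρ b) (M : Matrix T T F2)
    (h : ∀ S ∈ Ann A J, S ⬝ᵥ (dl A M + t) = ρ S) :
    ∃ N, Kl J N ∧ ∀ S ∈ Ann A J', S ⬝ᵥ (dl A (M + N) + t) = ρ S := by
  have d0 : dl A 0 = 0 := funext fun v => by simp [dl]
  have k0 : Kl J 0 := fun j _ => by simp
  let R : Submodule F2 (T → F2) :=
    { carrier := {w | ∃ N, Kl J N ∧ dl A N = w}
      add_mem' := by
        rintro _ _ ⟨N, h1, rfl⟩ ⟨N', h2, rfl⟩
        exact ⟨N + N', fun j hj => by rw [bb, h1 j hj, h2 j hj, add_zero], dl_add _ _ _⟩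
      zero_mem' := ⟨0, k0, d0⟩
      smul_mem' := fun c w hw => by
        by_cases hc : c = 0
        · exact ⟨0, k0, by rw [hc, zero_smul, d0]⟩
        · rwa [ne_one c hc, one_smul] }
  obtain ⟨_, ⟨N, h1, rfl⟩, h2⟩ := dual R (Ann A J') ρ ha (dl A M + t) fun S hS =>
    ⟨fun N hN => hS _ ⟨N, fun j hj => hN j (hJ hj), rfl⟩, h S fun N hN => hS _ ⟨N, hN, rfl⟩⟩
  exact ⟨N, h1, fun S hS => by rw [← h2 S hS, dl_add, add_right_comm]⟩

theorem omega4 {A : Matrix T T F2} (hA : ∀ u v, A u v = A v u) {J : Set (T → F2)} {S : T → F2}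
    (hS : S ∈ Ann A J) (p p' c c' : T) (h : ∀ j ∈ J, j p = j p' ∧ j c = j c') :
    A p c * (S p + S c) + A p c' * (S p + S c') + A p' c * (S p' + S c) +
      A p' c' * (S p' + S c') = 0 := by
  have k : ∀ a b : T, S ⬝ᵥ dl A (Matrix.single a b 1) = A a b * (S a + S b) := by
    intro a b
    simp only [dl, dotProduct, add_mul, sum_add_distrib, mul_add, Matrix.single, of_apply, ite_and,
      ite_mul, one_mul, zero_mul, sum_ite_eq, mem_univ, if_true, mul_ite, mul_zero, sum_ite_irrel,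
      sum_const_zero]
    rw [hA b a]; ring
  have k2 : ∀ (a b : T) (j : T → F2), (Matrix.single a b 1 + (Matrix.single a b 1)ᵀ) *ᵥ j =
      Pi.single a (j b) + Pi.single b (j a) := by
    intro a b j
    rw [add_mulVec, transpose_single, single_mulVec, single_mulVec]
    simp only [one_mul]; rfl
  have := hS (Matrix.single p c 1 + Matrix.single p c' 1 + Matrix.single p' c 1 +
    Matrix.single p' c' 1) fun j hj => by
      rw [bb, bb, bb, k2, k2, k2, k2, (h j hj).1, (h j hj).2]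
      linear_combination v2 (Pi.single p (j c')) + v2 (Pi.single c (j p')) +
        v2 (Pi.single c' (j p')) + v2 (Pi.single p' (j c'))
  simpa only [dl_add, dotProduct_add, k] using this

theorem adj_iff (A : Matrix T T F2) (t : T → F2) (M : Matrix T T F2) (x y : (T → F2) × (T → F2))
    (h : ∀ v, x.1 = Pi.single v 1 ∨ y.1 = Pi.single v 1 → dl A M v + t v = 0) :
    (Gr (phi A) 0).Adj x y ↔ (Gr (phi A) (hh A t)).Adj (x.1, x.2 + (M + Mᵀ) *ᵥ x.1)
      (y.1, y.2 + (M + Mᵀ) *ᵥ y.1) := by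
  have sy : ∀ a b : T → F2, ((M + Mᵀ) *ᵥ a) ⬝ᵥ b = b ⬝ᵥ M *ᵥ a + a ⬝ᵥ M *ᵥ b := by
    intro a b
    rw [add_mulVec, add_dotProduct, mulVec_transpose, ← dotProduct_mulVec, dotProduct_comm]
  have k : ∀ (x : (T → F2) × (T → F2)) (j : T → F2), (∀ v, x.1 = Pi.single v 1 → dl A M v + t v = 0) →
      val (phi A) (hh A t) (x.1, x.2 + (M + Mᵀ) *ᵥ x.1) j =
        val (phi A) 0 x j + (j ⬝ᵥ M *ᵥ x.1 + x.1 ⬝ᵥ M *ᵥ j) := by
    intro x j hx
    simp only [val, add_dotProduct, Pi.zero_apply, add_zero]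
    rw [add_assoc]; congr 1
    unfold phi hh
    rw [dotProduct_add, dotProduct_add, sy _ x.1, z2, zero_add, sy _ j, add_assoc, add_eq_left]
    split_ifs with hc
    · obtain ⟨v, hv⟩ := hc.1
      have := hx v hv
      rw [dl_eq, ← hv] at this
      rw [← this, hv]; simp
    · simp
  refine and_congr_right fun _ => ?_
  dsimp only
  rw [k x _ fun v e => h v (Or.inl e), k y _ fun v e => h v (Or.inr e)]
  generalize val (phi A) 0 x y.1 = a; generalize val (phi A) 0 y x.1 = b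
  generalize y.1 ⬝ᵥ M *ᵥ x.1 = c; generalize x.1 ⬝ᵥ M *ᵥ y.1 = d
  revert a b c d; decide

end Pool.Agent.H17.SRG
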