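import Pool.Agent.H17.SRG3

set_option autoImplicit false

namespace Pool.Agent.H17.SRG

open Finset Matrix

abbrev TT (n : ℕ) := Fin n ⊕ Fin n × Fin n

variable {n : ℕ}

def PP (n : ℕ) : Matrix (TT n) (TT n) F2
  | .inl p, .inr c => (if p = c.1 then 1 else 0) + if p = c.2 then 1 else 0
  | _, _ => 0

def AA (n : ℕ) : Matrix (TT n) (TT n) F2 := PP n + (PP n)ᵀ

theorem AA_symm (u v : TT n) : AA n u v = AA n v u := add_comm _ _

theorem AA_ll (p q : Fin n) : AA n (.inl p) (.inl q) = 0 := by simp [AA, PP]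

theorem AA_lr (p : Fin n) (c : Fin n × Fin n) :
    AA n (.inl p) (.inr c) = (if p = c.1 then 1 else 0) + if p = c.2 then 1 else 0 := by
  simp [AA, PP]

theorem AA_par (i : TT n → F2) : par (AA n *ᵥ i) = 0 := by
  have : ∀ v, ∑ u, AA n u v = 0 := by
    rintro (p | c)
    · simp only [Fintype.sum_sum_type, AA_ll, AA_symm _ (.inl p), AA_lr, sum_const_zero, zero_add,
        sum_add_distrib, Fintype.sum_prod_type]
      rw [sum_comm, z2]
    · simp [Fintype.sum_sum_type, AA, PP, sum_add_distrib, z2]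
  simp only [par, mulVec, dotProduct]
  rw [sum_comm]
  simp only [← sum_mul, this, zero_mul, sum_const_zero]

theorem AA_f (p : Fin n) : AA n *ᵥ Pi.single (.inr (p, p)) 1 = 0 := by
  funext v
  rcases v with q | c
  · simp [AA_lr, z2]
  · simp [AA, PP]

def pure (S : TT n → F2) (p : Fin n) : Prop :=
  ∀ c, AA n (.inl p) (.inr c) * (S (.inl p) + S (.inr c)) = 0

open Classical in
noncomputable def rho (S : TT n → F2) : F2 := if ∃ p, pure S p ∧ S (.inl p) = 1 then 1 else 0

theorem rho_eq {S : TT n → F2} {p : Fin n} (h : pure S p) : rho S = S (.inl p) := by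
  unfold rho
  split_ifs with hc
  · obtain ⟨q, h1, h2⟩ := hc
    by_cases e : p = q
    · rw [e, h2]
    have a := h (p, q)
    have b := h1 (p, q)
    simp only [AA_lr, if_true, if_neg e, if_neg (Ne.symm e), add_zero, zero_add, one_mul] at a b
    linear_combination b - a - h2
  · by_contra e
    exact hc ⟨p, h, ne_one _ (Ne.symm e)⟩

open Classical in
theorem few {ι : Type} [Fintype ι] (J : ι → TT n → F2) {S : TT n → F2}
    (hS : S ∈ Ann (AA n) (Set.range J)) : #{p | ¬ pure S p} ≤ 4 ^ Fintype.card ι * 4 := by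
  have : ∀ p, ∃ c, ¬ pure S p → AA n (.inl p) (.inr c) * (S (.inl p) + S (.inr c)) = 1 := by
    intro p
    by_cases h : pure S p
    · exact ⟨(p, p), fun h' => absurd h h'⟩
    · obtain ⟨c, hc⟩ := not_forall.1 h
      exact ⟨c, fun _ => ne_one _ hc⟩
  choose c hc using this
  by_contra hlt
  obtain ⟨y, -, hy⟩ := exists_lt_card_fiber_of_mul_lt_card_of_maps_to (s := {p | ¬ pure S p})
    (t := univ) (f := fun p (s : ι) => (J s (.inl p), J s (.inr (c p)))) (n := 4) (by simp)
    (by simpa using hlt)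
  have av : ∀ a b d e : Fin n, ∃ p, (¬ pure S p ∧ ∀ s, J s (.inl p) = (y s).1 ∧
      J s (.inr (c p)) = (y s).2) ∧ p ≠ a ∧ p ≠ b ∧ p ≠ d ∧ p ≠ e := by
    intro a b d e
    obtain ⟨p, h1, h2⟩ := exists_mem_notMem_of_card_lt_card
      (lt_of_le_of_lt (card_le_four (a := a) (b := b) (c := d) (d := e)) hy)
    simp only [mem_filter, mem_univ, true_and, funext_iff, Prod.ext_iff] at h1
    exact ⟨p, h1, by simpa using h2⟩
  obtain ⟨r, -⟩ := card_pos.1 (lt_of_le_of_lt (Nat.zero_le _) hy)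
  obtain ⟨q, ⟨-, q2⟩, -⟩ := av r r r r
  obtain ⟨p, ⟨p1, p2⟩, a1, a2, -⟩ := av (c q).1 (c q).2 r r
  obtain ⟨p', ⟨-, p3⟩, b1, b2, b3, b4⟩ := av (c q).1 (c q).2 (c p).1 (c p).2
  have := omega4 AA_symm hS (.inl p) (.inl p') (.inr (c p)) (.inr (c q)) (by
    rintro _ ⟨s, rfl⟩
    exact ⟨(p2 s).1.trans (p3 s).1.symm, (p2 s).2.trans (q2 s).2.symm⟩)
  rw [hc p p1] at this
  simp [AA_lr, a1, a2, b1, b2, b3, b4] at this

theorem rho_add {ι : Type} [Fintype ι] (J : ι → TT n → F2) (hn : 4 ^ Fintype.card ι * 8 < n) :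
    ∀ a ∈ Ann (AA n) (Set.range J), ∀ b ∈ Ann (AA n) (Set.range J),
      rho (a + b) = rho a + rho b := by
  classical
  intro a ha b hb
  obtain ⟨p, -, hp⟩ := exists_mem_notMem_of_card_lt_card (t := univ)
    (s := univ.filter (¬ pure a ·) ∪ univ.filter (¬ pure b ·)) (lt_of_le_of_lt (card_union_le _ _) (by
      have h1 := few J ha
      have h2 := few J hb
      rw [card_univ, Fintype.card_fin]
      omega))
  simp only [mem_union, mem_filter, mem_univ, true_and, not_or, not_not] at hp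
  have : pure (a + b) p := fun c => by
    simp only [Pi.add_apply]
    linear_combination hp.1 c + hp.2 c
  rw [rho_eq this, rho_eq hp.1, rho_eq hp.2, Pi.add_apply]

theorem rho_single (hn : 2 ≤ n) (v : TT n) : rho (Pi.single v 1) = 0 := by
  refine if_neg ?_
  rintro ⟨p, h1, h2⟩
  obtain rfl : v = .inl p := by
    by_contra e
    simp [Ne.symm e] at h2
  have : Nontrivial (Fin n) := Fin.nontrivial_iff_two_le.2 hn
  obtain ⟨q, hq⟩ := exists_ne p
  simpa [AA_lr, hq.symm] using h1 (p, q)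

theorem main (k : ℕ) (hn : 4 ^ (k + 1) * 8 < n) (p : Fin n) :
    ∃ F : (Fin k → (TT n → F2) × (TT n → F2)) ≃ (Fin k → (TT n → F2) × (TT n → F2)), ∀ t S,
      wl k (Gr (phi (AA n)) 0) t S =
        wl k (Gr (phi (AA n)) (hh (AA n) (Pi.single (.inl p) 1))) t (F S) := by
  have h4 : 0 < 4 ^ (k + 1) := by positivity
  set t : TT n → F2 := Pi.single (.inl p) 1 with ht
  have inj : ∀ B : (TT n → F2) → TT n → F2, Function.Involutive
      fun x : (TT n → F2) × (TT n → F2) => (x.1, x.2 + B x.1) := fun B x => by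
    simp only [add_assoc, v2, add_zero]
  refine game _ _ (fun α β => ∃ M, (∀ S ∈ Ann (AA n) (Set.range fun i => (α i).1),
    S ⬝ᵥ (dl (AA n) M + t) = rho S) ∧ ∀ i, β i = ((α i).1, (α i).2 + (M + Mᵀ) *ᵥ (α i).1))
    ?_ ?_ (fun _ => 0) (fun _ => 0) ⟨0, fun S hS => ?_, fun i => by simp; rfl⟩
  · rintro α β ⟨M, h1, h2⟩ i j
    rw [h2, h2]
    refine ⟨((inj fun i => (M + Mᵀ) *ᵥ i).injective.eq_iff).symm, adj_iff _ _ _ _ _ fun v hv => ?_⟩
    have := h1 (Pi.single v 1) fun N hN => by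
      have : (N + Nᵀ) *ᵥ Pi.single v 1 = 0 := hv.elim (fun e => hN _ ⟨i, e⟩) fun e => hN _ ⟨j, e⟩
      rw [single_dotProduct, dl_eq, this, zero_dotProduct, mul_zero]
    rw [rho_single (by omega)] at this
    simpa using this
  · rintro α β ⟨M, h1, h2⟩
    have := fun z : TT n → F2 => extend (AA n) t rho (J := Set.range fun i => (α i).1)
      (J' := Set.range fun o : Option (Fin k) => o.elim z fun i => (α i).1)
      (by rintro _ ⟨i, rfl⟩; exact ⟨some i, rfl⟩) (rho_add _ (by simpa using hn)) M h1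
    choose N k1 k2 using this
    refine ⟨(inj fun z => (M + N z + (M + N z)ᵀ) *ᵥ z).toPerm, fun x i =>
      ⟨M + N x.1, fun S hS => k2 _ S fun L hL => hS L ?_, fun j => ?_⟩⟩
    · rintro _ ⟨j, rfl⟩
      by_cases e : j = i
      · subst e; simp only [Function.update_self]; exact hL _ ⟨none, rfl⟩
      · simp only [Function.update_of_ne e]; exact hL _ ⟨some j, rfl⟩
    · by_cases e : j = i
      · subst e; simp only [Function.update_self]; rfl
      · simp only [Function.update_of_ne e]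
        rw [h2, bb, k1 _ _ ⟨j, rfl⟩, add_zero]
  · have d0 : dl (AA n) 0 = 0 := funext fun v => by simp [dl]
    have : pure S p := fun c => by
      have := omega4 AA_symm hS (.inl p) (.inr c) (.inr c) (.inr (p, p)) (by
        rintro _ ⟨s, rfl⟩; exact ⟨rfl, rfl⟩)
      simpa [AA, PP, z2] using this
    rw [d0, zero_add, rho_eq this, ht]; simp

end Pool.Agent.H17.SRG
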