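import Mathlib

set_option autoImplicit false

namespace Pool.Agent.H17.SignRec

open Finset

def ker (k : ℕ) (u : ℕ → ℤ) : Set (ℕ → ℤ) := {v | ∃ e j, j < k ^ e ∧ v = fun n => u (k ^ e * n + j)}

theorem ker_sub (u : ℕ → ℤ) (F : Set (ℕ → ℤ)) (hu : u ∈ F)
    (h0 : ∀ v ∈ F, (fun n => v (2 * n)) ∈ F) (h1 : ∀ v ∈ F, (fun n => v (2 * n + 1)) ∈ F) :
    ker 2 u ⊆ F := by
  rintro v ⟨e, j, hj, rfl⟩
  induction e generalizing j with
  | zero =>
    obtain rfl : j = 0 := by simpa using hj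
    simpa using hu
  | succ e ih =>
    by_cases h : j < 2 ^ e
    · have := h0 _ (ih j h)
      convert this using 3; ring
    · have := h1 _ (ih (j - 2 ^ e) (by rw [pow_succ] at hj; omega))
      convert this using 3
      have : 2 ^ e * (2 * ‹ℕ› + 1) = 2 ^ (e + 1) * ‹ℕ› + 2 ^ e := by ring
      omega

def sg (n : ℕ) : ℤ := if 2 * n < 3 * 2 ^ Nat.log 2 n then 1 else -1
def pw (n : ℕ) : ℤ := if n = 2 ^ Nat.log 2 n then 1 else 0
def b (n : ℕ) : ℤ := if n < 2 then 0 else sg n - pw n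
def a (n : ℕ) : ℤ := if n % 2 = 0 then b (n / 2) else 0

theorem log0 (n : ℕ) (h : 1 ≤ n) : Nat.log 2 (2 * n) = Nat.log 2 n + 1 := by
  rw [mul_comm, Nat.log_mul_base (by norm_num) (by omega)]

theorem log1 (n : ℕ) (h : 1 ≤ n) : Nat.log 2 (2 * n + 1) = Nat.log 2 n + 1 := by
  rw [Nat.log_of_one_lt_of_le (by norm_num) (by omega)]
  congr 2; omega

theorem even_pow (n : ℕ) (h : 2 ≤ n) : ∃ t, 2 ^ Nat.log 2 n = 2 * t := by
  have : 0 < Nat.log 2 n := Nat.log_pos (by norm_num) h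
  exact ⟨2 ^ (Nat.log 2 n - 1), by rw [← pow_succ']; congr 1; omega⟩

def G (x y ε : ℤ) (n : ℕ) : ℤ := if n = 0 then x else if n = 1 then y else sg n - ε * pw n

def F : Set (ℕ → ℤ) := {a, 0} ∪
  (fun t : ℤ × ℤ × ℤ => G t.1 t.2.1 t.2.2) '' (Set.Icc (-2) 2 ×ˢ Set.Icc (-2) 2 ×ˢ Set.Icc 0 1)

theorem F_fin : F.Finite :=
  (Set.toFinite _).union (((Set.finite_Icc _ _).prod
    ((Set.finite_Icc _ _).prod (Set.finite_Icc _ _))).image _)

theorem auto : (ker 2 a).Finite := by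
  refine F_fin.subset (ker_sub a F (by simp [F]) ?_ ?_)
  · rintro v ((rfl | rfl) | ⟨⟨x, y, ε⟩, ⟨hx, hy, he⟩, rfl⟩)
    · refine Or.inr ⟨⟨0, 0, 1⟩, by simp, ?_⟩
      funext n
      simp only [G, a, b]
      have : 2 * n / 2 = n := by omega
      rw [this]
      split_ifs <;> first | omega | simp
    · exact Or.inl (Or.inr rfl)
    · refine Or.inr ⟨⟨x, 1 - ε, ε⟩, ⟨hx, ⟨by have := he.2; simp at this ⊢; omega,
        by have := he.1; simp at this ⊢; omega⟩, he⟩, ?_⟩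
      funext n
      simp only [G]
      rcases Nat.lt_or_ge n 2 with h | h
      · interval_cases n
        · simp
        · have : Nat.log 2 2 = 1 := by norm_num
          simp [sg, pw, this]
      · rw [if_neg (by omega), if_neg (by omega), if_neg (by omega), if_neg (by omega)]
        simp only [sg, pw, log0 n (by omega), pow_succ]
        split_ifs <;> first | omega | rfl
  · rintro v ((rfl | rfl) | ⟨⟨x, y, ε⟩, ⟨hx, hy, he⟩, rfl⟩)
    · refine Or.inl (Or.inr ?_)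
      funext n
      simp only [a]
      rw [if_neg (by omega)]; rfl
    · exact Or.inl (Or.inr rfl)
    · refine Or.inr ⟨⟨y, -1, 0⟩, ⟨hy, by simp, by simp⟩, ?_⟩
      funext n
      simp only [G]
      rcases Nat.lt_or_ge n 2 with h | h
      · interval_cases n
        · simp
        · have : Nat.log 2 3 = 1 := by norm_num
          simp [sg, pw, this]
      · rw [if_neg (by omega), if_neg (by omega), if_neg (by omega), if_neg (by omega)]
        obtain ⟨t, ht⟩ := even_pow n h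
        simp only [sg, pw, log1 n (by omega), pow_succ, ht]
        split_ifs <;> first | omega | simp

theorem fin_range : (Set.range a).Finite := by
  refine (Set.finite_Icc (-2 : ℤ) 2).subset ?_
  rintro _ ⟨n, rfl⟩
  simp only [a, b, sg, pw]
  split_ifs <;> simp

theorem rvals (r : ℕ → ℤ) (_h0 : r 0 = 0) (h1 : r 1 = 1)
    (h : ∀ n, r (n + 2) = a (n + 2) * r (n + 1) + r n) (k : ℕ) :
    r (2 * k + 1) = 1 ∧ r (2 * k + 2) = r (2 * k) + b (k + 1) := by
  have o : ∀ k, r (2 * k + 1) = 1 := by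
    intro k
    induction k with
    | zero => simpa using h1
    | succ k ih =>
      have := h (2 * k + 1)
      rw [show 2 * (k + 1) + 1 = 2 * k + 1 + 2 by ring, this, ih]
      simp only [a]
      rw [if_neg (by omega)]; simp
  refine ⟨o k, ?_⟩
  rw [h, o k]
  simp only [a]
  rw [if_pos (by omega), show (2 * k + 2) / 2 = k + 1 by omega]; ring

theorem closed (r : ℕ → ℤ) (h0 : r 0 = 0) (h1 : r 1 = 1)
    (h : ∀ n, r (n + 2) = a (n + 2) * r (n + 1) + r n) (k : ℕ) (hk : 1 ≤ k) :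
    r (2 * k) = min ((k : ℤ) + 1 - 2 ^ Nat.log 2 k) (2 * 2 ^ Nat.log 2 k - (k + 1)) -
      Nat.log 2 k := by
  induction k, hk using Nat.le_induction with
  | base =>
    have := (rvals r h0 h1 h 0).2
    simp [b] at this
    simp [this, h0]
  | succ k hk ih =>
    rw [show 2 * (k + 1) = 2 * k + 2 by ring, (rvals r h0 h1 h k).2, ih]
    have l1 := Nat.pow_log_le_self 2 (show k ≠ 0 by omega)
    have l2 := Nat.lt_pow_succ_log_self (show 1 < 2 by norm_num) k
    obtain ⟨t, ht⟩ := even_pow (k + 1) (by omega)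
    simp only [b, sg, pw]
    rw [if_neg (by omega)]
    rw [pow_succ] at l2
    obtain ⟨s, hs⟩ : ∃ s, 2 ^ Nat.log 2 k = s := ⟨_, rfl⟩
    have hs' : (2 : ℤ) ^ Nat.log 2 k = s := by rw [← hs]; push_cast; rfl
    by_cases e : k + 1 < 2 ^ Nat.log 2 k * 2
    · have : Nat.log 2 (k + 1) = Nat.log 2 k :=
        Nat.log_eq_of_pow_le_of_lt_pow (by omega) (by rw [pow_succ]; exact e)
      rw [this] at ht ⊢
      simp only [hs, hs'] at ht l1 l2 e ⊢
      push_cast
      split_ifs <;> omega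
    · have : Nat.log 2 (k + 1) = Nat.log 2 k + 1 :=
        Nat.log_eq_of_pow_le_of_lt_pow (by rw [pow_succ]; omega) (by rw [pow_succ, pow_succ]; omega)
      rw [this]
      simp only [pow_succ, hs, hs'] at l1 l2 e ⊢
      push_cast
      split_ifs <;> omega

theorem lin_lt (A B : ℕ) : ∃ m, B ≤ m ∧ A * (m + 1) + B < 2 ^ m := by
  have h := (tendsto_pow_const_div_const_pow_of_one_lt 1 (by norm_num : (1 : ℝ) < 2)).eventually
    (gt_mem_nhds (show (0 : ℝ) < 1 / (2 * A + 2) by positivity))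
  obtain ⟨m, h1, h2⟩ := (h.and (Filter.eventually_ge_atTop (B + 1))).exists
  refine ⟨m, by omega, ?_⟩
  rw [div_lt_div_iff₀ (by positivity) (by positivity)] at h1
  have : m ^ 1 * (2 * A + 2) < 1 * 2 ^ m := by exact_mod_cast h1
  nlinarith

theorem not_auto (r : ℕ → ℤ) (h0 : r 0 = 0) (h1 : r 1 = 1)
    (h : ∀ n, r (n + 2) = a (n + 2) * r (n + 1) + r n) (k : ℕ) (hk : 2 ≤ k) :
    ¬ (ker k (fun n => Int.sign (r n))).Finite := by
  intro hf
  obtain ⟨e, e', hlt, he⟩ := Set.Finite.exists_lt_map_eq_of_forall_mem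
    (f := fun e : ℕ => fun n => Int.sign (r (k ^ e * n + 0))) (t := ker k (fun n => Int.sign (r n)))
    (fun e => ⟨e, 0, by positivity, rfl⟩) hf
  obtain ⟨c, hc⟩ : ∃ c, c = k ^ e := ⟨_, rfl⟩
  obtain ⟨K, hK⟩ : ∃ K, K = k ^ (e' - e) := ⟨_, rfl⟩
  have hc0 : 0 < c := by rw [hc]; positivity
  have hK2 : 2 ≤ K := by
    rw [hK]; exact hk.trans (Nat.le_self_pow (by omega) k)
  have e1 : k ^ e' = K * c := by rw [hK, hc, ← pow_add]; congr 1; omega
  obtain ⟨s, hs⟩ : ∃ s, s = Nat.log 2 K := ⟨_, rfl⟩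
  have s1 : 2 ^ s ≤ K := hs ▸ Nat.pow_log_le_self 2 (by omega)
  have s2 : K < 2 ^ s * 2 := by rw [← pow_succ, hs]; exact Nat.lt_pow_succ_log_self (by norm_num) K
  obtain ⟨m, m1, m2⟩ := lin_lt (K + 2) (2 * c + s + 6)
  obtain ⟨P, hP⟩ : ∃ P, P = 2 ^ m := ⟨_, rfl⟩
  rw [← hP] at m2
  obtain ⟨n, hn⟩ : ∃ n, n = (P + m - 2) / c := ⟨_, rfl⟩
  have n1 : c * n ≤ P + m - 2 := hn ▸ Nat.mul_div_le _ _
  have n2 : P + m - 2 < c * n + c := by
    have := Nat.lt_mul_div_succ (P + m - 2) hc0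
    rw [← hn] at this; linarith
  obtain ⟨y, hy⟩ : ∃ y, c * n = P + y := ⟨c * n - P, by omega⟩
  have y1 : y + 2 ≤ m := by omega
  have y2 : m < y + c + 2 := by omega
  have l1 : Nat.log 2 (P + y) = m :=
    Nat.log_eq_of_pow_le_of_lt_pow (by omega) (by rw [pow_succ, ← hP]; nlinarith)
  obtain ⟨Q, hQ⟩ : ∃ Q, Q = 2 ^ s := ⟨_, rfl⟩
  rw [← hQ] at s1 s2
  have q1 : Q * P + 2 * y ≤ K * (P + y) := by nlinarith
  have q2 : K * (P + y) + (m + s + 2) < Q * P * 2 := by nlinarith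
  have l2 : Nat.log 2 (K * (P + y)) = s + m :=
    Nat.log_eq_of_pow_le_of_lt_pow (by rw [pow_add, ← hP, ← hQ]; omega)
      (by rw [pow_succ, pow_add, ← hP, ← hQ]; omega)
  have v1 := closed r h0 h1 h (P + y) (by omega)
  have v2 := closed r h0 h1 h (K * (P + y)) (by nlinarith)
  rw [l1] at v1
  rw [l2, pow_add] at v2
  have hP' : (2 : ℤ) ^ m = P := by rw [hP]; push_cast; rfl
  have hQ' : (2 : ℤ) ^ s = Q := by rw [hQ]; push_cast; rfl
  rw [hP'] at v1 v2
  rw [hQ', ← Nat.cast_mul] at v2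
  have := congrFun he (2 * n)
  simp only [add_zero] at this
  rw [← hc, e1, show c * (2 * n) = 2 * (P + y) by rw [← hy]; ring,
    show K * c * (2 * n) = 2 * (K * (P + y)) by rw [← hy]; ring,
    Int.sign_eq_neg_one_of_neg (by rw [v1]; omega), Int.sign_eq_one_of_pos (by rw [v2]; omega)] at this
  omega

end Pool.Agent.H17.SignRec
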