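import Mathlib

set_option autoImplicit false

namespace Pool.Agent.H17.Smooth

open Filter Topology Finset

noncomputable def cnt {ι : Type} (a : ι → ℕ) (n : ℕ) : ℕ := {S : Finset ι | ∑ i ∈ S, a i = n}.ncard

noncomputable def P {ι 𝕜 : Type} [NormedField 𝕜] (a : ι → ℕ) (z : 𝕜) : 𝕜 := ∏' i, (1 + z ^ a i)

theorem fin {ι : Type} {a : ι → ℕ} (ha : Function.Injective a) (n : ℕ) :
    {S : Finset ι | ∑ i ∈ S, a i = n}.Finite := by
  have h : (a ⁻¹' Set.Iic n).Finite := (Set.finite_Iic n).preimage ha.injOn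
  refine (h.toFinset.powerset.finite_toSet).subset fun S hS => ?_
  simp only [coe_powerset, Set.mem_preimage, Set.mem_powerset_iff, Set.Finite.coe_toFinset]
  intro i hi
  exact (single_le_sum (f := a) (fun _ _ => Nat.zero_le _) hi).trans (le_of_eq hS)

theorem gen {ι 𝕜 : Type} [NormedField 𝕜] [CompleteSpace 𝕜] {a : ι → ℕ}
    (ha : Function.Injective a) {z : 𝕜} (hz : ‖z‖ < 1) :
    HasProd (fun i => 1 + z ^ a i) (P a z) ∧ HasSum (fun n => (cnt a n : 𝕜) * z ^ n) (P a z) := by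
  have h1 : Summable fun i => ‖z ^ a i‖ := by
    simp only [norm_pow]
    exact (summable_geometric_of_lt_one (norm_nonneg _) hz).comp_injective ha
  obtain ⟨F, hF⟩ := summable_finsetProd_of_summable_norm h1
  have h2 := hasProd_one_add_of_hasSum_prod hF
  rw [P, h2.tprod_eq]
  refine ⟨h2, ?_⟩
  have h3 := (Equiv.sigmaFiberEquiv fun S : Finset ι => ∑ i ∈ S, a i).hasSum_iff.2 hF
  refine h3.sigma fun n => ?_
  have : Fintype {S : Finset ι // ∑ i ∈ S, a i = n} := (fin ha n).fintype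
  convert hasSum_fintype _ using 1
  rw [sum_congr rfl (g := fun _ => z ^ n), sum_const, card_univ, nsmul_eq_mul, cnt,
    ← Nat.card_eq_fintype_card]
  · rfl
  · rintro ⟨S, hS⟩ _
    simp only [Function.comp, Equiv.sigmaFiberEquiv_apply]
    rw [prod_pow_eq_pow_sum, hS]

theorem P_mono {ι : Type} {a : ι → ℕ} (ha : Function.Injective a) {r t : ℝ} (h0 : 0 ≤ r)
    (h : r ≤ t) (h1 : t < 1) : P a r ≤ P a t :=
  hasSum_le (fun n => by gcongr) (gen ha (by rw [Real.norm_of_nonneg h0]; linarith)).2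
    (gen ha (by rw [Real.norm_of_nonneg (h0.trans h)]; exact h1)).2

theorem P_one {ι : Type} {a : ι → ℕ} (ha : Function.Injective a) {r : ℝ} (h0 : 0 ≤ r)
    (h1 : r < 1) : 1 ≤ P a r :=
  ge_of_tendsto' (gen ha (by rw [Real.norm_of_nonneg h0]; exact h1)).1 fun s =>
    Finset.prod_induction _ (fun x : ℝ => 1 ≤ x) (fun _ _ => one_le_mul_of_one_le_of_one_le) le_rfl
      fun i _ => by have := pow_nonneg h0 (a i); linarith

theorem P_real {ι : Type} {a : ι → ℕ} (ha : Function.Injective a) {r : ℝ} (h0 : 0 ≤ r)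
    (h1 : r < 1) : P a (r : ℂ) = (P a r : ℝ) := by
  have h := (gen ha (z := r) (by rw [Real.norm_of_nonneg h0]; exact h1)).2
  refine (gen ha (by rw [Complex.norm_real, Real.norm_of_nonneg h0]; exact h1)).2.unique ?_
  simpa using Complex.hasSum_ofReal.2 h

def aH (v : ℕ) (b : ℕ) : ℕ := v ^ b
def aF (u v : ℕ) (i : ℕ × ℕ) : ℕ := u ^ i.1 * v ^ i.2

theorem aH_inj {v : ℕ} (hv : 2 ≤ v) : Function.Injective (aH v) := Nat.pow_right_injective hv

theorem aF_inj {u v : ℕ} (hu : 2 ≤ u) (hv : 2 ≤ v) (h : u.Coprime v) :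
    Function.Injective (aF u v) := by
  have key : ∀ i j, aF u v i = aF u v j → i.1 ≤ j.1 := fun i j e =>
    (Nat.pow_dvd_pow_iff_le_right (by omega : 1 < u)).1
      ((h.pow _ _).dvd_of_dvd_mul_right ⟨_, e.symm⟩)
  intro i j e
  have e1 := (key i j e).antisymm (key j i e.symm)
  rw [aF, aF, e1] at e
  exact Prod.ext e1 (Nat.pow_right_injective hv (Nat.eq_of_mul_eq_mul_left (by positivity) e))

theorem H_eq {𝕜 : Type} [NormedField 𝕜] [CompleteSpace 𝕜] {v : ℕ} (hv : 2 ≤ v) {z : 𝕜}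
    (hz : ‖z‖ < 1) : P (aH v) z = (1 + z) * P (aH v) (z ^ v) := by
  have h := (gen (aH_inj hv) (z := z ^ v)
    (by rw [norm_pow]; exact pow_lt_one₀ (norm_nonneg _) hz (by omega))).1
  have h2 := HasProd.zero_mul (f := fun b => 1 + z ^ aH v b) (m := P (aH v) (z ^ v)) (by
    simpa only [aH, ← pow_mul, pow_succ'] using h)
  simpa [aH] using (gen (aH_inj hv) hz).1.unique h2

def eqv : ℕ ⊕ ℕ × ℕ ≃ ℕ × ℕ where
  toFun := Sum.elim (fun b => (0, b)) fun i => (i.1 + 1, i.2)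
  invFun i := match i with
    | (0, b) => Sum.inl b
    | (a + 1, b) => Sum.inr (a, b)
  left_inv := by rintro (_ | _) <;> rfl
  right_inv := by rintro ⟨_ | _, _⟩ <;> rfl

theorem F_eq {𝕜 : Type} [NormedField 𝕜] [CompleteSpace 𝕜] {u v : ℕ} (hu : 2 ≤ u) (hv : 2 ≤ v)
    (h : u.Coprime v) {z : 𝕜} (hz : ‖z‖ < 1) :
    P (aF u v) z = P (aH v) z * P (aF u v) (z ^ u) := by
  have h1 := (gen (aF_inj hu hv h) (z := z ^ u)
    (by rw [norm_pow]; exact pow_lt_one₀ (norm_nonneg _) hz (by omega))).1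
  refine (gen (aF_inj hu hv h) hz).1.unique (eqv.hasProd_iff.1 (HasProd.sum ?_ ?_))
  · convert (gen (aH_inj hv) hz).1 using 1
    funext b
    simp [eqv, aF, aH]
  · convert h1 using 1
    funext b
    simp [eqv, aF, ← pow_mul, pow_succ', mul_assoc]

theorem H_prod {u v : ℕ} (hu : Odd u) (hv : 2 ≤ v) (h : u.Coprime v) {r : ℝ} (h0 : 0 ≤ r)
    (h1 : r < 1) : ∏ ω ∈ Polynomial.nthRootsFinset u (1 : ℂ), P (aH v) (ω * r) =
      P (aH v) ((r : ℂ) ^ u) := by
  have hu0 := hu.pos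
  have hr : ‖(r : ℂ)‖ < 1 := by rwa [Complex.norm_real, Real.norm_of_nonneg h0]
  have a1 := hasProd_prod (s := Polynomial.nthRootsFinset u (1 : ℂ))
    (f := fun (ω : ℂ) b => 1 + (ω * r) ^ aH v b) (a := fun ω : ℂ => P (aH v) (ω * r)) fun ω hω =>
      (gen (aH_inj hv) (by
        rwa [norm_mul, Complex.norm_eq_one_of_pow_eq_one ((Polynomial.mem_nthRootsFinset hu0 _).1 hω)
          hu0.ne', one_mul])).1
  refine a1.unique ?_
  convert (gen (aH_inj hv) (z := (r : ℂ) ^ u)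
    (by rw [norm_pow]; exact pow_lt_one₀ (norm_nonneg _) hr hu0.ne')).1 using 2 with b
  have e := (Complex.isPrimitiveRoot_exp u hu0.ne').pow_add_pow_eq_prod_add_mul 1
    ((r : ℂ) ^ aH v b) hu
  rw [one_pow, ← pow_mul, mul_comm, pow_mul] at e
  rw [e]
  have inj : Set.InjOn (fun ω : ℂ => ω ^ aH v b) (Polynomial.nthRootsFinset u (1 : ℂ)) := by
    intro x hx y hy e
    rw [mem_coe, Polynomial.mem_nthRootsFinset hu0] at hx hy
    have y0 : y ≠ 0 := by
      rintro rfl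
      simp [hu0.ne'] at hy
    have e1 : (x / y) ^ aH v b = 1 := by
      rw [div_pow, div_eq_one_iff_eq (pow_ne_zero _ y0)]; exact e
    have e2 : (x / y) ^ u = 1 := by rw [div_pow, hx, hy, div_one]
    have := pow_gcd_eq_one.2 ⟨e2, e1⟩
    rwa [aH, h.pow_right b, pow_one, div_eq_one_iff_eq y0] at this
  have im : (Polynomial.nthRootsFinset u (1 : ℂ)).image (fun ω : ℂ => ω ^ aH v b) =
      Polynomial.nthRootsFinset u (1 : ℂ) := by
    refine eq_of_subset_of_card_le (fun x hx => ?_) (card_image_of_injOn inj).ge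
    obtain ⟨y, hy, rfl⟩ := mem_image.1 hx
    rw [Polynomial.mem_nthRootsFinset hu0] at hy ⊢
    rw [← pow_mul, mul_comm, pow_mul, hy, one_pow]
  conv_rhs => rw [← im, prod_image inj]
  simp only [mul_pow]

theorem bound {f : ℕ → ℕ} {ε : ℝ} (hε : ε = 1 ∨ ε = -1) {N : ℕ}
    (hf : ∀ n, N ≤ n → 0 ≤ ε * ((f (n + 1) : ℝ) - f n)) :
    ∃ C : ℝ, ∀ (r : ℝ) (ω : ℂ) (F : ℝ) (G : ℂ), 0 ≤ r → r ≤ 1 → 0 ≤ F → ‖ω‖ = 1 →
      HasSum (fun n => (f n : ℝ) * r ^ n) F → HasSum (fun n => (f n : ℂ) * (ω * r) ^ n) G →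
      ‖1 - ω‖ * ‖G‖ ≤ 2 * (C + (1 - r) * F) := by
  refine ⟨2 * f 0 + ∑ n ∈ range N, 2 * |(f (n + 1) : ℝ) - f n|, ?_⟩
  intro r ω F G h0 h1 hF hω s1 s2
  have t1 := ((hasSum_nat_add_iff' 1).2 s1).sub (s1.mul_left r)
  have t2 := ((hasSum_nat_add_iff' 1).2 s2).sub (s2.mul_left (ω * r))
  have t3 : HasSum (fun n => if n < N then 2 * |(f (n + 1) : ℝ) - f n| else 0)
      (∑ n ∈ range N, 2 * |(f (n + 1) : ℝ) - f n|) := by
    convert hasSum_sum_of_ne_finset_zero (s := range N) _ using 1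
    · exact sum_congr rfl fun n hn => by rw [if_pos (mem_range.1 hn)]
    · intro n hn
      rw [if_neg (by simpa using hn)]
    · infer_instance
  have t4 := tsum_of_norm_bounded ((t1.mul_left ε).add t3) (f := fun n =>
      (f (n + 1) : ℂ) * (ω * r) ^ (n + 1) - ω * r * ((f n : ℂ) * (ω * r) ^ n)) fun n => by
    have e : (f (n + 1) : ℂ) * (ω * r) ^ (n + 1) - ω * r * ((f n : ℂ) * (ω * r) ^ n) =
        (((f (n + 1) : ℝ) - f n : ℝ) : ℂ) * (ω * r) ^ (n + 1) := by push_cast; ring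
    rw [e, norm_mul, norm_pow, norm_mul, hω, one_mul, Complex.norm_real, Complex.norm_real,
      Real.norm_of_nonneg h0, Real.norm_eq_abs]
    have e2 : ε * ((f (n + 1) : ℝ) * r ^ (n + 1) - r * (f n * r ^ n)) =
      (ε * ((f (n + 1) : ℝ) - f n)) * r ^ (n + 1) := by ring
    have e3 : |(f (n + 1) : ℝ) - f n| = |ε * ((f (n + 1) : ℝ) - f n)| := by
      rcases hε with rfl | rfl <;> simp [abs_sub_comm]
    have p0 := pow_nonneg h0 (n + 1)
    have p1 := pow_le_one₀ (n := n + 1) h0 h1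
    rw [e2, e3]
    split_ifs with hn
    · have := neg_abs_le (ε * ((f (n + 1) : ℝ) - f n))
      have := abs_nonneg (ε * ((f (n + 1) : ℝ) - f n))
      nlinarith
    · rw [abs_of_nonneg (hf n (by omega)), add_zero]
  rw [t2.tsum_eq, sum_range_one, sum_range_one, pow_zero, pow_zero, mul_one, mul_one] at t4
  have t5 : ‖1 - ω * r‖ * ‖G‖ ≤ ‖G - f 0 - ω * r * G‖ + f 0 := by
    rw [← norm_mul, show (1 - ω * r) * G = (G - f 0 - ω * r * G) + f 0 by ring]
    exact (norm_add_le _ _).trans (by simp)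
  have t6 : ‖1 - ω‖ ≤ 2 * ‖1 - ω * r‖ := by
    have a1 : ‖1 - ω‖ ≤ ‖1 - ω * r‖ + (1 - r) := by
      rw [show 1 - ω = (1 - ω * r) - ω * (1 - r : ℝ) by push_cast; ring]
      refine (norm_sub_le _ _).trans ?_
      rw [norm_mul, hω, one_mul, Complex.norm_real, Real.norm_of_nonneg (by linarith)]
    have a2 := norm_sub_norm_le 1 (ω * r)
    rw [norm_one, norm_mul, hω, one_mul, Complex.norm_real, Real.norm_of_nonneg h0] at a2
    linarith
  have t7 : ε * (F - f 0 - r * F) ≤ f 0 + (1 - r) * F := by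
    have : 0 ≤ (1 - r) * F := mul_nonneg (by linarith) hF
    have : (0 : ℝ) ≤ f 0 := by positivity
    rcases hε with rfl | rfl <;> linarith
  have := norm_nonneg G
  nlinarith

theorem H_le {u v : ℕ} (hu : 0 < u) (hv : 2 ≤ v) {r : ℝ} (h0 : 0 ≤ r) (h1 : r < 1) :
    P (aH v) r ≤ 2 ^ u * P (aH v) (r ^ u) := by
  have key : ∀ k, P (aH v) r ≤ 2 ^ k * P (aH v) (r ^ v ^ k) := by
    intro k
    induction k with
    | zero => simp
    | succ k ih =>
      have a0 := pow_nonneg h0 (v ^ k)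
      have a1 := pow_lt_one₀ h0 h1 (n := v ^ k) (by positivity)
      have a2 := P_one (aH_inj hv) (pow_nonneg a0 v) (pow_lt_one₀ a0 a1 (n := v) (by omega))
      rw [H_eq hv (z := r ^ v ^ k) (by rwa [Real.norm_of_nonneg a0])] at ih
      rw [pow_succ v, pow_mul, pow_succ, mul_assoc]
      refine ih.trans ?_
      gcongr
      linarith
  refine (key u).trans ?_
  gcongr
  exact P_mono (aH_inj hv) (pow_nonneg h0 _)
    (pow_le_pow_of_le_one h0 h1.le (Nat.lt_pow_self (by omega)).le) (pow_lt_one₀ h0 h1 hu.ne')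

theorem main {u v : ℕ} (hu : Odd u) (hu3 : 3 ≤ u) (hv : 3 ≤ v) (h : u.Coprime v) {ε : ℝ}
    (hε : ε = 1 ∨ ε = -1) {N : ℕ}
    (hf : ∀ n, N ≤ n → 0 ≤ ε * ((cnt (aF u v) (n + 1) : ℝ) - cnt (aF u v) n)) : False := by
  obtain ⟨C, hC⟩ := bound hε hf
  have hv2 : 2 ≤ v := by omega
  have iH := aH_inj hv2
  have iF := aF_inj (by omega) hv2 h
  set S := (Polynomial.nthRootsFinset u (1 : ℂ)).erase 1 with hS
  have h1S : (1 : ℂ) ∈ Polynomial.nthRootsFinset u (1 : ℂ) :=
    (Polynomial.mem_nthRootsFinset hu.pos _).2 (one_pow _)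
  have cS : S.card = u - 1 := by
    rw [hS, card_erase_of_mem h1S, (Complex.isPrimitiveRoot_exp u hu.pos.ne').card_nthRootsFinset]
  have kpos : 0 < ∏ ω ∈ S, ‖1 - ω‖ :=
    prod_pos fun ω hω => norm_pos_iff.2 (sub_ne_zero.2 (mem_erase.1 hω).1.symm)
  have ineq : ∀ r : ℝ, 0 ≤ r → r < 1 → ∏ ω ∈ S, ‖1 - ω‖ ≤
      2 ^ u * (2 * (2 ^ u * |C| / P (aH v) r + (1 - r) * P (aH v) r)) ^ (u - 1) := by
    intro r h0 h1
    have u0 := pow_nonneg h0 u
    have u1 := pow_lt_one₀ h0 h1 hu.pos.ne'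
    have H1 := P_one iH h0 h1
    have H2 := P_one iH u0 u1
    have G1 := P_one iF u0 u1
    have HG : P (aH v) r ≤ 2 ^ u * P (aF u v) (r ^ u) := by
      refine (H_le hu.pos hv2 h0 h1).trans ?_
      gcongr
      rw [F_eq (by omega) hv2 h (z := r ^ u) (by rwa [Real.norm_of_nonneg u0])]
      exact le_mul_of_one_le_right (by linarith)
        (P_one iF (pow_nonneg u0 _) (pow_lt_one₀ u0 u1 hu.pos.ne'))
    have each : ∀ ω ∈ S, ‖1 - ω‖ * ‖P (aH v) (ω * r)‖ ≤
        2 * (2 ^ u * |C| / P (aH v) r + (1 - r) * P (aH v) r) := by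
      intro ω hω
      have e1 := (Polynomial.mem_nthRootsFinset hu.pos _).1 (mem_erase.1 hω).2
      have e2 := Complex.norm_eq_one_of_pow_eq_one e1 hu.pos.ne'
      have hz : ‖ω * r‖ < 1 := by
        rwa [norm_mul, e2, one_mul, Complex.norm_real, Real.norm_of_nonneg h0]
      have b := hC r ω _ _ h0 h1.le (by linarith [P_one iF h0 h1]) e2
        (gen iF (by rwa [Real.norm_of_nonneg h0])).2 (gen iF hz).2
      rw [F_eq (by omega) hv2 h hz, F_eq (by omega) hv2 h (z := r) (by rwa [Real.norm_of_nonneg h0]),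
        mul_pow, e1, one_mul, ← Complex.ofReal_pow, P_real iF u0 u1, norm_mul, Complex.norm_real,
        Real.norm_of_nonneg (by linarith)] at b
      have c : C ≤ 2 ^ u * |C| / P (aH v) r * P (aF u v) (r ^ u) := by
        rw [div_mul_eq_mul_div, le_div_iff₀ (by linarith)]
        have := le_abs_self C
        have := abs_nonneg C
        nlinarith
      refine le_of_mul_le_mul_right ?_ (show 0 < P (aF u v) (r ^ u) by linarith)
      nlinarith
    have pr := (prod_le_prod (fun ω _ => by positivity) each).trans (prod_const _).le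
    have hp := congrArg norm (H_prod hu hv2 h h0 h1)
    rw [← mul_prod_erase _ _ h1S, ← hS, one_mul, P_real iH h0 h1, ← Complex.ofReal_pow,
      P_real iH u0 u1, norm_mul, norm_prod, Complex.norm_real, Complex.norm_real,
      Real.norm_of_nonneg (by linarith), Real.norm_of_nonneg (by linarith)] at hp
    rw [prod_mul_distrib, cS] at pr
    have q : 1 ≤ 2 ^ u * ∏ ω ∈ S, ‖P (aH v) (ω * r)‖ := by
      refine le_of_mul_le_mul_left ?_ (show 0 < P (aH v) r by linarith)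
      rw [mul_left_comm, hp, mul_one]
      exact H_le hu.pos hv2 h0 h1
    have : (0 : ℝ) < 2 ^ u := by positivity
    nlinarith
  let r : ℕ → ℝ := fun n => (1 / 2 : ℝ) ^ (((v : ℝ)⁻¹) ^ n)
  have vpos : (0 : ℝ) < v := by positivity
  have r0 : ∀ n, 1 / 2 ≤ r n := fun n => by
    nth_rw 1 [← Real.rpow_one (1 / 2)]
    exact Real.rpow_le_rpow_of_exponent_ge (by norm_num) (by norm_num)
      (pow_le_one₀ (by positivity) (inv_le_one_of_one_le₀ (by exact_mod_cast (by omega : 1 ≤ v))))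
  have r1 : ∀ n, r n < 1 := fun n => Real.rpow_lt_one (by norm_num) (by norm_num) (by positivity)
  have rv : ∀ n, r (n + 1) ^ v = r n := fun n => by
    simp only [r]
    rw [← Real.rpow_natCast, ← Real.rpow_mul (by norm_num), pow_succ, mul_assoc,
      inv_mul_cancel₀ vpos.ne', mul_one]
  have hrec : ∀ n, P (aH v) (r (n + 1)) = (1 + r (n + 1)) * P (aH v) (r n) := fun n => by
    rw [H_eq hv2 (by rw [Real.norm_of_nonneg (by linarith [r0 (n + 1)])]; exact r1 _), rv]
  have H1 : ∀ n, 1 ≤ P (aH v) (r n) := fun n => P_one iH (by linarith [r0 n]) (r1 n)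
  have low : ∀ n, (3 / 2 : ℝ) ^ n ≤ P (aH v) (r n) := by
    intro n
    induction n with
    | zero => simpa using H1 0
    | succ n ih =>
      rw [hrec, pow_succ']
      exact mul_le_mul (by linarith [r0 (n + 1)]) ih (by positivity) (by linarith [r0 (n + 1)])
  have up : ∀ n, (1 - r n) * P (aH v) (r n) ≤ (6 / 7) ^ n * P (aH v) (r 0) := by
    intro n
    induction n with
    | zero => have := H1 0; have := r0 0; simp only [pow_zero]; nlinarith
    | succ n ih =>
      have a0 := r0 (n + 1)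
      have a1 := r1 (n + 1)
      have a2 : r n ≤ r (n + 1) ^ 3 := rv n ▸ pow_le_pow_of_le_one (by linarith) a1.le hv
      have a3 : (1 - r (n + 1)) * (1 + r (n + 1)) ≤ 6 / 7 * (1 - r n) := by
        have : 0 ≤ (1 - r (n + 1)) * (6 * r (n + 1) ^ 2 - r (n + 1) - 1) :=
          mul_nonneg (by linarith) (by nlinarith)
        nlinarith
      have := H1 n
      rw [hrec, pow_succ', ← mul_assoc, mul_assoc (6 / 7 : ℝ)]
      nlinarith
  have T1 : Tendsto (fun n => 2 ^ u * |C| / P (aH v) (r n)) atTop (𝓝 0) :=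
    tendsto_const_nhds.div_atTop (tendsto_atTop_mono low
      (tendsto_pow_atTop_atTop_of_one_lt (by norm_num)))
  have T2 : Tendsto (fun n => (1 - r n) * P (aH v) (r n)) atTop (𝓝 0) :=
    squeeze_zero (fun n => mul_nonneg (by linarith [r1 n]) (by linarith [H1 n])) up (by
      simpa using (tendsto_pow_atTop_nhds_zero_of_lt_one (r := 6 / 7) (by norm_num)
        (by norm_num)).mul_const (P (aH v) (r 0)))
  have T := (((T1.add T2).const_mul 2).pow (u - 1)).const_mul (2 ^ u)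
  rw [add_zero, mul_zero, zero_pow (by omega), mul_zero] at T
  exact absurd (ge_of_tendsto' T fun n => ineq _ (by linarith [r0 n]) (r1 n)) (not_le.2 kpos)

end Pool.Agent.H17.Smooth
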