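import Mathlib

set_option autoImplicit false

namespace Pool.Agent.H17.TMFib

open Filter Topology

def t (n : ℕ) : ℤ := (-1) ^ (Nat.digits 2 n).sum

def h : ℕ → ℤ
  | 0 => 0
  | 1 => 1
  | (n + 2) => t (n + 2) * h (n + 1) + h n

theorem t_zero : t 0 = 1 := by simp [t]

theorem t_even (n : ℕ) : t (2 * n) = t n := by
  rcases Nat.eq_zero_or_pos n with rfl | hn
  · rfl
  · rw [t, t, Nat.digits_def' (by norm_num) (by omega)]
    simp

theorem t_odd (n : ℕ) : t (2 * n + 1) = -t n := by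
  rw [t, t, Nat.digits_def' (by norm_num) (by omega), show (2 * n + 1) % 2 = 1 by omega,
    show (2 * n + 1) / 2 = n by omega, List.sum_cons, pow_add]
  simp

theorem t_pm (n : ℕ) : t n = 1 ∨ t n = -1 := neg_one_pow_eq_or ℤ _

theorem t_sq (n : ℕ) : t n * t n = 1 := by rcases t_pm n with h | h <;> simp [h]

theorem t_blk (k : ℕ) : ∀ m i : ℕ, i < 2 ^ k → t (2 ^ k * m + i) = t m * t i := by
  induction k with
  | zero =>
    intro m i hi
    obtain rfl : i = 0 := by simpa using hi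
    simp [t_zero]
  | succ k ih =>
    intro m i hi
    rcases Nat.even_or_odd' i with ⟨j, rfl | rfl⟩
    · rw [show 2 ^ (k + 1) * m + 2 * j = 2 * (2 ^ k * m + j) by ring, t_even, t_even,
        ih m j (by omega)]
    · rw [show 2 ^ (k + 1) * m + (2 * j + 1) = 2 * (2 ^ k * m + j) + 1 by ring, t_odd, t_odd,
        ih m j (by omega)]
      ring

def V : ℕ → ℤ × ℤ
  | 0 => (1, -1)
  | n + 1 => (t n * (V n).1 + (V n).2, (V n).1)

theorem V_eq (n : ℕ) : V (n + 2) = (h (n + 1), h n) := by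
  induction n with
  | zero => simp [V, t_zero, h]
  | succ n ih => rw [V, ih, h]

def M : ℕ → ℤ × ℤ × ℤ × ℤ
  | 0 => (0, -1, 1, 1)
  | k + 1 => ((M k).1 ^ 2 - (M k).2.1 * (M k).2.2.1, (M k).2.1 * ((M k).1 - (M k).2.2.2),
      (M k).2.2.1 * ((M k).2.2.2 - (M k).1), (M k).2.2.2 ^ 2 - (M k).2.1 * (M k).2.2.1)

theorem blk (k : ℕ) : ∀ m : ℕ, V (2 ^ (k + 1) * (m + 1)) =
    ((M k).1 * (V (2 ^ (k + 1) * m)).1 + t m * (M k).2.1 * (V (2 ^ (k + 1) * m)).2,
     t m * (M k).2.2.1 * (V (2 ^ (k + 1) * m)).1 + (M k).2.2.2 * (V (2 ^ (k + 1) * m)).2) := by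
  induction k with
  | zero =>
    intro m
    have := t_sq m
    rw [show 2 ^ (0 + 1) * (m + 1) = 2 * m + 1 + 1 by ring, show 2 ^ (0 + 1) * m = 2 * m by ring]
    simp only [V, M, t_even, t_odd, Prod.mk.injEq]
    constructor
    · linear_combination (-(V (2 * m)).1) * this
    · ring
  | succ k ih =>
    intro m
    have := t_sq m
    rw [show 2 ^ (k + 1 + 1) * (m + 1) = 2 ^ (k + 1) * (2 * m + 1 + 1) by ring,
      show 2 ^ (k + 1 + 1) * m = 2 ^ (k + 1) * (2 * m) by ring, ih, ih]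
    simp only [M, t_even, t_odd, Prod.mk.injEq]
    constructor
    · linear_combination (-(M k).2.1 * (M k).2.2.1 * (V (2 ^ (k + 1) * (2 * m))).1) * this
    · linear_combination (-(M k).2.1 * (M k).2.2.1 * (V (2 ^ (k + 1) * (2 * m))).2) * this

theorem M_prop (k : ℕ) : (M k).2.2.1 = (-1) ^ (k + 1) * (M k).2.1 ∧
    (M k).1 * (M k).2.2.2 - (M k).2.1 * (M k).2.2.1 = 1 := by
  induction k with
  | zero => simp [M]
  | succ k ih =>
    obtain ⟨h1, h2⟩ := ih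
    simp only [M]
    constructor
    · rw [h1]; ring
    · linear_combination ((M k).1 * (M k).2.2.2 - (M k).2.1 * (M k).2.2.1 + 1) * h2

theorem t_ones (k : ℕ) : t (2 ^ k - 1) = (-1) ^ k := by
  induction k with
  | zero => simp [t_zero]
  | succ k ih =>
    have : 0 < 2 ^ k := by positivity
    rw [show 2 ^ (k + 1) - 1 = 2 * (2 ^ k - 1) + 1 by omega, t_odd, ih]
    ring

theorem g_eq (k : ℕ) : h (2 ^ (k + 2) - 3) =
    (M (k + 1)).1 - (M (k + 1)).2.1 - (-1) ^ k * ((M (k + 1)).2.2.1 - (M (k + 1)).2.2.2) := by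
  have h1 := blk (k + 1) 0
  have h0 : 0 < 2 ^ k := by positivity
  have p2 : 2 ^ (k + 2) = 4 * 2 ^ k := by ring
  have e : 2 ^ (k + 2) = 2 ^ (k + 2) - 3 + 1 + 2 := by omega
  rw [zero_add, mul_one, mul_zero, show k + 1 + 1 = k + 2 by ring, e, V_eq, t_zero] at h1
  simp only [V, Prod.mk.injEq] at h1
  obtain ⟨h2, h3⟩ := h1
  rw [h, show 2 ^ (k + 2) - 3 + 2 = 2 ^ (k + 2) - 1 by omega, t_ones, h3] at h2
  linear_combination h2

theorem h_odd (n : ℕ) : h (2 * n + 3) = t (2 * n + 3) * h (2 * n) := by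
  have h1 := t_sq (n + 1)
  rw [h, h, show 2 * n + 1 + 2 = 2 * (n + 1) + 1 by ring, show 2 * n + 2 = 2 * (n + 1) by ring,
    t_odd, t_even]
  linear_combination (-h (2 * n + 1)) * h1

theorem dbl (k : ℕ) : h (2 * (2 ^ (k + 2) - 3)) = (-1) ^ k * h (2 ^ (k + 3) - 3) := by
  have h0 : 0 < 2 ^ k := by positivity
  have p1 : 2 ^ (k + 1) = 2 * 2 ^ k := by ring
  have p2 : 2 ^ (k + 2) = 4 * 2 ^ k := by ring
  have p3 : 2 ^ (k + 3) = 8 * 2 ^ k := by ring
  have h1 := h_odd (2 ^ (k + 2) - 3)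
  have h2 : t (2 * (2 ^ (k + 2) - 3) + 3) = (-1) ^ k := by
    rw [show 2 * (2 ^ (k + 2) - 3) + 3 = 2 * (2 * (2 ^ (k + 1) - 1)) + 1 by omega, t_odd, t_even,
      t_ones]
    ring
  rw [h2, show 2 * (2 ^ (k + 2) - 3) + 3 = 2 ^ (k + 3) - 3 by omega] at h1
  rw [h1, ← mul_assoc, ← mul_pow]
  simp

theorem Q1 (n : ℕ) : h (2 ^ (2 * n + 2) - 3) ∣ h (2 * (2 ^ (2 * n + 2) - 3)) := by
  have e1 : (-1 : ℤ) ^ (2 * n) = 1 := by rw [pow_mul]; simp
  obtain ⟨h1, -⟩ := M_prop (2 * n + 1)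
  rw [dbl, g_eq (2 * n), g_eq (2 * n + 1), M.eq_2 (2 * n + 1)]
  simp only [pow_succ, e1] at h1 ⊢
  rw [h1]
  exact ⟨(M (2 * n + 1)).1 - (M (2 * n + 1)).2.2.2, by ring⟩

theorem Q2 (n : ℕ) : h (2 ^ (2 * n + 3) - 3) ∣ h (2 * (2 ^ (2 * n + 3) - 3)) + 2 := by
  have e1 : (-1 : ℤ) ^ (2 * n) = 1 := by rw [pow_mul]; simp
  obtain ⟨h1, h2⟩ := M_prop (2 * n + 1 + 1)
  rw [dbl (2 * n + 1), g_eq (2 * n + 1), g_eq (2 * n + 1 + 1), M.eq_2 (2 * n + 1 + 1)]
  simp only [pow_succ, e1] at h1 ⊢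
  rw [h1] at h2 ⊢
  exact ⟨(M (2 * n + 1 + 1)).2.2.2 - (M (2 * n + 1 + 1)).1, by linear_combination (-2) * h2⟩

theorem t_small : ∀ i < 16, t i = ([1, -1, -1, 1, -1, 1, 1, -1, -1, 1, 1, -1, 1, -1, -1, 1] :
    List ℤ).getD i 0 := by decide +kernel

theorem step16 (m i : ℕ) (hi : i < 16) :
    h (16 * m + (i + 16)) = t (m + 1) * t i * h (16 * m + (i + 15)) + h (16 * m + (i + 14)) := by
  rw [← t_blk 4 (m + 1) i hi, show 16 * m + (i + 16) = 16 * m + (i + 14) + 2 by ring, h,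
    show 16 * m + (i + 14) + 2 = 2 ^ 4 * (m + 1) + i by ring,
    show 16 * m + (i + 14) + 1 = 16 * m + (i + 15) by ring]

def Cone (lo : ℤ) (m : ℕ) : Prop :=
  0 < |h (16 * m + 14)| ∧ lo * |h (16 * m + 14)| ≤ 1000 * |h (16 * m + 15)| ∧
    1000 * |h (16 * m + 15)| ≤ 304 * |h (16 * m + 14)|

theorem eqs (m : ℕ) : ∃ e : ℤ, (e = 1 ∨ e = -1) ∧ e = t (m + 1) ∧
    h (16 * m + 16) = e * h (16 * m + 15) + h (16 * m + 14) ∧
    h (16 * m + 17) = -e * h (16 * m + 16) + h (16 * m + 15) ∧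
    h (16 * m + 18) = -e * h (16 * m + 17) + h (16 * m + 16) ∧
    h (16 * m + 19) = e * h (16 * m + 18) + h (16 * m + 17) ∧
    h (16 * m + 20) = -e * h (16 * m + 19) + h (16 * m + 18) ∧
    h (16 * m + 21) = e * h (16 * m + 20) + h (16 * m + 19) ∧
    h (16 * m + 22) = e * h (16 * m + 21) + h (16 * m + 20) ∧
    h (16 * m + 23) = -e * h (16 * m + 22) + h (16 * m + 21) ∧
    h (16 * m + 24) = -e * h (16 * m + 23) + h (16 * m + 22) ∧
    h (16 * m + 25) = e * h (16 * m + 24) + h (16 * m + 23) ∧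
    h (16 * m + 26) = e * h (16 * m + 25) + h (16 * m + 24) ∧
    h (16 * m + 27) = -e * h (16 * m + 26) + h (16 * m + 25) ∧
    h (16 * m + 28) = e * h (16 * m + 27) + h (16 * m + 26) ∧
    h (16 * m + 29) = -e * h (16 * m + 28) + h (16 * m + 27) ∧
    h (16 * m + 30) = -e * h (16 * m + 29) + h (16 * m + 28) ∧
    h (16 * m + 31) = e * h (16 * m + 30) + h (16 * m + 29) := by
  refine ⟨t (m + 1), t_pm _, rfl, ?_, ?_, ?_, ?_, ?_, ?_, ?_, ?_, ?_, ?_, ?_, ?_, ?_, ?_, ?_, ?_⟩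
  · rw [step16 m 0 (by norm_num), t_small 0 (by norm_num)]; simp
  · rw [step16 m 1 (by norm_num), t_small 1 (by norm_num)]; simp
  · rw [step16 m 2 (by norm_num), t_small 2 (by norm_num)]; simp
  · rw [step16 m 3 (by norm_num), t_small 3 (by norm_num)]; simp
  · rw [step16 m 4 (by norm_num), t_small 4 (by norm_num)]; simp
  · rw [step16 m 5 (by norm_num), t_small 5 (by norm_num)]; simp
  · rw [step16 m 6 (by norm_num), t_small 6 (by norm_num)]; simp
  · rw [step16 m 7 (by norm_num), t_small 7 (by norm_num)]; simp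
  · rw [step16 m 8 (by norm_num), t_small 8 (by norm_num)]; simp
  · rw [step16 m 9 (by norm_num), t_small 9 (by norm_num)]; simp
  · rw [step16 m 10 (by norm_num), t_small 10 (by norm_num)]; simp
  · rw [step16 m 11 (by norm_num), t_small 11 (by norm_num)]; simp
  · rw [step16 m 12 (by norm_num), t_small 12 (by norm_num)]; simp
  · rw [step16 m 13 (by norm_num), t_small 13 (by norm_num)]; simp
  · rw [step16 m 14 (by norm_num), t_small 14 (by norm_num)]; simp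
  · rw [step16 m 15 (by norm_num), t_small 15 (by norm_num)]; simp

theorem next (m : ℕ) : h (16 * m + 31) = h (16 * m + 15) + 3 * t (m + 1) * h (16 * m + 14) ∧
    h (16 * m + 30) = 3 * t (m + 1) * h (16 * m + 15) + 10 * h (16 * m + 14) := by
  obtain ⟨e, he, ht, e0, e1, e2, e3, e4, e5, e6, e7, e8, e9, e10, e11, e12, e13, e14, e15⟩ := eqs m
  rw [← ht]
  rcases he with rfl | rfl <;> constructor <;> omega

theorem cone_step (m : ℕ) (hc : Cone 0 m) : Cone 296 (m + 1) := by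
  obtain ⟨h1, h2⟩ := next m
  obtain ⟨c1, -, c3⟩ := hc
  rw [Cone, show 16 * (m + 1) + 14 = 16 * m + 30 by ring,
    show 16 * (m + 1) + 15 = 16 * m + 31 by ring, h1, h2]
  generalize h (16 * m + 14) = q at *
  generalize h (16 * m + 15) = p at *
  rcases t_pm (m + 1) with e | e <;> rw [e] <;> simp only [Int.abs_eq_natAbs] at * <;> omega

theorem cone0 (m : ℕ) : Cone 0 m := by
  induction m with
  | zero => unfold Cone; decide +kernel
  | succ m ih =>
    obtain ⟨c1, -, c3⟩ := cone_step m ih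
    exact ⟨c1, by rw [zero_mul]; positivity, c3⟩

theorem ratio (n : ℕ) (hn : 32 ≤ n) : 0 < |h n| ∧ 29 * |h (n - 1)| ≤ 100 * |h n| ∧
    |h n| ≤ 5 * |h (n - 1)| := by
  obtain ⟨m, i, hi, rfl⟩ : ∃ m i, i < 16 ∧ n = 16 * (m + 1) + (i + 16) :=
    ⟨n / 16 - 2, n % 16, by omega, by omega⟩
  obtain ⟨c1, c2, c3⟩ := cone_step m (cone0 m)
  obtain ⟨e, he, -, e0, e1, e2, e3, e4, e5, e6, e7, e8, e9, e10, e11, e12, e13, e14, e15⟩ := eqs (m + 1)
  rw [show 16 * (m + 1) + (i + 16) - 1 = 16 * (m + 1) + (i + 15) by omega]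
  generalize m + 1 = k at *
  simp only [Int.abs_eq_natAbs] at *
  rcases he with rfl | rfl <;> interval_cases i <;> simp only [Nat.reduceAdd] <;> omega

theorem ratio_small : ∀ n < 32, 4 ≤ n → 0 < |h n| ∧ 2 * |h (n - 1)| ≤ 7 * |h n| ∧
    (5 ≤ n → |h n| ≤ 5 * |h (n - 1)|) := by decide +kernel

theorem Q27 (n : ℕ) (hn : 4 ≤ n) : 2 * |h (n - 1)| ≤ 7 * |h n| := by
  rcases Nat.lt_or_ge n 32 with h1 | h1
  · exact (ratio_small n h1 hn).2.1
  · have := (ratio n h1).2.1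
    have := abs_nonneg (h (n - 1))
    omega

end Pool.Agent.H17.TMFib
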