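import Mathlib
import Pool.Agent.H17.TMFib

set_option autoImplicit false

namespace Pool.Agent.H17.TMGrowth

open Filter Topology Pool.Agent.H17.TMFib

theorem approx (G : ℕ → ℝ) (B C S : ℝ) (L : ℕ) (hL : 0 < L) (hB : ∀ n, |G (n + 1) - G n| ≤ B)
    (hS : ∀ r, 1 ≤ r → |G (L * (r + 1)) - G (L * r) - S| ≤ C) (n : ℕ) (hn : L ≤ n) :
    |G n - n * (S / L)| ≤ n * (C / L) + (|G L| + 2 * |S| + L * B) := by
  have hC : 0 ≤ C := (abs_nonneg _).trans (hS 1 le_rfl)
  have hB0 : 0 ≤ B := (abs_nonneg _).trans (hB 0)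
  have hL' : (0 : ℝ) < L := by exact_mod_cast hL
  have a1 : ∀ r : ℕ, |G (L * (r + 1)) - G L - r * S| ≤ r * C := by
    intro r
    induction r with
    | zero => simp
    | succ r ih =>
      have := abs_le.1 (hS (r + 1) (by omega))
      have := abs_le.1 ih
      push_cast
      rw [abs_le]
      constructor <;> linarith
  have a2 : ∀ m i : ℕ, |G (m + i) - G m| ≤ i * B := by
    intro m i
    induction i with
    | zero => simp
    | succ i ih =>
      have := abs_le.1 (hB (m + i))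
      have := abs_le.1 ih
      push_cast
      rw [abs_le, ← add_assoc]
      constructor <;> linarith
  obtain ⟨r, i, hi, rfl⟩ : ∃ r i, i < L ∧ n = L * (r + 1) + i := by
    have h1 : 1 ≤ n / L := (Nat.le_div_iff_mul_le hL).2 (by omega)
    refine ⟨n / L - 1, n % L, Nat.mod_lt _ hL, ?_⟩
    rw [Nat.sub_add_cancel h1, Nat.div_add_mod]
  have b1 := abs_le.1 (a1 r)
  have b2 := abs_le.1 (a2 (L * (r + 1)) i)
  have hi' : (i : ℝ) ≤ L := by exact_mod_cast hi.le
  have b3 : (i : ℝ) * B ≤ L * B := by gcongr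
  have b4 : |(i : ℝ) * (S / L)| ≤ |S| := by
    rw [abs_mul, abs_div, abs_of_nonneg (Nat.cast_nonneg i), abs_of_pos hL', ← mul_div_assoc,
      div_le_iff₀ hL', mul_comm]
    gcongr
  have b5 := abs_le.1 b4
  have b6 : 0 ≤ (i : ℝ) * (C / L) := by positivity
  have e1 : ((L * (r + 1) + i : ℕ) : ℝ) * (S / L) = (r + 1) * S + i * (S / L) := by
    push_cast; field_simp
  have e2 : ((L * (r + 1) + i : ℕ) : ℝ) * (C / L) = (r + 1) * C + i * (C / L) := by
    push_cast; field_simp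
  have := le_abs_self S
  have := neg_abs_le S
  have := le_abs_self (G L)
  have := neg_abs_le (G L)
  rw [e1, e2, abs_le]
  constructor <;> linarith

theorem approx' (G : ℕ → ℝ) (B C S : ℝ) (L : ℕ) (hL : 0 < L) (hB : ∀ n, |G (n + 1) - G n| ≤ B)
    (hS : ∀ r, 1 ≤ r → |G (L * (r + 1)) - G (L * r) - S| ≤ C) (ε : ℝ) (hε : 0 < ε) :
    ∀ᶠ n : ℕ in atTop, |G n / n - S / L| ≤ C / L + ε := by
  have h1 := (tendsto_const_div_atTop_nhds_zero_nat (|G L| + 2 * |S| + L * B)).eventually_le_const hε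
  filter_upwards [h1, eventually_ge_atTop L] with n h2 h3
  have hn : (0 : ℝ) < n := by exact_mod_cast lt_of_lt_of_le hL h3
  have h4 := approx G B C S L hL hB hS n h3
  rw [show G n / n - S / L = (G n - n * (S / L)) / n by field_simp, abs_div, abs_of_pos hn,
    div_le_iff₀ hn]
  rw [div_le_iff₀ hn] at h2
  linarith

noncomputable def x (m : ℕ) : ℝ := (h (16 * m + 15) : ℝ) / h (16 * m + 14)

theorem q_ne (m : ℕ) : (h (16 * m + 14) : ℝ) ≠ 0 := by
  exact_mod_cast abs_pos.1 (cone0 m).1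

theorem x_bd (m : ℕ) : |x m| ≤ 0.304 := by
  have h1 : (1000 : ℝ) * |(h (16 * m + 15) : ℝ)| ≤ 304 * |(h (16 * m + 14) : ℝ)| := by
    exact_mod_cast (cone0 m).2.2
  rw [x, abs_div, div_le_iff₀ (abs_pos.2 (q_ne m))]
  linarith

theorem q_succ (m : ℕ) :
    (h (16 * (m + 1) + 14) : ℝ) = (10 + 3 * t (m + 1) * x m) * h (16 * m + 14) := by
  have := q_ne m
  rw [show 16 * (m + 1) + 14 = 16 * m + 30 by ring, (next m).2, x]
  push_cast
  field_simp
  ring

theorem tR (n : ℕ) : (t n : ℝ) = 1 ∨ (t n : ℝ) = -1 := by exact_mod_cast t_pm n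

theorem den_bd (m : ℕ) : 9 ≤ 10 + 3 * t (m + 1) * x m := by
  have := abs_le.1 (x_bd m)
  rcases tR (m + 1) with e | e <;> rw [e] <;> linarith

theorem x_succ (m : ℕ) : x (m + 1) = (x m + 3 * t (m + 1)) / (10 + 3 * t (m + 1) * x m) := by
  have h0 := q_ne m
  have h1 := den_bd m
  have h2 : (h (16 * m + 15) : ℝ) = x m * h (16 * m + 14) := by rw [x]; field_simp
  rw [x, q_succ, show 16 * (m + 1) + 15 = 16 * m + 31 by ring, (next m).1]
  push_cast
  rw [h2]
  field_simp

noncomputable def G (n : ℕ) : ℝ := Real.log |(h (n - 2) : ℝ)|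

theorem G_succ (m : ℕ) :
    G (16 * (m + 2)) = G (16 * (m + 1)) + Real.log (10 + 3 * t (m + 1) * x m) := by
  have h1 := den_bd m
  rw [G, G, show 16 * (m + 2) - 2 = 16 * (m + 1) + 14 by omega,
    show 16 * (m + 1) - 2 = 16 * m + 14 by omega, q_succ, abs_mul,
    Real.log_mul (by positivity) (abs_pos.2 (q_ne m)).ne', abs_of_pos (by linarith), add_comm]

theorem log_lip {a b : ℝ} (ha : 9 ≤ a) (hb : 9 ≤ b) : Real.log a - Real.log b ≤ |a - b| / 9 := by
  rw [← Real.log_div (by linarith) (by linarith)]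
  refine (Real.log_le_sub_one_of_pos (by positivity)).trans ?_
  rw [div_sub_one (by linarith)]
  exact (div_le_div_of_nonneg_right (le_abs_self _) (by linarith)).trans (by gcongr)

theorem couple (m m' N : ℕ) (s : ℝ) (hs : s = 1 ∨ s = -1)
    (ht : ∀ i < N, (t (m + i + 1) : ℝ) = s * t (m' + i + 1)) : ∀ i ≤ N,
    |G (16 * (m + i + 1)) - G (16 * (m + 1)) - (G (16 * (m' + i + 1)) - G (16 * (m' + 1)))| +
      |x (m + i) - s * x (m' + i)| * 0.35 ≤ 0.25 := by
  intro i
  induction i with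
  | zero =>
    intro _
    have h1 := abs_le.1 (x_bd m)
    have h2 := abs_le.1 (x_bd m')
    have : |x m - s * x m'| ≤ 0.608 := by
      rcases hs with rfl | rfl <;> rw [abs_le] <;> constructor <;> linarith
    simp only [add_zero, sub_self, abs_zero, zero_add]
    linarith
  | succ i ih =>
    intro hi
    have ih := ih (by omega)
    have h1 := ht i (by omega)
    have d1 := den_bd (m + i)
    have d2 := den_bd (m' + i)
    rw [← add_assoc, ← add_assoc, show m + i + 1 + 1 = m + i + 2 by ring,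
      show m' + i + 1 + 1 = m' + i + 2 by ring, G_succ, G_succ, x_succ, x_succ]
    generalize x (m + i) = a at *
    generalize x (m' + i) = b at *
    have hs2 : s * s = 1 := by rcases hs with rfl | rfl <;> norm_num
    have he := tR (m' + i + 1)
    rw [h1] at d1 ⊢
    generalize (t (m' + i + 1) : ℝ) = e at *
    have he2 : e * e = 1 := by rcases he with rfl | rfl <;> norm_num
    have k1 : |10 + 3 * (s * e) * a - (10 + 3 * e * b)| = 3 * |a - s * b| := by
      have e3 : 10 + 3 * (s * e) * a - (10 + 3 * e * b) = 3 * (s * e) * (a - s * b) := by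
        linear_combination (3 * e * b) * hs2
      have e4 : |s * e| = 1 := by
        rcases hs with rfl | rfl <;> rcases he with rfl | rfl <;> simp
      rw [e3, abs_mul, abs_mul, e4]
      norm_num
    have k2 := log_lip d1 d2
    have k3 := log_lip d2 d1
    rw [abs_sub_comm] at k3
    rw [k1] at k2 k3
    have k4 : |(a + 3 * (s * e)) / (10 + 3 * (s * e) * a) - s * ((b + 3 * e) / (10 + 3 * e * b))| ≤
        |a - s * b| / 81 := by
      have : (a + 3 * (s * e)) / (10 + 3 * (s * e) * a) - s * ((b + 3 * e) / (10 + 3 * e * b)) =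
          (a - s * b) / ((10 + 3 * (s * e) * a) * (10 + 3 * e * b)) := by
        have n1 : 10 + 3 * (s * e) * a ≠ 0 := by linarith
        have n2 : 10 + 3 * e * b ≠ 0 := by linarith
        rw [← mul_div_assoc, div_sub_div _ _ n1 n2]
        congr 1
        rcases hs with rfl | rfl <;> rcases he with rfl | rfl <;> ring
      rw [this, abs_div, abs_of_pos (a := _ * _) (by positivity)]
      gcongr
      nlinarith
    have k5 := abs_nonneg (a - s * b)
    have k6 : ∀ u v : ℝ, |v| ≤ |a - s * b| / 3 → |u + v| ≤ |u| + |a - s * b| / 3 :=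
      fun u v hv => (abs_add_le u v).trans (by linarith)
    have k7 := k6 (G (16 * (m + i + 1)) - G (16 * (m + 1)) -
      (G (16 * (m' + i + 1)) - G (16 * (m' + 1))))
      (Real.log (10 + 3 * (s * e) * a) - Real.log (10 + 3 * e * b))
      (abs_le.2 ⟨by linarith, by linarith⟩)
    rw [show G (16 * (m + i + 1)) + Real.log (10 + 3 * (s * e) * a) - G (16 * (m + 1)) -
      (G (16 * (m' + i + 1)) + Real.log (10 + 3 * e * b) - G (16 * (m' + 1))) =
      G (16 * (m + i + 1)) - G (16 * (m + 1)) - (G (16 * (m' + i + 1)) - G (16 * (m' + 1))) +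
      (Real.log (10 + 3 * (s * e) * a) - Real.log (10 + 3 * e * b)) by ring]
    linarith

theorem blocks (j r : ℕ) (hr : 1 ≤ r) :
    |G (16 * 2 ^ j * (r + 1)) - G (16 * 2 ^ j * r) -
      (G (16 * 2 ^ j * 2) - G (16 * 2 ^ j))| ≤ 0.25 := by
  have h0 : 0 < 2 ^ j := by positivity
  have h1 : 0 < 2 ^ j * r := by positivity
  have := couple (2 ^ j * r - 1) (2 ^ j - 1) (2 ^ j) (-(t r : ℝ))
    (by rcases tR r with e | e <;> rw [e] <;> simp) (by
      intro i hi
      have e1 : t 1 = -1 := by decide +kernel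
      have e2 := t_blk j 1 i hi
      rw [mul_one, e1] at e2
      rw [show 2 ^ j * r - 1 + i + 1 = 2 ^ j * r + i by omega,
        show 2 ^ j - 1 + i + 1 = 2 ^ j + i by omega, t_blk j r i hi, e2]
      push_cast
      ring) (2 ^ j) le_rfl
  rw [show 16 * (2 ^ j * r - 1 + 2 ^ j + 1) = 16 * (2 ^ j * r + 2 ^ j) by omega,
    show 16 * (2 ^ j * r - 1 + 1) = 16 * (2 ^ j * r) by omega,
    show 16 * (2 ^ j - 1 + 2 ^ j + 1) = 16 * 2 ^ j * 2 by omega,
    show 16 * (2 ^ j - 1 + 1) = 16 * 2 ^ j by omega] at this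
  rw [show 16 * 2 ^ j * (r + 1) = 16 * (2 ^ j * r + 2 ^ j) by ring, mul_assoc 16 (2 ^ j) r]
  have := abs_nonneg (x (2 ^ j * r - 1 + 2 ^ j) - -(t r : ℝ) * x (2 ^ j - 1 + 2 ^ j))
  linarith

theorem h_pos (n : ℕ) (hn : 4 ≤ n) : 0 < |h n| := by
  rcases Nat.lt_or_ge n 32 with h1 | h1
  · exact (ratio_small n h1 hn).1
  · exact (ratio n h1).1

theorem G_step (n : ℕ) : |G (n + 1) - G n| ≤ 4 := by
  rcases Nat.lt_or_ge n 6 with h1 | h1
  · have e0 : h 0 = 0 := rfl
    have e1 : h 1 = 1 := rfl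
    have e2 : h 2 = -1 := by decide +kernel
    have e3 : h 3 = 0 := by decide +kernel
    have e4 : h 4 = -1 := by decide +kernel
    interval_cases n <;> simp [G, e0, e1, e2, e3, e4]
  · have p1 : (0 : ℝ) < |(h (n - 2) : ℝ)| := by exact_mod_cast h_pos (n - 2) (by omega)
    have p2 : (0 : ℝ) < |(h (n - 1) : ℝ)| := by exact_mod_cast h_pos (n - 1) (by omega)
    have r1 : (2 : ℝ) * |(h (n - 2) : ℝ)| ≤ 7 * |(h (n - 1) : ℝ)| := by
      exact_mod_cast Q27 (n - 1) (by omega)
    have r2 : |(h (n - 1) : ℝ)| ≤ 5 * |(h (n - 2) : ℝ)| := by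
      rcases Nat.lt_or_ge (n - 1) 32 with h2 | h2
      · exact_mod_cast (ratio_small (n - 1) h2 (by omega)).2.2 (by omega)
      · exact_mod_cast (ratio (n - 1) h2).2.2
    rw [G, G, show n + 1 - 2 = n - 1 by omega, abs_le]
    constructor
    · have := Real.log_le_sub_one_of_pos (div_pos p1 p2)
      rw [Real.log_div p1.ne' p2.ne'] at this
      have h3 : |(h (n - 2) : ℝ)| / |(h (n - 1) : ℝ)| ≤ 5 := by rw [div_le_iff₀ p2]; linarith
      linarith
    · have := Real.log_le_sub_one_of_pos (div_pos p2 p1)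
      rw [Real.log_div p2.ne' p1.ne'] at this
      have h3 : |(h (n - 1) : ℝ)| / |(h (n - 2) : ℝ)| ≤ 5 := by rw [div_le_iff₀ p1]; linarith
      linarith

theorem h_fast (n : ℕ) : h n = (V (n + 2)).2 := by rw [V_eq]

theorem numer : 0 < |h 510| ∧ 13 * 1151 ^ 512 * |h 510| ≤ 10 * 1000 ^ 512 * |h 1022| ∧
    13 * 1000 ^ 512 * |h 1022| ≤ 10 * 1154 ^ 512 * |h 510| := by
  have h1 := blk 8 0
  have h2 := blk 9 0
  have e1 : h 510 = (M 8).2.2.1 - (M 8).2.2.2 := by
    rw [h_fast, show 510 + 2 = 2 ^ (8 + 1) * (0 + 1) by norm_num, h1, t_zero]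
    simp only [mul_zero, V]
    ring
  have e2 : h 1022 = (M 9).2.2.1 - (M 9).2.2.2 := by
    rw [h_fast, show 1022 + 2 = 2 ^ (9 + 1) * (0 + 1) by norm_num, h2, t_zero]
    simp only [mul_zero, V]
    ring
  rw [e1, e2]
  decide +kernel

theorem G_lim : ∃ c : ℝ, Real.log 1.151 ≤ c ∧ c ≤ Real.log 1.154 ∧
    Tendsto (fun n : ℕ => G n / n) atTop (𝓝 c) := by
  have A := fun (j : ℕ) => approx' G 4 0.25 (G (16 * 2 ^ j * 2) - G (16 * 2 ^ j)) (16 * 2 ^ j)
    (by positivity) G_step (blocks j)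
  have hc : CauchySeq fun n : ℕ => G n / n := by
    rw [Metric.cauchySeq_iff]
    intro ε hε
    obtain ⟨j, hj⟩ := pow_unbounded_of_one_lt (1 / ε) (show (1 : ℝ) < 2 by norm_num)
    obtain ⟨N, hN⟩ := eventually_atTop.1 (A j (ε / 4) (by positivity))
    have h1 : (0.25 : ℝ) / ((16 * 2 ^ j : ℕ) : ℝ) < ε / 4 := by
      push_cast
      rw [div_lt_iff₀ hε] at hj
      rw [div_lt_iff₀ (by positivity)]
      nlinarith
    refine ⟨N, fun a ha b hb => ?_⟩
    have h2 := abs_le.1 (hN a ha)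
    have h3 := abs_le.1 (hN b hb)
    rw [Real.dist_eq, abs_lt]
    constructor <;> linarith
  obtain ⟨c, hc⟩ := cauchySeq_tendsto_of_complete hc
  have hb : |c - (G 1024 - G 512) / 512| ≤ 0.25 / 512 := by
    refine le_of_forall_pos_le_add fun ε hε => ?_
    have h1 := A 5 ε hε
    norm_num at h1 ⊢
    exact le_of_tendsto ((hc.sub_const _).abs) (eventually_atTop.2 h1)
  obtain ⟨n0, n1, n2⟩ := numer
  have m0 : (0 : ℝ) < |(h 510 : ℝ)| := by exact_mod_cast n0
  have m1 : (13 : ℝ) * 1151 ^ 512 * |(h 510 : ℝ)| ≤ 10 * 1000 ^ 512 * |(h 1022 : ℝ)| := by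
    have := (Int.cast_le (R := ℝ)).2 n1
    simpa only [Int.cast_mul, Int.cast_pow, Int.cast_abs, Int.cast_ofNat] using this
  have m2 : (13 : ℝ) * 1000 ^ 512 * |(h 1022 : ℝ)| ≤ 10 * 1154 ^ 512 * |(h 510 : ℝ)| := by
    have := (Int.cast_le (R := ℝ)).2 n2
    simpa only [Int.cast_mul, Int.cast_pow, Int.cast_abs, Int.cast_ofNat] using this
  have m3 : (0 : ℝ) < |(h 1022 : ℝ)| := by exact_mod_cast h_pos 1022 (by norm_num)
  have l13 : 0.25 ≤ Real.log 13 - Real.log 10 := by
    rw [← Real.log_div (by norm_num) (by norm_num), Real.le_log_iff_exp_le (by norm_num)]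
    have h3 := Real.exp_bound (x := 0.25) (by norm_num [abs_of_pos]) (n := 3) (by norm_num)
    norm_num [Finset.sum_range_succ, Nat.factorial, abs_le] at h3 ⊢
    linarith
  have l1 := Real.log_le_log (mul_pos (mul_pos (by norm_num) (pow_pos (by norm_num) _)) m0) m1
  have l2 := Real.log_le_log (mul_pos (mul_pos (by norm_num) (pow_pos (by norm_num) _)) m3) m2
  have lm : ∀ a b c : ℝ, 0 < a → 0 < b → 0 < c →
      Real.log (a * b ^ 512 * c) = Real.log a + (512 : ℕ) * Real.log b + Real.log c := by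
    intro a b c ha hb hc
    rw [Real.log_mul (mul_pos ha (pow_pos hb _)).ne' hc.ne', Real.log_mul ha.ne' (pow_pos hb _).ne',
      Real.log_pow]
  rw [lm _ _ _ (by norm_num) (by norm_num) m0, lm _ _ _ (by norm_num) (by norm_num) m3] at l1 l2
  have g1 : G 1024 = Real.log |(h 1022 : ℝ)| := by rw [G]
  have g2 : G 512 = Real.log |(h 510 : ℝ)| := by rw [G]
  rw [g1, g2, abs_le] at hb
  push_cast at l1 l2
  refine ⟨c, ?_, ?_, hc⟩
  · rw [show (1.151 : ℝ) = 1151 / 1000 by norm_num, Real.log_div (by norm_num) (by norm_num)]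
    linarith
  · rw [show (1.154 : ℝ) = 1154 / 1000 by norm_num, Real.log_div (by norm_num) (by norm_num)]
    linarith

theorem growth : ∃ g : ℝ, 1.151 ≤ g ∧ g ≤ 1.154 ∧
    Tendsto (fun n : ℕ => |(h n : ℝ)| ^ (1 / (n : ℝ))) atTop (𝓝 g) := by
  obtain ⟨c, h1, h2, hc⟩ := G_lim
  refine ⟨Real.exp c, (Real.log_le_iff_le_exp (by norm_num)).1 h1,
    (Real.le_log_iff_exp_le (by norm_num)).1 h2, ?_⟩
  have a1 := (tendsto_add_atTop_iff_nat 2).2 hc
  have a2 : Tendsto (fun n : ℕ => 1 + 2 / (n : ℝ)) atTop (𝓝 (1 + 0)) :=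
    (tendsto_const_div_atTop_nhds_zero_nat 2).const_add 1
  have a3 := (Real.continuous_exp.tendsto _).comp (a1.mul a2)
  rw [add_zero, mul_one] at a3
  refine a3.congr' ?_
  filter_upwards [eventually_ge_atTop 4] with n hn
  have p : (0 : ℝ) < |(h n : ℝ)| := by exact_mod_cast h_pos n hn
  have hn' : (0 : ℝ) < n := by exact_mod_cast (by omega : 0 < n)
  rw [Function.comp, Real.rpow_def_of_pos p, G, Nat.add_sub_cancel]
  congr 1
  push_cast
  field_simp

end Pool.Agent.H17.TMGrowth
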