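import Mathlib

set_option autoImplicit false

namespace Pool.Agent.H17.Tern
open Polynomial

noncomputable def ph : ℕ → ℤ[X]
  | 0 => 1 + X
  | j + 1 => (X ^ 3 ^ j) ^ 2 - X ^ 3 ^ j + 1

theorem ph_prod : ∀ k, ∏ j ∈ Finset.range (k + 1), ph j = 1 + X ^ 3 ^ k
  | 0 => by simp [ph]
  | k + 1 => by
      rw [Finset.prod_range_succ, ph_prod k, ph, pow_succ 3 k, pow_mul]; ring

theorem one_add_monic (i : ℕ) (hi : i ≠ 0) : (1 + X ^ i : ℤ[X]).Monic := by
  rw [add_comm]; exact monic_X_pow_add_C 1 hi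

theorem ph_monic : ∀ j, (ph j).Monic
  | 0 => by simpa [ph] using one_add_monic 1 (by norm_num)
  | j + 1 => by
      have h := one_add_monic (3 ^ (j + 1)) (by positivity)
      rw [← ph_prod, Finset.prod_range_succ, ph_prod] at h
      exact (one_add_monic (3 ^ j) (by positivity)).of_mul_monic_left h

theorem ph_eval (j : ℕ) : eval (-1) (ph (j + 1)) = 3 := by
  have : Odd (3 ^ j) := Odd.pow (by decide)
  simp [ph, this.neg_one_pow]

theorem ph_cop (i j : ℕ) (h : i < j) :
    IsCoprime ((ph i).map (Int.castRingHom ℚ)) ((ph j).map (Int.castRingHom ℚ)) := by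
  obtain ⟨j, rfl⟩ : ∃ k, j = k + 1 := ⟨j - 1, by omega⟩
  have h1 : ph i ∣ 1 + X ^ 3 ^ j := by
    rw [← ph_prod]; exact Finset.dvd_prod_of_mem _ (Finset.mem_range.2 h)
  refine IsCoprime.of_isCoprime_of_dvd_left ?_ (Polynomial.map_dvd _ h1)
  refine ⟨-C (1 / 3) * (X ^ 3 ^ j - 2), C (1 / 3), ?_⟩
  have h3 : (C (1 / 3) : ℚ[X]) * 3 = 1 := by
    rw [← map_ofNat C 3, ← map_mul]; norm_num
  simp only [ph, Polynomial.map_add, Polynomial.map_sub, Polynomial.map_pow, map_X,
    Polynomial.map_one]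
  linear_combination h3

theorem prod_dvd (n : ℕ) (e : ℕ → ℕ) (M : ℤ[X]) (h : ∀ j ∈ Finset.range (n + 1), ph j ^ e j ∣ M) :
    ∏ j ∈ Finset.range (n + 1), ph j ^ e j ∣ M := by
  rw [← Polynomial.map_dvd_map (Int.castRingHom ℚ) (RingHom.injective_int _)
    (monic_prod_of_monic _ _ fun j _ => (ph_monic j).pow _), Polynomial.map_prod]
  refine Finset.prod_dvd_of_coprime ?_ fun j hj => Polynomial.map_dvd _ (h j hj)
  intro i _ j _ hij
  simp only [Function.onFun, Polynomial.map_pow]
  rcases lt_or_gt_of_ne hij with h1 | h1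
  · exact (ph_cop i j h1).pow
  · exact (ph_cop j i h1).symm.pow

def cnt (s : Multiset ℕ) (j : ℕ) : ℕ := (s.filter (fun i => 3 ^ j ≤ i)).card

theorem sp_eq (n : ℕ) (s : Multiset ℕ) (hs : ∀ i ∈ s, i ≤ n ∧ ∃ k, i = 3 ^ k) :
    (s.map (fun i => (1 + X ^ i : ℤ[X]))).prod = ∏ j ∈ Finset.range (n + 1), ph j ^ cnt s j := by
  induction s using Multiset.induction_on with
  | empty => simp [cnt]
  | cons a s ih =>
    obtain ⟨h1, k, rfl⟩ := hs a (Multiset.mem_cons_self _ _)
    have hk : k < 3 ^ k := Nat.lt_pow_self (by norm_num)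
    rw [Multiset.map_cons, Multiset.prod_cons, ih fun i hi => hs i (Multiset.mem_cons_of_mem hi),
      ← ph_prod]
    have e : ∏ j ∈ Finset.range (k + 1), ph j =
        ∏ j ∈ Finset.range (n + 1), ph j ^ (if j ≤ k then 1 else 0) := by
      rw [← Finset.prod_subset (Finset.range_subset_range.2 (by omega : k + 1 ≤ n + 1))]
      · exact Finset.prod_congr rfl fun j hj => by
          rw [if_pos (by simpa [Nat.lt_succ_iff] using hj), pow_one]
      · intro j _ hj
        rw [if_neg (by simpa [Nat.lt_succ_iff] using hj), pow_zero]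
    rw [e, ← Finset.prod_mul_distrib]
    refine Finset.prod_congr rfl fun j _ => ?_
    rw [← pow_add]
    congr 1
    simp only [cnt, Multiset.filter_cons, Multiset.card_add,
      Nat.pow_le_pow_iff_right (by norm_num : 1 < 3)]
    split_ifs <;> simp

theorem cnt_le (s : Multiset ℕ) (j : ℕ) : cnt s j ≤ s.sum / 3 ^ j := by
  rw [Nat.le_div_iff_mul_le (by positivity)]
  induction s using Multiset.induction_on with
  | empty => simp [cnt]
  | cons a s ih =>
    simp only [cnt, Multiset.filter_cons, Multiset.card_add, Multiset.sum_cons] at ih ⊢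
    split_ifs with h
    · simp only [Multiset.card_singleton]; nlinarith
    · simp only [Multiset.card_zero]; nlinarith

open Classical in
noncomputable def T (n : ℕ) : Finset n.Partition :=
  Finset.univ.filter (fun l : n.Partition => ∀ i ∈ l.parts, ∃ k : ℕ, i = 3 ^ k)

theorem mem_T {n : ℕ} {l : n.Partition} : l ∈ T n ↔ ∀ i ∈ l.parts, ∃ k : ℕ, i = 3 ^ k := by
  simp [T]

noncomputable def h {n : ℕ} (l : n.Partition) : ℤ[X] :=
  ∏ i ∈ Finset.Icc 1 n, (1 + X ^ i) ^ (n / i - l.parts.count i)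

noncomputable def P (n : ℕ) : ℤ[X] := ∏ i ∈ Finset.Icc 1 n, (1 + X ^ i) ^ (n / i)

noncomputable def sp {n : ℕ} (l : n.Partition) : ℤ[X] := (l.parts.map (fun i => 1 + X ^ i)).prod

theorem h_sp {n : ℕ} (l : n.Partition) : h l * sp l = P n := by
  have e : sp l = ∏ i ∈ Finset.Icc 1 n, (1 + X ^ i) ^ l.parts.count i := by
    rw [sp, Finset.prod_multiset_map_count]
    refine Finset.prod_subset (fun i hi => ?_) fun i _ hi => ?_
    · have := Multiset.mem_toFinset.1 hi
      exact Finset.mem_Icc.2 ⟨l.parts_pos this, Nat.Partition.le_of_mem_parts this⟩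
    · rw [Multiset.count_eq_zero_of_notMem (by simpa using hi), pow_zero]
  rw [e, h, P, ← Finset.prod_mul_distrib]
  refine Finset.prod_congr rfl fun i hi => ?_
  rw [← pow_add, Nat.sub_add_cancel]
  rw [Nat.le_div_iff_mul_le (Finset.mem_Icc.1 hi).1]
  obtain ⟨t, ht⟩ := Multiset.le_iff_exists_add.1
    (Multiset.le_count_iff_replicate_le.1 (le_refl (l.parts.count i)))
  have h2 := congrArg Multiset.sum ht
  rw [l.parts_sum, Multiset.sum_add, Multiset.sum_replicate, smul_eq_mul] at h2
  omega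

noncomputable def L (n : ℕ) : ℤ[X] := ∏ j ∈ Finset.range (n + 1), ph j ^ (n / 3 ^ j)

noncomputable def c {n : ℕ} (l : n.Partition) : ℤ[X] :=
  ∏ j ∈ Finset.range (n + 1), ph j ^ (n / 3 ^ j - cnt l.parts j)

theorem sp_T {n : ℕ} {l : n.Partition} (hl : l ∈ T n) :
    sp l = ∏ j ∈ Finset.range (n + 1), ph j ^ cnt l.parts j :=
  sp_eq n _ fun i hi => ⟨Nat.Partition.le_of_mem_parts hi, mem_T.1 hl i hi⟩

theorem c_sp {n : ℕ} {l : n.Partition} (hl : l ∈ T n) : c l * sp l = L n := by
  rw [sp_T hl, c, L, ← Finset.prod_mul_distrib]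
  refine Finset.prod_congr rfl fun j _ => ?_
  have := cnt_le l.parts j
  rw [l.parts_sum] at this
  rw [← pow_add, Nat.sub_add_cancel this]

def lam (n j : ℕ) : n.Partition where
  parts := Multiset.replicate (n / 3 ^ j) (3 ^ j) + Multiset.replicate (n % 3 ^ j) 1
  parts_pos := by
    intro i hi
    rcases Multiset.mem_add.1 hi with h | h <;> rw [Multiset.eq_of_mem_replicate h] <;> positivity
  parts_sum := by simp [Nat.div_add_mod']

theorem lam_T (n j : ℕ) : lam n j ∈ T n := by
  rw [mem_T]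
  intro i hi
  rcases Multiset.mem_add.1 hi with h | h
  · exact ⟨j, Multiset.eq_of_mem_replicate h⟩
  · exact ⟨0, Multiset.eq_of_mem_replicate h⟩

theorem L_dvd {n : ℕ} (M : ℤ[X]) (hM : ∀ l ∈ T n, sp l ∣ M) : L n ∣ M := by
  refine prod_dvd n _ M fun j hj => Dvd.dvd.trans ?_ (hM _ (lam_T n j))
  rw [sp_T (lam_T n j)]
  refine Dvd.dvd.trans (pow_dvd_pow _ ?_) (Finset.dvd_prod_of_mem _ hj)
  simp only [cnt, lam, Multiset.filter_add, Multiset.card_add]
  rw [Multiset.filter_eq_self.2 fun a ha => by rw [Multiset.eq_of_mem_replicate ha]]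
  simp

theorem sp_monic {n : ℕ} {l : n.Partition} (hl : l ∈ T n) : (sp l).Monic := by
  rw [sp_T hl]; exact monic_prod_of_monic _ _ fun j _ => (ph_monic j).pow _

theorem L_monic (n : ℕ) : (L n).Monic := monic_prod_of_monic _ _ fun j _ => (ph_monic j).pow _

theorem P_monic (n : ℕ) : (P n).Monic := monic_prod_of_monic _ _ fun i hi =>
  (one_add_monic i (by have := (Finset.mem_Icc.1 hi).1; omega)).pow _

theorem num_eq (n : ℕ) : (∑ l ∈ T n, h l) /ₘ (T n).gcd h = ∑ l ∈ T n, c l := by
  obtain ⟨G, hG⟩ : L n ∣ P n := L_dvd _ fun l _ => ⟨h l, by rw [← h_sp l, mul_comm]⟩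
  have hGm : G.Monic := (L_monic n).of_mul_monic_left (hG ▸ P_monic n)
  have hh : ∀ l ∈ T n, h l = G * c l := fun l hl => by
    refine mul_right_cancel₀ (sp_monic hl).ne_zero ?_
    rw [h_sp, mul_assoc, c_sp hl, hG, mul_comm]
  have e : (T n).gcd h = G := by
    rw [← Finset.normalize_gcd, ← hGm.normalize_eq_self]
    refine normalize_eq_normalize ?_ (Finset.dvd_gcd fun l hl => ⟨_, hh l hl⟩)
    obtain ⟨M, hM⟩ : (T n).gcd h ∣ P n :=
      (Finset.gcd_dvd (lam_T n 0)).trans ⟨_, (h_sp _).symm⟩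
    have h0 : (T n).gcd h ≠ 0 := fun h0 => (P_monic n).ne_zero (by rw [hM, h0, zero_mul])
    obtain ⟨f, hf⟩ := L_dvd M fun l hl => by
      obtain ⟨e, he⟩ := Finset.gcd_dvd (f := h) hl
      refine ⟨e, mul_left_cancel₀ h0 ?_⟩
      rw [← hM, ← h_sp l, he]; ring
    refine ⟨f, mul_left_cancel₀ (L_monic n).ne_zero ?_⟩
    rw [← hG, hM, hf]; ring
  rw [e, Finset.sum_congr rfl hh, ← Finset.mul_sum, mul_divByMonic_cancel_left _ hGm]

theorem eval_num (n : ℕ) :
    eval (-1) (∑ l ∈ T n, c l) = 3 ^ padicValNat 3 n.factorial := by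
  rw [eval_finsetSum, Finset.sum_eq_single (lam n 0)]
  · have hp : (lam n 0).parts = Multiset.replicate n 1 := by simp [lam, Nat.mod_one]
    rw [c, eval_prod, Finset.prod_range_succ', padicValNat_factorial (p := 3) (b := n + 1)
      (Nat.lt_succ_of_le (Nat.log_le_self 3 n)), Finset.sum_Ico_eq_sum_range,
      ← Finset.prod_pow_eq_pow_sum, hp]
    have c0 : cnt (Multiset.replicate n 1) 0 = n := by
      rw [cnt, Multiset.filter_eq_self.2 fun a ha => by rw [Multiset.eq_of_mem_replicate ha]; simp]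
      simp
    rw [c0]
    simp only [pow_zero, Nat.div_one, Nat.sub_self, eval_one, mul_one, Nat.add_sub_cancel]
    refine Finset.prod_congr rfl fun j _ => ?_
    have c1 : cnt (Multiset.replicate n 1) (j + 1) = 0 := by
      rw [cnt, Multiset.card_eq_zero, Multiset.filter_eq_nil]
      intro a ha
      rw [Multiset.eq_of_mem_replicate ha]
      have := Nat.one_lt_pow (by omega : j + 1 ≠ 0) (by norm_num : 1 < 3)
      omega
    rw [eval_pow, ph_eval, c1, Nat.sub_zero, add_comm 1 j]
  · intro l _ hne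
    rw [c, eval_prod]
    refine Finset.prod_eq_zero (Finset.mem_range.2 (Nat.succ_pos n)) ?_
    have hc : cnt l.parts 0 < n := by
      have c0 : cnt l.parts 0 = l.parts.card := by
        rw [cnt, Multiset.filter_eq_self.2 fun a ha => by
          rw [pow_zero]; exact l.parts_pos ha]
      rw [c0]
      by_contra hc
      apply hne
      have h1 : ∀ i ∈ l.parts, i = 1 := by
        intro i hi
        obtain ⟨t, ht⟩ := Multiset.exists_cons_of_mem hi
        have h2 := Multiset.card_nsmul_le_sum (s := t) (a := 1) fun x hx =>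
          l.parts_pos (ht ▸ Multiset.mem_cons_of_mem hx)
        have h3 := l.parts_sum
        have h4 := l.parts_pos hi
        rw [ht] at h3 hc
        simp only [Multiset.sum_cons, Multiset.card_cons, smul_eq_mul, mul_one] at h2 h3 hc
        omega
      have h5 := Multiset.eq_replicate_card.2 h1
      have h6 := l.parts_sum
      rw [h5] at h6
      simp only [Multiset.sum_replicate, smul_eq_mul, mul_one] at h6
      ext1
      rw [h5, h6]; simp [lam, Nat.mod_one]
    rw [eval_pow, pow_zero, Nat.div_one]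
    simp only [ph, eval_add, eval_one, eval_X, add_neg_cancel]
    exact zero_pow (by omega)
  · intro hn; exact absurd (lam_T n 0) hn

end Pool.Agent.H17.Tern
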