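import Mathlib

set_option autoImplicit false
open Filter Topology MeasureTheory

namespace Pool.Agent.H17.ThetaPow

noncomputable def rho (m : ℕ) : ℝ :=
  if m < 16 ^ Nat.log 16 m + 2 ^ Nat.log 16 m then (m : ℝ) / 2 ^ Nat.log 16 m else 0

lemma rho_nonneg (m : ℕ) : 0 ≤ rho m := by
  unfold rho; split_ifs <;> positivity

lemma two_le_sixteen (j : ℕ) : 2 ^ j ≤ 16 ^ j := Nat.pow_le_pow_left (by norm_num) j

lemma not_summable : ¬ Summable (fun m : ℕ => rho (m+1) / ((m:ℝ)+1)) := by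
  intro h
  have h' : Summable (fun m : ℕ => rho m / (m:ℝ)) := by
    rw [← summable_nat_add_iff 1]
    simpa using h
  obtain ⟨s, hs⟩ := (summable_iff_vanishing_norm.1 h') 1 one_pos
  obtain ⟨j, hj⟩ : ∃ j, ∀ i ∈ s, i < 16 ^ j :=
    ⟨s.sup id, fun i hi => lt_of_le_of_lt (Finset.le_sup (f := id) hi)
      (Nat.lt_pow_self (by norm_num))⟩
  have := hs (Finset.Ico (16 ^ j) (16 ^ j + 2 ^ j)) (by
    rw [Finset.disjoint_left]
    intro a ha ha'
    have := hj a ha'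
    have := (Finset.mem_Ico.1 ha).1
    omega)
  have e : ∑ m ∈ Finset.Ico (16 ^ j) (16 ^ j + 2 ^ j), rho m / (m:ℝ)
      = ∑ m ∈ Finset.Ico (16 ^ j) (16 ^ j + 2 ^ j), (1:ℝ) / 2 ^ j := by
    refine Finset.sum_congr rfl fun m hm => ?_
    obtain ⟨h1, h2⟩ := Finset.mem_Ico.1 hm
    have h3 := two_le_sixteen j
    have hl : Nat.log 16 m = j := Nat.log_eq_of_pow_le_of_lt_pow h1 (by rw [pow_succ]; omega)
    have h4 : 0 < 16 ^ j := by positivity
    have h5 : (m:ℝ) ≠ 0 := by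
      have : m ≠ 0 := by omega
      exact_mod_cast this
    unfold rho
    rw [hl, if_pos h2]
    field_simp
  rw [e] at this
  simp at this

def B (j : ℕ) : Set ℝ :=
  {θ | 0 < θ ∧ θ ≤ 1/2 ∧ ∃ b : ℕ, 1 ≤ b ∧ |((16:ℝ) ^ j) ^ θ - b| ≤ 2 / 2 ^ j}

lemma B_meas (j : ℕ) (hj : 2 ≤ j) : volume (B j) ≤ ENNReal.ofReal (16 / 2 ^ j) := by
  obtain ⟨η, hη⟩ : ∃ η : ℝ, η = 2 / 2 ^ j := ⟨_, rfl⟩
  obtain ⟨M, hM⟩ : ∃ M : ℕ, M = 16 ^ j := ⟨_, rfl⟩
  have hM' : (M:ℝ) = 16 ^ j := by rw [hM]; push_cast; rfl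
  have hη0 : 0 < η := by rw [hη]; positivity
  have hη1 : η ≤ 1/2 := by
    rw [hη, div_le_div_iff₀ (by positivity) (by norm_num)]
    have : (2:ℝ) ^ 2 ≤ 2 ^ j := pow_le_pow_right₀ (by norm_num) hj
    linarith
  have hM3 : (3:ℝ) ≤ M := by
    rw [hM']
    have : (16:ℝ) ^ 2 ≤ 16 ^ j := pow_le_pow_right₀ (by norm_num) hj
    linarith
  have hL : 1 ≤ Real.log M := by
    rw [Real.le_log_iff_exp_le (by linarith)]
    have := Real.exp_one_lt_d9
    linarith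
  have hsub : B j ⊆ ⋃ i ∈ Finset.range M,
      Set.Icc (Real.log ((i:ℝ) + 1 - η) / Real.log M) (Real.log ((i:ℝ) + 1 + η) / Real.log M) := by
    rintro θ ⟨h0, h1, b, hb, h⟩
    rw [← hη, ← hM'] at h
    obtain ⟨i, rfl⟩ : ∃ i, b = i + 1 := ⟨b - 1, by omega⟩
    push_cast at h
    obtain ⟨h2, h3⟩ := abs_le.1 h
    have h4 : (M:ℝ) ^ θ ≤ M := by
      conv_rhs => rw [← Real.rpow_one (M:ℝ)]
      exact Real.rpow_le_rpow_of_exponent_le (by linarith) (by linarith)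
    have hi0 : (0:ℝ) ≤ i := Nat.cast_nonneg i
    have h5 : i < M := by
      have : (i:ℝ) < M := by linarith
      exact_mod_cast this
    simp only [Set.mem_iUnion, Finset.mem_range]
    refine ⟨i, h5, ?_, ?_⟩
    · rw [div_le_iff₀ (by linarith), ← Real.log_rpow (by linarith)]
      exact Real.log_le_log (by linarith) (by linarith)
    · rw [le_div_iff₀ (by linarith), ← Real.log_rpow (by linarith)]
      exact Real.log_le_log (by positivity) (by linarith)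
  refine (measure_mono hsub).trans ((measure_biUnion_finset_le _ _).trans ?_)
  simp only [Real.volume_Icc]
  have hterm : ∀ i ∈ Finset.range M,
      ENNReal.ofReal (Real.log ((i:ℝ) + 1 + η) / Real.log M - Real.log ((i:ℝ) + 1 - η) / Real.log M)
        ≤ ENNReal.ofReal (4 * η / Real.log M * ((i:ℝ) + 1)⁻¹) := by
    intro i _
    apply ENNReal.ofReal_le_ofReal
    have hi0 : (0:ℝ) ≤ i := Nat.cast_nonneg i
    have p1 : 0 < (i:ℝ) + 1 - η := by linarith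
    have p2 : 0 < (i:ℝ) + 1 + η := by linarith
    rw [← sub_div, ← Real.log_div p2.ne' p1.ne', div_mul_eq_mul_div]
    apply div_le_div_of_nonneg_right _ (by linarith)
    refine (Real.log_le_sub_one_of_pos (by positivity)).trans ?_
    rw [div_sub_one p1.ne', ← div_eq_mul_inv, div_le_div_iff₀ p1 (by linarith)]
    nlinarith
  refine (Finset.sum_le_sum hterm).trans ?_
  rw [← ENNReal.ofReal_sum_of_nonneg (fun i _ => by positivity)]
  apply ENNReal.ofReal_le_ofReal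
  rw [← Finset.mul_sum]
  have hh := harmonic_le_one_add_log M
  have e : ∑ i ∈ Finset.range M, ((i:ℝ) + 1)⁻¹ = (harmonic M : ℝ) := by
    simp [harmonic]
  rw [e]
  have : 4 * η / Real.log M * (harmonic M : ℝ) ≤ 4 * η / Real.log M * (2 * Real.log M) :=
    mul_le_mul_of_nonneg_left (by linarith) (by positivity)
  refine this.trans (le_of_eq ?_)
  rw [hη]
  field_simp
  norm_num

lemma ae_B : ∀ᵐ θ : ℝ, {j | θ ∈ B (j+2)}.Finite := by
  apply ae_finite_setOfPred_mem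
  have hs : Summable (fun j : ℕ => (16:ℝ) / 2 ^ (j+2)) := by
    have := (summable_geometric_two).mul_left 4
    refine this.congr fun j => ?_
    rw [pow_add, one_div, inv_pow]
    field_simp
    norm_num
  refine ne_top_of_le_ne_top ?_ (ENNReal.tsum_le_tsum fun j => B_meas (j+2) (by omega))
  rw [← ENNReal.ofReal_tsum_of_nonneg (fun j => by positivity) hs]
  exact ENNReal.ofReal_ne_top

lemma close (j a : ℕ) (θ : ℝ) (h0 : 0 < θ) (h1 : θ ≤ 1/2) (ha : 16 ^ j ≤ a) (ha' : a < 16 ^ j + 2 ^ j) :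
    ((16:ℝ) ^ j) ^ θ ≤ (a:ℝ) ^ θ ∧ (a:ℝ) ^ θ ≤ ((16:ℝ) ^ j) ^ θ + 1 / 2 ^ j := by
  have b1 : (16:ℝ) ^ j ≤ a := by exact_mod_cast ha
  have b2 : (a:ℝ) ≤ 16 ^ j + 2 ^ j := by exact_mod_cast ha'.le
  refine ⟨Real.rpow_le_rpow (by positivity) b1 h0.le, ?_⟩
  obtain ⟨t, ht⟩ : ∃ t : ℝ, t = 2 ^ j := ⟨_, rfl⟩
  have ht1 : 1 ≤ t := by rw [ht]; exact one_le_pow₀ (by norm_num)
  have e16 : (16:ℝ) ^ j = t ^ 4 := by
    rw [ht, ← pow_mul, mul_comm, pow_mul]; norm_num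
  rw [e16, ← ht] at b2 ⊢
  have c1 : (a:ℝ) ≤ t ^ 4 * (1 + 1 / t ^ 3) := by
    have : t ^ 4 * (1 + 1 / t ^ 3) = t ^ 4 + t := by field_simp
    linarith
  have c2 : (a:ℝ) ^ θ ≤ (t ^ 4) ^ θ * (1 + 1 / t ^ 3) ^ θ := by
    rw [← Real.mul_rpow (by positivity) (by positivity)]
    exact Real.rpow_le_rpow (by positivity) c1 h0.le
  have c3 : (1 + 1 / t ^ 3) ^ θ ≤ 1 + 1 / t ^ 3 := by
    conv_rhs => rw [← Real.rpow_one (1 + 1 / t ^ 3)]
    apply Real.rpow_le_rpow_of_exponent_le _ (by linarith)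
    have : 0 < 1 / t ^ 3 := by positivity
    linarith
  have c4 : (t ^ 4) ^ θ ≤ t ^ 2 := by
    have : (t ^ 4) ^ θ ≤ (t ^ 4) ^ (1/2 : ℝ) :=
      Real.rpow_le_rpow_of_exponent_le (one_le_pow₀ ht1) h1
    refine this.trans (le_of_eq ?_)
    rw [← Real.sqrt_eq_rpow, show t ^ 4 = (t ^ 2) ^ 2 by ring, Real.sqrt_sq (by positivity)]
  have c5 : 0 ≤ (t ^ 4) ^ θ := by positivity
  have c6 : (t ^ 4) ^ θ * (1 / t ^ 3) ≤ t ^ 2 * (1 / t ^ 3) :=
    mul_le_mul_of_nonneg_right c4 (by positivity)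
  have c7 : t ^ 2 * (1 / t ^ 3) = 1 / t := by field_simp
  have c8 : (t ^ 4) ^ θ * (1 + 1 / t ^ 3) ^ θ ≤ (t ^ 4) ^ θ * (1 + 1 / t ^ 3) :=
    mul_le_mul_of_nonneg_left c3 c5
  nlinarith

lemma bounded (θ : ℝ) (h0 : 0 < θ) (h1 : θ ≤ 1/2)
    (hZ : θ ∉ Set.range (fun p : ℕ × ℕ => Real.log p.2 / Real.log p.1))
    (hB : {j | θ ∈ B (j+2)}.Finite) :
    ∃ A : ℕ, ∀ a b : ℕ, 1 ≤ a → 1 ≤ b → |(a:ℝ) ^ θ - b| ≤ rho a / a → a < A ∧ b < A := by
  obtain ⟨J, hJ⟩ := hB.bddAbove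
  refine ⟨16 ^ (J+3) + 2, fun a b ha hb h => ?_⟩
  have a1 : (1:ℝ) ≤ a := by exact_mod_cast ha
  have hlt : a < 16 ^ (J+3) := by
    by_contra hc
    push Not at hc
    have hj : J + 3 ≤ Nat.log 16 a := Nat.le_log_of_pow_le (by norm_num) hc
    have hle : 16 ^ Nat.log 16 a ≤ a := Nat.pow_log_le_self 16 (by omega)
    unfold rho at h
    obtain ⟨j, hj'⟩ : ∃ j, Nat.log 16 a = j + 2 := ⟨Nat.log 16 a - 2, by omega⟩
    rw [hj'] at h hle hj
    split_ifs at h with hh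
    · obtain ⟨c1, c2⟩ := close (j+2) a θ h0 h1 hle hh
      have e : (a:ℝ) / 2 ^ (j+2) / a = 1 / 2 ^ (j+2) := by field_simp
      rw [e] at h
      obtain ⟨d1, d2⟩ := abs_le.1 h
      have : θ ∈ B (j+2) := by
        refine ⟨h0, h1, b, hb, ?_⟩
        have e2 : (2:ℝ) / 2 ^ (j+2) = 1 / 2 ^ (j+2) + 1 / 2 ^ (j+2) := by ring
        have p : (0:ℝ) < 1 / 2 ^ (j+2) := by positivity
        rw [e2, abs_le]
        constructor <;> linarith
      have := hJ this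
      omega
    · apply hZ
      refine ⟨(a, b), ?_⟩
      have e : (a:ℝ) ^ θ = b := by
        simp only [zero_div, abs_nonpos_iff] at h
        linarith
      have a2 : (1:ℝ) < a := by
        have : 1 < 16 ^ (J+3) := Nat.one_lt_pow (by omega) (by norm_num)
        have : 1 < a := by omega
        exact_mod_cast this
      have hl := Real.log_pos a2
      simp only
      rw [← e, Real.log_rpow (by linarith)]
      field_simp
  refine ⟨by omega, ?_⟩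
  have r1 : rho a / a ≤ 1 := by
    rw [div_le_one (by linarith)]
    unfold rho
    split_ifs
    · exact div_le_self (by linarith) (one_le_pow₀ (by norm_num))
    · linarith
  have r2 : (a:ℝ) ^ θ ≤ a := by
    conv_rhs => rw [← Real.rpow_one (a:ℝ)]
    exact Real.rpow_le_rpow_of_exponent_le a1 (by linarith)
  have r3 := (abs_le.1 h).1
  have r4 : (b:ℝ) ≤ a + 1 := by linarith
  have r5 : b ≤ a + 1 := by exact_mod_cast r4
  omega

end Pool.Agent.H17.ThetaPow
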