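import Mathlib
import Pool.Agent.H17.MultTable

set_option autoImplicit false
open Filter Finset

namespace Pool.Agent.H17.TwoClass

lemma step (f : ℕ → ℝ) (hf : Tendsto f atTop atTop) (k K : ℕ) : ∃ N : ℕ, K ^ 2 < N ∧ ∃ x : ℕ,
    (∀ n, x ≤ n → ((K ^ 2 : ℕ) : ℝ) ≤ f n) ∧ (x : ℝ) ≤ 1 / ((k:ℝ) + 1) * N ^ 2 ∧
    (((Ioc 0 N ×ˢ Ioc 0 N).image (fun x : ℕ × ℕ => x.1 * x.2)).card : ℝ) ≤ 1 / ((k:ℝ) + 1) * N ^ 2 := by
  obtain ⟨x, hx⟩ := eventually_atTop.1 (hf.eventually_ge_atTop ((K ^ 2 : ℕ) : ℝ))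
  obtain ⟨N, hN, h⟩ := MultTable.exists_table (1 / ((k:ℝ) + 1)) (by positivity)
    (K ^ 2 + 1 + x * (k + 1))
  refine ⟨N, by omega, x, hx, ?_, h⟩
  have h1 : x * (k + 1) ≤ N ^ 2 := by nlinarith [Nat.zero_le (K ^ 2)]
  have h2 : (x:ℝ) * ((k:ℝ) + 1) ≤ N ^ 2 := by exact_mod_cast h1
  rw [one_div, ← div_eq_inv_mul, le_div_iff₀ (by positivity)]
  exact h2

lemma main (f : ℕ → ℝ) (hf : Tendsto f atTop atTop) :
    ∃ A₁ A₂ : Set ℕ, A₁.Nonempty ∧ A₂.Nonempty ∧ Disjoint A₁ A₂ ∧ A₁ ∪ A₂ = {n | 1 ≤ n} ∧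
      ∀ k : ℕ, ∃ M : ℕ, k < M ∧ (({n : ℕ | ∃ a a' : ℕ, ((a ∈ A₁ ∧ a' ∈ A₁) ∨ (a ∈ A₂ ∧ a' ∈ A₂)) ∧
        n = a * a' ∧ f n < ((min a a' : ℕ) : ℝ)} ∩ Set.Icc 1 M).ncard : ℝ) ≤ 2 / ((k:ℝ) + 1) * M := by
  choose g hg1 x hx1 hx2 hx3 using step f hf
  let N : ℕ → ℕ := fun k => Nat.rec 2 (fun k n => g k n) k
  have hN0 : N 0 = 2 := rfl
  have hNs : ∀ k, N (k+1) = g k (N k) := fun k => rfl
  have hlt : ∀ k, N k ^ 2 < N (k+1) := fun k => hg1 k (N k)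
  have hmono : StrictMono N := strictMono_nat_of_lt_succ fun k => by
    have := hlt k
    nlinarith
  have h2 : ∀ k, k + 2 ≤ N k := by
    intro k
    induction k with
    | zero => simp [hN0]
    | succ k ih => have : N k < N (k+1) := hmono (Nat.lt_succ_self k); omega
  refine ⟨{a | 1 ≤ a ∧ ¬ ∃ k, N k < a ∧ a ≤ N k ^ 2}, {a | ∃ k, N k < a ∧ a ≤ N k ^ 2},
    ⟨1, le_rfl, ?_⟩, ⟨3, 0, by simp [hN0]⟩, ?_, ?_, ?_⟩
  · rintro ⟨k, h, -⟩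
    have := h2 k
    omega
  · rw [Set.disjoint_left]
    exact fun a ha hb => ha.2 hb
  · ext a
    simp only [Set.mem_union, Set.mem_ofPred_eq]
    constructor
    · rintro (h | ⟨k, h, -⟩)
      · exact h.1
      · omega
    · intro h
      rcases Classical.em (∃ k : ℕ, N k < a ∧ a ≤ N k ^ 2) with h' | h'
      · exact Or.inr h'
      · exact Or.inl ⟨h, h'⟩
  intro k
  refine ⟨N (k+1) ^ 2, by have := h2 (k+1); nlinarith, ?_⟩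
  have hsub : ({n : ℕ | ∃ a a' : ℕ, ((a ∈ {a | 1 ≤ a ∧ ¬ ∃ k, N k < a ∧ a ≤ N k ^ 2} ∧
        a' ∈ {a | 1 ≤ a ∧ ¬ ∃ k, N k < a ∧ a ≤ N k ^ 2}) ∨
        (a ∈ {a | ∃ k, N k < a ∧ a ≤ N k ^ 2} ∧ a' ∈ {a | ∃ k, N k < a ∧ a ≤ N k ^ 2})) ∧
        n = a * a' ∧ f n < ((min a a' : ℕ) : ℝ)} ∩ Set.Icc 1 (N (k+1) ^ 2)) ⊆
      ((range (x k (N k)) ∪ (Ioc 0 (N (k+1)) ×ˢ Ioc 0 (N (k+1))).image
        (fun x : ℕ × ℕ => x.1 * x.2) : Finset ℕ) : Set ℕ) := by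
    rintro n ⟨⟨a, a', h, rfl, hm⟩, h1, h3⟩
    rw [Finset.mem_coe, Finset.mem_union]
    by_cases hx : a * a' < x k (N k)
    · exact Or.inl (Finset.mem_range.2 hx)
    right
    have h4 := (hx1 k (N k) _ (not_lt.1 hx)).trans_lt hm
    have h5 : N k ^ 2 < min a a' := by exact_mod_cast h4
    have ha : N k ^ 2 < a := lt_of_lt_of_le h5 (min_le_left _ _)
    have ha' : N k ^ 2 < a' := lt_of_lt_of_le h5 (min_le_right _ _)
    have ha0 : 1 ≤ a := by omega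
    have ha0' : 1 ≤ a' := by omega
    have hb : a ≤ N (k+1) ^ 2 := by nlinarith
    have hb' : a' ≤ N (k+1) ^ 2 := by nlinarith
    rcases h with ⟨⟨-, c1⟩, ⟨-, c2⟩⟩ | ⟨⟨i, c1, c2⟩, ⟨j, d1, d2⟩⟩
    · refine Finset.mem_image.2 ⟨(a, a'), ?_, rfl⟩
      simp only [Finset.mem_product, Finset.mem_Ioc]
      refine ⟨⟨ha0, ?_⟩, ha0', ?_⟩
      · by_contra hc
        exact c1 ⟨k+1, not_le.1 hc, hb⟩
      · by_contra hc
        exact c2 ⟨k+1, not_le.1 hc, hb'⟩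
    · exfalso
      have key : ∀ i b, N k ^ 2 < b → N i < b → b ≤ N i ^ 2 → N (k+1) < b := by
        intro i b e1 e2 e3
        have : k + 1 ≤ i := by
          by_contra hc
          have : N i ≤ N k := hmono.monotone (by omega)
          have : N i ^ 2 ≤ N k ^ 2 := Nat.pow_le_pow_left this 2
          omega
        exact lt_of_le_of_lt (hmono.monotone this) e2
      have e1 := key i a ha c1 c2
      have e2 := key j a' ha' d1 d2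
      nlinarith
  have hc := Set.ncard_le_ncard hsub (Finset.finite_toSet _)
  rw [Set.ncard_coe_finset] at hc
  have hc2 := hc.trans (Finset.card_union_le _ _)
  rw [Finset.card_range] at hc2
  have hc3 := (Nat.cast_le (α := ℝ)).2 hc2
  have b1 := hx2 k (N k)
  have b2 := hx3 k (N k)
  rw [← hNs] at b1 b2
  rw [Nat.cast_add] at hc3
  refine hc3.trans ?_
  push_cast
  have : 2 / ((k:ℝ) + 1) * (N (k+1):ℝ) ^ 2
      = 1 / ((k:ℝ) + 1) * (N (k+1):ℝ) ^ 2 + 1 / ((k:ℝ) + 1) * (N (k+1):ℝ) ^ 2 := by ring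
  linarith

end Pool.Agent.H17.TwoClass
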