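import Pool.Agent.H17.S4b

set_option autoImplicit false

namespace Pool.Agent.H17.U2
open PowerSeries
open Pool.Agent.H17.S4 (ladd lmul lpow w w_mul Ew_mul c_num v v_odd v_two_mul decomp Val)

noncomputable def evG (g : ℤ⟦X⟧) : List ℤ → ℤ⟦X⟧
  | [] => 0
  | a :: l => C a + g * evG g l

theorem evG_add (g : ℤ⟦X⟧) : ∀ a b : List ℤ, evG g (ladd a b) = evG g a + evG g b
  | [], b => by simp [ladd, evG]
  | x :: a, [] => by simp [ladd, evG]
  | x :: a, y :: b => by
      simp only [ladd, evG, evG_add g a b, map_add]; ring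

theorem evG_smul (g : ℤ⟦X⟧) (x : ℤ) :
    ∀ b : List ℤ, evG g (b.map (fun y => x * y)) = C x * evG g b
  | [] => by simp [evG]
  | y :: b => by
      simp only [List.map, evG, evG_smul g x b, map_mul]; ring

theorem evG_mul (g : ℤ⟦X⟧) : ∀ a b : List ℤ, evG g (lmul a b) = evG g a * evG g b
  | [], b => by simp [lmul, evG]
  | x :: a, b => by
      simp only [lmul, evG_add, evG_smul, evG, evG_mul g a b, map_zero]; ring

theorem evG_pow (g : ℤ⟦X⟧) (a : List ℤ) : ∀ n, evG g (lpow a n) = evG g a ^ n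
  | 0 => by simp [lpow, evG]
  | n + 1 => by simp only [lpow, evG_mul, evG_pow g a n]; ring

theorem evG_mem (R : Subring ℤ⟦X⟧) (g : ℤ⟦X⟧) (hg : g ∈ R) : ∀ a : List ℤ, evG g a ∈ R
  | [] => R.zero_mem
  | x :: a => R.add_mem (by rw [eq_intCast]; exact intCast_mem R x)
      (R.mul_mem hg (evG_mem R g hg a))

theorem evG_dvd (g : ℤ⟦X⟧) (N : ℤ) :
    ∀ a : List ℤ, (a.all (fun x => x % N == 0)) = true →
      evG g a = C N * evG g (a.map (fun x => x / N))
  | [], _ => by simp [evG]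
  | x :: a, h => by
      simp only [List.all_cons, Bool.and_eq_true, beq_iff_eq] at h
      have h1 := evG_dvd g N a h.2
      have h2 : x = N * (x / N) := (Int.mul_ediv_cancel' (Int.dvd_of_emod_eq_zero h.1)).symm
      simp only [List.map, evG]
      rw [h1]; nth_rw 1 [h2]; rw [map_mul]; ring

def lsub (a b : List ℤ) : List ℤ := ladd a (b.map (fun y => (-1) * y))

theorem evG_sub (g : ℤ⟦X⟧) (a b : List ℤ) : evG g (lsub a b) = evG g a - evG g b := by
  rw [lsub, evG_add, evG_smul]; simp; ring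

theorem evG_zero (g : ℤ⟦X⟧) : ∀ a : List ℤ, (a.all (fun x => x == 0)) = true → evG g a = 0
  | [], _ => rfl
  | x :: a, h => by
      simp only [List.all_cons, Bool.and_eq_true, beq_iff_eq] at h
      simp [evG, h.1, evG_zero g a h.2]

/-- the subsequence operator -/
noncomputable def U (k d : ℕ) (A : ℤ⟦X⟧) : ℤ⟦X⟧ := mk (fun n => coeff (k * n + d) A)

theorem U_add (k d : ℕ) (A B : ℤ⟦X⟧) : U k d (A + B) = U k d A + U k d B := by
  ext n; simp [U]

theorem U_sub (k d : ℕ) (A B : ℤ⟦X⟧) : U k d (A - B) = U k d A - U k d B := by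
  ext n; simp [U]

theorem U_C (k d : ℕ) (c : ℤ) (A : ℤ⟦X⟧) : U k d (C c * A) = C c * U k d A := by
  ext n; simp only [U, coeff_mk, coeff_C_mul]

theorem coeff_U (k d n : ℕ) (A : ℤ⟦X⟧) : coeff n (U k d A) = coeff (k * n + d) A := by
  simp [U]

theorem U_expand (k d : ℕ) (hk : k ≠ 0) (hd : d < k) (P A : ℤ⟦X⟧) :
    U k d (expand k hk P * A) = P * U k d A := by
  ext n
  rw [coeff_U, coeff_mul, coeff_mul]
  simp only [coeff_U, coeff_expand]
  symm
  refine Finset.sum_bij_ne_zero (fun p _ _ => (k * p.1, k * p.2 + d)) ?_ ?_ ?_ ?_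
  · intro p hp _
    rw [Finset.HasAntidiagonal.mem_antidiagonal] at hp ⊢
    rw [← hp]; ring
  · intro p _ _ q _ _ h
    simp only [Prod.mk.injEq] at h
    have h1 := Nat.eq_of_mul_eq_mul_left (Nat.pos_of_ne_zero hk) h.1
    have h2 := Nat.eq_of_mul_eq_mul_left (Nat.pos_of_ne_zero hk) (Nat.add_right_cancel h.2)
    exact Prod.ext h1 h2
  · intro q hq hne
    rw [Finset.HasAntidiagonal.mem_antidiagonal] at hq
    have hdv : k ∣ q.1 := by
      by_contra hc; simp [hc] at hne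
    obtain ⟨a, ha⟩ := hdv
    have hle : a ≤ n := by
      by_contra hc
      have : k * (n + 1) ≤ k * a := Nat.mul_le_mul_left k (by omega)
      rw [mul_add] at this; omega
    obtain ⟨b, rfl⟩ := Nat.exists_eq_add_of_le hle
    have hb : q.2 = k * b + d := by rw [mul_add] at hq; omega
    refine ⟨(a, b), by simp, ?_, Prod.ext ha.symm hb.symm⟩
    rw [ha, if_pos (dvd_mul_right _ _), Nat.mul_div_cancel_left _ (Nat.pos_of_ne_zero hk), hb] at hne
    exact hne
  · intro p _ _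
    simp [Nat.mul_div_cancel_left _ (Nat.pos_of_ne_zero hk)]

noncomputable abbrev E : ℤ⟦X⟧ →ₐ[ℤ] ℤ⟦X⟧ := expand 2 (by norm_num)

noncomputable def t : ℤ⟦X⟧ := (1 + X) * w

theorem Ew : E w * (1 - X ^ 2) = 1 := Ew_mul 2 (by norm_num)

theorem w_eq : w = (1 + X) * E w := by
  linear_combination (-w) * Ew + ((1 + X) * E w) * w_mul

theorem t_eq : t = E t + X * (2 * E w) := by
  have h : E t = (1 + X ^ 2) * E w := by simp [t, expand_X]
  rw [h, t]; nth_rw 1 [w_eq]; ring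

theorem t_sq : t ^ 2 = 2 * E t * t - 1 := by
  have h : E t = (1 + X ^ 2) * E w := by simp [t, expand_X]
  have h2 : t = (1 + X) ^ 2 * E w := by rw [t]; nth_rw 1 [w_eq]; ring
  rw [h, h2]
  linear_combination (-(E w * (1 - X ^ 2) + 1)) * Ew

theorem U0_one : U 2 0 1 = 1 := by
  ext n; rw [coeff_U, coeff_one, coeff_one]; simp

theorem U1_one : U 2 1 1 = 0 := by
  ext n; rw [coeff_U, coeff_one]; simp

theorem U0_X : U 2 0 X = 0 := by
  ext n; rw [coeff_U, coeff_X]; simp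

theorem U1_X : U 2 1 X = 1 := by
  ext n; rw [coeff_U, coeff_X, coeff_one]; simp

theorem U_split (d : ℕ) (hd : d < 2) (a b : ℤ⟦X⟧) :
    U 2 d (E a + E b * X) = a * U 2 d 1 + b * U 2 d X := by
  rw [U_add, ← U_expand 2 d (by norm_num) hd, ← U_expand 2 d (by norm_num) hd, mul_one]

theorem U0_pair (a b : ℤ⟦X⟧) : U 2 0 (E a + E b * t) = a + b * t := by
  have : E a + E b * t = E (a + b * t) + E (b * (2 * w)) * X := by
    simp only [map_add, map_mul, map_ofNat]; nth_rw 1 [t_eq]; ring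
  rw [this, U_split 0 (by norm_num), U0_one, U0_X]; ring

theorem U1_pair (a b : ℤ⟦X⟧) : U 2 1 (E a + E b * t) = 2 * w * b := by
  have : E a + E b * t = E (a + b * t) + E (b * (2 * w)) * X := by
    simp only [map_add, map_mul, map_ofNat]; nth_rw 1 [t_eq]; ring
  rw [this, U_split 1 (by norm_num), U1_one, U1_X]; ring

noncomputable def Lam : Subring ℤ⟦X⟧ := Subring.closure {t}

theorem t_mem : t ∈ Lam := Subring.subset_closure rfl

theorem two_mem (R : Subring ℤ⟦X⟧) : (2 : ℤ⟦X⟧) ∈ R := ofNat_mem R 2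

noncomputable def MM : Subring ℤ⟦X⟧ where
  carrier := {F | ∃ a ∈ Lam, ∃ b ∈ Lam, F = E a + E b * t}
  mul_mem' := by
    rintro _ _ ⟨a, ha, b, hb, rfl⟩ ⟨c, hc, d, hd, rfl⟩
    refine ⟨a * c - b * d, sub_mem (mul_mem ha hc) (mul_mem hb hd),
      a * d + b * c + 2 * t * (b * d), add_mem (add_mem (mul_mem ha hd) (mul_mem hb hc))
        (mul_mem (mul_mem (two_mem _) t_mem) (mul_mem hb hd)), ?_⟩
    simp only [map_add, map_mul, map_sub, map_ofNat]
    linear_combination (E b * E d) * t_sq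
  one_mem' := ⟨1, one_mem _, 0, zero_mem _, by simp⟩
  add_mem' := by
    rintro _ _ ⟨a, ha, b, hb, rfl⟩ ⟨c, hc, d, hd, rfl⟩
    exact ⟨a + c, add_mem ha hc, b + d, add_mem hb hd, by simp only [map_add]; ring⟩
  zero_mem' := ⟨0, zero_mem _, 0, zero_mem _, by simp⟩
  neg_mem' := by
    rintro _ ⟨a, ha, b, hb, rfl⟩
    exact ⟨-a, neg_mem ha, -b, neg_mem hb, by simp only [map_neg]; ring⟩

theorem t_MM : t ∈ MM := ⟨0, zero_mem _, 1, one_mem _, by simp⟩

theorem Lam_le : Lam ≤ MM := Subring.closure_le.2 (by rintro _ rfl; exact t_MM)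

theorem E_MM {a : ℤ⟦X⟧} (ha : a ∈ Lam) : E a ∈ MM := ⟨a, ha, 0, zero_mem _, by simp⟩

theorem U0_mem {F : ℤ⟦X⟧} (h : F ∈ MM) : U 2 0 F ∈ Lam := by
  obtain ⟨a, ha, b, hb, rfl⟩ := h
  rw [U0_pair]; exact add_mem ha (mul_mem hb t_mem)

noncomputable def s : ℤ⟦X⟧ := t ^ 2 - 1

theorem s_pair (a b : ℤ⟦X⟧) : s * (E a + E b * t) =
    E (-2 * a - 2 * t * b) + E (2 * t * a + (4 * t ^ 2 - 2) * b) * t := by
  simp only [map_add, map_mul, map_sub, map_ofNat, map_neg, map_pow, s]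
  linear_combination (E a + E b * t + 2 * E t * E b) * t_sq

theorem U0_s (a b : ℤ⟦X⟧) : U 2 0 (s * (E a + E b * t)) = 2 * s * (a + 2 * t * b) := by
  rw [s_pair, U0_pair, s]; ring

theorem U1_s (a b : ℤ⟦X⟧) :
    U 2 1 (s * (E a + E b * t)) = 4 * w * (t * a + (2 * t ^ 2 - 1) * b) := by
  rw [s_pair, U1_pair]; ring

noncomputable def H : ℕ → ℤ⟦X⟧
  | 0 => 1
  | j + 1 => t * E (H j)

theorem step (j m d n : ℕ) (hd : d < 2) (A : ℤ⟦X⟧) :
    coeff (2 * n + d) (A * H (j + 1) ^ m) = coeff n (U 2 d (A * t ^ m) * H j ^ m) := by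
  rw [← coeff_U, mul_comm (U 2 d _), ← U_expand 2 d (by norm_num) hd, H, mul_pow, map_pow]
  congr 2; ring

theorem t_two : t = 1 + 2 * (X * w) := by
  rw [t]; linear_combination w_mul

theorem H_two : ∀ j, ∃ K, H j = 1 + 2 * K
  | 0 => ⟨0, by simp [H]⟩
  | j + 1 => by
      obtain ⟨K, hK⟩ := H_two j
      refine ⟨X * w + t * E K, ?_⟩
      rw [H, hK]; simp only [map_add, map_one, map_mul, map_ofNat]
      linear_combination t_two

theorem pow_two_add (K : ℤ⟦X⟧) (m : ℕ) : ∃ K', (1 + 2 * K) ^ m = 1 + 2 * K' := by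
  obtain ⟨L, hL⟩ := sub_dvd_pow_sub_pow (1 + 2 * K) 1 m
  exact ⟨K * L, by linear_combination hL⟩

noncomputable def g (i : ℕ) : ℤ⟦X⟧ := mk (fun j : ℕ => if 2 ^ i ∣ j then (1 : ℤ) else 0)

theorem g0 : g 0 = w := by
  ext n; simp [g, w]

theorem g_succ (i : ℕ) : g (i + 1) = E (g i) := by
  ext n
  rw [coeff_expand]
  simp only [g, coeff_mk]
  by_cases h : 2 ∣ n
  · obtain ⟨m, rfl⟩ := h
    simp only [dvd_mul_right, if_true, Nat.mul_div_cancel_left m (by norm_num : 0 < 2)]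
    have : 2 ^ (i + 1) ∣ 2 * m ↔ 2 ^ i ∣ m := by
      rw [pow_succ']; exact Nat.mul_dvd_mul_iff_left (by norm_num)
    simp [this]
  · have : ¬ 2 ^ (i + 1) ∣ n := fun h' => h (dvd_trans (dvd_pow_self 2 (by omega)) h')
    simp [h, this]

theorem F_H : ∀ j, w * (∏ i ∈ Finset.range j, g i) * (1 - X ^ 2 ^ j) = H j
  | 0 => by simpa [H] using w_mul
  | j + 1 => by
      have h := congrArg E (F_H j)
      simp only [map_mul, map_sub, map_one, map_pow, expand_X, map_prod] at h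
      rw [Finset.prod_range_succ', g0, H, ← h, t, pow_succ' 2 j, pow_mul]
      simp only [g_succ]
      generalize (∏ i ∈ Finset.range j, E (g i)) = p
      generalize (1 : ℤ⟦X⟧) - (X ^ 2) ^ 2 ^ j = d
      linear_combination (w * p * d) * w_eq

theorem H_succ_dvd : ∀ j, (X : ℤ⟦X⟧) ^ 2 ^ j ∣ H (j + 1) - H j
  | 0 => ⟨2 * w, by simp only [H, map_one, mul_one]; rw [t_two]; ring⟩
  | j + 1 => by
      obtain ⟨K, hK⟩ := H_succ_dvd j
      have h := congrArg E hK
      simp only [map_sub, map_mul, map_pow, expand_X] at h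
      refine ⟨t * E K, ?_⟩
      rw [pow_succ' 2 j, pow_mul]
      change t * E (H (j + 1)) - t * E (H j) = _
      linear_combination t * h

theorem H_dvd (j i : ℕ) : (X : ℤ⟦X⟧) ^ 2 ^ j ∣ H (j + i) - H j := by
  induction i with
  | zero => simp
  | succ i ih =>
    have h := (pow_dvd_pow X (Nat.pow_le_pow_right (by norm_num : 0 < 2)
      (Nat.le_add_right j i))).trans (H_succ_dvd (j + i))
    have := dvd_add h ih
    rwa [sub_add_sub_cancel] at this

theorem coeff_congr {N n : ℕ} (hn : n < N) {A B : ℤ⟦X⟧} (h : (X : ℤ⟦X⟧) ^ N ∣ A - B) :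
    coeff n A = coeff n B := by
  have := (X_pow_dvd_iff.1 h) n hn
  rwa [map_sub, sub_eq_zero] at this

theorem coeff_H (A : ℤ⟦X⟧) (m n j j' : ℕ) (h : n < 2 ^ j) (h' : n < 2 ^ j') :
    coeff n (A * H j ^ m) = coeff n (A * H j' ^ m) := by
  wlog hle : j ≤ j' generalizing j j'
  · exact (this j' j h' h (by omega)).symm
  obtain ⟨i, rfl⟩ := Nat.exists_eq_add_of_le hle
  symm
  refine coeff_congr h ?_
  rw [← mul_sub]
  exact Dvd.dvd.mul_left ((H_dvd j i).trans (sub_dvd_pow_sub_pow _ _ m)) A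

theorem lt_pow_succ (n : ℕ) : n < 2 ^ (n + 1) :=
  lt_trans Nat.lt_two_pow_self (Nat.pow_lt_pow_right (by norm_num) (Nat.lt_succ_self n))

/-- coefficient of the truncated product, with an arbitrary factor in front -/
theorem coeff_prod (A : ℤ⟦X⟧) (m n j : ℕ) (h : n < 2 ^ j) :
    coeff n (A * (w ^ m * (∏ i ∈ Finset.range (n + 1), g i) ^ m)) = coeff n (A * H j ^ m) := by
  rw [coeff_H A m n j (n + 1) h (lt_pow_succ n)]
  refine coeff_congr (lt_pow_succ n) ?_
  rw [← mul_sub, ← F_H, ← mul_pow]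
  refine Dvd.dvd.mul_left (Dvd.dvd.trans ?_ (sub_dvd_pow_sub_pow _ _ m)) A
  exact ⟨w * ∏ i ∈ Finset.range (n + 1), g i, by ring⟩

noncomputable def c (m n : ℕ) : ℤ :=
  coeff n ((mk (fun _ : ℕ => (1 : ℤ))) ^ m * (∏ i ∈ Finset.range (n + 1),
    mk (fun j : ℕ => if 2 ^ i ∣ j then (1 : ℤ) else 0)) ^ m)

theorem c_eq (m n j : ℕ) (h : n < 2 ^ j) : c m n = coeff n (H j ^ m) := by
  have := coeff_prod 1 m n j h
  rw [one_mul, one_mul] at this
  exact this

end Pool.Agent.H17.U2
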