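import Pool.Agent.H17.U2

set_option autoImplicit false

namespace Pool.Agent.H17.U2
open PowerSeries
open Pool.Agent.H17.S4 (ladd lmul lpow w w_mul Ew_mul c_num v v_odd v_two_mul decomp Val)

theorem U_mulc (k d : ℕ) (e : ℕ) (A : ℤ⟦X⟧) : U k d (2 ^ e * A) = 2 ^ e * U k d A := by
  have := U_C k d (2 ^ e) A
  simpa using this

theorem coeff_mulc (n e : ℕ) (A : ℤ⟦X⟧) : coeff n (2 ^ e * A) = 2 ^ e * coeff n A := by
  have := coeff_C_mul n A ((2 : ℤ) ^ e)
  simpa using this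

/-- divisibility propagation -/
theorem dvd_iter (m j n : ℕ) : ∀ (r e : ℕ) (P : ℤ⟦X⟧), P ∈ Lam →
    (2 : ℤ) ^ (e + r + 2) ∣ coeff (2 ^ r * (2 * n + 1)) (2 ^ e * s * P * H (j + 1 + r) ^ m)
  | 0, e, P, hP => by
      obtain ⟨a, -, b, -, hab⟩ : P * t ^ m ∈ MM := mul_mem (Lam_le hP) (pow_mem t_MM m)
      rw [pow_zero, one_mul, add_zero, add_zero, step j m 1 n (by norm_num),
        show 2 ^ e * s * P * t ^ m = 2 ^ e * (s * (P * t ^ m)) by ring, U_mulc, hab, U1_s,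
        show 2 ^ e * (4 * w * (t * a + (2 * t ^ 2 - 1) * b)) * H j ^ m =
          2 ^ (e + 2) * (w * (t * a + (2 * t ^ 2 - 1) * b) * H j ^ m) by ring, coeff_mulc]
      exact dvd_mul_right _ _
  | r + 1, e, P, hP => by
      obtain ⟨a, ha, b, hb, hab⟩ : P * t ^ m ∈ MM := mul_mem (Lam_le hP) (pow_mem t_MM m)
      have h := step (j + 1 + r) m 0 (2 ^ r * (2 * n + 1)) (by norm_num) (2 ^ e * s * P)
      rw [show 2 ^ (r + 1) * (2 * n + 1) = 2 * (2 ^ r * (2 * n + 1)) + 0 by ring, ← add_assoc (j + 1) r 1, h,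
        show 2 ^ e * s * P * t ^ m = 2 ^ e * (s * (P * t ^ m)) by ring, U_mulc, hab, U0_s,
        show 2 ^ e * (2 * s * (a + 2 * t * b)) = 2 ^ (e + 1) * s * (a + 2 * t * b) by ring,
        show e + (r + 1) + 2 = e + 1 + r + 2 by ring]
      exact dvd_iter m j n r (e + 1) _ (add_mem ha (mul_mem (mul_mem (two_mem _) t_mem) hb))

/-- the class of series that are `1` modulo two in the module -/
def Odd1 (F : ℤ⟦X⟧) : Prop := ∃ G ∈ MM, F = 1 + 2 * G

theorem Odd1.mul {F G : ℤ⟦X⟧} (h : Odd1 F) (h' : Odd1 G) : Odd1 (F * G) := by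
  obtain ⟨a, ha, rfl⟩ := h
  obtain ⟨b, hb, rfl⟩ := h'
  exact ⟨a + b + 2 * (a * b), add_mem (add_mem ha hb) (mul_mem (two_mem _) (mul_mem ha hb)),
    by ring⟩

theorem odd1_sq : Odd1 (t ^ 2) :=
  ⟨E t * t - 1, sub_mem (mul_mem (E_MM t_mem) t_MM) (one_mem _), by linear_combination t_sq⟩

theorem odd1_pow : ∀ i, Odd1 (t ^ (2 * i))
  | 0 => ⟨0, zero_mem _, by simp⟩
  | i + 1 => by rw [mul_add, pow_add]; exact (odd1_pow i).mul odd1_sq

theorem val_iter (k j n : ℕ) : ∀ (r e : ℕ) (P : ℤ⟦X⟧), Odd1 P →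
    Val (coeff (2 ^ r * (2 * n + 1)) (2 ^ e * s * P * H (j + 1 + r) ^ (2 * k))) (e + r + 2)
  | 0, e, P, hP => by
      obtain ⟨G, ⟨a, -, b, -, rfl⟩, hab⟩ := hP.mul (odd1_pow k)
      have hab' : P * t ^ (2 * k) = E (1 + 2 * a) + E (2 * b) * t := by
        rw [hab]; simp only [map_add, map_mul, map_one, map_ofNat]; ring
      obtain ⟨K, hK⟩ := H_two j
      obtain ⟨K', hK'⟩ := pow_two_add K (2 * k)
      rw [pow_zero, one_mul, add_zero, add_zero, step j _ 1 n (by norm_num),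
        show 2 ^ e * s * P * t ^ (2 * k) = 2 ^ e * (s * (P * t ^ (2 * k))) by ring, U_mulc, hab',
        U1_s, hK, hK']
      have : 2 ^ e * (4 * w * (t * (1 + 2 * a) + (2 * t ^ 2 - 1) * (2 * b))) * (1 + 2 * K') =
          2 ^ (e + 2) * (w + 2 * (w * (X * w + t * a + (2 * t ^ 2 - 1) * b) +
            w * (t * (1 + 2 * a) + (2 * t ^ 2 - 1) * (2 * b)) * K')) := by
        linear_combination (2 ^ e * 4 * w) * t_two
      rw [this, coeff_mulc, map_add, c_num]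
      have hw : coeff n w = 1 := by simp [w]
      rw [hw, add_comm (1 : ℤ)]
      exact ⟨_, rfl⟩
  | r + 1, e, P, hP => by
      obtain ⟨G, ⟨a, ha, b, hb, rfl⟩, hab⟩ := hP.mul (odd1_pow k)
      have hab' : P * t ^ (2 * k) = E (1 + 2 * a) + E (2 * b) * t := by
        rw [hab]; simp only [map_add, map_mul, map_one, map_ofNat]; ring
      have h := step (j + 1 + r) (2 * k) 0 (2 ^ r * (2 * n + 1)) (by norm_num) (2 ^ e * s * P)
      rw [show 2 ^ (r + 1) * (2 * n + 1) = 2 * (2 ^ r * (2 * n + 1)) + 0 by ring, ← add_assoc (j + 1) r 1, h,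
        show 2 ^ e * s * P * t ^ (2 * k) = 2 ^ e * (s * (P * t ^ (2 * k))) by ring, U_mulc, hab',
        U0_s, show 2 ^ e * (2 * s * (1 + 2 * a + 2 * t * (2 * b))) =
          2 ^ (e + 1) * s * (1 + 2 * (a + 2 * t * b)) by ring,
        show e + (r + 1) + 2 = e + 1 + r + 2 by ring]
      exact val_iter k j n r (e + 1) _
        ⟨_, Lam_le (add_mem ha (mul_mem (mul_mem (two_mem _) t_mem) hb)), rfl⟩

noncomputable def ab : ℕ → ℤ⟦X⟧ × ℤ⟦X⟧
  | 0 => (1, 0)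
  | j + 1 => (-(ab j).2, (ab j).1 + 2 * t * (ab j).2)

theorem ab_mem : ∀ j, (ab j).1 ∈ Lam ∧ (ab j).2 ∈ Lam
  | 0 => ⟨one_mem _, zero_mem _⟩
  | j + 1 => ⟨neg_mem (ab_mem j).2,
      add_mem (ab_mem j).1 (mul_mem (mul_mem (two_mem _) t_mem) (ab_mem j).2)⟩

theorem ab_pow : ∀ j, t ^ j = E (ab j).1 + E (ab j).2 * t
  | 0 => by simp [ab]
  | j + 1 => by
      rw [pow_succ, ab_pow j]
      simp only [ab, map_neg, map_add, map_mul, map_ofNat]
      linear_combination (E (ab j).2) * t_sq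

theorem ab_norm : ∀ j, (ab j).1 ^ 2 + 2 * t * (ab j).1 * (ab j).2 + (ab j).2 ^ 2 = 1
  | 0 => by simp [ab]
  | j + 1 => by simp only [ab]; linear_combination ab_norm j

theorem ab_add (i : ℕ) : ∀ j, (ab (i + j)).1 = (ab i).1 * (ab j).1 - (ab i).2 * (ab j).2 ∧
    (ab (i + j)).2 = (ab i).1 * (ab j).2 + (ab i).2 * (ab j).1 + 2 * t * (ab i).2 * (ab j).2
  | 0 => by simp [ab]
  | j + 1 => by
      obtain ⟨h1, h2⟩ := ab_add i j
      rw [← add_assoc]
      simp only [ab, h1, h2]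
      constructor <;> ring

theorem ab_par : ∀ j, (∃ a ∈ Lam, ∃ b ∈ Lam, (ab (2 * j)).1 = 1 + 2 * a ∧ (ab (2 * j)).2 = 2 * b)
  | 0 => ⟨0, zero_mem _, 0, zero_mem _, by simp [ab], by simp [ab]⟩
  | j + 1 => by
      obtain ⟨a, ha, b, hb, h1, h2⟩ := ab_par j
      have t2 := mul_mem (two_mem Lam) t_mem
      refine ⟨-1 - a - 2 * t * b, sub_mem (sub_mem (neg_mem (one_mem _)) ha) (mul_mem t2 hb),
        -b + t * (1 + 2 * a + 2 * t * (2 * b)), add_mem (neg_mem hb) (mul_mem t_mem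
          (add_mem (add_mem (one_mem _) (mul_mem (two_mem _) ha))
            (mul_mem t2 (mul_mem (two_mem _) hb)))), ?_, ?_⟩
      · rw [show 2 * (j + 1) = 2 * j + 1 + 1 by ring]; simp only [ab, h1, h2]; ring
      · rw [show 2 * (j + 1) = 2 * j + 1 + 1 by ring]; simp only [ab, h1, h2]; ring

theorem beta_val (u : ℕ) (hu : u % 2 = 1) : ∀ e : ℕ, ∃ i : ℕ, ∃ l ∈ Lam,
    (ab (2 ^ e * u)).2 = 2 ^ e * (t ^ i + 2 * l)
  | 0 => by
      obtain ⟨j, rfl⟩ : ∃ j, u = 2 * j + 1 := ⟨u / 2, by omega⟩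
      obtain ⟨a, ha, b, hb, h1, h2⟩ := ab_par j
      refine ⟨0, a + 2 * t * b, add_mem ha (mul_mem (mul_mem (two_mem _) t_mem) hb), ?_⟩
      rw [pow_zero, one_mul]; simp only [ab, h1, h2]; ring
  | e + 1 => by
      obtain ⟨i, l, hl, h⟩ := beta_val u hu e
      have h2 := (ab_add (2 ^ e * u) (2 ^ e * u)).2
      rw [show 2 ^ e * u + 2 ^ e * u = 2 ^ (e + 1) * u by ring] at h2
      have hT : ∃ i' : ℕ, ∃ l' ∈ Lam,
          (ab (2 ^ e * u)).1 + t * (ab (2 ^ e * u)).2 = t ^ i' + 2 * l' := by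
        rcases Nat.even_or_odd' (2 ^ e * u) with ⟨j, hj | hj⟩
        · obtain ⟨a, ha, b, hb, h1, h2⟩ := ab_par j
          exact ⟨0, a + t * b, add_mem ha (mul_mem t_mem hb), by rw [hj, h1, h2]; ring⟩
        · obtain ⟨a, ha, b, hb, h1, h2⟩ := ab_par j
          refine ⟨1, -b + t * (a + 2 * t * b), add_mem (neg_mem hb) (mul_mem t_mem
            (add_mem ha (mul_mem (mul_mem (two_mem _) t_mem) hb))), ?_⟩
          rw [hj]; simp only [ab, h1, h2]; ring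
      obtain ⟨i', l', hl', h3⟩ := hT
      refine ⟨i + i', t ^ i * l' + l * t ^ i' + 2 * (l * l'), add_mem (add_mem
        (mul_mem (pow_mem t_mem _) hl') (mul_mem hl (pow_mem t_mem _)))
          (mul_mem (two_mem _) (mul_mem hl hl')), ?_⟩
      have h4 : (ab (2 ^ (e + 1) * u)).2 =
          2 * (ab (2 ^ e * u)).2 * ((ab (2 ^ e * u)).1 + t * (ab (2 ^ e * u)).2) := by
        rw [h2]; ring
      rw [h4, h3, h]; ring

theorem U0_even (k : ℕ) : U 2 0 (t ^ (2 * k)) = 1 + 2 * s * (ab k).2 ^ 2 := by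
  obtain ⟨h1, h2⟩ := ab_add k k
  rw [ab_pow, U0_pair, two_mul k, h1, h2, s]
  linear_combination ab_norm k

theorem diff_eq (m n j : ℕ) (h : n < 2 ^ j) :
    c m (4 * n) - c m n = coeff n ((U 2 0 (U 2 0 (t ^ m) * t ^ m) - 1) * H j ^ m) := by
  have h1 : 4 * n < 2 ^ (j + 1 + 1) := by rw [pow_succ, pow_succ]; omega
  have a := step (j + 1) m 0 (2 * n) (by norm_num) 1
  have b := step j m 0 n (by norm_num) (U 2 0 (1 * t ^ m))
  rw [add_zero] at b
  rw [show 2 * (2 * n) + 0 = 4 * n by ring, b, one_mul, one_mul] at a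
  rw [c_eq m _ _ h1, c_eq m _ _ h, a, sub_mul, one_mul, map_sub]

theorem odd_decomp {n : ℕ} (hn : n ≠ 0) : ∃ q, n = 2 ^ v n * (2 * q + 1) ∧
    n < 2 ^ (n + 1 + v n) := by
  obtain ⟨u, hu, h⟩ := decomp hn
  refine ⟨u / 2, ?_, (lt_pow_succ n).trans_le (Nat.pow_le_pow_right (by norm_num) (by omega))⟩
  rw [show 2 * (u / 2) + 1 = u by omega]; exact h

theorem q1 (k n : ℕ) (hk : k ≠ 0) (hn : n ≠ 0) :
    Val (c (2 * k) (4 * n) - c (2 * k) n) (v n + 2 * v k + 3) := by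
  obtain ⟨q, hq, hlt⟩ := odd_decomp hn
  obtain ⟨u, hu, hku⟩ := decomp hk
  obtain ⟨i, l, hl, hb⟩ := beta_val u hu (v k)
  rw [← hku] at hb
  have hg : (t ^ i + 2 * l) ∈ Lam := add_mem (pow_mem t_mem _) (mul_mem (two_mem _) hl)
  obtain ⟨a, ha, b, hb', hab⟩ : (t ^ i + 2 * l) ^ 2 * t ^ (2 * k) ∈ MM :=
    mul_mem (Lam_le (pow_mem hg 2)) (pow_mem t_MM _)
  have e : U 2 0 (U 2 0 (t ^ (2 * k)) * t ^ (2 * k)) - 1 =
      2 ^ (2 * v k + 1) * s * ((t ^ i + 2 * l) ^ 2 + 2 * (a + 2 * t * b)) := by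
    rw [U0_even, hb, show (1 + 2 * s * (2 ^ v k * (t ^ i + 2 * l)) ^ 2) * t ^ (2 * k) =
      t ^ (2 * k) + 2 ^ (2 * v k + 1) * (s * ((t ^ i + 2 * l) ^ 2 * t ^ (2 * k))) by ring,
      U_add, U_mulc, hab, U0_s, U0_even, hb]
    ring
  have ho : Odd1 ((t ^ i + 2 * l) ^ 2 + 2 * (a + 2 * t * b)) := by
    obtain ⟨G, hG, h⟩ := odd1_pow i
    refine ⟨G + 2 * (t ^ i * l) + 2 * l ^ 2 + (a + 2 * t * b), add_mem (add_mem (add_mem hG
      (Lam_le (mul_mem (two_mem _) (mul_mem (pow_mem t_mem _) hl))))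
      (Lam_le (mul_mem (two_mem _) (pow_mem hl 2))))
      (Lam_le (add_mem ha (mul_mem (mul_mem (two_mem _) t_mem) hb'))), ?_⟩
    linear_combination h
  have := val_iter k n q (v n) (2 * v k + 1) _ ho
  rw [← hq, ← e, ← diff_eq _ _ _ hlt] at this
  convert this using 1; ring

def red : List ℤ → List ℤ × List ℤ
  | [] => ([], [])
  | x :: l => (lsub [x] (red l).2, ladd (red l).1 (0 :: (red l).2.map (fun y => 2 * y)))

theorem red_eq : ∀ l : List ℤ, evG t l = E (evG t (red l).1) + E (evG t (red l).2) * t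
  | [] => by simp [red, evG]
  | x :: l => by
      rw [evG, red_eq l]
      simp only [red, evG_sub, evG_add, evG, evG_smul, map_add, map_sub, map_mul, expand_C,
        map_zero, map_ofNat]
      linear_combination (E (evG t (red l).2)) * t_sq

def u0 (l : List ℤ) : List ℤ := ladd (red l).1 (0 :: (red l).2)

theorem U0_ev (l : List ℤ) : U 2 0 (evG t l) = evG t (u0 l) := by
  rw [red_eq, U0_pair, u0, evG_add]; simp only [evG, map_zero]; ring

def t15 : List ℤ := [0, 0, 0, 0, 0, 0, 0, 0, 0, 0, 0, 0, 0, 0, 0, 1]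

theorem ev_t15 : evG t t15 = t ^ 15 := by simp [evG, t15]; ring

def P15 : List ℤ := 
  [8619, 0, -2839956, 0, 158035344, 0, -3516980016, 0, 41369873664, 0, -294706696704, 0,
  1372936897536, 0, -4376905104384, 0, 9793323073536, 0, -15533171277824, 0, 17384492498944, 0,
  -13428416577536, 0, 6813965615104, 0, -2044404432896, 0, 274877906944]

theorem chk15 : (lsub (lsub (u0 (lmul (u0 t15) t15)) [1])
    ((lmul [-1, 0, 1] P15).map (fun y => 32 * y))).all (fun x => x == 0) = true := by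
  decide +kernel

theorem q2 (n : ℕ) (hn : n ≠ 0) : (2 : ℤ) ^ (v n + 7) ∣ c 15 (4 * n) - c 15 n := by
  obtain ⟨q, hq, hlt⟩ := odd_decomp hn
  have h := evG_zero t _ chk15
  rw [evG_sub, evG_sub, evG_smul, evG_mul, ← U0_ev, evG_mul, ← U0_ev, ev_t15] at h
  have e : U 2 0 (U 2 0 (t ^ 15) * t ^ 15) - 1 = 2 ^ 5 * s * evG t P15 := by
    simp only [evG, map_neg, map_one, map_zero, map_ofNat] at h
    rw [s]; linear_combination h
  have := dvd_iter 15 n q (v n) 5 _ (evG_mem Lam t t_mem P15)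
  rw [← hq, ← e, ← diff_eq _ _ _ hlt] at this
  convert this using 2; ring

end Pool.Agent.H17.U2
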