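import Pool.Agent.H17.U2b

set_option autoImplicit false

namespace Pool.Agent.H17.U2
open PowerSeries
open Pool.Agent.H17.S4 (ladd lmul lpow w w_mul Ew_mul c_num v v_odd v_two_mul decomp Val)

noncomputable def y : ℤ⟦X⟧ := X * w

theorem t_y : t = 1 + 2 * y := t_two

theorem w_y : w = 1 + y := by rw [y]; linear_combination w_mul

theorem y_split : y = E y + E w * X := by
  have h : E y = X ^ 2 * E w := by simp [y, expand_X]
  rw [h, y]; nth_rw 1 [w_eq]; ring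

theorem y_sq : y ^ 2 = E y * (1 + 2 * y) := by
  have h : E y = X ^ 2 * E w := by simp [y, expand_X]
  rw [← t_y, h, t, y]
  linear_combination (X ^ 2 * w) * w_eq

def redy : List ℤ → List ℤ × List ℤ
  | [] => ([], [])
  | x :: l => (x :: (redy l).2, ladd (redy l).1 (0 :: (redy l).2.map (fun y => 2 * y)))

theorem redy_eq : ∀ l : List ℤ, evG y l = E (evG y (redy l).1) + E (evG y (redy l).2) * y
  | [] => by simp [redy, evG]
  | x :: l => by
      rw [evG, redy_eq l]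
      simp only [redy, evG_add, evG, evG_smul, map_add, map_mul, expand_C,
        map_zero, map_ofNat]
      linear_combination (E (evG y (redy l).2)) * y_sq

theorem Uy (a b : ℤ⟦X⟧) : U 2 0 (E a + E b * y) = a + y * b ∧
    U 2 1 (E a + E b * y) = (1 + y) * b := by
  have : E a + E b * y = E (a + b * y) + E (b * w) * X := by
    simp only [map_add, map_mul]; nth_rw 1 [y_split]; ring
  rw [this, U_split 0 (by norm_num), U_split 1 (by norm_num), U0_one, U0_X, U1_one, U1_X, ← w_y]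
  constructor <;> ring

def uy (d : ℕ) (l : List ℤ) : List ℤ :=
  if d = 0 then ladd (redy l).1 (0 :: (redy l).2) else lmul [1, 1] (redy l).2

theorem U_evy (d : ℕ) (hd : d < 2) (l : List ℤ) : U 2 d (evG y l) = evG y (uy d l) := by
  rw [redy_eq]
  interval_cases d
  · rw [(Uy _ _).1]; simp [uy, evG_add, evG]
  · rw [(Uy _ _).2]; simp [uy, evG_mul, evG]

def N3 : List (List ℤ) :=
  [[1], [1, 18, 48, 32], [6, 38, 0, 32], [24, 8, 48], [6, 54, 16, 32], [10, 58, 16, 32], [24, 24],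
   [26, 10, 16, 32], [10, 26, 48, 32], [54, 6, 48, 32], [40, 40], [26, 42, 48, 32],
   [38, 54, 48, 32], [22, 38, 48, 32], [54, 38, 16, 32], [6, 22, 48, 32], [38, 22, 16, 32],
   [22, 6, 16, 32], [42, 26, 16, 32], [58, 42, 16, 32], [42, 58, 48, 32], [58, 10, 48, 32]]

def tr3 : List (ℕ × ℕ) :=
  [(1, 2), (0, 3), (4, 5), (6, 6), (4, 7), (8, 9), (6, 10), (11, 12), (8, 13), (14, 5), (10, 6),
   (11, 15), (16, 7), (17, 18), (14, 18), (4, 19), (16, 19), (17, 5), (20, 13), (21, 15), (20, 9),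
   (21, 12)]

def nx (q d : ℕ) : ℕ := if d = 0 then (tr3.getD q (0, 0)).1 else (tr3.getD q (0, 0)).2

def good (z : ℤ) : Prop := z % 16 = 6 ∨ z % 16 = 10 ∨ z % 64 = 24 ∨ z % 64 = 40

instance (z : ℤ) : Decidable (good z) := by unfold good; infer_instance

theorem chk3 : ∀ q < 22, ∀ d < 2, nx q d < 22 ∧ ((2 ≤ q ∨ d = 1) → 2 ≤ nx q d) ∧
    (lsub (uy d (lmul (N3.getD q []) [1, 6, 12, 8])) (N3.getD (nx q d) [])).all
      (fun x => x % 64 == 0) = true ∧ (2 ≤ q → good ((N3.getD q []).headD 0)) := by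
  decide +kernel

theorem c3_aux : ∀ (j q n : ℕ) (K : ℤ⟦X⟧), q < 22 → n < 2 ^ j → (2 ≤ q ∨ n ≠ 0) →
    good (coeff n ((evG y (N3.getD q []) + C 64 * K) * H j ^ 3))
  | 0, q, n, K, hq, hn, h => by
      obtain rfl : n = 0 := by simpa using hn
      have h2 : 2 ≤ q := by simpa using h
      have hg := (chk3 q hq 0 (by norm_num)).2.2.2 h2
      have e : coeff 0 (evG y (N3.getD q [])) = (N3.getD q []).headD 0 := by
        cases N3.getD q [] <;> simp [evG, y]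
      simp only [H, one_pow, mul_one, map_add, coeff_C_mul, e]
      unfold good at *; omega
  | j + 1, q, n, K, hq, hn, h => by
      have hd : n % 2 < 2 := Nat.mod_lt _ (by norm_num)
      obtain ⟨h1, h2, h3, -⟩ := chk3 q hq (n % 2) hd
      have e3 : t ^ 3 = evG y [1, 6, 12, 8] := by simp [evG, t_y]; ring
      have h4 := evG_dvd y 64 _ h3
      rw [evG_sub, ← U_evy _ hd, evG_mul, ← e3] at h4
      rw [← Nat.div_add_mod n 2, step j 3 _ _ hd, add_mul, U_add, mul_assoc, U_C,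
        sub_eq_iff_eq_add'.1 h4, add_assoc, ← mul_add]
      refine c3_aux j _ _ _ h1 (by rw [pow_succ] at hn; omega) ?_
      by_cases h5 : 2 ≤ q ∨ n % 2 = 1
      · exact Or.inl (h2 h5)
      · right; omega

theorem c3_good (n : ℕ) (hn : n ≠ 0) : good (c 3 n) := by
  have := c3_aux (n + 1) 0 n 0 (by norm_num) (lt_pow_succ n) (Or.inr hn)
  rw [c_eq 3 n _ (lt_pow_succ n)]
  simpa [N3, evG] using this

/-! ### binary partitions with `2 ^ m` colours -/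

noncomputable def L (M : ℕ) (A : ℤ⟦X⟧) : ℤ⟦X⟧ := U 2 0 (A * t ^ M)

theorem L_iter (M j n : ℕ) : ∀ (r : ℕ) (A : ℤ⟦X⟧),
    coeff (2 ^ r * n) (A * H (j + r) ^ M) = coeff n ((L M)^[r] A * H j ^ M)
  | 0, A => by simp
  | r + 1, A => by
      rw [show 2 ^ (r + 1) * n = 2 * (2 ^ r * n) + 0 by ring, ← add_assoc j r 1,
        step (j + r) M 0 _ (by norm_num), L_iter M j n r]
      rfl

theorem U_iter (n : ℕ) : ∀ (r : ℕ) (A : ℤ⟦X⟧), coeff n ((U 2 0)^[r] A) = coeff (2 ^ r * n) A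
  | 0, A => by simp
  | r + 1, A => by
      rw [Function.iterate_succ_apply, U_iter n r, coeff_U]; congr 2; ring

noncomputable def tau : ℤ⟦X⟧ := 2 * E t - t

theorem tau_MM : tau ∈ MM := sub_mem (mul_mem (two_mem _) (E_MM t_mem)) t_MM

theorem t_tau : t * tau = 1 := by rw [tau]; linear_combination -t_sq

theorem v_t : (1 - X) * t = 1 + X := by rw [t]; linear_combination (1 + X) * w_mul

theorem v_sq : (1 - X : ℤ⟦X⟧) ^ 2 = E (1 - X) * tau := by
  simp only [map_sub, map_one, expand_X]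
  linear_combination (-(1 - X) ^ 2) * t_tau + ((1 - X) * tau) * v_t

theorem t_pow_two_pow : ∀ m : ℕ, ∃ G ∈ MM, t ^ 2 ^ (m + 1) = 1 + 2 ^ (m + 1) * G
  | 0 => by
      obtain ⟨G, hG, h⟩ := odd1_sq
      exact ⟨G, hG, by simpa using h⟩
  | m + 1 => by
      obtain ⟨G, hG, h⟩ := t_pow_two_pow m
      refine ⟨G + 2 ^ m * G ^ 2, add_mem hG (mul_mem (pow_mem (two_mem _) _) (pow_mem hG 2)), ?_⟩
      rw [pow_succ 2 (m + 1), pow_mul, h]; ring

theorem phase1 (m : ℕ) : ∀ i e : ℕ, i + e = m + 1 → ∃ B ∈ Lam, ∃ B' ∈ Lam,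
    (L (2 ^ (m + 1)))^[i] ((1 - X) ^ 2 ^ (m + 1)) = (1 - X) ^ 2 ^ e * (B' + 2 ^ (m + 1) * B) ∧
    (U 2 0)^[i] ((1 - X) ^ 2 ^ (m + 1)) = (1 - X) ^ 2 ^ e * B'
  | 0, e, h => by
      obtain rfl : e = m + 1 := by omega
      exact ⟨0, zero_mem _, 1, one_mem _, by simp, by simp⟩
  | i + 1, e, h => by
      obtain ⟨B, hB, B', hB', h1, h2⟩ := phase1 m i (e + 1) (by omega)
      obtain ⟨G, hG, hM⟩ := t_pow_two_pow m
      have hv : (1 - X : ℤ⟦X⟧) ^ 2 ^ (e + 1) = E ((1 - X) ^ 2 ^ e) * tau ^ 2 ^ e := by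
        rw [pow_succ' 2 e, pow_mul, v_sq, mul_pow, map_pow]
      have ht := pow_mem tau_MM (2 ^ e)
      refine ⟨U 2 0 (tau ^ 2 ^ e * (B * t ^ 2 ^ (m + 1) + B' * G)), U0_mem (mul_mem ht
        (add_mem (mul_mem (Lam_le hB) (pow_mem t_MM _)) (mul_mem (Lam_le hB') hG))),
        U 2 0 (tau ^ 2 ^ e * B'), U0_mem (mul_mem ht (Lam_le hB')), ?_, ?_⟩
      · rw [Function.iterate_succ_apply', h1, L, hv, ← U_mulc, ← U_add,
          ← U_expand 2 0 (by norm_num) (by norm_num)]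
        congr 1
        linear_combination (E ((1 - X) ^ 2 ^ e) * tau ^ 2 ^ e * B') * hM
      · rw [Function.iterate_succ_apply', h2, hv, ← U_expand 2 0 (by norm_num) (by norm_num),
          mul_assoc]

theorem U0_v {G : ℤ⟦X⟧} (hG : G ∈ MM) : U 2 0 ((1 - X) * G) ∈ Lam := by
  obtain ⟨a, ha, b, hb, h⟩ := mul_mem tau_MM hG
  have e : (1 - X) * G = E (a + b * t + 2 * y * b) + E (a + b * t + 2 * w * b) * X := by
    have h1 : (1 - X) * G = (1 + X) * (tau * G) := by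
      linear_combination (-(1 - X) * G) * t_tau + (tau * G) * v_t
    have h2 : E y = X ^ 2 * E w := by simp [y, expand_X]
    rw [h1, h]
    simp only [map_add, map_mul, map_ofNat, h2]
    nth_rw 1 [t_eq]; ring
  rw [e, U_split 0 (by norm_num), U0_one, U0_X, mul_one, mul_zero, add_zero,
    show 2 * y = t - 1 by rw [t_y]; ring]
  exact add_mem (add_mem ha (mul_mem hb t_mem)) (mul_mem (sub_mem t_mem (one_mem _)) hb)

theorem coeff_v : ∀ M N : ℕ, M < N → coeff N ((1 - X : ℤ⟦X⟧) ^ M) = 0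
  | 0, N, h => by rw [pow_zero, coeff_one, if_neg (by omega)]
  | M + 1, N, h => by
      obtain ⟨N, rfl⟩ : ∃ k, N = k + 1 := ⟨N - 1, by omega⟩
      rw [pow_succ', sub_mul, one_mul, map_sub, coeff_succ_X_mul, coeff_v M _ (by omega),
        coeff_v M _ (by omega), sub_zero]

theorem phase2 (m : ℕ) : ∃ P ∈ Lam,
    (L (2 ^ (m + 1)))^[m + 2] ((1 - X) ^ 2 ^ (m + 1)) = 1 + 2 ^ (m + 1) * P := by
  obtain ⟨B, hB, B', hB', h1, h2⟩ := phase1 m (m + 1) 0 rfl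
  obtain ⟨G, hG, hM⟩ := t_pow_two_pow m
  have h3 : U 2 0 ((1 - X) * B') = 1 := by
    have : (U 2 0)^[m + 2] ((1 - X) ^ 2 ^ (m + 1)) = 1 := by
      ext n
      rw [U_iter, coeff_one]
      split_ifs with hn
      · subst hn; simp
      · refine coeff_v _ _ ?_
        have : 2 ^ (m + 2) * 1 ≤ 2 ^ (m + 2) * n := Nat.mul_le_mul_left _ (by omega)
        have h0 : 0 < 2 ^ (m + 1) := by positivity
        rw [pow_succ 2 (m + 1)] at this ⊢; omega
    rw [Function.iterate_succ_apply', h2] at this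
    simpa using this
  refine ⟨U 2 0 ((1 - X) * (B * t ^ 2 ^ (m + 1) + B' * G)), U0_v
    (add_mem (mul_mem (Lam_le hB) (pow_mem t_MM _)) (mul_mem (Lam_le hB') hG)), ?_⟩
  have e : (1 - X) ^ 2 ^ 0 * (B' + 2 ^ (m + 1) * B) * t ^ 2 ^ (m + 1) = (1 - X) * B' +
      2 ^ (m + 1) * ((1 - X) * (B * t ^ 2 ^ (m + 1) + B' * G)) := by
    linear_combination ((1 - X) * B') * hM
  rw [Function.iterate_succ_apply', h1, L, e, U_add, U_mulc, h3]

theorem U0_s_mem {F : ℤ⟦X⟧} (h : F ∈ MM) : ∃ P ∈ Lam, U 2 0 (s * F) = 2 * s * P := by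
  obtain ⟨a, ha, b, hb, rfl⟩ := h
  exact ⟨_, add_mem ha (mul_mem (mul_mem (two_mem _) t_mem) hb), U0_s a b⟩

theorem U0_pow (i : ℕ) : ∀ k, ∃ P ∈ Lam, U 2 0 (t ^ (i + 2 * k)) = U 2 0 (t ^ i) + s * P
  | 0 => ⟨0, zero_mem _, by simp⟩
  | k + 1 => by
      obtain ⟨P, hP, h⟩ := U0_pow i k
      obtain ⟨P', hP', h'⟩ := U0_s_mem (pow_mem t_MM (i + 2 * k))
      refine ⟨P + 2 * P', add_mem hP (mul_mem (two_mem _) hP'), ?_⟩
      rw [show t ^ (i + 2 * (k + 1)) = t ^ (i + 2 * k) + s * t ^ (i + 2 * k) by rw [s]; ring,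
        U_add, h, h']; ring

theorem Lam_dec {P : ℤ⟦X⟧} (h : P ∈ Lam) : ∃ a b : ℤ, ∃ P' ∈ Lam, P = C a + C b * t + s * P' := by
  induction h using Subring.closure_induction with
  | mem x hx => obtain rfl : x = t := hx; exact ⟨0, 1, 0, zero_mem _, by simp⟩
  | zero => exact ⟨0, 0, 0, zero_mem _, by simp⟩
  | one => exact ⟨1, 0, 0, zero_mem _, by simp⟩
  | add x y _ _ hx hy =>
    obtain ⟨a, b, P, hP, rfl⟩ := hx
    obtain ⟨a', b', P', hP', rfl⟩ := hy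
    exact ⟨a + a', b + b', P + P', add_mem hP hP', by simp only [map_add]; ring⟩
  | neg x _ hx =>
    obtain ⟨a, b, P, hP, rfl⟩ := hx
    exact ⟨-a, -b, -P, neg_mem hP, by simp only [map_neg]; ring⟩
  | mul x y hx' hy' hx hy =>
    obtain ⟨a, b, P, hP, h1⟩ := hx
    obtain ⟨a', b', P', hP', h2⟩ := hy
    have hC : ∀ z : ℤ, (C z : ℤ⟦X⟧) ∈ Lam := fun z => by
      rw [eq_intCast]; exact intCast_mem _ z
    refine ⟨a * a' + b * b', a * b' + b * a', C b * C b' + P * y + (C a + C b * t) * P',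
      add_mem (add_mem (mul_mem (hC _) (hC _)) (mul_mem hP hy'))
        (mul_mem (add_mem (hC _) (mul_mem (hC _) t_mem)) hP'), ?_⟩
    simp only [map_add, map_mul]
    have hs : s = t ^ 2 - 1 := rfl
    linear_combination y * h1 + (C a + C b * t) * h2 - (C b * C b') * hs

theorem L_sub (k : ℕ) {P : ℤ⟦X⟧} (h : P ∈ Lam) : ∃ P' ∈ Lam, L (2 * k) P = P + s * P' := by
  obtain ⟨a, b, Q, hQ, rfl⟩ := Lam_dec h
  obtain ⟨P0, h0, e0⟩ := U0_pow 0 k
  obtain ⟨P1, h1, e1⟩ := U0_pow 1 k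
  obtain ⟨P2, h2, e2⟩ := U0_s_mem (mul_mem (Lam_le hQ) (pow_mem t_MM (2 * k)))
  have hC : ∀ z : ℤ, (C z : ℤ⟦X⟧) ∈ Lam := fun z => by
    rw [eq_intCast]; exact intCast_mem _ z
  have ht : U 2 0 t = t := by simpa using U0_pair 0 1
  rw [zero_add, pow_zero, U0_one] at e0
  rw [pow_one, ht] at e1
  refine ⟨C a * P0 + C b * P1 + 2 * P2 - Q, sub_mem (add_mem (add_mem (mul_mem (hC _) h0)
    (mul_mem (hC _) h1)) (mul_mem (two_mem _) h2)) hQ, ?_⟩
  rw [L, show (C a + C b * t + s * Q) * t ^ (2 * k) = C a * t ^ (2 * k) + C b * t ^ (1 + 2 * k) +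
    s * (Q * t ^ (2 * k)) by ring, U_add, U_add, U_C, U_C, e0, e1, e2]
  ring

theorem L_add (M : ℕ) (A B : ℤ⟦X⟧) : L M (A + B) = L M A + L M B := by
  rw [L, add_mul, U_add]; rfl

theorem L_s (M e : ℕ) {P : ℤ⟦X⟧} (h : P ∈ Lam) :
    ∃ P' ∈ Lam, L M (2 ^ e * s * P) = 2 ^ (e + 1) * s * P' := by
  obtain ⟨P', hP', e'⟩ := U0_s_mem (mul_mem (Lam_le h) (pow_mem t_MM M))
  refine ⟨P', hP', ?_⟩
  rw [L, show 2 ^ e * s * P * t ^ M = 2 ^ e * (s * (P * t ^ M)) by ring, U_mulc, e']; ring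

theorem phase3 (m : ℕ) : ∀ r, ∃ P ∈ Lam,
    (L (2 ^ (m + 1)))^[m + 2 + r + 1] ((1 - X) ^ 2 ^ (m + 1)) =
      (L (2 ^ (m + 1)))^[m + 2 + r] ((1 - X) ^ 2 ^ (m + 1)) + 2 ^ (m + 1 + r) * s * P
  | 0 => by
      obtain ⟨P, hP, h⟩ := phase2 m
      obtain ⟨P', hP', h'⟩ := L_sub (2 ^ m) hP
      obtain ⟨i, l, hl, hb⟩ := beta_val 1 (by norm_num) m
      have h1 := U0_even (2 ^ m)
      rw [mul_one] at hb
      rw [← pow_succ'] at h' h1
      refine ⟨2 ^ m * (t ^ i + 2 * l) ^ 2 + P', add_mem (mul_mem (pow_mem (two_mem _) _)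
        (pow_mem (add_mem (pow_mem t_mem _) (mul_mem (two_mem _) hl)) 2)) hP', ?_⟩
      rw [add_zero, Function.iterate_succ_apply', h, L_add]
      have e : L (2 ^ (m + 1)) (2 ^ (m + 1) * P) = 2 ^ (m + 1) * L (2 ^ (m + 1)) P := by
        rw [L, L, mul_assoc, U_mulc]
      rw [e, h', L, one_mul, h1, hb]; ring
  | r + 1 => by
      obtain ⟨P, hP, h⟩ := phase3 m r
      obtain ⟨P', hP', h'⟩ := L_s (2 ^ (m + 1)) (m + 1 + r) hP
      refine ⟨P', hP', ?_⟩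
      rw [← add_assoc (m + 2) r 1, Function.iterate_succ_apply' _ (m + 2 + r + 1)]
      nth_rw 1 [h]
      rw [L_add, h', ← Function.iterate_succ_apply' (L (2 ^ (m + 1)))]
      rfl

noncomputable def b (m n : ℕ) : ℤ :=
  coeff n ((∏ i ∈ Finset.range (n + 1),
    mk (fun j : ℕ => if 2 ^ i ∣ j then (1 : ℤ) else 0)) ^ m)

theorem b_eq (m n j : ℕ) (h : n < 2 ^ j) : b m n = coeff n ((1 - X) ^ m * H j ^ m) := by
  rw [← coeff_prod _ m n j h, ← mul_assoc, ← mul_pow, mul_comm _ w, w_mul, one_pow, one_mul]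
  rfl

theorem s_four : s = 2 ^ 2 * (y * w) := by
  rw [s, t_y, w_y]; ring

theorem b_step (m r n : ℕ) : (2 : ℤ) ^ (m + 3 + r) ∣
    b (2 ^ (m + 1)) (2 ^ (m + 2 + r + 1) * n) - b (2 ^ (m + 1)) (2 ^ (m + 2 + r) * n) := by
  have hl : ∀ i, 2 ^ i * n < 2 ^ (n + 1 + i) := fun i => by
    rw [pow_add, mul_comm]; exact Nat.mul_lt_mul_of_pos_right (lt_pow_succ n) (by positivity)
  obtain ⟨P, -, h⟩ := phase3 m r
  rw [b_eq _ _ _ (hl _), b_eq _ _ _ (hl _), L_iter, L_iter, h, add_mul, map_add,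
    add_sub_cancel_left, s_four, show 2 ^ (m + 1 + r) * (2 ^ 2 * (y * w)) * P * H (n + 1) ^
      2 ^ (m + 1) = 2 ^ (m + 3 + r) * (y * w * P * H (n + 1) ^ 2 ^ (m + 1)) by ring, coeff_mulc]
  exact dvd_mul_right _ _

end Pool.Agent.H17.U2
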