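import Pool.Agent.H17.U2

set_option autoImplicit false

namespace Pool.Agent.H17.U3
open PowerSeries
open Pool.Agent.H17.S4 (ladd lmul lpow w w_mul Ew_mul c_num)
open Pool.Agent.H17.U2 (evG evG_add evG_smul evG_mul evG_pow evG_mem lsub evG_sub evG_zero U U_add
  U_C coeff_U U_expand coeff_congr)

noncomputable abbrev E : ℤ⟦X⟧ →ₐ[ℤ] ℤ⟦X⟧ := expand 3 (by norm_num)

theorem Ew : E w * (1 - X ^ 3) = 1 := Ew_mul 3 (by norm_num)

theorem w_eq : w = (1 + X + X ^ 2) * E w := by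
  linear_combination (-w) * Ew + ((1 + X + X ^ 2) * E w) * w_mul

noncomputable def be : ℤ⟦X⟧ := 3 * X * w ^ 2

theorem E_be : E be = 3 * X ^ 3 * E w ^ 2 := by
  simp only [be, map_mul, map_pow, expand_X, map_ofNat]

theorem Q_eq : 1 + be = (1 + X + X ^ 2) * w ^ 2 := by
  rw [be]; linear_combination (-(w * (1 - X) + 1)) * w_mul

theorem be_cube : be ^ 3 = 9 * E be * (1 + be) ^ 2 := by
  rw [Q_eq, E_be, be]
  linear_combination (27 * X ^ 3 * w ^ 4 * (w + (1 + X + X ^ 2) * E w)) * w_eq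

theorem U0_split (a b c : ℤ⟦X⟧) : U 3 0 (E a + E b * X + E c * X ^ 2) = a := by
  have h1 : U 3 0 1 = 1 := by
    ext n; rw [coeff_U, coeff_one, coeff_one]; simp
  have h2 : U 3 0 X = 0 := by
    ext n; rw [coeff_U, coeff_X, if_neg (by omega)]; simp
  have h3 : U 3 0 (X ^ 2) = 0 := by
    ext n; rw [coeff_U, coeff_X_pow, if_neg (by omega)]; simp
  rw [U_add, U_add, ← mul_one (E a), U_expand 3 0 (by norm_num) (by norm_num),
    U_expand 3 0 (by norm_num) (by norm_num), U_expand 3 0 (by norm_num) (by norm_num), h1, h2, h3]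
  ring

theorem U0_be : U 3 0 be = 3 * be := by
  have : be = E (9 * X * w ^ 2) + E ((3 + 6 * X) * w ^ 2) * X + E ((6 + 3 * X) * w ^ 2) * X ^ 2 := by
    simp only [map_mul, map_add, map_pow, map_ofNat, expand_X]
    rw [be]; nth_rw 1 [w_eq]; ring
  nth_rw 1 [this]; rw [U0_split, be]; ring

theorem U0_be2 : U 3 0 (be ^ 2) = 12 * be + 27 * be ^ 2 := by
  have : be ^ 2 = E (9 * (4 * X + 19 * X ^ 2 + 4 * X ^ 3) * w ^ 4) +
      E (9 * (10 * X + 16 * X ^ 2 + X ^ 3) * w ^ 4) * X +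
      E (9 * (1 + 16 * X + 10 * X ^ 2) * w ^ 4) * X ^ 2 := by
    simp only [map_mul, map_add, map_pow, map_ofNat, map_one, expand_X]
    rw [be]; nth_rw 1 [w_eq]; ring
  rw [this, U0_split, ← this, be]
  linear_combination (36 * X * w ^ 2 * (w * (1 - X) + 1)) * w_mul

theorem U0_tri (a b c : ℤ⟦X⟧) :
    U 3 0 (E a + E b * be + E c * be ^ 2) = a + b * (3 * be) + c * (12 * be + 27 * be ^ 2) := by
  have h1 : U 3 0 (E a) = a := by simpa using U0_split a 0 0
  rw [U_add, U_add, h1, U_expand 3 0 (by norm_num) (by norm_num),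
    U_expand 3 0 (by norm_num) (by norm_num), U0_be, U0_be2]

noncomputable def Lam : Subring ℤ⟦X⟧ := Subring.closure {be}

theorem be_mem : be ∈ Lam := Subring.subset_closure rfl

theorem num_mem (a : ℕ) [a.AtLeastTwo] : (OfNat.ofNat a : ℤ⟦X⟧) ∈ Lam := ofNat_mem _ a

def M (F : ℤ⟦X⟧) : Prop := ∃ a ∈ Lam, ∃ b ∈ Lam, ∃ c ∈ Lam, F = E a + E b * be + E c * be ^ 2

theorem M_mul {P : ℤ⟦X⟧} (h : P ∈ Lam) : ∀ F, M F → M (P * F) := by
  induction h using Subring.closure_induction with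
  | mem x hx =>
    obtain rfl : x = be := hx
    rintro _ ⟨a, ha, b, hb, c, hc, rfl⟩
    have h9 := mul_mem (mul_mem (num_mem 9) be_mem) hc
    refine ⟨9 * be * c, h9, a + 2 * (9 * be * c), add_mem ha (mul_mem (num_mem 2) h9),
      b + 9 * be * c, add_mem hb h9, ?_⟩
    simp only [map_add, map_mul, map_ofNat]
    linear_combination (E c) * be_cube
  | zero => intro F _; exact ⟨0, zero_mem _, 0, zero_mem _, 0, zero_mem _, by simp⟩
  | one => intro F h; rwa [one_mul]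
  | add x y _ _ hx hy =>
    intro F h
    obtain ⟨a, ha, b, hb, c, hc, e⟩ := hx F h
    obtain ⟨a', ha', b', hb', c', hc', e'⟩ := hy F h
    exact ⟨a + a', add_mem ha ha', b + b', add_mem hb hb', c + c', add_mem hc hc', by
      rw [add_mul, e, e']; simp only [map_add]; ring⟩
  | neg x _ hx =>
    intro F h
    obtain ⟨a, ha, b, hb, c, hc, e⟩ := hx F h
    exact ⟨-a, neg_mem ha, -b, neg_mem hb, -c, neg_mem hc, by
      rw [neg_mul, e]; simp only [map_neg]; ring⟩
  | mul x y _ _ hx hy => intro F h; rw [mul_assoc]; exact hx _ (hy F h)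

theorem U0_be_mul {P : ℤ⟦X⟧} (h : P ∈ Lam) : ∃ P' ∈ Lam, U 3 0 (be * P) = 3 * be * P' := by
  obtain ⟨a, ha, b, hb, c, hc, e⟩ :=
    M_mul h 1 ⟨1, one_mem _, 0, zero_mem _, 0, zero_mem _, by simp⟩
  rw [mul_one] at e
  refine ⟨a + b * (4 + 9 * be) + 3 * c * (1 + 18 * be + 27 * be ^ 2), add_mem (add_mem ha
    (mul_mem hb (add_mem (num_mem 4) (mul_mem (num_mem 9) be_mem))))
    (mul_mem (mul_mem (num_mem 3) hc) (add_mem (add_mem (one_mem _) (mul_mem (num_mem 18) be_mem))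
      (mul_mem (num_mem 27) (pow_mem be_mem 2)))), ?_⟩
  have : be * P = E (9 * be * c) + E (a + 2 * (9 * be * c)) * be + E (b + 9 * be * c) * be ^ 2 := by
    rw [e]; simp only [map_add, map_mul, map_ofNat]
    linear_combination (E c) * be_cube
  rw [this, U0_tri]; ring

noncomputable def H : ℕ → ℤ⟦X⟧
  | 0 => 1
  | j + 1 => (1 + be) * E (H j)

theorem step (j m n : ℕ) (A : ℤ⟦X⟧) :
    coeff (3 * n) (A * H (j + 1) ^ m) = coeff n (U 3 0 (A * (1 + be) ^ m) * H j ^ m) := by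
  rw [← add_zero (3 * n), ← coeff_U, mul_comm (U 3 0 _), ← U_expand 3 0 (by norm_num) (by norm_num),
    H, mul_pow, map_pow]
  congr 2; ring

noncomputable def g (i : ℕ) : ℤ⟦X⟧ := mk (fun j : ℕ => if 3 ^ i ∣ j then (1 : ℤ) else 0)

theorem g0 : g 0 = w := by
  ext n; simp [g, w]

theorem g_succ (i : ℕ) : g (i + 1) = E (g i) := by
  ext n
  rw [coeff_expand]
  simp only [g, coeff_mk]
  by_cases h : 3 ∣ n
  · obtain ⟨m, rfl⟩ := h
    simp only [dvd_mul_right, if_true, Nat.mul_div_cancel_left m (by norm_num : 0 < 3)]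
    have : 3 ^ (i + 1) ∣ 3 * m ↔ 3 ^ i ∣ m := by
      rw [pow_succ']; exact Nat.mul_dvd_mul_iff_left (by norm_num)
    simp [this]
  · have : ¬ 3 ^ (i + 1) ∣ n := fun h' => h (dvd_trans (dvd_pow_self 3 (by omega)) h')
    simp [h, this]

theorem F_H : ∀ j, w * (∏ i ∈ Finset.range j, g i) ^ 2 * (1 - X ^ 3 ^ j) = H j
  | 0 => by simpa [H] using w_mul
  | j + 1 => by
      have h := congrArg E (F_H j)
      simp only [map_mul, map_sub, map_one, map_pow, expand_X, map_prod] at h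
      rw [Finset.prod_range_succ', g0, H, ← h, Q_eq, pow_succ' 3 j, pow_mul]
      simp only [g_succ]
      generalize (∏ i ∈ Finset.range j, E (g i)) = p
      generalize (1 : ℤ⟦X⟧) - (X ^ 3) ^ 3 ^ j = d
      linear_combination (w ^ 2 * p ^ 2 * d) * w_eq

theorem H_succ_dvd : ∀ j, (X : ℤ⟦X⟧) ^ 3 ^ j ∣ H (j + 1) - H j
  | 0 => ⟨3 * w ^ 2, by simp only [H, map_one, mul_one, be]; ring⟩
  | j + 1 => by
      obtain ⟨K, hK⟩ := H_succ_dvd j
      have h := congrArg E hK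
      simp only [map_sub, map_mul, map_pow, expand_X] at h
      refine ⟨(1 + be) * E K, ?_⟩
      rw [pow_succ' 3 j, pow_mul]
      change (1 + be) * E (H (j + 1)) - (1 + be) * E (H j) = _
      linear_combination (1 + be) * h

theorem H_dvd (j i : ℕ) : (X : ℤ⟦X⟧) ^ 3 ^ j ∣ H (j + i) - H j := by
  induction i with
  | zero => simp
  | succ i ih =>
    have h := (pow_dvd_pow X (Nat.pow_le_pow_right (by norm_num : 0 < 3)
      (Nat.le_add_right j i))).trans (H_succ_dvd (j + i))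
    have := dvd_add h ih
    rwa [sub_add_sub_cancel] at this

theorem coeff_H (m n j j' : ℕ) (h : n < 3 ^ j) (h' : n < 3 ^ j') :
    coeff n (H j ^ m) = coeff n (H j' ^ m) := by
  wlog hle : j ≤ j' generalizing j j'
  · exact (this j' j h' h (by omega)).symm
  obtain ⟨i, rfl⟩ := Nat.exists_eq_add_of_le hle
  symm
  exact coeff_congr h ((H_dvd j i).trans (sub_dvd_pow_sub_pow _ _ m))

theorem lt_pow_succ (n : ℕ) : n < 3 ^ (n + 1) :=
  lt_trans (Nat.lt_pow_self (by norm_num)) (Nat.pow_lt_pow_right (by norm_num) (Nat.lt_succ_self n))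

noncomputable def d (m n : ℕ) : ℤ :=
  coeff n ((mk (fun _ : ℕ => (1 : ℤ))) ^ m * (∏ i ∈ Finset.range (n + 1),
    mk (fun j : ℕ => if 3 ^ i ∣ j then (1 : ℤ) else 0)) ^ ((3 - 1) * m))

theorem d_eq (m n j : ℕ) (h : n < 3 ^ j) : d m n = coeff n (H j ^ m) := by
  rw [coeff_H m n j (n + 1) h (lt_pow_succ n)]
  change coeff n (w ^ m * (∏ i ∈ Finset.range (n + 1), g i) ^ (2 * m)) = _
  refine coeff_congr (lt_pow_succ n) ?_
  rw [← F_H, pow_mul, ← mul_pow]
  refine Dvd.dvd.trans ?_ (sub_dvd_pow_sub_pow _ _ m)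
  exact ⟨w * (∏ i ∈ Finset.range (n + 1), g i) ^ 2, by ring⟩

theorem U_mulc (e : ℕ) (A : ℤ⟦X⟧) : U 3 0 (3 ^ e * A) = 3 ^ e * U 3 0 A := by
  have := U_C 3 0 (3 ^ e) A
  simpa using this

theorem dvd_iter (m j n : ℕ) : ∀ (r e : ℕ) (P : ℤ⟦X⟧), P ∈ Lam →
    (3 : ℤ) ^ (e + r + 1) ∣ coeff (3 ^ r * n) (3 ^ e * be * P * H (j + r) ^ m)
  | 0, e, P, _ => by
      have h := coeff_C_mul (3 ^ 0 * n) (X * w ^ 2 * P * H (j + 0) ^ m) ((3 : ℤ) ^ (e + 0 + 1))
      rw [show 3 ^ e * be * P * H (j + 0) ^ m = C ((3 : ℤ) ^ (e + 0 + 1)) *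
        (X * w ^ 2 * P * H (j + 0) ^ m) by rw [be]; simp only [map_pow, map_ofNat]; ring, h]
      exact dvd_mul_right _ _
  | r + 1, e, P, hP => by
      obtain ⟨P', hP', h⟩ := U0_be_mul (mul_mem hP (pow_mem (add_mem (one_mem _) be_mem) m))
      rw [show 3 ^ (r + 1) * n = 3 * (3 ^ r * n) by ring, ← add_assoc j r 1, step,
        show 3 ^ e * be * P * (1 + be) ^ m = 3 ^ e * (be * (P * (1 + be) ^ m)) by ring, U_mulc, h,
        show 3 ^ e * (3 * be * P') = 3 ^ (e + 1) * be * P' by ring,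
        show e + (r + 1) + 1 = e + 1 + r + 1 by ring]
      exact dvd_iter m j n r (e + 1) _ hP'

def red : List ℤ → List ℤ × List ℤ × List ℤ
  | [] => ([], [], [])
  | x :: l => (x :: (red l).2.2.map (fun y => 9 * y),
      ladd (red l).1 (0 :: (red l).2.2.map (fun y => 18 * y)),
      ladd (red l).2.1 (0 :: (red l).2.2.map (fun y => 9 * y)))

theorem red_eq : ∀ l : List ℤ, evG be l =
    E (evG be (red l).1) + E (evG be (red l).2.1) * be + E (evG be (red l).2.2) * be ^ 2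
  | [] => by simp [red, evG]
  | x :: l => by
      rw [evG, red_eq l]
      simp only [red, evG_add, evG, evG_smul, map_add, map_mul, expand_C, map_zero, map_ofNat]
      linear_combination (E (evG be (red l).2.2)) * be_cube

def u0 (l : List ℤ) : List ℤ :=
  ladd (ladd (red l).1 (lmul (red l).2.1 [0, 3])) (lmul (red l).2.2 [0, 12, 27])

theorem U0_ev (l : List ℤ) : U 3 0 (evG be l) = evG be (u0 l) := by
  rw [red_eq, U0_tri, u0, evG_add, evG_add, evG_mul, evG_mul]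
  simp only [evG, map_zero, map_ofNat]; ring

def P8 : List ℤ := 
  [444488, 2417892996, 1196323247232, 152510870911932, 7735611275359632, 196064370642144204,
  2839634585963768448, 25555797050514807708, 150726782884952152728, 601674721308281708028,
  1651257410631641283528, 3115889226857770200504, 3969174185907813693576, 3258854721568444915152,
  1556181178759286886528, 328256967394537077627]

theorem chk8 : (lsub (lsub (u0 (lmul (u0 (lpow [1, 1] 8)) (lpow [1, 1] 8))) [1])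
    ((0 :: P8).map (fun y => 27 * y))).all (fun x => x == 0) = true := by
  decide +kernel

theorem q2 (r n : ℕ) : (3 : ℤ) ^ (r + 4) ∣ d 8 (3 ^ 2 * (3 ^ r * n)) - d 8 (3 ^ r * n) := by
  have hl : 3 ^ r * n < 3 ^ (n + 1 + r) := by
    rw [pow_add, mul_comm]; exact Nat.mul_lt_mul_of_pos_right (lt_pow_succ n) (by positivity)
  have hl2 : 3 ^ 2 * (3 ^ r * n) < 3 ^ (n + 1 + r + 1 + 1) := by
    rw [pow_succ 3 (n + 1 + r + 1), pow_succ 3 (n + 1 + r)]; omega
  have h := evG_zero be _ chk8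
  have e1 : evG be [1, 1] = 1 + be := by simp [evG]
  rw [evG_sub, evG_sub, evG_smul, ← U0_ev, evG_mul, ← U0_ev, evG_pow, e1] at h
  have e : U 3 0 (U 3 0 ((1 + be) ^ 8) * (1 + be) ^ 8) = 1 + 3 ^ 3 * be * evG be P8 := by
    simp only [evG, map_one, map_zero, map_ofNat] at h
    linear_combination h
  have a := step (n + 1 + r + 1) 8 (3 * (3 ^ r * n)) 1
  rw [step (n + 1 + r) 8 (3 ^ r * n), one_mul, one_mul, e, show 3 * (3 * (3 ^ r * n)) = 3 ^ 2 * (3 ^ r * n) by ring] at a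
  rw [d_eq _ _ _ hl2, d_eq _ _ _ hl, a, add_mul, one_mul, map_add, add_sub_cancel_left]
  have := dvd_iter 8 (n + 1) n r 3 _ (evG_mem Lam be be_mem P8)
  rwa [show 3 + r + 1 = r + 4 by ring] at this

end Pool.Agent.H17.U3
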