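import Mathlib

set_option autoImplicit false

namespace Pool.Agent.H17.UM

open Finset Complex

abbrev Z5 := ZMod 5
abbrev W := Fin 4 → Z5

def dot (c y : W) : Z5 := ∑ j, c j * y j

def L : List (Z5 × Z5 × Z5 × Z5) :=
  [(1,0,0,0), (1,0,0,1), (1,0,0,2), (1,0,0,3), (1,0,1,0), (1,0,1,1), (1,0,1,4), (1,0,2,3),
    (1,0,2,4), (1,0,3,2), (0,1,0,0), (0,1,0,1), (0,1,1,0), (0,1,1,1), (0,1,2,0), (0,1,2,4),
    (0,1,3,1), (0,1,3,4), (0,1,4,1), (0,1,4,3), (1,1,0,0), (1,1,0,1), (1,1,1,0), (1,1,1,2),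
    (1,1,2,2), (1,1,2,3), (1,1,3,1), (1,1,3,4), (1,1,4,3), (1,1,4,4)]

def S : Finset (Z5 × Z5 × Z5 × Z5) := ⟨L, by decide +kernel⟩

def tw (P : Z5 × Z5 × Z5 × Z5) : W := ![P.1, P.2.1, P.2.2.1, P.2.2.2]

def e3 : W := ![0, 0, 1, 0]

def C : Finset W := (S ×ˢ ({1, 2, 3, 4} : Finset Z5)).image (fun p => p.2 • tw p.1) ∪ {e3, -e3}

def N (a b c d : Z5) : ℕ := #{P ∈ S | P.1 * a + P.2.1 * b + P.2.2.1 * c + P.2.2.2 * d = 0}

theorem hN : ∀ a b c d : Z5, (N a b c d : Z5) = a * c ^ 3 - b * d ^ 3 + N 0 0 c d := by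
  decide +kernel

theorem S1 : ∀ P ∈ S, ∀ k ∈ ({1, 2, 3, 4} : Finset Z5), k * P.1 ≠ 0 ∨ k * P.2.1 ≠ 0 := by
  decide +kernel

theorem C0 : (0 : W) ∉ C := by
  simp only [C, mem_union, mem_image, mem_product, not_or]
  refine ⟨?_, by decide⟩
  rintro ⟨p, ⟨h1, h2⟩, h⟩
  exact (S1 _ h1 _ h2).elim (fun e => e (congrFun h 0)) fun e => e (congrFun h 1)

theorem Cneg : ∀ c ∈ C, -c ∈ C := by
  intro c hc
  simp only [C, mem_union, mem_image, mem_product] at hc ⊢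
  rcases hc with ⟨p, ⟨h1, h2⟩, rfl⟩ | h
  · have : ∀ k ∈ ({1, 2, 3, 4} : Finset Z5), -k ∈ ({1, 2, 3, 4} : Finset Z5) := by decide
    exact Or.inl ⟨(p.1, -p.2), ⟨h1, this _ h2⟩, neg_smul _ _⟩
  · right
    simp only [mem_insert, mem_singleton] at h ⊢
    rcases h with rfl | rfl <;> simp

theorem S2 : ∀ P ∈ S, P.1 = 1 ∨ P.1 = 0 ∧ P.2.1 = 1 := by decide +kernel

theorem Cinj : ∀ p ∈ S ×ˢ ({1, 2, 3, 4} : Finset Z5), ∀ q ∈ S ×ˢ ({1, 2, 3, 4} : Finset Z5),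
    p.2 • tw p.1 = q.2 • tw q.1 → p = q := by
  rintro ⟨P, k⟩ hp ⟨Q, l⟩ hq h
  rw [mem_product] at hp hq
  have k0 : ∀ k ∈ ({1, 2, 3, 4} : Finset Z5), ∀ a b : Z5, k * a = k * b → a = b := by decide
  have a : k * P.1 = l * Q.1 := congrFun h 0
  have b : k * P.2.1 = l * Q.2.1 := congrFun h 1
  obtain rfl : k = l := by
    rcases S2 P hp.1 with h1 | ⟨h1, h2⟩ <;> rcases S2 Q hq.1 with h3 | ⟨h3, h4⟩
    · simpa [h1, h3] using a
    · rw [h1, h3, mul_zero, ← mul_zero k] at a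
      exact absurd (k0 k hp.2 _ _ a) (by decide)
    · rw [h1, h3, mul_zero, ← mul_zero l] at a
      exact absurd (k0 l hq.2 _ _ a) (by decide)
    · simpa [h2, h4] using b
  exact Prod.ext (Prod.ext (k0 k hp.2 _ _ a) (Prod.ext (k0 k hp.2 _ _ b)
    (Prod.ext (k0 k hp.2 _ _ (congrFun h 2)) (k0 k hp.2 _ _ (congrFun h 3))))) rfl

theorem Cdis : Disjoint ((S ×ˢ ({1, 2, 3, 4} : Finset Z5)).image fun p => p.2 • tw p.1) {e3, -e3} := by
  rw [disjoint_left]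
  intro c hc h
  obtain ⟨p, hp, rfl⟩ := mem_image.1 hc
  rw [mem_product] at hp
  simp only [mem_insert, mem_singleton] at h
  rcases h with h | h <;>
    exact (S1 _ hp.1 _ hp.2).elim (fun e => e (congrFun h 0)) fun e => e (congrFun h 1)

theorem Scard : #S = 30 := by decide +kernel

noncomputable def ψ : AddChar Z5 ℂ := ZMod.stdAddChar

theorem psi_eq (r : Z5) : ψ r = exp (2 * Real.pi * I * (r.val : ℕ) / (5 : ℕ)) :=
  ZMod.toCircle_apply r

theorem psi_norm (r : Z5) : ‖ψ r‖ = 1 := Circle.norm_coe _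

theorem psi_sum (b : Z5) : ∑ x, ψ (x * b) = if b = 0 then 5 else 0 := by
  have := AddChar.sum_mulShift b (ZMod.isPrimitive_stdAddChar 5)
  simpa [ψ] using this

noncomputable def lam (y : W) : ℂ := ∑ c ∈ C, ψ (dot c y)

noncomputable def β (u : Z5) : ℂ := ψ u + ψ (-u)

theorem lam_eq (y : W) : lam y = 5 * N (y 0) (y 1) (y 2) (y 3) - 30 + β (y 2) := by
  have h1 : ∀ P : W, ∑ k ∈ ({1, 2, 3, 4} : Finset Z5), ψ (dot (k • P) y) =
      (if dot P y = 0 then 5 else 0) - 1 := by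
    intro P
    have : ∀ k : Z5, dot (k • P) y = k * dot P y := fun k => by
      simp only [dot, Pi.smul_apply, smul_eq_mul, mul_sum, mul_assoc]
    rw [← psi_sum, show (univ : Finset Z5) = insert 0 {1, 2, 3, 4} by decide,
      sum_insert (a := 0) (by decide)]
    simp only [this, zero_mul, AddChar.map_zero_eq_one, add_sub_cancel_left]
  rw [lam, C, sum_union Cdis, sum_image Cinj, sum_product, sum_congr rfl fun P _ => h1 (tw P),
    sum_pair (by decide), sum_sub_distrib, ← sum_filter]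
  simp [N, Scard, β, dot, e3, tw, Fin.sum_univ_four, mul_comm (5 : ℂ)]

theorem beta_re (u : Z5) : ∃ r : ℝ, β u = r := by
  exact ⟨_, by rw [β, AddChar.map_neg_eq_conj, add_conj]⟩

theorem beta_sq : β 1 ^ 2 + β 1 = 1 := by
  have h := psi_sum 1
  rw [show (univ : Finset Z5) = {0, 1, 2, 3, 4} by decide] at h
  rw [sum_insert (by decide), sum_insert (by decide), sum_insert (by decide), sum_pair (by decide),
    if_neg (by decide)] at h
  simp only [mul_one, AddChar.map_zero_eq_one] at h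
  have a : ψ 1 * ψ 1 = ψ 2 := (ψ.map_add_eq_mul 1 1).symm
  have b : ψ 1 * ψ 4 = 1 := (ψ.map_add_eq_mul 1 4).symm.trans ψ.map_zero_eq_one
  have c : ψ 4 * ψ 4 = ψ 3 := (ψ.map_add_eq_mul 4 4).symm
  rw [β, show (-1 : Z5) = 4 from rfl]
  linear_combination h + a + 2 * b + c

theorem irr (r : ℚ) : lam e3 ≠ r := by
  intro h
  rw [lam_eq] at h
  have h2 := beta_sq
  generalize N _ _ _ _ = m at h
  rw [show β 1 = ((r - 5 * m + 30 : ℚ) : ℂ) by
    push_cast; rw [← h, show e3 2 = 1 from rfl]; ring] at h2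
  generalize r - 5 * m + 30 = s at h2
  have h3 : ((2 * s + 1 : ℚ) : ℝ) ^ 2 = (5 : ℕ) := by
    have : s ^ 2 + s = 1 := by exact_mod_cast h2
    have : (2 * s + 1) ^ 2 = 5 := by linear_combination 4 * this
    exact_mod_cast this
  refine Nat.prime_five.irrational_sqrt ⟨|2 * s + 1|, ?_⟩
  rw [← h3, Real.sqrt_sq_eq_abs, Rat.cast_abs]

noncomputable def t0 : ℝ := 2 * Real.pi / 25

theorem flat (a : W) : ‖∑ y, exp (-(I * t0 * lam y)) * ψ (dot a y)‖ = 25 := by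
  let g : Z5 → Z5 → ℂ := fun c d => ψ (-(N 0 0 c d : Z5)) * exp (I * (t0 * 30 : ℝ)) *
    exp (-(I * t0 * β c)) * ψ (a 2 * c + a 3 * d)
  have h1 : ∀ x z c d : Z5, exp (-(I * t0 * lam ![x, z, c, d])) * ψ (dot a ![x, z, c, d]) =
      g c d * (ψ (x * (a 0 - c ^ 3)) * ψ (z * (a 1 + d ^ 3))) := by
    intro x z c d
    have e1 : exp (-(I * t0 * (5 * N x z c d))) = ψ (-(N x z c d : Z5)) := by
      rw [show (-(N x z c d : Z5)) = ((-(N x z c d : ℤ) : ℤ) : Z5) by simp, ψ,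
        ZMod.stdAddChar_coe, t0]
      congr 1; push_cast; ring
    rw [show lam ![x, z, c, d] = 5 * N x z c d - 30 + β c from lam_eq _,
      show -(I * t0 * (5 * N x z c d - 30 + β c)) =
      -(I * t0 * (5 * N x z c d)) + I * (t0 * 30 : ℝ) + -(I * t0 * β c) by
        push_cast; ring, exp_add, exp_add, e1, hN]
    have e2 : ψ (-(x * c ^ 3 - z * d ^ 3 + N 0 0 c d)) * ψ (dot a ![x, z, c, d]) =
        ψ (-(N 0 0 c d : Z5)) * ψ (a 2 * c + a 3 * d) *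
          (ψ (x * (a 0 - c ^ 3)) * ψ (z * (a 1 + d ^ 3))) := by
      simp only [← AddChar.map_add_eq_mul]
      congr 1
      simp [dot, Fin.sum_univ_four]; ring
    simp only [g]
    linear_combination exp (I * (t0 * 30 : ℝ)) * exp (-(I * t0 * β c)) * e2
  let q : Z5 × Z5 × Z5 × Z5 ≃ W := ⟨fun p => ![p.2.2.1, p.2.2.2, p.1, p.2.1],
    fun y => (y 2, y 3, y 0, y 1), fun _ => rfl, fun y => by ext i; fin_cases i <;> rfl⟩
  have k1 : ∀ u c : Z5, u - c ^ 3 = 0 ↔ c = u ^ 3 := by decide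
  have k2 : ∀ u c : Z5, u + c ^ 3 = 0 ↔ c = - u ^ 3 := by decide
  rw [← q.sum_comp]
  simp only [q, Equiv.coe_fn_mk, h1, Fintype.sum_prod_type, ← mul_sum, ← sum_mul, psi_sum, k1, k2,
    mul_ite, ite_mul, mul_zero, zero_mul, sum_ite_eq', mem_univ, if_true, sum_ite_irrel,
    sum_const_zero]
  obtain ⟨r, hr⟩ := beta_re (a 0 ^ 3)
  have n1 : ‖exp (-(I * t0 * β (a 0 ^ 3)))‖ = 1 := by
    rw [hr, show -(I * t0 * r) = I * (-(t0 * r) : ℝ) by push_cast; ring, norm_exp_I_mul_ofReal]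
  simp only [g, norm_mul, psi_norm, n1, norm_exp_I_mul_ofReal]
  norm_num

end Pool.Agent.H17.UM
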