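import Mathlib

set_option autoImplicit false

namespace Pool.Agent.H17.Ulam

def M : ℕ := 112152222983426293892490054819760946348856957563486335002881047050326163958764403277648221872420375250097030933372869781790721097943390700843111902576799462678138949306205748820747117861452682815733823776458004303366527503047071395876796781491108802978870258631453230280308335794189466863034274421500763490708173424970814058446936288976886479437834424198153853492817721998095769826531005555755718581476526664740604490523585906127674220834142404799427507552757263792869377371065363517612662866841363682499873656064677220149053700284364627232126745247726418937695622527795034761473207189214352340903146148339994204070262393462259484236251552875984418070097714734102493733569322394975012039531419729627374714964853641812316661688109553818559543482042334012274041948918764078885894981136819703441358356069737079836386813042672021902571253123013870302571849435936263980664508513153023722621887436974657482422452517288379380497496501754378948229955280323706335155125285444071311224825083716705875342339881289907715308282707575893343278120002917302852178277556262740620808034542432336581444043866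17599376065665173706877983052839296442880490081794955632961172722067631987127248202757964409424560866233256703900461596602136746465709052559427151064351294781196966048169924151403479835017998189326672179917045622333083556436904523418712964882845555991508316974284565911583317634722094037709039288962053235599399454171455540194594794257381616134033291709059090662065847076833748892306371728784710491679006879308722604653300790441616850207002921635518104288930530481959426918233464733848455645975987219417071879102529052090477796145311252339275507415870921099078239052574489096954997317881518544314785525628385570673536343222875721671718250394752598940113417071115342582661768362433383108046259507420617212374494295513307731079054638968202109633437030358025285449363606467041418645381403180470535135152461737246577573795502987086952893877734413769702711365515613105493036064991051612380539842675416111254586128262427755626670665500850202683742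

def R : ℕ := 2812757746287865470172834961490776667948097393861612593791253545020492707169457417323185742199419296498418784403047308430628570671264584496967486508226547028636969249111263820673062027088473982422436792348458913037602617601787779773100326584086918529077979443630192071745999668246930542192507372512689819740976595974991167034250615320624314346447741940463879912432514255900510945178141296918937881602959788423553290105035000664408701564338166545299421850037867152247876905952254722288664950033083732534881390718033700874939559451145635002736959954592039831488241638775192617791579964012452181957138499811255625233511101489435862631283430453972501035266536412172260778849548996019877501740245217332289903941231862430318971509254589942304328818357293589819521163980917394796753354043274305380729067855204505157170721340415554888379422226359654160395682652712458341166018689929594366752109699186260308941112629301667323645560400543850097395691773751020868638628954324189754491297546088616356589420113128548782397584126021446629694246836191379107892485808896700584614854369495607582685038216955021003273282544511768658681200945258748005191804432663468312074094398547774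28946026109696941950354735694742135786001218552144919978071142369516687473010370052589518335461052618721753773902194357701968717194961882281335755790818552341836093158883965189641390193376362206516302821227040003057507059858722652163669773329768332489263459604389668823112836721281902104060779528733953004182412393228014638937623477914782485335204255678123764889514606799810421225657877471268531830462995145639954774461310869718025337311573237256959336999899137924312229056343128460640961937290179081252587374307427671295675982434419027979411834838817678141547667542000757081881028936367577016826282899430711617029779696744449366491307395601482798151795393430347884183881196081076425488108162771343900961647540558375305591308870478408284103648829638661258631637142370886249226725421783953388896393344861016939287028676854591549564638735994581020480653976555033065951330304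

def A (m : ℕ) : ℕ := (M &&& (R >>> (6765 - m))) % 2 ^ ((m + 1) / 2)

def allLt (p : ℕ → Bool) (n : ℕ) : Bool := Nat.rec true (fun k ih => p k && ih) n

theorem allLt_spec (p : ℕ → Bool) (n : ℕ) (h : allLt p n = true) : ∀ a < n, p a = true := by
  induction n with
  | zero => simp
  | succ n ih =>
    have h' : (p n && allLt p n) = true := h
    rw [Bool.and_eq_true] at h'
    intro a ha
    rcases Nat.lt_succ_iff_lt_or_eq.1 ha with e | e
    · exact ih h'.2 a e
    · rw [e]; exact h'.1

theorem R_spec : allLt (fun a => R.testBit (6765 - a) == M.testBit a) 6766 = true := by
  decide +kernel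

theorem ok : allLt (fun m => Nat.blt m 3 ||
    M.testBit m == (2 ^ 3400 % A m == 0)) 6766 = true := by decide +kernel

theorem A_spec (m : ℕ) (hm : m ≤ 6765) (a : ℕ) : (A m).testBit a = true ↔
    2 * a < m ∧ M.testBit a = true ∧ M.testBit (m - a) = true := by
  rw [A, Nat.testBit_mod_two_pow, Nat.testBit_and, Nat.testBit_shiftRight]
  simp only [Bool.and_eq_true, decide_eq_true_eq]
  refine and_congr (by omega) Iff.rfl |>.trans (and_congr_right fun h => ?_)
  have := allLt_spec _ _ R_spec (m - a) (by omega)
  rw [beq_iff_eq] at this
  rw [← this, show 6765 - m + a = 6765 - (m - a) by omega]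

theorem ok_all (m : ℕ) (h3 : 3 ≤ m) (hm : m ≤ 6765) : M.testBit m = true ↔
    ∃! a, 2 * a < m ∧ M.testBit a = true ∧ M.testBit (m - a) = true := by
  have := allLt_spec _ _ ok m (by omega)
  rw [Bool.or_eq_true, Nat.blt_eq, or_iff_right (by omega), beq_iff_eq] at this
  rw [this, beq_iff_eq]
  simp only [← A_spec m hm]
  rw [← Nat.dvd_iff_mod_eq_zero, Nat.dvd_prime_pow Nat.prime_two]
  constructor
  · rintro ⟨k, _, h⟩
    refine ⟨k, ?_, fun b hb => ?_⟩
    · show (A m).testBit k = true
      rw [h, Nat.testBit_two_pow_self]
    · rw [h, Nat.testBit_two_pow] at hb
      exact (of_decide_eq_true hb).symm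
  · rintro ⟨a, ha, hu⟩
    refine ⟨a, by have := ((A_spec m hm a).1 ha).1; omega, Nat.eq_of_testBit_eq fun b => ?_⟩
    rw [Nat.testBit_two_pow]
    by_cases hb : a = b
    · rw [← hb, ha]; simp
    · have : ¬ (A m).testBit b = true := fun h => hb (hu b h).symm
      simp [hb, this]

section
variable (u : ℕ → ℕ) (h0 : u 0 = 1) (h1 : u 1 = 2)
  (hr : ∀ n, u (n + 2) = sInf {m | u (n + 1) < m ∧
      ∃! p : Fin (n + 2) × Fin (n + 2), p.1 < p.2 ∧ u p.1 + u p.2 = m})
include h0 h1 hr

theorem step (n : ℕ) : (∀ i j, i < j → j < n + 2 → u i < u j) ∧ u (n + 1) < u (n + 2) ∧
      ∃! p : Fin (n + 2) × Fin (n + 2), p.1 < p.2 ∧ u p.1 + u p.2 = u (n + 2) := by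
  have key : ∀ n, (∀ i j, i < j → j < n + 2 → u i < u j) → u (n + 1) < u (n + 2) ∧
      ∃! p : Fin (n + 2) × Fin (n + 2), p.1 < p.2 ∧ u p.1 + u p.2 = u (n + 2) := by
    intro n ih
    have le : ∀ i j, i ≤ j → j < n + 2 → u i ≤ u j := fun i j hij hj => by
      rcases hij.eq_or_lt with e | e
      · rw [e]
      · exact (ih i j e hj).le
    have hne : Set.Nonempty {m | u (n + 1) < m ∧
        ∃! p : Fin (n + 2) × Fin (n + 2), p.1 < p.2 ∧ u p.1 + u p.2 = m} := by
      refine ⟨u n + u (n + 1), ?_, (⟨n, by omega⟩, ⟨n + 1, by omega⟩), ⟨?_, rfl⟩, ?_⟩
      · have := le 0 n (by omega) (by omega)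
        omega
      · simp [Fin.lt_def]
      · rintro ⟨⟨i, hi⟩, ⟨j, hj⟩⟩ ⟨hij, e⟩
        simp only [Fin.lt_def] at hij e
        have a1 := le i n (by omega) (by omega)
        have a2 := le j (n + 1) (by omega) (by omega)
        have b1 : i = n := by
          by_contra hc
          have := ih i n (by omega) (by omega)
          omega
        have b2 : j = n + 1 := by omega
        simp [b1, b2]
    have := Nat.sInf_mem hne
    rw [← hr] at this
    exact this
  have mono : ∀ n, ∀ i j, i < j → j < n + 2 → u i < u j := by
    intro n
    induction n with
    | zero =>
      intro i j hij hj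
      have : i = 0 := by omega
      have : j = 1 := by omega
      subst_vars
      omega
    | succ n ih =>
      intro i j hij hj
      by_cases hj' : j < n + 2
      · exact ih i j hij hj'
      have ej : j = n + 2 := by omega
      have := (key n ih).1
      by_cases hi : i = n + 1
      · rw [ej, hi]; exact this
      · rw [ej]; exact (ih i (n + 1) (by omega) (by omega)).trans this
  exact ⟨mono n, key n (mono n)⟩

theorem smono : StrictMono u := fun i j h => (step u h0 h1 hr j).1 i j h (by omega)

theorem mem_iff (m : ℕ) (hm : m ≤ 6765) : (∃ i, u i = m) ↔ M.testBit m = true := by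
  have sm := smono u h0 h1 hr
  have pos : ∀ i, 1 ≤ u i := fun i => h0 ▸ sm.monotone (Nat.zero_le i)
  induction m using Nat.strong_induction_on with
  | _ m ih =>
  by_cases h3 : m < 3
  · interval_cases m
    · refine iff_of_false (fun ⟨i, hi⟩ => ?_) (by decide +kernel)
      have := pos i
      omega
    · exact iff_of_true ⟨0, h0⟩ (by decide +kernel)
    · exact iff_of_true ⟨1, h1⟩ (by decide +kernel)
  have hex : ∃ n, m ≤ u (n + 2) := ⟨m, (by omega : m ≤ m + 2).trans (sm.id_le _)⟩
  obtain ⟨n, hn, hn'⟩ : ∃ n, m ≤ u (n + 2) ∧ u (n + 1) < m := by
    refine ⟨Nat.find hex, Nat.find_spec hex, ?_⟩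
    rcases e : Nat.find hex with _ | k
    · simp only [zero_add]; omega
    · have := Nat.find_min hex (m := k) (by omega)
      exact not_le.1 this
  rw [ok_all m (by omega) hm]
  have equiv : (∃! p : Fin (n + 2) × Fin (n + 2), p.1 < p.2 ∧ u p.1 + u p.2 = m) ↔
      ∃! a, 2 * a < m ∧ M.testBit a = true ∧ M.testBit (m - a) = true := by
    have f : ∀ p : Fin (n + 2) × Fin (n + 2), p.1 < p.2 ∧ u p.1 + u p.2 = m →
        2 * u p.1 < m ∧ M.testBit (u p.1) = true ∧ M.testBit (m - u p.1) = true := by
      rintro ⟨i, j⟩ ⟨hij, e⟩
      have := sm (Fin.lt_def.1 hij)
      have := pos i
      simp only at *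
      exact ⟨by omega, (ih _ (by omega) (by omega)).1 ⟨i, rfl⟩,
        (ih _ (by omega) (by omega)).1 ⟨j, by omega⟩⟩
    have g : ∀ a, 2 * a < m ∧ M.testBit a = true ∧
        M.testBit (m - a) = true → ∃ p : Fin (n + 2) × Fin (n + 2),
          (p.1 < p.2 ∧ u p.1 + u p.2 = m) ∧ u p.1 = a := by
      intro a ha
      obtain ⟨h2, ta, tb⟩ := ha
      obtain ⟨i, hi⟩ := (ih a (by omega) (by omega)).2 ta
      have := pos i
      obtain ⟨j, hj⟩ := (ih (m - a) (by omega) (by omega)).2 tb
      have hj' : j < n + 2 := sm.lt_iff_lt.1 (by omega)
      have hij : i < j := sm.lt_iff_lt.1 (by omega)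
      exact ⟨(⟨i, by omega⟩, ⟨j, hj'⟩), ⟨hij, by simp only; omega⟩, hi⟩
    constructor
    · rintro ⟨p, hp, hu⟩
      refine ⟨_, f p hp, fun a ha => ?_⟩
      obtain ⟨q, hq, e⟩ := g a ha
      rw [← e, hu q hq]
    · rintro ⟨a, ha, hu⟩
      obtain ⟨p, hp, e⟩ := g a ha
      refine ⟨p, hp, fun q hq => ?_⟩
      have e1 : u q.1 = u p.1 := by rw [e]; exact hu _ (f q hq)
      have e2 : u q.2 = u p.2 := by have := hp.2; have := hq.2; omega
      exact Prod.ext (Fin.ext (sm.injective e1)) (Fin.ext (sm.injective e2))
  rw [← equiv]
  constructor
  · rintro ⟨i, hi⟩
    have a1 : n + 1 < i := sm.lt_iff_lt.1 (by omega)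
    have a2 : i ≤ n + 2 := sm.le_iff_le.1 (by omega)
    have : i = n + 2 := by omega
    rw [← hi, this]
    exact (step u h0 h1 hr n).2.2
  · intro h
    refine ⟨n + 2, le_antisymm ?_ hn⟩
    rw [hr]
    exact Nat.sInf_le ⟨hn', h⟩

theorem not_sum (m : ℕ) (hm : m ≤ 6765) (ht : M.testBit m = false) (hc : A m = 0) :
    ¬ ((∃ i, u i = m) ∨ ∃ i j, i < j ∧ u i + u j = m) := by
  have sm := smono u h0 h1 hr
  rintro (h | ⟨i, j, hij, e⟩)
  · rw [mem_iff u h0 h1 hr m hm, ht] at h
    exact absurd h (by simp)
  · have := sm hij
    have := (A_spec m hm (u i)).2 ⟨by omega,
      (mem_iff u h0 h1 hr _ (by omega)).1 ⟨i, rfl⟩, (mem_iff u h0 h1 hr _ (by omega)).1 ⟨j, by omega⟩⟩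
    rw [hc] at this
    simp at this

end

end Pool.Agent.H17.Ulam
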