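import Mathlib

set_option autoImplicit false

namespace Pool.Agent.H17.WL

variable {V C : Type}

/-- the colours of round `t` -/
def Col (k : ℕ) (C : Type) : ℕ → Type
  | 0 => (Fin k → Fin k → Prop × Prop) × (Fin k → C)
  | t + 1 => Col k C t × Multiset (Fin k → Col k C t)

/-- the colour of a `k`-tuple in round `t` -/
noncomputable def wl [Fintype V] (k : ℕ) (G : SimpleGraph V) (c : V → C) :
    (t : ℕ) → (Fin k → V) → Col k C t
  | 0, S => (fun i j => (S i = S j, G.Adj (S i) (S j)), fun i => c (S i))
  | t + 1, S => (wl k G c t S,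
      Finset.univ.val.map fun x => fun i => wl k G c t (Function.update S i x))

/-- `r`-fold nested multisets -/
def Nest (X : Type) : ℕ → Type
  | 0 => X
  | r + 1 => Multiset (Nest X r)

/-- downward colouring: the colour of the tuple formed by the first `k - r` entries of `S`; the last
`r` entries are overwritten one after the other -/
noncomputable def down [Fintype V] {k : ℕ} {X : Type} (F : (Fin k → V) → X) :
    (r : ℕ) → (Fin k → V) → Nest X r
  | 0, S => F S
  | r + 1, S => Finset.univ.val.map fun y =>
      down F r fun i => if i.val = k - (r + 1) then y else S i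

theorem map_equiv [Fintype V] {Y : Type} (f : V ≃ V) (a b : V → Y) (h : ∀ x, a x = b (f x)) :
    Finset.univ.val.map a = Finset.univ.val.map b := by
  have : (Finset.univ : Finset V).val.map f = Finset.univ.val := by
    simp
  conv_rhs => rw [← this, Multiset.map_map]
  exact Multiset.map_congr rfl fun x _ => h x

theorem game [Fintype V] {k : ℕ} (G : SimpleGraph V) (c : V → C)
    (E : (Fin k → V) → (Fin k → V) → Prop)
    (h0 : ∀ α β, E α β → (∀ i j, (α i = α j ↔ β i = β j) ∧ (G.Adj (α i) (α j) ↔ G.Adj (β i) (β j)))
      ∧ ∀ i, c (α i) = c (β i))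
    (h1 : ∀ α β, E α β → ∃ f : V ≃ V, ∀ x i,
      E (Function.update α i x) (Function.update β i (f x))) (T : ℕ) :
    ∀ r, r < k → ∀ α β, E α β → down (wl k G c T) r α = down (wl k G c T) r β := by
  have a : ∀ t α β, E α β → wl k G c t α = wl k G c t β := by
    intro t
    induction t with
    | zero =>
      intro α β h
      obtain ⟨k1, k2⟩ := h0 α β h
      refine Prod.ext (funext fun i => funext fun j => ?_) (funext k2)
      exact Prod.ext (propext (k1 i j).1) (propext (k1 i j).2)
    | succ t ih =>
      intro α β h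
      obtain ⟨f, hf⟩ := h1 α β h
      exact Prod.ext (ih α β h) (map_equiv f _ _ fun x => funext fun i => ih _ _ (hf x i))
  intro r
  induction r with
  | zero => exact fun _ => a T
  | succ r ih =>
    intro hr α β h
    obtain ⟨f, hf⟩ := h1 α β h
    refine map_equiv f _ _ fun x => ih (by omega) _ _ ?_
    have e : ∀ (S : Fin k → V) (y : V), (fun i : Fin k => if i.val = k - (r + 1) then y else S i) =
        Function.update S ⟨k - (r + 1), by omega⟩ y := by
      intro S y; funext i
      rw [Function.update_apply]
      exact if_congr (by simp [Fin.ext_iff]) rfl rfl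
    rw [e, e]; exact hf x _

theorem extract [Fintype V] {k : ℕ} (G : SimpleGraph V) (c : V → C) (T : ℕ) (hk : 0 < k) :
    ∀ r, r < k → ∀ α β : Fin k → V, down (wl k G c T) r α = down (wl k G c T) r β →
      c (α ⟨0, hk⟩) = c (β ⟨0, hk⟩) := by
  have a : ∀ t α β, wl k G c t α = wl k G c t β → c (α ⟨0, hk⟩) = c (β ⟨0, hk⟩) := by
    intro t
    induction t with
    | zero => exact fun α β h => congrFun (congrArg Prod.snd h) _
    | succ t ih => exact fun α β h => ih α β (congrArg Prod.fst h)
  intro r
  induction r with
  | zero => exact fun _ => a T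
  | succ r ih =>
    intro hr α β h
    have h1 : down (wl k G c T) r (fun i => if i.val = k - (r + 1) then α ⟨0, hk⟩ else α i) ∈
        (show Multiset (Nest (Col k C T) r) from down (wl k G c T) (r + 1) α) :=
      Multiset.mem_map.2 ⟨_, Finset.mem_univ_val _, rfl⟩
    rw [h] at h1
    obtain ⟨y, -, hy⟩ := Multiset.mem_map.1 h1
    have := ih (by omega) _ _ hy
    simp only [show ¬ (0 = k - (r + 1)) by omega, if_false] at this
    exact this.symm

theorem auto [Fintype V] {k : ℕ} (G : SimpleGraph V) (c : V → C) (T : ℕ) (π : G ≃g G)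
    (hπ : ∀ x, c (π x) = c x) (r : ℕ) (hr : r < k) (u : V) :
    down (wl k G c T) r (fun _ => u) = down (wl k G c T) r (fun _ => π u) := by
  refine game G c (fun α β => β = π ∘ α) ?_ ?_ T r hr _ _ rfl
  · rintro α β rfl
    exact ⟨fun i j => ⟨π.injective.eq_iff.symm, π.map_adj_iff.symm⟩, fun i => (hπ _).symm⟩
  · rintro α β rfl
    exact ⟨π.toEquiv, fun x i => (Function.comp_update _ _ _ _).symm⟩

end Pool.Agent.H17.WL
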